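import Pool.Agent.MP_2a197d_al.LB9

/-! The group part: from abelian normal subgroups in closed fully invariant quotients to
solvability. -/

set_option linter.unusedSectionVars false

namespace Pool.Agent.MP_2a197d_al.LB

open scoped commutatorElement Pointwise
open Function T Subgroup

universe u

variable {G : Type u} [Group G]

/-- Fully invariant subgroups. -/
def FI (N : Subgroup G) : Prop := ∀ f : G →* G, N.map f ≤ N

theorem FI.normal {N : Subgroup G} (h : FI N) : N.Normal :=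
  ⟨fun _ ha g => h (MulAut.conj g).toMonoidHom (mem_map_of_mem _ ha)⟩

/-- Kernels of maps to torsion-free nilpotent groups. -/
def TN (K : Subgroup G) : Prop :=
  K.Normal ∧ (∃ c, (gs G).H c ≤ K) ∧ ∀ (h : G) (k : ℕ), k ≠ 0 → h ^ k ∈ K → h ∈ K

theorem TN.comap {K : Subgroup G} (h : TN K) (f : G →* G) : TN (K.comap f) := by
  obtain ⟨h1, ⟨c, h2⟩, h3⟩ := h
  exact ⟨h1.comap f, ⟨c, fun g hg => h2 (gs_map f c g hg)⟩,
    fun g k hk hg => h3 (f g) k hk (by rw [← map_pow]; exact hg)⟩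

theorem surj {x : ℕ → G} (hx : RF x) (f : G →* G) (g : G) :
    ∃ f' : G →* G, Surjective f' ∧ f' g = f g := by
  obtain ⟨K, hK⟩ : ∃ K, g ∈ closure (x '' Set.Iio K) := by
    have mo : ∀ {K K' : ℕ}, K ≤ K' → closure (x '' Set.Iio K) ≤ closure (x '' Set.Iio K') :=
      fun h => closure_mono (Set.image_mono (Set.Iio_subset_Iio h))
    refine closure_induction (p := fun g _ => ∃ K, g ∈ closure (x '' Set.Iio K)) ?_
      ⟨0, one_mem _⟩ ?_ ?_ (hx.gen ▸ mem_top g)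
    · rintro _ ⟨j, rfl⟩
      exact ⟨j + 1, subset_closure ⟨j, Nat.lt_succ_self j, rfl⟩⟩
    · rintro a b _ _ ⟨K, hK⟩ ⟨K', hK'⟩
      exact ⟨max K K', mul_mem (mo (le_max_left _ _) hK) (mo (le_max_right _ _) hK')⟩
    · rintro a _ ⟨K, hK⟩
      exact ⟨K, inv_mem hK⟩
  obtain ⟨f', hf'⟩ := hx.ex fun j => if j < K then f (x j) else x (j - K)
  refine ⟨f', ?_, MonoidHom.eqOn_closure ?_ hK⟩
  · rw [← MonoidHom.range_eq_top, eq_top_iff, ← hx.gen, closure_le]
    rintro _ ⟨j, rfl⟩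
    exact ⟨x (j + K), by simp [hf']⟩
  · rintro _ ⟨j, hj, rfl⟩
    rw [hf', if_pos (show j < K from hj)]

theorem lift_fi {N : Subgroup G} [N.Normal] (hN : FI N) (f : G →* G) :
    ∃ f' : G ⧸ N →* G ⧸ N, ∀ g : G, f' (QuotientGroup.mk' N g) = QuotientGroup.mk' N (f g) :=
  ⟨QuotientGroup.map N N f (map_le_iff_le_comap.1 (hN f)), fun _ => rfl⟩

theorem quot {x : ℕ → G} (hx : RF x) {N : Subgroup G} [N.Normal] (hN : FI N) :
    RF fun j => QuotientGroup.mk' N (x j) := by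
  refine ⟨?_, fun g => ?_⟩
  · rw [Set.range_comp' (QuotientGroup.mk' N) x, ← MonoidHom.map_closure, hx.gen,
      ← MonoidHom.range_eq_map, QuotientGroup.range_mk']
  · choose y hy using fun j => QuotientGroup.mk'_surjective N (g j)
    obtain ⟨f, hf⟩ := hx.ex y
    obtain ⟨f', hf'⟩ := lift_fi hN f
    exact ⟨f', fun j => by rw [hf', hf, hy]⟩

theorem map_H (N : Subgroup G) [N.Normal] (c : ℕ) :
    ((gs G).H c).map (QuotientGroup.mk' N) = (gs (G ⧸ N)).H c := by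
  change ((⊤ : Subgroup G).lowerCentralSeries c).map _ = (⊤ : Subgroup _).lowerCentralSeries c
  rw [map_lowerCentralSeries, ← MonoidHom.range_eq_map, QuotientGroup.range_mk']

theorem nilq {N : Subgroup G} [N.Normal] {c : ℕ} (h : (gs G).H c ≤ N) :
    Group.IsNilpotent (G ⧸ N) := Subgroup.nilpotent_iff_lowerCentralSeries.2 ⟨c, by
  change (gs (G ⧸ N)).H c = ⊥
  rwa [← map_H, Subgroup.map_eq_bot_iff, QuotientGroup.ker_mk']⟩

theorem cz (h : ∀ z ∈ center G, ∀ k : ℕ, k ≠ 0 → z ^ k = 1 → z = 1) :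
    ∀ z ∈ center (G ⧸ center G), ∀ k : ℕ, k ≠ 0 → z ^ k = 1 → z = 1 := by
  intro z hz k hk h1
  obtain ⟨z, rfl⟩ := QuotientGroup.mk'_surjective _ z
  rw [← map_pow] at h1
  have h2 : z ^ k ∈ center G := (QuotientGroup.eq_one_iff _).1 h1
  refine (QuotientGroup.eq_one_iff _).2 (mem_center_iff.2 fun g => ?_)
  have h3 : g * z * g⁻¹ * z⁻¹ ∈ center G := by
    refine (QuotientGroup.eq_one_iff _).1 ?_
    change QuotientGroup.mk' _ _ = 1
    rw [map_mul, map_mul, map_mul, mem_center_iff.1 hz]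
    simp
  have h4 : (g * z * g⁻¹ * z⁻¹) ^ k * z ^ k = z ^ k := by
    rw [← Commute.mul_pow (mem_center_iff.1 h3 z).symm, inv_mul_cancel_right, conj_pow,
      mem_center_iff.1 h2 g, mul_inv_cancel_right]
  have h5 := h _ h3 k hk (mul_eq_right.1 h4)
  rwa [mul_inv_eq_one, mul_inv_eq_iff_eq_mul] at h5

theorem tfz (G : Type u) [Group G] [Group.IsNilpotent G] :
    (∀ z ∈ center G, ∀ k : ℕ, k ≠ 0 → z ^ k = 1 → z = 1) →
      ∀ (g : G) (k : ℕ), k ≠ 0 → g ^ k = 1 → g = 1 := by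
  refine Group.nilpotent_center_quotient_ind (P := fun G _ _ =>
    (∀ z ∈ center G, ∀ k : ℕ, k ≠ 0 → z ^ k = 1 → z = 1) →
      ∀ (g : G) (k : ℕ), k ≠ 0 → g ^ k = 1 → g = 1) G
    (fun G _ _ _ g _ _ _ => Subsingleton.elim _ _) fun G _ _ ih h g k hk hg => ?_
  refine h g ((QuotientGroup.eq_one_iff _).1 (ih (cz h) _ k hk ?_)) k hk hg
  rw [← QuotientGroup.mk_pow, hg, QuotientGroup.mk_one]

theorem dil (G : Type u) [Group G] [Group.IsNilpotent G] (t : T) (e : t.Lf → ℕ) (he : Injective e) :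
    ∀ x : ℕ → G, RF x → (∀ (g : G) (k : ℕ), k ≠ 0 → g ^ k = 1 → g = 1) → ∀ j : ℕ, j ≠ 0 →
      (gev t fun i => x (e i)) ^ j ∈ (gs G).H (Fintype.card t.Lf) →
      (gev t fun i => x (e i)) = 1 := by
  refine Group.nilpotent_center_quotient_ind (P := fun G _ _ =>
    ∀ x : ℕ → G, RF x → (∀ (g : G) (k : ℕ), k ≠ 0 → g ^ k = 1 → g = 1) → ∀ j : ℕ, j ≠ 0 →
      (gev t fun i => x (e i)) ^ j ∈ (gs G).H (Fintype.card t.Lf) →
      (gev t fun i => x (e i)) = 1) G (fun G _ _ _ _ _ _ _ _ => Subsingleton.elim _ _) ?_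
  · intro G _ _ ih x hx hT j hj h
    have hZ : FI (center G) := by
      rintro f _ ⟨z, hz, rfl⟩
      obtain ⟨f', h1, h2⟩ := surj hx f z
      rw [← h2]
      refine mem_center_iff.2 fun g => ?_
      obtain ⟨g, rfl⟩ := h1 g
      rw [← map_mul, ← map_mul, mem_center_iff.1 hz]
    have hu : (gev t fun i => x (e i)) ∈ center G := by
      refine (QuotientGroup.eq_one_iff _).1 ((gev_map (QuotientGroup.mk' _) t _).trans ?_)
      refine ih _ (quot hx hZ) (tfz _ (cz fun z _ => hT z)) j hj ?_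
      rw [← gev_map (QuotientGroup.mk' (center G)), ← map_pow, ← map_H]
      exact mem_map_of_mem _ h
    set u := gev t fun i => x (e i) with hud
    have key : ∀ m, ∃ j : ℕ, j ≠ 0 ∧ u ^ j ∈ (gs G).H m := by
      intro m
      induction m with
      | zero => exact ⟨1, one_ne_zero, (gs G).top _⟩
      | succ m ih =>
        by_cases hm : m + 1 ≤ Fintype.card t.Lf
        · exact ⟨j, hj, (gs G).anti hm h⟩
        obtain ⟨j, hj, ih⟩ := ih
        obtain ⟨φ, hφ⟩ := hx.ex fun j => x j ^ 2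
        have h1 := scale φ 2 (scale_gen φ 2 hx.gen (by
          rintro _ ⟨j, rfl⟩
          rw [hφ, (gs G).sy_pow ((gs G).top _)])) m _ ih
        have h2 : ∀ v ∈ VC t fun i => x (e i), v ∈ center G ∧ v ^ j ∈ (gs G).H m ∧
            (gs G).sy m (v ^ j) = (gs G).sy m (u ^ j) := by
          rintro _ ⟨g, rfl⟩
          obtain ⟨ψ, hψ⟩ := hx.ex fun j => extend e g 1 j * x j * (extend e g 1 j)⁻¹
          have h3 := scale ψ 1 (scale_gen ψ 1 hx.gen (by
            rintro _ ⟨j, rfl⟩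
            rw [hψ, (gs G).sy_conj ((gs G).top _), one_smul])) m _ ih
          have h4 := gs_map ψ m _ ih
          have h5 := hZ ψ (mem_map_of_mem _ hu)
          rw [map_pow] at h3 h4
          rw [hud, gev_map] at h3 h4 h5
          simp only [hψ, he.extend_apply, one_pow, one_smul] at h3 h4 h5
          exact ⟨h5, h4, h3⟩
        have h3 : ∀ n : ℕ, ∀ v ∈ (VC t fun i => x (e i)) ^ n, v ^ j ∈ (gs G).H m ∧
            (gs G).sy m (v ^ j) = n • (gs G).sy m (u ^ j) := by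
          intro n
          induction n with
          | zero => intro v hv; simp_all [one_mem, NS.sy_one]
          | succ n ih =>
            intro v hv
            rw [pow_succ] at hv
            obtain ⟨a, ha, b, hb, rfl⟩ := hv
            obtain ⟨h4, h5, h6⟩ := h2 b hb
            have h7 : (a * b) ^ j = a ^ j * b ^ j := Commute.mul_pow (mem_center_iff.1 h4 a) j
            refine ⟨h7 ▸ mul_mem (ih a ha).1 h5, ?_⟩
            change (gs G).sy m ((a * b) ^ j) = _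
            rw [h7, (gs G).sy_mul (ih a ha).1 h5, (ih a ha).2, h6, succ_nsmul]
        have h4 := (h3 _ _ (gev_sq t fun i => x (e i))).2
        rw [map_pow, hud, gev_map] at h1
        simp only [hφ] at h1
        have h5 : 2 ^ Fintype.card t.Lf < 2 ^ (m + 1) :=
          Nat.pow_lt_pow_right (by norm_num) (by omega)
        refine ⟨j * (2 ^ (m + 1) - 2 ^ Fintype.card t.Lf), mul_ne_zero hj (by omega), ?_⟩
        rw [pow_mul, ← (gs G).sy_eq_zero (pow_mem ih _), (gs G).sy_pow ih, sub_nsmul _ h5.le,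
          ← h1, h4]
        simp
    obtain ⟨c, hc⟩ := Subgroup.nilpotent_iff_lowerCentralSeries.1
      (inferInstance : Group.IsNilpotent G)
    obtain ⟨j, hj, h1⟩ := key c
    exact hT _ j hj (mem_bot.1 (hc ▸ h1))

theorem lemBg {x : ℕ → G} (hx : RF x) (t : T) (e : t.Lf → ℕ) (he : Injective e) {j : ℕ}
    (hj : j ≠ 0) (h : (gev t fun i => x (e i)) ^ j ∈ (gs G).H (Fintype.card t.Lf))
    {K : Subgroup G} (hK : TN K) : (gev t fun i => x (e i)) ∈ K := by
  let K' := ⨅ f : G →* G, K.comap f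
  have h1 : FI K' := by
    rintro f _ ⟨g, hg, rfl⟩
    exact mem_iInf.2 fun f' => mem_iInf.1 hg (f'.comp f)
  have := h1.normal
  obtain ⟨c, hc⟩ := hK.2.1
  have := nilq (N := K') (c := c) fun g hg => mem_iInf.2 fun f => hc (gs_map f c g hg)
  refine mem_iInf.1 (show _ ∈ K' from (QuotientGroup.eq_one_iff _).1
    ((gev_map (QuotientGroup.mk' _) t _).trans (dil _ t e he _ (quot hx h1) ?_ j hj ?_)))
    (MonoidHom.id G)
  · intro g k hk hg
    obtain ⟨g, rfl⟩ := QuotientGroup.mk'_surjective _ g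
    rw [← map_pow] at hg
    exact (QuotientGroup.eq_one_iff _).2 (mem_iInf.2 fun f => (hK.comap f).2.2 g k hk
      (mem_iInf.1 ((QuotientGroup.eq_one_iff _).1 hg) f))
  · rw [← gev_map (QuotientGroup.mk' K'), ← map_pow, ← map_H]
    exact mem_map_of_mem _ h

theorem lemC {N : Subgroup G} (hN : N.Normal) {c : ℕ} (hc : (gs G).H c ≤ N) {g : G}
    (hg : ∀ K, N ≤ K → TN K → g ∈ K) : ∃ j : ℕ, j ≠ 0 ∧ g ^ j ∈ N := by
  by_contra hh
  push Not at hh
  obtain ⟨K, h1, ⟨h2, h3⟩, h4⟩ := zorn_le_nonempty₀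
    {K : Subgroup G | K.Normal ∧ ∀ j : ℕ, j ≠ 0 → g ^ j ∉ K} (fun s hs hs' y hy => by
      have hm := fun a => mem_sSup_of_directedOn (x := a) ⟨y, hy⟩ hs'.directedOn
      refine ⟨sSup s, ⟨⟨fun a ha b => ?_⟩, fun j hj ha => ?_⟩, fun z hz => le_sSup hz⟩
      · obtain ⟨K, hK, ha⟩ := (hm a).1 ha
        exact (hm _).2 ⟨K, hK, (hs hK).1.conj_mem a ha b⟩
      · obtain ⟨K, hK, ha⟩ := (hm _).1 ha
        exact (hs hK).2 j hj ha) N ⟨hN, hh⟩
  have := nilq (hc.trans h1)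
  refine h3 1 one_ne_zero ?_
  rw [pow_one]
  refine hg K h1 ⟨h2, ⟨c, hc.trans h1⟩, fun a k hk ha => (QuotientGroup.eq_one_iff _).1
    (tfz (G ⧸ K) (fun (z : G ⧸ K) hz k hk h5 => ?_) _ k hk (by
      rw [← QuotientGroup.mk_pow]; exact (QuotientGroup.eq_one_iff _).2 ha))⟩
  have h6 : (zpowers z).Normal := ⟨by
    rintro _ ⟨n, rfl⟩ b
    rw [mem_center_iff.1 (zpow_mem hz n) b, mul_inv_cancel_right]
    exact ⟨n, rfl⟩⟩
  have h7 : (zpowers z).comap (QuotientGroup.mk' K) ≤ K := h4 ⟨h6.comap _, fun j hj hg => by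
    obtain ⟨n, hn⟩ := hg
    refine h3 (j * k) (mul_ne_zero hj hk) ((QuotientGroup.eq_one_iff _).1 ?_)
    change QuotientGroup.mk' K _ = 1
    rw [pow_mul, map_pow, ← hn]
    change (z ^ n) ^ k = 1
    rw [← zpow_natCast, ← zpow_mul, mul_comm, zpow_mul, zpow_natCast, h5, one_zpow]⟩
    fun a ha => by
      have : QuotientGroup.mk' K a = 1 := (QuotientGroup.eq_one_iff _).2 ha
      rw [mem_comap, this]; exact one_mem _
  obtain ⟨z, rfl⟩ := QuotientGroup.mk'_surjective _ z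
  exact (QuotientGroup.eq_one_iff _).2 (h7 (mem_zpowers _))

variable (G) in
/-- The product of the solvable normal subgroups. -/
def Rad : Subgroup G := sSup {N : Subgroup G | N.Normal ∧ ∃ k, dS N k = ⊥}

theorem mem_Rad {g : G} : g ∈ Rad G ↔
    ∃ N ∈ {N : Subgroup G | N.Normal ∧ ∃ k, dS N k = ⊥}, g ∈ N :=
  mem_sSup_of_directedOn (K := {N : Subgroup G | N.Normal ∧ ∃ k, dS N k = ⊥})
    ⟨⊥, inferInstance, 0, rfl⟩ (by
    rintro A ⟨hA, k, hk⟩ B ⟨hB, l, hl⟩
    refine ⟨A ⊔ B, ⟨inferInstance, k + l, ?_⟩, le_sup_left, le_sup_right⟩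
    have h5 : dS (A ⊔ B) k ≤ B := by
      have h6 : B.map (QuotientGroup.mk' B) = ⊥ := by
        rw [Subgroup.map_eq_bot_iff, QuotientGroup.ker_mk']
      have h7 : (dS (A ⊔ B) k).map (QuotientGroup.mk' B) = ⊥ := by
        rw [dS_map, Subgroup.map_sup, h6, sup_bot_eq, ← dS_map, hk, Subgroup.map_bot]
      rwa [Subgroup.map_eq_bot_iff, QuotientGroup.ker_mk'] at h7
    rw [dS_add, eq_bot_iff, ← hl]
    exact dS_mono h5 l)

theorem rad_fi {x : ℕ → G} (hx : RF x) : FI (Rad G) := by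
  rintro f _ ⟨g, hg, rfl⟩
  obtain ⟨N, ⟨h1, k, h2⟩, h3⟩ := mem_Rad.1 hg
  obtain ⟨f', h4, h5⟩ := surj hx f g
  exact mem_Rad.2 ⟨N.map f', ⟨h1.map f' h4, k, by rw [← dS_map, h2, Subgroup.map_bot]⟩, g, h3, h5⟩

/-- A numbering of the leaves. -/
noncomputable def ee (M : ℕ) (i : (full M).Lf) : ℕ := Fintype.equivFin _ i

theorem ee_inj (M : ℕ) : Injective (ee M) :=
  Fin.val_injective.comp (Fintype.equivFin _).injective

/-- The generic value of the full tree. -/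
noncomputable def uu (x : ℕ → G) (M : ℕ) : G := gev (full M) fun i => x (ee M i)

theorem lemD {x : ℕ → G} (hx : RF x) {M j : ℕ} (hj : j ≠ 0)
    (h : uu x M ^ j ∈ Rad G ⊔ (gs G).H (Fintype.card (full M).Lf)) :
    ∃ M j : ℕ, j ≠ 0 ∧ uu x M ^ j ∈ (gs G).H (Fintype.card (full M).Lf) := by
  obtain ⟨r, hr, w, hw, h1⟩ := mem_sup_of_normal_right.1 h
  obtain ⟨N, ⟨hN, k, hk⟩, hr⟩ := mem_Rad.1 hr
  have hP : ∀ n, PQ ℚ (RT ((gs G).tr n).gr) M k := by
    intro n a
    choose m y hm hy using fun i => exists_den (a i)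
    obtain ⟨Θ, h2, h3, h4⟩ := exists_sub hx n (ee M) (ee_inj M) y
    obtain ⟨h5, h6⟩ := ((gs G).tr n).sy_gev (full M) fun i => x (ee M i)
    have h7 : w ∈ ((gs G).tr n).H (Fintype.card (full M).Lf - 1 + 1) :=
      (gs G).anti (by have := card_pos (full M); omega) hw
    have h7' := ((gs G).tr n).anti (Nat.le_succ _) h7
    have h8 : r ∈ ((gs G).tr n).H (Fintype.card (full M).Lf - 1) := by
      rw [eq_mul_inv_of_mul_eq h1]
      exact mul_mem (pow_mem h5 _) (inv_mem h7')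
    have h9 := ((gs G).tr n).sy_mul h8 h7'
    rw [h1, ((gs G).tr n).sy_zero h7, add_zero, uu, ((gs G).tr n).sy_pow h5, h6] at h9
    have h10 := sol_image (K := ℚ) Θ h2 h3 (fun s => ⟨s, fun w => map_rat_smul Θ s w⟩)
      (((gs G).tr n).sol_sy hN hk h8 hr)
    rw [← h9, map_nsmul, map_nsmul, one_tmul_lev, lev, ev_map Θ h2] at h10
    simp only [h4, ← hy] at h10
    rw [eq_bot_iff, ← h10]
    refine LieAlgebra.derivedSeriesOfIdeal_mono ?_ k
    rw [LieSubmodule.lieSpan_le, Set.singleton_subset_iff]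
    have h11 := (ml_lev (K := ℚ) (full M)).smul_univ m a
    have h12 : lev (full M) a = ((j : ℚ) * ∏ i, m i)⁻¹ • j • lev (full M) fun i => m i • a i := by
      rw [h11, ← Nat.cast_smul_eq_nsmul ℚ, smul_smul, smul_smul, mul_assoc, inv_mul_cancel₀
        (mul_ne_zero (Nat.cast_ne_zero.2 hj) (Finset.prod_ne_zero_iff.2 fun i _ => hm i)), one_smul]
    rw [h12]
    exact SMulMemClass.smul_mem _ (LieSubmodule.subset_lieSpan rfl)
  obtain ⟨M', h2⟩ := thmR (PQ.fam hP)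
  set n := Fintype.card (full M').Lf with hn
  have hn0 : 0 < n := card_pos _
  have h3 := congrFun (h2 fun i n => tm 1 (((gs G).tr n).sy 0 (x (ee M' i)))) n
  obtain ⟨h4, h5⟩ := ((gs G).tr n).sy_gev (full M') fun i => x (ee M' i)
  rw [Fam.lev_apply, ← one_tmul_lev, ← h5] at h3
  obtain ⟨j, hj, h6⟩ := tors h3
  rw [← ((gs G).tr n).sy_pow h4, ((gs G).tr n).sy_eq_zero (pow_mem h4 _)] at h6
  change _ ∈ (gs G).H _ at h6
  rw [← hn, Nat.sub_add_cancel hn0, min_self] at h6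
  exact ⟨M', j, hj, h6⟩

theorem grpHyp {x : ℕ → G} (hx : RF x) (hres : ∀ g : G, g ≠ 1 → ∃ K, g ∉ K ∧ TN K)
    (hab : ∀ N : Subgroup G, N.Normal → FI N → N ≠ ⊤ → (∀ g ∉ N, ∃ K, N ≤ K ∧ g ∉ K ∧ TN K) →
      ∃ A : Subgroup G, A.Normal ∧ N < A ∧ ⁅A, A⁆ ≤ N) : ∃ M, uu x M = 1 := by
  by_contra hh
  push Not at hh
  obtain ⟨N, -, ⟨h1, h2⟩, h3⟩ := zorn_le_nonempty₀ {N : Subgroup G | FI N ∧ ∀ M j : ℕ, j ≠ 0 →
      uu x M ^ j ∉ N ⊔ (gs G).H (Fintype.card (full M).Lf)} (fun s hs hs' y hy => by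
      have hm := fun a => mem_sSup_of_directedOn (x := a) ⟨y, hy⟩ hs'.directedOn
      refine ⟨sSup s, ⟨?_, fun M j hj ha => ?_⟩, fun z hz => le_sSup hz⟩
      · rintro f _ ⟨a, ha, rfl⟩
        obtain ⟨K, hK, ha⟩ := (hm a).1 ha
        exact (hm _).2 ⟨K, hK, (hs hK).1 f (mem_map_of_mem _ ha)⟩
      · obtain ⟨a, ha, b, hb, h⟩ := mem_sup_of_normal_right.1 ha
        obtain ⟨K, hK, ha⟩ := (hm _).1 ha
        exact (hs hK).2 M j hj (h ▸ mul_mem_sup ha hb)) ⊥ ⟨fun f => (Subgroup.map_bot f).le, by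
      intro M j hj h
      obtain ⟨K, hK, hK'⟩ := hres _ (hh M)
      rw [bot_sup_eq] at h
      exact hK (lemBg hx _ _ (ee_inj M) hj h hK')⟩
  have := h1.normal
  have h4 : sInf {K | N ≤ K ∧ TN K} ≤ N := h3 ⟨by
      rintro f _ ⟨a, ha, rfl⟩
      exact mem_sInf.2 fun K hK => mem_sInf.1 ha (K.comap f)
        ⟨map_le_iff_le_comap.1 ((h1 f).trans hK.1), hK.2.comap f⟩, fun M j hj h => by
      obtain ⟨k, hk, h5⟩ := lemC (N := N ⊔ (gs G).H (Fintype.card (full M).Lf)) inferInstance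
        le_sup_right fun K h6 h7 => (sup_le (sInf_le (by exact ⟨le_sup_left.trans h6, h7⟩))
          (le_sup_right.trans h6) : _ ≤ K) h
      exact h2 M (j * k) (mul_ne_zero hj hk) (by rwa [pow_mul])⟩ (le_sInf fun K hK => hK.1)
  obtain ⟨A, hA, h5, h6⟩ := hab N this h1 (by
    rintro rfl
    exact h2 0 1 one_ne_zero (mem_sup_left (mem_top _))) fun g hg => by
      by_contra hc
      push Not at hc
      exact hg (h4 (mem_sInf.2 fun K hK => not_not.1 fun h => hc K hK.1 h hK.2))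
  have hq := quot hx h1
  have h7 : A ≤ (Rad (G ⧸ N)).comap (QuotientGroup.mk' N) := fun a ha => mem_Rad.2
    ⟨A.map (QuotientGroup.mk' N), ⟨hA.map _ (QuotientGroup.mk'_surjective N), 1, by
      rw [← dS_map, Subgroup.map_eq_bot_iff, QuotientGroup.ker_mk']; exact h6⟩, a, ha, rfl⟩
  refine h5.not_ge (h7.trans (h3 ⟨?_, fun M j hj h => ?_⟩ (h5.le.trans h7)))
  · rintro f _ ⟨a, ha, rfl⟩
    obtain ⟨f', hf'⟩ := lift_fi h1 f
    rw [mem_comap, ← hf']
    exact rad_fi hq f' (mem_map_of_mem _ ha)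
  have hu : ∀ M, QuotientGroup.mk' N (uu x M) = uu (fun j => QuotientGroup.mk' N (x j)) M :=
    fun M => gev_map _ _ _
  obtain ⟨M', k, hk, h8⟩ := lemD hq (M := M) hj (by
    rw [← hu, ← map_pow, ← map_H]
    obtain ⟨a, ha, b, hb, h9⟩ := mem_sup_of_normal_right.1 h
    rw [← h9, map_mul]
    exact mul_mem_sup ha (mem_map_of_mem _ hb))
  rw [← hu, ← map_pow, ← map_H, ← mem_comap, comap_map_eq, QuotientGroup.ker_mk', sup_comm] at h8
  exact h2 M' k hk h8

end Pool.Agent.MP_2a197d_al.LB
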