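import Mathlib
import Pool.Agent.MP_2a197d_al.LB10

open Pool.Agent.MP_2a197d_al

/-- Let `W` be a set of laws, `V` its verbal subgroup in the free group of countable rank and
`F = FreeGroup ℕ ⧸ V` the free group of countable rank of the variety defined by `W`.
Suppose that `F` is residually torsion-free nilpotent (`hres`; every Magnus group is) and that
every nontrivial quotient `F ⧸ N` by a fully invariant subgroup `N` which is again residually
torsion-free nilpotent has a nontrivial abelian normal subgroup `A ⧸ N` (`hab`). Then the groups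
of the variety are solvable of bounded derived length. -/
theorem Pool.Agent.MP_2a197d_al.abelianNormal
    (W : Set (FreeGroup ℕ)) (V : Subgroup (FreeGroup ℕ)) [V.Normal]
    (hV : V = Subgroup.normalClosure
      {g | ∃ w ∈ W, ∃ f : FreeGroup ℕ →* FreeGroup ℕ, f w = g})
    (hres : ∀ g : FreeGroup ℕ ⧸ V, g ≠ 1 → ∃ K : Subgroup (FreeGroup ℕ ⧸ V), g ∉ K ∧ K.Normal ∧
      (∃ c, (⊤ : Subgroup (FreeGroup ℕ ⧸ V)).lowerCentralSeries c ≤ K) ∧
      ∀ (h : FreeGroup ℕ ⧸ V) (k : ℕ), k ≠ 0 → h ^ k ∈ K → h ∈ K)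
    (hab : ∀ N : Subgroup (FreeGroup ℕ ⧸ V), N.Normal →
      (∀ f : FreeGroup ℕ ⧸ V →* FreeGroup ℕ ⧸ V, N.map f ≤ N) → N ≠ ⊤ →
      (∀ g ∉ N, ∃ K : Subgroup (FreeGroup ℕ ⧸ V), N ≤ K ∧ g ∉ K ∧ K.Normal ∧
        (∃ c, (⊤ : Subgroup (FreeGroup ℕ ⧸ V)).lowerCentralSeries c ≤ K) ∧
        ∀ (h : FreeGroup ℕ ⧸ V) (k : ℕ), k ≠ 0 → h ^ k ∈ K → h ∈ K) →
      ∃ A : Subgroup (FreeGroup ℕ ⧸ V), A.Normal ∧ N < A ∧ ⁅A, A⁆ ≤ N) :
    ∃ M : ℕ, ∀ (G : Type*) [Group G], (∀ w ∈ W, ∀ f : FreeGroup ℕ →* G, f w = 1) →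
      derivedSeries G M = ⊥ := by
  have hW : ∀ w ∈ W, ∀ f : FreeGroup ℕ →* FreeGroup ℕ ⧸ V, f w = 1 := by
    intro w hw f
    choose g hg using fun j => QuotientGroup.mk'_surjective V (f (FreeGroup.of j))
    have : f = (QuotientGroup.mk' V).comp (FreeGroup.lift g) :=
      FreeGroup.ext_hom _ _ fun j => by simp [← hg]
    rw [this, MonoidHom.comp_apply, QuotientGroup.mk'_apply, QuotientGroup.eq_one_iff, hV]
    exact Subgroup.subset_normalClosure ⟨w, hw, _, rfl⟩
  have hx : RF fun j => QuotientGroup.mk' V (FreeGroup.of j) := by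
    refine ⟨?_, fun g => ⟨QuotientGroup.lift V (FreeGroup.lift g) ?_, fun j =>
      (QuotientGroup.lift_mk' _ _ _).trans (FreeGroup.lift_apply_of ..)⟩⟩
    · rw [Set.range_comp' (QuotientGroup.mk' V) FreeGroup.of, ← MonoidHom.map_closure,
        FreeGroup.closure_range_of, ← MonoidHom.range_eq_map, QuotientGroup.range_mk']
    · refine hV.le.trans (Subgroup.normalClosure_le_normal ?_)
      rintro _ ⟨w, hw, f, rfl⟩
      exact hW w hw ((FreeGroup.lift g).comp f)
  obtain ⟨M, h⟩ := LB.grpHyp hx hres hab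
  refine ⟨M, fun G _ hG => ?_⟩
  rw [eq_bot_iff]
  refine (der_le M).trans ((Subgroup.closure_le _).2 ?_)
  rintro _ ⟨y, rfl⟩
  have h1 : V ≤ (FreeGroup.lift (Function.extend (LB.ee M) y 1)).ker := by
    rw [hV]
    refine Subgroup.normalClosure_le_normal ?_
    rintro _ ⟨w, hw, f, rfl⟩
    exact hG w hw ((FreeGroup.lift _).comp f)
  have h2 := congrArg (QuotientGroup.lift V (FreeGroup.lift (Function.extend (LB.ee M) y 1)) h1) h
  rw [LB.uu, gev_map, map_one] at h2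
  simpa [(LB.ee_inj M).extend_apply] using h2
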