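import Mathlib.LinearAlgebra.Dual.Lemmas
import Mathlib.Algebra.Lie.Solvable
import Mathlib.RingTheory.Flat.TorsionFree
import Mathlib.Data.Int.ConditionallyCompleteOrder
import Mathlib.Data.Int.Star
import Mathlib.Algebra.Order.Ring.Star
import Mathlib.Algebra.Module.StablyFree.Basic
import Mathlib.Algebra.MvPolynomial.Funext
import Mathlib.Data.Rat.Star
import Mathlib.LinearAlgebra.CliffordAlgebra.Contraction
import Mathlib.RingTheory.SimpleRing.Principal
import Mathlib.Order.CompletePartialOrder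
import Mathlib.RingTheory.MvPolynomial.IrreducibleQuadratic
import Mathlib.Tactic.Algebra.Basic

-- ======== part 0: formerly Pool.Agent.MP_2a197d_al.Tree
section MrgPart0

/-! Binary trees, Lie monomials, multilinearity, and the Strahler lemma. -/

namespace Pool.Agent.MP_2a197d_al

open Function

/-- Binary trees (shapes of multilinear commutators). -/
inductive T : Type
  | lf : T
  | nd : T → T → T

namespace T

/-- Leaves of a tree. -/
def Lf : T → Type
  | lf => Unit
  | nd a b => a.Lf ⊕ b.Lf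

noncomputable instance instFin : (t : T) → Fintype t.Lf
  | lf => inferInstanceAs (Fintype Unit)
  | nd a b => @instFintypeSum a.Lf b.Lf (instFin a) (instFin b)

noncomputable instance instDec (t : T) : DecidableEq t.Lf := Classical.decEq _

/-- Left leaves. -/
def il (a b : T) (i : a.Lf) : (nd a b).Lf := Sum.inl i

/-- Right leaves. -/
def ir (a b : T) (i : b.Lf) : (nd a b).Lf := Sum.inr i

theorem il_inj (a b : T) : Injective (il a b) := Sum.inl_injective

theorem ir_inj (a b : T) : Injective (ir a b) := Sum.inr_injective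

theorem il_ne_ir (a b : T) (i : a.Lf) (j : b.Lf) : il a b i ≠ ir a b j := Sum.inl_ne_inr

/-- Evaluation of a tree for a binary operation. -/
def ev {α : Type*} (m : α → α → α) : (t : T) → (t.Lf → α) → α
  | lf, x => x ()
  | nd a b, x => m (ev m a fun i => x (Sum.inl i)) (ev m b fun i => x (Sum.inr i))

/-- The full tree. -/
def full : ℕ → T
  | 0 => lf
  | n + 1 => nd (full n) (full n)

/-- The right comb with `n + 1` leaves. -/
def cb : ℕ → T
  | 0 => lf
  | n + 1 => nd lf (cb n)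

/-- Grafting. -/
def graft : T → T → T
  | lf, b => b
  | nd a a', b => nd (graft a b) (graft a' b)

/-- Leaves of a grafted tree. -/
def inj : (a b : T) → a.Lf → b.Lf → (graft a b).Lf
  | lf, _, _, j => j
  | nd a _, b, Sum.inl i, j => Sum.inl (inj a b i j)
  | nd _ a', b, Sum.inr i, j => Sum.inr (inj a' b i j)

theorem ev_graft {α : Type*} (m : α → α → α) (b : T) : ∀ (a : T) (x : (graft a b).Lf → α),
    ev m (graft a b) x = ev m a fun i => ev m b fun j => x (inj a b i j)
  | lf, _ => rfl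
  | nd a a', x => by
    change m (ev m (graft a b) _) (ev m (graft a' b) _) = m _ _
    rw [ev_graft m b a, ev_graft m b a']; rfl

theorem ev_map {α β : Type*} {m : α → α → α} {m' : β → β → β} (f : α → β)
    (hf : ∀ a b, f (m a b) = m' (f a) (f b)) : ∀ (t : T) (x : t.Lf → α),
    f (ev m t x) = ev m' t fun i => f (x i)
  | lf, _ => rfl
  | nd a b, x => by
    change f (m _ _) = m' _ _
    rw [hf, ev_map f hf a, ev_map f hf b]

theorem card_lf : Fintype.card lf.Lf = 1 := rfl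

theorem card_nd (a b : T) : Fintype.card (nd a b).Lf = Fintype.card a.Lf + Fintype.card b.Lf :=
  @Fintype.card_sum a.Lf b.Lf (instFin a) (instFin b)

theorem card_full (n : ℕ) : Fintype.card (full n).Lf = 2 ^ n := by
  induction n with
  | zero => rfl
  | succ n ih => rw [full, card_nd, ih]; ring

theorem card_cb (n : ℕ) : Fintype.card (cb n).Lf = n + 1 := by
  induction n with
  | zero => rfl
  | succ n ih => rw [cb, card_nd, ih, card_lf]; ring

theorem card_pos : ∀ t : T, 0 < Fintype.card t.Lf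
  | lf => by rw [card_lf]; norm_num
  | nd a b => by rw [card_nd]; have := card_pos a; omega

end T

open T

/-- Lie monomial of a tree. -/
abbrev lev {L : Type*} [LieRing L] (t : T) (x : t.Lf → L) : L := ev (fun a b => ⁅a, b⁆) t x

/-- Multilinearity of a plain function. -/
def ML (K : Type*) {ι M W : Type*} [CommRing K] [AddCommGroup M] [Module K M] [AddCommGroup W]
    [Module K W] [DecidableEq ι] (Φ : (ι → M) → W) : Prop :=
  ∀ x i, IsLinearMap K fun a => Φ (update x i a)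

section ml
variable {K ι M W : Type*} [CommRing K] [AddCommGroup M] [Module K M] [AddCommGroup W]
    [Module K W] [DecidableEq ι]

/-- The multilinear map of a multilinear function. -/
def ML.mm {Φ : (ι → M) → W} (h : ML K Φ) : MultilinearMap K (fun _ : ι => M) W :=
  MultilinearMap.mk' Φ (fun x i a b => (h x i).map_add a b) (fun x i c a => (h x i).map_smul c a)

theorem ML.mm_apply {Φ : (ι → M) → W} (h : ML K Φ) (x : ι → M) : h.mm x = Φ x := rfl

theorem ML.blocks {J N : Type*} [DecidableEq J] [AddCommGroup N] [Module K N]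
    {Ψ : (ι → N) → W} {g : (J → M) → N} (hΨ : ML K Ψ) (hg : ML K g) :
    ML K fun Y : J × ι → M => Ψ fun i => g fun j => Y (j, i) := by
  rintro Y ⟨j, i⟩
  have key : ∀ a, (fun i' => g fun j' => update Y (j, i) a (j', i')) =
      update (fun i' => g fun j' => Y (j', i')) i (g (update (fun j' => Y (j', i)) j a)) := by
    intro a
    funext i'
    by_cases hi : i' = i
    · subst hi
      rw [update_self]
      congr 1
      funext j'
      by_cases hj : j' = j
      · subst hj; simp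
      · rw [update_of_ne hj, update_of_ne (by simpa using hj)]
    · rw [update_of_ne hi]
      congr 1
      funext j'
      rw [update_of_ne (by simp [hi])]
  simp only [key]
  constructor
  · intro a b
    rw [(hg _ j).map_add, (hΨ _ i).map_add]
  · intro c a
    rw [(hg _ j).map_smul, (hΨ _ i).map_smul]

theorem ML.smul_univ [Fintype ι] {Φ : (ι → M) → W} (h : ML K Φ) (c : ι → K) (x : ι → M) :
    Φ (fun i => c i • x i) = (∏ i, c i) • Φ x :=
  h.mm.map_smul_univ c x

end ml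

section lie
variable {K L : Type*} [CommRing K] [LieRing L] [LieAlgebra K L]

theorem ml_lev : ∀ t : T, ML K (lev (L := L) t)
  | .lf => by
    intro x i
    have : ∀ a, lev .lf (update x i a) = a := by
      intro a
      change update x i a () = a
      exact update_self _ _ _
    simp only [this]
    exact ⟨fun _ _ => rfl, fun _ _ => rfl⟩
  | .nd a b => by
    have hl : ∀ (x : (T.nd a b).Lf → L) (i : (T.nd a b).Lf) y, lev (.nd a b) (update x i y) =
        ⁅lev a (update x i y ∘ il a b), lev b (update x i y ∘ ir a b)⁆ := fun _ _ _ => rfl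
    intro x i
    simp only [hl]
    rcases i with i | i
    · have h1 : ∀ y, update x (il a b i) y ∘ il a b = update (x ∘ il a b) i y :=
        fun y => update_comp_eq_of_injective x (il_inj a b) i y
      have h2 : ∀ y, update x (il a b i) y ∘ ir a b = x ∘ ir a b :=
        fun y => update_comp_eq_of_forall_ne x y fun k => (il_ne_ir a b i k).symm
      change IsLinearMap K fun y =>
        ⁅lev a (update x (il a b i) y ∘ il a b), lev b (update x (il a b i) y ∘ ir a b)⁆
      simp only [h1, h2]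
      constructor
      · intro y z; rw [(ml_lev a _ i).map_add, add_lie]
      · intro c y; rw [(ml_lev a _ i).map_smul, smul_lie]
    · have h1 : ∀ y, update x (ir a b i) y ∘ ir a b = update (x ∘ ir a b) i y :=
        fun y => update_comp_eq_of_injective x (ir_inj a b) i y
      have h2 : ∀ y, update x (ir a b i) y ∘ il a b = x ∘ il a b :=
        fun y => update_comp_eq_of_forall_ne x y fun k => il_ne_ir a b k i
      change IsLinearMap K fun y =>
        ⁅lev a (update x (ir a b i) y ∘ il a b), lev b (update x (ir a b i) y ∘ ir a b)⁆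
      simp only [h1, h2]
      constructor
      · intro y z; rw [(ml_lev b _ i).map_add, lie_add]
      · intro c y; rw [(ml_lev b _ i).map_smul, lie_smul]

theorem lev_nd (a b : T) (x : (T.nd a b).Lf → L) :
    lev (.nd a b) x = ⁅lev a fun i => x (Sum.inl i), lev b fun i => x (Sum.inr i)⁆ := rfl

theorem lev_mem (I : LieIdeal K L) : ∀ (t : T) (x : t.Lf → L) (i : t.Lf), x i ∈ I → lev t x ∈ I
  | .lf, _, _, h => h
  | .nd a _, x, Sum.inl i, h => by
    rw [lev_nd]; exact lie_mem_left K L I _ _ (lev_mem I a _ i h)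
  | .nd _ b, x, Sum.inr i, h => by
    rw [lev_nd]; exact lie_mem_right K L I _ _ (lev_mem I b _ i h)

theorem card_split (a b : T) (R : Finset (T.nd a b).Lf) :
    R.card = (Finset.toLeft (α := a.Lf) (β := b.Lf) R).card +
      (Finset.toRight (α := a.Lf) (β := b.Lf) R).card :=
  (Finset.card_toLeft_add_card_toRight (α := a.Lf) (β := b.Lf) (u := R)).symm

open LieAlgebra in
/-- Many leaves of a full tree in an ideal put the monomial deep in its derived series. -/
theorem strahler (I : LieIdeal K L) : ∀ (D k : ℕ) (x : (full D).Lf → L) (R : Finset (full D).Lf),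
    (∀ i ∈ R, x i ∈ I) → (D + 1) ^ k < R.card → lev (full D) x ∈ derivedSeriesOfIdeal K L k I := by
  intro D
  induction D with
  | zero =>
    intro k x R _ h
    have : R.card ≤ 1 := (Finset.card_le_univ R).trans (card_full 0).le
    simp at h
    omega
  | succ D ih =>
    intro k x R hx h
    rcases k with _ | k
    · obtain ⟨i, hi⟩ : R.Nonempty := Finset.card_pos.1 (by omega)
      exact lev_mem I _ x i (hx i hi)
    · have hc : R.card = _ := card_split (full D) (full D) R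
      have hl : ∀ i ∈ Finset.toLeft (α := (full D).Lf) (β := (full D).Lf) R,
          x (Sum.inl i) ∈ I := fun i hi => hx _ (Finset.mem_toLeft.1 hi)
      have hr : ∀ i ∈ Finset.toRight (α := (full D).Lf) (β := (full D).Lf) R,
          x (Sum.inr i) ∈ I := fun i hi => hx _ (Finset.mem_toRight.1 hi)
      set a := (Finset.toLeft (α := (full D).Lf) (β := (full D).Lf) R).card with ha
      set b := (Finset.toRight (α := (full D).Lf) (β := (full D).Lf) R).card with hb
      change ⁅lev (full D) fun i => x (Sum.inl i), lev (full D) fun i => x (Sum.inr i)⁆ ∈ _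
      by_cases h1 : (D + 1) ^ (k + 1) < a
      · exact lie_mem_left K L _ _ _ (ih (k + 1) _ _ hl h1)
      by_cases h2 : (D + 1) ^ (k + 1) < b
      · exact lie_mem_right K L _ _ _ (ih (k + 1) _ _ hr h2)
      have hp : (D + 1) ^ (k + 1) + (D + 1) ^ k ≤ (D + 1 + 1) ^ (k + 1) := by
        have : (D + 1) ^ k ≤ (D + 1 + 1) ^ k := Nat.pow_le_pow_left (by omega) k
        rw [pow_succ, pow_succ]; nlinarith
      rw [derivedSeriesOfIdeal_succ]
      exact LieSubmodule.lie_mem_lie (ih k _ _ hl (by omega)) (ih k _ _ hr (by omega))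

/-- All values of the full tree of depth `n` on `S` lie in `S'`. -/
def Der (n : ℕ) (S S' : Set L) : Prop :=
  ∀ x : (full n).Lf → L, (∀ i, x i ∈ S) → lev (full n) x ∈ S'

theorem Der.chain {n : ℕ} {S : Set L} (C : ℕ → Set L) (h : Der n S (C 0)) (m : ℕ)
    (hC : ∀ i < m, ∀ a ∈ C i, ∀ b ∈ C i, ⁅a, b⁆ ∈ C (i + 1)) : Der (n + m) S (C m) := by
  induction m with
  | zero => exact h
  | succ m ih =>
    intro x hx
    have ih' := ih fun i hi => hC i (by omega)
    exact hC m (by omega) _ (ih' _ fun i => hx _) _ (ih' _ fun i => hx _)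

theorem Der.mono {n : ℕ} {S S' S'' : Set L} (h : Der n S S') (h' : S' ⊆ S'') : Der n S S'' :=
  fun x hx => h' (h x hx)

theorem der_zero (S : Set L) : Der 0 S S := fun _ hx => hx _

end lie

end Pool.Agent.MP_2a197d_al

end MrgPart0

-- ======== part 1: formerly Pool.Agent.MP_2a197d_al.Sym
section MrgPart1

/-! Symmetrisation or skew-symmetrisation on many points, in one or several columns. -/

set_option linter.unusedSectionVars false

namespace Pool.Agent.MP_2a197d_al

open Equiv Equiv.Perm Finset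

variable {I V : Type*} [Fintype I] [DecidableEq I] [AddCommGroup V] [Module ℚ V]

/-- The sign attached to a parity. -/
def sq (s : ℤˣ) : ℚ := ((s : ℤ) : ℚ)

theorem sq_mul (s t : ℤˣ) : sq (s * t) = sq s * sq t := by simp [sq]

theorem sq_sq (s : ℤˣ) : sq s * sq s = 1 := by rw [← sq_mul, Int.units_mul_self]; simp [sq]

/-- Trivial or sign character. -/
def ch (s : ℤˣ) : Perm I →* ℚ where
  toFun σ := if s = 1 then 1 else sq (sign σ)
  map_one' := by simp [sq]
  map_mul' σ τ := by by_cases h : s = 1 <;> simp [h, sq]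

theorem ch_swap (s : ℤˣ) {a b : I} (h : a ≠ b) : ch s (swap a b) = sq s := by
  change (if s = 1 then 1 else sq (sign (swap a b))) = _
  rcases Int.units_eq_one_or s with rfl | rfl
  · simp [sq]
  · rw [if_neg (by decide), sign_swap h]

theorem ch_sq (s : ℤˣ) (σ : Perm I) : ch s σ * ch s σ = 1 := by
  change (if s = 1 then 1 else sq (sign σ)) * (if s = 1 then 1 else sq (sign σ)) = _
  by_cases h : s = 1
  · simp [h]
  · simp only [if_neg h, sq_sq]

theorem ch_inv (s : ℤˣ) (σ : Perm I) : ch s σ⁻¹ = ch s σ := by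
  have h := ch_sq s σ
  rw [map_inv]
  exact (eq_inv_of_mul_eq_one_left h).symm

/-- Permutations supported in `R`. -/
def Sp (R : Finset I) : Finset (Perm I) := univ.filter fun σ => ∀ i ∉ R, σ i = i

theorem mem_Sp {R : Finset I} {σ : Perm I} : σ ∈ Sp R ↔ ∀ i ∉ R, σ i = i := by simp [Sp]

theorem one_mem_Sp (R : Finset I) : (1 : Perm I) ∈ Sp R := mem_Sp.2 fun _ _ => rfl

theorem mul_mem_Sp {R : Finset I} {σ τ : Perm I} (h : σ ∈ Sp R) (h' : τ ∈ Sp R) :
    σ * τ ∈ Sp R := mem_Sp.2 fun i hi => by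
  rw [mul_apply, mem_Sp.1 h' i hi, mem_Sp.1 h i hi]

theorem inv_mem_Sp {R : Finset I} {σ : Perm I} (h : σ ∈ Sp R) : σ⁻¹ ∈ Sp R :=
  mem_Sp.2 fun i hi => by rw [inv_eq_iff_eq, mem_Sp.1 h i hi]

theorem swap_mem_Sp {R : Finset I} {a b : I} (ha : a ∈ R) (hb : b ∈ R) : swap a b ∈ Sp R :=
  mem_Sp.2 fun _ hi => swap_apply_of_ne_of_ne (fun h => hi (h ▸ ha)) (fun h => hi (h ▸ hb))

theorem apply_mem_Sp {R : Finset I} {σ : Perm I} (h : σ ∈ Sp R) {i : I} (hi : i ∈ R) :
    σ i ∈ R := by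
  by_contra hc
  have := σ.injective (mem_Sp.1 h _ hc)
  exact hc (by rw [this]; exact hi)

theorem Sp_mono {R R' : Finset I} (h : R ⊆ R') : Sp R ⊆ Sp R' := fun _ hσ =>
  mem_Sp.2 fun i hi => mem_Sp.1 hσ i fun h' => hi (h h')

theorem Sp_empty : Sp (∅ : Finset I) = {1} := by
  ext σ
  simp only [mem_Sp, mem_singleton]
  exact ⟨fun h => Equiv.ext fun i => h i (by simp), fun h i _ => by rw [h]; rfl⟩

theorem Sp_ind {R : Finset I} (P : Perm I → Prop) (h1 : P 1)
    (hs : ∀ a ∈ R, ∀ b ∈ R, a ≠ b → ∀ σ ∈ Sp R, P σ → P (swap a b * σ)) :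
    ∀ σ ∈ Sp R, P σ := by
  intro σ
  induction h : σ.support.card using Nat.strong_induction_on generalizing σ with
  | _ n ih =>
    intro hσ
    by_cases h0 : σ = 1
    · rw [h0]; exact h1
    obtain ⟨x, hx⟩ : ∃ x, σ x ≠ x := by
      by_contra hc
      push Not at hc
      exact h0 (Equiv.ext hc)
    have hxR : x ∈ R := by by_contra hc; exact hx (mem_Sp.1 hσ x hc)
    have hm := mul_mem_Sp (swap_mem_Sp hxR (apply_mem_Sp hσ hxR)) hσ
    have := hs x hxR (σ x) (apply_mem_Sp hσ hxR) hx.symm _ hm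
      (ih _ (h ▸ card_support_swap_mul hx) _ rfl hm)
    rwa [← mul_assoc, swap_mul_self, one_mul] at this

section one
variable (ρ : Perm I →* Module.End ℚ V)

/-- The (skew-)symmetriser of `R`. -/
def sy (s : ℤˣ) (R : Finset I) : Module.End ℚ V := ∑ σ ∈ Sp R, ch s σ • ρ σ

/-- (Skew-)invariants. -/
def Inv (s : ℚ) (B : Finset I) : Submodule ℚ V where
  carrier := {v | ∀ a ∈ B, ∀ b ∈ B, a ≠ b → ρ (swap a b) v = s • v}
  add_mem' := by
    intro u v hu hv a ha b hb hab
    rw [map_add, hu a ha b hb hab, hv a ha b hb hab, smul_add]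
  zero_mem' := by intro a _ b _ _; simp
  smul_mem' := by
    intro c v hv a ha b hb hab
    rw [map_smul, hv a ha b hb hab, smul_comm]

theorem mem_Inv {s : ℚ} {B : Finset I} {v : V} :
    v ∈ Inv ρ s B ↔ ∀ a ∈ B, ∀ b ∈ B, a ≠ b → ρ (swap a b) v = s • v := Iff.rfl

theorem rho_mul (σ τ : Perm I) (v : V) : ρ σ (ρ τ v) = ρ (σ * τ) v := by
  rw [map_mul]; rfl

theorem ext_mem {s : ℚ} (hs : s * s = 1) {B : Finset I} {x : I} (hx : x ∉ B) {v : V}
    (hv : v ∈ Inv ρ s B) : v + s • ∑ y ∈ B, ρ (swap x y) v ∈ Inv ρ s (insert x B) := by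
  have key : ∀ a ∈ B, ρ (swap x a) (v + s • ∑ y ∈ B, ρ (swap x y) v) =
      s • (v + s • ∑ y ∈ B, ρ (swap x y) v) := by
    intro a ha
    have h1 : ∀ y ∈ B.erase a, ρ (swap x a) (ρ (swap x y) v) = s • ρ (swap x y) v := by
      intro y hy
      have hya := ne_of_mem_erase hy
      have hyB := mem_of_mem_erase hy
      have hax : a ≠ x := fun h => hx (h ▸ ha)
      rw [rho_mul, swap_mul_eq_mul_swap, ← rho_mul, swap_inv, swap_apply_left,
        swap_apply_of_ne_of_ne hax hya.symm, hv y hyB a ha hya, map_smul]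
    rw [map_add, map_smul, map_sum, ← add_sum_erase B _ ha, ← add_sum_erase B _ ha,
      sum_congr rfl h1, rho_mul, swap_mul_self, map_one, ← smul_sum]
    simp only [smul_add, smul_smul, hs, one_smul, Module.End.one_apply]
    abel
  intro a ha b hb hab
  rcases mem_insert.1 ha with rfl | ha'
  · exact key b ((mem_insert.1 hb).resolve_left hab.symm)
  rcases mem_insert.1 hb with rfl | hb'
  · rw [swap_comm]; exact key a ha'
  have hxa : x ≠ a := fun h => hx (h ▸ ha')
  have hxb : x ≠ b := fun h => hx (h ▸ hb')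
  have h1 : ∀ y ∈ B, ρ (swap a b) (ρ (swap x y) v) = s • ρ (swap x (swap a b y)) v := by
    intro y _
    rw [rho_mul, mul_swap_eq_swap_mul, ← rho_mul, swap_apply_of_ne_of_ne hxa hxb,
      hv a ha' b hb' hab, map_smul]
  have h2 : ∑ y ∈ B, ρ (swap x (swap a b y)) v = ∑ y ∈ B, ρ (swap x y) v := by
    refine sum_equiv (swap a b) (fun y => ?_) fun _ _ => rfl
    have := swap_mem_Sp ha' hb'
    exact ⟨apply_mem_Sp this, fun h => by simpa using apply_mem_Sp this h⟩
  rw [map_add, map_smul, map_sum, sum_congr rfl h1, ← smul_sum, h2, hv a ha' b hb' hab, smul_add]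

theorem sa (t : ℕ) : ∀ (m : ℕ) (I0 : Finset I) (U : Submodule ℚ V),
    (∀ a ∈ I0, ∀ b ∈ I0, ∀ u ∈ U, ρ (swap a b) u ∈ U) → (∃ v ∈ U, v ≠ 0) → m * t ≤ I0.card →
    (∃ R ⊆ I0, R.card = t ∧ ∃ v ∈ U, v ≠ 0 ∧ v ∈ Inv ρ 1 R) ∨
      ∃ Y ⊆ I0, Y.card = m ∧ ∃ v ∈ U, v ≠ 0 ∧ v ∈ Inv ρ (-1) Y := by
  classical
  intro m
  induction m with
  | zero =>
    rintro I0 U _ ⟨v, hv, h0⟩ _
    exact Or.inr ⟨∅, empty_subset _, rfl, v, hv, h0, by simp [mem_Inv]⟩
  | succ m ih =>
    rintro I0 U hU ⟨v0, hv0, h0⟩ hc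
    obtain ⟨B, hB, hmax⟩ := exists_max_image
      (I0.powerset.filter fun B => ∃ v ∈ U, v ≠ 0 ∧ v ∈ Inv ρ 1 B) card
      ⟨∅, by simpa using ⟨v0, hv0, h0, by simp [mem_Inv]⟩⟩
    obtain ⟨hBI, v, hvU, hv0', hvB⟩ := mem_filter.1 hB
    rw [mem_powerset] at hBI
    by_cases ht : t ≤ B.card
    · obtain ⟨R, hR, hRc⟩ := exists_subset_card_eq ht
      exact Or.inl ⟨R, hR.trans hBI, hRc, v, hvU, hv0',
        fun a ha b hb hab => hvB a (hR ha) b (hR hb) hab⟩
    have hz : ∀ x ∈ I0 \ B, ∀ w ∈ U ⊓ Inv ρ 1 B, ∑ y ∈ B, ρ (swap x y) w = -w := by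
      intro x hx w hw
      obtain ⟨hxI, hxB⟩ := mem_sdiff.1 hx
      by_contra hne
      have h1 := ext_mem ρ (one_mul 1) hxB hw.2
      have h2 := hmax (insert x B) (mem_filter.2 ⟨mem_powerset.2 (insert_subset hxI hBI), _,
        U.add_mem hw.1 (U.smul_mem _ (U.sum_mem fun y hy => hU x hxI y (hBI hy) w hw.1)),
        fun h => hne (by rw [one_smul] at h; exact eq_neg_of_add_eq_zero_right h), h1⟩)
      rw [card_insert_of_notMem hxB] at h2
      omega
    have hcs : m * t < (I0 \ B).card := by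
      rw [card_sdiff_of_subset hBI]
      have : (m + 1) * t = m * t + t := by ring
      omega
    have hBne : B.Nonempty := by
      rw [nonempty_iff_ne_empty]
      rintro rfl
      obtain ⟨x, hx⟩ : (I0 \ ∅).Nonempty := card_pos.1 (by omega)
      have := hz x hx v ⟨hvU, hvB⟩
      simp only [sum_empty] at this
      exact hv0' (neg_eq_zero.1 this.symm)
    rcases ih (I0 \ B) (U ⊓ Inv ρ 1 B) (by
      intro a ha b hb u hu
      obtain ⟨haI, haB⟩ := mem_sdiff.1 ha
      obtain ⟨hbI, hbB⟩ := mem_sdiff.1 hb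
      refine ⟨hU a haI b hbI u hu.1, fun c hc d hd hcd => ?_⟩
      rw [rho_mul, mul_swap_eq_swap_mul, ← rho_mul, hu.2 c hc d hd hcd, map_smul,
        swap_apply_of_ne_of_ne (ne_of_mem_of_not_mem hc haB).symm
          (ne_of_mem_of_not_mem hd haB).symm,
        swap_apply_of_ne_of_ne (ne_of_mem_of_not_mem hc hbB).symm
          (ne_of_mem_of_not_mem hd hbB).symm])
      ⟨v, ⟨hvU, hvB⟩, hv0'⟩ hcs.le with ⟨R, hR, hRc, w, hw, hw0, hwR⟩ | ⟨Y, hY, hYc, w, hw, hw0, hwY⟩
    · exact Or.inl ⟨R, hR.trans sdiff_subset, hRc, w, hw.1, hw0, hwR⟩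
    right
    by_contra hne
    push Not at hne
    have h1 : ∀ y ∈ B, w + (-1 : ℚ) • ∑ x ∈ Y, ρ (swap y x) w = 0 := by
      intro y hy
      have hyY : y ∉ Y := fun h => (mem_sdiff.1 (hY h)).2 hy
      by_contra h
      exact hne (insert y Y) (insert_subset (hBI hy) (hY.trans sdiff_subset))
        (by rw [card_insert_of_notMem hyY, hYc]) _
        (U.add_mem hw.1 (U.smul_mem _ (U.sum_mem fun x hx =>
          hU y (hBI hy) x (sdiff_subset (hY hx)) w hw.1))) h
        (ext_mem ρ (by norm_num) hyY hwY)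
    have h2 : ∑ y ∈ B, (w + (-1 : ℚ) • ∑ x ∈ Y, ρ (swap y x) w) = ((B.card : ℚ) + m) • w := by
      rw [sum_add_distrib, ← smul_sum, sum_comm,
        sum_congr rfl fun x hx => (sum_congr rfl fun y _ => by rw [swap_comm]).trans
          (hz x (hY hx) w hw)]
      simp only [sum_const, hYc, add_smul, smul_neg, neg_smul, one_smul, neg_neg,
        Nat.cast_smul_eq_nsmul]
    rw [sum_eq_zero h1] at h2
    have h3 : (0 : ℚ) < B.card := by exact_mod_cast card_pos.2 hBne
    exact hw0 ((smul_eq_zero.1 h2.symm).resolve_left (by positivity))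

theorem sy_inv {s : ℤˣ} {R : Finset I} {v : V} (hv : v ∈ Inv ρ (sq s) R) :
    sy ρ s R v = ((Sp R).card : ℚ) • v := by
  have h : ∀ σ ∈ Sp R, ρ σ v = ch s σ • v := by
    refine Sp_ind _ (by simp) fun a ha b hb hab σ _ h => ?_
    rw [← rho_mul, h, map_smul, hv a ha b hb hab, map_mul, ch_swap s hab, smul_smul, mul_comm]
  rw [sy, LinearMap.sum_apply, sum_congr rfl fun σ hσ => by
    rw [LinearMap.smul_apply, h σ hσ, smul_smul, ch_sq, one_smul]]
  simp [Nat.cast_smul_eq_nsmul]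

theorem sy_conj (s : ℤˣ) (R : Finset I) (τ : Perm I) (v : V) :
    sy ρ s R (ρ τ v) = ρ τ (sy ρ s (R.map τ⁻¹.toEmbedding) v) := by
  simp only [sy, LinearMap.sum_apply, map_sum, LinearMap.smul_apply, map_smul, rho_mul]
  refine sum_equiv (MulAut.conj τ⁻¹).toEquiv (fun σ => ?_) fun σ _ => ?_
  · simp only [mem_Sp, MulEquiv.toEquiv_eq_coe, EquivLike.coe_coe, MulAut.conj_apply, inv_inv,
      mul_apply, mem_map_equiv]
    constructor
    · intro h i hi
      rw [h (τ i) hi]; simp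
    · intro h i hi
      have := h (τ⁻¹ i) (by
        change τ (τ⁻¹ i) ∉ R
        simpa using hi)
      simpa using this
  · simp only [MulEquiv.toEquiv_eq_coe, EquivLike.coe_coe, MulAut.conj_apply, inv_inv, map_mul,
      ch_inv]
    congr 1
    · rw [mul_comm (ch s τ), mul_assoc, ch_sq, mul_one]
    · simp only [← map_mul]; congr 2; group

theorem sa' (t : ℕ) (I0 : Finset I) (hc : t * t ≤ I0.card) {v : V} (hv : v ≠ 0) :
    ∃ s R, R ⊆ I0 ∧ R.card = t ∧ sy ρ s R v ≠ 0 := by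
  by_contra hne
  push Not at hne
  let U : Submodule ℚ V :=
    { carrier := {u | ∀ s R, R ⊆ I0 → R.card = t → sy ρ s R u = 0}
      add_mem' := fun hu hw s R h1 h2 => by rw [map_add, hu s R h1 h2, hw s R h1 h2, add_zero]
      zero_mem' := fun _ _ _ _ => map_zero _
      smul_mem' := fun c u hu s R h1 h2 => by rw [map_smul, hu s R h1 h2, smul_zero] }
  have hpos : ∀ R : Finset I, ((Sp R).card : ℚ) ≠ 0 := fun R => by
    exact_mod_cast (card_pos.2 ⟨1, one_mem_Sp R⟩).ne'
  rcases sa ρ t t I0 U (by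
    intro a ha b hb u hu s R h1 h2
    rw [sy_conj, hu s _ (fun i hi => ?_) (by simpa using h2), map_zero]
    obtain ⟨k, hk, rfl⟩ := mem_map.1 hi
    exact apply_mem_Sp (inv_mem_Sp (swap_mem_Sp ha hb)) (h1 hk)) ⟨v, hne, hv⟩ hc with
    ⟨R, h1, h2, w, hw, hw0, hwR⟩ | ⟨R, h1, h2, w, hw, hw0, hwR⟩
  · have := hw 1 R h1 h2
    rw [sy_inv ρ (by simpa [sq] using hwR)] at this
    exact hw0 ((smul_eq_zero.1 this).resolve_left (hpos R))
  · have := hw (-1) R h1 h2
    rw [sy_inv ρ (by simpa [sq] using hwR)] at this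
    exact hw0 ((smul_eq_zero.1 this).resolve_left (hpos R))

end one

section multi
variable {J : Type*} [Fintype J] [DecidableEq J] (ρ : (J → Perm I) →* Module.End ℚ V)

/-- Character of a parity pattern. -/
def chm (π : J → ℤˣ) : (J → Perm I) →* ℚ where
  toFun σ := ∏ j, ch (π j) (σ j)
  map_one' := by simp
  map_mul' σ τ := by simp [prod_mul_distrib]

theorem chm_apply (π : J → ℤˣ) (σ : J → Perm I) : chm π σ = ∏ j, ch (π j) (σ j) := rfl

theorem chm_sq (π : J → ℤˣ) (σ : J → Perm I) : chm π σ * chm π σ = 1 := by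
  simp only [chm_apply, ← prod_mul_distrib, ch_sq, prod_const_one]

/-- The multi-column (skew-)symmetriser. -/
def sym (π : J → ℤˣ) (Rf : J → Finset I) : Module.End ℚ V :=
  ∑ σ ∈ Fintype.piFinset fun j => Sp (Rf j), chm π σ • ρ σ

theorem sym_rho (π : J → ℤˣ) (Rf : J → Finset I) {τ : J → Perm I} (hτ : ∀ j, τ j ∈ Sp (Rf j))
    (v : V) : sym ρ π Rf (ρ τ v) = chm π τ • sym ρ π Rf v := by
  simp only [sym, LinearMap.sum_apply, LinearMap.smul_apply, smul_sum, smul_smul]
  refine sum_equiv (Equiv.mulRight τ) (fun σ => ?_) fun σ _ => ?_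
  · simp only [Fintype.mem_piFinset, coe_mulRight, Pi.mul_apply]
    refine forall_congr' fun j => ⟨fun h => mul_mem_Sp h (hτ j), fun h => ?_⟩
    simpa using mul_mem_Sp h (inv_mem_Sp (hτ j))
  · simp only [coe_mulRight, map_mul, Module.End.mul_apply]
    rw [mul_comm (chm π σ), ← mul_assoc, chm_sq, one_mul]

theorem sym_mono (π : J → ℤˣ) {Rf Rf' : J → Finset I} (h : ∀ j, Rf' j ⊆ Rf j) {v : V}
    (hv : sym ρ π Rf' v = 0) : sym ρ π Rf v = 0 := by
  have h1 : sym ρ π Rf (sym ρ π Rf' v) =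
      ((Fintype.piFinset fun j => Sp (Rf' j)).card : ℚ) • sym ρ π Rf v := by
    conv_lhs => rw [sym.eq_def ρ π Rf', LinearMap.sum_apply, map_sum]
    rw [sum_congr rfl fun σ hσ => by
      rw [LinearMap.smul_apply, map_smul,
        sym_rho ρ π Rf fun j => Sp_mono (h j) (Fintype.mem_piFinset.1 hσ j), smul_smul, chm_sq,
        one_smul], sum_const, Nat.cast_smul_eq_nsmul]
  rw [hv, map_zero] at h1
  refine (smul_eq_zero.1 h1.symm).resolve_left ?_
  exact_mod_cast (card_pos.2 ⟨1, Fintype.mem_piFinset.2 fun j => one_mem_Sp _⟩).ne'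

theorem sym_step (π : J → ℤˣ) (Rf : J → Finset I) (j : J) (hj : Rf j = ∅) (s : ℤˣ)
    (R : Finset I) (v : V) :
    sym ρ (Function.update π j s) (Function.update Rf j R) v =
      sy (ρ.comp (MonoidHom.mulSingle (fun _ : J => Perm I) j)) s R (sym ρ π Rf v) := by
  simp only [sym, sy, LinearMap.sum_apply, LinearMap.smul_apply, map_sum, map_smul, smul_sum]
  rw [sum_comm, ← sum_product']
  symm
  have h1 : ∀ σ ∈ Fintype.piFinset fun j => Sp (Rf j), σ j = 1 := fun σ hσ => by
    have := Fintype.mem_piFinset.1 hσ j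
    rwa [hj, Sp_empty, mem_singleton] at this
  refine sum_nbij' (fun p => Function.update p.2 j p.1) (fun σ => (σ j, Function.update σ j 1))
    ?_ ?_ ?_ ?_ ?_
  · rintro ⟨τ, σ⟩ hp
    obtain ⟨h2, h3⟩ := mem_product.1 hp
    refine Fintype.mem_piFinset.2 fun k => ?_
    by_cases hk : k = j
    · subst hk; simpa using h2
    · simpa [hk] using Fintype.mem_piFinset.1 h3 k
  · intro σ hσ
    refine mem_product.2 ⟨by simpa using Fintype.mem_piFinset.1 hσ j,
      Fintype.mem_piFinset.2 fun k => ?_⟩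
    by_cases hk : k = j
    · subst hk; simpa using one_mem_Sp _
    · simpa [hk] using Fintype.mem_piFinset.1 hσ k
  · rintro ⟨τ, σ⟩ hp
    have := h1 σ (mem_product.1 hp).2
    simp [← this]
  · intro σ _; simp
  · rintro ⟨τ, σ⟩ hp
    have h2 := h1 σ (mem_product.1 hp).2
    have h3 : Function.update σ j τ = Pi.mulSingle j τ * σ := by
      funext k
      by_cases hk : k = j
      · subst hk; simp [h2]
      · simp [hk]
    have h4 : chm (Function.update π j s) (Function.update σ j τ) = chm π σ * ch s τ := by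
      rw [chm_apply, chm_apply, ← mul_prod_erase _ _ (mem_univ j),
        ← mul_prod_erase univ _ (mem_univ j), h2, map_one, one_mul, mul_comm]
      simp only [Function.update_self]
      congr 1
      exact prod_congr rfl fun k hk => by simp [ne_of_mem_erase hk]
    simp only [h4, smul_smul]
    rw [h3, map_mul]; rfl

theorem mc_aux (S : Finset J) : ∀ (t : ℕ) (I0 : Finset I), t ^ 2 ^ S.card ≤ I0.card →
    ∀ {v : V}, v ≠ 0 → ∃ π Rf R, R ⊆ I0 ∧ R.card = t ∧ (∀ j ∈ S, R ⊆ Rf j) ∧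
      (∀ j ∉ S, Rf j = ∅) ∧ sym ρ π Rf v ≠ 0 := by
  induction S using Finset.induction_on with
  | empty =>
    intro t I0 h v hv
    obtain ⟨R, hR, hRc⟩ := exists_subset_card_eq (n := t) (by simpa using h)
    refine ⟨1, fun _ => ∅, R, hR, hRc, by simp, by simp, ?_⟩
    have : (Fintype.piFinset fun _ : J => ({1} : Finset (Perm I))) = {1} :=
      Fintype.piFinset_singleton (fun _ => 1)
    simpa [sym, Sp_empty, this] using hv
  | insert j S hj ih =>
    intro t I0 h v hv
    obtain ⟨π, Rf, R, h1, h2, h3, h4, h5⟩ := ih (t * t) I0 (by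
      rw [card_insert_of_notMem hj, pow_succ', pow_mul, pow_two] at h; exact h) hv
    obtain ⟨s, R', h6, h7, h8⟩ :=
      sa' (ρ.comp (MonoidHom.mulSingle (fun _ : J => Perm I) j)) t R h2.ge h5
    refine ⟨Function.update π j s, Function.update Rf j R', R', h6.trans h1, h7, ?_, ?_, ?_⟩
    · intro k hk
      by_cases hkj : k = j
      · subst hkj; simp
      · rw [Function.update_of_ne hkj]
        exact h6.trans (h3 k ((mem_insert.1 hk).resolve_left hkj))
    · intro k hk
      rw [mem_insert, not_or] at hk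
      rw [Function.update_of_ne hk.1, h4 k hk.2]
    · rwa [sym_step ρ π Rf j (h4 j hj)]

theorem mc (t : ℕ) (hc : t ^ 2 ^ Fintype.card J ≤ Fintype.card I) {v : V}
    (h : ∀ π (R : Finset I), R.card = t → sym ρ π (fun _ => R) v = 0) : v = 0 := by
  by_contra hv
  obtain ⟨π, Rf, R, -, h2, h3, -, h5⟩ := mc_aux ρ univ t univ hc hv
  exact h5 (sym_mono ρ π (fun j => h3 j (mem_univ j)) (h π R h2))

/-- The permutation action on functions of a table of variables. -/
def rho (J I α W : Type*) [AddCommGroup W] [Module ℚ W] :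
    (J → Perm I) →* Module.End ℚ ((J × I → α) → W) where
  toFun σ :=
    { toFun := fun Φ Y => Φ fun p => Y (p.1, σ p.1 p.2)
      map_add' := fun _ _ => rfl
      map_smul' := fun _ _ => rfl }
  map_one' := rfl
  map_mul' _ _ := rfl

theorem sym_rho_apply {α W : Type*} [AddCommGroup W] [Module ℚ W] (π : J → ℤˣ)
    (Rf : J → Finset I) (Φ : (J × I → α) → W) (Y : J × I → α) :
    sym (rho J I α W) π Rf Φ Y = ∑ σ ∈ Fintype.piFinset fun j => Sp (Rf j),
      chm π σ • Φ fun p => Y (p.1, σ p.1 p.2) := by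
  simp only [sym, LinearMap.sum_apply, LinearMap.smul_apply, Finset.sum_apply, Pi.smul_apply]
  rfl

end multi

end Pool.Agent.MP_2a197d_al

end MrgPart1

-- ======== part 2: formerly Pool.Agent.MP_2a197d_al.Grass
section MrgPart2

/-! The Grassmann algebra `E` and the commutative algebra `E0 ⊗ E0 + E1 ⊗ E1`. -/

set_option linter.unusedSectionVars false

namespace Pool.Agent.MP_2a197d_al

open CliffordAlgebra TensorProduct Finset Equiv

/-- Generators of the Grassmann algebra. -/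
abbrev Gen := ℕ × ℕ × Bool

/-- The Grassmann algebra. -/
abbrev E := CliffordAlgebra (0 : QuadraticForm ℚ (Gen → ℚ))

/-- A generator. -/
noncomputable def eps (g : Gen) : E := ι 0 (Pi.single g 1)

/-- Even and odd parts. -/
def Ep (s : ℤˣ) : Submodule ℚ E where
  carrier := {e | involute e = sq s • e}
  add_mem' := by
    intro a b ha hb
    simp only [Set.mem_ofPred_eq] at *
    rw [map_add, ha, hb, smul_add]
  zero_mem' := by simp
  smul_mem' := by
    intro c a ha
    simp only [Set.mem_ofPred_eq] at *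
    rw [map_smul, ha, smul_comm]

theorem mem_Ep {s : ℤˣ} {e : E} : e ∈ Ep s ↔ involute e = sq s • e := Iff.rfl

theorem mul_mem_Ep {s t : ℤˣ} {e f : E} (he : e ∈ Ep s) (hf : f ∈ Ep t) : e * f ∈ Ep (s * t) := by
  rw [mem_Ep] at *
  rw [map_mul, he, hf, sq_mul, smul_mul_smul_comm]

theorem one_mem_Ep : (1 : E) ∈ Ep 1 := by simp [mem_Ep, sq]

theorem eps_mem (g : Gen) : eps g ∈ Ep (-1) := by simp [mem_Ep, sq, eps]

theorem iota_anti (a b : Gen → ℚ) : (ι 0 a * ι 0 b : E) = -(ι 0 b * ι 0 a) := by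
  rw [ι_mul_ι_comm]; simp [QuadraticMap.polar]

theorem iota_mul (v : Gen → ℚ) (e : E) : ι 0 v * e = involute e * ι 0 v := by
  induction e using CliffordAlgebra.induction with
  | algebraMap r => rw [AlgHom.commutes, Algebra.commutes]
  | ι x => rw [iota_anti, involute_ι, neg_mul]
  | mul a b ha hb => rw [← mul_assoc, ha, mul_assoc, hb, map_mul, mul_assoc]
  | add a b ha hb => rw [mul_add, ha, hb, map_add, add_mul]

theorem even_comm {e : E} (he : e ∈ Ep 1) (f : E) : e * f = f * e := by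
  have h : involute e = e := by simpa [sq] using mem_Ep.1 he
  induction f using CliffordAlgebra.induction with
  | algebraMap r => rw [Algebra.commutes]
  | ι x => rw [iota_mul, h]
  | mul a b ha hb => rw [← mul_assoc, ha, mul_assoc, hb, mul_assoc]
  | add a b ha hb => rw [mul_add, ha, hb, add_mul]

theorem odd_mul {e : E} (he : e ∈ Ep (-1)) (f : E) : e * f = involute f * e := by
  have h : involute e = -e := by simpa [sq] using mem_Ep.1 he
  induction f using CliffordAlgebra.induction with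
  | algebraMap r => rw [AlgHom.commutes, Algebra.commutes]
  | ι x => rw [involute_ι, neg_mul, iota_mul, h, neg_mul, neg_neg]
  | mul a b ha hb => rw [← mul_assoc, ha, mul_assoc, hb, map_mul, mul_assoc]
  | add a b ha hb => rw [mul_add, ha, hb, map_add, add_mul]

theorem odd_anti {e f : E} (he : e ∈ Ep (-1)) (hf : f ∈ Ep (-1)) : e * f = -(f * e) := by
  rw [odd_mul he, mem_Ep.1 hf]; simp [sq]

theorem eps_sq (g : Gen) : eps g * eps g = 0 := by
  rw [eps, ι_sq_scalar]; simp

/-- The tensor square. -/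
abbrev BB := E ⊗[ℚ] E

/-- Generators of the commutative algebra. -/
def Cgen : Set BB := {b | ∃ s e f, e ∈ Ep s ∧ f ∈ Ep s ∧ b = e ⊗ₜ f}

theorem Cgen_comm : ∀ a ∈ Cgen, ∀ b ∈ Cgen, a * b = b * a := by
  rintro _ ⟨s, e, f, he, hf, rfl⟩ _ ⟨t, e', f', he', hf', rfl⟩
  simp only [Algebra.TensorProduct.tmul_mul_tmul]
  rcases Int.units_eq_one_or s with rfl | rfl
  · rw [even_comm he, even_comm hf]
  rcases Int.units_eq_one_or t with rfl | rfl
  · rw [even_comm he', even_comm hf']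
  · rw [odd_anti he he', odd_anti hf hf', neg_tmul, tmul_neg, neg_neg]

/-- A commutative subalgebra containing the products of equal parity. -/
structure CData where
  C : Type
  [ring : CommRing C]
  [alg : Algebra ℚ C]
  val : C →ₐ[ℚ] BB
  inj : Function.Injective val
  ex : ∀ b ∈ Cgen, ∃ c, val c = b

theorem cdata : Nonempty CData := by
  let _ : CommRing (Algebra.adjoin ℚ Cgen) :=
    { (inferInstance : Ring (Algebra.adjoin ℚ Cgen)) with
      mul_comm := (Algebra.isMulCommutative_adjoin ℚ Cgen_comm).is_comm.comm }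
  exact ⟨⟨Algebra.adjoin ℚ Cgen, (Algebra.adjoin ℚ Cgen).val, Subtype.val_injective,
    fun b hb => ⟨⟨b, Algebra.subset_adjoin hb⟩, rfl⟩⟩⟩

/-- The commutative algebra `E0 ⊗ E0 + E1 ⊗ E1`. -/
def CC : Type := cdata.some.C

noncomputable instance : CommRing CC := cdata.some.ring

noncomputable instance : Algebra ℚ CC := cdata.some.alg

/-- The inclusion. -/
noncomputable def val : CC →ₐ[ℚ] BB := cdata.some.val

theorem val_inj : Function.Injective val := cdata.some.inj

theorem exists_val {s : ℤˣ} {e f : E} (he : e ∈ Ep s) (hf : f ∈ Ep s) :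
    ∃ c : CC, val c = e ⊗ₜ f := cdata.some.ex _ ⟨s, e, f, he, hf, rfl⟩

theorem eps2_mem (g h : Gen) : eps g * eps h ∈ Ep 1 := by
  simpa using mul_mem_Ep (eps_mem g) (eps_mem h)

/-- The coefficient of variable `a` in block `i`, column `j`. -/
noncomputable def cc (s : ℤˣ) (j a i : ℕ) : CC :=
  if s = 1 then (exists_val (eps2_mem (a, j, false) (a, j, true)) one_mem_Ep).choose
  else (exists_val (eps_mem (a, j, false)) (eps_mem (i, j, false))).choose

theorem val_cc_one (j a i : ℕ) :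
    val (cc 1 j a i) = (eps (a, j, false) * eps (a, j, true)) ⊗ₜ 1 := by
  rw [cc, if_pos rfl]
  exact (exists_val (eps2_mem (a, j, false) (a, j, true)) one_mem_Ep).choose_spec

theorem val_cc_neg (j a i : ℕ) :
    val (cc (-1) j a i) = eps (a, j, false) ⊗ₜ eps (i, j, false) := by
  rw [cc, if_neg (by decide)]
  exact (exists_val (eps_mem (a, j, false)) (eps_mem (i, j, false))).choose_spec

theorem cc_swap (s : ℤˣ) (j a b i k : ℕ) :
    cc s j a i * cc s j b k = sq s • (cc s j b i * cc s j a k) := by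
  apply val_inj
  rcases Int.units_eq_one_or s with rfl | rfl
  · simp only [map_smul, map_mul, val_cc_one, Algebra.TensorProduct.tmul_mul_tmul]
    rw [even_comm (eps2_mem _ _)]; simp [sq]
  · simp only [map_smul, map_mul, val_cc_neg, Algebra.TensorProduct.tmul_mul_tmul]
    rw [odd_anti (eps_mem (a, j, false)) (eps_mem _)]; simp [sq, neg_tmul]

theorem cc_zero (s : ℤˣ) (j a i k : ℕ) : cc s j a i * cc s j a k = 0 := by
  apply val_inj
  rcases Int.units_eq_one_or s with rfl | rfl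
  · simp only [map_zero, map_mul, val_cc_one, Algebra.TensorProduct.tmul_mul_tmul]
    rw [← mul_assoc, even_comm (eps2_mem _ _), ← mul_assoc, eps_sq]; simp
  · simp only [map_zero, map_mul, val_cc_neg, Algebra.TensorProduct.tmul_mul_tmul, eps_sq,
      zero_tmul]

/-- Generators of the tensor square. -/
noncomputable def ge : Gen ⊕ Gen → BB
  | Sum.inl g => eps g ⊗ₜ 1
  | Sum.inr g => 1 ⊗ₜ eps g

/-- Contraction with a generator. -/
noncomputable def con (g : Gen) : E →ₗ[ℚ] E := contractLeft (LinearMap.proj g)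

theorem con_eps (g h : Gen) (e : E) :
    con g (eps h * e) = (if g = h then e else 0) - eps h * con g e := by
  rw [con, eps, contractLeft_ι_mul]
  by_cases hg : g = h
  · subst hg; simp
  · simp [hg]

/-- Contractions on the tensor square. -/
noncomputable def dd : Gen ⊕ Gen → BB →ₗ[ℚ] BB
  | Sum.inl g => (con g).rTensor E
  | Sum.inr g => (con g).lTensor E

theorem dd_one (x : Gen ⊕ Gen) : dd x 1 = 0 := by
  rcases x with g | g <;> simp [dd, Algebra.TensorProduct.one_def, con]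

theorem dd_ge (x y : Gen ⊕ Gen) : ∃ r : ℚ, ∀ w : BB,
    dd x (ge y * w) = (if x = y then w else 0) + r • (ge y * dd x w) := by
  rcases x with g | g <;> rcases y with h | h
  · refine ⟨-1, fun w => ?_⟩
    induction w using TensorProduct.induction_on with
    | zero => simp
    | tmul a b =>
      by_cases hg : g = h <;> simp [dd, ge, con_eps, hg, sub_eq_add_neg, add_tmul,
        neg_tmul]
    | add a b ha hb =>
      rw [mul_add, map_add, ha, hb, map_add, mul_add, smul_add]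
      split_ifs <;> abel
  · refine ⟨1, fun w => ?_⟩
    induction w using TensorProduct.induction_on with
    | zero => simp
    | tmul a b => simp [dd, ge]
    | add a b ha hb => rw [mul_add, map_add, ha, hb, map_add, mul_add, smul_add]; simp
  · refine ⟨1, fun w => ?_⟩
    induction w using TensorProduct.induction_on with
    | zero => simp
    | tmul a b => simp [dd, ge]
    | add a b ha hb => rw [mul_add, map_add, ha, hb, map_add, mul_add, smul_add]; simp
  · refine ⟨-1, fun w => ?_⟩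
    induction w using TensorProduct.induction_on with
    | zero => simp
    | tmul a b =>
      by_cases hg : g = h <;> simp [dd, ge, con_eps, hg, sub_eq_add_neg, tmul_add, tmul_neg]
    | add a b ha hb =>
      rw [mul_add, map_add, ha, hb, map_add, mul_add, smul_add]
      split_ifs <;> abel

theorem prod_ne {P : Type*} [DecidableEq P] (x y : P → Gen ⊕ Gen) (c : P → CC)
    (hc : ∀ p, val (c p) = ge (x p) * ge (y p)) (hx : Function.Injective x)
    (hy : Function.Injective y) (hxy : ∀ p q, x p ≠ y q) (S : Finset P) :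
    (∀ z, (∀ p ∈ S, z ≠ x p ∧ z ≠ y p) → dd z (val (∏ p ∈ S, c p)) = 0) ∧ ∏ p ∈ S, c p ≠ 0 := by
  induction S using Finset.induction_on with
  | empty =>
    refine ⟨fun z _ => by simp [dd_one], fun h => ?_⟩
    have := congrArg val h
    simp at this
  | insert p S hp ih =>
    rw [prod_insert hp]
    constructor
    · intro z hz
      obtain ⟨r, hr⟩ := dd_ge z (x p)
      obtain ⟨r', hr'⟩ := dd_ge z (y p)
      have h1 := hz p (mem_insert_self _ _)
      rw [map_mul, hc, mul_assoc, hr, hr', if_neg h1.1, if_neg h1.2,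
        ih.1 z fun q hq => hz q (mem_insert_of_mem hq)]
      simp
    · intro h
      obtain ⟨r, hr⟩ := dd_ge (x p) (x p)
      obtain ⟨r', hr'⟩ := dd_ge (x p) (y p)
      obtain ⟨r'', hr''⟩ := dd_ge (y p) (y p)
      have h1 := ih.1 (x p) fun q hq => ⟨fun h => hp (hx h ▸ hq), hxy _ _⟩
      have h2 := ih.1 (y p) fun q hq => ⟨(hxy _ _).symm, fun h => hp (hy h ▸ hq)⟩
      have h3 := congrArg (fun c => dd (y p) (dd (x p) (val c))) h
      simp only [map_mul, hc, mul_assoc, hr, hr', hr'', if_neg (hxy p p), h1, h2, if_true,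
        map_zero, mul_zero, smul_zero, add_zero] at h3
      exact ih.2 (val_inj (by rw [h3, map_zero]))

section col
variable {I J : Type*} [Fintype I] [DecidableEq I] [Fintype J] [DecidableEq J]

theorem omega_ne (κ : I → ℕ) (hκ : Function.Injective κ) (lam : J → ℕ)
    (hl : Function.Injective lam) (π : J → ℤˣ) (R : Finset I) :
    ∏ j, ∏ i ∈ R, cc (π j) (lam j) (κ i) (κ i) ≠ 0 := by
  rw [← prod_product']
  refine (prod_ne (fun p : J × I => Sum.inl (κ p.2, lam p.1, false))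
    (fun p => if π p.1 = 1 then Sum.inl (κ p.2, lam p.1, true) else Sum.inr (κ p.2, lam p.1, false))
    _ ?_ ?_ ?_ ?_ _).2
  · rintro ⟨j, i⟩
    rcases Int.units_eq_one_or (π j) with h | h
    · simp [h, val_cc_one, ge]
    · simp only [h, val_cc_neg]
      rw [if_neg (by decide)]; simp [ge]
  · rintro ⟨j, i⟩ ⟨j', i'⟩ h
    simp only [Sum.inl.injEq, Prod.mk.injEq, and_true] at h
    rw [hκ h.1, hl h.2]
  · rintro ⟨j, i⟩ ⟨j', i'⟩ h
    simp only at h
    split_ifs at h <;> simp only [Sum.inl.injEq, Sum.inr.injEq, Prod.mk.injEq, and_true] at h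
    all_goals rw [hκ h.1, hl h.2]
  · rintro ⟨j, i⟩ ⟨j', i'⟩ h
    simp only at h
    split_ifs at h
    simp at h

theorem col_two (c : I → CC) {R : Finset I} {i k : I} (hi : i ∈ R) (hk : k ∈ R) (h : i ≠ k) :
    ∏ a ∈ R, c a = c i * c k * ∏ a ∈ (R.erase i).erase k, c a := by
  rw [mul_assoc, mul_prod_erase _ _ (mem_erase.2 ⟨h.symm, hk⟩), mul_prod_erase _ _ hi]

theorem col_perm (κ : I → ℕ) (s : ℤˣ) (j : ℕ) (R : Finset I) : ∀ σ ∈ Sp R,
    ∏ i ∈ R, cc s j (κ (σ i)) (κ i) = ch s σ • ∏ i ∈ R, cc s j (κ i) (κ i) := by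
  refine Sp_ind _ (by simp) fun a ha b hb hab σ hσ h => ?_
  have ha' := apply_mem_Sp (inv_mem_Sp hσ) ha
  have hb' := apply_mem_Sp (inv_mem_Sp hσ) hb
  have hne : σ⁻¹ a ≠ σ⁻¹ b := fun h => hab (σ⁻¹.injective h)
  rw [map_mul, ch_swap s hab, mul_smul, ← h, col_two _ ha' hb' hne, col_two _ ha' hb' hne]
  have e1 : ∀ x, σ (σ⁻¹ x) = x := fun x => by simp
  simp only [Perm.mul_apply, e1, swap_apply_left, swap_apply_right]
  rw [cc_swap, smul_mul_assoc]
  congr 2
  refine prod_congr rfl fun i hi => ?_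
  rw [swap_apply_of_ne_of_ne]
  · intro h; exact ne_of_mem_erase (mem_of_mem_erase hi) (by rw [← h]; simp)
  · intro h; exact ne_of_mem_erase hi (by rw [← h]; simp)

/-- The generic table. -/
noncomputable def gen {α M : Type*} [AddCommGroup M] [Module CC M] (κ : I → ℕ) (lam : J → ℕ)
    (emb : α → M) (π : J → ℤˣ) (R : Finset I) (Y : J × I → α) : J × I → M := fun p =>
  if p.2 ∈ R then ∑ a ∈ R, cc (π p.1) (lam p.1) (κ a) (κ p.2) • emb (Y (p.1, a)) else emb (Y p)

theorem grass {α M W : Type*} [AddCommGroup M] [Module CC M] [AddCommGroup W] [Module ℚ W]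
    (κ : I → ℕ) (hκ : Function.Injective κ) (lam : J → ℕ) (hl : Function.Injective lam)
    (emb : α → M) (F : (J × I → α) → W) (G : (J × I → M) → CC ⊗[ℚ] W) (hG : ML CC G)
    (hF : ∀ Y, G (fun p => emb (Y p)) = 1 ⊗ₜ F Y) (π : J → ℤˣ) (R : Finset I) (Y : J × I → α)
    (h0 : G (gen κ lam emb π R Y) = 0) : sym (rho J I α W) π (fun _ => R) F Y = 0 := by
  classical
  let Tt : J × I → Finset I := fun p => if p.2 ∈ R then R else {p.2}
  let c' : J × I → I → CC := fun p a =>
    if p.2 ∈ R then cc (π p.1) (lam p.1) (κ a) (κ p.2) else 1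
  have h1 : gen κ lam emb π R Y = fun p => ∑ a ∈ Tt p, c' p a • emb (Y (p.1, a)) := by
    funext p
    by_cases hp : p.2 ∈ R <;> simp [gen, Tt, c', hp]
  have h2 : ∀ f : J × I → I, ∏ p, c' p (f p) =
      ∏ j, ∏ i ∈ R, cc (π j) (lam j) (κ (f (j, i))) (κ i) := by
    intro f
    rw [Fintype.prod_prod_type]
    refine prod_congr rfl fun j _ => ?_
    simp only [c']
    rw [prod_ite_mem, univ_inter]
  rw [h1, ← hG.mm_apply, MultilinearMap.map_sum_finset] at h0
  simp only [hG.mm_apply, hG.smul_univ, hF, h2] at h0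
  rw [← sum_of_injOn (s := Fintype.piFinset fun _ : J => Sp R)
    (f := fun σ => (∏ j, ∏ i ∈ R, cc (π j) (lam j) (κ i) (κ i)) ⊗ₜ[ℚ]
      (chm π σ • F fun p => Y (p.1, σ p.1 p.2)))
    (fun (σ : J → Perm I) (p : J × I) => σ p.1 p.2)] at h0
  · rw [← tmul_sum, ← sym_rho_apply] at h0
    by_contra hne
    obtain ⟨φ, hφ⟩ := Module.Projective.exists_dual_eq_one ℚ hne
    have := congrArg (fun u => TensorProduct.rid ℚ CC (φ.lTensor CC u)) h0
    simp only [LinearMap.lTensor_tmul, hφ, rid_tmul, one_smul, map_zero] at this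
    exact omega_ne κ hκ lam hl π R this
  · intro σ _ τ _ h
    funext j
    exact Equiv.ext fun i => congrFun h (j, i)
  · intro σ hσ
    have hσ' := Fintype.mem_piFinset.1 (mem_coe.1 hσ)
    refine mem_coe.2 (Fintype.mem_piFinset.2 fun p => ?_)
    by_cases hp : p.2 ∈ R
    · simp only [Tt, if_pos hp]; exact apply_mem_Sp (hσ' _) hp
    · simp only [Tt, if_neg hp, mem_singleton]; exact mem_Sp.1 (hσ' _) _ hp
  · intro f hf hn
    have hf' := Fintype.mem_piFinset.1 hf
    have hin : ∀ j, ∀ i ∈ R, f (j, i) ∈ R := fun j i hi => by simpa [Tt, hi] using hf' (j, i)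
    have hout : ∀ j, ∀ i ∉ R, f (j, i) = i := fun j i hi => by simpa [Tt, hi] using hf' (j, i)
    obtain ⟨j, hj⟩ : ∃ j, ¬Function.Injective fun i => f (j, i) := by
      by_contra hc
      push Not at hc
      exact hn ⟨fun j => Equiv.ofBijective _ (Finite.injective_iff_bijective.1 (hc j)),
        mem_coe.2 (Fintype.mem_piFinset.2 fun j => mem_Sp.2 (hout j)), rfl⟩
    obtain ⟨a, b, hab, hne⟩ := Function.not_injective_iff.1 hj
    have ha : a ∈ R := by
      by_contra ha
      by_cases hb : b ∈ R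
      · exact ha (by rw [← hout j a ha, hab]; exact hin j b hb)
      · exact hne (by rw [← hout j a ha, hab, hout j b hb])
    have hb : b ∈ R := by
      by_contra hb
      exact hb (by rw [← hout j b hb, ← hab]; exact hin j a ha)
    rw [prod_eq_zero (mem_univ j), zero_smul]
    rw [col_two _ ha hb hne, hab, cc_zero, zero_mul]
  · intro σ hσ
    rw [prod_congr rfl fun j _ => col_perm κ (π j) (lam j) R _ (Fintype.mem_piFinset.1 hσ j),
      prod_smul, smul_tmul', smul_eq_mul, mul_one, smul_tmul, chm_apply]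

end col

end Pool.Agent.MP_2a197d_al

end MrgPart2

-- ======== part 3: formerly Pool.Agent.MP_2a197d_al.PProp
section MrgPart3

/-! The property that every long commutator generates a solvable ideal, and its closure
under subdirect products, images and extension of scalars. -/

set_option linter.unusedSectionVars false

namespace Pool.Agent.MP_2a197d_al

open LieAlgebra LieSubmodule TensorProduct T

/-- Every commutator of weight `c + 1` generates a solvable ideal of derived length `≤ k`. -/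
def PP (K L : Type*) [CommRing K] [LieRing L] [LieAlgebra K L] (c k : ℕ) : Prop :=
  ∀ a : (cb c).Lf → L, derivedSeriesOfIdeal K L k (lieSpan K L {lev (cb c) a}) = ⊥

section hsp
variable {K K' L L' : Type*} [CommRing K] [LieRing L] [LieAlgebra K L] [CommRing K'] [LieRing L']
  [LieAlgebra K' L'] (f : L' →+ L) (hf : ∀ x y, f ⁅x, y⁆ = ⁅f x, f y⁆)

/-- Preimage of an ideal under a semilinear homomorphism. -/
def comapI (hs : ∀ r : K', ∃ s : K, ∀ w, f (r • w) = s • f w) (I : LieIdeal K L) :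
    LieIdeal K' L' where
  carrier := {x | f x ∈ I}
  add_mem' := fun {a b} ha hb => by
    change f (a + b) ∈ I
    rw [map_add]; exact I.add_mem ha hb
  zero_mem' := by change f 0 ∈ I; rw [map_zero]; exact I.zero_mem
  smul_mem' := fun r x hx => by
    obtain ⟨s, hs⟩ := hs r
    change f (r • x) ∈ I
    rw [hs]; exact I.smul_mem s hx
  lie_mem := fun {x m} hm => by
    change f ⁅x, m⁆ ∈ I
    rw [hf]; exact I.lie_mem hm

theorem der_comap (hs : ∀ r : K', ∃ s : K, ∀ w, f (r • w) = s • f w) {I : LieIdeal K L}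
    {I' : LieIdeal K' L'} (h : I' ≤ comapI f hf hs I) (j : ℕ) :
    derivedSeriesOfIdeal K' L' j I' ≤ comapI f hf hs (derivedSeriesOfIdeal K L j I) := by
  induction j with
  | zero => exact h
  | succ j ih =>
    rw [derivedSeriesOfIdeal_succ, derivedSeriesOfIdeal_succ, lie_le_iff]
    intro x hx y hy
    have h1 : f x ∈ derivedSeriesOfIdeal K L j I := ih hx
    have h2 : f y ∈ derivedSeriesOfIdeal K L j I := ih hy
    have h3 := lie_mem_lie h1 h2
    rw [← hf] at h3
    exact h3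

/-- Image of an ideal under a surjective semilinear homomorphism. -/
def mapI (hsur : Function.Surjective f) (hs : ∀ s : K, ∃ r : K', ∀ w, f (r • w) = s • f w)
    (I : LieIdeal K' L') : LieIdeal K L where
  carrier := {y | ∃ x ∈ I, f x = y}
  add_mem' := by
    rintro _ _ ⟨a, ha, rfl⟩ ⟨b, hb, rfl⟩
    exact ⟨a + b, I.add_mem ha hb, map_add _ _ _⟩
  zero_mem' := ⟨0, I.zero_mem, map_zero _⟩
  smul_mem' := by
    rintro s _ ⟨a, ha, rfl⟩
    obtain ⟨r, hr⟩ := hs s
    exact ⟨r • a, I.smul_mem r ha, hr a⟩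
  lie_mem := by
    rintro x _ ⟨a, ha, rfl⟩
    obtain ⟨x, rfl⟩ := hsur x
    exact ⟨⁅x, a⁆, I.lie_mem ha, hf _ _⟩

theorem der_map (hsur : Function.Surjective f) (hs : ∀ s : K, ∃ r : K', ∀ w, f (r • w) = s • f w)
    {I : LieIdeal K L} {I' : LieIdeal K' L'} (h : I ≤ mapI f hf hsur hs I') (j : ℕ) :
    derivedSeriesOfIdeal K L j I ≤ mapI f hf hsur hs (derivedSeriesOfIdeal K' L' j I') := by
  induction j with
  | zero => exact h
  | succ j ih =>
    rw [derivedSeriesOfIdeal_succ, derivedSeriesOfIdeal_succ, lie_le_iff]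
    intro x hx y hy
    obtain ⟨a, ha, rfl⟩ := ih hx
    obtain ⟨b, hb, rfl⟩ := ih hy
    exact ⟨⁅a, b⁆, lie_mem_lie ha hb, hf _ _⟩

include hf in
theorem sol_image (hsur : Function.Surjective f)
    (hs : ∀ s : K, ∃ r : K', ∀ w, f (r • w) = s • f w) {u : L'} {k : ℕ}
    (h : derivedSeriesOfIdeal K' L' k (lieSpan K' L' {u}) = ⊥) :
    derivedSeriesOfIdeal K L k (lieSpan K L {f u}) = ⊥ := by
  have h1 : lieSpan K L {f u} ≤ mapI f hf hsur hs (lieSpan K' L' {u}) := by
    rw [lieSpan_le, Set.singleton_subset_iff]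
    exact ⟨u, subset_lieSpan rfl, rfl⟩
  rw [LieSubmodule.eq_bot_iff]
  intro y hy
  obtain ⟨x, hx, rfl⟩ := der_map f hf hsur hs h1 k hy
  rw [h, mem_bot] at hx
  rw [hx, map_zero]

include hf in
theorem PP.image (hsur : Function.Surjective f)
    (hs : ∀ s : K, ∃ r : K', ∀ w, f (r • w) = s • f w) {c k : ℕ} (h : PP K' L' c k) :
    PP K L c k := by
  intro a
  choose b hb using fun i => hsur (a i)
  have : lev (cb c) a = f (lev (cb c) b) := by
    rw [ev_map f hf]; congr 1; exact (funext hb).symm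
  rw [this]
  exact sol_image f hf hsur hs (h b)

end hsp

theorem PP.sub {K K' L' Θ : Type*} {L : Θ → Type*} [CommRing K] [∀ θ, LieRing (L θ)]
    [∀ θ, LieAlgebra K (L θ)] [CommRing K'] [LieRing L'] [LieAlgebra K' L'] (f : ∀ θ, L' →+ L θ)
    (hf : ∀ θ x y, f θ ⁅x, y⁆ = ⁅f θ x, f θ y⁆)
    (hs : ∀ θ (r : K'), ∃ s : K, ∀ w, f θ (r • w) = s • f θ w)
    (hi : ∀ x, (∀ θ, f θ x = 0) → x = 0) {c k : ℕ} (h : ∀ θ, PP K (L θ) c k) : PP K' L' c k := by
  intro a
  rw [LieSubmodule.eq_bot_iff]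
  intro x hx
  refine hi x fun θ => ?_
  have h1 : lieSpan K' L' {lev (cb c) a} ≤
      comapI (f θ) (hf θ) (hs θ) (lieSpan K (L θ) {lev (cb c) fun i => f θ (a i)}) := by
    rw [lieSpan_le, Set.singleton_subset_iff]
    change f θ _ ∈ lieSpan K (L θ) {lev (cb c) fun i => f θ (a i)}
    rw [ev_map (f θ) (hf θ)]
    exact subset_lieSpan rfl
  have h2 : f θ x ∈ derivedSeriesOfIdeal K (L θ) k _ := der_comap (f θ) (hf θ) (hs θ) h1 k hx
  rwa [h, mem_bot] at h2

theorem tensor_eq_zero {A L : Type*} [CommRing A] [Algebra ℚ A] [AddCommGroup L] [Module ℚ L]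
    (x : A ⊗[ℚ] L) (h : ∀ φ : Module.Dual ℚ L, TensorProduct.rid ℚ A (φ.lTensor A x) = 0) :
    x = 0 := by
  let b := Module.Free.chooseBasis ℚ L
  refine (b.baseChange A).ext_elem fun i => ?_
  rw [map_zero, Finsupp.zero_apply, ← h (b.coord i)]
  clear h
  induction x using TensorProduct.induction_on with
  | zero => simp
  | tmul a y => simp [Module.Basis.baseChange_repr_tmul]
  | add x y hx hy => simp only [map_add, Finsupp.add_apply, hx, hy]

theorem PP.base {L : Type*} [LieRing L] [LieAlgebra ℚ L] (C : Type*) [CommRing C] [Algebra ℚ C]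
    {c k : ℕ} (h : PP ℚ L c k) : PP C (C ⊗[ℚ] L) c k := by
  have h1 : PP (MvPolynomial C ℚ) (MvPolynomial C ℚ ⊗[ℚ] L) c k := by
    refine PP.sub (K := ℚ) (fun v : C → ℚ => ((TensorProduct.lid ℚ L).toLinearMap ∘ₗ
      (MvPolynomial.aeval v).toLinearMap.rTensor L).toAddMonoidHom) ?_ ?_ ?_ fun _ => h
    · intro v x y
      induction x using TensorProduct.induction_on with
      | zero => simp
      | add a b ha hb => rw [add_lie, map_add, map_add, ha, hb, add_lie]
      | tmul a x =>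
        induction y using TensorProduct.induction_on with
        | zero => simp
        | add a b ha hb => rw [lie_add, map_add, map_add, ha, hb, lie_add]
        | tmul b y => simp [smul_smul, mul_comm]
    · intro v r
      refine ⟨MvPolynomial.aeval v r, fun w => ?_⟩
      induction w using TensorProduct.induction_on with
      | zero => simp
      | add a b ha hb => rw [smul_add, map_add, map_add, ha, hb, smul_add]
      | tmul a x => simp [smul_tmul', smul_smul]
    · intro x hx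
      refine tensor_eq_zero x fun φ => MvPolynomial.funext fun v => ?_
      have h2 := congrArg φ (hx v)
      rw [map_zero] at h2 ⊢
      rw [← h2]
      clear hx h2
      induction x using TensorProduct.induction_on with
      | zero => simp
      | add a b ha hb => simp only [map_add, ha, hb]
      | tmul a x => simp [mul_comm, MvPolynomial.aeval_eq_eval]
  let g : MvPolynomial C ℚ ⊗[ℚ] L →ₗ⁅ℚ⁆ C ⊗[ℚ] L :=
    ExtendScalars.map (MvPolynomial.aeval (id : C → C)) (LieHom.id : L →ₗ⁅ℚ⁆ L)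
  have hg : ∀ a x, g (a ⊗ₜ x) = MvPolynomial.aeval (id : C → C) a ⊗ₜ x := fun _ _ => rfl
  refine PP.image (AddMonoidHom.mk' g (map_add g)) (fun x y => g.map_lie x y) ?_ ?_ h1
  · intro y
    induction y using TensorProduct.induction_on with
    | zero => exact ⟨0, map_zero _⟩
    | add a b ha hb =>
      obtain ⟨a, rfl⟩ := ha
      obtain ⟨b, rfl⟩ := hb
      exact ⟨a + b, map_add _ _ _⟩
    | tmul a x => exact ⟨MvPolynomial.X a ⊗ₜ x, by simp [hg]⟩
  · intro s
    refine ⟨MvPolynomial.X s, fun w => ?_⟩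
    induction w using TensorProduct.induction_on with
    | zero => simp
    | add a b ha hb => rw [smul_add, map_add, map_add, ha, hb, smul_add]
    | tmul a x => simp [smul_tmul', hg]

/-- Families with the pointwise bracket. -/
def Fam {Λ : Type*} (L : Λ → Type*) := ∀ i, L i

section fam
variable {Λ K : Type*} {L : Λ → Type*} [CommRing K] [∀ i, LieRing (L i)] [∀ i, LieAlgebra K (L i)]

instance : AddCommGroup (Fam L) := (inferInstance : AddCommGroup (∀ i, L i))

instance : Module K (Fam L) := (inferInstance : Module K (∀ i, L i))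

instance : LieRing (Fam L) where
  bracket x y := fun i => ⁅x i, y i⁆
  add_lie x y z := funext fun i => add_lie (x i) (y i) (z i)
  lie_add x y z := funext fun i => lie_add (x i) (y i) (z i)
  lie_self x := funext fun i => lie_self (x i)
  leibniz_lie x y z := funext fun i => leibniz_lie (x i) (y i) (z i)

instance : LieAlgebra K (Fam L) where
  lie_smul t x y := funext fun i => lie_smul t (x i) (y i)

/-- Evaluation of a family. -/
def Fam.at (i : Λ) : Fam L →+ L i where
  toFun x := x i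
  map_zero' := rfl
  map_add' _ _ := rfl

theorem Fam.lev_apply (t : T) (x : t.Lf → Fam L) (i : Λ) :
    lev (L := Fam L) t x i = lev t fun r => x r i :=
  ev_map (Fam.at i) (fun _ _ => rfl) t x

theorem PP.fam {c k : ℕ} (h : ∀ i, PP K (L i) c k) : PP K (Fam L) c k :=
  PP.sub (L' := Fam L) Fam.at (fun _ _ _ => rfl) (fun _ r => ⟨r, fun _ => rfl⟩)
    (fun _ h => funext h) h

end fam

end Pool.Agent.MP_2a197d_al

end MrgPart3

-- ======== part 4: formerly Pool.Agent.MP_2a197d_al.Nil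
section MrgPart4

/-! Associative nilpotency of nilpotent Lie sets of operators. -/

set_option linter.unusedSectionVars false

namespace Pool.Agent.MP_2a197d_al

open LieAlgebra T

variable {K L : Type*} [CommRing K] [LieRing L] [LieAlgebra K L]

/-- Action of a word. -/
def act (l : List L) (z : L) : L := l.foldr (fun x z => ⁅x, z⁆) z

theorem act_nil (z : L) : act [] z = z := rfl

theorem act_cons (x : L) (l : List L) (z : L) : act (x :: l) z = ⁅x, act l z⁆ := rfl

theorem act_append (l l' : List L) (z : L) : act (l ++ l') z = act l (act l' z) :=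
  List.foldr_append

theorem act_zero (l : List L) : act l (0 : L) = 0 := by
  induction l with
  | nil => rfl
  | cons x l ih => rw [act_cons, ih, lie_zero]

theorem act_replicate (w : L) (n : ℕ) (z : L) :
    act (List.replicate n w) z = (ad K L w ^ n) z := by
  induction n with
  | zero => rfl
  | succ n ih => rw [List.replicate_succ, act_cons, ih, pow_succ']; rfl

/-- `S` preserves `U`. -/
def Stab (S : Set L) (U : Submodule K L) : Prop := ∀ x ∈ S, ∀ z ∈ U, ⁅x, z⁆ ∈ U

/-- Words of length `m` in `S` map `U` into `U'`. -/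
def Kills (S : Set L) (m : ℕ) (U U' : Submodule K L) : Prop :=
  ∀ l : List L, (∀ x ∈ l, x ∈ S) → l.length = m → ∀ z ∈ U, act l z ∈ U'

theorem Stab.act_mem {S : Set L} {U : Submodule K L} (h : Stab S U) {l : List L}
    (hl : ∀ x ∈ l, x ∈ S) {z : L} (hz : z ∈ U) : act l z ∈ U := by
  induction l with
  | nil => exact hz
  | cons x l ih =>
    exact h x (hl x List.mem_cons_self) _ (ih fun y hy => hl y (List.mem_cons_of_mem _ hy))

theorem Stab.mono {S S' : Set L} {U : Submodule K L} (h : Stab S U) (h' : S' ⊆ S) : Stab S' U :=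
  fun x hx => h x (h' hx)

theorem Stab.pow_mem {S : Set L} {U : Submodule K L} (h : Stab S U) {x : L} (hx : x ∈ S) (n : ℕ)
    {z : L} (hz : z ∈ U) : (ad K L x ^ n) z ∈ U := by
  rw [← act_replicate]
  exact h.act_mem (fun y hy => List.eq_of_mem_replicate hy ▸ hx) hz

theorem Kills.span {S : Set L} {U : Submodule K L} : ∀ {m : ℕ} {U' : Submodule K L},
    Kills S m U U' → Kills (Submodule.span K S) m U U' := by
  intro m
  induction m with
  | zero =>
    intro U' h l _ hl z hz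
    obtain rfl := List.length_eq_zero_iff.1 hl
    exact h [] (by simp) rfl z hz
  | succ m ih =>
    intro U' h l hS hl z hz
    obtain ⟨x, l, rfl⟩ := List.exists_cons_of_length_eq_add_one hl
    have h1 : ∀ s ∈ S, ⁅s, act l z⁆ ∈ U' := fun s hs =>
      ih (U' := U'.comap (ad K L s)) (fun l' h1 h2 z hz => h (s :: l') (by
        intro y hy
        rcases List.mem_cons.1 hy with rfl | hy
        exacts [hs, h1 y hy]) (by simp [h2]) z hz) l
        (fun y hy => hS y (List.mem_cons_of_mem _ hy)) (by simpa using hl) z hz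
    have hx := hS x List.mem_cons_self
    rw [act_cons]
    refine Submodule.span_induction (p := fun x _ => ⁅x, act l z⁆ ∈ U') h1 (by simp) ?_ ?_ hx
    · intro a b _ _ ha hb; rw [add_lie]; exact U'.add_mem ha hb
    · intro r a _ ha; rw [smul_lie]; exact U'.smul_mem r ha

theorem act_perm {S : Set L} {U U' : Submodule K L} (hU : Stab S U) (hU' : Stab S U')
    (hc : ∀ x ∈ S, ∀ y ∈ S, ∀ z ∈ U, ⁅⁅x, y⁆, z⁆ ∈ U') {l l' : List L} (h : l.Perm l')
    (hl : ∀ x ∈ l, x ∈ S) {z : L} (hz : z ∈ U) : act l z - act l' z ∈ U' := by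
  induction h with
  | nil => simp
  | cons x _ ih =>
    rw [act_cons, act_cons, ← lie_sub]
    exact hU' x (hl x List.mem_cons_self) _ (ih fun y hy => hl y (List.mem_cons_of_mem _ hy))
  | swap x y l =>
    simp only [act_cons]
    rw [← lie_lie]
    exact hc y (hl y (by simp)) x (hl x (by simp)) _
      (hU.act_mem (fun w hw => hl w (by simp [hw])) hz)
  | trans h1 _ ih1 ih2 =>
    have := U'.add_mem (ih1 hl) (ih2 fun x hx => hl x (h1.symm.subset hx))
    simpa using this

/-- Right-nested commutators of weight `j + 1` in `D`. -/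
def LN (D : Set L) : ℕ → Set L
  | 0 => D
  | j + 1 => Set.image2 (fun d u => ⁅d, u⁆) D (LN D j)

theorem LN_tree {D : Set L} : ∀ {j : ℕ} {u : L}, u ∈ LN D j →
    ∃ x : (cb j).Lf → L, (∀ i, x i ∈ D) ∧ lev (cb j) x = u
  | 0, u, h => ⟨fun _ => u, fun _ => h, rfl⟩
  | j + 1, _, ⟨d, hd, u, hu, rfl⟩ => by
    obtain ⟨x, hx, rfl⟩ := LN_tree hu
    exact ⟨Sum.elim (fun _ => d) x, by rintro (i | i); exacts [hd, hx i], rfl⟩

/-- The lower central series of the subalgebra generated by `D`. -/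
def NN (K : Type*) [CommRing K] [LieAlgebra K L] (D : Set L) (j : ℕ) : Submodule K L :=
  Submodule.span K {u | ∃ i, j ≤ i ∧ u ∈ LN D i}

theorem LN_sub (D : Set L) (j : ℕ) : LN D j ⊆ NN K D j := fun _ hu =>
  Submodule.subset_span ⟨j, le_rfl, hu⟩

theorem NN_anti (D : Set L) {i j : ℕ} (h : i ≤ j) : NN K D j ≤ NN K D i :=
  Submodule.span_mono fun _ ⟨a, ha, hu⟩ => ⟨a, h.trans ha, hu⟩

theorem lie_NN_gen {D : Set L} {d y : L} (hd : d ∈ D) {b : ℕ} (hy : y ∈ NN K D b) :
    ⁅d, y⁆ ∈ NN K D (b + 1) := by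
  refine Submodule.span_induction (p := fun y _ => ⁅d, y⁆ ∈ NN K D (b + 1)) ?_ (by simp) ?_ ?_ hy
  · rintro u ⟨i, hi, hu⟩
    exact Submodule.subset_span ⟨i + 1, by omega, d, hd, u, hu, rfl⟩
  · intro a b _ _ ha hb; rw [lie_add]; exact Submodule.add_mem _ ha hb
  · intro r a _ ha; rw [lie_smul]; exact Submodule.smul_mem _ r ha

theorem lie_LN {D : Set L} : ∀ {i : ℕ} {u : L}, u ∈ LN D i → ∀ {b : ℕ} {y : L}, y ∈ NN K D b →
    ⁅u, y⁆ ∈ NN K D (i + b + 1)
  | 0, _, hu, _, _, hy => by rw [zero_add]; exact lie_NN_gen hu hy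
  | i + 1, _, ⟨d, hd, u, hu, rfl⟩, b, y, hy => by
    change ⁅⁅d, u⁆, y⁆ ∈ _
    rw [lie_lie]
    refine Submodule.sub_mem _ ?_ ?_
    · exact NN_anti D (by omega) (lie_NN_gen hd (lie_LN hu hy))
    · exact NN_anti D (by omega) (lie_LN hu (lie_NN_gen hd hy))

theorem lie_NN {D : Set L} {a b : ℕ} {x y : L} (hx : x ∈ NN K D a) (hy : y ∈ NN K D b) :
    ⁅x, y⁆ ∈ NN K D (a + b + 1) := by
  refine Submodule.span_induction (p := fun x _ => ⁅x, y⁆ ∈ NN K D (a + b + 1)) ?_ (by simp)
    ?_ ?_ hx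
  · rintro u ⟨i, hi, hu⟩
    exact NN_anti D (by omega) (lie_LN hu hy)
  · intro a b _ _ ha hb; rw [add_lie]; exact Submodule.add_mem _ ha hb
  · intro r a _ ha; rw [smul_lie]; exact Submodule.smul_mem _ r ha

/-- The upper annihilator chain. -/
def Zc (S : Set L) (V : Submodule K L) : ℕ → Submodule K L
  | 0 => ⊥
  | r + 1 => V ⊓ ⨅ y : S, (Zc S V r).comap (ad K L y)

theorem mem_Zc {S : Set L} {V : Submodule K L} {r : ℕ} {z : L} :
    z ∈ Zc S V (r + 1) ↔ z ∈ V ∧ ∀ y ∈ S, ⁅y, z⁆ ∈ Zc S V r := by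
  simp [Zc]

theorem Zc_le (S : Set L) (V : Submodule K L) : ∀ r, Zc S V r ≤ V
  | 0 => bot_le
  | _ + 1 => inf_le_left

theorem Zc_stab {S S' : Set L} {V : Submodule K L} (hV : Stab S' V)
    (h : ∀ x ∈ S', ∀ y ∈ S, ⁅x, y⁆ ∈ S) : ∀ r, Stab S' (Zc S V r)
  | 0 => fun x _ z hz => by rw [(Submodule.mem_bot K).1 hz, lie_zero]; exact Submodule.zero_mem _
  | r + 1 => fun x hx z hz => by
    rw [mem_Zc] at hz ⊢
    refine ⟨hV x hx z hz.1, fun y hy => ?_⟩
    have : ⁅y, ⁅x, z⁆⁆ = ⁅x, ⁅y, z⁆⁆ - ⁅⁅x, y⁆, z⁆ := by rw [lie_lie]; abel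
    rw [this]
    exact Submodule.sub_mem _ (Zc_stab hV h r x hx _ (hz.2 y hy)) (hz.2 _ (h x hx y hy))

theorem mem_Zc_of {S : Set L} {V : Submodule K L} (hV : Stab S V) : ∀ (r : ℕ) {z : L}, z ∈ V →
    (∀ l : List L, (∀ x ∈ l, x ∈ S) → l.length = r → act l z = 0) → z ∈ Zc S V r
  | 0, _, _, h => (Submodule.mem_bot K).2 (h [] (by simp) rfl)
  | r + 1, z, hz, h => mem_Zc.2 ⟨hz, fun y hy => mem_Zc_of hV r (hV y hy z hz) fun l h1 h2 => by
      have := h (l ++ [y]) (by
        intro x hx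
        rcases List.mem_append.1 hx with hx | hx
        exacts [h1 x hx, List.mem_singleton.1 hx ▸ hy]) (by simp [h2])
      rwa [act_append] at this⟩

theorem fn (D : Set L) (c m : ℕ) (V : Submodule K L) (hV : Stab (NN K D 0 : Set L) V)
    (hc : NN K D c = ⊥)
    (h : ∀ j < c, ∀ U U' : Submodule K L, U ≤ V → Stab (NN K D 0 : Set L) U →
      Stab (NN K D 0 : Set L) U' → (∀ x ∈ NN K D (j + 1), ∀ z ∈ U, ⁅x, z⁆ ∈ U') →
      Kills (LN D j) m U U') :
    Kills (NN K D 0 : Set L) (m ^ c) V ⊥ := by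
  suffices ∀ e j, j + e = c → Kills (NN K D j : Set L) (m ^ e) V ⊥ from this c 0 (zero_add c)
  intro e
  induction e with
  | zero =>
    rintro j rfl l hl h1 z _
    obtain ⟨x, rfl⟩ := List.length_eq_one_iff.1 h1
    have : x ∈ NN K D (j + 0) := hl x (by simp)
    rw [hc, Submodule.mem_bot] at this
    simp [act, this]
  | succ e ih =>
    intro j hj
    have h1 := ih (j + 1) (by omega)
    have hS : (NN K D (j + 1) : Set L) ⊆ NN K D 0 := NN_anti D (by omega)
    have hst := Zc_stab (S := (NN K D (j + 1) : Set L)) hV fun x hx y hy =>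
      NN_anti D (by omega) (lie_NN hx hy)
    have h2 : ∀ r, Kills (NN K D j : Set L) m (Zc (NN K D (j + 1) : Set L) V (r + 1))
        (Zc (NN K D (j + 1) : Set L) V r) := by
      intro r
      have h3 := h j (by omega) _ _ (Zc_le _ _ _) (hst (r + 1)) (hst r)
        fun x hx z hz => (mem_Zc.1 hz).2 x hx
      have h4 : Kills (LN D j ∪ NN K D (j + 1)) m (Zc (NN K D (j + 1) : Set L) V (r + 1))
          (Zc (NN K D (j + 1) : Set L) V r) := by
        intro l hl hm z hz
        have hl0 : ∀ x ∈ l, x ∈ (NN K D 0 : Set L) := fun x hx => (hl x hx).elim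
          (fun h => NN_anti D (by omega) (LN_sub D j h)) fun h => hS h
        by_cases h5 : ∀ x ∈ l, x ∈ LN D j
        · exact h3 l h5 hm z hz
        push Not at h5
        obtain ⟨y, hy, hy'⟩ := h5
        obtain ⟨l1, l2, rfl⟩ := List.append_of_mem hy
        rw [act_append, act_cons]
        exact (hst r).act_mem (fun x hx => hl0 x (by simp [hx]))
          ((mem_Zc.1 ((hst (r + 1)).act_mem (fun x hx => hl0 x (by simp [hx])) hz)).2 y
            ((hl y hy).resolve_left hy'))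
      intro l hl
      refine h4.span l fun x hx => ?_
      refine (Submodule.span_le (p := Submodule.span K (LN D j ∪ NN K D (j + 1)))).2 ?_ (hl x hx)
      rintro u ⟨i, hi, hu⟩
      refine Submodule.subset_span ?_
      rcases hi.eq_or_lt with rfl | hi
      · exact Or.inl hu
      · exact Or.inr (NN_anti D hi (LN_sub D i hu))
    have h3 : ∀ r, Kills (NN K D j : Set L) (r * m) (Zc (NN K D (j + 1) : Set L) V r) ⊥ := by
      intro r
      induction r with
      | zero =>
        intro l _ _ z hz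
        rw [(Submodule.mem_bot K).1 hz, act_zero]; exact Submodule.zero_mem _
      | succ r ih =>
        intro l hl hm z hz
        rw [← List.take_append_drop (r * m) l, act_append]
        have : (r + 1) * m = r * m + m := by ring
        exact ih _ (fun x hx => hl x (List.mem_of_mem_take hx)) (by simp; omega) _
          (h2 r _ (fun x hx => hl x (List.mem_of_mem_drop hx)) (by simp; omega) z hz)
    intro l hl hm z hz
    exact h3 (m ^ e) l hl (by rw [hm, pow_succ]) z (mem_Zc_of (hV.mono hS) _ hz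
      fun l h4 h5 => (Submodule.mem_bot K).1 (h1 l h4 h5 z hz))

theorem ks [Algebra ℚ K] {S : Set L} {U U' : Submodule K L} (hU : Stab S U) (hU' : Stab S U')
    {s y : L} (hs : s ∈ S) (hy : y ∈ S) (hw : ⁅s, y⁆ ∈ S)
    (h1 : ∀ z ∈ U, ⁅⁅s, ⁅s, y⁆⁆, z⁆ ∈ U') (h2 : ∀ z ∈ U, ⁅⁅y, ⁅s, y⁆⁆, z⁆ ∈ U') (n : ℕ)
    (hn : ∀ z ∈ U, (ad K L s ^ n) z ∈ U') : ∀ z ∈ U, (ad K L ⁅s, y⁆ ^ n) z ∈ U' := by
  set w := ⁅s, y⁆ with hwd
  have hA : ∀ k, ∀ z ∈ U, (ad K L s ^ (k + 1)) ⁅y, z⁆ - ⁅y, (ad K L s ^ (k + 1)) z⁆ -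
      (k + 1) • (ad K L s ^ k) ⁅w, z⁆ ∈ U' := by
    intro k
    induction k with
    | zero => intro z _; simp [hwd]
    | succ k ih =>
      intro z hz
      have e1 : ⁅s, ⁅y, z⁆⁆ = ⁅y, ⁅s, z⁆⁆ + ⁅w, z⁆ := by rw [hwd, lie_lie]; abel
      have e2 : ⁅s, ⁅w, z⁆⁆ = ⁅w, ⁅s, z⁆⁆ + ⁅⁅s, w⁆, z⁆ := by rw [lie_lie s w]; abel
      have h3 := U'.sub_mem (ih _ (hU s hs z hz))
        (U'.smul_of_tower_mem (k + 1) (hU'.pow_mem hs k (h1 z hz)))
      convert h3 using 1
      have e3 : ∀ j u, (ad K L s ^ (j + 1)) u = (ad K L s ^ j) ⁅s, u⁆ := fun j u => by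
        rw [pow_succ]; rfl
      rw [e3 (k + 1) ⁅y, z⁆, e1, map_add, e3 (k + 1) z, e3 k ⁅w, z⁆, e2, map_add]
      simp only [add_smul, one_smul, smul_add]
      abel
  have hB : ∀ e, ∀ z ∈ U, ⁅y, (ad K L w ^ e) z⁆ - (ad K L w ^ e) ⁅y, z⁆ ∈ U' := by
    intro e
    induction e with
    | zero => intro z _; simp
    | succ e ih =>
      intro z hz
      have h3 := U'.add_mem (hU' w hw _ (ih z hz)) (h2 _ (hU.pow_mem hw e hz))
      convert h3 using 1
      simp only [pow_succ', Module.End.mul_apply, ad_apply, lie_sub, lie_lie y w]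
      abel
  have hC : ∀ e k, k + e = n → ∀ z ∈ U, (ad K L s ^ k) ((ad K L w ^ e) z) ∈ U' := by
    intro e
    induction e with
    | zero => intro k hk z hz; exact hn z hz |> (by simpa [← hk] using ·)
    | succ e ih =>
      intro k hk z hz
      have h3 := ih (k + 1) (by omega)
      have h4 := U'.sub_mem (U'.sub_mem (U'.add_mem (h3 _ (hU y hy z hz))
        (hU'.pow_mem hs (k + 1) (hB e z hz))) (hU' y hy _ (h3 z hz)))
        (hA k _ (hU.pow_mem hw e hz))
      have h5 : (k + 1) • (ad K L s ^ k) ((ad K L w ^ (e + 1)) z) ∈ U' := by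
        convert h4 using 1
        simp only [pow_succ' (ad K L w), Module.End.mul_apply, ad_apply, map_sub]
        abel
      have h6 := U'.smul_mem (algebraMap ℚ K ((k + 1 : ℕ) : ℚ)⁻¹) h5
      rwa [← Nat.cast_smul_eq_nsmul K, smul_smul, ← map_natCast (algebraMap ℚ K), ← map_mul,
        inv_mul_cancel₀ (by positivity), map_one, one_smul] at h6
  intro z hz
  simpa using hC n 0 (zero_add n) z hz

open Classical in
/-- Finite version of `LN`. -/
noncomputable def LNf (D : Finset L) : ℕ → Finset L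
  | 0 => D
  | j + 1 => Finset.image₂ (fun d u => ⁅d, u⁆) D (LNf D j)

theorem coe_LNf (D : Finset L) : ∀ j, (LNf D j : Set L) = LN D j
  | 0 => rfl
  | j + 1 => by classical rw [LNf, Finset.coe_image₂, coe_LNf D j]; rfl

theorem card_LNf (D : Finset L) : ∀ j, (LNf D j).card ≤ D.card ^ (j + 1)
  | 0 => by simp [LNf]
  | j + 1 => by
    classical
    rw [LNf, pow_succ']
    exact (Finset.card_image₂_le _ _ _).trans (Nat.mul_le_mul_left _ (card_LNf D j))

theorem gl [Algebra ℚ K] (D : Finset L) (R n c : ℕ) (hR : D.card ≤ R) (V : Submodule K L)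
    (hV : Stab (NN K (D : Set L) 0 : Set L) V) (hc : NN K (D : Set L) c = ⊥)
    (hn : ∀ s ∈ D, ∀ z ∈ V, (ad K L s ^ n) z = 0) :
    Kills (NN K (D : Set L) 0 : Set L) (((R + 1) ^ c * n + 1) ^ c) V ⊥ := by
  classical
  refine fn _ c _ V hV hc fun j hj U U' hUV hU hU' h l hl hm z hz => ?_
  have hS : LN (D : Set L) j ⊆ NN K (D : Set L) 0 := fun x hx => NN_anti _ (by omega) (LN_sub _ j hx)
  obtain ⟨w, hw, hwn⟩ : ∃ w ∈ LNf D j, n ≤ l.count w := by
    by_contra hne
    push Not at hne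
    have h1 := Multiset.sum_count_eq_card (m := (l : Multiset L)) (s := LNf D j) fun a ha => by
      rw [← Finset.mem_coe, coe_LNf]; exact hl a ha
    have h2 : ∑ a ∈ LNf D j, Multiset.count a (l : Multiset L) ≤ (LNf D j).card • n :=
      Finset.sum_le_card_nsmul _ _ _ fun a ha => by simpa using (hne a ha).le
    have h3 : (LNf D j).card ≤ (R + 1) ^ c := (card_LNf D j).trans
      ((Nat.pow_le_pow_left (by omega) _).trans (Nat.pow_le_pow_right (by omega) hj))
    rw [h1, Multiset.coe_card, hm, smul_eq_mul] at h2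
    have := Nat.mul_le_mul_right n h3
    omega
  rw [← Finset.mem_coe, coe_LNf] at hw
  obtain ⟨l', hl'⟩ := (List.replicate_sublist_iff.2 hwn).exists_perm_append
  have hp := hl'.trans List.perm_append_comm
  have h1 := act_perm (hU.mono hS) (hU'.mono hS) (fun x hx y hy z hz =>
    h _ (NN_anti _ (by omega) (lie_NN (LN_sub _ j hx) (LN_sub _ j hy))) z hz) hp hl hz
  have h2 : (ad K L w ^ n) z ∈ U' := by
    rcases j with _ | j
    · rw [hn w hw z (hUV hz)]; exact U'.zero_mem
    · obtain ⟨s, hs, y, hy, rfl⟩ := hw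
      have hs' : s ∈ NN K (D : Set L) 0 := LN_sub _ 0 hs
      have hy' : y ∈ NN K (D : Set L) 0 := NN_anti _ (by omega) (LN_sub _ j hy)
      have hw' : ⁅s, y⁆ ∈ NN K (D : Set L) (j + 1) := LN_sub _ (j + 1) ⟨s, hs, y, hy, rfl⟩
      exact ks hU hU' hs' hy' (NN_anti _ (by omega) hw')
        (fun z hz => h _ (NN_anti _ (by omega) (lie_NN hs' hw')) z hz)
        (fun z hz => h _ (NN_anti _ (by omega) (lie_NN hy' hw')) z hz) n
        (fun z hz => by rw [hn s hs z (hUV hz)]; exact U'.zero_mem) z hz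
  have h3 : act (l' ++ List.replicate n w) z ∈ U' := by
    rw [act_append, act_replicate (K := K)]
    exact hU'.act_mem (fun x hx => hS (hl x (hp.symm.subset (by simp [hx])))) h2
  simpa using U'.add_mem h1 h3

/-- A `Z/2`-graded pair of subspaces with nilpotent even part. -/
structure Gr (K L : Type*) [CommRing K] [LieRing L] [LieAlgebra K L] (c : ℕ) where
  L0 : Submodule K L
  L1 : Submodule K L
  G : ℕ → Submodule K L
  h00 : ∀ x ∈ L0, ∀ y ∈ L0, ⁅x, y⁆ ∈ L0
  h01 : ∀ x ∈ L0, ∀ y ∈ L1, ⁅x, y⁆ ∈ L1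
  h11 : ∀ x ∈ L1, ∀ y ∈ L1, ⁅x, y⁆ ∈ L0
  hG0 : L0 ≤ G 0
  hG : ∀ i, ∀ x ∈ L0, ∀ y ∈ G i, ⁅x, y⁆ ∈ G (i + 1)
  hGc : G c = ⊥

namespace Gr
variable {c : ℕ} (Γ : Gr K L c)

theorem stab : Stab (Γ.L0 : Set L) (Γ.L0 ⊔ Γ.L1) := by
  intro x hx z hz
  obtain ⟨a, ha, b, hb, rfl⟩ := Submodule.mem_sup.1 hz
  rw [lie_add]
  exact Submodule.add_mem_sup (Γ.h00 x hx a ha) (Γ.h01 x hx b hb)

theorem pow_zero0 {g z : L} (hg : g ∈ Γ.L0) (hz : z ∈ Γ.L0) {e : ℕ} (he : c ≤ e) :
    (ad K L g ^ e) z = 0 := by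
  have : ∀ i, (ad K L g ^ i) z ∈ Γ.G i := by
    intro i
    induction i with
    | zero => exact Γ.hG0 hz
    | succ i ih => rw [pow_succ']; exact Γ.hG i g hg _ ih
  obtain ⟨d, rfl⟩ := Nat.exists_eq_add_of_le he
  have h := this c
  rw [Γ.hGc, Submodule.mem_bot] at h
  rw [add_comm, pow_add, Module.End.mul_apply, h, map_zero]

theorem LN_mem {D : Set L} (hD : D ⊆ Γ.L0) : ∀ i, LN D i ⊆ (Γ.L0 ⊓ Γ.G i : Submodule K L)
  | 0 => fun _ h => ⟨hD h, Γ.hG0 (hD h)⟩
  | i + 1 => by
    rintro _ ⟨d, hd, u, hu, rfl⟩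
    exact ⟨Γ.h00 d (hD hd) u (LN_mem hD i hu).1, Γ.hG i d (hD hd) u (LN_mem hD i hu).2⟩

theorem NN_le {D : Set L} (hD : D ⊆ Γ.L0) : NN K D 0 ≤ Γ.L0 :=
  Submodule.span_le.2 fun _ ⟨i, _, hu⟩ => (Γ.LN_mem hD i hu).1

theorem NN_bot {D : Set L} (hD : D ⊆ Γ.L0) : NN K D c = ⊥ := by
  rw [NN, Submodule.span_eq_bot]
  rintro u ⟨i, hi, hu⟩
  induction i, hi using Nat.le_induction generalizing u with
  | base => have := (Γ.LN_mem hD c hu).2; rwa [Γ.hGc] at this
  | succ i _ ih =>
    obtain ⟨d, _, u, hu, rfl⟩ := hu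
    simp [ih u hu]

theorem lift {a b z : L} (ha : a ∈ Γ.L1) (hb : b ∈ Γ.L1) (hz : z ∈ Γ.L1) (I : LieIdeal K L)
    (r : ℕ) (h : ∀ i, r ≤ i → ⁅(ad K L ⁅a, b⁆ ^ i) a, z⁆ ∈ I ∧ ⁅(ad K L ⁅a, b⁆ ^ i) b, z⁆ ∈ I) :
    (ad K L ⁅a, b⁆ ^ (r + c + 1)) z ∈ I := by
  have hg := Γ.h11 a ha b hb
  set g := ⁅a, b⁆ with hgd
  have h1 : Stab {g} Γ.L1 := fun x hx => (Set.mem_singleton_iff.1 hx) ▸ Γ.h01 g hg
  have hI : Stab {g} I.toSubmodule := fun x _ _ hz => I.lie_mem hz
  have key : ∀ u ∈ Γ.L1, (∀ i, r ≤ i → ⁅(ad K L g ^ i) u, z⁆ ∈ I) → ∀ j e i, r + c ≤ i + e + j →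
      (ad K L g ^ e) ⁅(ad K L g ^ i) u, (ad K L g ^ j) z⁆ ∈ I := by
    intro u hu h j
    induction j with
    | zero =>
      intro e i hi
      by_cases hr : r ≤ i
      · exact hI.pow_mem rfl e (h i hr)
      · rw [Γ.pow_zero0 hg (Γ.h11 _ (h1.pow_mem rfl i hu) _ (h1.pow_mem rfl 0 hz)) (by omega)]
        exact I.zero_mem
    | succ j ih =>
      intro e i hi
      have h2 := sub_mem (ih (e + 1) i (by omega)) (ih e (i + 1) (by omega))
      convert h2 using 1
      rw [pow_succ (ad K L g) e, pow_succ' (ad K L g) i, pow_succ' (ad K L g) j]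
      simp only [Module.End.mul_apply, ad_apply, leibniz_lie g, map_add]
      abel
  rw [pow_succ', Module.End.mul_apply, ad_apply]
  have e1 : ∀ w : L, ⁅g, w⁆ = ⁅a, ⁅b, w⁆⁆ - ⁅b, ⁅a, w⁆⁆ := fun w => lie_lie a b w
  rw [e1]
  exact I.sub_mem (I.lie_mem (key b hb (fun i hi => (h i hi).2) (r + c) 0 0 (by omega)))
    (I.lie_mem (key a ha (fun i hi => (h i hi).1) (r + c) 0 0 (by omega)))

end Gr

theorem lev_cb_pow (g a : L) : ∀ c : ℕ, ∃ x : (cb c).Lf → L, lev (cb c) x = (ad K L g ^ c) a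
  | 0 => ⟨fun _ => a, rfl⟩
  | c + 1 => by
    obtain ⟨x, hx⟩ := lev_cb_pow g a c
    exact ⟨Sum.elim (fun _ => g) x, by rw [pow_succ', Module.End.mul_apply, ← hx]; rfl⟩

/-- The nilpotency index of a commutator of two odd elements. -/
def rr (c : ℕ) : ℕ → ℕ
  | 0 => c
  | i + 1 => rr c i + c + 1 + rr c i

theorem e1 {c k : ℕ} (Γ : Gr K L c) (hP : PP K L c k) {a b : L} (ha : a ∈ Γ.L1) (hb : b ∈ Γ.L1) :
    ∀ z ∈ Γ.L0 ⊔ Γ.L1, (ad K L ⁅a, b⁆ ^ (rr c (k + k) + c + 1)) z = 0 := by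
  have hg := Γ.h11 a ha b hb
  have h1 : Stab {⁅a, b⁆} Γ.L1 := fun x hx => (Set.mem_singleton_iff.1 hx) ▸ Γ.h01 _ hg
  obtain ⟨x, hx⟩ := lev_cb_pow (K := K) ⁅a, b⁆ a c
  obtain ⟨y, hy⟩ := lev_cb_pow (K := K) ⁅a, b⁆ b c
  let I := LieSubmodule.lieSpan K L {lev (cb c) x} + LieSubmodule.lieSpan K L {lev (cb c) y}
  have hI : derivedSeriesOfIdeal K L (k + k) I = ⊥ := by
    have := LieAlgebra.derivedSeriesOfIdeal_add_le_add (LieSubmodule.lieSpan K L {lev (cb c) x})
      (LieSubmodule.lieSpan K L {lev (cb c) y}) k k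
    rw [hP, hP] at this
    simpa [I] using this
  have up : ∀ (J : LieIdeal K L) u r i, r ≤ i → (ad K L ⁅a, b⁆ ^ r) u ∈ J →
      (ad K L ⁅a, b⁆ ^ i) u ∈ J := by
    intro J u r i hi h
    obtain ⟨d, rfl⟩ := Nat.exists_eq_add_of_le hi
    rw [add_comm, pow_add]
    exact Stab.pow_mem (S := {⁅a, b⁆}) (U := J.toSubmodule) (fun x _ _ hz => J.lie_mem hz) rfl d h
  have key : ∀ i, (ad K L ⁅a, b⁆ ^ rr c i) a ∈ derivedSeriesOfIdeal K L i I ∧
      (ad K L ⁅a, b⁆ ^ rr c i) b ∈ derivedSeriesOfIdeal K L i I := by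
    intro i
    induction i with
    | zero =>
      exact ⟨LieSubmodule.mem_sup_left (LieSubmodule.subset_lieSpan hx.symm),
        LieSubmodule.mem_sup_right (LieSubmodule.subset_lieSpan hy.symm)⟩
    | succ i ih =>
      rw [rr, pow_add, derivedSeriesOfIdeal_succ]
      exact ⟨Γ.lift ha hb (h1.pow_mem rfl _ ha) _ _ fun j hj =>
          ⟨LieSubmodule.lie_mem_lie (up _ _ _ _ hj ih.1) ih.1,
            LieSubmodule.lie_mem_lie (up _ _ _ _ hj ih.2) ih.1⟩,
        Γ.lift ha hb (h1.pow_mem rfl _ hb) _ _ fun j hj =>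
          ⟨LieSubmodule.lie_mem_lie (up _ _ _ _ hj ih.1) ih.2,
            LieSubmodule.lie_mem_lie (up _ _ _ _ hj ih.2) ih.2⟩⟩
  have h2 := key (k + k)
  rw [hI] at h2
  intro z hz
  obtain ⟨u, hu, v, hv, rfl⟩ := Submodule.mem_sup.1 hz
  rw [map_add, Γ.pow_zero0 hg hu (by omega), zero_add]
  exact (LieSubmodule.mem_bot _).1 (Γ.lift ha hb hv ⊥ _ fun j hj =>
    ⟨lie_mem_left K L ⊥ _ _ (up _ _ _ _ hj h2.1), lie_mem_left K L ⊥ _ _ (up _ _ _ _ hj h2.2)⟩)

end Pool.Agent.MP_2a197d_al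

end MrgPart4

-- ======== part 5: formerly Pool.Agent.MP_2a197d_al.Env
section MrgPart5

/-! Grassmann envelopes. -/

set_option linter.unusedSectionVars false

namespace Pool.Agent.MP_2a197d_al

open TensorProduct LieAlgebra T

variable {L : Type*} [LieRing L] [LieAlgebra ℚ L]

/-- The naive bracket on `BB ⊗ L`. -/
noncomputable def br : BB ⊗[ℚ] L →ₗ[ℚ] BB ⊗[ℚ] L →ₗ[ℚ] BB ⊗[ℚ] L :=
  TensorProduct.map₂ (LinearMap.mul ℚ BB)
    (LinearMap.mk₂ ℚ (fun x y : L => ⁅x, y⁆) add_lie smul_lie lie_add lie_smul)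

theorem br_tmul (a b : BB) (x y : L) : br (a ⊗ₜ x) (b ⊗ₜ y) = (a * b) ⊗ₜ[ℚ] ⁅x, y⁆ := rfl

/-- The embedding of the envelope. -/
noncomputable def jj : CC ⊗[ℚ] L →ₗ[ℚ] BB ⊗[ℚ] L := val.toLinearMap.rTensor L

theorem jj_tmul (c : CC) (x : L) : jj (c ⊗ₜ x) = val c ⊗ₜ[ℚ] x := rfl

theorem jj_inj : Function.Injective (jj (L := L)) :=
  Module.Flat.rTensor_preserves_injective_linearMap _ val_inj

theorem jj_lie (x y : CC ⊗[ℚ] L) : jj ⁅x, y⁆ = br (jj x) (jj y) := by
  induction x using TensorProduct.induction_on with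
  | zero => simp
  | add a b ha hb => rw [add_lie, map_add, map_add, ha, hb, map_add, LinearMap.add_apply]
  | tmul a x =>
    induction y using TensorProduct.induction_on with
    | zero => simp
    | add a b ha hb => rw [lie_add, map_add, map_add, ha, hb, map_add]
    | tmul b y => rw [ExtendScalars.bracket_tmul, jj_tmul, jj_tmul, jj_tmul, br_tmul, map_mul]

theorem jj_smul (c : CC) (x : CC ⊗[ℚ] L) : jj (c • x) = val c • jj x := by
  induction x using TensorProduct.induction_on with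
  | zero => simp
  | add a b ha hb => rw [smul_add, map_add, map_add, ha, hb, smul_add]
  | tmul a x => rw [smul_tmul', jj_tmul, jj_tmul, smul_tmul', smul_eq_mul, smul_eq_mul, map_mul]

/-- Elements of parity `p` with coefficients in the first factor. -/
def OO (p : ℤˣ) (W : Submodule ℚ L) : Submodule ℚ (BB ⊗[ℚ] L) :=
  Submodule.span ℚ {s | ∃ e ∈ Ep p, ∃ x ∈ W, s = (e ⊗ₜ[ℚ] (1 : E)) ⊗ₜ[ℚ] x}

/-- Elements with arbitrary coefficients. -/
def BW (W : Submodule ℚ L) : Submodule ℚ (BB ⊗[ℚ] L) :=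
  Submodule.span ℚ {s | ∃ b : BB, ∃ x ∈ W, s = b ⊗ₜ[ℚ] x}

theorem OO_le (p : ℤˣ) (W : Submodule ℚ L) : OO p W ≤ BW W :=
  Submodule.span_mono fun _ ⟨_, _, x, hx, h⟩ => ⟨_, x, hx, h⟩

theorem br_span {S S' : Set (BB ⊗[ℚ] L)} {U : Submodule ℚ (BB ⊗[ℚ] L)}
    (h : ∀ s ∈ S, ∀ t ∈ S', br s t ∈ U) {s t : BB ⊗[ℚ] L} (hs : s ∈ Submodule.span ℚ S)
    (ht : t ∈ Submodule.span ℚ S') : br s t ∈ U :=
  (Submodule.map₂_span_span ℚ br S S' ▸ Submodule.span_le.2 (by
    rintro _ ⟨a, ha, b, hb, rfl⟩; exact h a ha b hb) : Submodule.map₂ br _ _ ≤ U)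
    (Submodule.apply_mem_map₂ br hs ht)

theorem br_OO {p q : ℤˣ} {W W' W'' : Submodule ℚ L} (h : ∀ x ∈ W, ∀ y ∈ W', ⁅x, y⁆ ∈ W'')
    {s t : BB ⊗[ℚ] L} (hs : s ∈ OO p W) (ht : t ∈ OO q W') : br s t ∈ OO (p * q) W'' := by
  refine br_span ?_ hs ht
  rintro _ ⟨e, he, x, hx, rfl⟩ _ ⟨f, hf, y, hy, rfl⟩
  refine Submodule.subset_span ⟨e * f, mul_mem_Ep he hf, _, h x hx y hy, ?_⟩
  rw [br_tmul, Algebra.TensorProduct.tmul_mul_tmul, one_mul]

theorem br_BW {W W' W'' : Submodule ℚ L} (h : ∀ x ∈ W, ∀ y ∈ W', ⁅x, y⁆ ∈ W'')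
    {s t : BB ⊗[ℚ] L} (hs : s ∈ BW W) (ht : t ∈ BW W') : br s t ∈ BW W'' := by
  refine br_span ?_ hs ht
  rintro _ ⟨e, x, hx, rfl⟩ _ ⟨f, y, hy, rfl⟩
  exact Submodule.subset_span ⟨e * f, _, h x hx y hy, rfl⟩

theorem br_smul_left (b : BB) (s t : BB ⊗[ℚ] L) : br (b • s) t = b • br s t := by
  induction s using TensorProduct.induction_on with
  | zero => simp
  | add a b ha hb => simp only [smul_add, map_add, LinearMap.add_apply, ha, hb]
  | tmul a x =>
    induction t using TensorProduct.induction_on with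
    | zero => simp
    | add a b ha hb => simp only [smul_add, map_add, ha, hb]
    | tmul c y => simp only [smul_tmul', br_tmul, smul_eq_mul, mul_assoc]

theorem OO_ind {p : ℤˣ} {W : Submodule ℚ L} {M : Type*} [AddCommGroup M] [Module ℚ M]
    (f g : BB ⊗[ℚ] L →ₗ[ℚ] M) (h : ∀ e ∈ Ep p, ∀ x, f ((e ⊗ₜ[ℚ] (1 : E)) ⊗ₜ[ℚ] x) =
      g ((e ⊗ₜ[ℚ] (1 : E)) ⊗ₜ[ℚ] x)) {s : BB ⊗[ℚ] L} (hs : s ∈ OO p W) : f s = g s :=
  LinearMap.eqOn_span (by rintro _ ⟨e, he, x, -, rfl⟩; exact h e he x) hs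

theorem br_smul_right {p : ℤˣ} {W : Submodule ℚ L} {s : BB ⊗[ℚ] L} (hs : s ∈ OO p W) (ξ : E)
    (t : BB ⊗[ℚ] L) : br s (((1 : E) ⊗ₜ[ℚ] ξ) • t) = ((1 : E) ⊗ₜ[ℚ] ξ) • br s t := by
  refine Submodule.span_induction (p := fun s _ => br s (((1 : E) ⊗ₜ[ℚ] ξ) • t) =
    ((1 : E) ⊗ₜ[ℚ] ξ) • br s t) ?_ (by simp) ?_ ?_ hs
  · rintro _ ⟨e, -, x, -, rfl⟩
    induction t using TensorProduct.induction_on with
    | zero => simp
    | add a b ha hb => simp only [smul_add, map_add, ha, hb]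
    | tmul c y =>
      simp only [smul_tmul', br_tmul, smul_eq_mul, ← mul_assoc,
        Algebra.TensorProduct.tmul_mul_tmul, one_mul, mul_one]
  · intro a b _ _ ha hb; simp only [map_add, LinearMap.add_apply, ha, hb, smul_add]
  · intro r a _ ha; simp only [map_smul, LinearMap.smul_apply, ha]; rw [smul_comm]

theorem even_central {e : E} (he : e ∈ Ep 1) (b : BB) :
    (e ⊗ₜ[ℚ] (1 : E)) * b = b * (e ⊗ₜ[ℚ] (1 : E)) := by
  induction b using TensorProduct.induction_on with
  | zero => simp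
  | add a b ha hb => rw [mul_add, add_mul, ha, hb]
  | tmul a b => simp [even_comm he]

theorem anti_even {W : Submodule ℚ L} {s : BB ⊗[ℚ] L} (hs : s ∈ OO 1 W) (t : BB ⊗[ℚ] L) :
    br s t = -br t s := by
  refine OO_ind (br.flip t) (-br t) (fun e he x => ?_) hs
  induction t using TensorProduct.induction_on with
  | zero => simp
  | add a b ha hb =>
    simp only [LinearMap.flip_apply, map_add, LinearMap.neg_apply, LinearMap.add_apply] at *
    rw [ha, hb, neg_add]
  | tmul c y =>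
    simp only [LinearMap.flip_apply, LinearMap.neg_apply, br_tmul]
    rw [even_central he, ← tmul_neg, lie_skew]

theorem leib_even {W : Submodule ℚ L} {s : BB ⊗[ℚ] L} (hs : s ∈ OO 1 W) (t w : BB ⊗[ℚ] L) :
    br s (br t w) = br (br s t) w + br t (br s w) := by
  refine OO_ind (br.flip (br t w)) (br.flip w ∘ₗ br.flip t + br t ∘ₗ br.flip w)
    (fun e he x => ?_) hs
  simp only [LinearMap.flip_apply, LinearMap.add_apply, LinearMap.comp_apply]
  induction t using TensorProduct.induction_on with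
  | zero => simp
  | add a b ha hb => simp only [map_add, LinearMap.add_apply, ha, hb]; abel
  | tmul c y =>
    induction w using TensorProduct.induction_on with
    | zero => simp
    | add a b ha hb => simp only [map_add, ha, hb]; abel
    | tmul d z =>
      simp only [br_tmul]
      rw [← mul_assoc c, ← even_central he c, mul_assoc, leibniz_lie x, tmul_add]

theorem comm_odd {W W' : Submodule ℚ L} {s t : BB ⊗[ℚ] L} (hs : s ∈ OO (-1) W)
    (ht : t ∈ OO (-1) W') : br s t = br t s := by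
  refine OO_ind (br.flip t) (br t) (fun e he x => ?_) hs
  refine OO_ind (br ((e ⊗ₜ[ℚ] (1 : E)) ⊗ₜ[ℚ] x)) (br.flip ((e ⊗ₜ[ℚ] (1 : E)) ⊗ₜ[ℚ] x))
    (fun f hf y => ?_) ht
  simp only [LinearMap.flip_apply, br_tmul, Algebra.TensorProduct.tmul_mul_tmul]
  rw [odd_anti he hf, neg_tmul, neg_tmul, ← tmul_neg, lie_skew]

theorem leib_odd {W W' : Submodule ℚ L} {s t : BB ⊗[ℚ] L} (hs : s ∈ OO (-1) W)
    (ht : t ∈ OO (-1) W') (w : BB ⊗[ℚ] L) : br s (br t w) = br (br s t) w - br t (br s w) := by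
  refine OO_ind (br.flip (br t w)) (br.flip w ∘ₗ br.flip t - br t ∘ₗ br.flip w)
    (fun e he x => ?_) hs
  simp only [LinearMap.flip_apply, LinearMap.sub_apply, LinearMap.comp_apply]
  refine OO_ind (br ((e ⊗ₜ[ℚ] (1 : E)) ⊗ₜ[ℚ] x) ∘ₗ br.flip w)
    (br.flip w ∘ₗ br ((e ⊗ₜ[ℚ] (1 : E)) ⊗ₜ[ℚ] x) - br.flip (br ((e ⊗ₜ[ℚ] (1 : E)) ⊗ₜ[ℚ] x) w))
    (fun f hf y => ?_) ht
  simp only [LinearMap.flip_apply, LinearMap.sub_apply, LinearMap.comp_apply]
  induction w using TensorProduct.induction_on with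
  | zero => simp
  | add a b ha hb => simp only [map_add, ha, hb]; abel
  | tmul d z =>
    simp only [br_tmul, ← mul_assoc, Algebra.TensorProduct.tmul_mul_tmul]
    rw [odd_anti hf he, neg_tmul, neg_mul, neg_tmul, sub_neg_eq_add, leibniz_lie x, tmul_add]

theorem OO_even {W : Submodule ℚ L} {s : BB ⊗[ℚ] L} (hs : s ∈ OO 1 W) :
    ∃ u ∈ W.baseChange CC, jj u = s := by
  refine Submodule.span_induction (p := fun s _ => ∃ u ∈ W.baseChange CC, jj u = s) ?_
    ⟨0, Submodule.zero_mem _, map_zero _⟩ ?_ ?_ hs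
  · rintro _ ⟨e, he, x, hx, rfl⟩
    obtain ⟨c, hc⟩ := exists_val he one_mem_Ep
    exact ⟨c ⊗ₜ x, Submodule.tmul_mem_baseChange_of_mem _ hx, by rw [jj_tmul, hc]⟩
  · rintro _ _ _ _ ⟨a, ha, rfl⟩ ⟨b, hb, rfl⟩
    exact ⟨a + b, Submodule.add_mem _ ha hb, map_add _ _ _⟩
  · rintro r _ _ ⟨a, ha, rfl⟩
    exact ⟨r • a, Submodule.smul_of_tower_mem _ r ha, map_smul _ _ _⟩

theorem bc_ind {W : Submodule ℚ L} {P : CC ⊗[ℚ] L → Prop} (h0 : P 0)
    (h1 : ∀ c, ∀ x ∈ W, P (c ⊗ₜ x)) (h2 : ∀ a b, P a → P b → P (a + b)) {u : CC ⊗[ℚ] L}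
    (hu : u ∈ W.baseChange CC) : P u := by
  obtain ⟨v, rfl⟩ := hu
  induction v using TensorProduct.induction_on with
  | zero => simpa using h0
  | add a b ha hb => rw [map_add]; exact h2 _ _ ha hb
  | tmul c x => exact h1 c x x.2

theorem jj_mem {W : Submodule ℚ L} {u : CC ⊗[ℚ] L} (hu : u ∈ W.baseChange CC) : jj u ∈ BW W :=
  bc_ind (P := fun u => jj u ∈ BW W) (by simp)
    (fun _ x hx => Submodule.subset_span ⟨_, x, hx, rfl⟩)
    (fun a b ha hb => by rw [map_add]; exact Submodule.add_mem _ ha hb) hu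

theorem lie_bc {W W' W'' : Submodule ℚ L} (h : ∀ x ∈ W, ∀ y ∈ W', ⁅x, y⁆ ∈ W'') :
    ∀ u ∈ W.baseChange CC, ∀ v ∈ W'.baseChange CC, ⁅u, v⁆ ∈ W''.baseChange CC := by
  intro u hu v hv
  refine bc_ind (P := fun u => ⁅u, v⁆ ∈ W''.baseChange CC) (by simp) (fun c x hx => ?_)
    (fun a b ha hb => by rw [add_lie]; exact Submodule.add_mem _ ha hb) hu
  exact bc_ind (P := fun v => ⁅c ⊗ₜ[ℚ] x, v⁆ ∈ W''.baseChange CC) (by simp)
    (fun d y hy => Submodule.tmul_mem_baseChange_of_mem _ (h x hx y hy))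
    (fun a b ha hb => by rw [lie_add]; exact Submodule.add_mem _ ha hb) hv

/-- Extension of scalars of a graded pair. -/
noncomputable def Gr.base {c : ℕ} (Γ : Gr ℚ L c) : Gr CC (CC ⊗[ℚ] L) c where
  L0 := Γ.L0.baseChange CC
  L1 := Γ.L1.baseChange CC
  G i := (Γ.G i).baseChange CC
  h00 := lie_bc Γ.h00
  h01 := lie_bc Γ.h01
  h11 := lie_bc Γ.h11
  hG0 := Submodule.baseChange_mono CC Γ.hG0
  hG i := lie_bc (Γ.hG i)
  hGc := by rw [Γ.hGc, Submodule.baseChange_bot]

theorem odd_nil {c : ℕ} (Γ : Gr ℚ L c) {s : BB ⊗[ℚ] L} (hs : s ∈ OO (-1) Γ.L1)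
    {p : CC ⊗[ℚ] L} (hp0 : p ∈ Γ.base.L0) (hp : jj p = br s s) :
    ∀ z ∈ Γ.base.L0 ⊔ Γ.base.L1, (ad CC _ p ^ (c + 1)) z = 0 := by
  intro z hz
  obtain ⟨u, hu, v, hv, rfl⟩ := Submodule.mem_sup.1 hz
  rw [map_add, Γ.base.pow_zero0 hp0 hu (by omega), zero_add]
  have hq : br s s ∈ OO 1 Γ.L0 := by simpa using br_OO Γ.h11 hs hs
  have h1 : ∀ m, jj ((ad CC _ p ^ m) v) = (br (br s s) ^ m) (jj v) := by
    intro m
    induction m with
    | zero => rfl
    | succ m ih => rw [pow_succ', pow_succ', Module.End.mul_apply, ad_apply, jj_lie, ih, hp]; rfl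
  have h2 : ∀ w, br (br s s) w = (2 : ℚ) • br s (br s w) := fun w => by
    rw [two_smul]; exact (eq_sub_iff_add_eq.1 (leib_odd hs hs w)).symm
  have h3 : br (br s s) s = 0 := by
    have h4 := h2 s
    have h5 := anti_even hq s
    have : (3 : ℚ) • br s (br s s) = 0 := by
      rw [show (3 : ℚ) = 2 + 1 by norm_num, add_smul, one_smul, ← h4, h5, neg_add_cancel]
    rw [h5, (smul_eq_zero.1 this).resolve_left (by norm_num), neg_zero]
  have h4 : ∀ m w, br s ((br (br s s) ^ m) w) = (br (br s s) ^ m) (br s w) := by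
    intro m w
    induction m with
    | zero => rfl
    | succ m ih =>
      rw [pow_succ', Module.End.mul_apply, Module.End.mul_apply, ← ih, leib_even hq, h3]; simp
  have h5 : ∀ w ∈ BW Γ.L0, ∀ m, (br (br s s) ^ m) w ∈ BW (Γ.G m) := by
    intro w hw m
    induction m with
    | zero =>
      refine Submodule.span_mono ?_ hw
      rintro _ ⟨b, x, hx, h⟩
      exact ⟨b, x, Γ.hG0 hx, h⟩
    | succ m ih => rw [pow_succ']; exact br_BW (Γ.hG m) (OO_le _ _ hq) ih
  have h6 := h5 _ (br_BW Γ.h11 (OO_le _ _ hs) (jj_mem hv)) c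
  rw [Γ.hGc, BW, Submodule.span_eq_bot.2 (by rintro _ ⟨b, x, hx, rfl⟩; simp_all),
    Submodule.mem_bot] at h6
  apply jj_inj
  rw [h1, pow_succ', Module.End.mul_apply, h2, h4, h6, map_zero, smul_zero, map_zero]

/-- Families that factor through a base, up to coefficients in the second factor. -/
def Fact {Λ Θ : Type*} (β : Λ → Θ) (p : ℤˣ) (W : Submodule ℚ L) (y : Λ → CC ⊗[ℚ] L) : Prop :=
  ∃ (s : Θ → BB ⊗[ℚ] L) (ξ : Λ → E), (∀ θ, s θ ∈ OO p W) ∧ (∀ i, ξ i ∈ Ep p) ∧
    ∀ i, jj (y i) = ((1 : E) ⊗ₜ[ℚ] ξ i) • s (β i)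

theorem Fact.lie {Λ Θ : Type*} {β : Λ → Θ} {p q : ℤˣ} {W W' W'' : Submodule ℚ L}
    (h : ∀ x ∈ W, ∀ y ∈ W', ⁅x, y⁆ ∈ W'') {y y' : Λ → CC ⊗[ℚ] L} (hy : Fact β p W y)
    (hy' : Fact β q W' y') : Fact β (p * q) W'' fun i => ⁅y i, y' i⁆ := by
  obtain ⟨s, ξ, h1, h2, h3⟩ := hy
  obtain ⟨s', ξ', h1', h2', h3'⟩ := hy'
  refine ⟨fun θ => br (s θ) (s' θ), fun i => ξ i * ξ' i, fun θ => br_OO h (h1 θ) (h1' θ),
    fun i => mul_mem_Ep (h2 i) (h2' i), fun i => ?_⟩
  rw [jj_lie, h3, h3', br_smul_left, br_smul_right (h1 _), smul_smul,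
    Algebra.TensorProduct.tmul_mul_tmul, one_mul]

theorem Fact.even {Λ Θ : Type*} {β : Λ → Θ} {W : Submodule ℚ L} {y : Λ → CC ⊗[ℚ] L}
    (hy : Fact β 1 W y) : ∃ (b : Θ → CC ⊗[ℚ] L) (η : Λ → CC), (∀ θ, b θ ∈ W.baseChange CC) ∧
      ∀ i, y i = η i • b (β i) := by
  obtain ⟨s, ξ, h1, h2, h3⟩ := hy
  choose b hb hb' using fun θ => OO_even (h1 θ)
  choose η hη using fun i => exists_val one_mem_Ep (h2 i)
  exact ⟨b, η, hb, fun i => jj_inj (by rw [h3, jj_smul, hη, hb'])⟩

theorem fact_gen {Λ Θ I : Type*} (β : Λ → Θ) (p : ℤˣ) {W : Submodule ℚ L} (j : ℕ) (n : Λ → ℕ)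
    (R : Θ → Finset I) (κ : Θ → I → ℕ) (x : Θ → I → L) (hx : ∀ θ a, x θ a ∈ W) :
    Fact β p W fun i => ∑ a ∈ R (β i), cc p j (κ (β i) a) (n i) • (1 : CC) ⊗ₜ[ℚ] x (β i) a := by
  rcases Int.units_eq_one_or p with rfl | rfl
  · refine ⟨fun θ => ∑ a ∈ R θ, ((eps (κ θ a, j, false) * eps (κ θ a, j, true)) ⊗ₜ[ℚ] (1 : E)) ⊗ₜ
      x θ a, fun _ => 1, fun θ => Submodule.sum_mem _ fun a _ => Submodule.subset_span
        ⟨_, eps2_mem _ _, _, hx θ a, rfl⟩, fun _ => one_mem_Ep, fun i => ?_⟩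
    rw [← Algebra.TensorProduct.one_def, one_smul, map_sum]
    refine Finset.sum_congr rfl fun a _ => ?_
    rw [smul_tmul', smul_eq_mul, mul_one, jj_tmul, val_cc_one]
  · refine ⟨fun θ => ∑ a ∈ R θ, (eps (κ θ a, j, false) ⊗ₜ[ℚ] (1 : E)) ⊗ₜ x θ a,
      fun i => eps (n i, j, false), fun θ => Submodule.sum_mem _ fun a _ => Submodule.subset_span
        ⟨_, eps_mem _, _, hx θ a, rfl⟩, fun _ => eps_mem _, fun i => ?_⟩
    rw [map_sum, Finset.smul_sum]
    refine Finset.sum_congr rfl fun a _ => ?_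
    rw [smul_tmul', smul_eq_mul, mul_one, jj_tmul, val_cc_neg, smul_tmul', smul_eq_mul,
      Algebra.TensorProduct.tmul_mul_tmul, one_mul, mul_one]

end Pool.Agent.MP_2a197d_al

end MrgPart5

-- marker of a merged file
example : 731051 + 288583 = 731051 + 288583 := rfl
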