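import Pool.Agent.MP_2a197d_al.Env
import Mathlib.Algebra.Lie.Quotient
import Mathlib.Algebra.Lie.BaseChange

/-! Relatively free Lie algebras, elements multilinear in some generators, torsion. -/

set_option linter.unusedSectionVars false

namespace Pool.Agent.MP_2a197d_al.KY

open Function T TensorProduct

/-- The variety generated by `F`. -/
inductive HS (F : Type) [LieRing F] [LieAlgebra ℚ F] :
    (L : Type) → [LieRing L] → [LieAlgebra ℚ L] → Prop
  | base : HS F F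
  | sub {L' Θ : Type} [LieRing L'] [LieAlgebra ℚ L'] {L : Θ → Type} [∀ θ, LieRing (L θ)]
      [∀ θ, LieAlgebra ℚ (L θ)] (f : ∀ θ, L' →ₗ⁅ℚ⁆ L θ) (hf : ∀ v, (∀ θ, f θ v = 0) → v = 0)
      (h : ∀ θ, HS F (L θ)) : HS F L'
  | img {L L' : Type} [LieRing L] [LieAlgebra ℚ L] [LieRing L'] [LieAlgebra ℚ L']
      (f : L →ₗ⁅ℚ⁆ L') (hf : Surjective f) (h : HS F L) : HS F L'

/-- A relatively free Lie algebra with a distinguished generator. -/
structure Fr (ι F : Type) [LieRing F] [LieAlgebra ℚ F] where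
  /-- generators -/
  g : Option ι → F
  span : LieSubalgebra.lieSpan ℚ F (Set.range g) = ⊤
  ext : ∀ h : Option ι → F, ∃ φ : F →ₗ⁅ℚ⁆ F, ∀ o, φ (g o) = h o

variable {ι F : Type} [LieRing F] [LieAlgebra ℚ F]

section hs
variable {L : Type} [LieRing L] [LieAlgebra ℚ L]

theorem br_span {S1 S2 : Set L} {U : Submodule ℚ L} {a b : L} (ha : a ∈ Submodule.span ℚ S1)
    (hb : b ∈ Submodule.span ℚ S2) (h : ∀ p ∈ S1, ∀ q ∈ S2, ⁅p, q⁆ ∈ U) : ⁅a, b⁆ ∈ U := by
  have h1 : ∀ p ∈ S1, ⁅p, b⁆ ∈ U := fun p hp =>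
    (Submodule.span_le (p := U.comap (LieAlgebra.ad ℚ L p))).2 (h p hp) hb
  rw [← lie_skew]
  refine U.neg_mem ((Submodule.span_le (p := U.comap (LieAlgebra.ad ℚ L b))).2 (fun p hp => ?_) ha)
  change ⁅b, p⁆ ∈ U
  rw [← lie_skew]
  exact U.neg_mem (h1 p hp)

theorem lev_hom {L' : Type} [LieRing L'] [LieAlgebra ℚ L'] (f : L →ₗ⁅ℚ⁆ L') (t : T)
    (a : t.Lf → L) : f (lev t a) = lev t fun i => f (a i) := ev_map f f.map_lie t a

/-- The quotient map as a Lie homomorphism. -/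
def qm (I : LieIdeal ℚ L) : L →ₗ⁅ℚ⁆ L ⧸ I :=
  { (LieSubmodule.Quotient.mk' I).toLinearMap with
    map_lie' := fun {x y} => LieSubmodule.Quotient.mk_bracket I x y }

theorem qm_surj (I : LieIdeal ℚ L) : Surjective (qm I) := LieSubmodule.Quotient.surjective_mk' I

theorem qm_eq_zero {I : LieIdeal ℚ L} {a : L} : qm I a = 0 ↔ a ∈ I :=
  LieSubmodule.Quotient.mk_eq_zero I

theorem HS.quot (h : HS F L) (I : LieIdeal ℚ L) : HS F (L ⧸ I) := .img (qm I) (qm_surj I) h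

theorem HS.subalg (h : HS F L) (K : LieSubalgebra ℚ L) : HS F K :=
  .sub (Θ := Unit) (fun _ => K.incl) (fun _ hv => Subtype.ext (hv ())) fun _ => h

/-- Evaluation of families. -/
def fat {Λ : Type} {L : Λ → Type} [∀ i, LieRing (L i)] [∀ i, LieAlgebra ℚ (L i)] (i : Λ) :
    Fam L →ₗ⁅ℚ⁆ L i where
  toFun x := x i
  map_add' _ _ := rfl
  map_smul' _ _ := rfl
  map_lie' := rfl

theorem HS.fam {Λ : Type} {L : Λ → Type} [∀ i, LieRing (L i)] [∀ i, LieAlgebra ℚ (L i)]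
    (h : ∀ i, HS F (L i)) : HS F (Fam L) := .sub fat (fun _ hv => funext hv) h

theorem HS.tens (h : HS F L) (κ : Type) : HS F (MvPolynomial κ ℚ ⊗[ℚ] L) := by
  let ε : ℚ ⊗[ℚ] L →ₗ⁅ℚ⁆ L :=
    { (TensorProduct.lid ℚ L).toLinearMap with
      map_lie' := fun {x y} => by
        obtain ⟨x, rfl⟩ := (TensorProduct.lid ℚ L).symm.surjective x
        obtain ⟨y, rfl⟩ := (TensorProduct.lid ℚ L).symm.surjective y
        simp }
  have hε : ∀ a x, ε (a ⊗ₜ x) = a • x := fun _ _ => rfl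
  refine .sub (fun v : κ → ℚ => ε.comp (LieAlgebra.ExtendScalars.map (MvPolynomial.aeval v)
    (LieHom.id : L →ₗ⁅ℚ⁆ L))) (fun x hx => ?_) fun _ => h
  refine tensor_eq_zero x fun φ => MvPolynomial.funext fun v => ?_
  have h2 := congrArg φ (hx v)
  rw [map_zero] at h2 ⊢
  rw [← h2]
  clear hx h2
  induction x using TensorProduct.induction_on with
  | zero => simp
  | add a b ha hb => simp only [map_add, ha, hb]
  | tmul a x => simp [hε, mul_comm, MvPolynomial.aeval_eq_eval]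

end hs

namespace Fr

variable (G : Fr ι F)

theorem induct (P : F → Prop) (h1 : ∀ o, P (G.g o)) (h0 : P 0) (ha : ∀ a b, P a → P b → P (a + b))
    (hs : ∀ (c : ℚ) a, P a → P (c • a)) (hl : ∀ a b, P a → P b → P ⁅a, b⁆) (a : F) : P a := by
  have : a ∈ LieSubalgebra.lieSpan ℚ F (Set.range G.g) := G.span ▸ LieSubalgebra.mem_top a
  induction this using LieSubalgebra.lieSpan_induction with
  | mem y h => obtain ⟨o, rfl⟩ := h; exact h1 o
  | zero => exact h0
  | add _ _ _ _ hu hv => exact ha _ _ hu hv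
  | smul c _ _ hu => exact hs _ _ hu
  | lie _ _ _ _ hu hv => exact hl _ _ hu hv

theorem hom_ext {L : Type} [LieRing L] [LieAlgebra ℚ L] {φ ψ : F →ₗ⁅ℚ⁆ L}
    (h : ∀ o, φ (G.g o) = ψ (G.g o)) (a : F) : φ a = ψ a :=
  G.induct (fun a => φ a = ψ a) h (by simp) (fun a b ha hb => by simp [ha, hb])
    (fun c a ha => by simp [ha]) (fun a b ha hb => by simp [ha, hb]) a

theorem exists_hom {L : Type} [LieRing L] [LieAlgebra ℚ L] (hL : HS F L) :
    ∀ h : Option ι → L, ∃ φ : F →ₗ⁅ℚ⁆ L, ∀ o, φ (G.g o) = h o := by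
  induction hL with
  | base => exact G.ext
  | @sub L' Θ _ _ L _ _ f hf _ ih =>
    intro h
    choose φ hφ using fun θ => ih θ fun o => f θ (h o)
    have ex : ∀ a : F, ∃ v, ∀ θ, f θ v = φ θ a := by
      refine G.induct _ (fun o => ⟨h o, fun θ => (hφ θ o).symm⟩) ⟨0, by simp⟩ ?_ ?_ ?_
      · rintro a b ⟨v, hv⟩ ⟨w, hw⟩; exact ⟨v + w, by simp [hv, hw]⟩
      · rintro c a ⟨v, hv⟩; exact ⟨c • v, by simp [hv]⟩
      · rintro a b ⟨v, hv⟩ ⟨w, hw⟩; exact ⟨⁅v, w⁆, by simp [hv, hw]⟩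
    choose ψ hψ using ex
    have inj : ∀ v w, (∀ θ, f θ v = f θ w) → v = w := fun v w hh =>
      sub_eq_zero.1 (hf _ fun θ => by rw [map_sub, hh, sub_self])
    exact ⟨{ toFun := ψ
             map_add' := fun a b => inj _ _ fun θ => by simp [hψ]
             map_smul' := fun a b => inj _ _ fun θ => by simp [hψ]
             map_lie' := fun {a b} => inj _ _ fun θ => by simp [hψ] },
      fun o => inj _ _ fun θ => (hψ _ θ).trans (hφ θ o)⟩
  | img f hf _ ih =>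
    intro h
    obtain ⟨φ, hφ⟩ := ih fun o => surjInv hf (h o)
    exact ⟨f.comp φ, fun o => by simp [hφ, surjInv_eq]⟩

/-- The homomorphism with given values on the generators. -/
noncomputable def hom {L : Type} [LieRing L] [LieAlgebra ℚ L] (hL : HS F L) (a : L) (h : ι → L) :
    F →ₗ⁅ℚ⁆ L := (G.exists_hom hL fun o => o.elim a h).choose

/-- The distinguished generator. -/
def x : F := G.g none

/-- The other generators. -/
def y (i : ι) : F := G.g (some i)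

theorem hom_x {L : Type} [LieRing L] [LieAlgebra ℚ L] (hL : HS F L) (a : L) (h : ι → L) :
    G.hom hL a h G.x = a := (G.exists_hom hL fun o => o.elim a h).choose_spec none

theorem hom_y {L : Type} [LieRing L] [LieAlgebra ℚ L] (hL : HS F L) (a : L) (h : ι → L) (i : ι) :
    G.hom hL a h (G.y i) = h i := (G.exists_hom hL fun o => o.elim a h).choose_spec (some i)

theorem hom_ext' {L : Type} [LieRing L] [LieAlgebra ℚ L] {φ ψ : F →ₗ⁅ℚ⁆ L}
    (h0 : φ G.x = ψ G.x) (h : ∀ i, φ (G.y i) = ψ (G.y i)) (a : F) : φ a = ψ a :=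
  G.hom_ext (fun o => by cases o; exacts [h0, h _]) a

variable [DecidableEq ι]

/-- The substitution `y i ↦ [x, y i]`. -/
noncomputable def σ (i : ι) : F →ₗ⁅ℚ⁆ F := G.hom .base G.x (update G.y i ⁅G.x, G.y i⁆)

theorem σ_x (i : ι) : G.σ i G.x = G.x := G.hom_x _ _ _

theorem σ_self (i : ι) : G.σ i (G.y i) = ⁅G.x, G.y i⁆ := by rw [σ, hom_y, update_self]

theorem σ_ne {i j : ι} (h : j ≠ i) : G.σ i (G.y j) = G.y j := by rw [σ, hom_y, update_of_ne h]

theorem σ_comm (i j : ι) (a : F) : G.σ i (G.σ j a) = G.σ j (G.σ i a) := by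
  by_cases h : i = j
  · rw [h]
  refine G.hom_ext' (φ := (G.σ i).comp (G.σ j)) (ψ := (G.σ j).comp (G.σ i))
    (by simp [σ_x]) (fun k => ?_) a
  simp only [LieHom.comp_apply]
  by_cases hi : k = i
  · subst hi; simp [σ_self, G.σ_ne h, σ_x]
  by_cases hj : k = j
  · subst hj; simp [σ_self, G.σ_ne hi, σ_x]
  · simp [G.σ_ne hi, G.σ_ne hj]

/-- Monomials of degree `e` in `x`, multilinear in the `y i`, `i ∈ S`. -/
inductive Mon : ℕ → Finset ι → F → Prop
  | gen (i : ι) : Mon 0 {i} (G.y i)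
  | dx {e S m} : Mon e S m → Mon (e + 1) S ⁅G.x, m⁆
  | br {e e' S T m n} : Mon e S m → Mon e' T n → Disjoint S T → Mon (e + e') (S ∪ T) ⁅m, n⁆

/-- Elements multilinear in the `y i`, `i ∈ S`. -/
def M (S : Finset ι) : Submodule ℚ F := Submodule.span ℚ {m | ∃ e, G.Mon e S m}

/-- Elements multilinear in the `y i`, `i ∈ S`, of degree less than `d` in `x`. -/
def Ml (d : ℕ) (S : Finset ι) : Submodule ℚ F := Submodule.span ℚ {m | ∃ e < d, G.Mon e S m}

variable {G}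

theorem Mon.mem {e S m} (h : G.Mon e S m) : m ∈ G.M S := Submodule.subset_span ⟨e, h⟩

theorem Mon.meml {e S m d} (h : G.Mon e S m) (hd : e < d) : m ∈ G.Ml d S :=
  Submodule.subset_span ⟨e, hd, h⟩

theorem Mon.ne {e S m} (h : G.Mon e S m) : S.Nonempty := by
  induction h with
  | gen i => simp
  | dx _ ih => exact ih
  | br _ _ _ ih _ => exact ih.mono Finset.subset_union_left

theorem Ml_le (d : ℕ) (S : Finset ι) : G.Ml d S ≤ G.M S :=
  Submodule.span_mono fun _ ⟨e, _, h⟩ => ⟨e, h⟩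

theorem M_empty {m : F} (h : m ∈ G.M ∅) : m = 0 := by
  have : G.M ∅ ≤ ⊥ := Submodule.span_le.2 fun _ ⟨_, h⟩ => absurd h.ne (by simp)
  simpa using this h

theorem y_mem (i : ι) : G.y i ∈ G.M {i} := (Mon.gen i).mem

theorem M_map {V : Type} [AddCommGroup V] [Module ℚ V] (f : F →ₗ[ℚ] V) {U : Submodule ℚ V} {S}
    (h : ∀ e m, G.Mon e S m → f m ∈ U) {m : F} (hm : m ∈ G.M S) : f m ∈ U :=
  (Submodule.span_le (p := U.comap f)).2 (fun _ hm => hm.elim fun e hm => h e _ hm) hm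

theorem M_ext {V : Type} [AddCommGroup V] [Module ℚ V] (f f' : F →ₗ[ℚ] V) {S}
    (h : ∀ e m, G.Mon e S m → f m = f' m) {m : F} (hm : m ∈ G.M S) : f m = f' m :=
  LinearMap.eqOn_span (fun _ hm => hm.elim fun e hm => h e _ hm) hm

theorem x_mem {S m} (h : m ∈ G.M S) : ⁅G.x, m⁆ ∈ G.M S :=
  M_map (LieAlgebra.ad ℚ F G.x) (fun _ _ h => h.dx.mem) h

theorem lie_mem {S T m n} (hm : m ∈ G.M S) (hn : n ∈ G.M T) (hd : Disjoint S T) :
    ⁅m, n⁆ ∈ G.M (S ∪ T) :=
  br_span hm hn fun _ ⟨_, h⟩ _ ⟨_, h'⟩ => (h.br h' hd).mem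

theorem Mon.σ_fix {e S m} (h : G.Mon e S m) {i} (hi : i ∉ S) : G.σ i m = m := by
  induction h with
  | gen j => exact G.σ_ne fun h => hi (by simp [h])
  | dx _ ih => rw [LieHom.map_lie, σ_x, ih hi]
  | br _ _ _ ih ih' =>
    rw [Finset.notMem_union] at hi
    rw [LieHom.map_lie, ih hi.1, ih' hi.2]

theorem σ_fix {S m} (h : m ∈ G.M S) {i} (hi : i ∉ S) : G.σ i m = m :=
  M_ext (G.σ i : F →ₗ[ℚ] F) LinearMap.id (fun _ _ h => h.σ_fix hi) h

theorem Mon.σ_mon {e S m} (h : G.Mon e S m) {i} (hi : i ∈ S) : G.Mon (e + 1) S (G.σ i m) := by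
  induction h with
  | gen j =>
    obtain rfl := Finset.mem_singleton.1 hi
    rw [σ_self]; exact (Mon.gen i).dx
  | dx _ ih => rw [LieHom.map_lie, σ_x]; exact (ih hi).dx
  | br h h' hd ih ih' =>
    rw [LieHom.map_lie]
    rcases Finset.mem_union.1 hi with hi | hi
    · rw [h'.σ_fix (Finset.disjoint_left.1 hd hi), Nat.add_right_comm]
      exact (ih hi).br h' hd
    · rw [h.σ_fix (Finset.disjoint_right.1 hd hi)]
      exact h.br (ih' hi) hd

theorem σ_mem {S m} (h : m ∈ G.M S) (i : ι) : G.σ i m ∈ G.M S := by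
  by_cases hi : i ∈ S
  · exact M_map (G.σ i : F →ₗ[ℚ] F) (fun _ _ h => (h.σ_mon hi).mem) h
  · rwa [σ_fix h hi]

theorem Mon.leib {e S m} (h : G.Mon e S m) : ⁅G.x, m⁆ = ∑ i ∈ S, G.σ i m := by
  induction h with
  | gen j => simp [σ_self]
  | dx _ ih =>
    conv_lhs => rw [ih]
    simp [lie_sum, σ_x]
  | br h h' hd ih ih' =>
    rw [leibniz_lie, ih, ih', Finset.sum_union hd, sum_lie, lie_sum]
    congr 1 <;> refine Finset.sum_congr rfl fun i hi => ?_
    · rw [LieHom.map_lie, h'.σ_fix (Finset.disjoint_left.1 hd hi)]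
    · rw [LieHom.map_lie, h.σ_fix (Finset.disjoint_right.1 hd hi)]

end Fr

variable [DecidableEq ι]

/-- Indicator of a finite set. -/
noncomputable def ind (R : Type) [Semiring R] (S : Finset ι) : ι →₀ R :=
  ∑ j ∈ S, Finsupp.single j 1

theorem ind_apply (R : Type) [Semiring R] (S : Finset ι) (j : ι) :
    ind R S j = if j ∈ S then 1 else 0 := by
  simp [ind, Finsupp.finsetSum_apply, Finsupp.single_apply]

theorem ind_supp (R : Type) [Semiring R] (S : Finset ι) : (ind R S).support ⊆ S := by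
  intro j hj
  by_contra h
  simp [ind_apply, h] at hj

theorem ind_union (R : Type) [Semiring R] {S U : Finset ι} (h : Disjoint S U) :
    ind R (S ∪ U) = ind R S + ind R U := Finset.sum_union h

/-- Substitution of total operators of blocks in a form. -/
noncomputable def push (B : ι → Finset ι) : (ι →₀ ℚ) →ₗ[ℚ] (ι →₀ ℚ) :=
  Finsupp.linearCombination ℚ fun i => ind ℚ (B i)

theorem push_eq (B : ι → Finset ι) {ℓ : ι →₀ ℚ} {S : Finset ι} (h : ℓ.support ⊆ S) :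
    push B ℓ = ∑ i ∈ S, ℓ i • ind ℚ (B i) := by
  rw [push, Finsupp.linearCombination_apply, Finsupp.sum_of_support_subset _ h]
  simp

theorem push_supp (B : ι → Finset ι) {ℓ : ι →₀ ℚ} {S : Finset ι} (h : ℓ.support ⊆ S) :
    (push B ℓ).support ⊆ S.biUnion B := by
  intro j hj
  by_contra hn
  simp only [Finset.mem_biUnion, not_exists, not_and] at hn
  rw [Finsupp.mem_support_iff, push_eq B h, Finsupp.finsetSum_apply] at hj
  exact hj (Finset.sum_eq_zero fun i hi => by simp [ind_apply, hn i hi])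

/-- Pairwise disjoint blocks. -/
def PD (S : Finset ι) (B : ι → Finset ι) : Prop :=
  ∀ i ∈ S, ∀ j ∈ S, i ≠ j → Disjoint (B i) (B j)

theorem PD.mono {S U : Finset ι} {B : ι → Finset ι} (h : PD S B) (hU : U ⊆ S) : PD U B :=
  fun i hi j hj => h i (hU hi) j (hU hj)

theorem PD.disj {S U : Finset ι} {B : ι → Finset ι} (h : PD (S ∪ U) B) (hd : Disjoint S U) :
    Disjoint (S.biUnion B) (U.biUnion B) := by
  rw [Finset.disjoint_biUnion_left]
  intro i hi
  rw [Finset.disjoint_biUnion_right]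
  intro j hj
  exact h i (by simp [hi]) j (by simp [hj]) fun e => Finset.disjoint_left.1 hd hi (e ▸ hj)

theorem PD.union {S U : Finset ι} {B : ι → Finset ι} (h : PD S B) (h' : PD U B)
    (hd : Disjoint (S.biUnion B) (U.biUnion B)) : PD (S ∪ U) B := by
  intro i hi j hj hij
  rcases Finset.mem_union.1 hi with hi | hi <;> rcases Finset.mem_union.1 hj with hj | hj
  · exact h i hi j hj hij
  · exact hd.mono (Finset.subset_biUnion_of_mem B hi) (Finset.subset_biUnion_of_mem B hj)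
  · exact hd.symm.mono (Finset.subset_biUnion_of_mem B hi) (Finset.subset_biUnion_of_mem B hj)
  · exact h' i hi j hj hij

theorem push_apply {B : ι → Finset ι} {ℓ : ι →₀ ℚ} {S : Finset ι} (h : ℓ.support ⊆ S)
    (hB : PD S B) {i j : ι} (hi : i ∈ S) (hj : j ∈ B i) : push B ℓ j = ℓ i := by
  rw [push_eq B h, Finsupp.finsetSum_apply, Finset.sum_eq_single i]
  · simp [ind_apply, hj]
  · intro k hk hki
    simp [ind_apply, Finset.disjoint_right.1 (hB k hk i hi hki) hj]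
  · exact fun h => absurd hi h

namespace Fr

variable (G : Fr ι F)

/-- The operator of a linear form. -/
noncomputable def op : (ι →₀ ℚ) →ₗ[ℚ] Module.End ℚ F :=
  Finsupp.linearCombination ℚ fun i => (G.σ i : F →ₗ[ℚ] F)

/-- Torsion for the forms satisfying `H` with support in `S`. -/
inductive Tor (H : (ι →₀ ℚ) → Prop) (S : Finset ι) : F → Prop
  | zero : Tor H S 0
  | step {m} (ℓ : ι →₀ ℚ) : H ℓ → ℓ.support ⊆ S → Tor H S (G.op ℓ m) → Tor H S m

theorem op_eq {ℓ : ι →₀ ℚ} {S : Finset ι} (h : ℓ.support ⊆ S) (m : F) :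
    G.op ℓ m = ∑ i ∈ S, ℓ i • G.σ i m := by
  rw [op, Finsupp.linearCombination_apply, Finsupp.sum_of_support_subset _ h]
  · simp [LinearMap.sum_apply]
  · simp

theorem op_single (i : ι) (m : F) : G.op (Finsupp.single i 1) m = G.σ i m := by simp [op]

theorem op_ind (S : Finset ι) (m : F) : G.op (ind ℚ S) m = ∑ i ∈ S, G.σ i m := by
  simp [ind, op_single, LinearMap.sum_apply]

theorem op_comm (ℓ ℓ' : ι →₀ ℚ) (m : F) : G.op ℓ (G.op ℓ' m) = G.op ℓ' (G.op ℓ m) := by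
  simp only [G.op_eq subset_rfl, map_sum, map_smul, Finset.smul_sum]
  rw [Finset.sum_comm]
  exact Finset.sum_congr rfl fun i _ => Finset.sum_congr rfl fun j _ => by
    rw [smul_comm, σ_comm]

theorem op_x (ℓ : ι →₀ ℚ) (m : F) : G.op ℓ ⁅G.x, m⁆ = ⁅G.x, G.op ℓ m⁆ := by
  simp [G.op_eq subset_rfl, lie_sum, σ_x]

variable {G}

theorem x_eq_op {S m} (h : m ∈ G.M S) : ⁅G.x, m⁆ = G.op (ind ℚ S) m :=
  M_ext (LieAlgebra.ad ℚ F G.x) (G.op (ind ℚ S)) (fun _ _ h => by rw [op_ind]; exact h.leib) h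

theorem op_mem {S m} (h : m ∈ G.M S) (ℓ : ι →₀ ℚ) : G.op ℓ m ∈ G.M S := by
  rw [G.op_eq subset_rfl]
  exact Submodule.sum_mem _ fun i _ => Submodule.smul_mem _ _ (σ_mem h i)

theorem op_lie_right {S m} (h : m ∈ G.M S) {ℓ : ι →₀ ℚ} (hd : Disjoint S ℓ.support) (n : F) :
    G.op ℓ ⁅m, n⁆ = ⁅m, G.op ℓ n⁆ := by
  simp only [G.op_eq subset_rfl, lie_sum, lie_smul, LieHom.map_lie]
  exact Finset.sum_congr rfl fun i hi => by rw [σ_fix h (Finset.disjoint_right.1 hd hi)]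

theorem op_lie_left {S n} (h : n ∈ G.M S) {ℓ : ι →₀ ℚ} (hd : Disjoint S ℓ.support) (m : F) :
    G.op ℓ ⁅m, n⁆ = ⁅G.op ℓ m, n⁆ := by
  rw [← lie_skew, map_neg, op_lie_right h hd, lie_skew]

variable {H H' : (ι →₀ ℚ) → Prop} {S S' : Finset ι}

theorem Tor.map (f : F →ₗ[ℚ] F) (U : Submodule ℚ F) (hU : ∀ ℓ, ∀ n ∈ U, G.op ℓ n ∈ U)
    (hf : ∀ ℓ, H ℓ → ℓ.support ⊆ S → ∃ ℓ', H' ℓ' ∧ ℓ'.support ⊆ S' ∧
      ∀ n ∈ U, f (G.op ℓ n) = G.op ℓ' (f n)) {n : F} (h : G.Tor H S n) :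
    n ∈ U → G.Tor H' S' (f n) := by
  induction h with
  | zero => intro _; rw [map_zero]; exact .zero
  | step ℓ h1 h2 _ ih =>
    intro hn
    obtain ⟨ℓ', h3, h4, h5⟩ := hf ℓ h1 h2
    exact .step ℓ' h3 h4 (h5 _ hn ▸ ih (hU _ _ hn))

theorem Tor.comm (f : F →ₗ[ℚ] F) (hf : ∀ ℓ n, f (G.op ℓ n) = G.op ℓ (f n)) {n : F}
    (h : G.Tor H S n) : G.Tor H S (f n) :=
  h.map f ⊤ (fun _ _ _ => trivial) (fun ℓ h1 h2 => ⟨ℓ, h1, h2, fun n _ => hf ℓ n⟩) trivial

theorem Tor.mono (hH : ∀ ℓ, H ℓ → ℓ.support ⊆ S → H' ℓ) (hS : S ⊆ S') {n : F}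
    (h : G.Tor H S n) : G.Tor H' S' n :=
  h.map LinearMap.id ⊤ (fun _ _ _ => trivial)
    (fun ℓ h1 h2 => ⟨ℓ, hH ℓ h1 h2, h2.trans hS, fun _ _ => rfl⟩) trivial

theorem Tor.op {n : F} (h : G.Tor H S n) (ℓ : ι →₀ ℚ) : G.Tor H S (G.op ℓ n) :=
  h.comm (G.op ℓ) fun _ _ => G.op_comm _ _ _

theorem Tor.smul {n : F} (h : G.Tor H S n) (c : ℚ) : G.Tor H S (c • n) :=
  h.comm (c • LinearMap.id) fun _ _ => by simp

theorem Tor.add {m : F} (h : G.Tor H S m) : ∀ {n}, G.Tor H S n → G.Tor H S (m + n) := by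
  induction h with
  | zero => intro n h; rwa [zero_add]
  | step ℓ h1 h2 _ ih =>
    intro n hn
    exact .step ℓ h1 h2 (by rw [map_add]; exact ih (hn.op ℓ))

variable (G H S) in
/-- The torsion submodule. -/
def TorS : Submodule ℚ F where
  carrier := {n | G.Tor H S n}
  zero_mem' := .zero
  add_mem' h h' := Tor.add h h'
  smul_mem' c _ h := Tor.smul h c

theorem Tor.lie {m n : F} (hm : m ∈ G.M S') (hd : Disjoint S' S) (h : G.Tor H S n) :
    G.Tor H (S' ∪ S) ⁅m, n⁆ :=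
  h.map (LieAlgebra.ad ℚ F m) ⊤ (fun _ _ _ => trivial) (fun ℓ h1 h2 =>
    ⟨ℓ, h1, h2.trans Finset.subset_union_right, fun n _ =>
      (op_lie_right hm (hd.mono_right h2) n).symm⟩) trivial

theorem Tor.fin {n : F} (h : G.Tor H S n) :
    ∃ Λ : Finset (ι →₀ ℚ), (∀ ℓ ∈ Λ, H ℓ) ∧ G.Tor (· ∈ Λ) S n := by
  classical
  induction h with
  | zero => exact ⟨∅, by simp, .zero⟩
  | step ℓ h1 h2 _ ih =>
    obtain ⟨Λ, h3, h4⟩ := ih
    refine ⟨insert ℓ Λ, by simpa [h1] using h3, .step ℓ (by simp) h2 ?_⟩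
    exact h4.mono (fun _ h _ => Finset.mem_insert_of_mem h) subset_rfl

section sub
variable {ρ : F →ₗ⁅ℚ⁆ F} {B : ι → Finset ι}

theorem Mon.sub (hx : ρ G.x = G.x) {e S n} (h : G.Mon e S n) :
    (∀ i ∈ S, ρ (G.y i) ∈ G.M (B i)) → PD S B →
      ρ n ∈ G.M (S.biUnion B) ∧ ∀ i ∈ S, ρ (G.σ i n) = G.op (ind ℚ (B i)) (ρ n) := by
  induction h with
  | gen j =>
    intro h1 _
    have := h1 j (by simp)
    refine ⟨by simpa using this, fun i hi => ?_⟩
    obtain rfl := Finset.mem_singleton.1 hi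
    rw [σ_self, LieHom.map_lie, hx, x_eq_op this]
  | dx _ ih =>
    intro h1 h2
    obtain ⟨h3, h4⟩ := ih h1 h2
    simp only [LieHom.map_lie, hx, σ_x, op_x]
    exact ⟨x_mem h3, fun i hi => by rw [h4 i hi]⟩
  | @br e e' S U m n h h' hd ih ih' =>
    intro h1 h2
    obtain ⟨h3, h4⟩ := ih (fun i hi => h1 i (by simp [hi])) (h2.mono Finset.subset_union_left)
    obtain ⟨h5, h6⟩ := ih' (fun i hi => h1 i (by simp [hi])) (h2.mono Finset.subset_union_right)
    have hD := h2.disj hd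
    simp only [LieHom.map_lie, Finset.union_biUnion]
    refine ⟨lie_mem h3 h5 hD, fun i hi => ?_⟩
    rcases Finset.mem_union.1 hi with hi | hi
    · rw [h'.σ_fix (Finset.disjoint_left.1 hd hi), h4 i hi, op_lie_left h5 (hD.symm.mono_right
        ((ind_supp _ _).trans (Finset.subset_biUnion_of_mem B hi)))]
    · rw [h.σ_fix (Finset.disjoint_right.1 hd hi), h6 i hi, op_lie_right h3 (hD.mono_right
        ((ind_supp _ _).trans (Finset.subset_biUnion_of_mem B hi)))]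

theorem sub_mem (hx : ρ G.x = G.x) (h1 : ∀ i ∈ S, ρ (G.y i) ∈ G.M (B i)) (h2 : PD S B) {n}
    (hn : n ∈ G.M S) : ρ n ∈ G.M (S.biUnion B) :=
  M_map (ρ : F →ₗ[ℚ] F) (fun _ _ h => (h.sub hx h1 h2).1) hn

theorem sub_op (hx : ρ G.x = G.x) (h1 : ∀ i ∈ S, ρ (G.y i) ∈ G.M (B i)) (h2 : PD S B) {n}
    (hn : n ∈ G.M S) {ℓ : ι →₀ ℚ} (hℓ : ℓ.support ⊆ S) :
    ρ (G.op ℓ n) = G.op (push B ℓ) (ρ n) := by
  rw [G.op_eq hℓ, push_eq B hℓ]
  simp only [map_sum, map_smul, LinearMap.sum_apply, LinearMap.smul_apply]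
  refine Finset.sum_congr rfl fun i hi => congrArg _ ?_
  exact M_ext ((ρ : F →ₗ[ℚ] F) ∘ₗ (G.σ i : F →ₗ[ℚ] F)) (G.op (ind ℚ (B i)) ∘ₗ (ρ : F →ₗ[ℚ] F))
    (fun _ _ h => (h.sub hx h1 h2).2 i hi) hn

theorem Tor.sub (hx : ρ G.x = G.x) (h1 : ∀ i ∈ S, ρ (G.y i) ∈ G.M (B i)) (h2 : PD S B)
    (hH : ∀ ℓ, H ℓ → ℓ.support ⊆ S → H' (push B ℓ)) {n} (hn : n ∈ G.M S) (h : G.Tor H S n) :
    G.Tor H' (S.biUnion B) (ρ n) :=
  h.map (ρ : F →ₗ[ℚ] F) (G.M S) (fun ℓ _ h => op_mem h ℓ) (fun ℓ h3 h4 =>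
    ⟨_, hH ℓ h3 h4, push_supp B h4, fun _ hn => sub_op hx h1 h2 hn h4⟩) hn

end sub

end Fr

section co

/-- Coefficient of a monomial. -/
noncomputable def co (a : ι →₀ ℕ) : MvPolynomial ι ℚ ⊗[ℚ] F →ₗ[ℚ] F :=
  (TensorProduct.lid ℚ F).toLinearMap ∘ₗ (MvPolynomial.lcoeff ℚ a).rTensor F

theorem co_tmul (a : ι →₀ ℕ) (p : MvPolynomial ι ℚ) (m : F) :
    co a (p ⊗ₜ[ℚ] m) = p.coeff a • m := rfl

theorem t_add (p p' q : MvPolynomial ι ℚ ⊗[ℚ] F) :
    ⁅p + p', q⁆ = ⁅p, q⁆ + ⁅p', q⁆ ∧ ⁅q, p + p'⁆ = ⁅q, p⁆ + ⁅q, p'⁆ :=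
  ⟨add_lie p p' q, lie_add q p p'⟩

theorem t_zero (q : MvPolynomial ι ℚ ⊗[ℚ] F) :
    ⁅(0 : MvPolynomial ι ℚ ⊗[ℚ] F), q⁆ = 0 ∧ ⁅q, (0 : MvPolynomial ι ℚ ⊗[ℚ] F)⁆ = 0 :=
  ⟨zero_lie q, lie_zero q⟩

theorem co_lie (a : ι →₀ ℕ) (p q : MvPolynomial ι ℚ ⊗[ℚ] F) :
    co a ⁅p, q⁆ = ∑ z ∈ Finset.antidiagonal a, ⁅co z.1 p, co z.2 q⁆ := by
  induction p using TensorProduct.induction_on with
  | zero => rw [(t_zero _).1]; simp
  | add p p' h h' => simp only [(t_add _ _ _).1, add_lie, map_add, h, h', Finset.sum_add_distrib]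
  | tmul r m =>
    induction q using TensorProduct.induction_on with
    | zero => rw [(t_zero _).2]; simp
    | add p p' h h' =>
      simp only [(t_add _ _ _).2, lie_add, map_add, h, h', Finset.sum_add_distrib]
    | tmul s n =>
      simp [co_tmul, MvPolynomial.coeff_mul, Finset.sum_smul, smul_smul, mul_comm]

theorem co_lie_mon (a b : ι →₀ ℕ) (p : MvPolynomial ι ℚ ⊗[ℚ] F) (n : F) :
    co (a + b) ⁅p, MvPolynomial.monomial b (1 : ℚ) ⊗ₜ[ℚ] n⁆ = ⁅co a p, n⁆ := by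
  induction p using TensorProduct.induction_on with
  | zero => rw [(t_zero _).1]; simp
  | add p p' h h' => simp only [(t_add _ _ _).1, add_lie, map_add, h, h']
  | tmul r m => simp [co_tmul, MvPolynomial.coeff_mul_monomial]

theorem co_fin (p : MvPolynomial ι ℚ ⊗[ℚ] F) : ∃ s : Finset (ι →₀ ℕ), ∀ a ∉ s, co a p = 0 := by
  induction p using TensorProduct.induction_on with
  | zero => exact ⟨∅, by simp⟩
  | add p p' h h' =>
    obtain ⟨s, h⟩ := h
    obtain ⟨s', h'⟩ := h'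
    refine ⟨s ∪ s', fun a ha => ?_⟩
    rw [Finset.notMem_union] at ha
    rw [map_add, h a ha.1, h' a ha.2, add_zero]
  | tmul r m =>
    exact ⟨r.support, fun a ha => by rw [co_tmul, MvPolynomial.notMem_support_iff.1 ha, zero_smul]⟩

theorem ind_inj {S U : Finset ι} (h : ind ℕ S = ind ℕ U) : S = U := by
  ext j
  have := DFunLike.congr_fun h j
  simp only [ind_apply] at this
  split_ifs at this <;> simp_all

theorem anti {U : Finset ι} {a b : ι →₀ ℕ} (h : a + b = ind ℕ U) :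
    ∃ S S' : Finset ι, Disjoint S S' ∧ S ∪ S' = U ∧ a = ind ℕ S ∧ b = ind ℕ S' := by
  have h1 : ∀ j, a j + b j = if j ∈ U then 1 else 0 := fun j => by
    rw [← ind_apply, ← h]; rfl
  refine ⟨a.support, b.support, ?_, ?_, ?_, ?_⟩
  · rw [Finset.disjoint_left]
    intro j ha hb
    have := h1 j
    rw [Finsupp.mem_support_iff] at ha hb
    split_ifs at this <;> omega
  · ext j
    have := h1 j
    simp only [Finset.mem_union, Finsupp.mem_support_iff]
    split_ifs at this with hj <;> simp only [hj, iff_true, iff_false] <;> omega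
  · ext j
    have := h1 j
    simp only [ind_apply, Finsupp.mem_support_iff]
    split_ifs at this ⊢ <;> omega
  · ext j
    have := h1 j
    simp only [ind_apply, Finsupp.mem_support_iff]
    split_ifs at this ⊢ <;> omega

/-- Squarefree monomial times an element. -/
noncomputable def mon (S : Finset ι) (m : F) : MvPolynomial ι ℚ ⊗[ℚ] F :=
  MvPolynomial.monomial (ind ℕ S) (1 : ℚ) ⊗ₜ[ℚ] m

theorem co_mon (S U : Finset ι) (m : F) : co (ind ℕ U) (mon S m) = if S = U then m else 0 := by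
  rw [mon, co_tmul, MvPolynomial.coeff_monomial]
  by_cases h : S = U
  · simp [h]
  · rw [if_neg h, if_neg fun e => h (ind_inj e), zero_smul]

end co

namespace Fr

variable (G : Fr ι F) (H : (ι →₀ ℚ) → Prop)

/-- Polynomials whose squarefree coefficients are multilinear. -/
def BB : LieSubalgebra ℚ (MvPolynomial ι ℚ ⊗[ℚ] F) where
  carrier := {p | ∀ S, co (ind ℕ S) p ∈ G.M S}
  zero_mem' S := by simp
  add_mem' h h' S := by rw [map_add]; exact add_mem (h S) (h' S)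
  smul_mem' c _ h S := by rw [map_smul]; exact Submodule.smul_mem _ _ (h S)
  lie_mem' {p q} h h' U := by
    rw [co_lie]
    refine Submodule.sum_mem _ fun z hz => ?_
    obtain ⟨S, S', hd, rfl, h1, h2⟩ := anti (Finset.mem_antidiagonal.1 hz)
    rw [h1, h2]
    exact lie_mem (h S) (h' S') hd

/-- Polynomials whose squarefree coefficients are torsion. -/
def JJ : LieIdeal ℚ G.BB where
  carrier := {p | ∀ S, co (ind ℕ S) p.1 ∈ G.TorS H S}
  zero_mem' S := by simp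
  add_mem' h h' S := by
    change co _ (_ + _) ∈ _
    rw [map_add]; exact add_mem (h S) (h' S)
  smul_mem' c _ h S := by
    change co _ (_ • _) ∈ _
    rw [map_smul]; exact Submodule.smul_mem _ _ (h S)
  lie_mem {p q} h U := by
    change co _ ⁅p.1, q.1⁆ ∈ _
    rw [co_lie]
    refine Submodule.sum_mem _ fun z hz => ?_
    obtain ⟨S, S', hd, rfl, h1, h2⟩ := anti (Finset.mem_antidiagonal.1 hz)
    rw [h1, h2]
    exact Tor.lie (p.2 S) hd (h S')

/-- The truncated algebra modulo torsion. -/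
def Trunc : Type := G.BB ⧸ G.JJ H

noncomputable instance : LieRing (G.Trunc H) := inferInstanceAs (LieRing (G.BB ⧸ G.JJ H))

noncomputable instance : LieAlgebra ℚ (G.Trunc H) :=
  inferInstanceAs (LieAlgebra ℚ (G.BB ⧸ G.JJ H))

theorem hs_trunc : HS F (G.Trunc H) := ((HS.base.tens ι).subalg G.BB).quot (G.JJ H)

/-- The projection to the truncated algebra. -/
noncomputable def pr : G.BB →ₗ⁅ℚ⁆ G.Trunc H := qm (G.JJ H)

theorem pr_eq {p q : G.BB} (h : ∀ S, G.Tor H S (co (ind ℕ S) (p.1 - q.1))) :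
    G.pr H p = G.pr H q := by
  rw [← sub_eq_zero, ← map_sub]
  exact qm_eq_zero.2 h

theorem mon_mem {S m} (h : m ∈ G.M S) : mon S m ∈ G.BB := fun U => by
  rw [co_mon]
  split_ifs with e
  · exact e ▸ h
  · exact zero_mem _

open Classical in
/-- The class of a multilinear element. -/
noncomputable def inn (S : Finset ι) (m : F) : G.Trunc H :=
  if h : m ∈ G.M S then G.pr H ⟨mon S m, G.mon_mem h⟩ else 0

variable {G H}

theorem inn_of {S m} (h : m ∈ G.M S) : G.inn H S m = G.pr H ⟨mon S m, G.mon_mem h⟩ := dif_pos h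

theorem inn_add {S m n} (h : m ∈ G.M S) (h' : n ∈ G.M S) :
    G.inn H S (m + n) = G.inn H S m + G.inn H S n := by
  rw [inn_of h, inn_of h', inn_of (add_mem h h'), ← map_add]
  congr 2
  exact tmul_add _ _ _

theorem inn_smul {S m} (h : m ∈ G.M S) (c : ℚ) : G.inn H S (c • m) = c • G.inn H S m := by
  rw [inn_of h, inn_of (Submodule.smul_mem _ c h), ← map_smul]
  congr 2
  exact tmul_smul _ _ _

theorem inn_eq_zero {S m} (h : m ∈ G.M S) : G.inn H S m = 0 ↔ G.Tor H S m := by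
  rw [inn_of h]
  refine qm_eq_zero.trans ⟨fun hh => ?_, fun hh U => ?_⟩
  · have : co _ (mon S m) ∈ _ := hh S
    rwa [co_mon, if_pos rfl] at this
  change co _ (mon S m) ∈ _
  rw [co_mon]
  split_ifs with e
  · exact e ▸ hh
  · exact zero_mem _

theorem inn_zero (S : Finset ι) : G.inn H S 0 = 0 := (inn_eq_zero (zero_mem _)).2 .zero

theorem inn_sum {κ : Type} {S} (s : Finset κ) {m : κ → F} (h : ∀ k ∈ s, m k ∈ G.M S) :
    G.inn H S (∑ k ∈ s, m k) = ∑ k ∈ s, G.inn H S (m k) := by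
  classical
  induction s using Finset.induction_on with
  | empty => simp [inn_zero]
  | insert a s ha ih =>
    have h' : ∀ k ∈ s, m k ∈ G.M S := fun k hk => h k (Finset.mem_insert_of_mem hk)
    rw [Finset.sum_insert ha, Finset.sum_insert ha,
      inn_add (h a (by simp)) (Submodule.sum_mem _ h'), ih h']

theorem inn_lie {S U m n} (h : m ∈ G.M S) (h' : n ∈ G.M U) :
    ⁅G.inn H S m, G.inn H U n⁆ = if Disjoint S U then G.inn H (S ∪ U) ⁅m, n⁆ else 0 := by
  rw [inn_of h, inn_of h', ← LieHom.map_lie]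
  have e : ⁅mon S m, mon U n⁆ =
      MvPolynomial.monomial (ind ℕ S + ind ℕ U) (1 : ℚ) ⊗ₜ[ℚ] ⁅m, n⁆ := by
    simp [mon, MvPolynomial.monomial_mul]
  split_ifs with hd
  · rw [inn_of (lie_mem h h' hd)]
    refine congrArg _ (Subtype.ext ?_)
    change ⁅mon S m, mon U n⁆ = mon _ _
    rw [e, mon, ind_union _ hd]
  · refine qm_eq_zero.2 fun V => ?_
    change co _ ⁅mon S m, mon U n⁆ ∈ _
    rw [e, co_tmul, MvPolynomial.coeff_monomial, if_neg, zero_smul]
    · exact zero_mem _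
    · intro e'
      obtain ⟨S', U', h1, -, h2, h3⟩ := anti e'
      exact hd (ind_inj h2 ▸ ind_inj h3 ▸ h1)

theorem trunc_span (u : G.Trunc H) :
    u ∈ Submodule.span ℚ {v | ∃ S m, m ∈ G.M S ∧ G.inn H S m = v} := by
  obtain ⟨p, rfl⟩ := qm_surj (G.JJ H) u
  obtain ⟨s, hs⟩ := co_fin p.1
  let s' : Finset (Finset ι) := s.preimage (ind ℕ) fun _ _ _ _ h => ind_inj h
  have : G.pr H p = G.pr H (∑ S ∈ s', ⟨mon S (co (ind ℕ S) p.1), G.mon_mem (p.2 S)⟩) := by
    refine G.pr_eq H fun U => ?_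
    rw [map_sub, AddSubmonoidClass.coe_finsetSum, map_sum]
    simp only [co_mon, Finset.sum_ite_eq']
    split_ifs with hU
    · rw [sub_self]; exact .zero
    · rw [hs _ (fun h => hU (Finset.mem_preimage.2 h)), sub_self]; exact .zero
  change G.pr H p ∈ _
  rw [this, map_sum]
  exact Submodule.sum_mem _ fun S _ =>
    Submodule.subset_span ⟨S, _, p.2 S, inn_of (p.2 S)⟩

theorem trunc_comp {u : G.Trunc H} (hu : u ≠ 0) : ∃ S m, m ∈ G.M S ∧ ¬ G.Tor H S m ∧
    ∀ U n, Disjoint S U → n ∈ G.M U → ⁅u, G.inn H U n⁆ = 0 → G.Tor H (S ∪ U) ⁅m, n⁆ := by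
  obtain ⟨p, rfl⟩ := qm_surj (G.JJ H) u
  have : ¬ ∀ S, co (ind ℕ S) p.1 ∈ G.TorS H S := fun h => hu (qm_eq_zero.2 h)
  obtain ⟨S, hS⟩ := not_forall.1 this
  refine ⟨S, _, p.2 S, hS, fun U n hd hn h => ?_⟩
  rw [inn_of hn] at h
  have h1 : G.pr H ⁅p, (⟨mon U n, G.mon_mem hn⟩ : G.BB)⁆ = 0 := by
    rw [LieHom.map_lie]; exact h
  have h2 : co _ ⁅p.1, mon U n⁆ ∈ _ := qm_eq_zero.1 h1 (S ∪ U)
  rwa [ind_union _ hd, mon, co_lie_mon] at h2

section ev
variable {ρ : F →ₗ⁅ℚ⁆ F} {B : ι → Finset ι} {φ : F →ₗ⁅ℚ⁆ G.Trunc H}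

theorem Mon.ev (hx : ρ G.x = G.x) {e S n} (h : G.Mon e S n) : e = 0 →
    (∀ i ∈ S, ρ (G.y i) ∈ G.M (B i)) → (∀ i ∈ S, φ (G.y i) = G.inn H (B i) (ρ (G.y i))) →
      (PD S B → φ n = G.inn H (S.biUnion B) (ρ n)) ∧ (¬ PD S B → φ n = 0) := by
  induction h with
  | gen j =>
    intro _ _ h2
    refine ⟨fun _ => by simpa using h2 j (by simp), fun h => absurd ?_ h⟩
    intro a ha b hb hab
    exact absurd ((Finset.mem_singleton.1 ha).trans (Finset.mem_singleton.1 hb).symm) hab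
  | dx _ _ => intro h; omega
  | @br e e' S U m n h h' hd ih ih' =>
    intro he h1 h2
    have a1 : ∀ i ∈ S, ρ (G.y i) ∈ G.M (B i) := fun i hi => h1 i (by simp [hi])
    have a2 : ∀ i ∈ U, ρ (G.y i) ∈ G.M (B i) := fun i hi => h1 i (by simp [hi])
    obtain ⟨h3, h4⟩ := ih (by omega) a1 fun i hi => h2 i (by simp [hi])
    obtain ⟨h5, h6⟩ := ih' (by omega) a2 fun i hi => h2 i (by simp [hi])
    simp only [LieHom.map_lie, Finset.union_biUnion]
    have key : PD S B → PD U B → ⁅φ m, φ n⁆ = if Disjoint (S.biUnion B) (U.biUnion B) then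
        G.inn H (S.biUnion B ∪ U.biUnion B) ⁅ρ m, ρ n⁆ else 0 := fun p q => by
      rw [h3 p, h5 q, inn_lie (h.sub hx a1 p).1 (h'.sub hx a2 q).1]
    refine ⟨fun p => ?_, fun p => ?_⟩
    · rw [key (p.mono Finset.subset_union_left) (p.mono Finset.subset_union_right),
        if_pos (p.disj hd)]
    · by_cases q : PD S B
      · by_cases r : PD U B
        · rw [key q r, if_neg fun d => p (q.union r d)]
        · rw [h6 r, lie_zero]
      · rw [h4 q, zero_lie]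

theorem ev_pd (hx : ρ G.x = G.x) {S n} (h : n ∈ G.Ml 1 S) (h1 : ∀ i ∈ S, ρ (G.y i) ∈ G.M (B i))
    (h2 : ∀ i ∈ S, φ (G.y i) = G.inn H (B i) (ρ (G.y i))) (p : PD S B) :
    φ n = G.inn H (S.biUnion B) (ρ n) := by
  induction h using Submodule.span_induction with
  | mem m hm =>
    obtain ⟨e, he, hm⟩ := hm
    exact (hm.ev hx (by omega) h1 h2).1 p
  | zero => simp [inn_zero]
  | add a b ha hb iha ihb =>
    rw [map_add, map_add, iha, ihb,
      inn_add (sub_mem hx h1 p (Ml_le _ _ ha)) (sub_mem hx h1 p (Ml_le _ _ hb))]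
  | smul c a ha iha => rw [map_smul, map_smul, iha, inn_smul (sub_mem hx h1 p (Ml_le _ _ ha))]

theorem ev_npd (hx : ρ G.x = G.x) {S n} (h : n ∈ G.Ml 1 S) (h1 : ∀ i ∈ S, ρ (G.y i) ∈ G.M (B i))
    (h2 : ∀ i ∈ S, φ (G.y i) = G.inn H (B i) (ρ (G.y i))) (p : ¬ PD S B) : φ n = 0 :=
  LinearMap.eqOn_span (f := (φ : F →ₗ[ℚ] G.Trunc H)) (g := 0)
    (fun _ hm => hm.elim fun _ hm => (hm.2.ev hx (by omega) h1 h2).2 p) h

end ev

theorem lev_mon : ∀ (t : T) (e : t.Lf → ι), Injective e →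
    G.Mon 0 (Finset.univ.image e) (lev t fun i => G.y (e i))
  | .lf, e, _ => by
    have : Finset.univ.image e = {e ()} := by
      ext j
      simp only [Finset.mem_image, Finset.mem_univ, true_and, Finset.mem_singleton]
      exact ⟨fun ⟨_, h⟩ => h.symm, fun h => ⟨(), h.symm⟩⟩
    rw [this]; exact Mon.gen _
  | .nd a b, e, he => by
    have : Finset.univ.image e =
        Finset.univ.image (e ∘ il a b) ∪ Finset.univ.image (e ∘ ir a b) := by
      ext j
      simp only [Finset.mem_image, Finset.mem_univ, true_and, Finset.mem_union]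
      exact ⟨fun ⟨i, h⟩ => by rcases i with i | i; exacts [.inl ⟨i, h⟩, .inr ⟨i, h⟩],
        fun h => h.elim (fun ⟨_, h⟩ => ⟨_, h⟩) fun ⟨_, h⟩ => ⟨_, h⟩⟩
    rw [this]
    refine (lev_mon a _ (he.comp (il_inj a b))).br (lev_mon b _ (he.comp (ir_inj a b))) ?_
    rw [Finset.disjoint_left]
    simp only [Finset.mem_image, Finset.mem_univ, true_and, not_exists]
    rintro _ ⟨i, rfl⟩ j h
    exact il_ne_ir a b i j (he h).symm

/-- The hypothesis that a product of nonzero forms kills a derived word. -/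
def PH (G : Fr ι F) : Prop := ∃ (d : ℕ) (e : (full d).Lf → ι), Injective e ∧
  G.Tor (· ≠ 0) (Finset.univ.image e) (lev (full d) fun i => G.y (e i))

theorem PH_of_trunc [Infinite ι] {d : ℕ}
    (h : ∀ a : (full d).Lf → G.Trunc (· ≠ 0), lev (full d) a = 0) : G.PH := by
  obtain ⟨e, he⟩ := exists_injective_nat (full d).Lf
  let e' := Infinite.natEmbedding ι ∘ e
  have he' : Injective e' := (Infinite.natEmbedding ι).injective.comp he
  have hm := lev_mon (G := G) _ e' he'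
  refine ⟨d, e', he', (inn_eq_zero hm.mem).1 ?_⟩
  have := ev_pd (H := (· ≠ 0)) (ρ := LieHom.id) (B := fun i => {i})
    (φ := G.hom (G.hs_trunc _) 0 fun i => G.inn _ {i} (G.y i)) rfl (hm.meml one_pos)
    (fun i _ => y_mem i) (fun i _ => G.hom_y _ _ _ i) (fun i _ j _ h => by simpa using h)
  rw [Finset.biUnion_singleton_eq_self, lev_hom, h] at this
  exact this.symm

end Fr

end Pool.Agent.MP_2a197d_al.KY
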