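import Mathlib.Topology.Sheaves.Presheaf
import Mathlib.Algebra.Module.Submodule.Union
import Mathlib.RingTheory.PiTensorProduct
import Pool.Agent.MP_2a197d_al.Env
import Pool.Agent.MP_2a197d_al.KA

-- ======== part 0: formerly Pool.Agent.MP_2a197d_al.EG1
section MrgPart0

/-! End game, part 1: thick pairs, the filtration by thickness, and the passage from a
nilpotent relative ideal to a thick pair. -/

set_option linter.unusedSectionVars false

namespace Pool.Agent.MP_2a197d_al.EG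

universe u

variable {M : Type u} [LieRing M]

/-- The word `l` in the operators `ad`, applied to `y`. -/
def adw (l : List M) (y : M) : M := l.foldr (fun m v => ⁅m, v⁆) y

@[simp] theorem adw_nil (y : M) : adw [] y = y := rfl

@[simp] theorem adw_cons (m : M) (l : List M) (y : M) : adw (m :: l) y = ⁅m, adw l y⁆ := rfl

theorem adw_append (l l' : List M) (y : M) : adw (l ++ l') y = adw l (adw l' y) := by
  simp [adw]

theorem adw_snoc (l : List M) (m y : M) : adw (l ++ [m]) y = adw l ⁅m, y⁆ := by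
  rw [adw_append]; rfl

theorem adw_add (l : List M) (x y : M) : adw l (x + y) = adw l x + adw l y := by
  induction l with
  | nil => rfl
  | cons m l ih => simp [ih]

theorem adw_neg (l : List M) (x : M) : adw l (-x) = -adw l x := by
  induction l with
  | nil => rfl
  | cons m l ih => simp [ih]

@[simp] theorem adw_zero (l : List M) : adw l (0 : M) = 0 := by
  induction l with
  | nil => rfl
  | cons m l ih => simp [ih]

theorem adw_swap (l : List M) (x y : M) : adw l ⁅x, y⁆ = -adw l ⁅y, x⁆ := by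
  rw [← adw_neg, lie_skew]

/-- `(u, v)` is a `k`-thick pair. -/
def Thick (k : ℕ) (u v : M) : Prop := ∀ l : List M, l.length ≤ k → ⁅adw l u, v⁆ = 0

/-- There is no `s`-thick pair of nonzero elements. -/
def NT (M : Type u) [LieRing M] (s : ℕ) : Prop := ∀ u v : M, Thick s u v → u = 0 ∨ v = 0

/-- All words of length at most `k` send `u` into `S`. -/
def Lev (S : AddSubgroup M) (k : ℕ) (u : M) : Prop := ∀ l : List M, l.length ≤ k → adw l u ∈ S

section Lev

variable {S : AddSubgroup M}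

theorem Lev.mem {k : ℕ} {u : M} (h : Lev S k u) : u ∈ S := h [] (by simp)

theorem lev_zero {u : M} (h : u ∈ S) : Lev S 0 u := fun l hl => by
  rw [List.length_eq_zero_iff.1 (Nat.le_zero.1 hl)]; exact h

theorem Lev.br {k : ℕ} {u : M} (h : Lev S (k + 1) u) (y : M) : Lev S k ⁅y, u⁆ := fun l hl => by
  rw [← adw_snoc]; exact h _ (by simp; omega)

theorem lev_succ {k : ℕ} {u : M} (h0 : u ∈ S) (h : ∀ y : M, Lev S k ⁅y, u⁆) :
    Lev S (k + 1) u := fun l hl => by
  rcases List.eq_nil_or_concat l with rfl | ⟨l', y, rfl⟩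
  · exact h0
  · rw [List.concat_eq_append, adw_snoc]; exact h y l' (by simp at hl; omega)

theorem Lev.add {k : ℕ} {u v : M} (h : Lev S k u) (h' : Lev S k v) : Lev S k (u + v) :=
  fun l hl => by rw [adw_add]; exact S.add_mem (h l hl) (h' l hl)

theorem Lev.neg {k : ℕ} {u : M} (h : Lev S k u) : Lev S k (-u) :=
  fun l hl => by rw [adw_neg]; exact S.neg_mem (h l hl)

theorem Lev.mono {k j : ℕ} {u : M} (h : Lev S k u) (hj : j ≤ k) : Lev S j u :=
  fun l hl => h l (hl.trans hj)

/-- The standard filtration of a subalgebra. -/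
theorem Lev.fil (hS : ∀ u ∈ S, ∀ v ∈ S, ⁅u, v⁆ ∈ S) :
    ∀ (n i j : ℕ) (u v : M), i + j = n → Lev S i u → Lev S j v → Lev S n ⁅u, v⁆ := by
  intro n
  induction n with
  | zero => intro i j u v _ hu hv; exact lev_zero (hS _ hu.mem _ hv.mem)
  | succ n ih =>
    intro i j u v h hu hv
    refine lev_succ (hS _ hu.mem _ hv.mem) fun y => ?_
    rw [leibniz_lie]
    refine Lev.add ?_ ?_
    · rcases i with _ | i
      · obtain rfl : j = n + 1 := by omega
        exact hv.br _
      · exact ih i j _ _ (by omega) (hu.br y) hv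
    · rcases j with _ | j
      · obtain rfl : i = n + 1 := by omega
        rw [← lie_skew]; exact (hu.br _).neg
      · exact ih i j _ _ (by omega) hu (hv.br y)

variable {N : Set M}

theorem Lev.g1 (hN : ∀ y : M, ∀ n ∈ N, ⁅y, n⁆ ∈ N) (hS : ∀ n ∈ N, ∀ v ∈ S, ⁅n, v⁆ ∈ S) :
    ∀ (k : ℕ) (u n : M), n ∈ N → Lev S k u → Lev S k ⁅n, u⁆ := by
  intro k
  induction k with
  | zero => intro u n hn hu; exact lev_zero (hS _ hn _ hu.mem)
  | succ k ih =>
    intro u n hn hu
    refine lev_succ (hS _ hn _ hu.mem) fun y => ?_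
    rw [leibniz_lie]
    exact (ih _ _ (hN y n hn) (hu.mono (by omega))).add (ih _ _ hn (hu.br y))

theorem Lev.g2 (hN : ∀ y : M, ∀ n ∈ N, ⁅y, n⁆ ∈ N) (hS : ∀ n ∈ N, ∀ v ∈ S, ⁅n, v⁆ ∈ S)
    {b : M} (hb : b ∈ N) (hbS : b ∈ S) :
    ∀ (k : ℕ) (u : M), u ∈ N → Lev S k u → Lev S (k + 1) ⁅b, u⁆ := by
  intro k
  induction k with
  | zero =>
    intro u hu h
    refine lev_succ (hS _ hb _ h.mem) fun y => lev_zero ?_
    rw [leibniz_lie]
    refine S.add_mem (hS _ (hN y b hb) _ h.mem) ?_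
    rw [← lie_skew]; exact S.neg_mem (hS _ (hN y u hu) _ hbS)
  | succ k ih =>
    intro u hu h
    refine lev_succ (hS _ hb _ h.mem) fun y => ?_
    rw [leibniz_lie]
    exact (Lev.g1 hN hS _ _ _ (hN y b hb) h).add (ih _ (hN y u hu) (h.br y))

end Lev

/-- The centraliser. -/
def cen (c : M) : AddSubgroup M where
  carrier := {u | ⁅u, c⁆ = 0}
  add_mem' := fun {a b} ha hb => by
    simp only [Set.mem_ofPred_eq] at *; rw [add_lie, ha, hb, add_zero]
  zero_mem' := by simp
  neg_mem' := fun {a} ha => by simp only [Set.mem_ofPred_eq] at *; rw [neg_lie, ha, neg_zero]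

theorem cen_br (c : M) : ∀ u ∈ cen c, ∀ v ∈ cen c, ⁅u, v⁆ ∈ cen c := fun u hu v hv => by
  have hu' : ⁅u, c⁆ = 0 := hu
  have hv' : ⁅v, c⁆ = 0 := hv
  show ⁅⁅u, v⁆, c⁆ = 0
  rw [lie_lie, hu', hv']; simp

theorem lev_word {c : M} (W : List M) (hW : ∀ m ∈ W, m ∈ cen c) {k : ℕ} {v : M}
    (hv : Lev (cen c) k v) : Lev (cen c) k (adw W v) := by
  induction W with
  | nil => exact hv
  | cons m W ih =>
    exact Lev.fil (cen_br c) k 0 k _ _ (by omega) (lev_zero (hW m (by simp)))
      (ih fun x hx => hW x (by simp [hx]))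

theorem lev_nest {c : M} (A : List M) (hA : ∀ m ∈ A, Lev (cen c) 1 m) {v : M}
    (hv : Lev (cen c) 1 v) : Lev (cen c) (A.length + 1) (adw A v) := by
  induction A with
  | nil => exact hv
  | cons m A ih =>
    exact Lev.fil (cen_br c) _ 1 (A.length + 1) _ _ (by simp; omega) (hA m (by simp))
      (ih fun x hx => hA x (by simp [hx]))

/-- A longest nonzero product. -/
theorem exists_top (S T : Set M) (n : ℕ)
    (h : ∀ l : List M, (∀ m ∈ l, m ∈ S) → l.length = n → ∀ v ∈ T, adw l v = 0)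
    {a : M} (ha : a ∈ T) (h0 : a ≠ 0) :
    ∃ (l : List M) (v : M), (∀ m ∈ l, m ∈ S) ∧ v ∈ T ∧ adw l v ≠ 0 ∧
      ∀ m ∈ S, ⁅m, adw l v⁆ = 0 := by
  induction n with
  | zero => exact absurd (h [] (by simp) rfl a ha) h0
  | succ n ih =>
    by_contra hc
    refine hc (ih fun l hl hn v hv => ?_)
    by_contra hne
    refine hc ⟨l, v, hl, hv, hne, fun m hm => h (m :: l) ?_ (by simp [hn]) v hv⟩
    intro x hx
    rcases List.mem_cons.1 hx with rfl | hx
    · exact hm
    · exact hl x hx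

/-- Everything killed by the words that kill `S`. -/
def hull (S : Set M) : Set M := {y | ∀ l : List M, (∀ o ∈ S, adw l o = 0) → adw l y = 0}

theorem sub_hull {S : Set M} {o : M} (h : o ∈ S) : o ∈ hull S := fun _ hl => hl o h

theorem hull_mono {S T : Set M} (h : S ⊆ hull T) : hull S ⊆ hull T :=
  fun _ hy l hl => hy l fun _ ho => h ho l hl

theorem hull_br {S : Set M} {f : M} (h : ∀ o ∈ S, ⁅f, o⁆ ∈ hull S) {y : M} (hy : y ∈ hull S) :
    ⁅f, y⁆ ∈ hull S := fun l hl => by
  rw [← adw_snoc]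
  exact hy _ fun o ho => by rw [adw_snoc]; exact h o ho l hl

theorem hull_br' {S O : Set M} (h : ∀ f ∈ O, ∀ o ∈ S, ⁅f, o⁆ ∈ hull S) {f : M} (hf : f ∈ hull O)
    {y : M} (hy : y ∈ hull S) : ⁅f, y⁆ ∈ hull S := fun l hl => by
  rw [adw_swap, ← adw_snoc, hf (l ++ [y]), neg_zero]
  intro o ho
  rw [adw_snoc, adw_swap, hull_br (h o ho) hy l hl, neg_zero]

theorem hull_nil {I : Set M} {s : ℕ}
    (h : ∀ l : List M, (∀ m ∈ l, m ∈ I) → l.length = s → ∀ v ∈ I, adw l v = 0) :
    ∀ l : List M, (∀ m ∈ l, m ∈ hull I) → l.length = s → ∀ v ∈ hull I, adw l v = 0 := by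
  have key : ∀ A : List M, (∀ m ∈ A, m ∈ hull I) → ∀ B : List M, (∀ m ∈ B, m ∈ I) →
      A.length + B.length = s → ∀ v ∈ I, adw (A ++ B) v = 0 := by
    intro A
    induction A using List.reverseRecOn with
    | nil => intro _ B hB hs v hv; exact h B hB (by simpa using hs) v hv
    | append_singleton A y ih =>
      intro hA B hB hs v hv
      rw [adw_append, adw_snoc, adw_swap, ← adw_snoc, hA y (by simp), neg_zero]
      intro o ho
      rw [adw_snoc, adw_swap]
      have := ih (fun m hm => hA m (by simp [hm])) (o :: B)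
        (by intro m hm; rcases List.mem_cons.1 hm with rfl | hm; exacts [ho, hB m hm])
        (by simp at hs ⊢; omega) v hv
      rw [adw_append, adw_cons] at this
      rw [this, neg_zero]
  intro l hl hs v hv
  exact hv l fun o ho => by simpa using key l hl [] (by simp) (by simpa using hs) o ho

/-- Elements all of whose `N`-words commute with `w`. -/
def sig (N : Set M) (w : M) : AddSubgroup M where
  carrier := {y | ∀ W : List M, (∀ m ∈ W, m ∈ N) → ⁅adw W y, w⁆ = 0}
  add_mem' := fun {a b} ha hb W hW => by rw [adw_add, add_lie, ha W hW, hb W hW, add_zero]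
  zero_mem' := fun W _ => by simp
  neg_mem' := fun {a} ha W hW => by rw [adw_neg, neg_lie, ha W hW, neg_zero]

theorem sig_br {N : Set M} {w : M} : ∀ n ∈ N, ∀ v ∈ sig N w, ⁅n, v⁆ ∈ sig N w :=
  fun n hn v hv W hW => by
    rw [← adw_snoc]
    refine hv _ fun m hm => ?_
    rcases List.mem_append.1 hm with hm | hm
    · exact hW m hm
    · rw [List.mem_singleton.1 hm]; exact hn

theorem sig_br' {N : Set M} {w b n : M} (hn : n ∈ N) (h : b ∈ sig N w) : b ∈ sig N ⁅n, w⁆ :=
  fun W hW => by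
    have h1 : ⁅⁅n, adw W b⁆, w⁆ = 0 := h (n :: W) (by
      intro m hm; rcases List.mem_cons.1 hm with rfl | hm; exacts [hn, hW m hm])
    rw [lie_lie, h W hW, lie_zero, zero_sub, neg_eq_zero] at h1
    exact h1

theorem adw_mem {N : Set M} (hN : ∀ y : M, ∀ n ∈ N, ⁅y, n⁆ ∈ N) (l : List M) {v : M}
    (hv : v ∈ N) : adw l v ∈ N := by
  induction l with
  | nil => exact hv
  | cons m l ih => exact hN _ _ ih

/-- A product of `s + 1` elements generating abelian ideals of the ideal `N` is `s`-thick. -/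
theorem ab_thick {N : Set M} (hN : ∀ y : M, ∀ n ∈ N, ⁅y, n⁆ ∈ N) (l : List M) (v : M)
    (hl : ∀ m ∈ l, m ∈ N ∧ m ∈ sig N m) (hv : v ∈ N ∧ v ∈ sig N v) :
    Thick l.length (adw l v) (adw l v) := by
  have h1 : v ∈ sig N (adw l v) ∧ ∀ m ∈ l, m ∈ sig N (adw l v) := by
    induction l with
    | nil => exact ⟨hv.2, by simp⟩
    | cons b l ih =>
      have ih := ih fun m hm => hl m (by simp [hm])
      have hb := hl b (by simp)
      refine ⟨sig_br' hb.1 ih.1, fun m hm => ?_⟩
      rcases List.mem_cons.1 hm with rfl | hm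
      · intro W hW
        have := sig_br' (adw_mem hN l hv.1) hb.2 W hW
        rw [adw_cons, ← lie_skew m, lie_neg, this, neg_zero]
      · exact sig_br' hb.1 (ih.2 m hm)
  have h2 : ∀ (w : M) (l' : List M), (∀ m ∈ l', m ∈ N ∧ m ∈ sig N w) → v ∈ sig N w →
      Lev (sig N w) l'.length (adw l' v) := by
    intro w l' h hw
    induction l' with
    | nil => exact lev_zero hw
    | cons b l' ih =>
      exact Lev.g2 hN sig_br (h b (by simp)).1 (h b (by simp)).2 _ _ (adw_mem hN l' hv.1)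
        (ih fun m hm => h m (by simp [hm]))
  intro W hW
  exact h2 _ l (fun m hm => ⟨(hl m hm).1, h1.2 m hm⟩) h1.1 W hW [] (by simp)

/-- If the elements generating abelian ideals of `N` span an ideal, they vanish. -/
theorem ab_zero {s : ℕ} (hs : NT M s) {N : Set M} (hN : ∀ y : M, ∀ n ∈ N, ⁅y, n⁆ ∈ N)
    (hB : ∀ y : M, ∀ b ∈ {b | b ∈ N ∧ b ∈ sig N b}, ⁅y, b⁆ ∈ hull {b | b ∈ N ∧ b ∈ sig N b})
    {b : M} (hb : b ∈ N ∧ b ∈ sig N b) : b = 0 := by
  by_contra h0
  obtain ⟨l, v, -, -, hw, hc⟩ := exists_top {b | b ∈ N ∧ b ∈ sig N b} {b | b ∈ N ∧ b ∈ sig N b} s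
    (fun l hl hn v hv => (hs _ _ (hn ▸ ab_thick hN l v hl hv)).elim id id) hb h0
  refine (hs b (adw l v) fun W _ => ?_).elim h0 hw
  have := adw_mem (N := hull {b | b ∈ N ∧ b ∈ sig N b}) (fun y n hn => hull_br (hB y) hn) W
    (sub_hull hb) [adw l v] fun o ho => by
      rw [adw_cons, adw_nil, ← lie_skew, hc o ho, neg_zero]
  rw [adw_cons, adw_nil] at this
  rw [← lie_skew, this, neg_zero]

/-- A nonzero element of `O` whose words in `O` are nilpotent gives an abelian ideal of the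
hull of `O`. -/
theorem exists_ab {O : Set M} (hN : ∀ y : M, ∀ n ∈ hull O, ⁅y, n⁆ ∈ hull O) {a : M} (ha : a ∈ O)
    (h0 : a ≠ 0) {s : ℕ}
    (h : ∀ l : List M, (∀ m ∈ l, ∃ W : List M, (∀ x ∈ W, x ∈ O) ∧ m = adw W a) → l.length = s →
      ∀ W : List M, (∀ x ∈ W, x ∈ O) → adw l (adw W a) = 0) :
    ∃ b : M, b ≠ 0 ∧ b ∈ hull O ∧ b ∈ sig (hull O) b := by
  set I : Set M := {m | ∃ W : List M, (∀ x ∈ W, x ∈ O) ∧ m = adw W a} with hI
  have hJ := hull_nil (I := I) (s := s) (by rintro l hl hn v ⟨W, hW, rfl⟩; exact h l hl hn W hW)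
  have hJN : hull I ⊆ hull O := hull_mono (by
    rintro _ ⟨W, -, rfl⟩; exact adw_mem hN W (sub_hull ha))
  have hbr : ∀ n ∈ hull O, ∀ y ∈ hull I, ⁅n, y⁆ ∈ hull I := fun n hn y hy =>
    hull_br' (by
      rintro f hf _ ⟨W, hW, rfl⟩
      refine sub_hull ⟨f :: W, ?_, rfl⟩
      intro x hx; rcases List.mem_cons.1 hx with rfl | hx; exacts [hf, hW x hx]) hn hy
  have hw : ∀ W : List M, (∀ m ∈ W, m ∈ hull O) → ∀ y ∈ hull I, adw W y ∈ hull I := by
    intro W hW y hy
    induction W with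
    | nil => exact hy
    | cons m W ih => exact hbr _ (hW m (by simp)) _ (ih fun x hx => hW x (by simp [hx]))
  obtain ⟨l, v, hl, hv, hne, hc⟩ := exists_top (hull I) (hull I) s hJ
    (sub_hull (⟨[], by simp, rfl⟩ : a ∈ I)) h0
  have hb := hw l (fun m hm => hJN (hl m hm)) v hv
  exact ⟨_, hne, hJN hb, fun W hW => hc _ (hw W hW _ hb)⟩

end Pool.Agent.MP_2a197d_al.EG

end MrgPart0

-- ======== part 1: formerly Pool.Agent.MP_2a197d_al.EG4
section MrgPart1

/-! In a prime Lie algebra in which `ad φ (ad x) ^ s` can be shortened for all `φ` in a nonzero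
ideal there is no `s`-thick pair. -/

set_option linter.unusedSectionVars false

namespace Pool.Agent.MP_2a197d_al.EG

universe u

variable {L : Type u} [LieRing L] [LieAlgebra ℚ L]

/-- Polynomial functions with values in a Lie algebra. -/
inductive PL : (ℚ → L) → Prop
  | c (a : L) : PL fun _ => a
  | add {F G : ℚ → L} : PL F → PL G → PL fun t => F t + G t
  | t {F : ℚ → L} : PL F → PL fun t => t • F t

theorem PL.map {F : ℚ → L} (hF : PL F) (f : L →ₗ[ℚ] L) : PL fun t => f (F t) := by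
  induction hF with
  | c a => exact PL.c _
  | add _ _ h1 h2 => simpa only [map_add] using h1.add h2
  | t _ h => simpa only [map_smul] using h.t

theorem PL.zero {F : ℚ → L} (hF : PL F) (h : {t | F t = 0}.Infinite) (t : ℚ) : F t = 0 := by
  refine (Module.forall_dual_apply_eq_zero_iff ℚ _).1 fun φ => ?_
  have : ∃ p : Polynomial ℚ, ∀ t, φ (F t) = p.eval t := by
    clear h
    induction hF with
    | c a => exact ⟨Polynomial.C (φ a), by simp⟩
    | add _ _ h1 h2 =>
      obtain ⟨p, hp⟩ := h1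
      obtain ⟨q, hq⟩ := h2
      exact ⟨p + q, by simp [hp, hq]⟩
    | t _ h1 =>
      obtain ⟨p, hp⟩ := h1
      exact ⟨Polynomial.X * p, by simp [hp]⟩
  obtain ⟨p, hp⟩ := this
  rw [hp, p.eq_zero_of_infinite_isRoot (h.mono fun x hx => ?_), Polynomial.eval_zero]
  have hx' : F x = 0 := hx
  show p.eval x = 0
  rw [← hp, hx', map_zero]

/-- A word as a linear map. -/
def adl (l : List L) : L →ₗ[ℚ] L where
  toFun := adw l
  map_add' := adw_add l
  map_smul' q y := by
    induction l with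
    | nil => rfl
    | cons m l ih => simp only [adw_cons, ih, lie_smul, RingHom.id_apply]

/-- Polarisation: a linear map that kills the shorter words and the powers kills all words. -/
theorem polar (f : L →ₗ[ℚ] L) (u : L) (p : ℕ)
    (h1 : ∀ W : List L, W.length + 1 = p → f (adw W u) = 0)
    (h2 : ∀ x : L, f (adw (List.replicate p x) u) = 0) :
    ∀ W : List L, W.length = p → f (adw W u) = 0 := by
  have key : ∀ (V : List L) (n : ℕ), V.length + n = p → ∀ x : L,
      f (adw V (adw (List.replicate n x) u)) = 0 := by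
    intro V
    induction V using List.reverseRecOn with
    | nil => intro n hn x; obtain rfl : n = p := by simpa using hn
             exact h2 x
    | append_singleton V y ih =>
      intro n hn x
      have hd : ∀ k : ℕ, ∃ h : ℚ → L, PL h ∧
          (∀ t : ℚ, adw (List.replicate (k + 1) (x + t • y)) u =
            adw (List.replicate (k + 1) x) u + t • h t) ∧
          ∀ U : List L, U.length + k + 1 = p → f (adw U (h 0)) =
            ((k : ℚ) + 1) • f (adw U ⁅y, adw (List.replicate k x) u⁆) := by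
        intro k
        induction k with
        | zero => exact ⟨fun _ => ⁅y, u⁆, PL.c _, fun t => by simp, fun U _ => by simp⟩
        | succ k ihk =>
          obtain ⟨h, hp, he, h0⟩ := ihk
          refine ⟨fun t => ⁅x, h t⁆ + ⁅y, adw (List.replicate (k + 1) x) u⁆ + t • ⁅y, h t⁆,
            ((hp.map (adl [x])).add (PL.c _)).add (hp.map (adl [y])).t, fun t => ?_,
            fun U hU => ?_⟩
          · rw [List.replicate_succ, adw_cons, he, List.replicate_succ (n := k + 1), adw_cons]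
            simp only [add_lie, lie_add, smul_lie, lie_smul, smul_add]
            abel
          · have h3 := h1 (U ++ [⁅x, y⁆] ++ List.replicate k x) (by simp; omega)
            rw [adw_append, adw_snoc] at h3
            beta_reduce
            rw [zero_smul, add_zero, adw_add, map_add, ← adw_snoc U x, h0 _ (by simp; omega),
              adw_snoc, leibniz_lie x y, adw_add, map_add, h3, zero_add, List.replicate_succ,
              adw_cons]
            push_cast
            rw [add_smul ((k : ℚ) + 1), one_smul]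
      obtain ⟨h, hp, he, h0⟩ := hd n
      have hn' : V.length + (n + 1) = p := by simp at hn; omega
      have := (hp.map (f ∘ₗ adl V)).zero
        (((Set.finite_singleton (0 : ℚ)).infinite_compl).mono fun t ht => by
          have h4 := ih (n + 1) hn' (x + t • y)
          rw [he, adw_add, map_add, ih (n + 1) hn' x, zero_add] at h4
          have h5 : t • f (adl V (h t)) = 0 := by rw [← map_smul, ← map_smul]; exact h4
          exact (smul_eq_zero.1 h5).resolve_left ht) 0
      replace this : f (adw V (h 0)) = 0 := this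
      rw [h0 V (by omega)] at this
      rw [adw_snoc]
      exact (smul_eq_zero.1 this).resolve_left (by positivity)
  intro W hW
  exact key W 0 hW u

theorem adw_replicate (x : L) (n : ℕ) (z : L) :
    adw (List.replicate n x) z = (LieAlgebra.ad ℚ L x ^ n) z := by
  induction n with
  | zero => rfl
  | succ n ih => rw [List.replicate_succ, adw_cons, ih, pow_succ', Module.End.mul_apply]; rfl

/-- Primeness in terms of elements. -/
def Pr (L : Type u) [LieRing L] : Prop :=
  ∀ a b : L, (∀ W : List L, ⁅adw W a, b⁆ = 0) → a = 0 ∨ b = 0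

theorem pr_of_ideal (h : ∀ I J : LieIdeal ℚ L, ⁅I, J⁆ = ⊥ → I = ⊥ ∨ J = ⊥) : Pr L := by
  intro a b hab
  let I : LieIdeal ℚ L :=
    { carrier := {y | ∀ W : List L, ⁅adw W y, b⁆ = 0}
      add_mem' := fun {x y} hx hy W => by rw [adw_add, add_lie, hx W, hy W, add_zero]
      zero_mem' := fun W => by simp
      smul_mem' := fun q y hy W => by
        rw [show adw W (q • y) = q • adw W y from (adl W).map_smul q y, smul_lie, hy W, smul_zero]
      lie_mem := fun {x y} hy W => by rw [← adw_snoc]; exact hy _ }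
  let J : LieIdeal ℚ L :=
    { carrier := {y | ∀ x ∈ I, ⁅x, y⁆ = 0}
      add_mem' := fun {x y} hx hy z hz => by rw [lie_add, hx z hz, hy z hz, add_zero]
      zero_mem' := fun z _ => by simp
      smul_mem' := fun q y hy z hz => by rw [lie_smul, hy z hz, smul_zero]
      lie_mem := fun {x y} hy z hz => by
        rw [leibniz_lie, hy z hz, lie_zero, add_zero, hy _ (lie_mem_left ℚ L I z x hz)] }
  refine (h I J ((LieSubmodule.lie_eq_bot_iff _ _).2 fun x hx y hy => hy x hx)).imp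
    (fun h => ?_) fun h => ?_
  · exact (LieSubmodule.mem_bot _).1 (h ▸ (show a ∈ I from hab))
  · exact (LieSubmodule.mem_bot _).1 (h ▸ (show b ∈ J from fun x hx => hx []))

/-- No thick pairs from the shortening identity. -/
theorem nt_of_short (hP : Pr L) (B : Set L) (hB : ∀ y : L, ∀ b ∈ B, ⁅y, b⁆ ∈ Submodule.span ℚ B)
    (hne : ∃ b ∈ B, b ≠ 0) (s : ℕ)
    (hQ : ∀ x : L, ∀ b ∈ B, ∃ c : ℕ → L, (∀ j, c j ∈ Submodule.span ℚ B) ∧ ∀ z : L,
      ⁅b, (LieAlgebra.ad ℚ L x ^ s) z⁆ =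
        ∑ j ∈ Finset.range s, ⁅c j, (LieAlgebra.ad ℚ L x ^ j) z⁆) : NT L s := by
  intro u w huw
  have lin : ∀ v : L, (∀ b ∈ B, ⁅⁅b, v⁆, w⁆ = 0) → ∀ b ∈ Submodule.span ℚ B, ⁅⁅b, v⁆, w⁆ = 0 :=
    fun v h b hb => by
      induction hb using Submodule.span_induction with
      | mem b hb => exact h b hb
      | zero => simp
      | add x y _ _ hx hy => rw [add_lie, add_lie, hx, hy, add_zero]
      | smul q x _ hx => rw [smul_lie, smul_lie, hx, smul_zero]
  have Z : ∀ (p : ℕ) (W : List L), W.length = p → ∀ b ∈ Submodule.span ℚ B,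
      ⁅⁅b, adw W u⁆, w⁆ = 0 := by
    intro p
    induction p using Nat.strong_induction_on with
    | _ p ih =>
      intro W hW
      refine lin _ fun b hb => ?_
      by_cases hp : p < s
      · exact huw (b :: W) (by simp; omega)
      obtain ⟨q, rfl⟩ := Nat.exists_eq_add_of_le (not_lt.1 hp)
      have := polar (adl [w, b]) u (s + q) (fun V hV => ?_) (fun x => ?_) W hW
      · rw [← lie_skew, neg_eq_zero]; exact this
      · show ⁅w, ⁅b, adw V u⁆⁆ = 0
        rw [← lie_skew, ih _ (by omega) V rfl b (Submodule.subset_span hb), neg_zero]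
      · show ⁅w, ⁅b, adw _ u⁆⁆ = 0
        obtain ⟨c, hc, he⟩ := hQ x b hb
        rw [adw_replicate, pow_add, Module.End.mul_apply, he, lie_sum]
        refine Finset.sum_eq_zero fun j hj => ?_
        rw [← Module.End.mul_apply, ← pow_add, ← adw_replicate, ← lie_skew,
          ih (j + q) (by have := Finset.mem_range.1 hj; omega) _ (by simp) _ (hc j), neg_zero]
  have hI : ∀ y : L, ∀ b ∈ Submodule.span ℚ B, ⁅y, b⁆ ∈ Submodule.span ℚ B := fun y b hb => by
    induction hb using Submodule.span_induction with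
    | mem b hb => exact hB y b hb
    | zero => simp
    | add x z _ _ hx hz => rw [lie_add]; exact add_mem hx hz
    | smul q x _ hx => rw [lie_smul]; exact Submodule.smul_mem _ _ hx
  have Z' : ∀ V W : List L, ∀ b ∈ Submodule.span ℚ B, ⁅adw V ⁅b, adw W u⁆, w⁆ = 0 := by
    intro V
    induction V using List.reverseRecOn with
    | nil => exact fun W => Z _ W rfl
    | append_singleton V y ih =>
      intro W b hb
      rw [adw_snoc, leibniz_lie, adw_add, add_lie, ih W _ (hI y b hb), zero_add]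
      exact ih (y :: W) b hb
  obtain ⟨b, hb, hb0⟩ := hne
  by_contra hc
  obtain ⟨hu, hw⟩ := not_or.1 hc
  refine (hP u b fun W => ?_).elim hu hb0
  rw [← lie_skew, (hP _ w fun V => Z' V W b (Submodule.subset_span hb)).resolve_right hw, neg_zero]

end Pool.Agent.MP_2a197d_al.EG

end MrgPart1

-- ======== part 2: formerly Pool.Agent.MP_2a197d_al.K5a
section MrgPart2

/-! Symmetrised evaluation of a tree in a truncated algebra, and prime quotients. -/

set_option linter.unusedSectionVars false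

namespace Pool.Agent.MP_2a197d_al.K5

open Function T EG Finset

universe u

section prime
variable {L : Type u} [LieRing L] [LieAlgebra ℚ L]

theorem lie_lev_mem (y : L) : ∀ (t : T) (x : t.Lf → L),
    ⁅y, lev t x⁆ ∈ Submodule.span ℚ (Set.range (lev (L := L) t))
  | .lf, x => Submodule.subset_span ⟨fun _ => ⁅y, x ()⁆, rfl⟩
  | .nd a b, x => by
    rw [lev_nd, leibniz_lie]
    refine add_mem ?_ ?_
    · refine Submodule.span_induction (p := fun u _ => ⁅u, lev b fun i => x (Sum.inr i)⁆ ∈ _)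
        ?_ (by simp) (fun _ _ _ _ h1 h2 => by rw [add_lie]; exact add_mem h1 h2)
        (fun _ _ _ h => by rw [smul_lie]; exact Submodule.smul_mem _ _ h) (lie_lev_mem y a _)
      rintro _ ⟨w, rfl⟩
      exact Submodule.subset_span ⟨Sum.elim w fun i => x (Sum.inr i), rfl⟩
    · refine Submodule.span_induction (p := fun u _ => ⁅lev a fun i => x (Sum.inl i), u⁆ ∈ _)
        ?_ (by simp) (fun _ _ _ _ h1 h2 => by rw [lie_add]; exact add_mem h1 h2)
        (fun _ _ _ h => by rw [lie_smul]; exact Submodule.smul_mem _ _ h) (lie_lev_mem y b _)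
      rintro _ ⟨w, rfl⟩
      exact Submodule.subset_span ⟨Sum.elim (fun i => x (Sum.inl i)) w, rfl⟩

theorem lie_span_mem (y : L) (t : T) {b : L}
    (hb : b ∈ Submodule.span ℚ (Set.range (lev (L := L) t))) :
    ⁅y, b⁆ ∈ Submodule.span ℚ (Set.range (lev (L := L) t)) := by
  refine Submodule.span_induction (p := fun u _ => ⁅y, u⁆ ∈ _) ?_ (by simp)
    (fun _ _ _ _ h1 h2 => by rw [lie_add]; exact add_mem h1 h2)
    (fun _ _ _ h => by rw [lie_smul]; exact Submodule.smul_mem _ _ h) hb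
  rintro _ ⟨w, rfl⟩
  exact lie_lev_mem y t w

theorem semi_of_ideal (h : ∀ I : LieIdeal ℚ L, ⁅I, I⁆ = ⊥ → I = ⊥) (a : L)
    (ha : ∀ W : List L, ⁅adw W a, a⁆ = 0) : a = 0 := by
  let I : LieIdeal ℚ L :=
    { carrier := {y | ∀ W : List L, ⁅adw W y, a⁆ = 0}
      add_mem' := fun {x y} hx hy W => by rw [adw_add, add_lie, hx W, hy W, add_zero]
      zero_mem' := fun W => by simp
      smul_mem' := fun q y hy W => by
        rw [show adw W (q • y) = q • adw W y from (adl W).map_smul q y, smul_lie, hy W, smul_zero]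
      lie_mem := fun {x y} hy W => by rw [← adw_snoc]; exact hy _ }
  let J : LieIdeal ℚ L :=
    { carrier := {y | ∀ x ∈ I, ⁅x, y⁆ = 0}
      add_mem' := fun {x y} hx hy z hz => by rw [lie_add, hx z hz, hy z hz, add_zero]
      zero_mem' := fun z _ => by simp
      smul_mem' := fun q y hy z hz => by rw [lie_smul, hy z hz, smul_zero]
      lie_mem := fun {x y} hy z hz => by
        rw [leibniz_lie, hy z hz, lie_zero, add_zero, hy _ (lie_mem_left ℚ L I z x hz)] }
  have h1 := h (I ⊓ J) ((LieSubmodule.lie_eq_bot_iff _ _).2 fun x hx y hy => hy.2 x hx.1)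
  exact (LieSubmodule.mem_bot _).1 (h1 ▸ (show a ∈ I ⊓ J from ⟨ha, fun x hx => hx []⟩))

theorem pr_ne (hP : ∀ a : L, (∀ W : List L, ⁅adw W a, a⁆ = 0) → a = 0) {a : L} (ha : a ≠ 0) :
    ∀ k, ∃ x : (full k).Lf → L, lev (full k) x ≠ 0
  | 0 => ⟨fun _ => a, ha⟩
  | k + 1 => by
    obtain ⟨x, hx⟩ := pr_ne hP ha k
    by_contra h
    push Not at h
    refine hx (hP _ fun W => ?_)
    have h1 : adw W (lev (full k) x) ∈ Submodule.span ℚ (Set.range (lev (L := L) (full k))) := by
      induction W with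
      | nil => exact Submodule.subset_span ⟨x, rfl⟩
      | cons y W ih => exact lie_span_mem y _ ih
    refine Submodule.span_induction (p := fun u _ => ⁅u, lev (full k) x⁆ = 0) ?_ (by simp)
      (fun _ _ _ _ h1 h2 => by rw [add_lie, h1, h2, add_zero])
      (fun _ _ _ h => by rw [smul_lie, h, smul_zero]) h1
    rintro _ ⟨w, rfl⟩
    exact h (Sum.elim w x)

/-- No thick pairs in a prime algebra with the shortening identity on values of the full tree. -/
theorem nt_full (hP : Pr L) {a : L} (ha : a ≠ 0) (k s : ℕ)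
    (hQ : ∀ (x : L) (v : (full k).Lf → L), ∃ c : ℕ → L,
      (∀ j, c j ∈ Submodule.span ℚ (Set.range (lev (L := L) (full k)))) ∧ ∀ z : L,
      ⁅lev (full k) v, (LieAlgebra.ad ℚ L x ^ s) z⁆ =
        ∑ j ∈ range s, ⁅c j, (LieAlgebra.ad ℚ L x ^ j) z⁆) : NT L s := by
  obtain ⟨x, hx⟩ := pr_ne (fun a h => or_self_iff.1 (hP a a h)) ha k
  refine nt_of_short hP (Set.range (lev (full k))) ?_ ⟨_, ⟨x, rfl⟩, hx⟩ s ?_
  · rintro y _ ⟨w, rfl⟩
    exact lie_lev_mem y _ w
  · rintro y _ ⟨w, rfl⟩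
    exact hQ y w

/-- In a semiprime algebra every nonzero element survives in a prime quotient. -/
theorem semi_prime (hs : ∀ a : L, (∀ W : List L, ⁅adw W a, a⁆ = 0) → a = 0) {g : L} (hg : g ≠ 0) :
    ∃ P : LieIdeal ℚ L, g ∉ P ∧ Pr (L ⧸ P) := by
  have h1 : ∀ a : {a : L // a ≠ 0}, ∃ W : List L, ⁅adw W a.1, a.1⁆ ≠ 0 := fun a => by
    by_contra h
    push Not at h
    exact a.2 (hs _ h)
  choose W hW using h1
  let b : ℕ → {a : L // a ≠ 0} := fun t => Nat.rec ⟨g, hg⟩ (fun _ a => ⟨_, hW a⟩) t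
  let a : ℕ → L := fun t => (b t).1
  have h : ∀ t, a (t + 1) = ⁅adw (W (b t)) (a t), a t⁆ := fun _ => rfl
  obtain ⟨P, -, hP⟩ := zorn_le_nonempty₀ {P : LieIdeal ℚ L | ∀ t, a t ∉ P} (fun c hc hch y hy =>
    ⟨sSup c, fun t ht => by
      have : Nonempty c := ⟨⟨y, hy⟩⟩
      have ht' : a t ∈ (sSup c : LieIdeal ℚ L).toSubmodule := ht
      rw [LieSubmodule.sSup_toSubmodule_eq_iSup, iSup_subtype',
        Submodule.mem_iSup_of_directed _ (fun i j => by
          rcases hch.total i.2 j.2 with h | h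
          exacts [⟨j, h, le_rfl⟩, ⟨i, le_rfl, h⟩])] at ht'
      obtain ⟨i, hi⟩ := ht'
      exact hc i.2 t hi, fun _ hz => le_sSup hz⟩) ⊥
    fun t ht => (b t).2 ((LieSubmodule.mem_bot _).1 ht)
  refine ⟨P, hP.1 0, pr_of_ideal fun I J hIJ => ?_⟩
  let π : L →ₗ⁅ℚ⁆ L ⧸ P :=
    { (LieSubmodule.Quotient.mk' P : L →ₗ[ℚ] L ⧸ P) with map_lie' := rfl }
  have hπ : ∀ y, π y = 0 ↔ y ∈ P := fun y => LieSubmodule.Quotient.mk_eq_zero'
  have up : ∀ K : LieIdeal ℚ (L ⧸ P), ∀ t, π (a t) ∈ K → ∀ k, π (a (t + k)) ∈ K := by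
    intro K t ht k
    induction k with
    | zero => exact ht
    | succ k ih => rw [← add_assoc, h, LieHom.map_lie]; exact lie_mem_right ℚ _ K _ _ ih
  have wd : ∀ K : LieIdeal ℚ (L ⧸ P), ∀ (V : List L) y, π y ∈ K → π (adw V y) ∈ K := by
    intro K V y hy
    induction V with
    | nil => exact hy
    | cons v V ih => rw [adw_cons, LieHom.map_lie]; exact lie_mem_right ℚ _ K _ _ ih
  have ex : ∀ K : LieIdeal ℚ (L ⧸ P), K ≠ ⊥ → ∃ t, π (a t) ∈ K := by
    intro K hK
    by_contra hc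
    have hle : P ≤ K.comap π := fun y hy => by
      rw [LieIdeal.mem_comap, (hπ y).2 hy]; exact K.zero_mem
    have := hP.2 (y := K.comap π) (fun t ht => hc ⟨t, ht⟩) hle
    refine hK ((LieSubmodule.eq_bot_iff _).2 fun y hy => ?_)
    obtain ⟨y, rfl⟩ := LieSubmodule.Quotient.surjective_mk' P y
    exact (hπ y).2 (this hy)
  by_contra hc
  obtain ⟨hI, hJ⟩ := not_or.1 hc
  obtain ⟨t, ht⟩ := ex I hI
  obtain ⟨r, hr⟩ := ex J hJ
  refine hP.1 (t + r + 1) ((hπ _).1 ?_)
  rw [h, LieHom.map_lie]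
  exact (LieSubmodule.mem_bot _).1 (hIJ ▸ LieSubmodule.lie_mem_lie (wd I _ _ (up I t ht r))
    (add_comm r t ▸ up J r hr t))

end prime

section tree

/-- The tree of the iterated double bracket. -/
def tr : ℕ → T
  | 0 => lf
  | t + 1 => nd (tr t) (nd (tr t) lf)

/-- Labels of its leaves. -/
def lab : (t : ℕ) → (tr t).Lf → Option ℕ
  | 0, _ => none
  | t + 1, Sum.inl i => lab t i
  | t + 1, Sum.inr (Sum.inl i) => lab t i
  | t + 1, Sum.inr (Sum.inr _) => some t

theorem seq_eq {L : Type*} [LieRing L] (a z : ℕ → L) (h : ∀ t, a (t + 1) = ⁅a t, ⁅a t, z t⁆⁆) :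
    ∀ t, a t = lev (tr t) fun i => (lab t i).elim (a 0) z
  | 0 => rfl
  | t + 1 => by
    rw [h, seq_eq a z h t]
    rfl

variable {ι : Type*} [DecidableEq ι]

/-- The union of the supports of the leaves. -/
def un (t : T) (S : t.Lf → Finset ι) : Finset ι := ev (· ∪ ·) t S

theorem mem_un {j : ι} : ∀ (t : T) (S : t.Lf → Finset ι), j ∈ un t S ↔ ∃ i, j ∈ S i
  | .lf, S => ⟨fun h => ⟨(), h⟩, fun ⟨_, h⟩ => h⟩
  | .nd a b, S => by
    change j ∈ un a _ ∪ un b _ ↔ _
    rw [mem_union, mem_un a, mem_un b]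
    exact (Sum.exists (p := fun i => j ∈ S i)).symm

theorem un_comp {t : T} (S : t.Lf → Finset ι) {r : t.Lf → t.Lf} (hr : Surjective r) :
    un t (fun i => S (r i)) = un t S := by
  ext j
  rw [mem_un, mem_un]
  exact (hr.exists (p := fun i => j ∈ S i)).symm

theorem pw_nd {a b : T} (S : (nd a b).Lf → Finset ι) : Pairwise (Disjoint on S) ↔
    Pairwise (Disjoint on fun i => S (Sum.inl i)) ∧ Pairwise (Disjoint on fun i => S (Sum.inr i)) ∧
      Disjoint (un a fun i => S (Sum.inl i)) (un b fun i => S (Sum.inr i)) := by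
  refine ⟨fun h => ⟨fun i j hij => h (Sum.inl_injective.ne hij),
    fun i j hij => h (Sum.inr_injective.ne hij), disjoint_left.2 fun k h1 h2 => ?_⟩, ?_⟩
  · obtain ⟨i, hi⟩ := (mem_un _ _).1 h1
    obtain ⟨j, hj⟩ := (mem_un _ _).1 h2
    exact disjoint_left.1 (h (i := Sum.inl i) (j := Sum.inr j) Sum.inl_ne_inr) hi hj
  · rintro ⟨h1, h2, h3⟩ (i | i) (j | j) hij
    · exact h1 fun h => hij (congrArg _ h)
    · exact disjoint_left.2 fun k h4 h5 =>
        disjoint_left.1 h3 ((mem_un _ _).2 ⟨i, h4⟩) ((mem_un _ _).2 ⟨j, h5⟩)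
    · exact disjoint_left.2 fun k h4 h5 =>
        disjoint_left.1 h3 ((mem_un _ _).2 ⟨j, h5⟩) ((mem_un _ _).2 ⟨i, h4⟩)
    · exact h2 fun h => hij (congrArg _ h)

variable {F A : Type*} [LieRing F] [LieAlgebra ℚ F] [LieRing A] [LieAlgebra ℚ A]
  {M : Finset ι → Set F}
  (hM : ∀ S S', ∀ a ∈ M S, ∀ b ∈ M S', Disjoint S S' → ⁅a, b⁆ ∈ M (S ∪ S'))

include hM

theorem lev_sup : ∀ (t : T) (S : t.Lf → Finset ι) (m : t.Lf → F), (∀ i, m i ∈ M (S i)) →
    Pairwise (Disjoint on S) → lev t m ∈ M (un t S)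
  | .lf, _, _, h, _ => h ()
  | .nd a b, S, _, h, hd => by
    obtain ⟨h1, h2, h3⟩ := (pw_nd S).1 hd
    exact hM _ _ _ (lev_sup a _ _ (fun i => h _) h1) _ (lev_sup b _ _ (fun i => h _) h2) h3

theorem lev_inn (inn : Finset ι → F → A) (hin : ∀ S S', ∀ a ∈ M S, ∀ b ∈ M S',
      (Disjoint S S' → ⁅inn S a, inn S' b⁆ = inn (S ∪ S') ⁅a, b⁆) ∧
      (¬Disjoint S S' → ⁅inn S a, inn S' b⁆ = 0)) :
    ∀ (t : T) (S : t.Lf → Finset ι) (m : t.Lf → F), (∀ i, m i ∈ M (S i)) →
    (Pairwise (Disjoint on S) → lev t (fun i => inn (S i) (m i)) = inn (un t S) (lev t m)) ∧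
    (¬Pairwise (Disjoint on S) → lev t (fun i => inn (S i) (m i)) = 0)
  | .lf, _, _, _ => ⟨fun _ => rfl, fun h => (h fun _ _ hij => (hij rfl).elim).elim⟩
  | .nd a b, S, m, h => by
    obtain ⟨a1, a2⟩ := lev_inn inn hin a _ _ fun i => h (Sum.inl i)
    obtain ⟨b1, b2⟩ := lev_inn inn hin b _ _ fun i => h (Sum.inr i)
    rw [pw_nd, lev_nd, lev_nd]
    by_cases h1 : Pairwise (Disjoint on fun i => S (Sum.inl i))
    · by_cases h2 : Pairwise (Disjoint on fun i => S (Sum.inr i))
      · rw [a1 h1, b1 h2]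
        have := hin _ _ _ (lev_sup hM a _ _ (fun i => h _) h1) _ (lev_sup hM b _ _ (fun i => h _) h2)
        exact ⟨fun h3 => this.1 h3.2.2, fun h3 => this.2 fun h4 => h3 ⟨h1, h2, h4⟩⟩
      · exact ⟨fun h3 => (h2 h3.2.1).elim, fun _ => by rw [b2 h2, lie_zero]⟩
    · exact ⟨fun h3 => (h1 h3.1).elim, fun _ => by rw [a2 h1, zero_lie]⟩

omit hM in
open Classical in
/-- Permutations of the leaves that keep the labels. -/
noncomputable def pm {Λ : Type*} (t : T) (la : t.Lf → Λ) : Finset (t.Lf → t.Lf) :=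
  univ.filter fun r => Injective r ∧ ∀ i, la (r i) = la i

theorem pm_mem {Λ : Type*} {t : T} {la : t.Lf → Λ} {S : t.Lf → Finset ι} {m : t.Lf → F}
    (hm : ∀ i, m i ∈ M (S i)) (hd : Pairwise (Disjoint on S)) {r : t.Lf → t.Lf}
    (hr : r ∈ pm t la) : lev t (fun i => m (r i)) ∈ M (un t S) := by
  classical
  have h2 := (mem_filter.1 hr).2.1
  rw [← un_comp S (Finite.injective_iff_surjective.1 h2)]
  exact lev_sup hM t _ _ (fun i => hm (r i)) fun i j hij => hd (h2.ne hij)

open Classical in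
theorem sym_inn (inn : Finset ι → F → A) (hin : ∀ S S', ∀ a ∈ M S, ∀ b ∈ M S',
      (Disjoint S S' → ⁅inn S a, inn S' b⁆ = inn (S ∪ S') ⁅a, b⁆) ∧
      (¬Disjoint S S' → ⁅inn S a, inn S' b⁆ = 0)) {Λ : Type*} (t : T) (la : t.Lf → Λ)
    (S : t.Lf → Finset ι) (m : t.Lf → F) (hm : ∀ i, m i ∈ M (S i)) (hd : Pairwise (Disjoint on S))
    (hne : ∀ i, (S i).Nonempty) :
    lev t (fun i => ∑ c ∈ univ.filter fun c => la c = la i, inn (S c) (m c)) =
      ∑ r ∈ pm t la, inn (un t S) (lev t fun i => m (r i)) := by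
  have h1 := (ml_lev (K := ℚ) (L := A) t).mm.map_sum_finset (fun _ c => inn (S c) (m c))
    fun i => univ.filter fun c => la c = la i
  rw [ML.mm_apply] at h1
  rw [h1]
  refine ((sum_congr rfl fun r hr => ?_).trans (sum_subset (fun r hr => ?_) fun r hr h => ?_)).symm
  · have h2 := (mem_filter.1 hr).2.1
    rw [ML.mm_apply, (lev_inn hM inn hin t _ _ fun i => hm (r i)).1
      fun i j hij => hd (h2.ne hij), un_comp S (Finite.injective_iff_surjective.1 h2)]
  · exact Fintype.mem_piFinset.2 fun i => mem_filter.2 ⟨mem_univ _, (mem_filter.1 hr).2.2 i⟩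
  · rw [ML.mm_apply]
    refine (lev_inn hM inn hin t _ _ fun i => hm (r i)).2 fun h2 => h ?_
    refine mem_filter.2 ⟨mem_univ _, fun i j hij => ?_,
      fun i => (mem_filter.1 (Fintype.mem_piFinset.1 hr i)).2⟩
    by_contra h3
    obtain ⟨k, hk⟩ := hne (r i)
    exact disjoint_left.1 (h2 h3) hk (show k ∈ S (r j) from hij ▸ hk)

theorem lev_op {τ D : F → F} {B : Finset ι} (h0 : ∀ a ∈ M B, τ a = D a)
    (h1 : ∀ S S', ∀ a ∈ M S, ∀ b ∈ M S', Disjoint S S' →
      (B ⊆ S → τ ⁅a, b⁆ = ⁅τ a, b⁆) ∧ (B ⊆ S' → τ ⁅a, b⁆ = ⁅a, τ b⁆)) :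
    ∀ (t : T) (S : t.Lf → Finset ι) (m m' : t.Lf → F) (i : t.Lf), (∀ i, m i ∈ M (S i)) →
      Pairwise (Disjoint on S) → S i = B → m' i = D (m i) → (∀ j, j ≠ i → m' j = m j) →
      τ (lev t m) = lev t m'
  | .lf, _, _, _, _, h, _, h2, h3, _ => (h0 _ (h2 ▸ h _)).trans h3.symm
  | .nd a b, S, m, m', i, h, hd, h2, h3, h4 => by
    obtain ⟨d1, d2, d3⟩ := (pw_nd S).1 hd
    have := h1 _ _ _ (lev_sup hM a _ _ (fun i => h _) d1) _ (lev_sup hM b _ _ (fun i => h _) d2) d3
    rw [lev_nd, lev_nd]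
    rcases i with i | i
    · rw [this.1 fun k hk => (mem_un _ _).2 ⟨i, h2.symm ▸ hk⟩, lev_op h0 h1 a _ _
        (fun j => m' (Sum.inl j)) i (fun i => h _) d1 h2 h3 fun j hj => h4 _ (Sum.inl_injective.ne hj)]
      simp only [h4 _ Sum.inr_ne_inl]
    · rw [this.2 fun k hk => (mem_un _ _).2 ⟨i, h2.symm ▸ hk⟩, lev_op h0 h1 b _ _
        (fun j => m' (Sum.inr j)) i (fun i => h _) d2 h2 h3 fun j hj => h4 _ (Sum.inr_injective.ne hj)]
      simp only [h4 _ Sum.inl_ne_inr]

/-- No product of the block operators kills the symmetrised value. -/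
theorem not_killed {Λ : Type*} (t : T) (la : t.Lf → Λ) (Y : t.Lf → Prop) (S : t.Lf → Finset ι)
    (m : t.Lf → F) (hm : ∀ i, m i ∈ M (S i)) (hd : Pairwise (Disjoint on S))
    (τ : t.Lf → Module.End ℚ F) (D : F → F) (hD : ∀ c, ∀ a ∈ M (S c), D a ∈ M (S c))
    (h0 : ∀ c, ∀ a ∈ M (S c), τ c a = D a)
    (h1 : ∀ c S1 S2, ∀ a ∈ M S1, ∀ b ∈ M S2, Disjoint S1 S2 →
      (S c ⊆ S1 → τ c ⁅a, b⁆ = ⁅τ c a, b⁆) ∧ (S c ⊆ S2 → τ c ⁅a, b⁆ = ⁅a, τ c b⁆))
    (hθ : ∀ e : ℕ, ∃ (θ : F →+ F) (val : Λ → F), (∀ a b, θ ⁅a, b⁆ = ⁅θ a, θ b⁆) ∧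
      (∀ c, Y c → θ (D^[e] (m c)) = val (la c)) ∧ (∀ c, ¬Y c → θ (m c) = val (la c)) ∧
      lev t (fun i => val (la i)) ≠ 0) (l : List {c // Y c}) :
    (l.map fun c => τ c.1).prod (∑ r ∈ pm t la, lev t fun i => m (r i)) ≠ 0 := by
  classical
  let N : (t.Lf → ℕ) → F := fun ν => ∑ r ∈ pm t la, lev t fun i => D^[ν (r i)] (m (r i))
  have it : ∀ c n, D^[n] (m c) ∈ M (S c) := fun c n => by
    induction n with
    | zero => exact hm c
    | succ n ih => rw [iterate_succ_apply']; exact hD c _ ih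
  have st : ∀ ν c, τ c (N ν) = N (ν + Pi.single c 1) := fun ν c => by
    rw [map_sum]
    refine sum_congr rfl fun r hr => ?_
    have h2 := (mem_filter.1 hr).2.1
    obtain ⟨i, rfl⟩ := Finite.injective_iff_surjective.1 h2 c
    refine lev_op hM (h0 _) (h1 _) t (fun i => S (r i)) _ _ i (fun j => it _ _)
      (fun i j hij => hd (h2.ne hij)) rfl ?_ fun j hj => ?_
    · rw [Pi.add_apply, Pi.single_eq_same, iterate_succ_apply']
    · rw [Pi.add_apply, Pi.single_eq_of_ne (h2.ne hj), add_zero]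
  have mo : ∀ n (d : t.Lf → ℕ), ∑ i, d i = n → ∀ ν, N ν = 0 → N (ν + d) = 0 := by
    intro n
    induction n with
    | zero =>
      intro d h ν hν
      rwa [show d = 0 from funext fun i => sum_eq_zero_iff.1 h i (mem_univ _), add_zero]
    | succ n ih =>
      intro d h ν hν
      obtain ⟨c, -, hc⟩ := exists_ne_zero_of_sum_ne_zero (h.trans_ne (Nat.succ_ne_zero n))
      have h2 : d = (d - Pi.single c 1) + Pi.single c 1 := funext fun i => by
        rw [Pi.add_apply, Pi.sub_apply, Pi.single_apply]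
        split_ifs with h3
        · subst h3; omega
        · rfl
      rw [h2, ← add_assoc, ← st, ih _ ?_ ν hν, map_zero]
      rw [h2] at h
      simpa [sum_add_distrib] using h
  have pr : ∃ ν : t.Lf → ℕ, (∀ c, ν c ≤ l.length) ∧ (∀ c, ¬Y c → ν c = 0) ∧
      (l.map fun c => τ c.1).prod (N 0) = N ν := by
    induction l with
    | nil => exact ⟨0, fun _ => le_rfl, fun _ _ => rfl, rfl⟩
    | cons c l ih =>
      obtain ⟨ν, h2, h3, h4⟩ := ih
      refine ⟨ν + Pi.single c.1 1, fun i => ?_, fun i hi => ?_, ?_⟩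
      · have := h2 i
        rw [Pi.add_apply, Pi.single_apply, List.length_cons]
        split_ifs <;> omega
      · rw [Pi.add_apply, h3 i hi, Pi.single_eq_of_ne fun h : i = c.1 => hi (h ▸ c.2), add_zero]
      · rw [List.map_cons, List.prod_cons, Module.End.mul_apply, h4, st]
  obtain ⟨ν, h2, h3, h4⟩ := pr
  obtain ⟨θ, val, h5, h6, h7, h8⟩ := hθ l.length
  intro h9
  have h10 := congrArg θ (mo _ (fun c => if Y c then l.length - ν c else 0) rfl ν (h4.symm.trans h9))
  rw [map_zero, map_sum, sum_congr rfl (g := fun _ => lev t fun i => val (la i)) fun r hr => ?_,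
    sum_const, ← Nat.cast_smul_eq_nsmul ℚ] at h10
  · refine h8 ((smul_eq_zero.1 h10).resolve_left (Nat.cast_ne_zero.2 (card_ne_zero.2 ⟨id, ?_⟩)))
    exact mem_filter.2 ⟨mem_univ _, injective_id, fun _ => rfl⟩
  · rw [lev, ev_map θ h5]
    refine congrArg (lev t) (funext fun i => ?_)
    rw [← (mem_filter.1 hr).2.2 i, Pi.add_apply]
    split_ifs with h
    · rw [Nat.add_sub_cancel' (h2 _), h6 _ h]
    · rw [h3 _ h, ← h7 _ h]
      rfl

end tree

end Pool.Agent.MP_2a197d_al.K5

end MrgPart2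

-- ======== part 3: formerly Pool.Agent.MP_2a197d_al.EG5
section MrgPart3

/-! A prime quotient from an m-sequence, and the bound on products of homogeneous elements. -/

set_option linter.unusedSectionVars false

namespace Pool.Agent.MP_2a197d_al.EG

universe u

variable {L : Type u} [LieRing L] [LieAlgebra ℚ L]

/-- An ideal that is maximal among those missing an m-sequence is prime. -/
theorem exists_prime (a z : ℕ → L) (h : ∀ t, a (t + 1) = ⁅a t, ⁅a t, z t⁆⁆) (h0 : ∀ t, a t ≠ 0) :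
    ∃ P : LieIdeal ℚ L, (∀ t, a t ∉ P) ∧ Pr (L ⧸ P) := by
  obtain ⟨P, -, hP⟩ := zorn_le_nonempty₀ {P : LieIdeal ℚ L | ∀ t, a t ∉ P} (fun c hc hch y hy =>
    ⟨sSup c, fun t ht => by
      have : Nonempty c := ⟨⟨y, hy⟩⟩
      have ht' : a t ∈ (sSup c : LieIdeal ℚ L).toSubmodule := ht
      rw [LieSubmodule.sSup_toSubmodule_eq_iSup, iSup_subtype',
        Submodule.mem_iSup_of_directed _ (fun i j => by
          rcases hch.total i.2 j.2 with h | h
          exacts [⟨j, h, le_rfl⟩, ⟨i, le_rfl, h⟩])] at ht'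
      obtain ⟨i, hi⟩ := ht'
      exact hc i.2 t hi, fun _ hz => le_sSup hz⟩) ⊥ fun t ht => h0 t ((LieSubmodule.mem_bot _).1 ht)
  refine ⟨P, hP.1, pr_of_ideal fun I J hIJ => ?_⟩
  let π : L →ₗ⁅ℚ⁆ L ⧸ P :=
    { (LieSubmodule.Quotient.mk' P : L →ₗ[ℚ] L ⧸ P) with map_lie' := rfl }
  have hπ : ∀ y, π y = 0 ↔ y ∈ P := fun y => LieSubmodule.Quotient.mk_eq_zero'
  have up : ∀ K : LieIdeal ℚ (L ⧸ P), ∀ t, π (a t) ∈ K → ∀ k, π (a (t + k)) ∈ K := by
    intro K t ht k
    induction k with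
    | zero => exact ht
    | succ k ih => rw [← add_assoc, h, LieHom.map_lie]; exact lie_mem_left ℚ _ K _ _ ih
  have ex : ∀ K : LieIdeal ℚ (L ⧸ P), K ≠ ⊥ → ∃ t, π (a t) ∈ K := by
    intro K hK
    by_contra hc
    have hle : P ≤ K.comap π := fun y hy => by
      rw [LieIdeal.mem_comap, (hπ y).2 hy]; exact K.zero_mem
    have := hP.2 (y := K.comap π) (fun t ht => hc ⟨t, ht⟩) hle
    refine hK ((LieSubmodule.eq_bot_iff _).2 fun y hy => ?_)
    obtain ⟨y, rfl⟩ := LieSubmodule.Quotient.surjective_mk' P y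
    exact (hπ y).2 (this hy)
  by_contra hc
  obtain ⟨hI, hJ⟩ := not_or.1 hc
  obtain ⟨t, ht⟩ := ex I hI
  obtain ⟨r, hr⟩ := ex J hJ
  refine hP.1 (t + r + 1) ((hπ _).1 ?_)
  rw [h, LieHom.map_lie, LieHom.map_lie]
  refine (LieSubmodule.mem_bot _).1 (hIJ ▸ LieSubmodule.lie_mem_lie (up I t ht r) ?_)
  exact lie_mem_left ℚ _ J _ _ (add_comm r t ▸ up J r hr t)

/-- Homogeneous elements `H`, basic elements `B`, and the vanishing of brackets outside at most
`s` weights. -/
structure Gr (H B : ℚ → Set L) (s : ℕ) : Prop where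
  br : ∀ p q, ∀ x ∈ H p, ∀ y ∈ H q, ⁅x, y⁆ ∈ H (p + q)
  sub : ∀ p, ∀ x ∈ B p, x ∈ H p
  cl : ∀ p q, ∀ x ∈ B p, ∀ y ∈ B q, ⁅x, y⁆ ∈ Submodule.span ℚ (B (p + q))
  gv : ∀ p, ∀ c ∈ B p, ∃ F : Finset ℚ, F.card ≤ s ∧ ∀ q, ∀ u ∈ H q, ⁅c, u⁆ ≠ 0 → q ∈ F

namespace Gr

variable {H B : ℚ → Set L} {s : ℕ} (G : Gr H B s)

include G

theorem wt (W : List (ℚ × L)) (hW : ∀ w ∈ W, w.2 ∈ B w.1) {q : ℚ} {u : L} (hu : u ∈ H q) :
    adw (W.map Prod.snd) u ∈ H ((W.map Prod.fst).sum + q) := by
  induction W with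
  | nil => simpa using hu
  | cons w W ih =>
    rw [List.map_cons, List.map_cons, List.sum_cons, add_assoc]
    exact G.br _ _ _ (G.sub _ _ (hW w (by simp))) _ (ih fun x hx => hW x (by simp [hx]))

theorem perm {a u : L} {n : ℕ}
    (hm : ∀ V : List (ℚ × L), (∀ w ∈ V, w.2 ∈ B w.1) → V.length < n →
      ⁅a, adw (V.map Prod.snd) u⁆ = 0) {W W' : List (ℚ × L)} (h : W.Perm W') :
    ∀ U : List (ℚ × L), (∀ w ∈ U, w.2 ∈ B w.1) → (∀ w ∈ W, w.2 ∈ B w.1) →
      U.length + W.length = n → ⁅a, adw (U.map Prod.snd) (adw (W.map Prod.snd) u)⁆ =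
        ⁅a, adw (U.map Prod.snd) (adw (W'.map Prod.snd) u)⁆ := by
  induction h with
  | nil => intros; rfl
  | cons x _ ih =>
    intro U hU hW hn
    have := ih (U ++ [x]) (by
      intro w hw
      rcases List.mem_append.1 hw with hw | hw
      exacts [hU w hw, List.mem_singleton.1 hw ▸ hW x (by simp)])
      (fun w hw => hW w (by simp [hw])) (by simp at hn ⊢; omega)
    simpa only [List.map_append, List.map_cons, List.map_nil, adw_snoc, adw_cons] using this
  | swap x y l =>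
    intro U hU hW hn
    simp only [List.map_cons, adw_cons]
    rw [leibniz_lie y.2 x.2, adw_add, lie_add, add_eq_right]
    have hc := G.cl _ _ _ (hW y (by simp)) _ (hW x (by simp))
    generalize ⁅y.2, x.2⁆ = c at hc
    induction hc using Submodule.span_induction with
    | mem c hc =>
      have := hm (U ++ (y.1 + x.1, c) :: l) (by
        intro w hw
        rcases List.mem_append.1 hw with hw | hw
        · exact hU w hw
        · rcases List.mem_cons.1 hw with rfl | hw
          exacts [hc, hW w (by simp [hw])]) (by simp at hn ⊢; omega)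
      rwa [List.map_append, adw_append] at this
    | zero => simp
    | add b c _ _ hb hc => rw [add_lie, adw_add, lie_add, hb, hc, add_zero]
    | smul q b _ hb =>
      rw [smul_lie, show adw (U.map Prod.snd) (q • _) = q • _ from (adl _).map_smul q _, lie_smul]
      exact (congrArg (q • ·) hb).trans (smul_zero q)
  | trans h1 _ ih1 ih2 =>
    intro U hU hW hn
    rw [ih1 U hU hW hn, ih2 U hU (fun w hw => hW w (h1.mem_iff.2 hw)) (h1.length_eq ▸ hn)]

/-- Only boundedly many weights of `u` allow `⁅a, W u⁆ ≠ 0` for a word `W` in basic letters. -/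
theorem pbw {p : ℚ} {a : L} (ha : a ∈ B p) : ∃ Φ : Finset ℚ, Φ.card ≤ s * (s + 1) ^ s ∧
    ∀ q, ∀ u ∈ H q, ∀ W : List (ℚ × L), (∀ w ∈ W, w.2 ∈ B w.1) →
      ⁅a, adw (W.map Prod.snd) u⁆ ≠ 0 → q ∈ Φ := by
  classical
  obtain ⟨F, hF, hgv⟩ := G.gv p a ha
  refine ⟨(F ×ˢ (Finset.univ : Finset (F → Fin (s + 1)))).image
    fun x => x.1 - ∑ g : F, (x.2 g : ℕ) • (g : ℚ), Finset.card_image_le.trans ?_, ?_⟩
  · rw [Finset.card_product, Finset.card_univ, Fintype.card_fun, Fintype.card_fin,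
      Fintype.card_coe]
    exact Nat.mul_le_mul hF (Nat.pow_le_pow_right (by omega) hF)
  intro q u hu W
  induction hn : W.length using Nat.strong_induction_on generalizing W with
  | _ n ih =>
    intro hW hne
    by_cases hm : ∀ V : List (ℚ × L), (∀ w ∈ V, w.2 ∈ B w.1) → V.length < n →
        ⁅a, adw (V.map Prod.snd) u⁆ = 0
    swap
    · simp only [not_forall] at hm
      obtain ⟨V, hV, hl, h⟩ := hm
      exact ih _ hl V rfl hV h
    have sym : ∀ W' : List (ℚ × L), W.Perm W' → ⁅a, adw (W'.map Prod.snd) u⁆ ≠ 0 := fun W' h =>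
      (G.perm hm h [] (by simp) hW (by simpa using hn)) ▸ hne
    have h1 : ∀ w ∈ W, w.1 ∈ F := fun w hw => by
      obtain ⟨l1, l2, rfl⟩ := List.append_of_mem hw
      refine hgv _ _ (G.sub _ _ (hW w hw)) fun h0 => sym _ List.perm_middle ?_
      rw [List.map_cons, adw_cons, leibniz_lie, h0, zero_lie, zero_add, hm (l1 ++ l2) (fun x hx =>
        hW x (List.perm_middle.mem_iff.2 (List.mem_cons_of_mem _ hx))) (by
          simp at hn ⊢; omega), lie_zero]
    have h2 : ∀ g : ℚ, g ≠ 0 → (W.map Prod.fst).count g ≤ s := fun g hg => by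
      have hp := (List.filter_append_perm (fun w : ℚ × L => w.1 == g) W).symm
      have hT : ∀ w ∈ W.filter (fun w => w.1 == g), w.2 ∈ B w.1 ∧ w.1 = g := fun w hw =>
        ⟨hW w (List.mem_filter.1 hw).1, by simpa using (List.mem_filter.1 hw).2⟩
      rw [List.count_eq_countP, List.countP_map, List.countP_eq_length_filter]
      show (W.filter fun w => w.1 == g).length ≤ s
      generalize W.filter (fun w => w.1 == g) = T at hp hT
      generalize W.filter (fun w => !(w.1 == g)) = R at hp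
      rcases T with _ | ⟨w, T⟩
      · simp
      obtain ⟨F', hF', hgv'⟩ := G.gv _ _ (hT w (by simp)).1
      refine le_trans ?_ hF'
      rw [← Finset.card_range (w :: T).length]
      refine Finset.card_le_card_of_injOn (fun j => j • g + q) (fun j hj => ?_) fun i _ j _ h => ?_
      · have hj' : j ≤ T.length := by simpa [Nat.lt_succ_iff] using hj
        have h3 := G.wt (T.take j) (fun x hx => (hT x (by simp [List.mem_of_mem_take hx])).1) hu
        rw [List.sum_eq_card_nsmul _ g (by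
          intro x hx
          obtain ⟨y, hy, rfl⟩ := List.mem_map.1 hx
          exact (hT y (by simp [List.mem_of_mem_take hy])).2), List.length_map,
          List.length_take_of_le hj'] at h3
        refine hgv' _ _ h3 fun h0 => sym (R ++ T.drop j ++ w :: T.take j) (hp.trans ?_) ?_
        · refine List.perm_append_comm.trans ?_
          rw [List.append_assoc]
          refine List.Perm.append_left _ (List.Perm.trans ?_ List.perm_middle.symm)
          refine List.Perm.cons _ ?_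
          conv_lhs => rw [← List.take_append_drop j T]
          exact List.perm_append_comm
        · rw [List.map_append, adw_append, List.map_cons, adw_cons, h0, adw_zero, lie_zero]
      · have h' : (i : ℚ) * g = j * g := by simpa using h
        exact_mod_cast mul_right_cancel₀ hg h'
    refine Finset.mem_image.2 ⟨(_, fun g => if h : (g : ℚ) = 0 then 0 else
      ⟨_, Nat.lt_succ_of_le (h2 g h)⟩), Finset.mem_product.2
        ⟨hgv _ _ (G.wt W hW hu) hne, Finset.mem_univ _⟩, ?_⟩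
    rw [Finset.sum_list_count_of_subset _ F (by
      intro x hx
      obtain ⟨y, hy, rfl⟩ := List.mem_map.1 (List.mem_toFinset.1 hx)
      exact h1 y hy), ← Finset.sum_coe_sort F]
    dsimp only
    rw [sub_eq_iff_eq_add', add_left_inj]
    refine Finset.sum_congr rfl fun g _ => ?_
    by_cases h : (g : ℚ) = 0 <;> simp [h]

/-- Long products of basic elements with weights of one sign vanish. -/
theorem cor (e : ℚ) (W : List (ℚ × L)) (hW : ∀ w ∈ W, w.2 ∈ B w.1 ∧ 0 < e * w.1)
    (hn : s * (s + 1) ^ s < W.length) {q : ℚ} {u : L} (hu : u ∈ H q) :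
    adw (W.map Prod.snd) u = 0 := by
  rcases W with _ | ⟨c, W⟩
  · simp at hn
  by_contra hne
  obtain ⟨Φ, hΦ, h⟩ := G.pbw (hW c (by simp)).1
  have hW' : ∀ w ∈ W, w.2 ∈ B w.1 ∧ 0 < e * w.1 := fun w hw => hW w (by simp [hw])
  refine absurd (hΦ.trans_lt hn) (not_lt.2 ?_)
  rw [← Finset.card_range (c :: W).length]
  have mono : ∀ i j, i < j → j ≤ W.length →
      e * ((W.drop j).map Prod.fst).sum < e * ((W.drop i).map Prod.fst).sum := by
    intro i j hij
    induction j, hij using Nat.le_induction with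
    | base =>
      intro hi
      rw [List.drop_eq_getElem_cons (l := W) (i := i) hi, List.map_cons, List.sum_cons, mul_add]
      exact lt_add_of_pos_left _ (hW' _ (List.getElem_mem _)).2
    | succ j _ ih =>
      intro hj
      refine lt_trans ?_ (ih (by omega))
      rw [List.drop_eq_getElem_cons (l := W) (i := j) hj, List.map_cons, List.sum_cons, mul_add]
      exact lt_add_of_pos_left _ (hW' _ (List.getElem_mem _)).2
  refine Finset.card_le_card_of_injOn (fun i => ((W.drop i).map Prod.fst).sum + q)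
    (fun i _ => ?_) fun i hi j hj hij => ?_
  · refine h _ _ (G.wt (W.drop i) (fun x hx => (hW' x (List.mem_of_mem_drop hx)).1) hu) (W.take i)
      (fun x hx => (hW' x (List.mem_of_mem_take hx)).1) ?_
    rw [← adw_append, ← List.map_append, List.take_append_drop]
    exact hne
  · have hi' : i ≤ W.length := by simpa [Nat.lt_succ_iff] using hi
    have hj' : j ≤ W.length := by simpa [Nat.lt_succ_iff] using hj
    have h' := add_right_cancel hij
    rcases lt_trichotomy i j with h1 | h1 | h1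
    · exact absurd (mono i j h1 hj') (by rw [h']; exact lt_irrefl _)
    · exact h1
    · exact absurd (mono j i h1 hi') (by rw [h']; exact lt_irrefl _)

/-- A sum of basic elements with weights of one sign is ad-nilpotent of bounded index. -/
theorem nilp (hH : ∀ u : L, u ∈ Submodule.span ℚ (⋃ q, H q)) (e : ℚ) {g : L}
    (hg : g ∈ Submodule.span ℚ {x | ∃ p, x ∈ B p ∧ 0 < e * p}) :
    LieAlgebra.ad ℚ L g ^ (s * (s + 1) ^ s + 1) = 0 := by
  have key : ∀ (n : ℕ) (W : List (ℚ × L)), (∀ w ∈ W, w.2 ∈ B w.1 ∧ 0 < e * w.1) →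
      s * (s + 1) ^ s < W.length + n → ∀ q, ∀ u ∈ H q,
        adw (W.map Prod.snd) (adw (List.replicate n g) u) = 0 := by
    intro n
    induction n with
    | zero => intro W hW hn q u hu; exact G.cor e W hW hn hu
    | succ n ih =>
      intro W hW hn q u hu
      rw [List.replicate_succ, adw_cons]
      have : ∀ x ∈ Submodule.span ℚ {x | ∃ p, x ∈ B p ∧ 0 < e * p},
          adw (W.map Prod.snd) ⁅x, adw (List.replicate n g) u⁆ = 0 := fun x hx => by
        induction hx using Submodule.span_induction with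
        | mem x hx =>
          obtain ⟨p, hp⟩ := hx
          have := ih (W ++ [(p, x)]) (by
            intro w hw
            rcases List.mem_append.1 hw with hw | hw
            exacts [hW w hw, List.mem_singleton.1 hw ▸ hp]) (by simp; omega) q u hu
          simpa only [List.map_append, List.map_cons, List.map_nil, adw_snoc] using this
        | zero => simp
        | add b c _ _ hb hc => rw [add_lie, adw_add, hb, hc, add_zero]
        | smul r b _ hb =>
          rw [smul_lie]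
          exact ((adl _).map_smul r _).trans ((congrArg (r • ·) hb).trans (smul_zero r))
      exact this g hg
  ext u
  rw [LinearMap.zero_apply]
  induction hH u using Submodule.span_induction with
  | mem x hx =>
    obtain ⟨q, hq⟩ := Set.mem_iUnion.1 hx
    rw [← adw_replicate]
    exact key (s * (s + 1) ^ s + 1) [] (by simp) (by simp) q x hq
  | zero => simp
  | add b c _ _ hb hc => rw [map_add, hb, hc, add_zero]
  | smul r b _ hb => rw [map_smul, hb, smul_zero]

end Gr

end Pool.Agent.MP_2a197d_al.EG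

end MrgPart3

-- ======== part 4: formerly Pool.Agent.MP_2a197d_al.EG6
section MrgPart4

/-! A weight adapted to an element that is not torsion for a finite family of linear forms. -/

namespace Pool.Agent.MP_2a197d_al.EG

open scoped IsMulCommutative

theorem tl {V N κ : Type*} [AddCommGroup V] [Module ℚ V] [AddCommGroup N] [Module ℚ N] [Finite κ]
    (op : V →ₗ[ℚ] Module.End ℚ N) (hc : ∀ a b, op a * op b = op b * op a) (n : N) (τ : κ → V)
    (h : ∀ l : List κ, (l.map fun c => op (τ c)).prod n ≠ 0) :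
    ∃ w : V →ₗ[ℚ] ℚ, (∀ c, w (τ c) ≠ 0) ∧
      ∀ l : List V, (∀ v ∈ l, w v ≠ 0) → (l.map op).prod n ≠ 0 := by
  let R := Algebra.adjoin ℚ (Set.range op)
  have : IsMulCommutative R := Algebra.isMulCommutative_adjoin ℚ (by
    rintro _ ⟨a, rfl⟩ _ ⟨b, rfl⟩; exact hc a b)
  let o : V →ₗ[ℚ] R := op.codRestrict R.toSubmodule fun v => Algebra.subset_adjoin ⟨v, rfl⟩
  have ho : ∀ l : List V, (((l.map o).prod : R) : Module.End ℚ N) = (l.map op).prod := fun l => by
    induction l with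
    | nil => rfl
    | cons v l ih => rw [List.map_cons, List.prod_cons, List.map_cons, List.prod_cons, ← ih]; rfl
  let I : Ideal R :=
    { carrier := {r | (r : Module.End ℚ N) n = 0}
      add_mem' := fun {a b} (ha : (a : Module.End ℚ N) n = 0) (hb : (b : Module.End ℚ N) n = 0) =>
        show ((a : Module.End ℚ N) + b) n = 0 by rw [LinearMap.add_apply, ha, hb, add_zero]
      zero_mem' := rfl
      smul_mem' := fun a b (hb : (b : Module.End ℚ N) n = 0) =>
        show (a : Module.End ℚ N) ((b : Module.End ℚ N) n) = 0 by rw [hb, map_zero] }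
  obtain ⟨P, hP, hIP, hd⟩ := I.exists_le_prime_disjoint
    (Submonoid.closure (Set.range fun c => o (τ c))) (Set.disjoint_left.2 fun r hr hs => by
      obtain ⟨l, hl, rfl⟩ := Submonoid.exists_list_of_mem_closure hs
      obtain ⟨k, rfl⟩ : ∃ k : List κ, (k.map τ).map o = l := by
        clear hr hs
        induction l with
        | nil => exact ⟨[], rfl⟩
        | cons x l ih =>
          obtain ⟨k, rfl⟩ := ih fun y hy => hl y (by simp [hy])
          obtain ⟨c, rfl⟩ := hl x (by simp)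
          exact ⟨c :: k, rfl⟩
      have hr' : ((((k.map τ).map o).prod : R) : Module.End ℚ N) n = 0 := hr
      rw [ho, List.map_map] at hr'
      exact h k hr')
  let U : Submodule ℚ V := (P.restrictScalars ℚ).comap o
  obtain ⟨f, hf⟩ := Module.exists_dual_forall_apply_ne_zero (K := ℚ) (fun c => U.mkQ (τ c))
    fun c hc => Set.disjoint_left.1 hd (show o (τ c) ∈ P from (Submodule.Quotient.mk_eq_zero U).1 hc)
      (Submonoid.subset_closure ⟨c, rfl⟩)
  refine ⟨f ∘ₗ U.mkQ, hf, fun l hl h0 => ?_⟩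
  have : (l.map o).prod ∈ P := hIP (show (((l.map o).prod : R) : Module.End ℚ N) n = 0 by
    rw [ho]; exact h0)
  clear h0
  induction l with
  | nil => exact hP.ne_top ((Ideal.eq_top_iff_one P).2 this)
  | cons v l ih =>
    rcases hP.mem_or_mem this with h1 | h1
    · exact hl v (by simp) (by
        rw [LinearMap.comp_apply, show U.mkQ v = 0 from (Submodule.Quotient.mk_eq_zero U).2 h1,
          map_zero])
    · exact ih (fun x hx => hl x (by simp [hx])) h1

end Pool.Agent.MP_2a197d_al.EG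

end MrgPart4

-- ======== part 5: formerly Pool.Agent.MP_2a197d_al.K5b
section MrgPart5

/-! A prime algebra of the variety with a nonzero ad-nilpotent element. -/

set_option linter.unusedSectionVars false

namespace Pool.Agent.MP_2a197d_al.K5

open Function T EG Finset KY LieAlgebra

theorem ad_hom {L L' : Type} [LieRing L] [LieAlgebra ℚ L] [LieRing L'] [LieAlgebra ℚ L']
    (f : L →ₗ⁅ℚ⁆ L') (a : L) (n : ℕ) (u : L) : f ((ad ℚ L a ^ n) u) = (ad ℚ L' (f a) ^ n) (f u) := by
  induction n with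
  | zero => rfl
  | succ n ih => rw [pow_succ', pow_succ', Module.End.mul_apply, Module.End.mul_apply, ← ih,
      ad_apply, ad_apply, LieHom.map_lie]

theorem nil_quot {L : Type} [LieRing L] [LieAlgebra ℚ L] (P : LieIdeal ℚ L) {a : L} {n : ℕ}
    (h : ad ℚ L a ^ n = 0) : ad ℚ (L ⧸ P) (qm P a) ^ n = 0 := by
  ext u
  obtain ⟨u, rfl⟩ := qm_surj P u
  rw [← ad_hom, h]
  rfl

variable {ι F : Type} [LieRing F] [LieAlgebra ℚ F] [DecidableEq ι] {G : Fr ι F}

theorem tor_list {H : (ι →₀ ℚ) → Prop} {S : Finset ι} {n : F} (h : G.Tor H S n) :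
    ∃ l : List (ι →₀ ℚ), (∀ v ∈ l, H v) ∧ (l.map G.op).prod n = 0 := by
  induction h with
  | zero => exact ⟨[], by simp, rfl⟩
  | step ℓ h1 _ _ ih =>
    obtain ⟨l, h2, h3⟩ := ih
    refine ⟨l ++ [ℓ], fun v hv => ?_, by simpa using h3⟩
    rcases List.mem_append.1 hv with hv | hv
    exacts [h2 v hv, List.mem_singleton.1 hv ▸ h1]

theorem exists_seq (hn : ∀ a : F, a ≠ 0 → ∀ n, ad ℚ F a ^ n ≠ 0) {u : F} (hu : u ≠ 0) :
    ∃ z : ℕ → F, ∀ t, lev (tr t) (fun i => (lab t i).elim u z) ≠ 0 := by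
  have h1 : ∀ a : {a : F // a ≠ 0}, ∃ z : F, ⁅a.1, ⁅a.1, z⁆⁆ ≠ 0 := fun a => by
    by_contra h
    push Not at h
    exact hn a.1 a.2 2 (LinearMap.ext h)
  choose ζ hζ using h1
  let b : ℕ → {a : F // a ≠ 0} := fun t => Nat.rec ⟨u, hu⟩ (fun _ a => ⟨_, hζ a⟩) t
  exact ⟨fun t => ζ (b t), fun t =>
    (seq_eq (fun t => (b t).1) (fun t => ζ (b t)) (fun _ => rfl) t) ▸ (b t).2⟩

theorem exists_pow (hn : ∀ a : F, a ≠ 0 → ∀ n, ad ℚ F a ^ n ≠ 0) {k : ℕ} {w : (full k).Lf → F}
    (hw : lev (full k) w ≠ 0) (e : ℕ) :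
    ∃ (x : F) (v : (full k).Lf → F), (ad ℚ F x ^ e) (lev (full k) v) ≠ 0 := by
  by_contra h
  push Not at h
  refine hn _ hw (e + 1) (LinearMap.ext fun z => ?_)
  rw [pow_succ, Module.End.mul_apply, ad_apply, ← lie_skew, map_neg, LinearMap.zero_apply,
    neg_eq_zero]
  refine (Submodule.span_le (p := LinearMap.ker (ad ℚ F (lev (full k) w) ^ e))).2 ?_
    (lie_lev_mem z _ w)
  rintro _ ⟨v, rfl⟩
  exact h _ v

variable (G) in
/-- The graded structure of the truncated algebras. -/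
def GH (k s : ℕ) : Prop := ∀ χ : (ι →₀ ℚ) →ₗ[ℚ] ℚ,
  ∃ Hm Bs : ℚ → Set (G.Trunc fun ℓ => χ ℓ ≠ 0), EG.Gr Hm Bs s ∧
    (∀ u, u ∈ Submodule.span ℚ (⋃ q, Hm q)) ∧ ∀ e : (full k).Lf → ι, Injective e →
      G.inn _ (univ.image e) (lev (full k) fun j => G.y (e j)) ∈ Bs (χ (ind ℚ (univ.image e)))

theorem level [Infinite ι] (hn : ∀ a : F, a ≠ 0 → ∀ n, ad ℚ F a ^ n ≠ 0) {k s : ℕ}
    {w : (full k).Lf → F} (hw : lev (full k) w ≠ 0) (hG : GH G k s) (t : ℕ) :
    ∃ (χ : (ι →₀ ℚ) →ₗ[ℚ] ℚ) (p q : G.Trunc fun ℓ => χ ℓ ≠ 0) (z : ℕ → G.Trunc fun ℓ => χ ℓ ≠ 0),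
      ad ℚ _ p ^ (s * (s + 1) ^ s + 1) = 0 ∧ ad ℚ _ q ^ (s * (s + 1) ^ s + 1) = 0 ∧
      lev (tr t) (fun i => (lab t i).elim (p + q) z) ≠ 0 := by
  classical
  obtain ⟨e0, he0⟩ := exists_injective_nat ((tr t).Lf × (full k).Lf)
  let ε := Infinite.natEmbedding ι ∘ e0
  have hε : Injective ε := (Infinite.natEmbedding ι).injective.comp he0
  have hc : ∀ c, Injective fun j => ε (c, j) := fun c _ _ h => (Prod.ext_iff.1 (hε h)).2
  obtain ⟨j0⟩ := Fintype.card_pos_iff.1 (card_pos (full k))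
  let S : (tr t).Lf → Finset ι := fun c =>
    if lab t c = none then univ.image fun j => ε (c, j) else {ε (c, j0)}
  let m : (tr t).Lf → F := fun c =>
    if lab t c = none then lev (full k) fun j => G.y (ε (c, j)) else G.y (ε (c, j0))
  have hm : ∀ c, m c ∈ G.M (S c) := fun c => by
    simp only [S, m]
    split_ifs
    exacts [(Fr.lev_mon _ _ (hc c)).mem, Fr.y_mem _]
  have hS : ∀ c, ∀ i ∈ S c, ∃ j, ε (c, j) = i := fun c i hi => by
    simp only [S] at hi
    split_ifs at hi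
    exacts [(mem_image.1 hi).imp fun _ h => h.2, ⟨j0, (mem_singleton.1 hi).symm⟩]
  have hd : Pairwise (Disjoint on S) := fun c c' h => disjoint_left.2 fun i h1 h2 => by
    obtain ⟨j, rfl⟩ := hS c i h1
    obtain ⟨j', h3⟩ := hS c' _ h2
    exact h (Prod.ext_iff.1 (hε h3)).1.symm
  have hne : ∀ c, (S c).Nonempty := fun c => ⟨ε (c, j0), by
    simp only [S]
    split_ifs
    exacts [mem_image_of_mem _ (mem_univ _), mem_singleton_self _]⟩
  have hM : ∀ S S', ∀ a ∈ (G.M S : Set F), ∀ b ∈ (G.M S' : Set F), Disjoint S S' →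
      ⁅a, b⁆ ∈ (G.M (S ∪ S') : Set F) := fun _ _ _ ha _ hb h => Fr.lie_mem ha hb h
  obtain ⟨χ, h1, h2⟩ := tl G.op (fun a b => LinearMap.ext (G.op_comm a b)) _
    (fun c : {c // lab t c = none} => ind ℚ (S c.1)) (not_killed hM (tr t) (lab t)
      (fun c => lab t c = none) S m hm hd (fun c => G.op (ind ℚ (S c))) (ad ℚ F G.x)
      (fun _ _ => Fr.x_mem) (fun _ _ h => (Fr.x_eq_op h).symm) (fun c S1 S2 a ha b hb h =>
        ⟨fun h3 => Fr.op_lie_left hb (h.symm.mono_right ((ind_supp _ _).trans h3)) a,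
          fun h3 => Fr.op_lie_right ha (h.mono_right ((ind_supp _ _).trans h3)) b⟩) fun e => by
      obtain ⟨x, v, h3⟩ := exists_pow hn hw e
      obtain ⟨z, hz⟩ := exists_seq hn h3
      let θ := G.hom .base x (extend ε (fun p => (lab t p.1).elim (v p.2) z) 0)
      have h4 : ∀ c j, θ (G.y (ε (c, j))) = (lab t c).elim (v j) z := fun c j =>
        (G.hom_y _ _ _ _).trans (hε.extend_apply _ _ _)
      refine ⟨θ, fun o => o.elim _ z, θ.map_lie, fun c h => ?_, fun c h => ?_, hz t⟩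
      · change θ _ = _
        rw [← Module.End.pow_apply, ad_hom, G.hom_x]
        simp only [m, if_pos h, lev_hom, h4, h, Option.elim_none]
      · change θ _ = _
        simp only [m, if_neg h, h4]
        obtain ⟨o, ho⟩ := Option.ne_none_iff_exists'.1 h
        simp only [ho, Option.elim_some])
  obtain ⟨Hm, Bs, g1, g2, g3⟩ := hG χ
  let Z : Option ℕ → G.Trunc fun ℓ => χ ℓ ≠ 0 := fun o =>
    ∑ c ∈ univ.filter fun c => lab t c = o, G.inn _ (S c) (m c)
  have nl : ∀ (r : ℚ) (U : Finset (tr t).Lf), (∀ c ∈ U, lab t c = none ∧ 0 < r * χ (ind ℚ (S c))) →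
      ad ℚ _ (∑ c ∈ U, G.inn (fun ℓ => χ ℓ ≠ 0) (S c) (m c)) ^ (s * (s + 1) ^ s + 1) = 0 :=
    fun r U hU => g1.nilp g2 r (Submodule.sum_mem _ fun c h => Submodule.subset_span
      ⟨_, by simpa only [S, m, if_pos (hU c h).1] using g3 _ (hc c), by
        simpa only [S, if_pos (hU c h).1] using (hU c h).2⟩)
  refine ⟨χ, _, _, fun i => Z (some i),
    nl 1 ((univ.filter fun c => lab t c = none).filter fun c => 0 < χ (ind ℚ (S c))) fun c h =>
      ⟨(mem_filter.1 (mem_filter.1 h).1).2, by simpa using (mem_filter.1 h).2⟩,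
    nl (-1) ((univ.filter fun c => lab t c = none).filter fun c => ¬0 < χ (ind ℚ (S c)))
      fun c h => ⟨(mem_filter.1 (mem_filter.1 h).1).2, ?_⟩, ?_⟩
  · have h3 := h1 ⟨c, (mem_filter.1 (mem_filter.1 h).1).2⟩
    have h4 := (mem_filter.1 h).2
    rw [neg_one_mul, neg_pos]
    exact lt_of_le_of_ne (not_lt.1 h4) h3
  rw [sum_filter_add_sum_filter_not]
  have h3 : (fun i => (lab t i).elim (Z none) fun i => Z (some i)) = fun i => Z (lab t i) :=
    funext fun i => by cases lab t i <;> rfl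
  have h4 := sym_inn hM (G.inn fun ℓ => χ ℓ ≠ 0) (fun _ _ _ ha _ hb =>
    ⟨fun h => by rw [Fr.inn_lie ha hb, if_pos h], fun h => by rw [Fr.inn_lie ha hb, if_neg h]⟩)
    (tr t) (lab t) S m hm hd hne
  have h5 : ∀ r ∈ pm (tr t) (lab t), _ ∈ G.M _ := fun r hr => pm_mem hM hm hd hr
  rw [← Fr.inn_sum _ h5] at h4
  intro h6
  change lev (tr t) (fun i => (lab t i).elim (Z none) fun i => Z (some i)) = 0 at h6
  rw [h3] at h6
  obtain ⟨l, h7, h8⟩ := tor_list ((Fr.inn_eq_zero (Submodule.sum_mem _ h5)).1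
    (h4.symm.trans (by convert h6)))
  exact h2 l h7 h8

/-- A prime algebra of the variety with a nonzero ad-nilpotent element. -/
theorem exists_pr [Infinite ι] (hs : ∀ a : F, (∀ W : List F, ⁅adw W a, a⁆ = 0) → a = 0)
    {a : F} (ha : a ≠ 0) {k s : ℕ} (hG : GH G k s) :
    ∃ (L : Type) (_ : LieRing L) (_ : LieAlgebra ℚ L), HS F L ∧ Pr L ∧
      ∃ b : L, b ≠ 0 ∧ ∃ n, ad ℚ L b ^ n = 0 := by
  by_cases hn : ∀ a : F, a ≠ 0 → ∀ n, ad ℚ F a ^ n ≠ 0
  · obtain ⟨w, hw⟩ := pr_ne hs ha k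
    choose χ p q z h1 h2 h3 using level hn hw hG
    let A := Fam fun t => G.Trunc fun ℓ => χ t ℓ ≠ 0
    have nl : ∀ (r : A) n, (∀ t, ad ℚ _ (r t) ^ n = 0) → ad ℚ A r ^ n = 0 := fun r n h =>
      LinearMap.ext fun u => funext fun t => (ad_hom (fat t) r n u).trans
        (LinearMap.congr_fun (h t) _)
    let Z : ℕ → A := fun i t => z t i
    let c : ℕ → A := fun t => Nat.rec ((p : A) + q) (fun t u => ⁅u, ⁅u, Z t⁆⁆) t
    obtain ⟨P, h4, h5⟩ := exists_prime c Z (fun _ => rfl) fun t h => h3 t (by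
      have := congrFun ((seq_eq c Z (fun _ => rfl) t).symm.trans h) t
      rw [Fam.lev_apply] at this
      refine Eq.trans (congrArg _ (funext fun i => ?_)) this
      cases lab t i <;> rfl)
    refine ⟨A ⧸ P, inferInstance, inferInstance, (HS.fam fun t => G.hs_trunc _).quot P, h5, ?_⟩
    by_cases h6 : qm P p = 0
    · refine ⟨qm P q, fun h7 => h4 0 (qm_eq_zero.1 ?_), _, nil_quot P (nl q _ h2)⟩
      exact (map_add (qm P) _ _).trans (by rw [h6, h7, add_zero])
    · exact ⟨qm P p, h6, _, nil_quot P (nl p _ h1)⟩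
  · push Not at hn
    obtain ⟨b, hb, n, h⟩ := hn
    obtain ⟨P, h1, h2⟩ := semi_prime hs hb
    exact ⟨F ⧸ P, inferInstance, inferInstance, HS.base.quot P, h2, qm P b,
      fun h3 => h1 (qm_eq_zero.1 h3), n, nil_quot P h⟩

/-- The end of the key step. -/
theorem k5 [Infinite ι] (hs : ∀ a : F, (∀ W : List F, ⁅adw W a, a⁆ = 0) → a = 0)
    {a : F} (ha : a ≠ 0) {k s s' : ℕ} (hG : GH G k s)
    (hQ : ∀ (L : Type) [LieRing L] [LieAlgebra ℚ L], HS F L → ∀ (x : L) (v : (full k).Lf → L),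
      ∃ c : ℕ → L, (∀ j, c j ∈ Submodule.span ℚ (Set.range (lev (L := L) (full k)))) ∧ ∀ z : L,
      ⁅lev (full k) v, (ad ℚ L x ^ s') z⁆ = ∑ j ∈ range s', ⁅c j, (ad ℚ L x ^ j) z⁆) :
    ∃ (L : Type) (_ : LieRing L) (_ : LieAlgebra ℚ L), HS F L ∧ NT L s' ∧
      ∃ b : L, b ≠ 0 ∧ ∃ n, ad ℚ L b ^ n = 0 := by
  obtain ⟨L, _, _, h1, h2, b, h3, h4⟩ := exists_pr hs ha hG
  exact ⟨L, _, _, h1, nt_full h2 h3 k s' (hQ L h1), b, h3, h4⟩

end Pool.Agent.MP_2a197d_al.K5

end MrgPart5

-- marker of a merged file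
example : 731051 + 78779 = 731051 + 78779 := rfl
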