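import Mathlib.RingTheory.MvPolynomial
import Mathlib.Tactic.Polynomial.Basic
import Pool.Agent.MP_2a197d_al.KA
import Pool.Agent.MP_2a197d_al.K5b

-- ======== part 0: formerly Pool.Agent.MP_2a197d_al.KD
section MrgPart0

/-! From the vanishing of a derived word modulo torsion to a recurrence relation. -/

set_option linter.unusedSectionVars false

namespace Pool.Agent.MP_2a197d_al.KY

open Function T

section gen
variable {L : Type} [LieRing L] [LieAlgebra ℚ L]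

/-- Span of the values of a tree on a set. -/
def Vs (S : Set L) (t : T) : Submodule ℚ L :=
  Submodule.span ℚ {v | ∃ a : t.Lf → L, (∀ i, a i ∈ S) ∧ lev t a = v}

theorem Vs_nd {S : Set L} {a b : T} {p q : L} (hp : p ∈ Vs S a) (hq : q ∈ Vs S b) :
    ⁅p, q⁆ ∈ Vs S (nd a b) := by
  refine br_span hp hq ?_
  rintro _ ⟨u, hu, rfl⟩ _ ⟨v, hv, rfl⟩
  exact Submodule.subset_span ⟨Sum.elim u v, by rintro (i | i); exacts [hu i, hv i], rfl⟩

theorem lie_Vs {S : Set L} {u : L} (h : ∀ s ∈ S, ⁅u, s⁆ ∈ Submodule.span ℚ S) :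
    ∀ (t : T), ∀ v ∈ Vs S t, ⁅u, v⁆ ∈ Vs S t := by
  intro t
  suffices H : ∀ a : t.Lf → L, (∀ i, a i ∈ S) → ⁅u, lev t a⁆ ∈ Vs S t by
    intro v hv
    refine (Submodule.span_le (p := (Vs S t).comap (LieAlgebra.ad ℚ L u))).2 ?_ hv
    rintro _ ⟨a, ha, rfl⟩
    exact H a ha
  induction t with
  | lf =>
    intro a ha
    refine Submodule.span_mono (fun s hs => ?_) (h _ (ha ()))
    exact ⟨fun _ => s, fun _ => hs, rfl⟩
  | nd b c ih ih' =>
    intro a ha
    rw [lev_nd, leibniz_lie]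
    exact add_mem (Vs_nd (ih _ fun _ => ha _) (Submodule.subset_span ⟨_, fun _ => ha _, rfl⟩))
      (Vs_nd (Submodule.subset_span ⟨_, fun _ => ha _, rfl⟩) (ih' _ fun _ => ha _))

/-- The centraliser of an invariant subspace. -/
def cen (Y : Submodule ℚ L) (hY : ∀ u : L, ∀ v ∈ Y, ⁅u, v⁆ ∈ Y) : LieIdeal ℚ L where
  carrier := {u | ∀ v ∈ Y, ⁅u, v⁆ = 0}
  zero_mem' v _ := zero_lie v
  add_mem' h h' v hv := by rw [add_lie, h v hv, h' v hv, add_zero]
  smul_mem' c _ h v hv := by rw [smul_lie, h v hv, smul_zero]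
  lie_mem {a u} h v hv := by rw [lie_lie, h v hv, h _ (hY a v hv), lie_zero, sub_zero]

theorem xy (X Y : Set L) (h1 : ∀ a ∈ X, ∀ y ∈ Y, ⁅a, y⁆ ∈ X ∧ ⁅a, y⁆ ∈ Y)
    (h2 : ∀ a ∈ X, ∀ y ∈ Y, ∀ y' ∈ Y, ⁅a, ⁅y, y'⁆⁆ = 0)
    (h3 : ∀ u : L, (∀ y ∈ Y, ⁅u, y⁆ = 0) → u = 0) : ∀ a ∈ X, ∀ b ∈ X, ⁅a, b⁆ = 0 := by
  have e : ∀ a b y : L, ⁅⁅a, b⁆, y⁆ = ⁅a, ⁅b, y⁆⁆ - ⁅b, ⁅a, y⁆⁆ := fun a b y => lie_lie a b y
  have s1 : ∀ a ∈ X, a ∈ Y → ∀ b ∈ X, b ∈ Y → ⁅a, b⁆ = 0 := fun a ha ha' b hb hb' =>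
    h3 _ fun y hy => by rw [e, h2 a ha b hb' y hy, h2 b hb a ha' y hy, sub_zero]
  have s2 : ∀ a ∈ X, ∀ b ∈ X, b ∈ Y → ⁅a, b⁆ = 0 := fun a ha b hb hb' =>
    h3 _ fun y hy => by
      rw [e, h2 a ha b hb' y hy, s1 b hb hb' _ (h1 a ha y hy).1 (h1 a ha y hy).2, sub_zero]
  exact fun a ha b hb => h3 _ fun y hy => by
    rw [e, s2 a ha _ (h1 b hb y hy).1 (h1 b hb y hy).2, s2 b hb _ (h1 a ha y hy).1 (h1 a ha y hy).2,
      sub_zero]

theorem fresh {ι : Type} {s : Set ι} (hs : s.Infinite) (S : Finset ι) (κ : Type) [Fintype κ] :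
    ∃ e : κ → ι, Injective e ∧ ∀ k, e k ∈ s ∧ e k ∉ S := by
  obtain ⟨e, he⟩ := exists_injective_nat κ
  have h := hs.sdiff S.finite_toSet
  exact ⟨fun k => h.natEmbedding _ (e k),
    (Subtype.val_injective.comp (h.natEmbedding _).injective).comp he,
    fun k => (h.natEmbedding _ (e k)).2⟩

end gen

variable {ι F : Type} [LieRing F] [LieAlgebra ℚ F] [DecidableEq ι]

namespace Fr

variable {G : Fr ι F}

section lin
variable {L : Type} [LieRing L] [LieAlgebra ℚ L]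

theorem Mon.agree {φ ψ : F →ₗ⁅ℚ⁆ L} {e S n} (h : G.Mon e S n) :
    e = 0 → (∀ i ∈ S, φ (G.y i) = ψ (G.y i)) → φ n = ψ n := by
  induction h with
  | gen j => exact fun _ h => h j (by simp)
  | dx _ _ => intro h; omega
  | br _ _ _ ih ih' =>
    intro he h
    rw [LieHom.map_lie, LieHom.map_lie, ih (by omega) fun i hi => h i (by simp [hi]),
      ih' (by omega) fun i hi => h i (by simp [hi])]

theorem agree {φ ψ : F →ₗ⁅ℚ⁆ L} {S n} (h : n ∈ G.Ml 1 S)
    (h1 : ∀ i ∈ S, φ (G.y i) = ψ (G.y i)) : φ n = ψ n :=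
  LinearMap.eqOn_span (f := (φ : F →ₗ[ℚ] L)) (g := (ψ : F →ₗ[ℚ] L))
    (fun _ hm => hm.elim fun _ hm => hm.2.agree (by omega) h1) h

theorem Mon.lin {φ ψ χ : F →ₗ⁅ℚ⁆ L} {i : ι} {c : ℚ}
    (h1 : ∀ j ≠ i, φ (G.y j) = χ (G.y j) ∧ ψ (G.y j) = χ (G.y j))
    (h2 : χ (G.y i) = c • φ (G.y i) + ψ (G.y i)) {e S n} (h : G.Mon e S n) :
    e = 0 → i ∈ S → χ n = c • φ n + ψ n := by
  induction h with
  | gen j => intro _ h; rw [← Finset.mem_singleton.1 h, h2]
  | dx _ _ => intro h; omega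
  | br h h' hd ih ih' =>
    intro he hi
    simp only [LieHom.map_lie]
    rcases Finset.mem_union.1 hi with hi | hi
    · have hn := Finset.disjoint_left.1 hd hi
      rw [ih (by omega) hi, h'.agree (φ := φ) (ψ := χ) (by omega) fun j hj =>
        (h1 j fun e => hn (e ▸ hj)).1, h'.agree (φ := ψ) (ψ := χ) (by omega) fun j hj =>
        (h1 j fun e => hn (e ▸ hj)).2, add_lie, smul_lie]
    · have hn := Finset.disjoint_right.1 hd hi
      rw [ih' (by omega) hi, h.agree (φ := φ) (ψ := χ) (by omega) fun j hj =>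
        (h1 j fun e => hn (e ▸ hj)).1, h.agree (φ := ψ) (ψ := χ) (by omega) fun j hj =>
        (h1 j fun e => hn (e ▸ hj)).2, lie_add, lie_smul]

theorem lin {φ ψ χ : F →ₗ⁅ℚ⁆ L} {i : ι} {c : ℚ}
    (h1 : ∀ j ≠ i, φ (G.y j) = χ (G.y j) ∧ ψ (G.y j) = χ (G.y j))
    (h2 : χ (G.y i) = c • φ (G.y i) + ψ (G.y i)) {S n} (h : n ∈ G.Ml 1 S) (hi : i ∈ S) :
    χ n = c • φ n + ψ n :=
  LinearMap.eqOn_span (f := (χ : F →ₗ[ℚ] L)) (g := c • (φ : F →ₗ[ℚ] L) + (ψ : F →ₗ[ℚ] L))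
    (fun _ hm => hm.elim fun _ hm => hm.2.lin h1 h2 (by omega) hi) h

theorem ml_span (hL : HS F L) (a : L) {S n} (h : n ∈ G.Ml 1 S) (B : ι → Set L)
    (h0 : ∀ v : ι → L, (∀ i ∈ S, v i ∈ B i) → G.hom hL a v n = 0) (v : ι → L)
    (hv : ∀ i ∈ S, v i ∈ Submodule.span ℚ (B i)) : G.hom hL a v n = 0 := by
  suffices H : ∀ R : Finset ι, R ⊆ S → ∀ v : ι → L, (∀ i ∈ S, i ∉ R → v i ∈ B i) →
      (∀ i ∈ R, v i ∈ Submodule.span ℚ (B i)) → G.hom hL a v n = 0 from
    H S subset_rfl v (fun _ h h' => absurd h h') hv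
  intro R
  induction R using Finset.induction_on with
  | empty => exact fun _ v h1 _ => h0 v fun i hi => h1 i hi (by simp)
  | insert i R hi ih =>
    intro hR v h1 h2
    have hl : ∀ (c : ℚ) (p q : L), G.hom hL a (update v i (c • p + q)) n =
        c • G.hom hL a (update v i p) n + G.hom hL a (update v i q) n := fun c p q =>
      lin (i := i) (fun j hj => by simp [hom_y, hj]) (by simp [hom_y]) h (hR (by simp))
    have hz : G.hom hL a (update v i 0) n = 0 := by simpa using hl (-1) 0 0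
    have : ∀ p ∈ Submodule.span ℚ (B i), G.hom hL a (update v i p) n = 0 := by
      intro p hp
      induction hp using Submodule.span_induction with
      | mem p hp =>
        refine ih ((Finset.subset_insert _ _).trans hR) _ (fun j hj hj' => ?_) fun j hj => ?_
        · by_cases e : j = i
          · rw [e, update_self]; exact hp
          · rw [update_of_ne e]; exact h1 j hj (by simp [e, hj'])
        · rw [update_of_ne fun e => hi (by rw [← e]; exact hj)]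
          exact h2 j (by simp [hj])
      | zero => exact hz
      | add p q _ _ hp hq => simpa [hp, hq] using hl 1 p q
      | smul c p _ hp => simpa [hp, hz] using hl c p 0
    simpa using this _ (h2 i (by simp))

theorem hom_lev (hL : HS F L) (a : L) {t : T} {e : t.Lf → ι} (he : Injective e) (c : t.Lf → L)
    (v : ι → L) : G.hom hL a (extend e c v) (lev t fun i => G.y (e i)) = lev t c := by
  simp only [lev_hom, hom_y, he.extend_apply]

end lin

theorem lie_meml {S U m n} (hm : m ∈ G.Ml 1 S) (hn : n ∈ G.Ml 1 U) (hd : Disjoint S U) :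
    ⁅m, n⁆ ∈ G.Ml 1 (S ∪ U) :=
  br_span hm hn fun _ ⟨_, _, h⟩ _ ⟨_, _, h'⟩ => (h.br h' hd).meml (by omega)

theorem inn_lev (H : (ι →₀ ℚ) → Prop) {t : T} {e : t.Lf → ι} (he : Injective e) :
    G.inn H (Finset.univ.image e) (lev t fun i => G.y (e i)) =
      lev t fun i => G.inn H {e i} (G.y (e i)) := by
  have := ev_pd (H := H) (ρ := LieHom.id) (B := fun i => {i})
    (φ := G.hom (G.hs_trunc _) 0 fun i => G.inn _ {i} (G.y i)) rfl
    ((lev_mon t e he).meml one_pos)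
    (fun i _ => y_mem i) (fun i _ => G.hom_y _ _ _ i) (fun i _ j _ h => by simpa using h)
  rw [Finset.biUnion_singleton_eq_self, lev_hom] at this
  simpa only [hom_y, LieHom.id_apply] using this.symm

theorem Tor.eq_zero {H : (ι →₀ ℚ) → Prop} {S : Finset ι} (hH : ∀ ℓ, H ℓ → ¬ ℓ.support ⊆ S) {n : F}
    (h : G.Tor H S n) : n = 0 := by
  cases h with
  | zero => rfl
  | step ℓ h1 h2 _ => exact absurd h2 (hH ℓ h1)

theorem split {H : (ι →₀ ℚ) → Prop} {S U : Finset ι} {n : F} (hn : n ∈ G.M U) {p : F}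
    (h : G.Tor H (S ∪ U) p) : ∃ q : F →ₗ[ℚ] F, (∀ ℓ m, q (G.op ℓ m) = G.op ℓ (q m)) ∧
      (∀ m ∈ G.M S, q ⁅m, n⁆ = ⁅q m, n⁆ ∧ q m ∈ G.M S) ∧ (∀ m, G.Tor H S (q m) → G.Tor H S m) ∧
      G.Tor (fun ℓ => ∃ j ∈ U, ℓ j ≠ 0) (S ∪ U) (q p) := by
  induction h with
  | zero => exact ⟨LinearMap.id, fun _ _ => rfl, fun _ h => ⟨rfl, h⟩, fun _ h => h, .zero⟩
  | step ℓ h1 h2 _ ih =>
    obtain ⟨q, q1, q2, q3, q4⟩ := ih
    by_cases hU : ∃ j ∈ U, ℓ j ≠ 0
    · exact ⟨q, q1, q2, q3, .step ℓ hU h2 (q1 _ _ ▸ q4)⟩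
    have hd : Disjoint U ℓ.support := Finset.disjoint_left.2 fun j hj hj' =>
      hU ⟨j, hj, Finsupp.mem_support_iff.1 hj'⟩
    refine ⟨q ∘ₗ G.op ℓ, fun ℓ' m => ?_, fun m hm => ?_, fun m hm => ?_, q4⟩
    · simp only [LinearMap.comp_apply]; rw [op_comm, q1]
    · simp only [LinearMap.comp_apply]
      rw [op_lie_left hn hd]
      exact q2 _ (op_mem hm ℓ)
    · refine .step ℓ h1 (fun j hj => ?_) (q3 _ hm)
      exact (Finset.mem_union.1 (h2 hj)).resolve_right (Finset.disjoint_right.1 hd hj)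

section generic
variable (G) (Z : Set ι)

/-- Forms involving a generic variable. -/
def Hg (ℓ : ι →₀ ℚ) : Prop := ∃ j ∈ Z, ℓ j ≠ 0

/-- Homogeneous elements involving a generic variable. -/
def Gs : Set (G.Trunc (Hg Z)) :=
  {v | ∃ B c, c ∈ G.M B ∧ (∃ j ∈ B, j ∈ Z) ∧ G.inn (Hg Z) B c = v}

theorem lie_Gs (u : G.Trunc (Hg Z)) : ∀ s ∈ G.Gs Z, ⁅u, s⁆ ∈ Submodule.span ℚ (G.Gs Z) := by
  intro s hs
  refine br_span (trunc_span u) (Submodule.subset_span hs) ?_
  rintro _ ⟨S, m, hm, rfl⟩ _ ⟨B, c, hc, ⟨j, hj, hZ⟩, rfl⟩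
  rw [inn_lie hm hc]
  split_ifs with hd
  · exact Submodule.subset_span ⟨_, _, lie_mem hm hc hd, ⟨j, by simp [hj], hZ⟩, rfl⟩
  · exact zero_mem _

/-- Centraliser of a derived term of the generic part. -/
noncomputable def Cg (j : ℕ) : LieIdeal ℚ (G.Trunc (Hg Z)) :=
  cen (Vs (G.Gs Z) (full j)) fun u => lie_Vs (G.lie_Gs Z u) _

variable {G Z}

theorem mem_Cg {j : ℕ} {u : G.Trunc (Hg Z)} (h : ∀ a : (full j).Lf → G.Trunc (Hg Z),
    (∀ i, a i ∈ G.Gs Z) → ⁅u, lev (full j) a⁆ = 0) : u ∈ G.Cg Z j := fun _ hv =>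
  (Submodule.span_le (p := LinearMap.ker (LieAlgebra.ad ℚ _ u))).2
    (by rintro _ ⟨a, ha, rfl⟩; exact h a ha) hv

theorem van {S U : Finset ι} {n : F} (hn : n ∈ G.Ml 1 S)
    (h : G.Tor (fun ℓ => ∃ j ∈ U, ℓ j ≠ 0) S n) (v : ι → G.Trunc (Hg Z))
    (hv : ∀ i ∈ U, v i ∈ G.Gs Z) : G.hom (G.hs_trunc _) 0 v n = 0 := by
  refine ml_span _ _ hn (fun i => {w | ∃ B c, c ∈ G.M B ∧ (i ∈ U → ∃ j ∈ B, j ∈ Z) ∧
    G.inn (Hg Z) B c = w}) (fun v hv => ?_) v fun i _ => ?_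
  · choose! B c h1 h2 h3 using hv
    let ρ := G.hom .base G.x c
    have hx : ρ G.x = G.x := G.hom_x _ _ _
    have a1 : ∀ i ∈ S, ρ (G.y i) ∈ G.M (B i) := fun i hi => by rw [hom_y]; exact h1 i hi
    have a2 : ∀ i ∈ S, G.hom (G.hs_trunc _) 0 v (G.y i) = G.inn (Hg Z) (B i) (ρ (G.y i)) :=
      fun i hi => by rw [hom_y, hom_y, h3 i hi]
    by_cases p : PD S B
    · rw [ev_pd hx hn a1 a2 p, inn_eq_zero (sub_mem hx a1 p (Ml_le _ _ hn))]
      refine h.sub hx a1 p ?_ (Ml_le _ _ hn)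
      rintro ℓ ⟨i, hi, h4⟩ h5
      have hS := h5 (Finsupp.mem_support_iff.2 h4)
      obtain ⟨j, hj, hZ⟩ := h2 i hS hi
      exact ⟨j, hZ, by rwa [push_apply h5 p hS hj]⟩
    · exact ev_npd hx hn a1 a2 p
  · by_cases hi : i ∈ U
    · obtain ⟨B, c, h1, h2, h3⟩ := hv i hi
      exact Submodule.subset_span ⟨B, c, h1, fun _ => h2, h3⟩
    · refine Submodule.span_mono ?_ (trunc_span _)
      rintro _ ⟨B, c, h1, h3⟩
      exact ⟨B, c, h1, fun h => absurd h hi, h3⟩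

theorem ext_Gs {t : T} {e : t.Lf → ι} (he : Injective e) {a : t.Lf → G.Trunc (Hg Z)}
    (ha : ∀ i, a i ∈ G.Gs Z) (v : ι → G.Trunc (Hg Z)) :
    ∀ i ∈ Finset.univ.image e, extend e a v i ∈ G.Gs Z := by
  intro i hi
  obtain ⟨k, -, rfl⟩ := Finset.mem_image.1 hi
  rw [he.extend_apply]; exact ha k

/-- Elimination of the distinguished generator. -/
def K2 (G : Fr ι F) : Prop := ∀ {S U : Finset ι} {n b : F}, n ∈ G.Ml 1 U → b ∈ G.M S → b ≠ 0 →
  Disjoint S U → G.Tor (fun ℓ => ∃ j ∈ U, ℓ j ≠ 0) (S ∪ U) ⁅b, n⁆ →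
    ∃ S' f, f ∈ G.Ml 1 S' ∧ f ≠ 0 ∧ Disjoint S' U ∧
      G.Tor (fun ℓ => ∃ j ∈ U, ℓ j ≠ 0) (S' ∪ U) ⁅f, n⁆

theorem step1 (hK : G.K2) (hZ : Z.Infinite)
    (hmin : ∀ I : LieIdeal ℚ F, (∀ θ : F →ₗ⁅ℚ⁆ F, ∀ a ∈ I, θ a ∈ I) → I ≠ ⊥ →
      ∃ k, ∀ a, lev (full k) a ∈ I) {j : ℕ} {u : G.Trunc (Hg Z)} (hu : u ≠ 0)
    (h : u ∈ G.Cg Z j) : ∃ k, ∀ c, lev (full k) c ∈ G.Cg Z j := by
  obtain ⟨S, m, hm, h1, h2⟩ := trunc_comp hu
  obtain ⟨e, he, h3⟩ := fresh hZ S (full j).Lf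
  have hd : Disjoint S (Finset.univ.image e) := by
    rw [Finset.disjoint_right]
    intro i hi
    obtain ⟨k, -, rfl⟩ := Finset.mem_image.1 hi
    exact (h3 k).2
  have hn := lev_mon (G := G) _ e he
  obtain ⟨q, -, q2, q3, q4⟩ := split hn.mem (h2 _ _ hd hn.mem (h _ (by
    rw [inn_lev _ he]
    exact Submodule.subset_span ⟨_, fun i => ⟨_, _, y_mem _, ⟨e i, by simp, (h3 i).1⟩, rfl⟩, rfl⟩)))
  rw [(q2 m hm).1] at q4
  obtain ⟨S', f, f1, f2, f3, f4⟩ := hK (hn.meml one_pos) (q2 m hm).2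
    (fun h0 => h1 (q3 m (h0 ▸ .zero))) hd q4
  let I : LieIdeal ℚ F := ⨅ φ : F →ₗ⁅ℚ⁆ G.Trunc (Hg Z), (G.Cg Z j).comap φ
  have hI : ∀ a, a ∈ I ↔ ∀ φ : F →ₗ⁅ℚ⁆ G.Trunc (Hg Z), φ a ∈ G.Cg Z j := fun a => by
    simp [I, LieSubmodule.mem_iInf]
  have hf : f ∈ I := (hI f).2 fun φ => mem_Cg fun a ha => by
    have := van (lie_meml f1 (hn.meml one_pos) f3) f4 _ (ext_Gs he ha fun i => φ (G.y i))
    rwa [LieHom.map_lie, hom_lev _ _ he, agree (ψ := φ) f1 fun i hi => by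
      rw [hom_y, extend_apply']
      rintro ⟨k, rfl⟩
      exact Finset.disjoint_left.1 f3 hi (by simp)] at this
  obtain ⟨k, hk⟩ := hmin I (fun θ a ha => (hI _).2 fun φ => (hI a).1 ha (φ.comp θ))
    fun h0 => f2 (by simpa [h0] using hf)
  obtain ⟨e', he', -⟩ := fresh hZ ∅ (full k).Lf
  refine ⟨k, fun c => ?_⟩
  rw [← hom_lev (G := G) (G.hs_trunc _) 0 he' c 0]
  exact (hI _).1 (hk _) _

theorem step2 (hZ : Zᶜ.Infinite) (hns : ∀ k, ∃ a : (full k).Lf → F, lev (full k) a ≠ 0) {j k : ℕ}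
    (h : ∀ c, lev (full k) c ∈ G.Cg Z (j + 1)) : ∃ u ≠ 0, u ∈ G.Cg Z j := by
  by_contra! hc
  have := xy (G.Cg Z (j + 1) : Set (G.Trunc (Hg Z))) (Vs (G.Gs Z) (full j))
    (fun a ha y hy => ⟨lie_mem_left ℚ _ _ _ _ ha, lie_Vs (G.lie_Gs Z a) _ y hy⟩)
    (fun a ha y hy y' hy' => ha _ (Vs_nd hy hy')) fun u hu => by_contra fun h0 => hc u h0 hu
  obtain ⟨e, he, h3⟩ := fresh hZ ∅ (full (k + 1)).Lf
  have h4 : G.Tor (Hg Z) _ _ := (inn_eq_zero (lev_mon _ e he).mem).1 (by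
    rw [inn_lev _ he]; exact this _ (h _) _ (h _))
  obtain ⟨a, ha⟩ := hns (k + 1)
  refine ha ?_
  rw [← hom_lev (G := G) .base 0 he a 0, h4.eq_zero, map_zero]
  rintro ℓ ⟨i, hi, h5⟩ h6
  obtain ⟨l, -, rfl⟩ := Finset.mem_image.1 (h6 (Finsupp.mem_support_iff.2 h5))
  exact (h3 l).1 hi

end generic

theorem qh_of [Infinite ι] (hK : G.K2)
    (hmin : ∀ I : LieIdeal ℚ F, (∀ θ : F →ₗ⁅ℚ⁆ F, ∀ a ∈ I, θ a ∈ I) → I ≠ ⊥ →
      ∃ k, ∀ a, lev (full k) a ∈ I)
    (hns : ∀ k, ∃ a : (full k).Lf → F, lev (full k) a ≠ 0) (hP : G.PH) :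
    ∃ (k : ℕ) (e : (full k).Lf → ι) (z : ι), Injective e ∧ (∀ j, e j ≠ z) ∧
      G.Tor (fun ℓ => ℓ z ≠ 0) (Finset.univ.image e ∪ {z})
        ⁅lev (full k) fun j => G.y (e j), G.y z⁆ := by
  let ν := Infinite.natEmbedding ι
  let Z : Set ι := Set.range fun n => ν (2 * n)
  have hZ : Z.Infinite := Set.infinite_range_of_injective fun a b h => by
    have := ν.injective h; omega
  have hZ' : Zᶜ.Infinite := Set.infinite_of_injective_forall_mem (f := fun n => ν (2 * n + 1))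
    (fun a b h => by have := ν.injective h; omega) fun n ⟨m, h⟩ => by
      have := ν.injective h; omega
  have h0 : ∀ j, (∃ k, ∀ c, lev (full k) c ∈ G.Cg Z j) → ∃ k, ∀ c, lev (full k) c ∈ G.Cg Z 0 := by
    intro j
    induction j with
    | zero => exact id
    | succ j ih =>
      rintro ⟨k, hk⟩
      obtain ⟨u, hu, h⟩ := step2 hZ' hns hk
      exact ih (step1 hK hZ hmin hu h)
  obtain ⟨d, e, he, hd⟩ := hP
  obtain ⟨k, hk⟩ := h0 d ⟨0, fun c => mem_Cg fun a ha => by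
    have := van ((lev_mon _ e he).meml one_pos) (hd.mono (fun ℓ h1 h2 => by
      obtain ⟨j, hj⟩ := Finsupp.support_nonempty_iff.2 h1
      exact ⟨j, h2 hj, Finsupp.mem_support_iff.1 hj⟩) subset_rfl) _ (ext_Gs he ha 0)
    rw [hom_lev _ _ he] at this
    rw [this, lie_zero]⟩
  obtain ⟨e', he', h3⟩ := fresh hZ' ∅ (full k).Lf
  obtain ⟨z, hz⟩ := hZ.nonempty
  have hne : ∀ j, e' j ≠ z := fun j h => (h3 j).1 (h ▸ hz)
  have hD : Disjoint (Finset.univ.image e') {z} := by simpa using hne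
  have hm := (lev_mon (G := G) _ e' he').mem
  have h4 := hk (fun i => G.inn (Hg Z) {e' i} (G.y (e' i))) (G.inn (Hg Z) {z} (G.y z))
    (Submodule.subset_span ⟨fun _ => _, fun _ => ⟨_, _, y_mem z, ⟨z, by simp, hz⟩, rfl⟩, rfl⟩)
  rw [← inn_lev _ he', inn_lie hm (y_mem z), if_pos hD,
    inn_eq_zero (lie_mem hm (y_mem z) hD)] at h4
  refine ⟨k, e', z, he', hne, h4.mono ?_ subset_rfl⟩
  rintro ℓ ⟨i, hi, h5⟩ h6
  rcases Finset.mem_union.1 (h6 (Finsupp.mem_support_iff.2 h5)) with h7 | h7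
  · obtain ⟨l, -, rfl⟩ := Finset.mem_image.1 h7
    exact absurd hi (h3 l).1
  · rwa [← Finset.mem_singleton.1 h7]

end Fr

end Pool.Agent.MP_2a197d_al.KY

end MrgPart0

-- ======== part 1: formerly Pool.Agent.MP_2a197d_al.KB
section MrgPart1

/-! Removing the distinguished generator from a torsion relation. -/

set_option linter.unusedSectionVars false

namespace Pool.Agent.MP_2a197d_al.KY

open Function TensorProduct

variable {ι F : Type} [LieRing F] [LieAlgebra ℚ F] [DecidableEq ι]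

namespace Fr

variable (G : Fr ι F)

theorem exists_del (v : ι) : ∃ d : F →ₗ[ℚ] F, d G.x = G.y v ∧ (∀ j, d (G.y j) = 0) ∧
    ∀ a b, d ⁅a, b⁆ = ⁅d a, b⁆ + ⁅a, d b⁆ := by
  let φ := G.hom (HS.base.tens ι)
    ((1 : MvPolynomial ι ℚ) ⊗ₜ[ℚ] G.x + MvPolynomial.X v ⊗ₜ[ℚ] G.y v)
    fun j => (1 : MvPolynomial ι ℚ) ⊗ₜ[ℚ] G.y j
  have hx : φ G.x = (1 : MvPolynomial ι ℚ) ⊗ₜ[ℚ] G.x + MvPolynomial.X v ⊗ₜ[ℚ] G.y v :=
    G.hom_x _ _ _
  have hy : ∀ j, φ (G.y j) = (1 : MvPolynomial ι ℚ) ⊗ₜ[ℚ] G.y j := G.hom_y _ _ _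
  have h0 : ∀ a, co 0 (φ a) = a := by
    refine G.induct _ (fun o => ?_) (by simp) (fun a b ha hb => by simp [ha, hb])
      (fun c a ha => by simp [ha]) fun a b ha hb => ?_
    · cases o with
      | none =>
        change co 0 (φ G.x) = G.x
        rw [hx, map_add, co_tmul, co_tmul]; simp
      | some j =>
        change co 0 (φ (G.y j)) = G.y j
        rw [hy, co_tmul]; simp
    · rw [LieHom.map_lie, co_lie]; simp [ha, hb]
  have hs : Finsupp.single v 1 ≠ (0 : ι →₀ ℕ) := by simp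
  refine ⟨co (Finsupp.single v 1) ∘ₗ (φ : F →ₗ[ℚ] _), ?_, fun j => ?_, fun a b => ?_⟩
  · change co _ (φ G.x) = _
    rw [hx, map_add, co_tmul, co_tmul, MvPolynomial.coeff_one, if_neg hs.symm,
      MvPolynomial.coeff_X]
    simp
  · change co _ (φ (G.y j)) = _
    rw [hy, co_tmul, MvPolynomial.coeff_one, if_neg hs.symm, zero_smul]
  · change co _ (φ ⁅a, b⁆) = ⁅co _ (φ a), b⁆ + ⁅a, co _ (φ b)⁆
    rw [LieHom.map_lie, co_lie, Finsupp.antidiagonal_single, Finset.sum_map]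
    simp [Finset.Nat.antidiagonal_succ, h0, add_comm]

variable {G}

theorem span_map {V W : Type} [AddCommGroup V] [Module ℚ V] [AddCommGroup W] [Module ℚ W]
    (f : V →ₗ[ℚ] W) {s : Set V} {U : Submodule ℚ W} {m : V} (hm : m ∈ Submodule.span ℚ s)
    (h : ∀ p ∈ s, f p ∈ U) : f m ∈ U := (Submodule.span_le (p := U.comap f)).2 h hm

theorem Mon.fix {ρ : F →ₗ⁅ℚ⁆ F} (hx : ρ G.x = G.x) {e S m} (h : G.Mon e S m) :
    (∀ j ∈ S, ρ (G.y j) = G.y j) → ρ m = m := by
  induction h with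
  | gen j => exact fun h => h j (by simp)
  | dx _ ih => intro h; rw [LieHom.map_lie, hx, ih h]
  | br _ _ _ ih ih' =>
    intro h
    rw [LieHom.map_lie, ih fun j hj => h j (by simp [hj]), ih' fun j hj => h j (by simp [hj])]

section del
variable {v : ι} {d : F →ₗ[ℚ] F} (dx : d G.x = G.y v) (dy : ∀ j, d (G.y j) = 0)
  (dl : ∀ a b, d ⁅a, b⁆ = ⁅d a, b⁆ + ⁅a, d b⁆)
include dx dy dl

theorem Mon.del_mem {e S m} (h : G.Mon e S m) : v ∉ S →
    d m ∈ Submodule.span ℚ {p | ∃ e', e' + 1 = e ∧ G.Mon e' (insert v S) p} := by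
  induction h with
  | gen j => intro _; rw [dy]; exact zero_mem _
  | @dx e S m h ih =>
    intro hv
    rw [dl, dx]
    refine add_mem (Submodule.subset_span ⟨e, rfl, ?_⟩) ?_
    · have := (Mon.gen v).br h (by simpa using hv)
      rwa [zero_add, ← Finset.insert_eq] at this
    · refine span_map (LieAlgebra.ad ℚ F G.x) (ih hv) ?_
      rintro p ⟨e', he, hp⟩
      exact Submodule.subset_span ⟨e' + 1, by omega, hp.dx⟩
  | @br e e' S T m n h h' hd ih ih' =>
    intro hv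
    have h1 : v ∉ S := fun h => hv (by simp [h])
    have h2 : v ∉ T := fun h => hv (by simp [h])
    rw [dl]
    refine add_mem (br_span (ih h1) (Submodule.subset_span (Set.mem_singleton n)) ?_)
      (br_span (Submodule.subset_span (Set.mem_singleton m)) (ih' h2) ?_)
    · rintro p ⟨a, ha, hp⟩ q rfl
      refine Submodule.subset_span ⟨a + e', by omega, ?_⟩
      have := hp.br h' (by simp [hd, h2])
      rwa [Finset.insert_union] at this
    · rintro q rfl p ⟨a, ha, hp⟩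
      refine Submodule.subset_span ⟨e + a, by omega, ?_⟩
      have := h.br hp (by simp [hd, h1])
      rwa [Finset.union_insert] at this

theorem Mon.del_M {e S m} (h : G.Mon e S m) (hv : v ∉ S) : d m ∈ G.M (insert v S) :=
  Submodule.span_mono (by rintro _ ⟨e', _, hp⟩; exact ⟨e', hp⟩) (h.del_mem dx dy dl hv)

theorem del_Ml {k S m} (h : m ∈ G.Ml (k + 1) S) (hv : v ∉ S) : d m ∈ G.Ml k (insert v S) :=
  span_map d h (by
    rintro _ ⟨e, he, hm⟩
    exact Submodule.span_mono (by rintro _ ⟨e', h1, hp⟩; exact ⟨e', by omega, hp⟩)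
      (hm.del_mem dx dy dl hv))

theorem Mon.del_σ {i : ι} {V : F →ₗ⁅ℚ⁆ F} (Vx : V G.x = G.x) (Vi : V (G.y i) = ⁅G.y v, G.y i⁆)
    (Vj : ∀ j, j ≠ i → V (G.y j) = G.y j) {e S m} (h : G.Mon e S m) : v ∉ S → i ∈ S →
    d (G.σ i m) = G.σ i (d m) + V m := by
  induction h with
  | gen j =>
    intro _ hi
    obtain rfl := Finset.mem_singleton.1 hi
    rw [σ_self, dl, dx, dy, Vi]; simp
  | dx h ih =>
    intro hv hi
    have hvi : v ≠ i := fun e => hv (e ▸ hi)
    simp only [LieHom.map_lie, dl, dx, σ_x, map_add, ih hv hi, G.σ_ne hvi, Vx, lie_add]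
    abel
  | @br e e' S T m n h h' hd ih ih' =>
    intro hv hi
    have h1 : v ∉ S := fun h => hv (by simp [h])
    have h2 : v ∉ T := fun h => hv (by simp [h])
    have hvi : i ≠ v := fun e => hv (e ▸ hi)
    rcases Finset.mem_union.1 hi with hi | hi
    · have hT : i ∉ T := Finset.disjoint_left.1 hd hi
      have e1 := h'.σ_fix hT
      have e2 := Fr.σ_fix (h'.del_M dx dy dl h2) (i := i) (by simp [hT, hvi])
      have e3 := h'.fix Vx fun j hj => Vj j fun e => hT (e ▸ hj)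
      simp only [LieHom.map_lie, dl, map_add, ih h1 hi, e1, e2, e3, add_lie]
      abel
    · have hS : i ∉ S := Finset.disjoint_right.1 hd hi
      have e1 := h.σ_fix hS
      have e2 := Fr.σ_fix (h.del_M dx dy dl h1) (i := i) (by simp [hS, hvi])
      have e3 := h.fix Vx fun j hj => Vj j fun e => hS (e ▸ hj)
      simp only [LieHom.map_lie, dl, map_add, ih' h2 hi, e1, e2, e3, lie_add]
      abel

theorem Mon.euler {ρ : F →ₗ⁅ℚ⁆ F} (ρx : ρ G.x = G.x) (ρv : ρ (G.y v) = G.x)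
    (ρj : ∀ j, j ≠ v → ρ (G.y j) = G.y j) {e S m} (h : G.Mon e S m) : v ∉ S →
    ρ (d m) = (e : ℚ) • m := by
  induction h with
  | gen j => intro _; rw [dy]; simp
  | dx h ih =>
    intro hv
    have e1 := h.fix ρx fun j hj => ρj j fun e => hv (e ▸ hj)
    rw [dl, dx, map_add, LieHom.map_lie, LieHom.map_lie, ρv, ρx, e1, ih hv, lie_smul,
      Nat.cast_succ, add_smul, one_smul, add_comm]
  | @br e e' S T m n h h' hd ih ih' =>
    intro hv
    have h1 : v ∉ S := fun h => hv (by simp [h])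
    have h2 : v ∉ T := fun h => hv (by simp [h])
    have e1 := h.fix ρx fun j hj => ρj j fun e => h1 (e ▸ hj)
    have e2 := h'.fix ρx fun j hj => ρj j fun e => h2 (e ▸ hj)
    rw [dl, map_add, LieHom.map_lie, LieHom.map_lie, e1, e2, ih h1, ih' h2, lie_smul, smul_lie,
      Nat.cast_add, add_smul]

theorem Ml_of_del {k S m} (h : m ∈ G.Ml (k + 2) S) (hv : v ∉ S) (h0 : d m = 0) :
    m ∈ G.Ml (k + 1) S := by
  let ρ := G.hom .base G.x (update G.y v G.x)
  have key : ((k + 1 : ℕ) : ℚ) • m - ρ (d m) ∈ G.Ml (k + 1) S := by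
    refine span_map (((k + 1 : ℕ) : ℚ) • LinearMap.id - (ρ : F →ₗ[ℚ] F) ∘ₗ d) h ?_
    rintro p ⟨e, he, hp⟩
    change ((k + 1 : ℕ) : ℚ) • p - ρ (d p) ∈ G.Ml (k + 1) S
    rw [hp.euler dx dy dl (G.hom_x _ _ _) (by rw [hom_y, update_self])
      (fun j hj => by rw [hom_y, update_of_ne hj]) hv]
    by_cases h1 : e = k + 1
    · rw [h1, sub_self]; exact zero_mem _
    · rw [← sub_smul]; exact Submodule.smul_mem _ _ (hp.meml (by omega))
  rw [h0, map_zero, sub_zero] at key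
  exact (Submodule.smul_mem_iff _ (by positivity)).1 key

theorem Tor.del {T U : Finset ι} (hv : v ∉ U) (hT : T ⊆ U) {u : F}
    (h : G.Tor (fun ℓ => ∃ j ∈ T, ℓ j ≠ 0) U u) :
    u ∈ G.M U → G.Tor (fun ℓ => ∃ j ∈ T, ℓ j ≠ 0) (insert v U) (d u) := by
  induction h with
  | zero => intro _; rw [map_zero]; exact .zero
  | @step m ℓ h1 h2 h3 ih =>
    intro hm
    refine .step ℓ h1 (h2.trans (Finset.subset_insert _ _)) ?_
    let V : ι → F →ₗ⁅ℚ⁆ F := fun i => G.hom .base G.x (update G.y i ⁅G.y v, G.y i⁆)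
    have Vx : ∀ i, V i G.x = G.x := fun i => G.hom_x _ _ _
    have Vi : ∀ i, V i (G.y i) = ⁅G.y v, G.y i⁆ := fun i => by rw [hom_y, update_self]
    have Vj : ∀ i j, j ≠ i → V i (G.y j) = G.y j := fun i j hj => by rw [hom_y, update_of_ne hj]
    have e1 : ∀ i ∈ U, d (G.σ i m) = G.σ i (d m) + V i m := fun i hi =>
      M_ext (d ∘ₗ (G.σ i : F →ₗ[ℚ] F)) ((G.σ i : F →ₗ[ℚ] F) ∘ₗ d + (V i : F →ₗ[ℚ] F))
        (fun _ _ hp => hp.del_σ dx dy dl (Vx i) (Vi i) (Vj i) hv hi) hm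
    have e2 : G.op ℓ (d m) = d (G.op ℓ m) - ∑ i ∈ U, ℓ i • V i m := by
      rw [G.op_eq h2, G.op_eq h2, map_sum, ← Finset.sum_sub_distrib]
      refine Finset.sum_congr rfl fun i hi => ?_
      rw [map_smul, e1 i hi, smul_add, add_sub_cancel_right]
    have e3 : ∀ i ∈ U, G.Tor (fun ℓ => ∃ j ∈ T, ℓ j ≠ 0) (insert v U) (V i m) := by
      intro i hi
      let B : ι → Finset ι := fun j => if j = i then {v, i} else {j}
      have hB : ∀ j, j ∈ B j := fun j => by by_cases h : j = i <;> simp [B, h]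
      have hB2 : ∀ j ∈ U, ∀ a ∈ B j, a = j ∨ a = v ∧ j = i := fun j _ a ha => by
        by_cases h : j = i
        · simp only [B, h, if_true, Finset.mem_insert, Finset.mem_singleton] at ha
          rcases ha with ha | ha
          · exact Or.inr ⟨ha, h⟩
          · exact Or.inl (ha.trans h.symm)
        · simp only [B, h, if_false, Finset.mem_singleton] at ha
          exact Or.inl ha
      have pd : PD U B := fun j hj j' hj' hne => Finset.disjoint_left.2 fun a ha ha' => by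
        rcases hB2 j hj a ha with p | ⟨p, q⟩ <;> rcases hB2 j' hj' a ha' with p' | ⟨p', q'⟩
        · exact hne (p.symm.trans p')
        · exact hv (p' ▸ p ▸ hj)
        · exact hv (p ▸ p' ▸ hj')
        · exact hne (q.trans q'.symm)
      refine (Tor.sub (B := B) (Vx i) (fun j hj => ?_) pd (fun ℓ' ⟨j, hj, h4⟩ h5 =>
        ⟨j, hj, by rwa [push_apply h5 pd (hT hj) (hB j)]⟩) hm (.step ℓ h1 h2 h3)).mono
          (fun _ h _ => h) ?_
      · by_cases h : j = i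
        · subst h
          rw [Vi]
          have := lie_mem (y_mem (G := G) v) (y_mem j) (by
            simpa using fun e : v = j => hv (e ▸ hj))
          simpa [B] using this
        · rw [Vj i j h]; simpa [B, h] using y_mem j
      · intro a ha
        obtain ⟨j, hj, ha⟩ := Finset.mem_biUnion.1 ha
        rcases hB2 j hj a ha with p | ⟨p, -⟩
        · exact Finset.mem_insert_of_mem (p ▸ hj)
        · exact p ▸ Finset.mem_insert_self _ _
    rw [e2]
    exact (G.TorS _ _).sub_mem (ih (op_mem hm ℓ))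
      (Submodule.sum_mem _ fun i hi => Submodule.smul_mem _ _ (e3 i hi))

end del

theorem exists_Ml {S m} (h : m ∈ G.M S) : ∃ k, m ∈ G.Ml (k + 1) S := by
  have mono : ∀ {a b : ℕ}, a ≤ b → G.Ml a S ≤ G.Ml b S := fun hab =>
    Submodule.span_mono fun _ ⟨e, he, hp⟩ => ⟨e, by omega, hp⟩
  induction h using Submodule.span_induction with
  | mem p hp => obtain ⟨e, hp⟩ := hp; exact ⟨e, hp.meml (by omega)⟩
  | zero => exact ⟨0, zero_mem _⟩
  | add a b _ _ ha hb =>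
    obtain ⟨k, hk⟩ := ha
    obtain ⟨l, hl⟩ := hb
    exact ⟨k + l, add_mem (mono (by omega) hk) (mono (by omega) hl)⟩
  | smul c a _ ha => obtain ⟨k, hk⟩ := ha; exact ⟨k, Submodule.smul_mem _ _ hk⟩

/-- A torsion relation can be made free of the distinguished generator. -/
theorem free_x [Infinite ι] {S T : Finset ι} {n b : F} (hn : n ∈ G.Ml 1 T) (hb : b ∈ G.M S)
    (h0 : b ≠ 0) (hd : Disjoint S T)
    (h : G.Tor (fun ℓ => ∃ j ∈ T, ℓ j ≠ 0) (S ∪ T) ⁅b, n⁆) :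
    ∃ S2 f, f ∈ G.Ml 1 S2 ∧ f ≠ 0 ∧ Disjoint S2 T ∧
      G.Tor (fun ℓ => ∃ j ∈ T, ℓ j ≠ 0) (S2 ∪ T) ⁅f, n⁆ := by
  obtain ⟨k, hk⟩ := exists_Ml hb
  clear hb
  induction k generalizing S b with
  | zero => exact ⟨S, b, hk, h0, hd, h⟩
  | succ k ih =>
    obtain ⟨v, hv⟩ := Infinite.exists_notMem_finset (S ∪ T)
    have h1 : v ∉ S := fun h => hv (by simp [h])
    have h2 : v ∉ T := fun h => hv (by simp [h])
    obtain ⟨d, dx, dy, dl⟩ := G.exists_del v
    by_cases h3 : d b = 0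
    · exact ih h0 hd h (Ml_of_del dx dy dl hk h1 h3)
    · have h4 : d n = 0 := by
        have := del_Ml dx dy dl hn h2
        simpa [Ml] using this
      have h5 := h.del dx dy dl hv Finset.subset_union_right
        (lie_mem (Ml_le _ _ hk) (Ml_le _ _ hn) hd)
      rw [dl, h4, lie_zero, add_zero, ← Finset.insert_union] at h5
      exact ih h3 (by simp [hd, h2]) h5 (del_Ml dx dy dl hk h1)

theorem k2 [Infinite ι] : G.K2 := fun hn hb h0 hd h => free_x hn hb h0 hd h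

end Fr

end Pool.Agent.MP_2a197d_al.KY

end MrgPart1

-- ======== part 2: formerly Pool.Agent.MP_2a197d_al.EG7
section MrgPart2

/-! A prime quotient of a product of graded algebras with a nonzero ad-nilpotent element. -/

namespace Pool.Agent.MP_2a197d_al.EG

/-- The m-sequence starting at `u`. -/
def aa {L : Type*} [LieRing L] (u : L) (z : ℕ → L) : ℕ → L
  | 0 => u
  | t + 1 => ⁅aa u z t, ⁅aa u z t, z t⁆⁆

theorem aa_map {L L' : Type*} [LieRing L] [LieAlgebra ℚ L] [LieRing L'] [LieAlgebra ℚ L']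
    (f : L →ₗ⁅ℚ⁆ L') (u : L) (z : ℕ → L) (t : ℕ) :
    f (aa u z t) = aa (f u) (fun n => f (z n)) t := by
  induction t with
  | zero => rfl
  | succ t ih => rw [aa, aa, LieHom.map_lie, LieHom.map_lie, ih]

theorem ad_pow_map {L L' : Type*} [LieRing L] [LieAlgebra ℚ L] [LieRing L'] [LieAlgebra ℚ L']
    (f : L →ₗ⁅ℚ⁆ L') (u : L) (n : ℕ) (y : L) :
    f ((LieAlgebra.ad ℚ L u ^ n) y) = (LieAlgebra.ad ℚ L' (f u) ^ n) (f y) := by
  induction n with
  | zero => rfl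
  | succ n ih =>
    rw [pow_succ', pow_succ', Module.End.mul_apply, Module.End.mul_apply, ← ih]
    exact f.map_lie _ _

theorem fam_end {A : ℕ → Type} [∀ t, LieRing (A t)] [∀ t, LieAlgebra ℚ (A t)]
    (H B : ∀ t, ℚ → Set (A t)) (s : ℕ) (hG : ∀ t, Gr (H t) (B t) s)
    (hH : ∀ t (u : A t), u ∈ Submodule.span ℚ (⋃ q, H t q)) (g : ∀ t, A t)
    (hg : ∀ t, g t ∈ Submodule.span ℚ {x | ∃ p, x ∈ B t p ∧ p ≠ 0}) (z : ∀ t, ℕ → A t)
    (h0 : ∀ t, aa (g t) (z t) t ≠ 0) :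
    ∃ P : LieIdeal ℚ (Fam A), Pr (Fam A ⧸ P) ∧
      ∃ c : Fam A ⧸ P, c ≠ 0 ∧ ∃ n : ℕ, LieAlgebra.ad ℚ (Fam A ⧸ P) c ^ n = 0 := by
  have hs : ∀ t, ∃ u ∈ Submodule.span ℚ {x | ∃ p, x ∈ B t p ∧ 0 < 1 * p},
      ∃ v ∈ Submodule.span ℚ {x | ∃ p, x ∈ B t p ∧ 0 < -1 * p}, u + v = g t := fun t => by
    rw [← Submodule.mem_sup, ← Submodule.span_union]
    refine Submodule.span_mono ?_ (hg t)
    rintro x ⟨p, hp, h⟩
    rcases lt_or_gt_of_ne h with h | h
    · exact Or.inr ⟨p, hp, by linarith⟩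
    · exact Or.inl ⟨p, hp, by linarith⟩
  choose u hu v hv huv using hs
  obtain ⟨P, hP, hPr⟩ := exists_prime (L := Fam A) (aa (L := Fam A) g fun n t => z t n)
    (fun n t => z t n) (fun _ => rfl) fun t h => h0 t (by
      have := congrArg (KY.fat (L := A) t) h
      rwa [aa_map, map_zero] at this)
  have nil : ∀ (e : ℚ) (w : Fam A),
      (∀ t, w t ∈ Submodule.span ℚ {x | ∃ p, x ∈ B t p ∧ 0 < e * p}) →
      LieAlgebra.ad ℚ (Fam A ⧸ P) (KY.qm P w) ^ (s * (s + 1) ^ s + 1) = 0 := fun e w hw => by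
    ext y
    obtain ⟨y, rfl⟩ := KY.qm_surj P y
    rw [← ad_pow_map, LinearMap.zero_apply, KY.qm_eq_zero]
    convert P.zero_mem
    funext t
    have := ad_pow_map (KY.fat (L := A) t) w (s * (s + 1) ^ s + 1) y
    rw [show KY.fat (L := A) t w = w t from rfl, (hG t).nilp (hH t) e (hw t)] at this
    exact this
  refine ⟨P, hPr, ?_⟩
  by_cases h : KY.qm P u = 0
  · refine ⟨KY.qm P v, fun h' => hP 0 ?_, _, nil (-1) v hv⟩
    have : (g : Fam A) = (show Fam A from u) + (show Fam A from v) := funext fun t => (huv t).symm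
    show (g : Fam A) ∈ P
    rw [this]
    exact P.add_mem (KY.qm_eq_zero.1 h) (KY.qm_eq_zero.1 h')
  · exact ⟨_, h, _, nil 1 u hu⟩

end Pool.Agent.MP_2a197d_al.EG

end MrgPart2

-- ======== part 3: formerly Pool.Agent.MP_2a197d_al.KC
section MrgPart3

/-! Consequences of the torsion identity for derived words: the grading of the truncated algebras
and the shortening identity. -/

set_option linter.unusedSectionVars false

namespace Pool.Agent.MP_2a197d_al.KY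

open Function T

section leib
variable {L : Type} [LieRing L] [LieAlgebra ℚ L]

theorem lev_leib (m : L) : ∀ (t : T) (c : t.Lf → L),
    ⁅m, lev t c⁆ = ∑ j, lev t (update c j ⁅m, c j⁆)
  | .lf, c => by
    refine Eq.trans ?_ (@Fintype.sum_eq_single T.lf.Lf L (instFin _) _ _ ()
      fun j hj => absurd rfl hj).symm
    exact (update_self (β := fun _ : T.lf.Lf => L) () _ c).symm
  | .nd a b, c => by
    have hl : ∀ x : (T.nd a b).Lf → L, lev (.nd a b) x = ⁅lev a (x ∘ il a b), lev b (x ∘ ir a b)⁆ :=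
      fun _ => rfl
    rw [hl, leibniz_lie, lev_leib m a, lev_leib m b, sum_lie, lie_sum]
    refine Eq.trans ?_ (@Fintype.sum_sum_type a.Lf b.Lf L (instFin a) (instFin b) _ _).symm
    congr 1 <;> refine Finset.sum_congr rfl fun j _ => ?_
    · change _ = lev (.nd a b) (update c (il a b j) _)
      rw [hl, update_comp_eq_of_injective c (il_inj a b),
        update_comp_eq_of_forall_ne c _ fun k => (il_ne_ir a b j k).symm]
      rfl
    · change _ = lev (.nd a b) (update c (ir a b j) _)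
      rw [hl, update_comp_eq_of_injective c (ir_inj a b),
        update_comp_eq_of_forall_ne c _ fun k => il_ne_ir a b k j]
      rfl

/-- The span of the values of a tree is an ideal. -/
theorem lev_hB (t : T) (y : L) : ∀ b ∈ Set.range (lev (L := L) t),
    ⁅y, b⁆ ∈ Submodule.span ℚ (Set.range (lev (L := L) t)) := by
  rintro _ ⟨c, rfl⟩
  rw [lev_leib]
  exact Submodule.sum_mem _ fun j _ => Submodule.subset_span ⟨_, rfl⟩

end leib

variable {ι F : Type} [LieRing F] [LieAlgebra ℚ F] [DecidableEq ι]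

namespace Fr

variable (G : Fr ι F)

/-- A product of forms involving `z` kills the bracket of a derived word with `y z`. -/
def QH (k : ℕ) : Prop := ∃ (e : (full k).Lf → ι) (z : ι), Injective e ∧ (∀ j, e j ≠ z) ∧
  G.Tor (fun l => l z ≠ 0) (Finset.univ.image e ∪ {z}) ⁅lev (full k) fun j => G.y (e j), G.y z⁆

/-- Homogeneous elements of weight `q`. -/
def Hm (χ : (ι →₀ ℚ) →ₗ[ℚ] ℚ) (q : ℚ) : Set (G.Trunc fun l => χ l ≠ 0) :=
  {v | v = 0 ∨ ∃ S m, m ∈ G.M S ∧ χ (ind ℚ S) = q ∧ v = G.inn _ S m}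

/-- Basic elements of weight `q`. -/
def Bs (χ : (ι →₀ ℚ) →ₗ[ℚ] ℚ) (k : ℕ) (q : ℚ) : Set (G.Trunc fun l => χ l ≠ 0) :=
  {v | ∃ (B : (full k).Lf → Finset ι) (c : (full k).Lf → F), (∀ j, c j ∈ G.M (B j)) ∧
    (∀ i j, i ≠ j → Disjoint (B i) (B j)) ∧ χ (ind ℚ (Finset.univ.biUnion B)) = q ∧
    v = G.inn _ (Finset.univ.biUnion B) (lev (full k) c)}

variable {G}

theorem lev_M : ∀ (t : T) (B : t.Lf → Finset ι) (c : t.Lf → F), (∀ j, c j ∈ G.M (B j)) →
    (∀ i j, i ≠ j → Disjoint (B i) (B j)) → lev t c ∈ G.M (Finset.univ.biUnion B)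
  | .lf, B, c, h, _ => by
    have : Finset.univ.biUnion B = B () := by
      ext j
      simp only [Finset.mem_biUnion, Finset.mem_univ, true_and]
      exact ⟨fun ⟨_, h⟩ => h, fun h => ⟨(), h⟩⟩
    rw [this]; exact h ()
  | .nd a b, B, c, h, hd => by
    have : Finset.univ.biUnion B =
        Finset.univ.biUnion (B ∘ il a b) ∪ Finset.univ.biUnion (B ∘ ir a b) := by
      ext j
      simp only [Finset.mem_biUnion, Finset.mem_univ, true_and, Finset.mem_union]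
      exact ⟨fun ⟨i, h⟩ => by rcases i with i | i; exacts [.inl ⟨i, h⟩, .inr ⟨i, h⟩],
        fun h => h.elim (fun ⟨_, h⟩ => ⟨_, h⟩) fun ⟨_, h⟩ => ⟨_, h⟩⟩
    rw [this]
    refine lie_mem (lev_M a _ _ (fun j => h _) fun i j hij => hd _ _ ((il_inj a b).ne hij))
      (lev_M b _ _ (fun j => h _) fun i j hij => hd _ _ ((ir_inj a b).ne hij)) ?_
    rw [Finset.disjoint_biUnion_left]
    intro i _
    rw [Finset.disjoint_biUnion_right]
    exact fun j _ => hd _ _ (il_ne_ir a b i j)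

theorem Hm_span (χ : (ι →₀ ℚ) →ₗ[ℚ] ℚ) (u : G.Trunc fun l => χ l ≠ 0) :
    u ∈ Submodule.span ℚ (⋃ q, G.Hm χ q) :=
  Submodule.span_mono (by
    rintro _ ⟨S, m, hm, rfl⟩
    exact Set.mem_iUnion.2 ⟨_, Or.inr ⟨S, m, hm, rfl, rfl⟩⟩) (trunc_span u)

/-- The bracket of a homogeneous and a basic element is a sum of basic elements. -/
theorem Hm_Bs (χ : (ι →₀ ℚ) →ₗ[ℚ] ℚ) (k : ℕ) (p q : ℚ) : ∀ u ∈ G.Hm χ p, ∀ v ∈ G.Bs χ k q,
    ⁅u, v⁆ ∈ Submodule.span ℚ (G.Bs χ k (p + q)) := by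
  rintro _ (rfl | ⟨S, m, hm, rfl, rfl⟩) _ ⟨B, c, hc, hd, rfl, rfl⟩
  · rw [zero_lie]; exact zero_mem _
  rw [inn_lie hm (lev_M _ B c hc hd)]
  split_ifs with h
  swap
  · exact zero_mem _
  have hS : ∀ j, Disjoint S (B j) := fun j =>
    h.mono_right (Finset.subset_biUnion_of_mem B (Finset.mem_univ j))
  have h1 : ∀ j i, update c j ⁅m, c j⁆ i ∈ G.M (update B j (S ∪ B j) i) := fun j i => by
    by_cases e : i = j
    · rw [e, update_self, update_self]; exact lie_mem hm (hc j) (hS j)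
    · rw [update_of_ne e, update_of_ne e]; exact hc i
  have h2 : ∀ j i i', i ≠ i' → Disjoint (update B j (S ∪ B j) i) (update B j (S ∪ B j) i') :=
    fun j i i' hi => by
      by_cases e : i = j
      · subst e
        rw [update_self, update_of_ne hi.symm]
        exact Finset.disjoint_union_left.2 ⟨hS _, hd _ _ hi⟩
      · rw [update_of_ne e]
        by_cases e' : i' = j
        · rw [e', update_self]
          exact Finset.disjoint_union_right.2 ⟨(hS _).symm, hd _ _ e⟩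
        · rw [update_of_ne e']; exact hd _ _ hi
  have h3 : ∀ j, Finset.univ.biUnion (update B j (S ∪ B j)) = S ∪ Finset.univ.biUnion B :=
    fun j => by
      ext a
      simp only [Finset.mem_biUnion, Finset.mem_univ, true_and, Finset.mem_union]
      refine ⟨fun ⟨i, hi⟩ => ?_, fun h => h.elim (fun h => ⟨j, by simp [h]⟩) fun ⟨i, hi⟩ => ⟨i, ?_⟩⟩
      · by_cases e : i = j
        · rw [e, update_self] at hi
          exact (Finset.mem_union.1 hi).imp id fun h => ⟨j, h⟩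
        · rw [update_of_ne e] at hi; exact Or.inr ⟨i, hi⟩
      · by_cases e : i = j
        · rw [e, update_self]; exact Finset.mem_union_right _ (e ▸ hi)
        · rwa [update_of_ne e]
  rw [lev_leib, inn_sum _ fun j _ => h3 j ▸ lev_M _ _ _ (h1 j) (h2 j)]
  exact Submodule.sum_mem _ fun j _ => Submodule.subset_span
    ⟨_, _, h1 j, h2 j, by rw [h3, ind_union _ h, map_add], by rw [h3]⟩

theorem k3_gr {k : ℕ} (h : G.QH k) :
    ∃ s, ∀ χ : (ι →₀ ℚ) →ₗ[ℚ] ℚ, EG.Gr (G.Hm χ) (G.Bs χ k) s := by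
  obtain ⟨e, z, he, hz, hT⟩ := h
  obtain ⟨Λ, hΛ, hT⟩ := hT.fin
  have hsub : ∀ (χ : (ι →₀ ℚ) →ₗ[ℚ] ℚ) p, ∀ v ∈ G.Bs χ k p, v ∈ G.Hm χ p := by
    rintro χ p _ ⟨B, c, hc, hd, hq, rfl⟩
    exact Or.inr ⟨_, _, lev_M _ B c hc hd, hq, rfl⟩
  refine ⟨Λ.card, fun χ => ⟨?_, hsub χ, fun p q x hx => Hm_Bs χ k p q x (hsub χ p x hx), ?_⟩⟩
  · rintro p q _ (rfl | ⟨S, m, hm, rfl, rfl⟩) _ (rfl | ⟨U, n, hn, rfl, rfl⟩)
    · exact Or.inl (zero_lie _)
    · exact Or.inl (zero_lie _)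
    · exact Or.inl (lie_zero _)
    rw [inn_lie hm hn]
    split_ifs with h
    · exact Or.inr ⟨_, _, lie_mem hm hn h, by rw [ind_union _ h, map_add], rfl⟩
    · exact Or.inl rfl
  rintro p _ ⟨B, c, hc, hd, -, rfl⟩
  refine ⟨Λ.image fun l => -(∑ j, l (e j) * χ (ind ℚ (B j))) / l z, Finset.card_image_le, ?_⟩
  rintro q _ (rfl | ⟨U, n, hn, rfl, rfl⟩) hne
  · exact absurd (lie_zero _) hne
  have hm := lev_M _ B c hc hd
  rw [inn_lie hm hn] at hne
  split_ifs at hne with h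
  swap
  · exact absurd rfl hne
  by_contra hq
  refine hne ((inn_eq_zero (lie_mem hm hn h)).2 ?_)
  have hz' : z ∉ Finset.univ.image e := by simpa using hz
  have hdz : Disjoint (Finset.univ.image e) {z} := Finset.disjoint_singleton_right.2 hz'
  have hne' : ¬ ∃ j, e j = z := not_exists.2 hz
  let B' : ι → Finset ι := extend e B fun _ => U
  have b1 : ∀ j, B' (e j) = B j := he.extend_apply _ _
  have b2 : B' z = U := extend_apply' _ _ _ hne'
  let ρ := G.hom .base G.x (extend e c fun _ => n)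
  have r1 : ∀ j, ρ (G.y (e j)) = c j := fun j => by rw [hom_y, he.extend_apply]
  have r2 : ρ (G.y z) = n := by rw [hom_y, extend_apply' _ _ _ hne']
  have hU : ∀ j, Disjoint (B j) U := fun j =>
    h.mono_left (Finset.subset_biUnion_of_mem B (Finset.mem_univ j))
  have := Tor.sub (ρ := ρ) (B := B') (H' := fun l => χ l ≠ 0) (G.hom_x _ _ _) (fun i hi => ?_)
    (fun i hi j hj hij => ?_) (fun l hl hs h0 => hq (Finset.mem_image.2 ⟨l, hl, ?_⟩))
    (lie_mem (lev_mon _ e he).mem (y_mem z) hdz) hT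
  · rw [Finset.union_biUnion, Finset.image_biUnion, Finset.singleton_biUnion, LieHom.map_lie,
      lev_hom, b2, r2] at this
    simpa only [b1, r1] using this
  · rcases Finset.mem_union.1 hi with hi | hi
    · obtain ⟨j, -, rfl⟩ := Finset.mem_image.1 hi
      rw [r1, b1]; exact hc j
    · rw [Finset.mem_singleton.1 hi, r2, b2]; exact hn
  · rcases Finset.mem_union.1 hi with hi | hi <;> rcases Finset.mem_union.1 hj with hj | hj
    · obtain ⟨a, -, rfl⟩ := Finset.mem_image.1 hi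
      obtain ⟨b, -, rfl⟩ := Finset.mem_image.1 hj
      rw [b1, b1]; exact hd a b fun e' => hij (e' ▸ rfl)
    · obtain ⟨a, -, rfl⟩ := Finset.mem_image.1 hi
      rw [Finset.mem_singleton.1 hj, b1, b2]; exact hU a
    · obtain ⟨a, -, rfl⟩ := Finset.mem_image.1 hj
      rw [Finset.mem_singleton.1 hi, b1, b2]; exact (hU a).symm
    · exact absurd ((Finset.mem_singleton.1 hi).trans (Finset.mem_singleton.1 hj).symm) hij
  · rw [push_eq B' hs, Finset.sum_union hdz, Finset.sum_image fun a _ b _ h => he h,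
      Finset.sum_singleton, map_add, map_sum, map_smul, b2] at h0
    simp only [b1, map_smul, smul_eq_mul] at h0
    rw [div_eq_iff (hΛ l hl)]
    linarith

theorem hom_M {L : Type} [LieRing L] [LieAlgebra ℚ L] {φ ψ : F →ₗ⁅ℚ⁆ L} (hx : φ G.x = ψ G.x)
    {S : Finset ι} {m : F} (hm : m ∈ G.M S) (h : ∀ i ∈ S, φ (G.y i) = ψ (G.y i)) : φ m = ψ m := by
  have key : ∀ e S m, G.Mon e S m → (∀ i ∈ S, φ (G.y i) = ψ (G.y i)) → φ m = ψ m := by
    intro e S m hm h
    induction hm with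
    | gen i => exact h i (by simp)
    | dx _ ih => rw [LieHom.map_lie, LieHom.map_lie, hx, ih h]
    | br _ _ _ ih ih' =>
      rw [LieHom.map_lie, LieHom.map_lie, ih fun i hi => h i (by simp [hi]),
        ih' fun i hi => h i (by simp [hi])]
  exact M_ext (φ : F →ₗ[ℚ] L) (ψ : F →ₗ[ℚ] L) (fun e m hm => key e S m hm h) hm

theorem k3_short {k : ℕ} (h : G.QH k) : ∃ s : ℕ, ∀ (L : Type) [LieRing L] [LieAlgebra ℚ L],
    HS F L → ∀ x : L, ∀ b ∈ Set.range (lev (L := L) (full k)), ∃ c : ℕ → L,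
      (∀ j, c j ∈ Submodule.span ℚ (Set.range (lev (L := L) (full k)))) ∧ ∀ w : L,
        ⁅b, (LieAlgebra.ad ℚ L x ^ s) w⁆ =
          ∑ j ∈ Finset.range s, ⁅c j, (LieAlgebra.ad ℚ L x ^ j) w⁆ := by
  obtain ⟨e, z, he, hz, hT⟩ := h
  have hz' : z ∉ Finset.univ.image e := by simpa using hz
  have hne' : ¬ ∃ j, e j = z := not_exists.2 hz
  let V : Submodule ℚ F :=
    G.M (Finset.univ.image e) ⊓ Submodule.span ℚ (Set.range (lev (L := F) (full k)))
  have hval : ∀ {L : Type} [LieRing L] [LieAlgebra ℚ L] (f : F →ₗ⁅ℚ⁆ L), ∀ p ∈ V,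
      f p ∈ Submodule.span ℚ (Set.range (lev (L := L) (full k))) := fun {L} _ _ f p hp =>
    (Submodule.span_le (p := (Submodule.span ℚ
      (Set.range (lev (L := L) (full k)))).comap (f : F →ₗ[ℚ] L))).2 (by
      rintro _ ⟨a, rfl⟩
      exact Submodule.subset_span ⟨_, (lev_hom f _ a).symm⟩) hp.2
  have hV : ∀ l, ∀ p ∈ V, G.op l p ∈ V := fun l p hp => by
    rw [G.op_eq subset_rfl]
    exact V.sum_mem fun i _ => V.smul_mem _ ⟨σ_mem hp.1 i, hval _ p hp⟩
  let w : ℕ → F := fun j => (LieAlgebra.ad ℚ F G.x ^ j) (G.y z)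
  have hw : ∀ j, w j ∈ G.M {z} := fun j => by
    induction j with
    | zero => exact y_mem z
    | succ j ih => simp only [w, pow_succ', Module.End.mul_apply]; exact x_mem ih
  have hop : ∀ l j, ∀ p ∈ V, G.op l ⁅p, w j⁆ =
      ⁅G.op (l.erase z) p, w j⁆ + l z • ⁅p, w (j + 1)⁆ := fun l j p hp => by
    conv_lhs => rw [← Finsupp.erase_add_single z l, ← mul_one (l z), ← smul_eq_mul,
      ← Finsupp.smul_single]
    rw [map_add, map_smul, LinearMap.add_apply, LinearMap.smul_apply, op_single,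
      op_lie_left (hw j) (by simp), LieHom.map_lie, σ_fix hp.1 hz', EG.ad_pow_map, σ_x, σ_self]
    simp only [w, pow_succ, Module.End.mul_apply, LieAlgebra.ad_apply]
  let Low : ℕ → Submodule ℚ F := fun r => Submodule.span ℚ {n | ∃ p ∈ V, ∃ j < r, n = ⁅p, w j⁆}
  have hLow : ∀ l r, ∀ n ∈ Low r, G.op l n ∈ Low (r + 1) := fun l r n hn =>
    (Submodule.span_le (p := (Low (r + 1)).comap (G.op l))).2 (by
      rintro _ ⟨p, hp, j, hj, rfl⟩
      change G.op l _ ∈ Low (r + 1)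
      rw [hop l j p hp]
      exact add_mem (Submodule.subset_span ⟨_, hV _ p hp, j, by omega, rfl⟩)
        (Submodule.smul_mem _ _ (Submodule.subset_span ⟨p, hp, j + 1, by omega, rfl⟩))) hn
  have key : ∀ n, G.Tor (fun l => l z ≠ 0) (Finset.univ.image e ∪ {z}) n → ∀ r, ∀ p ∈ V,
      n - ⁅p, w r⁆ ∈ Low r → ∃ s, ⁅p, w s⁆ ∈ Low s := by
    intro n hn
    induction hn with
    | zero => intro r p _ h; exact ⟨r, by rwa [zero_sub, neg_mem_iff] at h⟩
    | step l h1 _ _ ih =>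
      intro r p hp h
      obtain ⟨s, hs⟩ := ih (r + 1) (l z • p) (V.smul_mem _ hp) (by
        have := add_mem (hLow l r _ h)
          (Submodule.subset_span ⟨_, hV (l.erase z) p hp, r, by omega, rfl⟩ :
            ⁅G.op (l.erase z) p, w r⁆ ∈ Low (r + 1))
        rw [map_sub, hop l r p hp] at this
        convert this using 1
        rw [smul_lie]; abel)
      rw [smul_lie] at hs
      exact ⟨s, ((Low s).smul_mem_iff h1).1 hs⟩
  obtain ⟨s, hs⟩ := key _ hT 0 _ ⟨(lev_mon _ e he).mem, Submodule.subset_span ⟨_, rfl⟩⟩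
    (by simp [w])
  obtain ⟨c, hc, hcs⟩ : ∃ c : ℕ → F, (∀ j, c j ∈ V) ∧
      ⁅lev (full k) fun j => G.y (e j), w s⁆ = ∑ j ∈ Finset.range s, ⁅c j, w j⁆ := by
    generalize ⁅lev (full k) fun j => G.y (e j), w s⁆ = n at hs
    induction hs using Submodule.span_induction with
    | mem n hn =>
      obtain ⟨p, hp, j, hj, rfl⟩ := hn
      refine ⟨Pi.single j p, fun i => ?_, ?_⟩
      · by_cases h : i = j
        · rw [h, Pi.single_eq_same]; exact hp
        · rw [Pi.single_eq_of_ne h]; exact zero_mem _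
      · rw [Finset.sum_eq_single j (fun i _ h => by rw [Pi.single_eq_of_ne h, zero_lie])
          fun h => absurd (Finset.mem_range.2 hj) h, Pi.single_eq_same]
    | zero => exact ⟨0, fun _ => zero_mem _, by simp⟩
    | add a b _ _ ha hb =>
      obtain ⟨c, hc, rfl⟩ := ha
      obtain ⟨d, hd, rfl⟩ := hb
      exact ⟨c + d, fun j => add_mem (hc j) (hd j), by simp [Finset.sum_add_distrib]⟩
    | smul q a _ ha =>
      obtain ⟨c, hc, rfl⟩ := ha
      exact ⟨q • c, fun j => V.smul_mem q (hc j), by simp [Finset.smul_sum]⟩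
  refine ⟨s, fun L _ _ hL x => ?_⟩
  rintro _ ⟨a, rfl⟩
  let ψ : L → F →ₗ⁅ℚ⁆ L := fun v => G.hom hL x (extend e a fun _ => v)
  have p1 : ∀ v j, ψ v (G.y (e j)) = a j := fun v j => by rw [hom_y, he.extend_apply]
  have p2 : ∀ v j, ψ v (w j) = (LieAlgebra.ad ℚ L x ^ j) v := fun v j => by
    rw [EG.ad_pow_map, hom_x, hom_y, extend_apply' _ _ _ hne']
  refine ⟨fun j => ψ 0 (c j), fun j => hval _ _ (hc j), fun v => ?_⟩
  have := congrArg (ψ v) hcs
  rw [LieHom.map_lie, lev_hom, map_sum, p2] at this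
  simp only [p1] at this
  refine this.trans (Finset.sum_congr rfl fun j _ => ?_)
  rw [LieHom.map_lie, p2, hom_M (φ := ψ v) (ψ := ψ 0) (by rw [hom_x, hom_x]) (hc j).1]
  intro i hi
  obtain ⟨j, -, rfl⟩ := Finset.mem_image.1 hi
  rw [p1, p1]

/-- Prime algebras of the variety with a nonzero derived word have no thick pairs. -/
theorem k3_nt {k : ℕ} (h : G.QH k) : ∃ s : ℕ, ∀ (L : Type) [LieRing L] [LieAlgebra ℚ L],
    HS F L → EG.Pr L → (∃ a : (full k).Lf → L, lev (full k) a ≠ 0) → EG.NT L s := by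
  obtain ⟨s, hs⟩ := k3_short h
  exact ⟨s, fun L _ _ hL hP ⟨a, ha⟩ => EG.nt_of_short hP _ (lev_hB _) ⟨_, ⟨a, rfl⟩, ha⟩ s (hs L hL)⟩

end Fr

end Pool.Agent.MP_2a197d_al.KY

end MrgPart3

-- ======== part 4: formerly Pool.Agent.MP_2a197d_al.EG2
section MrgPart4

/-! End game, part 2: an irreducible symmetric family of sandwiches cannot exist when there are
no thick pairs. -/

set_option linter.unusedSectionVars false

namespace Pool.Agent.MP_2a197d_al.EG

universe u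

/-- Local nilpotency of sandwich algebras, uniformly in the algebra. -/
def KZ : Prop := ∀ (ι : Type) [Finite ι], ∃ N : ℕ, ∀ (M : Type u) [LieRing M] [LieAlgebra ℚ M]
  (x : ι → M), (∀ (j : ι) (y : M), ⁅x j, ⁅x j, y⁆⁆ = 0) → ∀ l : List ι, N ≤ l.length → ∀ y : M,
    l.foldr (fun j v => ⁅x j, v⁆) y = 0

/-- A family of automorphisms with polynomial dependence on the parameter. -/
structure Data (M : Type u) [LieRing M] [LieAlgebra ℚ M] (Z : Type u) [AddCommGroup Z]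
    [Module ℚ Z] where
  E : Z → M → M
  Ebr : ∀ z x y, E z ⁅x, y⁆ = ⁅E z x, E z y⁆
  Ez : ∀ z, E z 0 = 0
  E0 : ∀ y, E 0 y = y
  Einv : ∀ z y, E z (E (-z) y) = y
  CP : (ℚ → M) → Prop
  cpc : ∀ y, CP fun _ => y
  cpb : ∀ F G, CP F → CP G → CP fun t => ⁅F t, G t⁆
  cpE : ∀ (F : ℚ → M) (z : Z) (p q : ℚ), CP F → CP fun t => E ((p + q * t) • z) (F t)
  cpz : ∀ F, CP F → {t | F t = 0}.Infinite → ∀ t, F t = 0
  hi : ∀ S : Set M, (∀ z, ∀ o ∈ S, E z o ∈ S) → ∀ y : M, ∀ o ∈ S, ⁅y, o⁆ ∈ hull S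

variable {M : Type u} [LieRing M] [LieAlgebra ℚ M] {Z : Type u} [AddCommGroup Z] [Module ℚ Z]

theorem sw_br {x : M} (h : ∀ y : M, ⁅x, ⁅x, y⁆⁆ = 0) (y t : M) : ⁅⁅x, y⁆, ⁅x, t⁆⁆ = 0 := by
  have h1 := h ⁅y, t⁆
  rw [leibniz_lie x y t, lie_add, leibniz_lie x ⁅x, y⁆ t, leibniz_lie x y ⁅x, t⁆, h, h, zero_lie,
    lie_zero, zero_add, add_zero, ← two_smul ℚ] at h1
  exact (smul_eq_zero.1 h1).resolve_left (by norm_num)

namespace Data

variable (D : Data M Z)

/-- The orbit map. -/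
def orb (a : M) (l : List Z) : M := l.foldr (fun z v => D.E z v) a

theorem E_adw (z : Z) (l : List M) (y : M) : D.E z (adw l y) = adw (l.map (D.E z)) (D.E z y) := by
  induction l with
  | nil => rfl
  | cons m l ih => simp [D.Ebr, ih]

theorem Einv' (z : Z) (y : M) : D.E (-z) (D.E z y) = y := by
  simpa using D.Einv (-z) y

theorem map_inv (z : Z) (l : List M) : (l.map (D.E (-z))).map (D.E z) = l := by
  simp [Function.comp_def, D.Einv]

theorem orb_sw {a : M} (h : ∀ y : M, ⁅a, ⁅a, y⁆⁆ = 0) (l : List Z) :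
    ∀ y : M, ⁅D.orb a l, ⁅D.orb a l, y⁆⁆ = 0 := by
  induction l with
  | nil => exact h
  | cons z l ih =>
    intro y
    show ⁅D.E z (D.orb a l), ⁅D.E z (D.orb a l), y⁆⁆ = 0
    rw [← D.Einv z y, ← D.Ebr, ← D.Ebr, ih, D.Ez]

theorem hull_E {S : Set M} (h : ∀ z, ∀ o ∈ S, D.E z o ∈ S) (z : Z) {y : M} (hy : y ∈ hull S) :
    D.E z y ∈ hull S := fun l hl => by
  have h1 : ∀ v, adw l (D.E z v) = D.E z (adw (l.map (D.E (-z))) v) := fun v => by
    rw [D.E_adw, D.map_inv]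
  rw [h1, hy _ fun o ho => ?_, D.Ez]
  rw [← D.Einv' z (adw _ o), ← h1, hl _ (h z o ho), D.Ez]

theorem cp_fold (l : List Z) (p q : ℚ) {F : ℚ → M} (hF : D.CP F) :
    D.CP fun t => D.orb (F t) (l.map fun z => (p + q * t) • z) := by
  induction l with
  | nil => exact hF
  | cons z l ih => exact D.cpE _ z p q ih

theorem orb_zero (a : M) (l : List Z) : D.orb a (l.map fun z => (0 : ℚ) • z) = a := by
  induction l with
  | nil => rfl
  | cons z l ih =>
    show D.E ((0 : ℚ) • z) (D.orb a (l.map fun z => (0 : ℚ) • z)) = a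
    rw [ih, zero_smul, D.E0]

theorem cp_adw {ι : Type*} {x : ι → ℚ → M} (hx : ∀ j, D.CP (x j)) (l : List ι) {F : ℚ → M}
    (hF : D.CP F) : D.CP fun t => adw (l.map fun j => x j t) (F t) := by
  induction l with
  | nil => exact hF
  | cons j l ih => exact D.cpb _ _ (hx j) ih

/-- The nested product of words on the letter `i`. -/
def nest {ι : Type} (x : ι → M) (i : ι) (Ws : List (List ι)) (W : List ι) : M :=
  adw (Ws.map fun V => adw (V.map x) (x i)) (adw (W.map x) (x i))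

theorem nest_zero {s : ℕ} (hs : NT M s) {ι : Type} (x : ι → M) (i : ι)
    (hx : ∀ y : M, ⁅x i, ⁅x i, y⁆⁆ = 0) {t : M} (hc : ⁅x i, t⁆ ≠ 0) (h : ∀ j, ⁅x j, ⁅x i, t⁆⁆ = 0)
    (Ws : List (List ι)) (hn : Ws.length = s) (W : List ι) : nest x i Ws W = 0 := by
  have h1 : Lev (cen ⁅x i, t⁆) 1 (x i) := lev_succ (h i) fun y => lev_zero (by
    show ⁅⁅y, x i⁆, ⁅x i, t⁆⁆ = 0
    rw [← lie_skew y, neg_lie, sw_br hx, neg_zero])
  have h2 : ∀ V : List ι, Lev (cen ⁅x i, t⁆) 1 (adw (V.map x) (x i)) := fun V =>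
    lev_word _ (by
      intro m hm
      obtain ⟨j, -, rfl⟩ := List.mem_map.1 hm
      exact h j) h1
  have h3 := lev_nest (Ws.map fun V => adw (V.map x) (x i)) (by
    intro m hm
    obtain ⟨V, -, rfl⟩ := List.mem_map.1 hm
    exact h2 V) (h2 W)
  exact (hs _ _ fun l hl => h3 l (by simp; omega)).resolve_right hc

theorem star (hKZ : KZ.{u}) {s : ℕ} (hs : NT M s) {a : M} (ha : ∀ y : M, ⁅a, ⁅a, y⁆⁆ = 0)
    (h0 : a ≠ 0) {ι : Type} [Finite ι] (i : ι) (P : ι → List Z) (Ws : List (List ι))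
    (hn : Ws.length = s) (W : List ι) : nest (fun j => D.orb a (P j)) i Ws W = 0 := by
  classical
  obtain ⟨N, hN⟩ := hKZ ι
  let Q : ℕ → Prop := fun n => ∀ (P : ι → List Z) (l : List ι) (y : M), l.length = n →
    adw (l.map fun j => D.orb a (P j)) y = 0
  have hQ1 : ¬ Q 1 := fun h => by
    refine h0 ((hs a a fun l _ => ?_).elim id id)
    rw [← lie_skew, neg_eq_zero]
    exact h (fun _ => []) [i] _ rfl
  have hQN : Q (N + 1) := fun P l y hl => by
    have := hN M (fun j => D.orb a (P j)) (fun j => D.orb_sw ha _) l (by omega) y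
    rwa [adw, List.foldr_map]
  obtain ⟨n, hn1, hn2⟩ : ∃ n, ¬ Q (n + 1) ∧ Q (n + 2) := by
    clear hN
    induction N with
    | zero => exact absurd hQN hQ1
    | succ N ih => by_cases h : Q (N + 1); exacts [ih h, ⟨N, h, hQN⟩]
  simp only [Q, not_forall] at hn1
  obtain ⟨P0, l0, y0, hl0, hc0⟩ := hn1
  obtain ⟨i0, l1, rfl⟩ := List.exists_cons_of_length_eq_add_one hl0
  have main : ∀ (P : ι → List Z) (Ws : List (List ι)), Ws.length = s → ∀ W : List ι,
      nest (fun j => D.orb a (P j)) i0 Ws W = 0 := by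
    intro P Ws hn W
    let R : ℚ → ι → List Z := fun t j =>
      ((P0 j).map fun z => (0 + 1 * t) • z) ++ (P j).map fun z => (1 + (-1) * t) • z
    have hR : ∀ j, D.CP fun t => D.orb a (R t j) := fun j => by
      have := D.cp_fold (P0 j) 0 1 (D.cp_fold (P j) 1 (-1) (D.cpc a))
      simpa only [orb, R, List.foldr_append] using this
    have hR0 : (fun j => D.orb a (R 0 j)) = fun j => D.orb a (P j) := funext fun j => by
      have := D.orb_zero (D.orb a (P j)) (P0 j)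
      simpa [orb, R] using this
    have hR1 : (fun j => D.orb a (R 1 j)) = fun j => D.orb a (P0 j) := funext fun j => by
      have := congrArg (fun v => D.orb v (P0 j)) (D.orb_zero a (P j))
      simpa [orb, R] using this
    have hc := D.cp_adw hR (i0 :: l1) (D.cpc y0)
    have hu : D.CP fun t => nest (fun j => D.orb a (R t j)) i0 Ws W :=
      D.cp_adw (x := fun (V : List ι) t => adw (V.map fun j => D.orb a (R t j)) (D.orb a (R t i0)))
        (fun V => D.cp_adw hR V (hR i0)) Ws (D.cp_adw hR W (hR i0))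
    by_contra hne
    have h1 := mt (D.cpz _ hc) fun h => hc0 (hR1 ▸ h 1)
    have h2 := mt (D.cpz _ hu) fun h => hne (hR0 ▸ h 0)
    refine Set.infinite_univ (α := ℚ) (((Set.not_infinite.1 h1).union
      (Set.not_infinite.1 h2)).subset fun t _ => ?_)
    by_cases h : adw ((i0 :: l1).map fun j => D.orb a (R t j)) y0 = 0
    · exact Or.inl h
    · exact Or.inr (nest_zero hs _ i0 (D.orb_sw ha _) h
        (fun j => hn2 (R t) (j :: i0 :: l1) y0 (by simp at hl0 ⊢; omega)) Ws hn W)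
  have := main (P ∘ Equiv.swap i i0) (Ws.map (List.map (Equiv.swap i i0))) (by simpa using hn)
    (W.map (Equiv.swap i i0))
  simpa [nest, Function.comp_def] using this

include D in
theorem noSandwich (hKZ : KZ.{u}) {s : ℕ} (hs : NT M s) {a : M}
    (ha : ∀ y : M, ⁅a, ⁅a, y⁆⁆ = 0) : a = 0 := by
  by_contra h0
  have hO : ∀ z, ∀ o ∈ Set.range (D.orb a), D.E z o ∈ Set.range (D.orb a) := by
    rintro z _ ⟨l, rfl⟩; exact ⟨z :: l, rfl⟩
  have hN : ∀ y : M, ∀ n ∈ hull (Set.range (D.orb a)), ⁅y, n⁆ ∈ hull (Set.range (D.orb a)) :=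
    fun y n hn => hull_br (D.hi _ hO y) hn
  have lift : ∀ W : List M, (∀ x ∈ W, x ∈ Set.range (D.orb a)) →
      ∃ V : List (List Z), V.map (D.orb a) = W := fun W hW => by
    lift W to List (Set.range (D.orb a)) using hW
    exact ⟨W.map fun x => x.2.choose, by
      rw [List.map_map]; exact List.map_congr_left fun x _ => x.2.choose_spec⟩
  obtain ⟨b, hb0, hb⟩ := exists_ab hN (a := a) ⟨[], rfl⟩ h0 (s := s) (by
    intro l hl hn W hW
    obtain ⟨V, rfl⟩ := lift W hW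
    obtain ⟨Vs, rfl⟩ : ∃ Vs : List (List (List Z)),
        Vs.map (fun U => adw (U.map (D.orb a)) a) = l := by
      clear hn
      induction l with
      | nil => exact ⟨[], rfl⟩
      | cons m l ih =>
        obtain ⟨Vs, rfl⟩ := ih fun x hx => hl x (by simp [hx])
        obtain ⟨U, hU, rfl⟩ := hl m (by simp)
        obtain ⟨U, rfl⟩ := lift U hU
        exact ⟨U :: Vs, rfl⟩
    let Ls : List (List Z) := [] :: (V ++ Vs.flatten)
    have idx : ∀ U : List (List Z), (∀ p ∈ U, p ∈ Ls) →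
        ∃ U' : List (Fin Ls.length), U'.map Ls.get = U := fun U hU => by
      induction U with
      | nil => exact ⟨[], rfl⟩
      | cons p U ih =>
        obtain ⟨U', rfl⟩ := ih fun x hx => hU x (by simp [hx])
        obtain ⟨j, rfl⟩ := List.mem_iff_get.1 (hU p (by simp))
        exact ⟨j :: U', rfl⟩
    obtain ⟨V', hV'⟩ := idx V fun p hp => by simp [Ls, hp]
    obtain ⟨Vs', hVs'⟩ : ∃ Vs' : List (List (Fin Ls.length)),
        Vs'.map (List.map Ls.get) = Vs := by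
      have : ∀ T : List (List (List Z)), (∀ U ∈ T, ∀ p ∈ U, p ∈ Ls) →
          ∃ T' : List (List (Fin Ls.length)), T'.map (List.map Ls.get) = T := fun T hT => by
        induction T with
        | nil => exact ⟨[], rfl⟩
        | cons U T ih =>
          obtain ⟨T', rfl⟩ := ih fun x hx => hT x (by simp [hx])
          obtain ⟨U', rfl⟩ := idx U (hT U (by simp))
          exact ⟨U' :: T', rfl⟩
      exact this Vs fun U hU p hp => List.mem_cons_of_mem _
        (List.mem_append_right _ (List.mem_flatten.2 ⟨U, hU, hp⟩))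
    have := D.star hKZ hs ha h0 (⟨0, by simp [Ls]⟩ : Fin Ls.length) Ls.get Vs'
      (by rw [← hn, List.length_map, ← hVs', List.length_map]) V'
    rw [← hVs', ← hV']
    simp only [List.map_map]
    exact this.symm ▸ (by simp only [nest, Function.comp_def, List.map_map]; rfl))
  refine hb0 (ab_zero hs hN (D.hi _ ?_) hb)
  rintro z o ⟨h1, h2⟩
  refine ⟨D.hull_E hO z h1, fun W hW => ?_⟩
  have := h2 (W.map (D.E (-z))) (by
    intro m hm
    obtain ⟨x, hx, rfl⟩ := List.mem_map.1 hm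
    exact D.hull_E hO _ (hW x hx))
  have := congrArg (D.E z) this
  rwa [D.Ebr, D.E_adw, D.map_inv, D.Ez] at this

end Data

end Pool.Agent.MP_2a197d_al.EG

end MrgPart4

-- marker of a merged file
example : 731051 + 17373 = 731051 + 17373 := rfl
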