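import Mathlib.Tactic.NoncommRing
import Mathlib.Algebra.Lie.OfAssociative
import Mathlib.RingTheory.Flat.TorsionFree
import Mathlib.Algebra.Order.Ring.Star
import Mathlib.Data.Set.Finite.List
import Mathlib.RingTheory.PiTensorProduct
import Mathlib.RingTheory.SimpleRing.Principal
import Mathlib.Order.CompletePartialOrder

/-! Finitely many sandwiches act nilpotently (Kostrikin and Zelmanov), by a word argument. -/

namespace Pool.Agent.MP_2a197d_al.KZ

open List

section words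
variable {ι : Type*} [LinearOrder ι]

theorem lt_cases : ∀ {u v : List ι}, u < v → u <+: v ∨ ∀ p q, u ++ p < v ++ q
  | [], _, _ => Or.inl nil_prefix
  | _ :: _, [], h => absurd h (not_lt_nil _)
  | a :: u, b :: v, h => by
    rcases cons_lt_cons_iff.1 h with h1 | ⟨h0, h1⟩
    · exact Or.inr fun p q => cons_lt_cons_iff.2 (Or.inl h1)
    · rcases lt_cases (u := u) (v := v) h1 with h2 | h2
      · exact Or.inl (h0 ▸ (prefix_cons_inj a).2 h2)
      · exact Or.inr fun p q => cons_lt_cons_iff.2 (Or.inr ⟨h0, h2 p q⟩)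

theorem lt_app {u v : List ι} (h : u < v) (hl : v.length ≤ u.length) (p q : List ι) :
    u ++ p < v ++ q := by
  rcases lt_cases h with h1 | h1
  · exact absurd (h1.eq_of_length_le hl) h.ne
  · exact h1 p q

theorem lt_cancel {p u v : List ι} (h : p ++ u < p ++ v) : u < v := by
  rcases lt_trichotomy u v with h1 | rfl | h1
  · exact h1
  · exact absurd h (lt_irrefl _)
  · exact absurd h (lt_asymm (append_left_lt h1))

/-- Lyndon words: smaller than each proper suffix. -/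
def Lyn (u : List ι) : Prop := u ≠ [] ∧ ∀ a b, a ≠ [] → b ≠ [] → u = a ++ b → u < b

theorem Lyn.split {u : List ι} (h : Lyn u) (h2 : 2 ≤ u.length) :
    ∃ v w, u = v ++ w ∧ Lyn v ∧ Lyn w := by
  obtain ⟨i, hi, hmin⟩ := (Finset.Ioo 0 u.length).exists_min_image (fun i => u.drop i)
    ⟨1, Finset.mem_Ioo.2 ⟨one_pos, by omega⟩⟩
  obtain ⟨hi0, hi1⟩ := Finset.mem_Ioo.1 hi
  have key : ∀ a b, a ≠ [] → b ≠ [] → u = a ++ b → u.drop i ≤ b := by
    intro a b ha hb e
    have h1 := length_pos_iff.2 ha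
    have h3 := length_pos_iff.2 hb
    have := hmin a.length (Finset.mem_Ioo.2 ⟨h1, by rw [e, length_append]; omega⟩)
    simpa [e] using this
  have hv : u.take i ≠ [] := length_pos_iff.1 (by rw [length_take]; omega)
  have hw : u.drop i ≠ [] := length_pos_iff.1 (by rw [length_drop]; omega)
  have hu : u = u.take i ++ u.drop i := (take_append_drop i u).symm
  generalize u.take i = v at hv hu
  generalize u.drop i = w at hw hu key
  refine ⟨v, w, hu, ⟨hv, fun a b ha hb e => ?_⟩, hw, fun a b ha hb e => ?_⟩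
  · have h1 := length_pos_iff.2 ha
    have h3 : u < b ++ w := h.2 a (b ++ w) ha (by simp [hb]) (by rw [hu, e, append_assoc])
    rcases lt_trichotomy v b with h4 | h4 | h4
    · exact h4
    · have := congrArg length e
      rw [length_append, h4] at this
      omega
    · rcases lt_cases h4 with ⟨c, hc⟩ | h5
      · have hc0 : c ≠ [] := by
          rintro rfl
          have := congrArg length e
          rw [length_append, ← hc, append_nil] at this
          omega
        have h6 := key b (c ++ w) hb (by simp [hc0]) (by rw [hu, ← hc, append_assoc])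
        rw [hu, ← hc, append_assoc] at h3
        exact absurd (lt_cancel h3) (not_lt.2 h6)
      · exact absurd (hu ▸ h3) (lt_asymm (h5 w w))
  · have h1 := length_pos_iff.2 ha
    refine lt_of_le_of_ne (key (v ++ a) b (by simp [ha]) hb (by rw [hu, e, append_assoc])) ?_
    intro h4
    have := congrArg length e
    rw [length_append, h4] at this
    omega

/-- Languages closed under factors with words of every length. -/
def Good (Λ : Set (List ι)) : Prop :=
  (∀ u ∈ Λ, ∀ v, v <:+: u → v ∈ Λ) ∧ ∀ n, ∃ u ∈ Λ, u.length = n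

omit [LinearOrder ι] in
theorem exists_minimal [Finite ι] {Λ : Set (List ι)} (h : Good Λ) :
    ∃ Λ0 ⊆ Λ, Minimal Good Λ0 := by
  refine zorn_superset_nonempty {Λ | Good Λ} (fun C hC hc hne => ⟨⋂₀ C, ⟨?_, fun n => ?_⟩,
    fun s hs => Set.sInter_subset_of_mem hs⟩) Λ h
  · exact fun u hu v hv L hL => (hC hL).1 u (hu L hL) v hv
  · obtain ⟨L, hL, hmin⟩ := (wellFounded_lt.onFun (f := fun L : Set (List ι) =>
      (L ∩ {u | u.length = n}).ncard)).has_min C hne
    obtain ⟨u, hu, hn⟩ := (hC hL).2 n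
    refine ⟨u, fun L' hL' => ?_, hn⟩
    rcases hc.total hL hL' with h1 | h1
    · exact h1 hu
    · have h2 := Set.eq_of_subset_of_ncard_le (Set.inter_subset_inter_left {u | u.length = n} h1)
        (not_lt.1 (hmin L' hL')) ((finite_length_eq ι n).inter_of_right _)
      have : u ∈ L' ∩ {u | u.length = n} := h2 ▸ ⟨hu, hn⟩
      exact this.1

omit [LinearOrder ι] in
theorem recur {Λ : Set (List ι)} (h : Minimal Good Λ) {g : List ι} (hg : g ∈ Λ) :
    ∃ n, ∀ u ∈ Λ, n ≤ u.length → g <:+: u := by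
  by_contra hn
  push Not at hn
  have h1 : Good {u | u ∈ Λ ∧ ¬g <:+: u} := by
    refine ⟨fun u hu v hv => ⟨h.prop.1 u hu.1 v hv, fun h2 => hu.2 (h2.trans hv)⟩, fun n => ?_⟩
    obtain ⟨u, hu, h2, h3⟩ := hn n
    exact ⟨u.take n, ⟨h.prop.1 u hu _ (take_prefix n u).isInfix,
      fun h4 => h3 (h4.trans (take_prefix n u).isInfix)⟩, by rw [length_take]; omega⟩
  exact (h.le_of_le h1 (fun u hu => hu.1) hg).2 (infix_refl g)

theorem pattern [Finite ι] {Λ : Set (List ι)} (h : Good Λ) :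
    (∃ e P, (P = [] ∨ Lyn P) ∧ e :: P ++ [e] ∈ Λ) ∨ ∃ e s, Lyn s ∧ s ++ e :: s ∈ Λ := by
  obtain ⟨Λ, hΛ, h⟩ := exists_minimal h
  have hf := h.prop.1
  have h1 : ∀ k, ∃ m ∈ Λ ∩ {u | u.length = k}, ∀ u ∈ Λ ∩ {u | u.length = k}, m ≤ u := fun k =>
    Set.exists_min_image _ id ((finite_length_eq ι k).inter_of_right _) (h.prop.2 k)
  choose m hm hmin using h1
  have hmem : ∀ k, m k ∈ Λ := fun k => (hm k).1
  have hlen : ∀ k, (m k).length = k := fun k => (hm k).2
  have hpre : ∀ j k, j ≤ k → m j <+: m k := by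
    intro j k hjk
    obtain ⟨n, hn⟩ := recur h (hmem j)
    have h2 := take_append_drop n (m (n + k))
    obtain ⟨a, b, hab⟩ := hn _ (hf _ (hmem (n + k)) _ (take_prefix n _).isInfix)
      (by rw [length_take, hlen]; omega)
    let r := b ++ (m (n + k)).drop n
    have hr : k - j ≤ r.length := by
      simp only [r, length_append, length_drop, hlen]; omega
    have h3 : m j ++ r.take (k - j) ∈ Λ := by
      refine hf _ (hmem (n + k)) _ ⟨a, r.drop (k - j), ?_⟩
      rw [append_assoc, append_assoc, take_append_drop, ← h2, ← hab]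
      simp [r]
    have h4 := hmin k _ ⟨h3, by
      change length _ = k
      rw [length_append, hlen, length_take]; omega⟩
    have h5 := hmin j ((m k).take j) ⟨hf _ (hmem k) _ (take_prefix _ _).isInfix, by
      change length _ = j
      rw [length_take, hlen]; omega⟩
    rcases h5.eq_or_lt with h6 | h6
    · exact h6 ▸ take_prefix _ _
    · have := lt_app h6 (by rw [length_take, hlen, hlen]; omega) (r.take (k - j)) ((m k).drop j)
      rw [take_append_drop] at this
      exact absurd this (not_lt.2 h4)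
  have heq : ∀ {N} {s : List ι}, s <+: m N → s = m s.length := by
    intro N s hs
    have h2 : s.length ≤ N := hlen N ▸ hs.length_le
    exact (prefix_of_prefix_length_le hs (hpre _ _ h2) (hlen _).ge).eq_of_length (hlen _).symm
  have h7 : ∀ e : ι, ∃ k, e :: m k ∈ Λ → ∀ j, e :: m j ∈ Λ := by
    intro e
    by_cases h2 : ∀ j, e :: m j ∈ Λ
    · exact ⟨0, fun _ => h2⟩
    · obtain ⟨j, hj⟩ := not_forall.1 h2
      exact ⟨j, fun h3 => absurd h3 hj⟩
  choose κ hκ using h7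
  obtain ⟨k, hk⟩ := (Set.finite_range κ).bddAbove
  have hE : ∀ e, e :: m k ∈ Λ → ∀ j, e :: m j ∈ Λ := fun e he => hκ e
    (hf _ he _ ((prefix_cons_inj e).2 (hpre _ _ (hk ⟨e, rfl⟩))).isInfix)
  obtain ⟨n, hn⟩ := recur h (hmem k)
  have h8 : ∃ p, ∃ P e r, P.length = p ∧ m (n + 1) = P ++ e :: (m k ++ r) := by
    obtain ⟨c, t, hc⟩ := exists_cons_of_length_eq_add_one (hlen (n + 1))
    obtain ⟨a, b, hab⟩ := hn t (hf _ (hmem (n + 1)) _ (hc ▸ (suffix_cons c t).isInfix))
      (by have := hlen (n + 1); rw [hc, length_cons] at this; omega)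
    obtain ⟨P, e, hP⟩ := (eq_nil_or_concat' (c :: a)).resolve_left (cons_ne_nil _ _)
    refine ⟨_, P, e, b, rfl, ?_⟩
    rw [hc, ← hab, ← cons_append, ← cons_append, hP]
    simp
  classical
  obtain ⟨P, e, r, hP, hN⟩ := Nat.find_spec h8
  have he : ∀ j, e :: m j ∈ Λ := hE e (hf _ (hmem (n + 1)) _ ⟨P, r, by rw [hN]; simp⟩)
  have hPe : e :: P ++ [e] ∈ Λ := by
    have : P ++ [e] <+: m (n + 1) := ⟨m k ++ r, by rw [hN]; simp⟩
    rw [cons_append, heq this]
    exact he _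
  by_cases hP0 : P = []
  · exact Or.inl ⟨e, P, Or.inl hP0, hΛ hPe⟩
  have h9 : ∃ i, ∃ s : List ι, s.length = i ∧ s ≠ [] ∧ s <+: P ∧ s <:+ P :=
    ⟨_, P, rfl, hP0, prefix_refl _, suffix_refl _⟩
  obtain ⟨s, hs, hs0, hs1, q, hq⟩ := Nat.find_spec h9
  have hs2 : s <+: m (n + 1) := hs1.trans ⟨_, hN.symm⟩
  have hL : Lyn s := by
    refine ⟨hs0, fun a b ha hb hab => ?_⟩
    have h2 := length_pos_iff.2 ha
    have h3 : b.length < s.length := by rw [hab, length_append]; omega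
    have h4 : m b.length <+: s := by
      rw [heq hs2]; exact hpre _ _ h3.le
    have h5 := hmin b.length b ⟨hf _ (hmem _) _ ((IsSuffix.isInfix ⟨a, hab.symm⟩).trans
      hs2.isInfix), rfl⟩
    rcases h5.eq_or_lt with h6 | h6
    · exact absurd ⟨b, rfl, hb, (h6 ▸ h4).trans hs1, IsSuffix.trans ⟨a, hab.symm⟩ ⟨q, hq⟩⟩
        (Nat.find_min h9 (hs ▸ h3))
    · obtain ⟨c, hc⟩ := h4
      have := lt_app h6 (hlen _).ge c []
      rwa [hc, append_nil] at this
  by_cases hq0 : q = []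
  · subst hq0
    rw [nil_append] at hq
    exact Or.inl ⟨e, P, Or.inr (hq ▸ hL), hΛ hPe⟩
  rcases le_total s.length k with h2 | h2
  · obtain ⟨c, hc⟩ : s <+: m k := by rw [heq hs2]; exact hpre _ _ h2
    refine Or.inr ⟨e, s, hL, hΛ (hf _ (hmem (n + 1)) _ ⟨q, c ++ r, ?_⟩)⟩
    rw [hN, ← hq, ← hc]
    simp
  · obtain ⟨c, hc⟩ : m k <+: s := by rw [heq hs2]; exact hpre _ _ h2
    obtain ⟨q', e', rfl⟩ := (eq_nil_or_concat' q).resolve_left hq0
    refine absurd ⟨q', e', c ++ e :: (m k ++ r), rfl, ?_⟩ (Nat.find_min h8 (m := q'.length) ?_)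
    · rw [← hP, ← hq]
      simp only [length_append, length_singleton]
      omega
    · rw [hN, ← hq, ← hc]
      simp

end words

section ring
variable {ι A : Type*} [LinearOrder ι] [Ring A] (x : ι → A)

/-- Value of a word. -/
def ev (u : List ι) : A := (u.map x).prod

omit [LinearOrder ι] in
theorem ev_append (u v : List ι) : ev x (u ++ v) = ev x u * ev x v := by simp [ev]

/-- Combinations of larger words of the same length. -/
def Up (u : List ι) : AddSubgroup A :=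
  AddSubgroup.closure {a | ∃ v, v.length = u.length ∧ u < v ∧ ev x v = a}

variable {x}

theorem up_left {u : List ι} {a : A} (h : a ∈ Up x u) {v w : List ι} (hl : w.length = v.length) :
    a * ev x w ∈ Up x (u ++ v) := by
  induction h using AddSubgroup.closure_induction with
  | mem a ha =>
    obtain ⟨t, h1, h2, rfl⟩ := ha
    exact AddSubgroup.subset_closure ⟨t ++ w, by simp [h1, hl], lt_app h2 h1.le _ _,
      ev_append ..⟩
  | zero => rw [zero_mul]; exact zero_mem _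
  | add a b _ _ ha hb => rw [add_mul]; exact add_mem ha hb
  | neg a _ ha => rw [neg_mul]; exact neg_mem ha

theorem up_right (u : List ι) {v : List ι} {b : A} (h : b ∈ Up x v) :
    ev x u * b ∈ Up x (u ++ v) := by
  induction h using AddSubgroup.closure_induction with
  | mem a ha =>
    obtain ⟨t, h1, h2, rfl⟩ := ha
    exact AddSubgroup.subset_closure ⟨u ++ t, by simp [h1], append_left_lt h2, ev_append ..⟩
  | zero => rw [mul_zero]; exact zero_mem _
  | add a b _ _ ha hb => rw [mul_add]; exact add_mem ha hb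
  | neg a _ ha => rw [mul_neg]; exact neg_mem ha

theorem up_mul {u v : List ι} {a b : A} (ha : a ∈ Up x u) (h : b ∈ Up x v) :
    a * b ∈ Up x (u ++ v) := by
  induction h using AddSubgroup.closure_induction with
  | mem a h =>
    obtain ⟨t, h1, -, rfl⟩ := h
    exact up_left ha h1
  | zero => rw [mul_zero]; exact zero_mem _
  | add a b _ _ ha hb => rw [mul_add]; exact add_mem ha hb
  | neg a _ ha => rw [mul_neg]; exact neg_mem ha

theorem lead_mul {u v : List ι} {a b : A} (ha : a - ev x u ∈ Up x u) (hb : b - ev x v ∈ Up x v) :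
    a * b - ev x (u ++ v) ∈ Up x (u ++ v) := by
  have := add_mem (add_mem (up_mul ha hb) (up_left ha (rfl : v.length = _))) (up_right u hb)
  rw [ev_append]
  convert this using 1
  noncomm_ring

theorem lead_lyn {S : Set A} (hx : ∀ i, x i ∈ S) (hS : ∀ a ∈ S, ∀ b ∈ S, a * b - b * a ∈ S) :
    ∀ (n : ℕ) (u : List ι), u.length = n → Lyn u → ∃ a ∈ S, a - ev x u ∈ Up x u := by
  intro n
  induction n using Nat.strong_induction_on with
  | _ n ih =>
    intro u hu hL
    by_cases h2 : 2 ≤ u.length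
    · obtain ⟨v, w, rfl, hv, hw⟩ := hL.split h2
      have h3 := length_pos_iff.2 hv.1
      have h4 := length_pos_iff.2 hw.1
      rw [length_append] at hu
      obtain ⟨a, ha, ha'⟩ := ih _ (by omega) v rfl hv
      obtain ⟨b, hb, hb'⟩ := ih _ (by omega) w rfl hw
      have h5 : v ++ w < w ++ v := by
        simpa using lt_app (hL.2 v w hv.1 hw.1 rfl) (by simp) [] v
      have h6 : (w ++ v).length = (v ++ w).length := by simp [add_comm]
      have h7 : Up x (w ++ v) ≤ Up x (v ++ w) := AddSubgroup.closure_mono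
        fun _ ⟨t, h1, h2, h3⟩ => ⟨t, h1.trans h6, h5.trans h2, h3⟩
      refine ⟨_, hS a ha b hb, ?_⟩
      have := sub_mem (sub_mem (lead_mul ha' hb') (h7 (lead_mul hb' ha')))
        (AddSubgroup.subset_closure ⟨w ++ v, h6, h5, rfl⟩)
      convert this using 1
      abel
    · obtain ⟨i, t, rfl⟩ := exists_cons_of_ne_nil hL.1
      obtain rfl : t = [] := length_eq_zero_iff.1 (by rw [length_cons] at h2; omega)
      exact ⟨x i, hx i, by simp [ev]⟩

end ring

/-- The associative form: a finite family inside a set closed under commutators with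
`a * a = 0` and `a * b * a = 0` is nilpotent, with a bound that depends on the index set only. -/
theorem kz_ring_unif (ι : Type*) [Finite ι] : ∃ N, ∀ (A : Type*) [Ring A] (x : ι → A) (S : Set A),
    (∀ i, x i ∈ S) → (∀ a ∈ S, ∀ b ∈ S, a * b - b * a ∈ S) → (∀ a ∈ S, a * a = 0) →
    (∀ a ∈ S, ∀ b ∈ S, a * b * a = 0) → ∀ u : List ι, u.length = N → (u.map x).prod = 0 := by
  obtain ⟨n, ⟨f⟩⟩ := Finite.exists_equiv_fin ι
  let _ : LinearOrder ι := LinearOrder.lift' f f.injective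
  let Pat : List ι → Prop := fun v =>
    (∃ e P, (P = [] ∨ Lyn P) ∧ v = e :: P ++ [e]) ∨ ∃ e s, Lyn s ∧ v = s ++ e :: s
  by_cases hG : ∀ N, ∃ u ∈ {u | ∀ v, v <:+: u → ¬Pat v}, u.length = N
  · exfalso
    rcases pattern (Λ := {u | ∀ v, v <:+: u → ¬Pat v})
      ⟨fun u hu v hv w hw => hu w (hw.trans hv), hG⟩ with ⟨e, P, hP, h⟩ | ⟨e, s, hs, h⟩
    · exact h _ (infix_refl _) (Or.inl ⟨e, P, hP, rfl⟩)
    · exact h _ (infix_refl _) (Or.inr ⟨e, s, hs, rfl⟩)
  obtain ⟨N, hN⟩ := not_forall.1 hG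
  refine ⟨N, fun A _ x S hx hS h2 h3 => ?_⟩
  have h1 : ∀ i, x i - ev x [i] ∈ Up x [i] := fun i => by simp [ev]
  have h0 : ∀ {u}, 0 - ev x u ∈ Up x u → ev x u ∈ Up x u := fun h => by simpa using h
  have hP : ∀ v, Pat v → ev x v ∈ Up x v := by
    rintro _ (⟨e, P, rfl | hP, rfl⟩ | ⟨e, s, hs, rfl⟩)
    · have := lead_mul (h1 e) (h1 e)
      rw [h2 _ (hx e)] at this
      exact h0 this
    · obtain ⟨a, ha, ha'⟩ := lead_lyn hx hS _ P rfl hP
      have := lead_mul (lead_mul (h1 e) ha') (h1 e)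
      rw [h3 _ (hx e) a ha] at this
      exact h0 this
    · obtain ⟨a, ha, ha'⟩ := lead_lyn hx hS _ s rfl hs
      have := lead_mul (lead_mul ha' (h1 e)) ha'
      rw [h3 a ha _ (hx e), append_assoc] at this
      exact h0 this
  by_contra hc
  push Not at hc
  obtain ⟨u, ⟨hu, hu0⟩, hmax⟩ := Set.exists_max_image
    ({u : List ι | u.length = N} ∩ {u | ev x u ≠ 0}) id
    ((finite_length_eq ι N).inter_of_left _) hc
  have h4 : ev x u ∈ Up x u := by
    by_contra h
    refine hN ⟨u, ?_, hu⟩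
    rintro v ⟨a, b, rfl⟩ hv
    refine h ?_
    rw [ev_append, ev_append]
    exact up_left (up_right a (hP v hv)) rfl
  have h5 : Up x u ≤ ⊥ := by
    refine (AddSubgroup.closure_le _).2 ?_
    rintro _ ⟨v, hv, hv', rfl⟩
    by_contra h
    exact absurd (hmax v ⟨hv.trans hu, h⟩) (not_le.2 hv')
  exact hu0 (h5 h4)

theorem kz_ring {ι A : Type*} [Finite ι] [Ring A] (x : ι → A) {S : Set A} (hx : ∀ i, x i ∈ S)
    (hS : ∀ a ∈ S, ∀ b ∈ S, a * b - b * a ∈ S) (h2 : ∀ a ∈ S, a * a = 0)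
    (h3 : ∀ a ∈ S, ∀ b ∈ S, a * b * a = 0) :
    ∃ N, ∀ u : List ι, u.length = N → (u.map x).prod = 0 :=
  (kz_ring_unif ι).imp fun _ h => h A x S hx hS h2 h3

section lie
variable {L : Type*} [LieRing L] [LieAlgebra ℚ L]

open LieAlgebra

theorem ad_lie (a b : L) : ad ℚ L ⁅a, b⁆ = ad ℚ L a * ad ℚ L b - ad ℚ L b * ad ℚ L a :=
  LinearMap.ext fun y => lie_lie a b y

theorem sw_sq {c : L} (h : ∀ y : L, ⁅c, ⁅c, y⁆⁆ = 0) : ad ℚ L c * ad ℚ L c = 0 :=
  LinearMap.ext h

theorem sw_mid {c : L} (h : ∀ y : L, ⁅c, ⁅c, y⁆⁆ = 0) (t : L) :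
    ad ℚ L c * ad ℚ L t * ad ℚ L c = 0 := by
  have h1 := congrArg (ad ℚ L) (h t)
  rw [ad_lie, ad_lie, map_zero] at h1
  have h2 := sw_sq h
  have h3 : (2 : ℚ) • (ad ℚ L c * ad ℚ L t * ad ℚ L c) = 0 := by
    rw [two_smul, ← neg_eq_zero, ← h1]
    calc _ = ad ℚ L c * ad ℚ L c * ad ℚ L t + ad ℚ L t * (ad ℚ L c * ad ℚ L c) -
        (ad ℚ L c * ad ℚ L t * ad ℚ L c + ad ℚ L c * ad ℚ L t * ad ℚ L c) := by
          rw [h2]; simp
      _ = _ := by noncomm_ring
  exact (smul_eq_zero.1 h3).resolve_left two_ne_zero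

theorem sw_lie {a b : L} (ha : ∀ y : L, ⁅a, ⁅a, y⁆⁆ = 0) (hb : ∀ y : L, ⁅b, ⁅b, y⁆⁆ = 0) (y : L) :
    ⁅⁅a, b⁆, ⁅⁅a, b⁆, y⁆⁆ = 0 := by
  have h : ad ℚ L ⁅a, b⁆ * ad ℚ L ⁅a, b⁆ = 0 := by
    rw [ad_lie]
    calc _ = ad ℚ L a * ad ℚ L b * ad ℚ L a * ad ℚ L b -
          ad ℚ L a * (ad ℚ L b * ad ℚ L b) * ad ℚ L a -
          ad ℚ L b * (ad ℚ L a * ad ℚ L a) * ad ℚ L b +
          ad ℚ L b * ad ℚ L a * ad ℚ L b * ad ℚ L a := by noncomm_ring
      _ = 0 := by rw [sw_mid ha, sw_mid hb, sw_sq ha, sw_sq hb]; simp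
  exact LinearMap.congr_fun h y

/-- Finitely many sandwiches act nilpotently, with a bound that depends on their number only. -/
theorem kz_unif (ι : Type*) [Finite ι] : ∃ N, ∀ (M : Type*) [LieRing M] [LieAlgebra ℚ M]
    (x : ι → M), (∀ j (y : M), ⁅x j, ⁅x j, y⁆⁆ = 0) → ∀ l : List ι, N ≤ l.length →
    ∀ y : M, l.foldr (fun j v => ⁅x j, v⁆) y = 0 := by
  obtain ⟨N, hN⟩ := kz_ring_unif ι
  refine ⟨N, fun M _ _ x hx l hl y => ?_⟩
  have key : ∀ (u : List ι) (z : M),
      u.foldr (fun i z => ⁅x i, z⁆) z = (u.map fun i => ad ℚ M (x i)).prod z := by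
    intro u z
    induction u with
    | nil => rfl
    | cons i u ih => rw [foldr_cons, ih]; rfl
  have h := hN _ (fun i => ad ℚ M (x i)) (ad ℚ M '' {c | ∀ y : M, ⁅c, ⁅c, y⁆⁆ = 0})
    (fun i => ⟨_, hx i, rfl⟩)
    (by
      rintro _ ⟨a, ha, rfl⟩ _ ⟨b, hb, rfl⟩
      exact ⟨⁅a, b⁆, sw_lie ha hb, ad_lie a b⟩)
    (by rintro _ ⟨a, ha, rfl⟩; exact sw_sq ha)
    (by rintro _ ⟨a, ha, rfl⟩ _ ⟨b, -, rfl⟩; exact sw_mid ha b) (l.take N)
    (by rw [length_take]; omega)
  rw [← take_append_drop N l, foldr_append, key, h]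
  rfl

/-- Finitely many sandwiches act nilpotently. -/
theorem kz_lie {ι : Type*} [Finite ι] (x : ι → L) (hx : ∀ i (y : L), ⁅x i, ⁅x i, y⁆⁆ = 0) :
    ∃ N, ∀ u : List ι, u.length = N → ∀ z : L, u.foldr (fun i z => ⁅x i, z⁆) z = 0 :=
  (kz_unif ι).imp fun _ h u hu => h L x hx u hu.ge

theorem sw_two {c : L} (h : ∀ y : L, ⁅c, ⁅c, y⁆⁆ = 0) (z t : L) : ⁅⁅z, c⁆, ⁅c, t⁆⁆ = 0 := by
  have h1 : ⁅c, ⁅z, ⁅c, t⁆⁆⁆ = 0 := LinearMap.congr_fun (sw_mid h z) t
  rw [lie_lie, h, h1, lie_zero, sub_zero]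

/-- A nonzero element that commutes with the family and with `⁅L, x i⁆` for some `i`. -/
theorem pick {ι : Type*} [Finite ι] (x : ι → L) (hx : ∀ i (y : L), ⁅x i, ⁅x i, y⁆⁆ = 0)
    (h0 : ∃ j, x j ≠ 0) :
    ∃ (i : ι) (c : L), c ≠ 0 ∧ (∀ j, ⁅x j, c⁆ = 0) ∧ ∀ z : L, ⁅⁅z, x i⁆, c⁆ = 0 := by
  classical
  obtain ⟨N, hN⟩ := kz_lie x hx
  have h1 : ∃ n, ∀ u : List ι, u.length = n → ∀ j, u.foldr (fun i z => ⁅x i, z⁆) (x j) = 0 :=
    ⟨N, fun u hu j => hN u hu _⟩
  have h2 := Nat.find_spec h1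
  have h3 : Nat.find h1 ≠ 0 := by
    intro h
    obtain ⟨j, hj⟩ := h0
    exact hj (h2 [] h.symm j)
  obtain ⟨n, hn⟩ := Nat.exists_eq_succ_of_ne_zero h3
  have h4 := Nat.find_min h1 (m := n) (by omega)
  push Not at h4
  obtain ⟨u, hu, j, hj⟩ := h4
  have h5 : ∀ k, ⁅x k, u.foldr (fun i z => ⁅x i, z⁆) (x j)⁆ = 0 := fun k =>
    h2 (k :: u) (by rw [length_cons, hu, hn]) j
  cases u with
  | nil =>
    refine ⟨j, _, hj, h5, fun z => ?_⟩
    rw [foldr_nil, ← lie_skew, ← lie_skew z, lie_neg, hx, neg_zero, neg_zero]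
  | cons i t => exact ⟨i, _, hj, h5, fun z => sw_two (hx i) z _⟩

/-- The filtration defined by the centraliser of `c`. -/
def Fil (c : L) : ℕ → Submodule ℚ L
  | 0 => LinearMap.ker (ad ℚ L c)
  | k + 1 => Fil c k ⊓ ⨅ z : L, (Fil c k).comap (ad ℚ L z)

theorem mem_fil_zero {c a : L} : a ∈ Fil c 0 ↔ ⁅a, c⁆ = 0 := by
  rw [Fil, LinearMap.mem_ker, ad_apply, ← lie_skew, neg_eq_zero]

theorem mem_fil_succ {c a : L} {k : ℕ} :
    a ∈ Fil c (k + 1) ↔ a ∈ Fil c k ∧ ∀ z : L, ⁅z, a⁆ ∈ Fil c k := by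
  simp [Fil]

theorem fil_anti (c : L) : Antitone (Fil c) :=
  antitone_nat_of_succ_le fun _ _ h => (mem_fil_succ.1 h).1

theorem fil_lie {c : L} : ∀ (n i j : ℕ) {a b : L}, i + j = n → a ∈ Fil c i → b ∈ Fil c j →
    ⁅a, b⁆ ∈ Fil c n := by
  intro n
  induction n with
  | zero =>
    intro i j a b h ha hb
    obtain rfl : i = 0 := by omega
    obtain rfl : j = 0 := by omega
    rw [mem_fil_zero] at ha hb ⊢
    rw [lie_lie, ha, hb, lie_zero, lie_zero, sub_zero]
  | succ n ih =>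
    have key : ∀ (i j : ℕ) {a b : L}, i + j = n + 1 → a ∈ Fil c i → b ∈ Fil c j → ∀ z : L,
        ⁅⁅z, a⁆, b⁆ ∈ Fil c n := by
      intro i j a b h ha hb z
      cases i with
      | zero =>
        obtain rfl : j = n + 1 := by omega
        exact (mem_fil_succ.1 hb).2 _
      | succ i => exact ih i j (by omega) ((mem_fil_succ.1 ha).2 z) hb
    intro i j a b h ha hb
    refine mem_fil_succ.2 ⟨?_, fun z => ?_⟩
    · cases j with
      | zero =>
        obtain rfl : i = n + 1 := by omega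
        rw [← lie_skew]
        exact neg_mem ((mem_fil_succ.1 ha).2 _)
      | succ j => exact ih i j (by omega) ha (mem_fil_succ.1 hb).1
    · rw [leibniz_lie, ← lie_skew a]
      exact add_mem (key i j h ha hb z) (neg_mem (key j i (by omega) hb ha z))

theorem fil_words {c : L} : ∀ (W : List L) {k : ℕ} {a : L}, a ∈ Fil c k → W.length ≤ k →
    ⁅W.foldr (fun y z => ⁅y, z⁆) a, c⁆ = 0 := by
  intro W
  induction W using List.reverseRecOn with
  | nil => exact fun ha _ => mem_fil_zero.1 (fil_anti c (Nat.zero_le _) ha)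
  | append_singleton W y ih =>
    intro k a ha hk
    rw [length_append, length_singleton] at hk
    obtain ⟨k, rfl⟩ : ∃ l, k = l + 1 := ⟨k - 1, by omega⟩
    rw [foldr_append]
    exact ih ((mem_fil_succ.1 ha).2 y) (by omega)

theorem words_fil {c : L} : ∀ {k : ℕ} {a : L}, (∀ W : List L, W.length ≤ k →
    ⁅W.foldr (fun y z => ⁅y, z⁆) a, c⁆ = 0) → a ∈ Fil c k
  | 0, _, h => mem_fil_zero.2 (h [] le_rfl)
  | k + 1, a, h => mem_fil_succ.2 ⟨words_fil fun W hW => h W (by omega), fun z =>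
      words_fil fun W hW => by
        have := h (W ++ [z]) (by rw [length_append, length_singleton]; omega)
        rwa [foldr_append] at this⟩

/-- For finitely many sandwiches, not all zero, there is `c ≠ 0` with the whole family in the
zeroth term and one member in the first term of the filtration of `c`. -/
theorem pick_fil {ι : Type*} [Finite ι] (x : ι → L) (hx : ∀ i (y : L), ⁅x i, ⁅x i, y⁆⁆ = 0)
    (h0 : ∃ j, x j ≠ 0) : ∃ (i : ι) (c : L), c ≠ 0 ∧ (∀ j, x j ∈ Fil c 0) ∧ x i ∈ Fil c 1 := by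
  obtain ⟨i, c, h1, h2, h3⟩ := pick x hx h0
  exact ⟨i, c, h1, fun j => mem_fil_zero.2 (h2 j),
    mem_fil_succ.2 ⟨mem_fil_zero.2 (h2 i), fun z => mem_fil_zero.2 (h3 z)⟩⟩

end lie

end Pool.Agent.MP_2a197d_al.KZ
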