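import Pool.Agent.MP_2a197d_al.Env
import Mathlib.Tactic.NoncommRing
import Mathlib.GroupTheory.FreeGroup.Basic

/-! Group laws for Lie algebras: the multilinear identities which say that the group generated by
the operators `1 + ε ad x` with `ε ^ 2 = 0` satisfies a given law. -/

namespace Pool.Agent.MP_2a197d_al.LW

open Finset Function

section cf
variable {ι κ E E' : Type*} [DecidableEq ι] [DecidableEq κ] [Ring E] [Ring E']

/-- A signed element. -/
def sg {M : Type*} [Neg M] (b : Bool) (u : M) : M := if b then u else -u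

/-- The coefficient of `∏ i ∈ S, ε i` in the product of the `1 ± ε i * X i` along a word. -/
def cf (X : ι → E) : List (ι × Bool) → Finset ι → E
  | [], S => if S = ∅ then 1 else 0
  | p :: l, S => cf X l S + if p.1 ∈ S then sg p.2 (X p.1) * cf X l (S.erase p.1) else 0

theorem cf_nil (X : ι → E) (S : Finset ι) : cf X [] S = if S = ∅ then 1 else 0 := rfl

theorem cf_cons (X : ι → E) (p : ι × Bool) (l : List (ι × Bool)) (S : Finset ι) :
    cf X (p :: l) S =
      cf X l S + if p.1 ∈ S then sg p.2 (X p.1) * cf X l (S.erase p.1) else 0 := rfl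

theorem cf_empty (X : ι → E) : ∀ l, cf X l ∅ = 1
  | [] => by simp [cf_nil]
  | p :: l => by simp [cf_cons, cf_empty X l]

theorem sg_map {M N F : Type*} [AddGroup M] [AddGroup N] [FunLike F M N] [AddMonoidHomClass F M N]
    (f : F) (b : Bool) (u : M) : f (sg b u) = sg b (f u) := by cases b <;> simp [sg]

theorem sg_not {M : Type*} [AddGroup M] (b : Bool) (u : M) : sg (!b) u = -sg b u := by
  cases b <;> simp [sg]

theorem sg_eq {M : Type*} [AddGroup M] (b : Bool) (u : M) : sg b u = sg b (1 : ℤ) • u := by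
  cases b <;> simp [sg]

theorem cf_image {X : ι → E} {Y : κ → E} (e : ι → κ) (l : List (ι × Bool)) : ∀ S : Finset ι,
    (∀ i ∈ S, ∀ j, e j = e i → j = i) → (∀ i ∈ S, Y (e i) = X i) →
    cf Y (l.map (Prod.map e id)) (S.image e) = cf X l S := by
  induction l with
  | nil => intro S _ _; simp [cf_nil]
  | cons p l ih =>
    intro S he hX
    rw [List.map_cons, cf_cons, cf_cons, ih S he hX]
    congr 1
    by_cases h : p.1 ∈ S
    · have h1 : (S.image e).erase (e p.1) = (S.erase p.1).image e := by
        ext k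
        simp only [mem_erase, mem_image]
        exact ⟨fun ⟨h1, a, h2, h3⟩ => ⟨a, ⟨fun h4 => h1 (h4 ▸ h3.symm), h2⟩, h3⟩,
          fun ⟨a, ⟨h1, h2⟩, h3⟩ => ⟨fun h4 => h1 (he _ h a (h3.trans h4)), a, h2, h3⟩⟩
      rw [if_pos h, if_pos (by exact mem_image_of_mem e h), Prod.map_fst, h1,
        ih _ (fun i hi => he i (mem_of_mem_erase hi)) fun i hi => hX i (mem_of_mem_erase hi),
        hX _ h]
      rfl
    · rw [if_neg h, if_neg]
      intro h1
      obtain ⟨a, h2, h3⟩ := mem_image.1 h1
      exact h (he a h2 _ h3.symm ▸ h2)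

theorem cf_congr {X Y : ι → E} (l : List (ι × Bool)) {S : Finset ι} (h : ∀ i ∈ S, Y i = X i) :
    cf Y l S = cf X l S := by
  simpa using cf_image (X := X) (Y := Y) id l S (fun _ _ _ h => h) h

theorem cf_map (ρ : E →+* E') (X : ι → E) (l : List (ι × Bool)) :
    ∀ S, ρ (cf X l S) = cf (fun i => ρ (X i)) l S := by
  induction l with
  | nil => intro S; simp only [cf_nil]; split_ifs <;> simp
  | cons p l ih =>
    intro S
    simp only [cf_cons, map_add, ih]
    split_ifs <;> simp [ih, sg_map]

theorem cf_notMem (X : ι → E) {i : ι} (l : List (ι × Bool)) (hl : ∀ p ∈ l, p.1 ≠ i) :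
    ∀ S, i ∈ S → cf X l S = 0 := by
  induction l with
  | nil => intro S h; rw [cf_nil, if_neg (ne_empty_of_mem h)]
  | cons p l ih =>
    intro S h
    have ih' := ih fun q hq => hl q (List.mem_cons_of_mem _ hq)
    rw [cf_cons, ih' S h, ih' _ (mem_erase.2 ⟨(hl p List.mem_cons_self).symm, h⟩)]
    simp

theorem cf_append (X : ι → E) (l l' : List (ι × Bool)) :
    ∀ S, cf X (l ++ l') S = ∑ T ∈ S.powerset, cf X l T * cf X l' (S \ T) := by
  induction l with
  | nil =>
    intro S
    rw [sum_eq_single ∅ (fun T _ h => by rw [cf_nil, if_neg h, zero_mul]) (by simp)]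
    simp [cf_nil]
  | cons p l ih =>
    intro S
    simp only [List.cons_append, cf_cons, ih, add_mul, sum_add_distrib]
    congr 1
    by_cases h : p.1 ∈ S
    · rw [if_pos h, mul_sum]
      conv_rhs => rw [← insert_erase h, sum_powerset_insert (notMem_erase _ _)]
      refine Eq.trans ?_ ((zero_add _).symm.trans (congrArg₂ _ (sum_eq_zero fun T hT => by
        rw [if_neg fun h' => notMem_erase _ _ (mem_powerset.1 hT h'), zero_mul]).symm rfl))
      refine sum_congr rfl fun T hT => ?_
      have h1 : p.1 ∉ T := fun h' => notMem_erase _ _ (mem_powerset.1 hT h')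
      rw [if_pos (mem_insert_self _ _), erase_insert h1, mul_assoc, insert_erase h]
      congr 3
      ext k
      simp only [mem_sdiff, mem_erase, mem_insert]
      tauto
    · rw [if_neg h, sum_eq_zero]
      intro T hT
      rw [if_neg fun h' => h (mem_powerset.1 hT h'), zero_mul]

theorem cf_red (X : ι → E) {l l' : List (ι × Bool)} (h : FreeGroup.mk l = FreeGroup.mk l') :
    cf X l = cf X l' := by
  have key : ∀ l l', FreeGroup.Red.Step l l' → cf X l = cf X l' := by
    rintro _ _ ⟨a, b, x, s⟩
    funext S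
    rw [cf_append, cf_append]
    refine sum_congr rfl fun T _ => ?_
    congr 1
    simp only [cf_cons, notMem_erase, if_false, add_zero, sg_not]
    split_ifs <;> simp
  obtain ⟨c, h1, h2⟩ := FreeGroup.Red.exact.1 h
  have k2 : ∀ l l', FreeGroup.Red l l' → cf X l = cf X l' := fun l l' h => by
    induction h with
    | refl => rfl
    | tail _ h ih => exact ih.trans (key _ _ h)
  exact (k2 _ _ h1).trans (k2 _ _ h2).symm

theorem cf_lin {K : Type*} [CommRing K] [Algebra K E] (X : ι → E) (l : List (ι × Bool)) {i : ι} :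
    ∀ S, i ∈ S → IsLinearMap K fun a => cf (update X i a) l S := by
  induction l with
  | nil => intro S h; simp only [cf_nil, if_neg (ne_empty_of_mem h)]; constructor <;> simp
  | cons p l ih =>
    intro S h
    simp only [cf_cons]
    by_cases h1 : p.1 ∈ S
    · simp only [if_pos h1]
      by_cases h2 : p.1 = i
      · have h3 : ∀ a, cf (update X i a) l (S.erase p.1) = cf X l (S.erase p.1) := fun a =>
          cf_congr l fun j hj => update_of_ne (h2 ▸ ne_of_mem_erase hj) _ _
        simp only [h3]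
        simp only [h2, update_self]
        constructor
        · intro a b
          rw [(ih S h).map_add]
          cases p.2 <;> simp only [sg, Bool.false_eq_true, if_true, if_false] <;> noncomm_ring
        · intro c a
          rw [(ih S h).map_smul]
          cases p.2 <;> simp [sg]
      · have h3 := ih _ (mem_erase.2 ⟨Ne.symm h2, h⟩)
        simp only [update_of_ne h2]
        constructor
        · intro a b
          rw [(ih S h).map_add, h3.map_add]
          noncomm_ring
        · intro c a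
          rw [(ih S h).map_smul, h3.map_smul]
          simp
    · simpa only [if_neg h1, add_zero] using ih S h

/-- Expansion of a product of the `1 ± ε i • X i`. -/
theorem cf_exp {A : Type*} [CommRing A] [Algebra A E] (ε : ι → A) (hε : ∀ i, ε i * ε i = 0)
    (X : ι → E) (U : Finset ι) (l : List (ι × Bool)) (hl : ∀ p ∈ l, p.1 ∈ U) :
    (l.map fun p => 1 + ε p.1 • sg p.2 (X p.1)).prod =
      ∑ S ∈ U.powerset, (∏ i ∈ S, ε i) • cf X l S := by
  induction l with
  | nil =>
    rw [sum_eq_single ∅ (fun T _ h => by rw [cf_nil, if_neg h, smul_zero]) (by simp)]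
    simp [cf_nil]
  | cons p l ih =>
    have h := hl p List.mem_cons_self
    rw [List.map_cons, List.prod_cons, ih fun q hq => hl q (List.mem_cons_of_mem _ hq)]
    simp only [cf_cons, add_mul, one_mul, smul_add, sum_add_distrib, mul_sum]
    congr 1
    rw [← insert_erase h, sum_powerset_insert (notMem_erase _ _),
      sum_powerset_insert (notMem_erase _ _), add_comm]
    congr 1 <;> refine sum_congr rfl fun T hT => ?_ <;>
      have h1 : p.1 ∉ T := fun h' => notMem_erase _ _ (mem_powerset.1 hT h')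
    · rw [if_neg h1, prod_insert h1, smul_mul_smul_comm, ← mul_assoc, hε]
      simp
    · rw [if_pos (mem_insert_self _ _), prod_insert h1, smul_mul_smul_comm, erase_insert h1]

end cf

section law
open LieAlgebra
variable {α β ι : Type*} [DecidableEq ι] {L L' : Type*} [LieRing L] [LieAlgebra ℚ L] [LieRing L']
  [LieAlgebra ℚ L']

/-- The Lie algebra `L` has the law `w`. -/
def Law (w : FreeGroup α) (L : Type*) [LieRing L] [LieAlgebra ℚ L] : Prop :=
  ∀ (f : α → FreeGroup ℕ) (l : List (ℕ × Bool)), FreeGroup.mk l = FreeGroup.lift f w →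
    ∀ (x : ℕ → L) (S : Finset ℕ), S ≠ ∅ → cf (fun i => ad ℚ L (x i)) l S = 0

theorem cf_nat (φ : L →+ L') (hφ : ∀ a b, φ ⁅a, b⁆ = ⁅φ a, φ b⁆) (x : ι → L)
    (l : List (ι × Bool)) : ∀ (S : Finset ι) (z : L),
    φ (cf (fun i => ad ℚ L (x i)) l S z) = cf (fun i => ad ℚ L' (φ (x i))) l S (φ z) := by
  induction l with
  | nil => intro S z; simp only [cf_nil]; split_ifs <;> simp
  | cons p l ih =>
    intro S z
    simp only [cf_cons, LinearMap.add_apply, map_add, ih]
    split_ifs
    · cases p.2 <;> simp [sg, hφ, ih]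
    · simp

theorem Law.gen {w : FreeGroup α} (h : Law w L) (f : α → FreeGroup ι) (l : List (ι × Bool))
    (hl : FreeGroup.mk l = FreeGroup.lift f w) (x : ι → L) (S : Finset ι) (hS : S ≠ ∅) :
    cf (fun i => ad ℚ L (x i)) l S = 0 := by
  let e : ι → ℕ := fun i => if h : i ∈ S then (S.equivFin ⟨i, h⟩ : ℕ) + 1 else 0
  have he : ∀ i ∈ S, ∀ j, e j = e i → j = i := by
    intro i hi j hj
    by_cases h : j ∈ S
    · simp only [e, dif_pos hi, dif_pos h, add_left_inj, Fin.val_inj] at hj
      exact congrArg Subtype.val (S.equivFin.injective hj)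
    · simp [e, dif_pos hi, dif_neg h] at hj
  have hx : ∀ n : ℕ, ∃ y : L, ∀ i ∈ S, e i = n → y = x i := fun n => by
    by_cases h : ∃ i ∈ S, e i = n
    · obtain ⟨i, hi, rfl⟩ := h
      exact ⟨x i, fun j _ hj => by rw [he i hi j hj]⟩
    · exact ⟨0, fun j hj hj' => (h ⟨j, hj, hj'⟩).elim⟩
  choose y hy using hx
  rw [← cf_image (Y := fun n => ad ℚ L (y n)) e l S he fun i hi => by rw [hy _ i hi rfl]]
  refine h (fun a => FreeGroup.map e (f a)) _ ?_ y _ (by simpa using hS)
  refine (FreeGroup.map.mk (f := e) (L := l)).symm.trans ?_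
  rw [hl]
  exact DFunLike.congr_fun (FreeGroup.ext_hom ((FreeGroup.map e).comp (FreeGroup.lift f))
    (FreeGroup.lift _) fun a => by simp) w

theorem Law.lift {w : FreeGroup α} (h : Law w L) (θ : α → FreeGroup β) :
    Law (FreeGroup.lift θ w) L := fun f l hl => h (fun a => FreeGroup.lift f (θ a)) l
  (hl.trans (DFunLike.congr_fun (FreeGroup.ext_hom ((FreeGroup.lift f).comp (FreeGroup.lift θ))
    (FreeGroup.lift _) fun a => by simp) w))

theorem Law.image {w : FreeGroup α} (h : Law w L) (φ : L →+ L')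
    (hφ : ∀ a b, φ ⁅a, b⁆ = ⁅φ a, φ b⁆) (hs : Surjective φ) : Law w L' := by
  intro f l hl x S hS
  choose y hy using fun i => hs (x i)
  ext z
  obtain ⟨z, rfl⟩ := hs z
  simp only [← hy]
  rw [← cf_nat φ hφ, h f l hl y S hS]
  simp

theorem Law.sub {w : FreeGroup α} {Θ : Type*} {M : Θ → Type*} [∀ θ, LieRing (M θ)]
    [∀ θ, LieAlgebra ℚ (M θ)] (h : ∀ θ, Law w (M θ)) (φ : ∀ θ, L →+ M θ)
    (hφ : ∀ θ a b, φ θ ⁅a, b⁆ = ⁅φ θ a, φ θ b⁆) (hs : ∀ z, (∀ θ, φ θ z = 0) → z = 0) :
    Law w L := by
  intro f l hl x S hS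
  ext z
  refine hs _ fun θ => ?_
  rw [cf_nat (φ θ) (hφ θ), h θ f l hl _ S hS]
  rfl

/-- The law holds in the group generated by the `1 + ε i • ad (x i)` over any extension. -/
theorem Law.ev {w : FreeGroup α} (h : Law w L) {A R : Type*} [CommRing A] [Ring R] [Algebra A R]
    (ρ : Module.End ℚ L →+* R) (ε : ι → A) (hε : ∀ i, ε i * ε i = 0) (x : ι → L) (u : ι → Rˣ)
    (hu : ∀ i, (u i : R) = 1 + ε i • ρ (ad ℚ L (x i))) (f : α → FreeGroup ι) :
    FreeGroup.lift u (FreeGroup.lift f w) = 1 := by
  obtain ⟨l, hl⟩ := Quot.exists_rep (FreeGroup.lift f w)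
  have h1 := cf_exp ε hε (fun i => ρ (ad ℚ L (x i))) (l.map Prod.fst).toFinset l
    fun p hp => List.mem_toFinset.2 (List.mem_map_of_mem hp)
  rw [sum_eq_single ∅ (fun S _ hS => by
    rw [← cf_map ρ, h.gen f l hl x S hS, map_zero, smul_zero]) (by simp), cf_empty] at h1
  rw [← hl, FreeGroup.quot_mk_eq_mk, FreeGroup.lift_mk]
  ext
  rw [← Units.coeHom_apply, map_list_prod, List.map_map]
  refine Eq.trans (congrArg List.prod (List.map_congr_left fun p _ => ?_)) (h1.trans (by simp))
  rcases p with ⟨i, _ | _⟩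
  · refine Units.inv_eq_of_mul_eq_one_right ?_
    rw [hu, sg]
    simp [mul_add, add_mul, smul_smul, hε]
  · exact hu i

end law

end Pool.Agent.MP_2a197d_al.LW
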