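import Mathlib.Algebra.Lie.OfAssociative
import Mathlib.Algebra.Algebra.Bilinear
import Mathlib.Algebra.Polynomial.Roots
import Mathlib.LinearAlgebra.Dual.Lemmas
import Mathlib.RingTheory.Nilpotent.Basic
import Mathlib.Tactic.NoncommRing
import Mathlib.Tactic.LinearCombination
import Mathlib.Tactic.Module
import Mathlib.Algebra.CharZero.Infinite

/-! From an ad-nilpotent element to a sandwich. -/

namespace Pool.Agent.MP_2a197d_al.S4

open Finset

section ring
variable {R : Type*} [Ring R] [Algebra ℚ R]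

theorem cancel (n : ℕ) (hn : n ≠ 0) {z : R} (h : n • z = 0) : z = 0 := by
  have h1 : (n : ℚ) • z = 0 := by rw [Nat.cast_smul_eq_nsmul]; exact h
  rcases smul_eq_zero.1 h1 with h2 | h2
  · exact absurd (by exact_mod_cast h2) hn
  · exact h2

theorem cancel2 {z : R} (h : 2 * z = 0) : z = 0 :=
  cancel 2 two_ne_zero (by rw [two_nsmul, ← two_mul]; exact h)

theorem cancel3 {z : R} (h : 3 * z = 0) : z = 0 :=
  cancel 3 three_ne_zero (by rw [nsmul_eq_mul]; exact_mod_cast h)

theorem leib (d : Module.End ℚ R) (hd : ∀ u v, d (u * v) = d u * v + u * d v) (u v : R) (N : ℕ) :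
    (d ^ N) (u * v) = ∑ ij ∈ antidiagonal N, N.choose ij.1 • ((d ^ ij.1) u * (d ^ ij.2) v) := by
  induction N with
  | zero => simp
  | succ N ih =>
    rw [sum_antidiagonal_choose_succ_nsmul (fun i j => (d ^ i) u * (d ^ j) v), pow_succ',
      Module.End.mul_apply, ih, map_sum, ← sum_add_distrib]
    refine sum_congr rfl fun ij hij => ?_
    have h1 : N.choose ij.2 = N.choose ij.1 := by
      rw [← mem_antidiagonal.1 hij, Nat.choose_symm_add]
    rw [map_nsmul, hd, h1, pow_succ', pow_succ', Module.End.mul_apply, Module.End.mul_apply,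
      smul_add, add_comm]

theorem pow_zero_of_le (d : Module.End ℚ R) {u : R} {p i : ℕ} (h : (d ^ p) u = 0) (hi : p ≤ i) :
    (d ^ i) u = 0 := by
  obtain ⟨k, rfl⟩ := Nat.exists_eq_add_of_le hi
  rw [add_comm, pow_add, Module.End.mul_apply, h, map_zero]

theorem leib_top (d : Module.End ℚ R) (hd : ∀ u v, d (u * v) = d u * v + u * d v) {u v : R} {p q : ℕ}
    (hu : (d ^ (p + 1)) u = 0) (hv : (d ^ (q + 1)) v = 0) :
    (d ^ (p + q)) (u * v) = (p + q).choose p • ((d ^ p) u * (d ^ q) v) ∧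
      (d ^ (p + q + 1)) (u * v) = 0 := by
  constructor
  · rw [leib d hd, sum_eq_single (p, q)]
    · intro ij hij hne
      have h1 := mem_antidiagonal.1 hij
      by_cases h2 : p + 1 ≤ ij.1
      · rw [pow_zero_of_le d hu h2, zero_mul, smul_zero]
      · have h3 : q + 1 ≤ ij.2 := by
          by_contra h4
          exact hne (Prod.ext (by simp only; omega) (by simp only; omega))
        rw [pow_zero_of_le d hv h3, mul_zero, smul_zero]
    · intro h; exact absurd (by simp) h
  · rw [leib d hd]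
    refine sum_eq_zero fun ij hij => ?_
    have h1 := mem_antidiagonal.1 hij
    by_cases h2 : p + 1 ≤ ij.1
    · rw [pow_zero_of_le d hu h2, zero_mul, smul_zero]
    · rw [pow_zero_of_le d hv (by omega), mul_zero, smul_zero]

/-- commutator with `X`. -/
def del (X : R) : Module.End ℚ R := LinearMap.mulLeft ℚ X - LinearMap.mulRight ℚ X

theorem del_apply (X T : R) : del X T = X * T - T * X := rfl

theorem cube_zero (X Y : R) (m : ℕ) (hm : 1 ≤ m) (hX : X ^ (m + 1) = 0)
    (hY : (del X ^ (m + 1)) Y = 0) :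
    (del X ^ m) Y * (del X ^ m) Y * (del X ^ m) Y = 0 := by
  have hd : ∀ u v : R, del X (u * v) = del X u * v + u * del X v := fun u v => by
    simp only [del_apply]; noncomm_ring
  have h0 : del X ^ (m + m + m) = 0 := by
    let l : Module.End ℚ R := LinearMap.mulLeft ℚ X
    let r : Module.End ℚ R := LinearMap.mulRight ℚ X
    have hc : Commute l r := LinearMap.commute_mulLeft_right X X
    have h1 : l ^ (m + 1) = 0 := by
      rw [LinearMap.pow_mulLeft, hX, LinearMap.mulLeft_zero_eq_zero]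
    have h2 : r ^ (m + 1) = 0 := by
      rw [LinearMap.pow_mulRight, hX, LinearMap.mulRight_zero_eq_zero]
    have h3 : (-r) ^ (m + 1) = 0 := by rw [neg_pow r, h2, mul_zero]
    have h4 : del X = l + -r := sub_eq_add_neg _ _
    rw [h4]
    exact hc.neg_right.add_pow_eq_zero_of_add_le_succ_of_pow_eq_zero h1 h3 (by omega)
  obtain ⟨a1, a2⟩ := leib_top (del X) hd hY hY
  obtain ⟨b1, -⟩ := leib_top (del X) hd a2 hY
  rw [h0, a1, LinearMap.zero_apply, smul_mul_assoc] at b1
  exact cancel _ (Nat.choose_pos (by omega)).ne' (cancel _ (Nat.choose_pos (by omega)).ne' b1.symm)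

/-- lowest coefficient of a polynomial expression. -/
theorem eval_zero_of (p : Polynomial R) (h : ∀ s : ℚ, s ≠ 0 → p.eval (algebraMap ℚ R s) = 0) :
    p.coeff 0 = 0 := by
  rw [← Module.forall_dual_apply_eq_zero_iff ℚ]
  intro f
  let q : Polynomial ℚ := ∑ i ∈ range (p.natDegree + 1), Polynomial.monomial i (f (p.coeff i))
  have hq : ∀ s : ℚ, q.eval s = f (p.eval (algebraMap ℚ R s)) := fun s => by
    rw [Polynomial.eval_eq_sum_range (p := p), map_sum, Polynomial.eval_finsetSum]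
    refine sum_congr rfl fun i _ => ?_
    rw [Polynomial.eval_monomial, ← map_pow, ← Algebra.commutes, ← Algebra.smul_def, map_smul,
      smul_eq_mul, mul_comm]
  have h0 : q = 0 := by
    apply Polynomial.eq_zero_of_infinite_isRoot
    refine (Set.infinite_of_finite_compl (s := {s : ℚ | s ≠ 0}) ?_).mono ?_
    · simp
    · intro s hs
      show q.eval s = 0
      rw [hq, h s hs, map_zero]
  have h1 := hq 0
  rw [h0, map_zero, Polynomial.eval_zero, ← Polynomial.coeff_zero_eq_eval_zero] at h1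
  exact h1.symm

theorem low (M M1 M2 P Q S W : R) (j : ℕ)
    (h : ∀ s : ℚ, s ≠ 0 → (M + s • M1 + s ^ 2 • M2) ^ j * (P + s • Q + s ^ 2 • S) * W = 0) :
    M ^ j * P * W = 0 := by
  let q : R → R → R → Polynomial R := fun a b c =>
    Polynomial.C a + Polynomial.monomial 1 b + Polynomial.monomial 2 c
  have ev : ∀ s : ℚ, ∀ p1 p2 : Polynomial R, (p1 * p2).eval (algebraMap ℚ R s) =
      p1.eval (algebraMap ℚ R s) * p2.eval (algebraMap ℚ R s) := fun s p1 p2 =>
    Polynomial.eval₂_mul_noncomm (RingHom.id R) _ fun k => (Algebra.commutes s _).symm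
  have evq : ∀ (s : ℚ) a b c, (q a b c).eval (algebraMap ℚ R s) = a + s • b + s ^ 2 • c := by
    intro s a b c
    simp only [q, Polynomial.eval_add, Polynomial.eval_C, Polynomial.eval_monomial, pow_one]
    rw [← map_pow, ← Algebra.commutes, ← Algebra.commutes, ← Algebra.smul_def, ← Algebra.smul_def]
  have evp : ∀ (s : ℚ) (p : Polynomial R) (i : ℕ),
      (p ^ i).eval (algebraMap ℚ R s) = p.eval (algebraMap ℚ R s) ^ i := by
    intro s p i
    induction i with
    | zero => simp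
    | succ i ih => rw [pow_succ, ev, ih, pow_succ]
  have h0 := eval_zero_of (q M M1 M2 ^ j * q P Q S * Polynomial.C W) fun s hs => by
    rw [ev, ev, evp, evq, evq, Polynomial.eval_C, h s hs]
  have h1 := ev 0
  rw [Polynomial.coeff_zero_eq_eval_zero, ← map_zero (algebraMap ℚ R), ev, ev, evp, evq, evq,
    Polynomial.eval_C] at h0
  simpa using h0

end ring

section lie
variable {L : Type*} [LieRing L] [LieAlgebra ℚ L]

/-- the adjoint operator. -/
abbrev E (x : L) : Module.End ℚ L := LieAlgebra.ad ℚ L x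

theorem E_lie (x y : L) : E ⁅x, y⁆ = E x * E y - E y * E x := by
  ext z; simp

theorem E_app (x y : L) : E x y = ⁅x, y⁆ := rfl

theorem E_zero : E (0 : L) = 0 := map_zero _

theorem jordan (a : L) (ha : a ≠ 0) (n : ℕ) (hn : E a ^ n = 0) :
    ∃ e : L, e ≠ 0 ∧ E e * E e * E e = 0 := by
  classical
  have hex : ∃ n, E a ^ n = 0 := ⟨n, hn⟩
  have h1 := Nat.find_spec hex
  by_cases h3 : Nat.find hex ≤ 3
  · refine ⟨a, ha, ?_⟩
    have h4 : E a ^ 3 = 0 := pow_eq_zero_of_le h3 h1
    rw [← h4]; noncomm_ring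
  · obtain ⟨m, hm⟩ : ∃ m, Nat.find hex = m + 1 := ⟨Nat.find hex - 1, by omega⟩
    have h2 : E a ^ m ≠ 0 := Nat.find_min hex (by omega)
    obtain ⟨y, hy⟩ : ∃ y, (E a ^ m) y ≠ 0 := by
      by_contra hc
      push Not at hc
      exact h2 (LinearMap.ext hc)
    have key : ∀ i : ℕ, E ((E a ^ i) y) = (del (E a) ^ i) (E y) := by
      intro i
      induction i with
      | zero => simp
      | succ i ih =>
        rw [pow_succ', pow_succ', Module.End.mul_apply, Module.End.mul_apply, E_app, E_lie, ih,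
          del_apply]
    rw [hm] at h1
    refine ⟨_, hy, ?_⟩
    rw [key]
    exact cube_zero _ _ m (by omega) h1 (by rw [← key, h1, LinearMap.zero_apply, E_zero])

variable {a : L} (hA : E a * E a * E a = 0)
include hA

theorem R1 (z : L) : E a * E a * E z * E a = E a * E z * E a * E a := by
  have h0 : ⁅a, ⁅a, ⁅a, z⁆⁆⁆ = 0 := LinearMap.congr_fun hA z
  have h1 := congrArg E h0
  rw [E_lie, E_lie, E_lie, E_zero] at h1
  have h2 : 3 * (E a * E a * E z * E a - E a * E z * E a * E a) = 0 := by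
    linear_combination (norm := noncomm_ring) hA * E z - E z * hA - h1
  exact sub_eq_zero.1 (cancel3 h2)

theorem R2 (z : L) : E a * E a * E z * E a * E a = 0 := by
  linear_combination (norm := noncomm_ring) hA * E z * E a - E a * R1 hA z

theorem Fp (x y : L) : E ⁅a, ⁅a, x⁆⁆ * E ⁅a, ⁅a, y⁆⁆ = E a * E a * E x * E y * E a * E a := by
  rw [E_lie, E_lie, E_lie, E_lie]
  linear_combination (norm := noncomm_ring) R2 hA x * E y - 4 * R1 hA x * E y * E a
    + 2 * E a * E x * R1 hA y - 2 * E a * E x * hA * E y + E x * E a * hA * E y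
    - 2 * E x * hA * E y * E a + E x * R2 hA y + 2 * R1 hA x * E y * E a

theorem Jb (x : L) : E ⁅a, ⁅a, x⁆⁆ * E ⁅a, ⁅a, x⁆⁆ * E ⁅a, ⁅a, x⁆⁆ = 0 := by
  rw [mul_assoc, Fp hA, E_lie, E_lie]
  linear_combination (norm := noncomm_ring) (R2 hA x - 2 * E a * E x * hA + E x * E a * hA) *
    (E x * E x * E a * E a)

theorem sym (x y : L) :
    E a * E a * E x * E y * E a * E a = E a * E a * E y * E x * E a * E a := by
  have h := R2 hA ⁅x, y⁆
  rw [E_lie] at h
  linear_combination (norm := noncomm_ring) h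

theorem ThX (x : L) : E a * E a * E x * E x * E a * E a * E x * E a =
    E a * E x * E a * E a * E x * E x * E a * E a := by
  have h := sym hA ⁅x, ⁅x, a⁆⁆ x
  rw [E_lie, E_lie] at h
  have r := R1 hA x
  have h2 : 3 * (E a * E a * E x * E x * E a * E a * E x * E a -
      E a * E x * E a * E a * E x * E x * E a * E a) = 0 := by
    linear_combination (norm := noncomm_ring) h + 3 * (E a * E a * E x * E x) * r
      + 3 * r * (E x * E x * E a * E a) - hA * (E x * E x * E x * E a * E a)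
      + (E a * E a * E x * E x * E x) * hA
  exact sub_eq_zero.1 (cancel3 h2)

theorem Fm (x : L) : E a * E a * E ⁅x, ⁅x, a⁆⁆ * E ⁅x, ⁅x, a⁆⁆ * E a * E a =
    E a * E a * E x * E x * E a * E a * E x * E x * E a * E a := by
  rw [E_lie, E_lie]
  have r := R1 hA x
  have t := ThX hA x
  linear_combination (norm := noncomm_ring) (E a * E a * E x * E x * E a * E x * E x) * hA
    + 2 * (E a * E a * E x * E x * E a * E x) * r + 2 * (E a * E a * E x * E x) * r * (E x * E a)
    - 2 * t * (E x * E a) + 2 * (E a * E x) * t - 2 * (E a * E x) * r * (E x * E x * E a * E a)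
    - 2 * r * (E x * E a * E x * E x * E a * E a)
    - 2 * (E a * E a * E x * E a * E x * E x * E x) * hA
    - 4 * (E a * E a * E x * E a * E x * E x) * r + 4 * r * (E x * E x * E a * E a * E x * E a)
    + (E a * E a * E a * E x * E x * E x * E x) * hA
    - 2 * hA * (E x * E x * E x * E a * E x * E a * E a)
    + hA * (E x * E x * E a * E x * E x * E a * E a)

theorem Nlem {n c : L} (hc : c = ⁅a, ⁅a, n⁆⁆) (hw : ⁅a, ⁅a, ⁅n, ⁅n, a⁆⁆⁆⁆ = 0) (v : L) :
    E c * E c * E n * E v * E a * E a = 0 ∧ E a * E a * E v * E n * E c * E c = 0 := by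
  obtain ⟨w, hw'⟩ : ∃ w, w = ⁅n, ⁅n, a⁆⁆ := ⟨_, rfl⟩
  rw [← hw'] at hw
  have s1 : ⁅n, c⁆ = ⁅w, a⁆ := by
    have h1 : ⁅a, n⁆ = -⁅n, a⁆ := (lie_skew a n).symm
    rw [hc, hw', ← lie_skew ⁅n, ⁅n, a⁆⁆ a, leibniz_lie a n ⁅n, a⁆, h1, neg_lie, lie_self, lie_neg,
      lie_neg, neg_zero, zero_add]
  have s2 : E n * E c - E c * E n = E w * E a - E a * E w := by rw [← E_lie, ← E_lie, s1]
  have s3 := congrArg E hw
  rw [E_lie, E_lie, E_zero] at s3
  have rw1 := R1 hA w
  have s3a : E a * E w * E a * E a = 0 := by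
    linear_combination (norm := noncomm_ring) hA * E w - E a * s3 - 2 * rw1
  have k1 : (E n * E c - E c * E n) * (E a * E a) = 0 := by
    rw [s2]; linear_combination (norm := noncomm_ring) E w * hA - s3a
  have k2 : (E a * E a) * (E n * E c - E c * E n) = 0 := by
    rw [s2]; linear_combination (norm := noncomm_ring) rw1 + s3a - hA * E w
  have s5 : ⁅c, ⁅c, n⁆⁆ = 0 := by
    have h1 : ⁅⁅n, c⁆, ⁅a, ⁅a, n⁆⁆⁆ = 0 := by
      rw [← E_lie] at k1
      exact LinearMap.congr_fun k1 n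
    rw [← hc] at h1
    rw [← lie_skew c n, lie_neg, ← lie_skew c, h1, neg_zero, neg_zero]
  have s6 := congrArg E s5
  rw [E_lie, E_lie, E_zero] at s6
  have cc : E c * E c = E a * E a * E n * E n * E a * E a := by rw [hc, Fp hA]
  have c1 : E c * E c * E v * E a * E a = 0 := by
    rw [cc]; linear_combination (norm := noncomm_ring) (E a * E a * E n * E n) * R2 hA v
  have c2 : E a * E a * E v * E c * E c = 0 := by
    rw [mul_assoc _ (E c), cc]
    linear_combination (norm := noncomm_ring) R2 hA v * (E n * E n * E a * E a)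
  obtain ⟨y, hy⟩ : ∃ y, y = ⁅⁅n, c⁆, v⁆ := ⟨_, rfl⟩
  have s8 : ⁅a, ⁅a, y⁆⁆ = 0 := by
    rw [← E_lie] at k2
    rw [hy]; exact LinearMap.congr_fun k2 v
  have s9 : E c * E y * E a * E a = 0 := by
    ext z
    have h1 := LinearMap.congr_fun (Fp hA n z) y
    rw [← hc] at h1
    have h2 : ⁅c, ⁅⁅a, ⁅a, z⁆⁆, y⁆⁆ = ⁅a, ⁅a, ⁅n, ⁅z, ⁅a, ⁅a, y⁆⁆⁆⁆⁆⁆ := h1
    show ⁅c, ⁅y, ⁅a, ⁅a, z⁆⁆⁆⁆ = 0
    rw [← lie_skew y, lie_neg, h2, s8]; simp
  have ac : E a * E c = -(E a * E n * E a * E a) := by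
    rw [hc, E_lie, E_lie]
    linear_combination (norm := noncomm_ring) hA * E n - 2 * R1 hA n
  have comm : E a * E c - E c * E a = 0 := by
    rw [← E_lie, hc]
    have h0 : ⁅a, ⁅a, ⁅a, n⁆⁆⁆ = 0 := LinearMap.congr_fun hA n
    rw [h0, E_zero]
  have aac : E a * E a * E c = 0 := by
    linear_combination (norm := noncomm_ring) E a * ac - R2 hA n
  have e1 := congrArg E s8
  rw [E_lie, E_lie, E_zero] at e1
  have e2 : E ⁅a, ⁅c, y⁆⁆ = 0 := by
    have h1 : ⁅a, ⁅c, y⁆⁆ = -⁅a, ⁅n, ⁅a, ⁅a, y⁆⁆⁆⁆ := LinearMap.congr_fun ac y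
    rw [h1, s8]; simp
  rw [E_lie, E_lie] at e2
  have s10 : E a * E a * E y * E c = 0 := by
    linear_combination (norm := noncomm_ring) - 2 * e2 * E a - 2 * E y * comm * E a
      - 2 * (E y * E a) * comm + E y * aac - s9 + 2 * (E a * E y) * comm + e1 * E c - E c * e1
      + 2 * comm * (E y * E a) - comm * (E a * E y) - E a * comm * E y + aac * E y
  rw [hy, E_lie, E_lie] at s9 s10
  constructor
  · linear_combination (norm := noncomm_ring) - 2 * s9 - 2 * (E c * E v) * k1
      - s6 * (E v * E a * E a) + E n * c1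
  · linear_combination (norm := noncomm_ring) - (E a * E a * E v) * s6 + c2 * E n - 2 * s10
      + 2 * k2 * (E v * E c)

theorem Tpow (x : L) (j : ℕ) :
    (E a * E a * E ⁅x, ⁅x, a⁆⁆ * E ⁅x, ⁅x, a⁆⁆) ^ j * (E a * E a) =
      (E a * E a * E x * E x) ^ (2 * j) * (E a * E a) := by
  induction j with
  | zero => simp
  | succ j ih =>
    have h := Fm hA x
    rw [pow_succ, Nat.mul_succ, pow_add, pow_two]
    linear_combination (norm := noncomm_ring)
      (E a * E a * E ⁅x, ⁅x, a⁆⁆ * E ⁅x, ⁅x, a⁆⁆) ^ j * h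
      + ih * (E x * E x * E a * E a * E x * E x * E a * E a)

theorem exists_n (hs : ∀ c : L, E c * E c = 0 → c = 0) (j : ℕ) : ∀ x : L,
    (E a * E a * E x * E x) ^ j * (E a * E a) = 0 → ⁅a, ⁅a, x⁆⁆ ≠ 0 →
      ∃ n : L, ⁅a, ⁅a, n⁆⁆ ≠ 0 ∧ ⁅a, ⁅a, ⁅n, ⁅n, a⁆⁆⁆⁆ = 0 := by
  induction j with
  | zero =>
    intro x h hx
    rw [pow_zero, one_mul] at h
    exact absurd (LinearMap.congr_fun h x) hx
  | succ j ih =>
    intro x h hx
    by_cases h1 : ⁅a, ⁅a, ⁅x, ⁅x, a⁆⁆⁆⁆ = 0
    · exact ⟨x, hx, h1⟩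
    · rcases Nat.eq_zero_or_pos j with rfl | hj
      · refine absurd (hs _ ?_) hx
        rw [Fp hA, ← h]; noncomm_ring
      · refine ih _ ?_ h1
        obtain ⟨i, hi⟩ : ∃ i, 2 * j = i + (j + 1) := ⟨j - 1, by omega⟩
        rw [Tpow hA, hi, pow_add, mul_assoc, h, mul_zero]

theorem lower {n c : L} (hc : c = ⁅a, ⁅a, n⁆⁆) (hw : ⁅a, ⁅a, ⁅n, ⁅n, a⁆⁆⁆⁆ = 0) (k : ℕ)
    (h : ∀ x : L, (E a * E a * E x * E x) ^ (k + 1) * (E a * E a) = 0) (v : L) :
    (E c * E c * E v * E v) ^ k * (E c * E c) = 0 := by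
  obtain ⟨n1, n2⟩ := Nlem hA hc hw v
  have cc : E c * E c = E a * E a * E n * E n * E a * E a := by rw [hc, Fp hA]
  obtain ⟨P, hP⟩ : ∃ P, P = E a * E a * E n * E n := ⟨_, rfl⟩
  obtain ⟨Q, hQ⟩ : ∃ Q, Q = E a * E a * (E n * E v + E v * E n) := ⟨_, rfl⟩
  obtain ⟨S, hS⟩ : ∃ S, S = E a * E a * E v * E v := ⟨_, rfl⟩
  have sy := sym hA n v
  have pp : P * P * (E a * E a) = 0 := by
    have h1 := Fp hA ⁅n, ⁅n, a⁆⁆ ⁅n, ⁅n, a⁆⁆
    rw [hw, E_zero, zero_mul, Fm hA] at h1
    rw [hP, h1]; noncomm_ring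
  have pq : P * Q * (E a * E a) = 0 := by
    rw [cc] at n1
    rw [hP, hQ]
    linear_combination (norm := noncomm_ring) 2 * n1 - (E a * E a * E n * E n) * sy
  have qp : Q * P * (E a * E a) = 0 := by
    rw [mul_assoc _ (E c), cc] at n2
    rw [hP, hQ]
    linear_combination (norm := noncomm_ring) 2 * n2 + sy * (E n * E n * E a * E a)
  have main : (P * S + S * P + Q * Q) ^ k * P * (E a * E a) = 0 := by
    refine low _ (Q * S + S * Q) (S * S) P Q S _ k fun s hs => ?_
    obtain ⟨T, hT⟩ : ∃ T, T = P + s • Q + s ^ 2 • S := ⟨_, rfl⟩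
    obtain ⟨G, hG⟩ : ∃ G, G = P * S + S * P + Q * Q + s • (Q * S + S * Q) + s ^ 2 • (S * S) :=
      ⟨_, rfl⟩
    rw [← hT, ← hG]
    have hx : E (n + s • v) = E n + s • E v := by rw [E, map_add, map_smul]
    have hT2 : T = E a * E a * (E (n + s • v) * E (n + s • v)) := by
      rw [hT, hP, hQ, hS, hx]
      simp only [mul_add, add_mul, smul_mul_assoc, mul_smul_comm, smul_add, smul_smul, mul_assoc,
        pow_two]
      abel
    have tt : T * T * (E a * E a) = s ^ 2 • (G * (E a * E a)) := by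
      have e : T * T * (E a * E a) = P * P * (E a * E a) + s • (P * Q * (E a * E a))
          + s • (Q * P * (E a * E a)) + s ^ 2 • (G * (E a * E a)) := by
        rw [hT, hG]
        generalize E a * E a = W
        simp only [mul_add, add_mul, smul_mul_assoc, mul_smul_comm, smul_add, smul_smul]
        module
      rw [e, pp, pq, qp]; simp
    have tj : ∀ j : ℕ, T ^ (2 * j + 1) * (E a * E a) =
        (s ^ 2) ^ j • (G ^ j * T * (E a * E a)) := by
      intro j
      induction j with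
      | zero => simp
      | succ j ih =>
        obtain ⟨Z, hZ⟩ : ∃ Z, T ^ (2 * j + 1) * (E a * E a) = E a * E a * Z :=
          ⟨E (n + s • v) * E (n + s • v) * (T ^ (2 * j) * (E a * E a)), by
            rw [pow_succ', mul_assoc]
            conv_lhs => enter [1]; rw [hT2]
            rw [mul_assoc]⟩
        have e1 : T ^ (2 * (j + 1) + 1) * (E a * E a) = T * T * (T ^ (2 * j + 1) * (E a * E a)) := by
          rw [show 2 * (j + 1) + 1 = 2 + (2 * j + 1) by ring, pow_add, pow_two, mul_assoc]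
        rw [e1, hZ, ← mul_assoc, tt, smul_mul_assoc, mul_assoc G, ← hZ, ih, mul_smul_comm,
          smul_smul, ← pow_succ', pow_succ' G]
        simp only [mul_assoc]
    have t0 : T ^ (2 * k + 1) * (E a * E a) = 0 := by
      have h1 := h (n + s • v)
      rw [mul_assoc (E a * E a), ← hT2] at h1
      rw [show 2 * k + 1 = k + (k + 1) by ring, pow_add, mul_assoc, h1, mul_zero]
    rw [tj] at t0
    exact (smul_eq_zero.1 t0).resolve_left (pow_ne_zero _ (pow_ne_zero _ hs))
  have mj : ∀ j : ℕ, (P * S + S * P + Q * Q) ^ j * P * (E a * E a) =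
      (P * S) ^ j * P * (E a * E a) := by
    intro j
    induction j with
    | zero => simp
    | succ j ih =>
      obtain ⟨Z, hZ⟩ : ∃ Z, (P * S) ^ j * P * (E a * E a) = P * (E a * E a) * Z := by
        rcases j with _ | j
        · exact ⟨1, by simp⟩
        · refine ⟨E v * E v * ((P * S) ^ j * P * (E a * E a)), ?_⟩
          rw [pow_succ']
          conv_lhs => enter [1, 1, 1]; rw [hS]
          simp only [mul_assoc]
      rw [pow_succ', pow_succ']
      generalize (P * S + S * P + Q * Q) ^ j = G1 at ih ⊢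
      generalize (P * S) ^ j = G2 at ih hZ ⊢
      linear_combination (norm := noncomm_ring) (P * S + S * P + Q * Q) * ih
        + (S * P + Q * Q) * hZ + S * pp * Z + Q * qp * Z
  have e1 : E c * E c * E v * E v = P * S := by rw [cc, hP, hS]; noncomm_ring
  have e2 : E c * E c = P * (E a * E a) := by rw [cc, hP]; noncomm_ring
  rw [e1, e2, ← mul_assoc, ← mj, main]

omit hA in
theorem descent (hs : ∀ c : L, E c * E c = 0 → c = 0) (k : ℕ) : ∀ a : L, E a * E a * E a = 0 →
    (∀ x : L, (E a * E a * E x * E x) ^ k * (E a * E a) = 0) → a = 0 := by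
  induction k with
  | zero => intro a _ h; exact hs a (by simpa using h 0)
  | succ k ih =>
    intro a hA h
    by_contra ha
    obtain ⟨x, hx⟩ : ∃ x : L, ⁅a, ⁅a, x⁆⁆ ≠ 0 := by
      by_contra hc
      push Not at hc
      exact ha (hs a (LinearMap.ext hc))
    obtain ⟨n, hn, hw⟩ := exists_n hA hs _ x (h x) hx
    exact hn (ih _ (Jb hA n) (lower hA rfl hw k h))

omit hA in
/-- An ad-nilpotent element and the nil condition for Jordan elements give a sandwich. -/
theorem sandwich (k : ℕ)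
    (hN : ∀ e : L, LieAlgebra.ad ℚ L e ^ 3 = 0 → ∀ y : L,
      (LieAlgebra.ad ℚ L e ^ 2 * LieAlgebra.ad ℚ L y ^ 2) ^ k * LieAlgebra.ad ℚ L e ^ 2 = 0)
    (a : L) (ha : a ≠ 0) (n : ℕ) (hn : LieAlgebra.ad ℚ L a ^ n = 0) :
    ∃ c : L, c ≠ 0 ∧ ∀ y : L, ⁅c, ⁅c, y⁆⁆ = 0 := by
  by_contra hc
  have hs : ∀ c : L, E c * E c = 0 → c = 0 := fun c h => by
    by_contra h0
    exact hc ⟨c, h0, fun y => LinearMap.congr_fun h y⟩
  obtain ⟨e, he, h3⟩ := jordan a ha n hn
  refine he (descent hs k e h3 fun x => ?_)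
  have h4 := hN e (by rw [← h3]; noncomm_ring) x
  rw [pow_two, pow_two, ← mul_assoc] at h4
  exact h4

end lie

end Pool.Agent.MP_2a197d_al.S4
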