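import Mathlib.Algebra.Ring.IsFormallyReal
import Mathlib.RingTheory.PowerSeries.Basic
import Pool.Agent.MP_2a197d_al.LB10
import Pool.Agent.MP_2a197d_al.Law
import Pool.Agent.MP_2a197d_al.EG2
import Pool.Agent.MP_2a197d_al.KZ
import Pool.Agent.MP_2a197d_al.KA
import Pool.Agent.MP_2a197d_al.S4

-- ======== part 0: formerly Pool.Agent.MP_2a197d_al.FW1
section MrgPart0

/-! The free algebra of a minimal non-solvable variety of Lie algebras with a group law. -/

set_option linter.unusedSectionVars false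

namespace Pool.Agent.MP_2a197d_al.FW

open Function T LieAlgebra

variable {F : Type} [LieRing F] [LieAlgebra ℚ F]

/-- A relatively free generating family. -/
structure RL {ι : Type} (x : ι → F) : Prop where
  gen : LieSubalgebra.lieSpan ℚ F (Set.range x) = ⊤
  ex : ∀ h : ι → F, ∃ φ : F →ₗ⁅ℚ⁆ F, ∀ i, φ (x i) = h i

/-- Fully invariant ideals. -/
def FI (J : LieIdeal ℚ F) : Prop := ∀ φ : F →ₗ⁅ℚ⁆ F, ∀ a ∈ J, φ a ∈ J

theorem RL.comp {ι κ : Type} {x : ι → F} (hx : RL x) (e : κ ≃ ι) : RL (x ∘ e) := by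
  refine ⟨by rw [e.surjective.range_comp, hx.gen], fun h => ?_⟩
  obtain ⟨φ, hφ⟩ := hx.ex (h ∘ e.symm)
  exact ⟨φ, fun i => by simp [hφ]⟩

theorem lev_map {L : Type*} [LieRing L] [LieAlgebra ℚ L] (φ : F →ₗ⁅ℚ⁆ L) (t : T) (y : t.Lf → F) :
    φ (lev t y) = lev t fun i => φ (y i) := ev_map φ φ.map_lie t y

theorem surj {x : ℕ → F} (hx : RL x) (f : F →ₗ⁅ℚ⁆ F) (a : F) :
    ∃ f' : F →ₗ⁅ℚ⁆ F, Surjective f' ∧ f' a = f a := by
  have ha : a ∈ LieSubalgebra.lieSpan ℚ F (Set.range x) := hx.gen ▸ trivial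
  obtain ⟨K, hK⟩ : ∃ K, ∀ f' : F →ₗ⁅ℚ⁆ F, (∀ j < K, f' (x j) = f (x j)) → f' a = f a := by
    induction ha using LieSubalgebra.lieSpan_induction with
    | mem a ha =>
      obtain ⟨j, rfl⟩ := ha
      exact ⟨j + 1, fun f' h => h j (Nat.lt_succ_self j)⟩
    | zero => exact ⟨0, fun f' _ => by simp⟩
    | add a b _ _ ha hb =>
      obtain ⟨K, hK⟩ := ha
      obtain ⟨K', hK'⟩ := hb
      exact ⟨K + K', fun f' h => by
        rw [map_add, map_add, hK f' fun j hj => h j (by omega), hK' f' fun j hj => h j (by omega)]⟩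
    | smul c a _ ha =>
      obtain ⟨K, hK⟩ := ha
      exact ⟨K, fun f' h => by rw [map_smul, map_smul, hK f' h]⟩
    | lie a b _ _ ha hb =>
      obtain ⟨K, hK⟩ := ha
      obtain ⟨K', hK'⟩ := hb
      exact ⟨K + K', fun f' h => by
        rw [f'.map_lie, f.map_lie, hK f' fun j hj => h j (by omega),
          hK' f' fun j hj => h j (by omega)]⟩
  obtain ⟨f', hf'⟩ := hx.ex fun j => if j < K then f (x j) else x (j - K)
  refine ⟨f', ?_, hK f' fun j hj => by rw [hf', if_pos hj]⟩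
  rw [← LieHom.range_eq_top, eq_top_iff, ← hx.gen, LieSubalgebra.lieSpan_le]
  rintro _ ⟨j, rfl⟩
  exact ⟨x (j + K), by simp [hf']⟩

/-- The projection to a quotient. -/
def qk (J : LieIdeal ℚ F) : F →ₗ⁅ℚ⁆ F ⧸ J := { J.toSubmodule.mkQ with map_lie' := rfl }

theorem qk_surj (J : LieIdeal ℚ F) : Surjective (qk J) := J.toSubmodule.mkQ_surjective

theorem qk_zero {J : LieIdeal ℚ F} {a : F} : qk J a = 0 ↔ a ∈ J := Submodule.Quotient.mk_eq_zero _

theorem FI.lift {J : LieIdeal ℚ F} (hJ : FI J) (φ : F →ₗ⁅ℚ⁆ F) :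
    ∃ ψ : (F ⧸ J) →ₗ⁅ℚ⁆ F ⧸ J, ∀ a, ψ (qk J a) = qk J (φ a) := by
  refine ⟨{ J.toSubmodule.mapQ J.toSubmodule φ.toLinearMap (hJ φ) with map_lie' := ?_ },
    fun _ => rfl⟩
  intro a b
  obtain ⟨a, rfl⟩ := qk_surj J a
  obtain ⟨b, rfl⟩ := qk_surj J b
  exact congrArg (qk J) (φ.map_lie a b)

theorem RL.quot {ι : Type} {x : ι → F} (hx : RL x) {J : LieIdeal ℚ F} (hJ : FI J) :
    RL fun i => qk J (x i) := by
  refine ⟨?_, fun h => ?_⟩
  · rw [Set.range_comp' (qk J) x, ← LieSubalgebra.map_lieSpan, hx.gen, eq_top_iff]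
    intro a _
    obtain ⟨a, rfl⟩ := qk_surj J a
    exact ⟨a, trivial, rfl⟩
  · choose h' hh using fun i => qk_surj J (h i)
    obtain ⟨φ, hφ⟩ := hx.ex h'
    obtain ⟨ψ, hψ⟩ := hJ.lift φ
    exact ⟨ψ, fun i => by rw [hψ, hφ, hh]⟩

/-- The generic value of the full tree. -/
noncomputable def uu (x : ℕ → F) (M : ℕ) : F := lev (full M) fun i => x (LB.ee M i)

theorem uu_ex {x : ℕ → F} (hx : RL x) {M : ℕ} (y : (full M).Lf → F) :
    ∃ φ : F →ₗ⁅ℚ⁆ F, φ (uu x M) = lev (full M) y := by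
  obtain ⟨φ, hφ⟩ := hx.ex (extend (LB.ee M) y 0)
  refine ⟨φ, ?_⟩
  rw [uu, lev_map]
  simp only [hφ, (LB.ee_inj M).extend_apply]

theorem semiprime {x : ℕ → F} (hx : RL x) (h : ∀ J, FI J → J ≠ ⊥ → ∃ k, uu x k ∈ J)
    {I : LieIdeal ℚ F} (hI : ⁅I, I⁆ = ⊥) (h0 : I ≠ ⊥) :
    ∃ N, ∀ y : (full N).Lf → F, lev (full N) y = 0 := by
  let R : LieIdeal ℚ F :=
    { carrier := {a | ∃ k, ∃ I : LieIdeal ℚ F, derivedSeriesOfIdeal ℚ F k I = ⊥ ∧ a ∈ I}
      add_mem' := by
        rintro u v ⟨K, I, h1, h2⟩ ⟨K', I', h1', h2'⟩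
        refine ⟨K + K', I + I', ?_, add_mem (LieSubmodule.mem_sup_left h2)
          (LieSubmodule.mem_sup_right h2')⟩
        have := derivedSeriesOfIdeal_add_le_add I I' K K'
        rw [h1, h1'] at this
        simpa using this
      zero_mem' := ⟨0, ⊥, rfl, zero_mem _⟩
      smul_mem' := by
        rintro r u ⟨K, I, h1, h2⟩
        exact ⟨K, I, h1, SMulMemClass.smul_mem r h2⟩
      lie_mem := by
        rintro a u ⟨K, I, h1, h2⟩
        exact ⟨K, I, h1, I.lie_mem h2⟩ }
  have key : ∀ (φ : F →ₗ⁅ℚ⁆ F) (k : ℕ) (I : LieIdeal ℚ F), derivedSeriesOfIdeal ℚ F k I = ⊥ →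
      ∀ a ∈ I, derivedSeriesOfIdeal ℚ F k (LieSubmodule.lieSpan ℚ F {φ a}) = ⊥ := by
    intro φ k I h1 a ha
    obtain ⟨f, h2, h3⟩ := surj hx φ a
    rw [← h3]
    refine sol_image (K := ℚ) (K' := ℚ) f.toLinearMap.toAddMonoidHom f.map_lie h2
      (fun s => ⟨s, fun w => map_smul f s w⟩) (u := a) ?_
    rw [eq_bot_iff, ← h1]
    refine derivedSeriesOfIdeal_mono ?_ k
    rwa [LieSubmodule.lieSpan_le, Set.singleton_subset_iff]
  obtain ⟨k, m, J, h1, h2⟩ := h R (by
    rintro φ a ⟨k, I, h1, h2⟩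
    exact ⟨k, _, key φ k I h1 a h2, LieSubmodule.subset_lieSpan rfl⟩) fun hR => h0 (by
      rw [eq_bot_iff, ← hR]
      exact fun a ha => ⟨1, I, hI, ha⟩)
  refine LB.thmR (m := k) (k := m) fun y => ?_
  obtain ⟨φ, hφ⟩ := uu_ex hx y
  rw [← hφ]
  exact key φ m J h1 _ h2

theorem zorn {x : ℕ → F} (h : ∀ k, uu x k ≠ 0) : ∃ U, FI U ∧ (∀ k, uu x k ∉ U) ∧
    ∀ J, FI J → U < J → ∃ k, uu x k ∈ J := by
  obtain ⟨U, -, ⟨h1, h2⟩, h3⟩ := zorn_le_nonempty₀ {J : LieIdeal ℚ F | FI J ∧ ∀ k, uu x k ∉ J}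
    (fun s hs hs' y hy => by
      have hm : ∀ a, a ∈ sSup s ↔ ∃ J ∈ s, a ∈ J := fun a => by
        rw [← LieSubmodule.mem_toSubmodule, LieSubmodule.sSup_toSubmodule,
          Submodule.mem_sSup_of_directed (by exact ⟨_, y, hy, rfl⟩)]
        · exact ⟨fun ⟨_, ⟨J, h1, rfl⟩, h2⟩ => ⟨J, h1, h2⟩, fun ⟨J, h1, h2⟩ => ⟨_, ⟨J, h1, rfl⟩, h2⟩⟩
        · rintro _ ⟨A, hA, rfl⟩ _ ⟨B, hB, rfl⟩
          obtain ⟨C, hC, h1, h2⟩ := hs'.directedOn A hA B hB
          exact ⟨_, ⟨C, hC, rfl⟩, h1, h2⟩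
      refine ⟨sSup s, ⟨fun φ a ha => ?_, fun k ha => ?_⟩, fun z hz => le_sSup hz⟩
      · obtain ⟨K, hK, ha⟩ := (hm a).1 ha
        exact (hm _).2 ⟨K, hK, (hs hK).1 φ a ha⟩
      · obtain ⟨K, hK, ha⟩ := (hm _).1 ha
        exact (hs hK).2 k ha) ⊥ ⟨fun φ a ha => by
      rw [LieSubmodule.mem_bot] at ha ⊢; rw [ha, map_zero], h⟩
  refine ⟨U, h1, h2, fun J hJ hU => ?_⟩
  by_contra hc
  push Not at hc
  exact hU.not_ge (h3 ⟨hJ, hc⟩ hU.le)

theorem free {L : Type} [LieRing L] [LieAlgebra ℚ L] {α : Type*} {w : FreeGroup α}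
    (hL : LW.Law w L) (h : ∀ M, ∃ y : (full M).Lf → L, lev (full M) y ≠ 0) :
    ∃ (F : Type) (_ : LieRing F) (_ : LieAlgebra ℚ F) (x : ℕ → F), RL x ∧ LW.Law w F ∧
      ∀ k, uu x k ≠ 0 := by
  let P := Fam fun _ : ℕ → L => L
  let g : ℕ → P := fun i h => h i
  let S := LieSubalgebra.lieSpan ℚ P (Set.range g)
  let x : ℕ → S := fun i => ⟨g i, LieSubalgebra.subset_lieSpan ⟨i, rfl⟩⟩
  refine ⟨S, inferInstance, inferInstance, x, ⟨?_, fun a => ?_⟩,
    LW.Law.sub (Θ := ℕ → L) (fun _ => hL)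
      (fun h => (Fam.at h).comp S.incl.toLinearMap.toAddMonoidHom) (fun _ _ _ => rfl)
      fun z hz => Subtype.ext (funext hz), fun k hk => ?_⟩
  · rw [eq_top_iff]
    rintro ⟨a, ha⟩ -
    induction ha using LieSubalgebra.lieSpan_induction with
    | mem a ha => obtain ⟨j, rfl⟩ := ha; exact LieSubalgebra.subset_lieSpan ⟨j, rfl⟩
    | zero => exact zero_mem _
    | add a b _ _ ha hb => exact add_mem ha hb
    | smul c a _ ha => exact SMulMemClass.smul_mem c ha
    | lie a b _ _ ha hb => exact LieSubalgebra.lie_mem _ ha hb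
  · let φ : P →ₗ⁅ℚ⁆ P :=
      { toFun := fun u h => u fun i => (a i : P) h
        map_add' := fun _ _ => rfl
        map_smul' := fun _ _ => rfl
        map_lie' := rfl }
    have h1 : S ≤ S.comap φ := LieSubalgebra.lieSpan_le.2 (by
      rintro _ ⟨j, rfl⟩
      exact (a j).2)
    exact ⟨{ toFun := fun u => ⟨φ u, h1 u.2⟩
             map_add' := fun _ _ => rfl
             map_smul' := fun _ _ => rfl
             map_lie' := rfl }, fun _ => rfl⟩
  · obtain ⟨y, hy⟩ := h k
    have h1 := congrFun ((lev_map S.incl _ _).symm.trans ((congrArg S.incl hk).trans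
      (map_zero _))) (extend (LB.ee k) y 0)
    rw [Fam.lev_apply] at h1
    refine hy (Eq.trans ?_ h1)
    congr 1
    funext i
    exact ((LB.ee_inj k).extend_apply y 0 i).symm

theorem minimal {L : Type} [LieRing L] [LieAlgebra ℚ L] {α : Type*} {w : FreeGroup α}
    (hL : LW.Law w L) (h : ∀ M, ∃ y : (full M).Lf → L, lev (full M) y ≠ 0) :
    ∃ (F : Type) (_ : LieRing F) (_ : LieAlgebra ℚ F) (g : Option ℕ → F), RL g ∧ LW.Law w F ∧
      (∀ M, ∃ y : (full M).Lf → F, lev (full M) y ≠ 0) ∧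
      (∀ I : LieIdeal ℚ F, ⁅I, I⁆ = ⊥ → I = ⊥) ∧
      ∀ J : LieIdeal ℚ F, FI J → J ≠ ⊥ → ∃ k, ∀ y : (full k).Lf → F, lev (full k) y ∈ J := by
  obtain ⟨F, _, _, x, hx, h1, h2⟩ := free hL h
  obtain ⟨U, h3, h4, h5⟩ := zorn h2
  have hq := hx.quot h3
  have hu : ∀ k, qk U (uu x k) = uu (fun i => qk U (x i)) k := fun k => lev_map _ _ _
  have h6 : ∀ J : LieIdeal ℚ (F ⧸ U), FI J → J ≠ ⊥ → ∃ k, uu (fun i => qk U (x i)) k ∈ J := by
    intro J hJ h0
    obtain ⟨k, hk⟩ := h5 (J.comap (qk U)) (fun φ a ha => by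
      obtain ⟨ψ, hψ⟩ := h3.lift φ
      rw [LieIdeal.mem_comap, ← hψ]
      exact hJ ψ _ ha) (lt_of_le_not_ge (fun a ha => by
        rw [LieIdeal.mem_comap, qk_zero.2 ha]; exact zero_mem _) fun hle => h0 (by
          rw [LieSubmodule.eq_bot_iff]
          intro a ha
          obtain ⟨a, rfl⟩ := qk_surj U a
          exact qk_zero.2 (hle ha)))
    exact ⟨k, hu k ▸ hk⟩
  have h7 : ∀ M, ∃ y : (full M).Lf → F ⧸ U, lev (full M) y ≠ 0 :=
    fun M => ⟨_, fun h => h4 M (qk_zero.1 ((hu M).trans h))⟩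
  refine ⟨F ⧸ U, inferInstance, inferInstance, _, hq.comp (Denumerable.eqv (Option ℕ)),
    h1.image (qk U).toLinearMap.toAddMonoidHom (qk U).map_lie (qk_surj U), h7, fun I hI => ?_,
    fun J hJ h0 => ?_⟩
  · by_contra h0
    obtain ⟨N, hN⟩ := semiprime hq h6 hI h0
    obtain ⟨y, hy⟩ := h7 N
    exact hy (hN y)
  · obtain ⟨k, hk⟩ := h6 J hJ h0
    refine ⟨k, fun y => ?_⟩
    obtain ⟨φ, hφ⟩ := uu_ex hq y
    exact hφ ▸ hJ φ _ hk

end Pool.Agent.MP_2a197d_al.FW

end MrgPart0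

-- ======== part 1: formerly Pool.Agent.MP_2a197d_al.Ind
section MrgPart1

/-! Induction on the length of a law. -/

namespace Pool.Agent.MP_2a197d_al.IND

open FreeGroup LW

universe u

/-- conjugate of a letter by a power of the distinguished letter. -/
def th {α : Type} (p : α × ℤ) : FreeGroup (Option α) :=
  of none ^ p.2 * of (some p.1) * of none ^ (-p.2)

/-- exponent sum of the distinguished letter. -/
def chi {α : Type} : List (Option α × Bool) → ℤ
  | [] => 0
  | (none, s) :: l => sg s 1 + chi l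
  | (some _, _) :: l => chi l

/-- rewriting of a word in the conjugates. -/
def rho {α : Type} : List (Option α × Bool) → ℤ → List ((α × ℤ) × Bool)
  | [], _ => []
  | (none, s) :: l, i => rho l (i + sg s 1)
  | (some a, s) :: l, i => ((a, i), s) :: rho l i

theorem mk_cons {α : Type*} (a : α) (s : Bool) (l : List (α × Bool)) :
    mk ((a, s) :: l) = of a ^ (sg s (1 : ℤ)) * mk l := by
  have h : mk ((a, s) :: l) = mk [(a, s)] * mk l := by rw [mul_mk]; rfl
  rw [h]
  cases s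
  · simp only [sg, Bool.false_eq_true, if_false, zpow_neg, zpow_one]
    rw [of, inv_mk]; rfl
  · simp only [sg, if_true, zpow_one]; rfl

theorem rho_spec {α : Type} : ∀ (l : List (Option α × Bool)) (i : ℤ),
    of none ^ i * mk l = lift th (mk (rho l i)) * of none ^ (i + chi l)
  | [], i => by simp [rho, chi, ← one_eq_mk]
  | (none, s) :: l, i => by
    rw [mk_cons, ← mul_assoc, ← zpow_add, rho_spec l, rho, chi, add_assoc]
  | (some a, s) :: l, i => by
    rw [rho, chi, mk_cons, mk_cons, _root_.map_mul, mul_assoc, ← rho_spec l, map_zpow, lift_apply_of, th]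
    cases s <;> simp [sg, mul_assoc]

theorem rho_length {α : Type} : ∀ (l : List (Option α × Bool)) (i : ℤ),
    (rho l i).length ≤ l.length
  | [], _ => le_rfl
  | (none, _) :: l, _ => (rho_length l _).trans (Nat.le_succ _)
  | (some _, _) :: l, i => Nat.succ_le_succ (rho_length l i)

theorem kill {α : Type} : ∀ l : List (Option α × Bool),
    lift (fun o : Option α => o.elim (of (0 : ℕ)) fun _ => 1) (mk l) = of 0 ^ chi l
  | [] => by simp [chi, ← one_eq_mk]
  | (none, s) :: l => by rw [mk_cons, _root_.map_mul, kill l, chi, zpow_add]; simp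
  | (some a, s) :: l => by rw [mk_cons, _root_.map_mul, kill l, chi]; simp

theorem cf_rep {E : Type*} [Ring E] (X : ℕ → E) (s : Bool) : ∀ n : ℕ,
    cf X (List.replicate n (0, s)) {0} = n • sg s (X 0)
  | 0 => by simp [cf_nil]
  | n + 1 => by
    rw [List.replicate_succ, cf_cons, cf_rep X s n, succ_nsmul]
    simp [cf_empty]

theorem mk_rep (s : Bool) : ∀ n : ℕ,
    mk (List.replicate n ((0 : ℕ), s)) = of 0 ^ ((n : ℤ) * sg s 1)
  | 0 => by simp [← one_eq_mk]
  | n + 1 => by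
    rw [List.replicate_succ, mk_cons, mk_rep s n, ← zpow_add]
    congr 1; push_cast; ring

theorem abelian {α : Type} {L : Type u} [LieRing L] [LieAlgebra ℚ L]
    (l : List (Option α × Bool)) (hc : chi l ≠ 0) (h : Law (mk l) L) (x y : L) : ⁅x, y⁆ = 0 := by
  obtain ⟨n, s, hn⟩ : ∃ (n : ℕ) (s : Bool), chi l = (n : ℤ) * sg s 1 := by
    obtain ⟨n, h1 | h1⟩ := (chi l).eq_nat_or_neg
    · exact ⟨n, true, by simp [sg, h1]⟩
    · exact ⟨n, false, by simp [sg, h1]⟩
  have hn0 : n ≠ 0 := by rintro rfl; simp at hn; exact hc hn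
  have h1 := h _ (List.replicate n (0, s)) (by rw [kill, mk_rep, hn]) (fun _ => x) {0} (by simp)
  rw [cf_rep, ← Nat.cast_smul_eq_nsmul ℚ] at h1
  have h2 := (smul_eq_zero.1 h1).resolve_left (by exact_mod_cast hn0)
  have h3 : LieAlgebra.ad ℚ L x = 0 := by cases s <;> simpa [sg] using h2
  exact LinearMap.congr_fun h3 y

theorem ind (S : ∀ (L : Type u) [LieRing L] [LieAlgebra ℚ L], ℕ → Prop)
    (ab : ∀ (L : Type u) [LieRing L] [LieAlgebra ℚ L], (∀ x y : L, ⁅x, y⁆ = 0) → S L 1)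
    (step : ∀ (α : Type) (w' : FreeGroup (α × ℤ)),
      (∃ M, ∀ (L : Type u) [LieRing L] [LieAlgebra ℚ L], Law w' L → S L M) →
        ∃ M, ∀ (L : Type u) [LieRing L] [LieAlgebra ℚ L], Law (lift th w') L → S L M)
    (α : Type) (w : FreeGroup α) (hw : w ≠ 1) :
    ∃ M, ∀ (L : Type u) [LieRing L] [LieAlgebra ℚ L], Law w L → S L M := by
  classical
  have key : ∀ (n : ℕ) (α : Type) (l : List (α × Bool)), l.length ≤ n → mk l ≠ 1 →
      ∃ M, ∀ (L : Type u) [LieRing L] [LieAlgebra ℚ L], Law (mk l) L → S L M := by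
    intro n
    induction n with
    | zero =>
      intro α l hl h
      rw [List.length_eq_zero_iff.1 (Nat.le_zero.1 hl)] at h
      exact absurd rfl h
    | succ n ih =>
      intro α l hl h
      rcases l with _ | ⟨⟨b, s⟩, l⟩
      · exact absurd rfl h
      let e : α → Option α := fun a => if a = b then none else some a
      let r : Option α → α := fun o => o.getD b
      have hr : ∀ a, r (e a) = a := fun a => by
        by_cases h : a = b <;> simp [e, r, h]
      obtain ⟨l', hl'⟩ : ∃ l', l' = ((b, s) :: l).map (Prod.map e id) := ⟨_, rfl⟩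
      have h7 : mk l' = FreeGroup.map e (mk ((b, s) :: l)) := by rw [hl']; rfl
      have h1 : mk l' = lift (of ∘ e) (mk ((b, s) :: l)) := by rw [h7, ← map_eq_lift]
      have h2 : mk l' ≠ 1 := by
        intro h0
        apply h
        have h3 := congrArg (FreeGroup.map r) h0
        rw [h7, map.comp, _root_.map_one, show r ∘ e = id from funext hr, map.id] at h3
        exact h3
      have h4 : ∃ M, ∀ (L : Type u) [LieRing L] [LieAlgebra ℚ L], Law (mk l') L → S L M := by
        by_cases hc : chi l' = 0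
        · have h5 := rho_spec l' 0
          rw [hc, zpow_zero, one_mul, add_zero, zpow_zero, mul_one] at h5
          rw [h5]
          refine step α _ (ih _ _ ?_ fun h0 => h2 (by rw [h5, h0, _root_.map_one]))
          have h6 : l' = (none, s) :: l.map (Prod.map e id) := by simp [hl', e]
          rw [h6, rho]
          refine (rho_length _ _).trans ?_
          simpa using hl
        · exact ⟨1, fun L _ _ hL => ab L (abelian l' hc hL)⟩
      obtain ⟨M, hM⟩ := h4
      exact ⟨M, fun L _ _ hL => hM L (h1 ▸ hL.lift _)⟩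
  obtain ⟨l⟩ := w
  exact key _ α l le_rfl hw

end Pool.Agent.MP_2a197d_al.IND

end MrgPart1

-- ======== part 2: formerly Pool.Agent.MP_2a197d_al.S4b
section MrgPart2

/-! A nontrivial group law bounds the index of nilpotency of the operators `E ^ 2 * Y ^ 2`
for `E ^ 3 = 0`. -/

namespace Pool.Agent.MP_2a197d_al.S4b

open Finset LW

section ring
variable {ι R : Type*} [DecidableEq ι] [Ring R] (X : ι → R)

theorem cf_list {Z : R} (b : Bool) : ∀ m : List ι, m.Nodup → (∀ i ∈ m, X i = Z) → ∀ S,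
    cf X (m.map fun i => (i, b)) S =
      if S ⊆ m.toFinset then sg b (1 : ℤ) ^ S.card • Z ^ S.card else 0
  | [], _, _, S => by
    rw [List.map_nil, cf_nil, List.toFinset_nil]
    by_cases h : S = ∅ <;> simp [h]
  | i :: m, hn, hX, S => by
    have ih := cf_list b m (List.nodup_cons.1 hn).2 fun j hj => hX j (List.mem_cons_of_mem _ hj)
    rw [List.map_cons, cf_cons, ih, ih, List.toFinset_cons]
    by_cases h : i ∈ S
    · rw [if_neg fun h1 => (List.nodup_cons.1 hn).1 (List.mem_toFinset.1 (h1 h)), if_pos h,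
        zero_add, hX i List.mem_cons_self, sg_eq]
      simp only [subset_insert_iff]
      split_ifs
      · rw [← card_erase_add_one h, smul_mul_smul_comm, pow_succ', pow_succ']
      · rw [mul_zero]
    · simp only [if_neg h, add_zero, subset_insert_iff_of_notMem h]

/-- A word whose coefficients are those of an exponential. -/
def Blk (T : Finset ι) (Z : R) (a : ℤ) (g : FreeGroup ι) : Prop :=
  ∃ l, FreeGroup.mk l = g ∧ ∀ S, cf X l S = if S ⊆ T then a ^ S.card • Z ^ S.card else 0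

variable {X}

theorem Blk.mul {T : Finset ι} {Z : R} {a b : ℤ} {g h : FreeGroup ι} (h1 : Blk X T Z a g)
    (h2 : Blk X T Z b h) : Blk X T Z (a + b) (g * h) := by
  obtain ⟨l, rfl, h1⟩ := h1
  obtain ⟨m, rfl, h2⟩ := h2
  refine ⟨l ++ m, FreeGroup.mul_mk.symm, fun S => ?_⟩
  rw [cf_append]
  split_ifs with h
  · rw [← sum_pow_mul_eq_add_pow, sum_smul]
    refine sum_congr rfl fun U hU => ?_
    have hU := mem_powerset.1 hU
    rw [h1, h2, if_pos (hU.trans h), if_pos (sdiff_subset.trans h), smul_mul_smul_comm,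
      card_sdiff_of_subset hU, ← pow_add, Nat.add_sub_cancel' (card_le_card hU)]
  · refine sum_eq_zero fun U _ => ?_
    rw [h1, h2]
    split_ifs with h3 h4
    · exact (h fun i hi => by
        by_cases h5 : i ∈ U
        exacts [h3 h5, h4 (mem_sdiff.2 ⟨hi, h5⟩)]).elim
    all_goals simp

theorem blk_zpow {T : Finset ι} {Z : R} (h : ∀ i ∈ T, X i = Z) :
    ∃ u : FreeGroup ι, ∀ a : ℤ, Blk X T Z a (u ^ a) := by
  have h0 : ∀ i ∈ T.toList, X i = Z := fun i hi => h i (mem_toList.1 hi)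
  refine ⟨FreeGroup.mk (T.toList.map fun i => (i, true)), fun a => ?_⟩
  induction a using Int.induction_on with
  | zero =>
    refine ⟨[], rfl, fun S => ?_⟩
    rw [cf_nil]
    by_cases h : S = ∅
    · simp [h]
    · simp [h, zero_pow (card_ne_zero.2 (nonempty_iff_ne_empty.2 h))]
  | succ n ih =>
    rw [zpow_add_one]
    refine ih.mul ⟨_, rfl, fun S => ?_⟩
    rw [cf_list X true _ T.nodup_toList h0, toList_toFinset]
    rfl
  | pred n ih =>
    rw [zpow_sub_one, sub_eq_add_neg]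
    refine ih.mul ⟨T.toList.reverse.map fun i => (i, false), ?_, fun S => ?_⟩
    · rw [FreeGroup.inv_mk, FreeGroup.invRev, List.map_map, List.map_reverse]
      rfl
    · rw [cf_list X false _ (List.nodup_reverse.2 T.nodup_toList)
        (fun i hi => h0 i (List.mem_reverse.1 hi)), List.toFinset_reverse, toList_toFinset]
      rfl

theorem sum_two {S T : Finset ι} {F : Finset ι → R} {z : R}
    (h0 : ∀ U ⊆ S, ¬(U ⊆ T ∧ U.card = 2) → F U = 0) (h1 : ∀ U ⊆ S, U ⊆ T → U.card = 2 → F U = z) :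
    ∑ U ∈ S.powerset, F U = (S ∩ T).card.choose 2 • z := by
  rw [← card_powersetCard, ← sum_const]
  refine ((sum_congr rfl fun U hU => ?_).trans (sum_subset (fun U hU => ?_) fun U hU h => ?_)).symm
  · obtain ⟨h2, h3⟩ := mem_powersetCard.1 hU
    exact (h1 U (h2.trans inter_subset_left) (h2.trans inter_subset_right) h3).symm
  · exact mem_powerset.2 ((mem_powersetCard.1 hU).1.trans inter_subset_left)
  · exact h0 U (mem_powerset.1 hU) fun h2 =>
      h (mem_powersetCard.2 ⟨subset_inter (mem_powerset.1 hU) h2.1, h2.2⟩)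

theorem card_in {S T U : Finset ι} (h1 : U ⊆ S) (h2 : U ⊆ T) :
    ((S \ U) ∩ T).card + U.card = (S ∩ T).card := by
  rw [← card_sdiff_add_card_eq_card (subset_inter h1 h2)]
  congr 2
  ext i
  simp only [mem_inter, mem_sdiff]
  tauto

theorem card_out {S T T' U : Finset ι} (h : Disjoint T T') (h2 : U ⊆ T) :
    ((S \ U) ∩ T').card = (S ∩ T').card := by
  congr 1
  ext i
  have : i ∈ U → i ∉ T' := fun h3 => disjoint_left.1 h (h2 h3)
  simp only [mem_inter, mem_sdiff]
  tauto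

variable (X) (T T' : Finset ι) (E Y : R)

/-- The state before a block of the first kind is added. -/
def St (n : ℕ) (g : FreeGroup ι) : Prop :=
  ∃ l, FreeGroup.mk l = g ∧ ∃ κ : ℤ, κ ≠ 0 ∧ ∀ S ⊆ T ∪ T',
    (2 * n < (S ∩ T).card → cf X l S = 0) ∧ ((S ∩ T).card = 2 * n →
      ((S ∩ T').card < 2 * n → E ^ 2 * cf X l S = 0) ∧
      ((S ∩ T').card = 2 * n → E ^ 2 * cf X l S = κ • ((E ^ 2 * Y ^ 2) ^ n * E ^ 2)))

/-- The state after a block of the first kind is added. -/
def Mid (n : ℕ) (g : FreeGroup ι) : Prop :=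
  ∃ l, FreeGroup.mk l = g ∧ ∃ κ : ℤ, κ ≠ 0 ∧ ∀ S ⊆ T ∪ T',
    (2 * n + 2 < (S ∩ T).card → cf X l S = 0) ∧ ((S ∩ T).card = 2 * n + 2 →
      (∃ q, cf X l S = E ^ 2 * q) ∧ ((S ∩ T').card < 2 * n → cf X l S = 0) ∧
      ((S ∩ T').card = 2 * n → cf X l S = κ • ((E ^ 2 * Y ^ 2) ^ n * E ^ 2)))

variable {X T T' E Y}

theorem st_zero (hd : Disjoint T T') {a : ℤ} {g : FreeGroup ι} (h : Blk X T' Y a g) :
    St X T T' E Y 0 g := by
  obtain ⟨l, rfl, h⟩ := h
  refine ⟨l, rfl, 1, one_ne_zero, fun S hS => ⟨fun h1 => ?_, fun h1 => ⟨by omega, fun h2 => ?_⟩⟩⟩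
  · obtain ⟨i, hi⟩ := card_pos.1 h1
    rw [h, if_neg fun h2 => disjoint_left.1 hd (mem_inter.1 hi).2 (h2 (mem_inter.1 hi).1)]
  · have : S = ∅ := by
      rw [← inter_eq_left.2 hS, inter_union_distrib_left, card_eq_zero.1 h1, card_eq_zero.1 h2,
        union_empty]
    simp [this, cf_empty]

theorem St.mid (hd : Disjoint T T') (hE : E ^ 3 = 0) {n : ℕ} {a : ℤ} (ha : a ≠ 0)
    {g g' : FreeGroup ι} (h : Blk X T E a g) (h' : St X T T' E Y n g') :
    Mid X T T' E Y n (g * g') := by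
  obtain ⟨l, rfl, h⟩ := h
  obtain ⟨m, rfl, κ, hκ, h'⟩ := h'
  have z0 : ∀ S ⊆ T ∪ T', 2 * n + 2 ≤ (S ∩ T).card → ∀ U ⊆ S,
      ¬(U ⊆ T ∧ U.card = 2 ∧ (S ∩ T).card = 2 * n + 2) → cf X l U * cf X m (S \ U) = 0 := by
    intro S hS h1 U hU h2
    rw [h]
    split_ifs with h3
    · by_cases h4 : 3 ≤ U.card
      · rw [pow_eq_zero_of_le h4 hE, smul_zero, zero_mul]
      · have := card_in hU h3
        rw [(h' _ (sdiff_subset.trans hS)).1 (by
          by_contra h5
          exact h2 ⟨h3, by omega, by omega⟩), mul_zero]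
    · rw [zero_mul]
  have z1 : ∀ S ⊆ T ∪ T', (S ∩ T).card = 2 * n + 2 → ∀ U ⊆ S, U ⊆ T → U.card = 2 →
      cf X l U * cf X m (S \ U) = a ^ 2 • (E ^ 2 * cf X m (S \ U)) ∧
      ((S \ U) ∩ T).card = 2 * n := by
    intro S hS h1 U hU h2 h3
    have := card_in hU h2
    exact ⟨by rw [h, if_pos h2, h3, smul_mul_assoc], by omega⟩
  refine ⟨l ++ m, FreeGroup.mul_mk.symm, ((2 * n + 2).choose 2 : ℕ) * (a ^ 2 * κ),
    mul_ne_zero (Nat.cast_ne_zero.2 (Nat.choose_pos (by omega)).ne')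
      (mul_ne_zero (pow_ne_zero _ ha) hκ), fun S hS => ?_⟩
  rw [cf_append]
  refine ⟨fun h1 => sum_eq_zero fun U hU => z0 S hS h1.le U (mem_powerset.1 hU) (by omega),
    fun h1 => ⟨?_, fun h2 => ?_, fun h2 => ?_⟩⟩
  · refine dvd_sum (f := fun U => cf X l U * cf X m (S \ U)) fun U hU => ?_
    by_cases h2 : U ⊆ T ∧ U.card = 2
    · rw [(z1 S hS h1 U (mem_powerset.1 hU) h2.1 h2.2).1, ← mul_smul_comm]
      exact dvd_mul_right _ _
    · rw [z0 S hS h1.ge U (mem_powerset.1 hU) (by tauto)]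
      exact dvd_zero _
  · rw [sum_two (T := T) (z := 0) (fun U hU h3 => z0 S hS h1.ge U hU (by tauto)), smul_zero]
    intro U hU h3 h4
    obtain ⟨h5, h6⟩ := z1 S hS h1 U hU h3 h4
    rw [h5, ((h' _ (sdiff_subset.trans hS)).2 h6).1 (by rwa [card_out hd h3]), smul_zero]
  · rw [sum_two (T := T) (z := (a ^ 2 * κ) • ((E ^ 2 * Y ^ 2) ^ n * E ^ 2))
      (fun U hU h3 => z0 S hS h1.ge U hU (by tauto)), h1, mul_smul _ (a ^ 2 * κ), natCast_zsmul]
    intro U hU h3 h4
    obtain ⟨h5, h6⟩ := z1 S hS h1 U hU h3 h4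
    rw [h5, ((h' _ (sdiff_subset.trans hS)).2 h6).2 (by rwa [card_out hd h3]), smul_smul]

theorem Mid.st (hd : Disjoint T T') (hE : E ^ 3 = 0) (hY : E ^ 2 * Y * E ^ 2 = 0) {n : ℕ} {a : ℤ}
    (ha : a ≠ 0) {g g' : FreeGroup ι} (h : Blk X T' Y a g) (h' : Mid X T T' E Y n g') :
    St X T T' E Y (n + 1) (g * g') := by
  obtain ⟨l, rfl, h⟩ := h
  obtain ⟨m, rfl, κ, hκ, h'⟩ := h'
  have z0 : ∀ S ⊆ T ∪ T', (S ∩ T).card = 2 * n + 2 → (S ∩ T').card ≤ 2 * n + 2 → ∀ U ⊆ S,
      ¬(U ⊆ T' ∧ U.card = 2 ∧ (S ∩ T').card = 2 * n + 2) →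
      E ^ 2 * (cf X l U * cf X m (S \ U)) = 0 := by
    intro S hS h1 h1' U hU h2
    rw [h]
    split_ifs with h3
    · obtain ⟨⟨q, h4⟩, h5, -⟩ := (h' _ (sdiff_subset.trans hS)).2
        ((card_out hd.symm h3).trans h1)
      have := card_in hU h3
      by_cases h6 : U.card = 0
      · rw [h6, h4, pow_zero, pow_zero, one_smul, one_mul, ← mul_assoc, ← pow_add,
          pow_eq_zero_of_le (by omega) hE, zero_mul]
      by_cases h7 : U.card = 1
      · rw [h7, h4, pow_one, pow_one, smul_mul_assoc, mul_smul_comm, ← mul_assoc, ← mul_assoc, hY,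
          zero_mul, smul_zero]
      rw [h5 (by
        by_contra h8
        exact h2 ⟨h3, by omega, by omega⟩), mul_zero, mul_zero]
    · rw [zero_mul, mul_zero]
  refine ⟨l ++ m, FreeGroup.mul_mk.symm, ((2 * n + 2).choose 2 : ℕ) * (a ^ 2 * κ),
    mul_ne_zero (Nat.cast_ne_zero.2 (Nat.choose_pos (by omega)).ne')
      (mul_ne_zero (pow_ne_zero _ ha) hκ), fun S hS => ?_⟩
  rw [cf_append, mul_sum]
  refine ⟨fun h1 => sum_eq_zero fun U hU => ?_, fun h1 => ⟨fun h2 => sum_eq_zero fun U hU =>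
    z0 S hS h1 (by omega) U (mem_powerset.1 hU) (by omega), fun h2 => ?_⟩⟩
  · rw [h]
    split_ifs with h3
    · rw [(h' _ (sdiff_subset.trans hS)).1 (by rw [card_out hd.symm h3]; omega), mul_zero]
    · rw [zero_mul]
  · rw [sum_two (T := T') (z := (a ^ 2 * κ) • ((E ^ 2 * Y ^ 2) ^ (n + 1) * E ^ 2))
      (fun U hU h3 => z0 S hS h1 h2.le U hU (by tauto)), h2, mul_smul _ (a ^ 2 * κ), natCast_zsmul]
    · rfl
    intro U hU h3 h4
    have := card_in hU h3
    rw [h, if_pos h3, h4, ((h' _ (sdiff_subset.trans hS)).2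
      ((card_out hd.symm h3).trans h1)).2.2 (by omega), smul_mul_smul_comm, mul_smul_comm,
      pow_succ' (E ^ 2 * Y ^ 2)]
    simp only [mul_assoc]

end ring

section syl
variable {α : Type*}

/-- Words written as products of nontrivial powers of letters, neighbours being different. -/
inductive Syl : α → ℕ → FreeGroup α → Prop
  | one (j : α) (a : ℤ) : a ≠ 0 → Syl j 0 (FreeGroup.of j ^ a)
  | cons (j : α) (a : ℤ) {i : α} {n : ℕ} {w : FreeGroup α} :
      a ≠ 0 → j ≠ i → Syl i n w → Syl j (n + 1) (FreeGroup.of j ^ a * w)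

theorem syl_mul (j : α) {a : ℤ} (ha : a ≠ 0) {w : FreeGroup α} (h : w = 1 ∨ ∃ i n, Syl i n w) :
    FreeGroup.of j ^ a * w = 1 ∨ ∃ i n, Syl i n (FreeGroup.of j ^ a * w) := by
  obtain rfl | ⟨i, n, h⟩ := h
  · exact Or.inr ⟨j, 0, (mul_one (FreeGroup.of j ^ a)).symm ▸ Syl.one j a ha⟩
  by_cases hi : j = i
  · subst hi
    cases h with
    | one _ b hb =>
      rw [← zpow_add]
      by_cases h1 : a + b = 0
      · exact Or.inl (by rw [h1, zpow_zero])
      · exact Or.inr ⟨j, 0, Syl.one j _ h1⟩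
    | cons _ b hb h2 h3 =>
      rw [← mul_assoc, ← zpow_add]
      by_cases h1 : a + b = 0
      · exact Or.inr ⟨_, _, by rwa [h1, zpow_zero, one_mul]⟩
      · exact Or.inr ⟨j, _, Syl.cons j _ h1 h2 h3⟩
  · exact Or.inr ⟨j, _, Syl.cons j a ha hi h⟩

theorem syl (w : FreeGroup α) : w = 1 ∨ ∃ i n, Syl i n w := by
  obtain ⟨l, rfl⟩ := Quot.exists_rep w
  rw [FreeGroup.quot_mk_eq_mk]
  induction l with
  | nil => exact Or.inl rfl
  | cons p l ih =>
    rcases p with ⟨j, _ | _⟩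
    · have := syl_mul j (a := -1) (by omega) ih
      rwa [zpow_neg_one, FreeGroup.of, FreeGroup.inv_mk, FreeGroup.mul_mk] at this
    · have := syl_mul j one_ne_zero ih
      rwa [zpow_one, FreeGroup.of, FreeGroup.mul_mk] at this

variable {ι R : Type*} [DecidableEq ι] [Ring R] {X : ι → R} {T T' : Finset ι} {E Y : R}

theorem Syl.mid (hd : Disjoint T T') (hE : E ^ 3 = 0) (hY : E ^ 2 * Y * E ^ 2 = 0)
    {u c : FreeGroup ι} (hu : ∀ a : ℤ, Blk X T E a (u ^ a)) (hc : ∀ a : ℤ, Blk X T' Y a (c ^ a))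
    {j : α} {n : ℕ} {w : FreeGroup α} (h : Syl j n w) : ∃ A : Set α, A.Finite ∧ j ∈ A ∧
      ∀ ν : α → ℤ, Set.InjOn ν A → Mid X T T' E Y n
        (c ^ (-ν j) * FreeGroup.lift (fun i => c ^ ν i * u * (c ^ ν i)⁻¹) w) := by
  induction h with
  | one j a ha =>
    refine ⟨{j}, Set.finite_singleton j, rfl, fun ν _ => ?_⟩
    have := (st_zero hd (hc (-ν j))).mid hd hE ha (hu a)
    rw [map_zpow, FreeGroup.lift_apply_of, conj_zpow]
    convert this using 1
    group
  | @cons j a i n w ha hj _ ih =>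
    obtain ⟨A, h1, h2, h3⟩ := ih
    refine ⟨insert j A, h1.insert j, Set.mem_insert _ _, fun ν hν => ?_⟩
    have h4 : ν i - ν j ≠ 0 := fun h => hj (hν (Set.mem_insert _ _) (Set.mem_insert_of_mem _ h2)
      (sub_eq_zero.1 h).symm)
    have := ((h3 ν (hν.mono (Set.subset_insert _ _))).st hd hE hY h4 (hc _)).mid hd hE ha (hu a)
    rw [map_mul, map_zpow, FreeGroup.lift_apply_of, conj_zpow]
    convert this using 1
    group

end syl

open LieAlgebra

theorem jordan {L : Type*} [LieRing L] [LieAlgebra ℚ L] {e : L} (he : ad ℚ L e ^ 3 = 0) (y : L) :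
    ad ℚ L e ^ 2 * ad ℚ L y * ad ℚ L e ^ 2 = 0 := by
  have h0 : ∀ a b : L, ad ℚ L ⁅a, b⁆ = ad ℚ L a * ad ℚ L b - ad ℚ L b * ad ℚ L a :=
    fun a b => LinearMap.ext fun z => lie_lie a b z
  have h1 : ⁅e, ⁅e, ⁅e, y⁆⁆⁆ = 0 := LinearMap.congr_fun he y
  have h2 := congrArg (ad ℚ L) h1
  rw [h0, h0, h0, map_zero] at h2
  generalize ad ℚ L e = E at *
  generalize ad ℚ L y = Y at *
  have h3 : (3 : ℚ) • (E ^ 2 * Y * E ^ 2) =
      E ^ 3 * Y * E + (3 : ℚ) • (E * Y * E ^ 3) - Y * E ^ 3 * E -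
      (E * (E * (E * Y - Y * E) - (E * Y - Y * E) * E) -
        (E * (E * Y - Y * E) - (E * Y - Y * E) * E) * E) * E := by
    rw [show (3 : ℚ) = ((3 : ℕ) : ℚ) from rfl, Nat.cast_smul_eq_nsmul, Nat.cast_smul_eq_nsmul]
    noncomm_ring
  rw [h2, he] at h3
  simpa using h3

/-- A nontrivial law gives the identity `(E ^ 2 * Y ^ 2) ^ k * E ^ 2 = 0` for `E ^ 3 = 0`. -/
theorem lawN {α : Type*} {w : FreeGroup α} (hw : w ≠ 1) : ∃ k : ℕ,
    ∀ (L : Type*) [LieRing L] [LieAlgebra ℚ L], Law w L → ∀ e : L, ad ℚ L e ^ 3 = 0 → ∀ y : L,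
      (ad ℚ L e ^ 2 * ad ℚ L y ^ 2) ^ k * ad ℚ L e ^ 2 = 0 := by
  obtain ⟨j, n, h⟩ := (syl w).resolve_left hw
  refine ⟨n, fun L _ _ hL e he y => ?_⟩
  have hd : Disjoint (range (2 * n + 2)) (Ico (2 * n + 2) (4 * n + 2)) :=
    disjoint_left.2 fun i h1 h2 => by
      rw [mem_range] at h1
      rw [mem_Ico] at h2
      omega
  let x : ℕ → L := fun i => if i < 2 * n + 2 then e else y
  obtain ⟨u, hu⟩ := blk_zpow (X := fun i => ad ℚ L (x i)) (T := range (2 * n + 2))
    (Z := ad ℚ L e) fun i hi => by simp only [x, if_pos (mem_range.1 hi)]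
  obtain ⟨c, hc⟩ := blk_zpow (X := fun i => ad ℚ L (x i)) (T := Ico (2 * n + 2) (4 * n + 2))
    (Z := ad ℚ L y) fun i hi => by simp only [x, if_neg (mem_Ico.1 hi).1.not_gt]
  obtain ⟨A, h1, -, h2⟩ := h.mid hd he (jordan he y) hu hc
  obtain ⟨ν, hν⟩ := Set.countable_iff_exists_injOn.1 h1.countable
  obtain ⟨l, h3, κ, hκ, h4⟩ := h2 (fun i => (ν i : ℤ) - ν j) fun a ha b hb hab =>
    hν ha hb (by simpa using hab)
  rw [sub_self, neg_zero, zpow_zero, one_mul] at h3
  have h5 := ((h4 _ Subset.rfl).2 (by rw [union_inter_cancel_left, card_range])).2.2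
    (by rw [union_inter_cancel_right, Nat.card_Ico]; omega)
  rw [hL _ l h3 x _ (ne_empty_of_mem (mem_union_left _ (mem_range.2 (Nat.succ_pos _)))),
    ← Int.cast_smul_eq_zsmul ℚ] at h5
  exact (smul_eq_zero.1 h5.symm).resolve_left (Int.cast_ne_zero.2 hκ)

end Pool.Agent.MP_2a197d_al.S4b

end MrgPart2

-- ======== part 3: formerly Pool.Agent.MP_2a197d_al.EG3
section MrgPart3

/-! End game, part 3: power series over an associative algebra, exponentials and polynomial
dependence on a rational parameter. -/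

set_option linter.unusedSectionVars false

namespace Pool.Agent.MP_2a197d_al.EG

open PowerSeries Finset

attribute [local instance 100] LieRing.ofAssociativeRing

universe u

variable {A : Type u} [Ring A] [Algebra ℚ A]

/-- Polynomial functions of a rational parameter. -/
inductive PF : (ℚ → A) → Prop
  | c (a : A) : PF fun _ => a
  | add {F G : ℚ → A} : PF F → PF G → PF fun t => F t + G t
  | t {F : ℚ → A} : PF F → PF fun t => t • F t

theorem PF.mul {F G : ℚ → A} (hF : PF F) (hG : PF G) : PF fun t => F t * G t := by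
  induction hF with
  | c a =>
    induction hG with
    | c b => exact PF.c _
    | add _ _ h1 h2 => simpa only [mul_add] using h1.add h2
    | t _ h => simpa only [mul_smul_comm] using h.t
  | add _ _ h1 h2 => simpa only [add_mul] using h1.add h2
  | t _ h => simpa only [smul_mul_assoc] using h.t

theorem PF.smul {F : ℚ → A} (q : ℚ) (hF : PF F) : PF fun t => q • F t := by
  simpa only [Algebra.smul_def] using (PF.c (algebraMap ℚ A q)).mul hF

theorem PF.pow {F : ℚ → A} (hF : PF F) (n : ℕ) : PF fun t => F t ^ n := by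
  induction n with
  | zero => simpa using PF.c (1 : A)
  | succ n ih => simpa only [pow_succ] using ih.mul hF

theorem PF.sum {ι : Type*} (s : Finset ι) {F : ι → ℚ → A} (h : ∀ i, PF (F i)) :
    PF fun t => ∑ i ∈ s, F i t := by
  classical
  induction s using Finset.induction_on with
  | empty => simpa using PF.c (0 : A)
  | insert i s hi ih => simpa only [Finset.sum_insert hi] using (h i).add ih

theorem PF.zero {F : ℚ → A} (hF : PF F) (h : {t | F t = 0}.Infinite) (t : ℚ) : F t = 0 := by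
  refine (Module.forall_dual_apply_eq_zero_iff ℚ _).1 fun φ => ?_
  have : ∃ p : Polynomial ℚ, ∀ t, φ (F t) = p.eval t := by
    clear h
    induction hF with
    | c a => exact ⟨Polynomial.C (φ a), by simp⟩
    | add _ _ h1 h2 =>
      obtain ⟨p, hp⟩ := h1
      obtain ⟨q, hq⟩ := h2
      exact ⟨p + q, by simp [hp, hq]⟩
    | t _ h1 =>
      obtain ⟨p, hp⟩ := h1
      exact ⟨Polynomial.X * p, by simp [hp]⟩
  obtain ⟨p, hp⟩ := this
  rw [hp, p.eq_zero_of_infinite_isRoot (h.mono fun x hx => ?_), Polynomial.eval_zero]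
  have hx' : F x = 0 := hx
  show p.eval x = 0
  rw [← hp, hx', map_zero]

/-- Power series whose coefficients are polynomial in the parameter. -/
def CS (F : ℚ → A⟦X⟧) : Prop := ∀ n, PF fun t => coeff n (F t)

theorem CS.c (f : A⟦X⟧) : CS fun _ => f := fun _ => PF.c _

theorem CS.add {F G : ℚ → A⟦X⟧} (hF : CS F) (hG : CS G) : CS fun t => F t + G t := fun n => by
  simpa only [map_add] using (hF n).add (hG n)

theorem CS.mul {F G : ℚ → A⟦X⟧} (hF : CS F) (hG : CS G) : CS fun t => F t * G t := fun n => by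
  simpa only [coeff_mul] using PF.sum _ fun p : ℕ × ℕ => (hF p.1).mul (hG p.2)

theorem coeff_q (n : ℕ) (q : ℚ) (f : A⟦X⟧) : coeff n (q • f) = q • coeff n f := rfl

theorem CS.t {F : ℚ → A⟦X⟧} (hF : CS F) : CS fun t => t • F t := fun n => (hF n).t

theorem CS.br {F G : ℚ → A⟦X⟧} (hF : CS F) (hG : CS G) : CS fun t => ⁅F t, G t⁆ := fun n => by
  have := ((hF.mul hG) n).add (((hG.mul hF) n).smul (-1))
  simpa only [Ring.lie_def, map_sub, sub_eq_add_neg, neg_smul, one_smul, map_add, map_neg]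
    using this

theorem CS.zero {F : ℚ → A⟦X⟧} (hF : CS F) (h : {t | F t = 0}.Infinite) (t : ℚ) : F t = 0 := by
  ext n
  exact (hF n).zero (h.mono fun x hx => by
    have hx' : F x = 0 := hx
    show coeff n (F x) = 0
    rw [hx', map_zero]) t

theorem CS.adw (l : List A⟦X⟧) {F : ℚ → A⟦X⟧} (hF : CS F) : CS fun t => adw l (F t) := by
  induction l with
  | nil => exact hF
  | cons m l ih => exact (CS.c m).br ih

/-- The exponential series of `X * z`. -/
noncomputable def ex (z : A) : A⟦X⟧ := PowerSeries.mk fun n => ((n.factorial : ℚ)⁻¹) • z ^ n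

theorem CS.ex {F : ℚ → A} (hF : PF F) : CS fun t => ex (F t) := fun n => by
  simpa only [EG.ex, coeff_mk] using (hF.pow n).smul _

theorem coeff_conj (z y w : A) (n : ℕ) : coeff n (ex z * C y * ex w) =
    ((n.factorial : ℚ)⁻¹) • ((LinearMap.mulLeft ℚ z + LinearMap.mulRight ℚ w) ^ n) y := by
  rw [(LinearMap.commute_mulLeft_right z w).add_pow', coeff_mul, LinearMap.sum_apply, smul_sum]
  refine sum_congr rfl fun p hp => ?_
  obtain rfl := mem_antidiagonal.1 hp
  rw [coeff_mul_C, LinearMap.pow_mulLeft, LinearMap.pow_mulRight]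
  simp only [ex, coeff_mk, LinearMap.smul_apply, Module.End.mul_apply, LinearMap.mulLeft_apply,
    LinearMap.mulRight_apply, smul_mul_assoc, mul_smul_comm, smul_smul, mul_assoc]
  rw [← Nat.cast_smul_eq_nsmul ℚ, smul_smul]
  congr 1
  rw [← Nat.add_choose_mul_factorial_mul_factorial, Nat.choose_symm_add]
  have h1 : (p.1.factorial : ℚ) ≠ 0 := by positivity
  have h2 : (p.2.factorial : ℚ) ≠ 0 := by positivity
  have h3 : (((p.1 + p.2).choose p.2 : ℕ) : ℚ) ≠ 0 := by
    exact_mod_cast (Nat.choose_pos (by omega)).ne'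
  push_cast
  field_simp

theorem ex_neg (z : A) : ex z * ex (-z) = 1 := by
  ext n
  have := coeff_conj z 1 (-z) n
  rw [map_one, mul_one] at this
  rw [this, coeff_one]
  rcases n with _ | n
  · simp
  · simp [pow_succ]

theorem ex_zero : ex (0 : A) = 1 := by
  ext n
  rcases n with _ | n <;> simp [ex, coeff_one]

/-- Reduction to constants for maps commuting with `X`. -/
theorem cont {K T : AddSubgroup A} (Ψ : A⟦X⟧ → A⟦X⟧) (h1 : ∀ f g, Ψ (f + g) = Ψ f + Ψ g)
    (h2 : ∀ f, Ψ (X * f) = X * Ψ f) (h : ∀ y ∈ K, ∀ n, coeff n (Ψ (C y)) ∈ T) :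
    ∀ (n : ℕ) (f : A⟦X⟧), (∀ k, coeff k f ∈ K) → coeff n (Ψ f) ∈ T := by
  intro n
  induction n with
  | zero =>
    intro f hf
    rw [eq_X_mul_shift_add_const f, h1, h2, map_add, coeff_zero_X_mul, zero_add]
    exact h _ (by simpa using hf 0) _
  | succ n ih =>
    intro f hf
    rw [eq_X_mul_shift_add_const f, h1, h2, map_add, coeff_succ_X_mul]
    exact T.add_mem (ih _ fun k => by simpa using hf (k + 1)) (h _ (by simpa using hf 0) _)

theorem lie_X (m f : A⟦X⟧) : ⁅m, X * f⁆ = X * ⁅m, f⁆ := by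
  rw [Ring.lie_def, Ring.lie_def, mul_sub, ← mul_assoc, (commute_X m).eq, mul_assoc, mul_assoc]

theorem adw_X (l : List A⟦X⟧) (f : A⟦X⟧) : adw l (X * f) = X * adw l f := by
  induction l with
  | nil => rfl
  | cons m l ih => rw [adw_cons, ih, lie_X, adw_cons]

theorem adw_smul (l : List A⟦X⟧) (q : ℚ) (f : A⟦X⟧) : adw l (q • f) = q • adw l f := by
  induction l with
  | nil => rfl
  | cons m l ih => rw [adw_cons, ih, lie_smul, adw_cons]

theorem ex_split (z : A) : ∃ d : ℚ → A⟦X⟧, CS d ∧ d 0 = X * C z ∧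
    ∀ t : ℚ, ex (t • z) = 1 + t • d t := by
  refine ⟨fun t => X * PowerSeries.mk fun n => (((n + 1).factorial : ℚ)⁻¹) • ((t • z) ^ n * z),
    (CS.c _).mul fun n => ?_, ?_, fun t => ?_⟩
  · simpa only [coeff_mk] using ((((PF.c z).t).pow n).mul (PF.c z)).smul _
  · refine congrArg (X * ·) ?_
    ext n
    rcases n with _ | n <;> simp [coeff_C]
  · ext n
    rcases n with _ | n
    · rw [map_add, coeff_q, coeff_zero_X_mul, smul_zero, add_zero]; simp [ex]
    · rw [map_add, coeff_q, coeff_succ_X_mul, coeff_one]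
      simp only [ex, coeff_mk, pow_succ, mul_smul_comm]
      rw [if_neg (by omega), zero_add, smul_comm]

/-- The derivative of conjugation by an exponential. -/
theorem slot (l : List A⟦X⟧) (z : A) (o : A⟦X⟧)
    (h : ∀ t : ℚ, adw l (ex (t • z) * o * ex (t • (-z))) = 0) : adw l ⁅C z, o⁆ = 0 := by
  obtain ⟨d, hd, hd0, he⟩ := ex_split z
  obtain ⟨d', hd', hd0', he'⟩ := ex_split (-z)
  have h0 : adw l o = 0 := by simpa [ex_zero] using h 0
  have hH : CS fun t => adw l (d t * o + o * d' t + t • (d t * o * d' t)) :=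
    CS.adw l (((hd.mul (CS.c o)).add ((CS.c o).mul hd')).add ((hd.mul (CS.c o)).mul hd').t)
  have := hH.zero (((Set.finite_singleton (0 : ℚ)).infinite_compl).mono fun t ht => by
    have h1 := h t
    rw [he, he', show (1 + t • d t) * o * (1 + t • d' t) =
      o + t • (d t * o + o * d' t + t • (d t * o * d' t)) by
        simp only [add_mul, mul_add, one_mul, mul_one, smul_mul_assoc, mul_smul_comm, smul_add]
        abel, adw_add, h0, zero_add, adw_smul] at h1
    exact (smul_eq_zero.1 h1).resolve_left ht) 0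
  rw [hd0, hd0', zero_smul, add_zero, show X * C z * o + o * (X * C (-z)) = X * ⁅C z, o⁆ by
    rw [Ring.lie_def, ← mul_assoc o, (commute_X o).eq, map_neg]; noncomm_ring, adw_X] at this
  ext n
  rw [← coeff_succ_X_mul, this, map_zero, map_zero]

theorem coeff_low {f g : A⟦X⟧} {i j : ℕ} (hf : ∀ k < i, coeff k f = 0)
    (hg : ∀ k < j, coeff k g = 0) : coeff (i + j) (f * g) = coeff i f * coeff j g := by
  rw [coeff_mul, sum_eq_single (i, j)]
  · intro p hp hne
    have := mem_antidiagonal.1 hp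
    by_cases h : p.1 < i
    · rw [hf _ h, zero_mul]
    · rw [hg p.2 (by
        by_contra h'
        exact hne (Prod.ext (by simp; omega) (by simp; omega))), mul_zero]
  · intro h; exact absurd (mem_antidiagonal.2 (rfl : (i, j).1 + (i, j).2 = i + j)) h

theorem coeff_adw (l : List A) (f : A⟦X⟧) (n : ℕ) :
    coeff n (adw (l.map C) f) = adw l (coeff n f) := by
  induction l with
  | nil => rfl
  | cons m l ih =>
    rw [List.map_cons, adw_cons, adw_cons, Ring.lie_def, Ring.lie_def, map_sub, coeff_C_mul,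
      coeff_mul_C, ih]

theorem exists_low {f : A⟦X⟧} (h : f ≠ 0) : ∃ i, coeff i f ≠ 0 ∧ ∀ k < i, coeff k f = 0 := by
  classical
  have : ∃ i, coeff i f ≠ 0 := by
    by_contra hc
    exact h (PowerSeries.ext fun n => by simpa using not_exists.1 hc n)
  exact ⟨Nat.find this, Nat.find_spec this, fun k hk => by simpa using Nat.find_min this hk⟩

variable {L : Type u} [LieRing L] [LieAlgebra ℚ L] (φ : L →ₗ⁅ℚ⁆ A)

/-- Power series with coefficients in the image of `L`. -/
def ser : LieSubalgebra ℚ A⟦X⟧ where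
  carrier := {f | ∀ n, coeff n f ∈ φ.range}
  add_mem' := fun {f g} hf hg n => by rw [map_add]; exact add_mem (hf n) (hg n)
  zero_mem' := fun n => by rw [map_zero]; exact zero_mem _
  smul_mem' := fun q f hf n => φ.range.smul_mem q (hf n)
  lie_mem' := fun {f g} hf hg n => by
    rw [Ring.lie_def, map_sub, coeff_mul, coeff_mul, ← Nat.sum_antidiagonal_swap
      (f := fun p => coeff p.1 g * coeff p.2 f), ← sum_sub_distrib]
    exact sum_mem fun p _ => φ.range.lie_mem (hf p.1) (hg p.2)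

theorem C_mem (z : L) : (C (φ z) : A⟦X⟧) ∈ ser φ := fun n => by
  rw [coeff_C]
  split_ifs
  · exact φ.mem_range_self z
  · exact zero_mem _

theorem conj_mem (z : L) {f : A⟦X⟧} (hf : f ∈ ser φ) : ex (φ z) * f * ex (φ (-z)) ∈ ser φ :=
  fun n => cont (K := φ.range.toSubmodule.toAddSubgroup) (T := φ.range.toSubmodule.toAddSubgroup)
    (fun f => ex (φ z) * f * ex (φ (-z))) (fun f g => by rw [mul_add, add_mul])
    (fun f => by rw [← mul_assoc, (commute_X _).eq]; simp only [mul_assoc]) (fun y hy n => by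
      rw [coeff_conj]
      refine φ.range.smul_mem _ ?_
      induction n with
      | zero => exact hy
      | succ n ih =>
        rw [pow_succ', Module.End.mul_apply]
        have := φ.range.lie_mem (φ.mem_range_self z) ih
        rw [Ring.lie_def, sub_eq_add_neg, ← mul_neg, ← map_neg] at this
        exact this) n f hf

theorem coe_adw (l : List (ser φ)) (y : ser φ) :
    ((adw l y : ser φ) : A⟦X⟧) = adw (l.map (↑)) (y : A⟦X⟧) := by
  induction l with
  | nil => rfl
  | cons m l ih => rw [adw_cons, LieSubalgebra.coe_bracket, ih]; rfl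

theorem map_adw (l : List L) (y : L) : φ (adw l y) = adw (l.map φ) (φ y) := by
  induction l with
  | nil => rfl
  | cons m l ih => rw [adw_cons, LieHom.map_lie, ih]; rfl

theorem ex_inv (z : L) : ex (φ (-z)) * ex (φ z) = 1 := by
  have := ex_neg (φ (-z))
  rwa [← map_neg, neg_neg] at this

/-- The exponentials acting on the power series. -/
noncomputable def data : Data (ser φ) L where
  E z f := ⟨ex (φ z) * f * ex (φ (-z)), conj_mem φ z f.2⟩
  Ebr z x y := Subtype.ext (by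
    have h : ∀ g : A⟦X⟧, ex (φ (-z)) * (ex (φ z) * g) = g := fun g => by
      rw [← mul_assoc, ex_inv, one_mul]
    simp only [LieSubalgebra.coe_bracket, Ring.lie_def, mul_sub, sub_mul, mul_assoc, h])
  Ez z := Subtype.ext (by simp)
  E0 y := Subtype.ext (by simp [ex_zero])
  Einv z y := Subtype.ext (by
    have h1 := ex_inv φ z
    have h2 := ex_inv φ (-z)
    rw [neg_neg] at h2
    simp only [neg_neg]
    rw [← mul_assoc, ← mul_assoc, h2, one_mul, mul_assoc, h2, mul_one])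
  CP F := CS fun t => (F t : A⟦X⟧)
  cpc y := CS.c _
  cpb F G hF hG := hF.br hG
  cpE F z p q hF := by
    have h : ∀ w : A, PF fun t : ℚ => (p + q * t) • w := fun w => by
      simpa only [add_smul, mul_smul, smul_comm q] using (PF.c (p • w)).add (PF.c (q • w)).t
    have := ((CS.ex (h (φ z))).mul hF).mul (CS.ex (h (φ (-z))))
    simpa only [map_neg, map_smul, smul_neg] using this
  cpz F hF h t := Subtype.ext (CS.zero hF (h.mono fun x (hx : F x = 0) =>
    show (F x : A⟦X⟧) = 0 from congrArg Subtype.val hx) t)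
  hi S hS y o ho l hl := Subtype.ext (by
    rw [coe_adw, LieSubalgebra.coe_bracket]
    ext n
    refine cont (K := φ.range.toSubmodule.toAddSubgroup) (T := ⊥)
      (fun f => adw (l.map (↑)) ⁅f, (o : A⟦X⟧)⁆) (fun f g => by rw [add_lie, adw_add])
      (fun f => by rw [← lie_skew, lie_X, ← mul_neg, lie_skew, adw_X]) ?_ n y y.2
    rintro _ ⟨z, rfl⟩ k
    have := slot (l.map (↑)) (φ z) o fun t => by
      have h := congrArg Subtype.val (hl _ (hS (t • z) o ho))
      rw [coe_adw] at h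
      simpa only [map_neg, map_smul, smul_neg, ZeroMemClass.coe_zero] using h
    exact (congrArg (coeff k) this).trans (map_zero _))

theorem nt_ser (hφ : Function.Injective φ) {s : ℕ} (h : NT L s) : NT (ser φ) s := by
  intro u v huv
  by_contra hc
  obtain ⟨hu, hv⟩ := not_or.1 hc
  obtain ⟨i, hi, hi'⟩ := exists_low (f := (u : A⟦X⟧)) fun h => hu (Subtype.ext h)
  obtain ⟨j, hj, hj'⟩ := exists_low (f := (v : A⟦X⟧)) fun h => hv (Subtype.ext h)
  obtain ⟨a, ha⟩ := u.2 i
  obtain ⟨b, hb⟩ := v.2 j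
  replace ha : φ a = coeff i (u : A⟦X⟧) := ha
  replace hb : φ b = coeff j (v : A⟦X⟧) := hb
  refine (h a b fun l hl => hφ ?_).elim (fun h => hi (by rw [← ha, h, map_zero]))
    fun h => hj (by rw [← hb, h, map_zero])
  have h1 := congrArg (fun f : ser φ => coeff (i + j) (f : A⟦X⟧))
    (huv (l.map fun z => ⟨C (φ z), C_mem φ z⟩) (by simpa using hl))
  have h2 : ∀ k < i, coeff k (adw ((l.map φ).map C) (u : A⟦X⟧)) = 0 := fun k hk => by
    rw [coeff_adw, hi' k hk, adw_zero]
  simp only [LieSubalgebra.coe_bracket, coe_adw, List.map_map, Function.comp_def] at h1 h2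
  rw [Ring.lie_def, map_sub, coeff_low h2 hj', add_comm, coeff_low hj' h2] at h1
  have h3 := coeff_adw (l.map φ) (u : A⟦X⟧) i
  simp only [List.map_map, Function.comp_def] at h3
  rw [LieHom.map_lie, map_adw, ha, hb, map_zero, Ring.lie_def, ← h3]
  simpa using h1

/-- A Lie algebra over `ℚ` without `s`-thick pairs has no nonzero sandwich. -/
theorem noSandwich {s : ℕ} (h : NT L s) (a : L) (ha : ∀ y : L, ⁅a, ⁅a, y⁆⁆ = 0) : a = 0 := by
  have hKZ : KZ.{u} := fun ι _ => KZ.kz_unif ι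
  have hφ : Function.Injective (LieAlgebra.ad ℚ L) := (injective_iff_map_eq_zero _).2 fun b hb =>
    (h b b fun l _ => by
      rw [← lie_skew, neg_eq_zero]; exact LinearMap.congr_fun hb _).elim id id
  set φ := LieAlgebra.ad ℚ L
  have := (data φ).noSandwich hKZ (nt_ser φ hφ h) (a := ⟨C (φ a), C_mem φ a⟩) fun y =>
    Subtype.ext (by
      ext1 n
      obtain ⟨b, hb⟩ := y.2 n
      replace hb : φ b = coeff n (y : (Module.End ℚ L)⟦X⟧) := hb
      have h1 := coeff_adw [φ a, φ a] (y : (Module.End ℚ L)⟦X⟧) n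
      have h2 := map_adw φ [a, a] b
      rw [← hb] at h1
      exact h1.trans (h2.symm.trans ((congrArg φ (ha b)).trans (map_zero _))))
  exact hφ (by simpa using congrArg (fun f : ser φ => coeff 0 (f : (Module.End ℚ L)⟦X⟧)) this)

end Pool.Agent.MP_2a197d_al.EG

end MrgPart3

-- ======== part 4: formerly Pool.Agent.MP_2a197d_al.FW2
section MrgPart4

/-! Lie algebras with a nontrivial group law are solvable: reduction to two statements. -/

namespace Pool.Agent.MP_2a197d_al.FW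

open Function T LieAlgebra FreeGroup LW IND

/-- Solvability. -/
def Sol (L : Type) [LieRing L] : Prop := ∃ M, ∀ y : (full M).Lf → L, lev (full M) y = 0

/-- Every Lie algebra with the law `w` is solvable. -/
def AllSol {α : Type} (w : FreeGroup α) : Prop :=
  ∀ (L : Type) [LieRing L] [LieAlgebra ℚ L], Law w L → Sol L

theorem ind (step : ∀ (α : Type) (w' : FreeGroup (α × ℤ)), lift th w' ≠ 1 → AllSol w' →
    AllSol (lift th w')) (α : Type) (w : FreeGroup α) (hw : w ≠ 1) : AllSol w := by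
  classical
  have key : ∀ (n : ℕ) (α : Type) (l : List (α × Bool)), l.length ≤ n → mk l ≠ 1 →
      AllSol (mk l) := by
    intro n
    induction n with
    | zero =>
      intro α l hl h
      rw [List.length_eq_zero_iff.1 (Nat.le_zero.1 hl)] at h
      exact absurd rfl h
    | succ n ih =>
      intro α l hl h
      rcases l with _ | ⟨⟨b, s⟩, l⟩
      · exact absurd rfl h
      let e : α → Option α := fun a => if a = b then none else some a
      let r : Option α → α := fun o => o.getD b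
      have hr : ∀ a, r (e a) = a := fun a => by
        by_cases h : a = b <;> simp [e, r, h]
      obtain ⟨l', hl'⟩ : ∃ l', l' = ((b, s) :: l).map (Prod.map e id) := ⟨_, rfl⟩
      have h7 : mk l' = FreeGroup.map e (mk ((b, s) :: l)) := by rw [hl']; rfl
      have h1 : mk l' = lift (of ∘ e) (mk ((b, s) :: l)) := by rw [h7, ← map_eq_lift]
      have h2 : mk l' ≠ 1 := by
        intro h0
        apply h
        have h3 := congrArg (FreeGroup.map r) h0
        rw [h7, map.comp, _root_.map_one, show r ∘ e = id from funext hr, map.id] at h3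
        exact h3
      have h4 : AllSol (mk l') := by
        by_cases hc : chi l' = 0
        · have h5 := rho_spec l' 0
          rw [hc, zpow_zero, one_mul, add_zero, zpow_zero, mul_one] at h5
          rw [h5]
          refine step α _ (h5 ▸ h2) (ih _ _ ?_ fun h0 => h2 (by rw [h5, h0, _root_.map_one]))
          have h6 : l' = (none, s) :: l.map (Prod.map e id) := by simp [hl', e]
          rw [h6, IND.rho]
          refine (rho_length _ _).trans ?_
          simpa using hl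
        · exact fun L _ _ hL => ⟨1, fun y => abelian l' hc hL _ _⟩
      exact fun L _ _ hL => h4 L (h1 ▸ hL.lift _)
  obtain ⟨l⟩ := w
  exact key _ α l le_rfl hw

theorem law_hs {α : Type*} {w : FreeGroup α} {F : Type} [LieRing F] [LieAlgebra ℚ F]
    (h : Law w F) {L : Type} [LieRing L] [LieAlgebra ℚ L] (hL : KY.HS F L) : Law w L := by
  induction hL with
  | base => exact h
  | sub f hf _ ih =>
    exact Law.sub ih (fun θ => (f θ).toLinearMap.toAddMonoidHom) (fun θ => (f θ).map_lie) hf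
  | img f hf _ ih => exact ih.image f.toLinearMap.toAddMonoidHom f.map_lie hf

/-- The key statement about minimal non-solvable varieties. -/
def KeyH : Prop := ∀ (F : Type) [LieRing F] [LieAlgebra ℚ F] (G : KY.Fr ℕ F),
  (∀ M, ∃ y : (full M).Lf → F, lev (full M) y ≠ 0) →
  (∀ I : LieIdeal ℚ F, ⁅I, I⁆ = ⊥ → I = ⊥) →
  (∀ J : LieIdeal ℚ F, FI J → J ≠ ⊥ → ∃ k, ∀ y : (full k).Lf → F, lev (full k) y ∈ J) →
  G.PH → ∃ (L : Type) (_ : LieRing L) (_ : LieAlgebra ℚ L), KY.HS F L ∧ (∃ s, EG.NT L s) ∧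
    ∃ a : L, a ≠ 0 ∧ ∃ n, ad ℚ L a ^ n = 0

/-- The shorter law holds modulo torsion. -/
def StepH : Prop := ∀ (α : Type) (w' : FreeGroup (α × ℤ)) (F : Type) [LieRing F] [LieAlgebra ℚ F]
  (G : KY.Fr ℕ F), Law (lift th w') F → Law w' (G.Trunc (· ≠ 0))

theorem thm (hk : KeyH) (hs : StepH) (α : Type) (w : FreeGroup α) (hw : w ≠ 1) : AllSol w := by
  refine ind (fun α w' hw ih L _ _ hL => ?_) α w hw
  by_contra hc
  obtain ⟨F, _, _, g, hg, h1, h2, h3, h4⟩ := minimal hL fun M => by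
    by_contra h
    push Not at h
    exact hc ⟨M, h⟩
  let G : KY.Fr ℕ F := ⟨g, hg.gen, hg.ex⟩
  obtain ⟨d, hd⟩ := ih _ (hs α w' F G h1)
  obtain ⟨L', _, _, h5, ⟨s, h6⟩, a, ha, n, hn⟩ := hk F G h2 h3 h4 (KY.Fr.PH_of_trunc hd)
  obtain ⟨k, h7⟩ := S4b.lawN hw
  obtain ⟨c, h8, h9⟩ := S4.sandwich k (h7 L' (law_hs h1 h5)) a ha n hn
  exact h8 (EG.noSandwich h6 c h9)

end Pool.Agent.MP_2a197d_al.FW

end MrgPart4

-- marker of a merged file
example : 731051 + 438764 = 731051 + 438764 := rfl
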