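import Pool.Agent.MP_2a197d_al.LB10
import Pool.Agent.MP_2a197d_al.Law

/-! From a group law to a Lie algebra with the same law, and back to solvability of the group. -/

namespace Pool.Agent.MP_2a197d_al.GL

open scoped commutatorElement
open Finset Function LW T LieAlgebra

section leib
variable {ι L : Type*} [DecidableEq ι] [LieRing L] [LieAlgebra ℚ L]

theorem cf_leibniz (y : ι → L) (z w : L) (l : List (ι × Bool)) : ∀ U : Finset ι,
    cf (fun i => ad ℚ L (y i)) l U ⁅z, w⁆ = ∑ T ∈ U.powerset,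
      ⁅cf (fun i => ad ℚ L (y i)) l T z, cf (fun i => ad ℚ L (y i)) l (U \ T) w⁆ := by
  induction l with
  | nil =>
    intro U
    rw [sum_eq_single ∅ (fun T _ h => by rw [cf_nil, if_neg h]; simp) (by simp)]
    simp only [cf_nil, sdiff_empty, if_true]
    split_ifs <;> simp
  | cons p l ih =>
    intro U
    set c := cf (fun i => ad ℚ L (y i)) l with hc
    have hD : ∀ a b : L, sg p.2 (ad ℚ L (y p.1)) ⁅a, b⁆ =
        ⁅sg p.2 (ad ℚ L (y p.1)) a, b⁆ + ⁅a, sg p.2 (ad ℚ L (y p.1)) b⁆ := by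
      intro a b
      cases p.2
      · change -⁅y p.1, ⁅a, b⁆⁆ = ⁅-⁅y p.1, a⁆, b⁆ + ⁅a, -⁅y p.1, b⁆⁆
        rw [leibniz_lie, neg_lie, lie_neg, neg_add]
      · exact leibniz_lie _ _ _
    by_cases h : p.1 ∈ U
    · have h0 := notMem_erase p.1 U
      have h1 : ∀ T ∈ (U.erase p.1).powerset, p.1 ∉ T := fun T hT h' => h0 (mem_powerset.1 hT h')
      have h2 : ∀ T ∈ (U.erase p.1).powerset, (U \ T).erase p.1 = U.erase p.1 \ T := by
        intro T _
        ext k
        simp only [mem_sdiff, mem_erase]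
        tauto
      have h3 : ∀ T, U \ insert p.1 T = U.erase p.1 \ T := by
        intro T
        ext k
        simp only [mem_sdiff, mem_erase, mem_insert]
        tauto
      have h4 : ∀ F : Finset ι → L, ∑ T ∈ U.powerset, F T =
          ∑ T ∈ (U.erase p.1).powerset, (F T + F (insert p.1 T)) := by
        intro F
        conv_lhs => rw [← insert_erase h, sum_powerset_insert h0]
        rw [sum_add_distrib]
      rw [cf_cons, if_pos h, LinearMap.add_apply, Module.End.mul_apply, ← hc, ih, ih, map_sum,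
        h4, h4, ← sum_add_distrib]
      refine sum_congr rfl fun T hT => ?_
      have h5 : p.1 ∈ U \ T := mem_sdiff.2 ⟨h, h1 T hT⟩
      have h6 : p.1 ∉ U.erase p.1 \ T := fun h' => h0 (mem_sdiff.1 h').1
      simp only [cf_cons, ← hc, h3, if_neg (h1 T hT), if_pos h5, if_neg h6,
        if_pos (mem_insert_self p.1 T), erase_insert (h1 T hT), h2 T hT, add_zero,
        LinearMap.add_apply, Module.End.mul_apply, hD, lie_add, add_lie]
      abel
    · rw [cf_cons, if_neg h, add_zero, ← hc, ih]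
      refine sum_congr rfl fun T hT => ?_
      rw [cf_cons, cf_cons, if_neg fun h' => h (mem_powerset.1 hT h'),
        if_neg fun h' => h (mem_sdiff.1 h').1, add_zero, add_zero]

end leib

variable {G : Type*} [Group G] (S : NS G)

/-- The abelianisation of a term of the series. -/
abbrev Ab (e : ℕ) : Type _ := Additive (Abelianization (S.H e))

open Classical in
/-- The class of an element. -/
noncomputable def cls (e : ℕ) (a : G) : Ab S e :=
  if h : a ∈ S.H e then Additive.ofMul (Abelianization.of ⟨a, h⟩) else 0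

/-- The action by conjugation. -/
noncomputable def rho (e : ℕ) (g : G) : Ab S e →+ Ab S e :=
  MonoidHom.toAdditive (Abelianization.map (MulAut.conjNormal (H := S.H e) g).toMonoidHom)

variable {S}

theorem cls_mul {e : ℕ} {a b : G} (ha : a ∈ S.H e) (hb : b ∈ S.H e) :
    cls S e (a * b) = cls S e a + cls S e b := by
  rw [cls, cls, cls, dif_pos ha, dif_pos hb, dif_pos (mul_mem ha hb), ← ofMul_mul, ← map_mul]
  rfl

theorem cls_one (e : ℕ) : cls S e 1 = 0 := by
  simpa using cls_mul (S.H e).one_mem (S.H e).one_mem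

theorem rho_cls {e : ℕ} {a : G} (ha : a ∈ S.H e) (g : G) :
    rho S e g (cls S e a) = cls S e (g * a * g⁻¹) := by
  rw [cls, cls, dif_pos ha, dif_pos (S.conj ha g)]
  rfl

theorem cls_zero {e : ℕ} {a : G} (ha : a ∈ S.H e) (h : cls S e a = 0) : a ∈ S.H (e + e + 1) := by
  rw [cls, dif_pos ha, ofMul_eq_zero] at h
  have h1 : (⟨a, ha⟩ : S.H e) ∈ commutator (S.H e) := Abelianization.ker_of (S.H e) ▸ h
  have h2 : commutator (S.H e) ≤ (S.H (e + e + 1)).comap (S.H e).subtype :=
    Subgroup.commutator_le.2 fun g _ g' _ => by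
      rw [Subgroup.mem_comap, map_commutatorElement]
      exact S.comm _ _ _ g.2 _ g'.2
  exact h2 h1

/-- A class in the abelianisation together with a leading term. -/
def Rel (e k : ℕ) (α : Ab S e) (u : RT S.gr) : Prop :=
  ∃ a ∈ S.H k, cls S e a = α ∧ tm 1 (S.sy k a) = u

theorem Rel.add {e k : ℕ} (hk : e ≤ k) {α β : Ab S e} {u v : RT S.gr} (h : Rel e k α u)
    (h' : Rel e k β v) : Rel e k (α + β) (u + v) := by
  obtain ⟨a, ha, rfl, rfl⟩ := h
  obtain ⟨b, hb, rfl, rfl⟩ := h'
  exact ⟨a * b, mul_mem ha hb, cls_mul (S.anti hk ha) (S.anti hk hb), by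
    rw [S.sy_mul ha hb, map_add]⟩

theorem Rel.zero (e k : ℕ) : Rel (S := S) e k 0 0 :=
  ⟨1, one_mem _, cls_one e, by rw [S.sy_one, map_zero]⟩

theorem Rel.down {e k m : ℕ} (hk : k < m) {α : Ab S e} {u : RT S.gr} (h : Rel e m α u) :
    Rel e k α 0 := by
  obtain ⟨a, ha, rfl, -⟩ := h
  exact ⟨a, S.anti hk.le ha, rfl, by rw [S.sy_zero (S.anti hk ha), map_zero]⟩

theorem Rel.step {e k d : ℕ} (hk : e ≤ k) {α : Ab S e} {u : RT S.gr} (h : Rel e k α u) {g : G}
    (hg : g ∈ S.H d) : Rel e (d + k + 1) (rho S e g α - α) ⁅tm 1 (S.sy d g), u⁆ := by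
  obtain ⟨a, ha, rfl, rfl⟩ := h
  have h1 := S.comm _ _ _ hg _ ha
  refine ⟨⁅g, a⁆, h1, ?_, by rw [tm_lie, S.lie_sy hg ha, one_mul]⟩
  rw [rho_cls (S.anti hk ha), eq_sub_iff_add_eq,
    ← cls_mul (S.anti (by omega) h1) (S.anti hk ha), commutatorElement_def, inv_mul_cancel_right]

section deep
variable {ι : Type*} [DecidableEq ι] (e : ℕ) (g : ι → G) (h : G)

/-- The components of the conjugate of `h` by the value of a word. -/
noncomputable def Ec : List (ι × Bool) → Finset ι → Ab S e
  | [], U => if U = ∅ then cls S e h else 0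
  | p :: l, U => Ec l U + if p.1 ∈ U then
      rho S e (cond p.2 (g p.1) (g p.1)⁻¹) (Ec l U + Ec l (U.erase p.1)) -
        (Ec l U + Ec l (U.erase p.1)) else 0

variable {e g h}

theorem Ec_rel {d : ι → ℕ} (hg : ∀ i, g i ∈ S.H (d i)) {k : ℕ} (hk : e ≤ k) (hh : h ∈ S.H k)
    (l : List (ι × Bool)) : ∀ U : Finset ι, Rel e (k + ∑ i ∈ U, (d i + 1)) (Ec e g h l U)
      (cf (fun i => ad ℚ (RT S.gr) (tm 1 (S.sy (d i) (g i)))) l U (tm 1 (S.sy k h))) := by
  induction l with
  | nil =>
    intro U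
    rw [Ec, cf_nil]
    split_ifs with h0
    · subst h0
      exact ⟨h, hh, rfl, rfl⟩
    · exact Rel.zero _ _
  | cons p l ih =>
    intro U
    rw [Ec, cf_cons, LinearMap.add_apply]
    refine (ih U).add (by omega) ?_
    split_ifs with h0
    · have h1 : cond p.2 (g p.1) (g p.1)⁻¹ ∈ S.H (d p.1) := by
        cases p.2
        exacts [inv_mem (hg _), hg _]
      have h2 := ((ih U).step (by omega) h1).down
        (k := k + ∑ i ∈ U, (d i + 1)) (by omega)
      have h3 := (ih (U.erase p.1)).step (by omega) h1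
      have h4 : d p.1 + (k + ∑ i ∈ U.erase p.1, (d i + 1)) + 1 = k + ∑ i ∈ U, (d i + 1) := by
        rw [← add_sum_erase U _ h0]; omega
      rw [h4] at h3
      have h5 := h2.add (by omega) h3
      rw [zero_add] at h5
      have h6 : ∀ u, (sg p.2 (ad ℚ (RT S.gr) (tm 1 (S.sy (d p.1) (g p.1))))) u =
          ⁅tm 1 (S.sy (d p.1) (cond p.2 (g p.1) (g p.1)⁻¹)), u⁆ := by
        intro u
        cases p.2
        · simp [sg, S.sy_inv (hg _)]
        · rfl
      rw [Module.End.mul_apply, h6, map_add, add_sub_add_comm]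
      exact h5
    · exact Rel.zero _ _

theorem Ec_sum (hh : h ∈ S.H e) (V : Finset ι) (l : List (ι × Bool)) :
    ∑ U ∈ V.powerset, Ec e g h l U = cls S e
      (FreeGroup.lift (fun i => if i ∈ V then g i else 1) (FreeGroup.mk l) * h *
        (FreeGroup.lift (fun i => if i ∈ V then g i else 1) (FreeGroup.mk l))⁻¹) := by
  induction l with
  | nil =>
    rw [sum_eq_single ∅ (fun T _ h => by rw [Ec, if_neg h]) (by simp)]
    simp [Ec]
  | cons p l ih =>
    have h1 : FreeGroup.lift (fun i => if i ∈ V then g i else 1) (FreeGroup.mk (p :: l)) =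
        (if p.1 ∈ V then cond p.2 (g p.1) (g p.1)⁻¹ else 1) *
          FreeGroup.lift (fun i => if i ∈ V then g i else 1) (FreeGroup.mk l) := by
      rw [FreeGroup.lift_mk, FreeGroup.lift_mk, List.map_cons, List.prod_cons]
      congr 1
      split_ifs <;> cases p.2 <;> simp
    rw [h1]
    generalize FreeGroup.lift (fun i => if i ∈ V then g i else 1) (FreeGroup.mk l) = v at ih
    simp only [Ec, sum_add_distrib, ih]
    by_cases h0 : p.1 ∈ V
    · have h2 := notMem_erase p.1 V
      have h3 : ∑ U ∈ (V.erase p.1).powerset,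
          (Ec e g h l (insert p.1 U) + Ec e g h l U) = cls S e (v * h * v⁻¹) := by
        rw [← ih, sum_add_distrib, add_comm, ← sum_powerset_insert h2, insert_erase h0]
      rw [if_pos h0]
      conv_lhs => rw [← insert_erase h0, sum_powerset_insert h2]
      rw [sum_eq_zero fun U hU => if_neg fun h' => h2 (mem_powerset.1 hU h'), zero_add,
        sum_congr rfl fun U hU => by
          rw [if_pos (mem_insert_self _ _), erase_insert fun h' => h2 (mem_powerset.1 hU h')],
        sum_sub_distrib, ← map_sum, h3, rho_cls (S.conj hh v), add_sub_cancel]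
      congr 1
      group
    · rw [if_neg h0, one_mul, sum_eq_zero fun U hU => if_neg fun h' => h0 (mem_powerset.1 hU h'),
        add_zero]

theorem deep {d : ι → ℕ} (hg : ∀ i, g i ∈ S.H (d i)) {l : List (ι × Bool)}
    (hl : ∀ f : ι → G, FreeGroup.lift f (FreeGroup.mk l) = 1) {U : Finset ι} (hU : U ≠ ∅) {k : ℕ}
    (hk : ∑ i ∈ U, (d i + 1) ≤ k) (hh : h ∈ S.H k) :
    cf (fun i => ad ℚ (RT S.gr) (tm 1 (S.sy (d i) (g i)))) l U (tm 1 (S.sy k h)) = 0 := by
  have h1 : ∀ V : Finset ι, Ec k g h l V = if V = ∅ then cls S k h else 0 := by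
    intro V
    induction V using Finset.strongInduction with
    | H V ih =>
      have h2 := Ec_sum (g := g) hh V l
      rw [hl, one_mul, inv_one, mul_one, ← add_sum_erase _ _ (mem_powerset_self V),
        sum_congr rfl fun T hT => ih T (lt_of_le_of_ne (mem_powerset.1 (mem_of_mem_erase hT))
          (ne_of_mem_erase hT)), sum_ite_eq'] at h2
      by_cases h0 : V = ∅
      · rw [if_pos h0]
        rwa [if_neg (by simp [h0]), add_zero] at h2
      · rw [if_neg h0]
        rwa [if_pos (by simp [Ne.symm h0]), add_eq_right] at h2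
  obtain ⟨a, ha, h2, h3⟩ := Ec_rel hg le_rfl hh l U
  rw [h1, if_neg hU] at h2
  rw [← h3, S.sy_zero (S.anti (by omega) (cls_zero (S.anti (by omega) ha) h2)), map_zero]

end deep

variable (S)

/-- The span of the homogeneous elements of degree at least `e`. -/
noncomputable def Dp (e : ℕ) : Submodule ℚ (RT S.gr) :=
  Submodule.span ℚ {v | ∃ k, e ≤ k ∧ ∃ a ∈ S.H k, tm 1 (S.sy k a) = v}

theorem Dp_anti {e e' : ℕ} (h : e ≤ e') : Dp S e' ≤ Dp S e :=
  Submodule.span_mono fun _ ⟨k, h1, h2⟩ => ⟨k, h.trans h1, h2⟩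

theorem Dp_zero (v : RT S.gr) : v ∈ Dp S 0 := by
  refine Submodule.span_mono ?_ (S.sp_top v)
  rintro _ ⟨k, a, h1, -, h2⟩
  exact ⟨k, Nat.zero_le _, a, h1, h2⟩

theorem Dp_lie (e : ℕ) (y : RT S.gr) {v : RT S.gr} (hv : v ∈ Dp S e) : ⁅y, v⁆ ∈ Dp S e := by
  refine LB.br_sp ?_ (Dp_zero S y) hv
  rintro _ ⟨j, -, b, hb, rfl⟩ _ ⟨k, hk, a, ha, rfl⟩
  exact Submodule.subset_span ⟨j + k + 1, by omega, _, S.comm _ _ _ hb _ ha, by
    rw [tm_lie, S.lie_sy hb ha, one_mul]⟩

/-- Operators that kill all elements of large degree. -/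
noncomputable def Kl : Submodule ℚ (Module.End ℚ (RT S.gr)) where
  carrier := {A | ∃ e, ∀ v ∈ Dp S e, A v = 0}
  add_mem' := by
    rintro A B ⟨e, he⟩ ⟨e', he'⟩
    exact ⟨max e e', fun v hv => by
      rw [LinearMap.add_apply, he v (Dp_anti S (le_max_left _ _) hv),
        he' v (Dp_anti S (le_max_right _ _) hv), add_zero]⟩
  zero_mem' := ⟨0, fun _ _ => rfl⟩
  smul_mem' := by
    rintro c A ⟨e, he⟩
    exact ⟨e, fun v hv => by rw [LinearMap.smul_apply, he v hv, smul_zero]⟩

variable {S}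

theorem Kl_left (B : Module.End ℚ (RT S.gr)) {A : Module.End ℚ (RT S.gr)} (h : A ∈ Kl S) :
    B * A ∈ Kl S :=
  h.imp fun _ he v hv => by rw [Module.End.mul_apply, he v hv, map_zero]

theorem Kl_right (y : RT S.gr) {A : Module.End ℚ (RT S.gr)} (h : A ∈ Kl S) :
    A * ad ℚ (RT S.gr) y ∈ Kl S :=
  h.imp fun e he _ hv => he _ (Dp_lie S e y hv)

theorem cf_mem {ι : Type*} [DecidableEq ι] {l : List (ι × Bool)}
    (hl : ∀ f : ι → G, FreeGroup.lift f (FreeGroup.mk l) = 1) {U : Finset ι} (hU : U ≠ ∅)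
    (y : ι → RT S.gr) : cf (fun i => ad ℚ (RT S.gr) (y i)) l U ∈ Kl S := by
  have key : ∀ V : Finset ι, V ⊆ U → ∀ y : ι → RT S.gr,
      (∀ i ∉ V, ∃ k, 0 ≤ k ∧ ∃ a ∈ S.H k, tm 1 (S.sy k a) = y i) →
      cf (fun i => ad ℚ (RT S.gr) (y i)) l U ∈ Kl S := by
    intro V
    induction V using Finset.induction_on with
    | empty =>
      intro _ y hy
      choose d _ g hg hy using fun i => hy i (notMem_empty i)
      refine ⟨∑ i ∈ U, (d i + 1), fun v hv => ?_⟩
      refine (Submodule.span_le (p := LinearMap.ker _)).2 ?_ hv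
      rintro _ ⟨k, hk, a, ha, rfl⟩
      simp only [← hy]
      exact deep hg hl hU hk ha
    | insert j V _ ih =>
      intro hV y hy
      have hj := hV (mem_insert_self j V)
      have h1 := cf_lin (K := ℚ) (fun i => ad ℚ (RT S.gr) (y i)) l U hj
      have h2 : ∀ b, cf (update (fun i => ad ℚ (RT S.gr) (y i)) j (ad ℚ (RT S.gr) b)) l U ∈ Kl S := by
        intro b
        induction Dp_zero S b using Submodule.span_induction with
        | mem b hb =>
          have h3 := ih ((subset_insert j V).trans hV) (update y j b) fun i hi => by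
            by_cases h4 : i = j
            · rwa [h4, update_self]
            · rw [update_of_ne h4]
              exact hy i fun h5 => (mem_insert.1 h5).elim h4 hi
          rwa [show (fun i => ad ℚ (RT S.gr) (update y j b i)) =
            update (fun i => ad ℚ (RT S.gr) (y i)) j (ad ℚ (RT S.gr) b) from
            comp_update (ad ℚ (RT S.gr)) y j b] at h3
        | zero => rw [map_zero, h1.map_zero]; exact zero_mem _
        | add a b _ _ ha hb => rw [map_add, h1.map_add]; exact add_mem ha hb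
        | smul c a _ ha => rw [map_smul, h1.map_smul]; exact Submodule.smul_mem _ c ha
      simpa using h2 (y j)
  have := key U Subset.rfl (fun i => if i ∈ U then y i else tm 1 (S.sy 0 1)) fun i hi =>
    ⟨0, le_rfl, 1, one_mem _, (if_neg hi).symm⟩
  rwa [cf_congr l fun i hi => by rw [if_pos hi]] at this

variable (S)

/-- Elements that commute with all elements of large degree. -/
noncomputable def Jd : LieIdeal ℚ (RT S.gr) where
  carrier := {u | ad ℚ (RT S.gr) u ∈ Kl S}
  add_mem' := fun {a b} ha hb => by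
    change ad ℚ (RT S.gr) (a + b) ∈ Kl S
    rw [map_add]
    exact add_mem ha hb
  zero_mem' := by
    change ad ℚ (RT S.gr) 0 ∈ Kl S
    rw [map_zero]
    exact zero_mem _
  smul_mem' := fun c a ha => by
    change ad ℚ (RT S.gr) (c • a) ∈ Kl S
    rw [map_smul]
    exact Submodule.smul_mem _ c ha
  lie_mem := fun {x u} hu => by
    have h : ad ℚ (RT S.gr) ⁅x, u⁆ = ad ℚ (RT S.gr) x * ad ℚ (RT S.gr) u -
        ad ℚ (RT S.gr) u * ad ℚ (RT S.gr) x := LinearMap.ext fun y => lie_lie x u y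
    change ad ℚ (RT S.gr) ⁅x, u⁆ ∈ Kl S
    rw [h]
    exact sub_mem (Kl_left _ hu) (Kl_right _ hu)

theorem law_quot {α : Type*} {w : FreeGroup α} (hw : ∀ f : α → G, FreeGroup.lift f w = 1) :
    Law w (RT S.gr ⧸ Jd S) := by
  intro f l hl x U hU
  have h1 : ∀ f' : ℕ → G, FreeGroup.lift f' (FreeGroup.mk l) = 1 := fun f' => by
    rw [hl, ← hw fun a => FreeGroup.lift f' (f a)]
    exact DFunLike.congr_fun (FreeGroup.ext_hom ((FreeGroup.lift f').comp (FreeGroup.lift f))
      (FreeGroup.lift _) fun a => by simp) w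
  let π : RT S.gr →ₗ[ℚ] RT S.gr ⧸ Jd S := (Jd S).toSubmodule.mkQ
  have hπ : Surjective π := Submodule.mkQ_surjective _
  choose y hy using fun i => hπ (x i)
  ext z
  obtain ⟨z, rfl⟩ := hπ z
  simp only [← hy]
  refine (cf_nat π.toAddMonoidHom (fun _ _ => rfl) y l U z).symm.trans ?_
  refine (Submodule.Quotient.mk_eq_zero _).2 ?_
  change ad ℚ (RT S.gr) _ ∈ Kl S
  have h2 : ad ℚ (RT S.gr) (cf (fun i => ad ℚ (RT S.gr) (y i)) l U z) =
      cf (fun i => ad ℚ (RT S.gr) (y i)) l U * ad ℚ (RT S.gr) z -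
      ∑ T ∈ U.powerset.erase U, ad ℚ (RT S.gr) (cf (fun i => ad ℚ (RT S.gr) (y i)) l T z) *
        cf (fun i => ad ℚ (RT S.gr) (y i)) l (U \ T) := by
    refine LinearMap.ext fun v => ?_
    have := cf_leibniz y z v l U
    rw [← add_sum_erase _ _ (mem_powerset_self U), sdiff_self, bot_eq_empty, cf_empty] at this
    rw [LinearMap.sub_apply, LinearMap.sum_apply, eq_sub_iff_add_eq]
    exact this.symm
  rw [h2]
  refine sub_mem (Kl_right _ (cf_mem h1 hU y)) (sum_mem fun T hT => Kl_left _ (cf_mem h1 ?_ y))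
  intro h3
  exact ne_of_mem_erase hT (Subset.antisymm (mem_powerset.1 (mem_of_mem_erase hT))
    (sdiff_eq_empty_iff_subset.1 h3))

/-- If every Lie algebra with the law `w` is solvable then so is a relatively free, residually
torsion-free nilpotent group with the law `w`. -/
theorem grp {G : Type} [Group G] {x : ℕ → G} (hx : RF x)
    (hres : ∀ g : G, g ≠ 1 → ∃ K, g ∉ K ∧ LB.TN K) {α : Type*} (w : FreeGroup α)
    (hw : ∀ f : α → G, FreeGroup.lift f w = 1)
    (H : ∀ (L : Type) [LieRing L] [LieAlgebra ℚ L], Law w L →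
      ∃ M, ∀ y : (full M).Lf → L, lev (full M) y = 0) : ∃ M, LB.uu x M = 1 := by
  obtain ⟨M, hM⟩ := H _ (law_quot (gs G) hw)
  let π : RT (gs G).gr →ₗ[ℚ] RT (gs G).gr ⧸ Jd (gs G) := (Jd (gs G)).toSubmodule.mkQ
  have h1 := hM fun i => π (tm 1 ((gs G).sy 0 (x (2 * LB.ee M i))))
  rw [lev, ← ev_map π (fun _ _ => rfl)] at h1
  have h1' : ad ℚ _ (lev (full M) fun i => tm 1 ((gs G).sy 0 (x (2 * LB.ee M i)))) ∈ Kl (gs G) :=
    (Submodule.Quotient.mk_eq_zero (Jd (gs G)).toSubmodule).1 h1
  obtain ⟨e, he⟩ := h1'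
  let t := T.nd (full M) (full (e + M))
  let lab : t.Lf → ℕ := Sum.elim (fun i => 2 * LB.ee M i) fun j => 2 * LB.ee (e + M) j + 1
  have hlab : Injective lab := by
    rintro (i | i) (j | j) h <;> simp only [lab, Sum.elim_inl, Sum.elim_inr] at h
    · rw [LB.ee_inj M (show LB.ee M i = LB.ee M j by omega)]
    · omega
    · omega
    · rw [LB.ee_inj _ (show LB.ee (e + M) i = LB.ee (e + M) j by omega)]
  obtain ⟨h2, h3⟩ := (gs G).sy_gev (full (e + M)) fun j => x (2 * LB.ee (e + M) j + 1)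
  have h4 := he _ (Submodule.subset_span ⟨_, by
    have : e + M < 2 ^ (e + M) := Nat.lt_two_pow_self
    rw [card_full]; omega, _, h2, rfl⟩)
  obtain ⟨h5, h6⟩ := (gs G).sy_gev t fun i => x (lab i)
  have h7 : tm 1 ((gs G).sy (Fintype.card t.Lf - 1) (gev t fun i => x (lab i))) = 0 := by
    rw [h6, ← h4, h3, one_tmul_lev, one_tmul_lev]
    rfl
  obtain ⟨j, hj, h8⟩ := tors h7
  rw [← (gs G).sy_pow h5, (gs G).sy_eq_zero (pow_mem h5 _), Nat.sub_add_cancel (card_pos t)] at h8
  have h9 : (gev t fun i => x (lab i)) = 1 := by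
    by_contra h
    obtain ⟨K, hK, hK'⟩ := hres _ h
    exact hK (LB.lemBg hx t lab hlab hj h8 hK')
  have key : ∀ (z : (graft (full M) (full e)).Lf → G) (z' : (full (e + M)).Lf → G),
      ⁅gev _ z, gev _ z'⁆ = 1 := by
    intro z z'
    obtain ⟨φ, hφ⟩ := hx.ex (extend lab
      (Sum.elim (fun i => gev (full e) fun j => z (inj _ _ i j)) z') 1)
    have := congrArg φ h9
    rw [gev_map, map_one] at this
    have hφ' : ∀ i, φ (x (lab i)) =
        Sum.elim (fun i => gev (full e) fun j => z (inj _ _ i j)) z' i :=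
      fun i => (hφ _).trans (hlab.extend_apply _ _ i)
    rw [funext hφ'] at this
    rw [gev, ev_graft]
    exact this
  rw [graft_full] at key
  exact ⟨e + M + 1, key _ _⟩

end Pool.Agent.MP_2a197d_al.GL
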