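import Pool.Agent.MP_2a197d_al.FW2
import Pool.Agent.MP_2a197d_al.GL

/-! From Lie algebras to varieties of groups. -/

namespace Pool.Agent.MP_2a197d_al.FW

theorem final (H : ∀ w : FreeGroup ℕ, w ≠ 1 → AllSol w) (W : Set (FreeGroup ℕ))
    (hne : ∃ w ∈ W, w ≠ 1)
    (hM : ∀ (F : Type) [Group F] (x : ℕ → F), (∀ w ∈ W, ∀ f : FreeGroup ℕ →* F, f w = 1) →
      (∀ (G : Type) [Group G], (∀ w ∈ W, ∀ f : FreeGroup ℕ →* G, f w = 1) →
        ∀ g : ℕ → G, ∃! φ : F →* G, ∀ i, φ (x i) = g i) →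
      ∀ g : F, g ≠ 1 → ∃ K, g ∉ K ∧ LB.TN K) :
    ∃ M : ℕ, ∀ (G : Type*) [Group G], (∀ w ∈ W, ∀ f : FreeGroup ℕ →* G, f w = 1) →
      derivedSeries G M = ⊥ := by
  let V : Subgroup (FreeGroup ℕ) :=
    Subgroup.normalClosure {g | ∃ w ∈ W, ∃ f : FreeGroup ℕ →* FreeGroup ℕ, f w = g}
  have hW : ∀ w ∈ W, ∀ f : FreeGroup ℕ →* FreeGroup ℕ ⧸ V, f w = 1 := by
    intro w hw f
    choose g hg using fun j => QuotientGroup.mk'_surjective V (f (FreeGroup.of j))
    have : f = (QuotientGroup.mk' V).comp (FreeGroup.lift g) :=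
      FreeGroup.ext_hom _ _ fun j => by simp [← hg]
    rw [this, MonoidHom.comp_apply, QuotientGroup.mk'_apply, QuotientGroup.eq_one_iff]
    exact Subgroup.subset_normalClosure ⟨w, hw, _, rfl⟩
  have hg : Subgroup.closure (Set.range fun j => QuotientGroup.mk' V (FreeGroup.of j)) = ⊤ := by
    rw [Set.range_comp' (QuotientGroup.mk' V) FreeGroup.of, ← MonoidHom.map_closure,
      FreeGroup.closure_range_of, ← MonoidHom.range_eq_map, QuotientGroup.range_mk']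
  have hU : ∀ (G : Type) [Group G], (∀ w ∈ W, ∀ f : FreeGroup ℕ →* G, f w = 1) →
      ∀ g : ℕ → G, ∃! φ : FreeGroup ℕ ⧸ V →* G,
        ∀ i, φ (QuotientGroup.mk' V (FreeGroup.of i)) = g i := by
    intro G _ hG g
    have h1 : V ≤ (FreeGroup.lift g).ker := by
      refine Subgroup.normalClosure_le_normal ?_
      rintro _ ⟨w, hw, f, rfl⟩
      exact hG w hw ((FreeGroup.lift g).comp f)
    have h2 : ∀ j, QuotientGroup.lift V (FreeGroup.lift g) h1
        (QuotientGroup.mk' V (FreeGroup.of j)) = g j := fun j =>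
      (QuotientGroup.lift_mk' _ _ _).trans (FreeGroup.lift_apply_of ..)
    refine ⟨_, h2, fun φ hφ => MonoidHom.eq_of_eqOn_dense hg ?_⟩
    rintro _ ⟨j, rfl⟩
    exact (hφ j).trans (h2 j).symm
  have hx : RF fun j => QuotientGroup.mk' V (FreeGroup.of j) :=
    ⟨hg, fun g => (hU _ hW g).exists⟩
  obtain ⟨w, hw, hw1⟩ := hne
  obtain ⟨M, h⟩ := GL.grp hx (hM _ _ hW hU) w (fun f => hW w hw _) (H w hw1)
  refine ⟨M, fun G _ hG => ?_⟩
  rw [eq_bot_iff]
  refine (der_le M).trans ((Subgroup.closure_le _).2 ?_)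
  rintro _ ⟨y, rfl⟩
  have h1 : V ≤ (FreeGroup.lift (Function.extend (LB.ee M) y 1)).ker := by
    refine Subgroup.normalClosure_le_normal ?_
    rintro _ ⟨w, hw, f, rfl⟩
    exact hG w hw ((FreeGroup.lift _).comp f)
  have h2 := congrArg (QuotientGroup.lift V (FreeGroup.lift (Function.extend (LB.ee M) y 1)) h1) h
  rw [LB.uu, gev_map, map_one] at h2
  simpa [(LB.ee_inj M).extend_apply] using h2

theorem magnus {F : Type} [Group F] (h1 : ⨅ s, (⊤ : Subgroup F).lowerCentralSeries s = ⊥)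
    (h2 : TF F) (g : F) (hg : g ≠ 1) : ∃ K, g ∉ K ∧ LB.TN K := by
  obtain ⟨c, hc⟩ : ∃ c, g ∉ (gs F).H c := by
    by_contra h
    push Not at h
    exact hg (Subgroup.mem_bot.1 (h1 ▸ Subgroup.mem_iInf.2 h))
  refine ⟨_, hc, inferInstance, ⟨c, le_rfl⟩, fun h k hk => ?_⟩
  clear hc
  induction c with
  | zero => exact fun _ => (gs F).top _
  | succ c ih => exact fun hh => h2 c h (ih ((gs F).anti (Nat.le_succ c) hh)) k hk hh

end Pool.Agent.MP_2a197d_al.FW
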