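import Pool.Agent.MP_2a197d_al.GL

/-! From the theorem on Lie algebras with a group law to Magnus varieties of groups. -/

namespace Pool.Agent.MP_2a197d_al.FN

open Subgroup T

/-- A Magnus group is residually torsion-free nilpotent. -/
theorem res {F : Type*} [Group F] (h1 : ⨅ s, (⊤ : Subgroup F).lowerCentralSeries s = ⊥)
    (h2 : ∀ s, ∀ g ∈ (⊤ : Subgroup F).lowerCentralSeries s, ∀ k : ℕ, k ≠ 0 →
      g ^ k ∈ (⊤ : Subgroup F).lowerCentralSeries (s + 1) →
      g ∈ (⊤ : Subgroup F).lowerCentralSeries (s + 1)) (g : F) (hg : g ≠ 1) :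
    ∃ K, g ∉ K ∧ LB.TN K := by
  obtain ⟨s, hs⟩ : ∃ s, g ∉ (⊤ : Subgroup F).lowerCentralSeries s := by
    by_contra h
    push Not at h
    exact hg (mem_bot.1 (h1 ▸ mem_iInf.2 h))
  refine ⟨_, hs, inferInstance, ⟨s, le_rfl⟩, fun h k hk => ?_⟩
  clear hs
  induction s with
  | zero => exact fun _ => mem_top h
  | succ s ih =>
    exact fun h3 => h2 s h (ih (Subgroup.lowerCentralSeries_antitone _ (Nat.le_succ s) h3)) k hk h3

/-- The statement on varieties, granted the theorem on Lie algebras. -/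
theorem main
    (H : ∀ w : FreeGroup ℕ, w ≠ 1 → ∀ (L : Type) [LieRing L] [LieAlgebra ℚ L], LW.Law w L →
      ∃ M, ∀ y : (full M).Lf → L, lev (full M) y = 0)
    (W : Set (FreeGroup ℕ))
    (hW : ∃ (G : Type) (_ : Group G), ¬ ∀ w ∈ W, ∀ f : FreeGroup ℕ →* G, f w = 1)
    (hM : ∀ (F : Type) [Group F] (x : ℕ → F), (∀ w ∈ W, ∀ f : FreeGroup ℕ →* F, f w = 1) →
      (∀ (G : Type) [Group G], (∀ w ∈ W, ∀ f : FreeGroup ℕ →* G, f w = 1) →
        ∀ g : ℕ → G, ∃! φ : F →* G, ∀ i, φ (x i) = g i) →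
      ⨅ s, (⊤ : Subgroup F).lowerCentralSeries s = ⊥ ∧
      ∀ s, ∀ g ∈ (⊤ : Subgroup F).lowerCentralSeries s, ∀ k : ℕ, k ≠ 0 →
        g ^ k ∈ (⊤ : Subgroup F).lowerCentralSeries (s + 1) →
        g ∈ (⊤ : Subgroup F).lowerCentralSeries (s + 1)) :
    ∃ M : ℕ, ∀ (G : Type*) [Group G], (∀ w ∈ W, ∀ f : FreeGroup ℕ →* G, f w = 1) →
      derivedSeries G M = ⊥ := by
  obtain ⟨w, hw, hw1⟩ : ∃ w ∈ W, w ≠ 1 := by
    by_contra h
    push Not at h
    obtain ⟨G, _, hG⟩ := hW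
    exact hG fun w hw f => by rw [h w hw, map_one]
  let V : Subgroup (FreeGroup ℕ) :=
    normalClosure {g | ∃ w ∈ W, ∃ f : FreeGroup ℕ →* FreeGroup ℕ, f w = g}
  have hF : ∀ w ∈ W, ∀ f : FreeGroup ℕ →* FreeGroup ℕ ⧸ V, f w = 1 := by
    intro w hw f
    choose g hg using fun j => QuotientGroup.mk'_surjective V (f (FreeGroup.of j))
    have : f = (QuotientGroup.mk' V).comp (FreeGroup.lift g) :=
      FreeGroup.ext_hom _ _ fun j => by simp [← hg]
    rw [this, MonoidHom.comp_apply, QuotientGroup.mk'_apply, QuotientGroup.eq_one_iff]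
    exact subset_normalClosure ⟨w, hw, _, rfl⟩
  have hk : ∀ (G : Type) [Group G], (∀ w ∈ W, ∀ f : FreeGroup ℕ →* G, f w = 1) →
      ∀ g : ℕ → G, V ≤ (FreeGroup.lift g).ker := fun G _ hG g =>
    normalClosure_le_normal (by
      rintro _ ⟨w, hw, f, rfl⟩
      exact hG w hw ((FreeGroup.lift g).comp f))
  have hx : RF fun j => QuotientGroup.mk' V (FreeGroup.of j) := by
    refine ⟨?_, fun g => ⟨QuotientGroup.lift V (FreeGroup.lift g) (hk _ hF g), fun j =>
      (QuotientGroup.lift_mk' _ _ _).trans (FreeGroup.lift_apply_of ..)⟩⟩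
    rw [Set.range_comp' (QuotientGroup.mk' V) FreeGroup.of, ← MonoidHom.map_closure,
      FreeGroup.closure_range_of, ← MonoidHom.range_eq_map, QuotientGroup.range_mk']
  obtain ⟨h1, h2⟩ := hM _ (fun j => QuotientGroup.mk' V (FreeGroup.of j)) hF fun G _ hG g =>
    ⟨QuotientGroup.lift V (FreeGroup.lift g) (hk G hG g), fun j =>
      (QuotientGroup.lift_mk' _ _ _).trans (FreeGroup.lift_apply_of ..), fun φ hφ =>
      QuotientGroup.monoidHom_ext _ (FreeGroup.ext_hom _ _ fun j => (hφ j).trans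
        ((QuotientGroup.lift_mk' V (hk G hG g) _).trans (FreeGroup.lift_apply_of ..)).symm)⟩
  obtain ⟨M, h⟩ := GL.grp hx (res h1 h2) w (fun f => hF w hw _) (H w hw1)
  refine ⟨M, fun G _ hG => ?_⟩
  rw [eq_bot_iff]
  refine (der_le M).trans ((closure_le _).2 ?_)
  rintro _ ⟨y, rfl⟩
  have h3 : V ≤ (FreeGroup.lift (Function.extend (LB.ee M) y 1)).ker :=
    normalClosure_le_normal (by
      rintro _ ⟨w, hw, f, rfl⟩
      exact hG w hw ((FreeGroup.lift _).comp f))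
  have h4 := congrArg (QuotientGroup.lift V (FreeGroup.lift (Function.extend (LB.ee M) y 1)) h3) h
  rw [LB.uu, gev_map, map_one] at h4
  simpa [(LB.ee_inj M).extend_apply] using h4

end Pool.Agent.MP_2a197d_al.FN
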