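import Mathlib.Topology.Sheaves.Presheaf
import Mathlib.Tactic.Monotonicity.Lemmas
import Mathlib.Tactic.Bound
import Pool.Agent.MP_2a197d_al.Env

/-! A graded Lie algebra with nilpotent even part and property `PP` is solvable. -/

set_option linter.unusedSectionVars false

namespace Pool.Agent.MP_2a197d_al

open TensorProduct LieAlgebra T Function

theorem prod_nd {M : Type*} [CommMonoid M] (a b : T) (f : (T.nd a b).Lf → M) :
    ∏ i, f i = (∏ i, f (Sum.inl i)) * ∏ i, f (Sum.inr i) :=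
  @Fintype.prod_sum_type a.Lf b.Lf M (instFin a) (instFin b) _ f

theorem prod_lf {M : Type*} [CommMonoid M] (f : T.lf.Lf → M) : ∏ i, f i = f () :=
  Fintype.prod_unique (ι := Unit) f

section ml
variable {K M : Type*} [CommRing K] [LieRing M] [LieAlgebra K M]

/-- A commutator of commutators of pairs. -/
def gb (j : ℕ) (y : Bool × (cb j).Lf → M) : M := lev (cb j) fun r => ⁅y (false, r), y (true, r)⁆

theorem ml_gb (j : ℕ) : ML K (gb (M := M) j) := by
  have : ML K fun y : Bool → M => ⁅y false, y true⁆ := by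
    intro x i
    cases i
    · exact ⟨fun a b => by simp, fun c a => by simp⟩
    · exact ⟨fun a b => by simp, fun c a => by simp⟩
  exact (ml_lev (cb j)).blocks this

theorem ml_act {I : Type*} [DecidableEq I] (l : List I) (hl : l.Nodup) (hl' : ∀ i, i ∈ l) (z : M) :
    ML K fun h : I → M => act (l.map h) z := by
  intro x i
  obtain ⟨s, t, rfl⟩ := List.append_of_mem (hl' i)
  have hs : i ∉ s := fun h => (List.nodup_append.1 hl).2.2 i h i List.mem_cons_self rfl
  have ht : i ∉ t := (List.nodup_cons.1 (List.nodup_append.1 hl).2.1).1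
  have key : ∀ a, act ((s ++ i :: t).map (update x i a)) z = act (s.map x) ⁅a, act (t.map x) z⁆ := by
    intro a
    rw [List.map_append, List.map_cons, act_append, act_cons, update_self,
      List.map_congr_left fun k hk => update_of_ne (ne_of_mem_of_not_mem hk hs) a x,
      List.map_congr_left fun k hk => update_of_ne (ne_of_mem_of_not_mem hk ht) a x]
  have lin : ∀ s : List M, IsLinearMap K (act s) := by
    intro s
    induction s with
    | nil => exact ⟨fun _ _ => rfl, fun _ _ => rfl⟩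
    | cons y s ih =>
      exact ⟨fun a b => by rw [act_cons, ih.map_add, lie_add]; rfl,
        fun c a => by rw [act_cons, ih.map_smul, lie_smul]; rfl⟩
  simp only [key]
  exact ⟨fun a b => by rw [add_lie, (lin _).map_add], fun c a => by rw [smul_lie, (lin _).map_smul]⟩

theorem act_map {M' : Type*} [LieRing M'] (f : M → M') (hf : ∀ a b, f ⁅a, b⁆ = ⁅f a, f b⁆)
    (l : List M) (z : M) : f (act l z) = act (l.map f) (f z) := by
  induction l with
  | nil => rfl
  | cons x l ih => rw [act_cons, hf, ih]; rfl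

end ml

variable {L : Type*} [LieRing L] [LieAlgebra ℚ L] {c : ℕ} (Γ : Gr ℚ L c)

/-- A family is a sum of at most `n` commutators of factorable odd families. -/
def Terms {Λ : Type*} (n : ℕ) (s : ℤˣ) (G : Λ → CC ⊗[ℚ] L) : Prop :=
  ∃ l : List ((Λ → CC ⊗[ℚ] L) × (Λ → CC ⊗[ℚ] L)), l.length ≤ n ∧
    (∀ t ∈ l, ∃ p q, p * q = s ∧ Fact (fun _ => ()) p Γ.L1 t.1 ∧ Fact (fun _ => ()) q Γ.L1 t.2) ∧
    ∀ i, G i = (l.map fun t => ⁅t.1 i, t.2 i⁆).sum

theorem terms_cb {Λ : Type*} : ∀ (j : ℕ) (p q : (cb j).Lf → ℤˣ)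
    (a b : (cb j).Lf → Λ → CC ⊗[ℚ] L), (∀ r, Fact (fun _ => ()) (p r) Γ.L1 (a r)) →
    (∀ r, Fact (fun _ => ()) (q r) Γ.L1 (b r)) →
    Terms Γ (2 ^ j) (∏ r, (p r * q r)) fun i => lev (cb j) fun r => ⁅a r i, b r i⁆
  | 0, p, q, a, b, ha, hb => ⟨[(a (), b ())], le_rfl, by
      intro t ht
      rw [List.mem_singleton.1 ht]
      exact ⟨p (), q (), (prod_lf fun r => p r * q r).symm, ha (), hb ()⟩,
      fun i => (add_zero _).symm⟩
  | j + 1, p, q, a, b, ha, hb => by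
    obtain ⟨l, h1, h2, h3⟩ := terms_cb j (fun r => p (Sum.inr r)) (fun r => q (Sum.inr r))
      (fun r => a (Sum.inr r)) (fun r => b (Sum.inr r)) (fun r => ha _) fun r => hb _
    have hh := Fact.lie Γ.h11 (ha (Sum.inl ())) (hb (Sum.inl ()))
    set h : Λ → CC ⊗[ℚ] L := fun i => ⁅a (Sum.inl ()) i, b (Sum.inl ()) i⁆ with hd
    have hp : ∏ r, (p r * q r) =
        p (Sum.inl ()) * q (Sum.inl ()) * ∏ r, (p (Sum.inr r) * q (Sum.inr r)) := by
      rw [← prod_lf fun r => p (Sum.inl r) * q (Sum.inl r)]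
      exact prod_nd _ _ fun r => p r * q r
    refine ⟨l.map (fun t => (fun i => ⁅h i, t.1 i⁆, t.2)) ++
      l.map fun t => (t.1, fun i => ⁅h i, t.2 i⁆), by simp; omega, ?_, fun i => ?_⟩
    · intro t ht
      rcases List.mem_append.1 ht with ht | ht
      · obtain ⟨t, ht', rfl⟩ := List.mem_map.1 ht
        obtain ⟨p', q', e, f1, f2⟩ := h2 t ht'
        exact ⟨_, q', by rw [hp, ← e, mul_assoc _ p'], Fact.lie Γ.h01 hh f1, f2⟩
      · obtain ⟨t, ht', rfl⟩ := List.mem_map.1 ht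
        obtain ⟨p', q', e, f1, f2⟩ := h2 t ht'
        exact ⟨p', _, by rw [hp, ← e, mul_left_comm], f1, Fact.lie Γ.h01 hh f2⟩
    · refine (congrArg (fun w => ⁅h i, w⁆) (h3 i)).trans ?_
      clear h1 h2 h3
      induction l with
      | nil => simp
      | cons t l ih =>
        simp only [List.map_cons, List.sum_cons, List.map_append, List.sum_append, lie_add,
          leibniz_lie (h i)] at ih ⊢
        rw [ih]; abel

/-- Nilpotency index of the generators. -/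
def n0 (c k : ℕ) : ℕ := rr c (k + k) + c + 1

theorem term_gen {k : ℕ} (hP : PP CC (CC ⊗[ℚ] L) c k) {Λ : Type*} {p q : ℤˣ} (h : p * q = 1)
    {u v : Λ → CC ⊗[ℚ] L} (hu : Fact (fun _ => ()) p Γ.L1 u) (hv : Fact (fun _ => ()) q Γ.L1 v) :
    ∃ D : Finset (CC ⊗[ℚ] L), D.card ≤ 3 ∧ (∀ d ∈ D, d ∈ Γ.base.L0 ∧
      ∀ z ∈ Γ.base.L0 ⊔ Γ.base.L1, (ad CC _ d ^ n0 c k) z = 0) ∧
      ∀ i, ⁅u i, v i⁆ ∈ Submodule.span CC (D : Set (CC ⊗[ℚ] L)) := by
  classical
  have hpq : q = p := by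
    rcases Int.units_eq_one_or p with rfl | rfl <;> rcases Int.units_eq_one_or q with rfl | rfl <;>
      simp_all
  subst hpq
  rcases Int.units_eq_one_or q with rfl | rfl
  · obtain ⟨b, η, hb, h1⟩ := hu.even
    obtain ⟨b', η', hb', h1'⟩ := hv.even
    refine ⟨{⁅b (), b' ()⁆}, by simp, fun d hd => ?_, fun i => ?_⟩
    · rw [Finset.mem_singleton.1 hd]
      exact ⟨Γ.base.h11 _ (hb _) _ (hb' _), e1 Γ.base hP (hb _) (hb' _)⟩
    · rw [h1, h1', smul_lie, lie_smul]
      exact Submodule.smul_mem _ _ (Submodule.smul_mem _ _ (Submodule.subset_span (by simp)))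
  · obtain ⟨s, ξ, hs, hξ, h1⟩ := hu
    obtain ⟨s', ξ', hs', hξ', h1'⟩ := hv
    have key : ∀ w ∈ OO (-1) Γ.L1, ∃ d, jj d = br w w ∧ d ∈ Γ.base.L0 ∧
        ∀ z ∈ Γ.base.L0 ⊔ Γ.base.L1, (ad CC _ d ^ n0 c k) z = 0 := by
      intro w hw
      obtain ⟨d, hd, hd'⟩ := OO_even (W := Γ.L0) (s := br w w) (by simpa using br_OO Γ.h11 hw hw)
      refine ⟨d, hd', hd, fun z hz => ?_⟩
      rw [n0, add_assoc, pow_add, Module.End.mul_apply, odd_nil Γ hw hd hd' z hz, map_zero]
    obtain ⟨d1, e1, f1⟩ := key _ (hs ())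
    obtain ⟨d2, e2, f2⟩ := key _ (hs' ())
    obtain ⟨d3, e3, f3⟩ := key _ (Submodule.add_mem _ (hs ()) (hs' ()))
    refine ⟨{d1, d2, d3}, Finset.card_le_three, fun d hd => ?_, fun i => ?_⟩
    · simp only [Finset.mem_insert, Finset.mem_singleton] at hd
      rcases hd with rfl | rfl | rfl
      exacts [f1, f2, f3]
    · obtain ⟨η, hη⟩ := exists_val one_mem_Ep (s := 1) (f := ξ i * ξ' i)
        (by simpa using mul_mem_Ep (hξ i) (hξ' i))
      have : ⁅u i, v i⁆ = η • (2⁻¹ : ℚ) • (d3 - d1 - d2) := by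
        apply jj_inj
        rw [jj_lie, h1, h1', br_smul_left, br_smul_right (hs _), smul_smul,
          Algebra.TensorProduct.tmul_mul_tmul, one_mul, jj_smul, hη, map_smul, map_sub, map_sub,
          e1, e2, e3]
        congr 1
        simp only [map_add, LinearMap.add_apply, comm_odd (hs' ()) (hs ())]
        module
      rw [this]
      refine Submodule.smul_mem _ _ (Submodule.smul_of_tower_mem _ _ (Submodule.sub_mem _
        (Submodule.sub_mem _ ?_ ?_) ?_)) <;> exact Submodule.subset_span (by simp)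

theorem terms_gen {k : ℕ} (hP : PP CC (CC ⊗[ℚ] L) c k) {Λ : Type*} {n : ℕ} {G : Λ → CC ⊗[ℚ] L}
    (h : Terms Γ n 1 G) : ∃ D : Finset (CC ⊗[ℚ] L), D.card ≤ 3 * n ∧ (∀ d ∈ D, d ∈ Γ.base.L0 ∧
      ∀ z ∈ Γ.base.L0 ⊔ Γ.base.L1, (ad CC _ d ^ n0 c k) z = 0) ∧
      ∀ i, G i ∈ Submodule.span CC (D : Set (CC ⊗[ℚ] L)) := by
  classical
  obtain ⟨l, h1, h2, h3⟩ := h
  simp only [h3]
  clear h3
  induction l generalizing n with
  | nil => exact ⟨∅, by simp, by simp, by simp⟩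
  | cons t l ih =>
    obtain ⟨D, e1, e2, e3⟩ := ih (n := l.length) le_rfl fun t ht => h2 t (List.mem_cons_of_mem _ ht)
    obtain ⟨p, q, hpq, f1, f2⟩ := h2 t List.mem_cons_self
    obtain ⟨D', e1', e2', e3'⟩ := term_gen Γ hP hpq f1 f2
    refine ⟨D' ∪ D, (Finset.card_union_le _ _).trans (by simp at h1; omega), fun d hd => ?_,
      fun i => ?_⟩
    · rcases Finset.mem_union.1 hd with hd | hd
      exacts [e2' d hd, e2 d hd]
    · rw [List.map_cons, List.sum_cons]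
      exact Submodule.add_mem _ (Submodule.span_mono (by simp) (e3' i))
        (Submodule.span_mono (by simp) (e3 i))

/-- Number of equal blocks needed. -/
def t0 (c k : ℕ) : ℕ := ((3 * 2 ^ c + 1) ^ c * n0 c k + 1) ^ c

/-- Number of blocks needed. -/
def m1 (c k : ℕ) : ℕ := t0 c k ^ 2 ^ (2 * c)

/-- Commutators of odd elements. -/
def Gr.D : Set L := {u | ∃ a ∈ Γ.L1, ∃ b ∈ Γ.L1, u = ⁅a, b⁆}

theorem Gr.D_sub : Γ.D ⊆ Γ.L0 := by
  rintro _ ⟨a, ha, b, hb, rfl⟩; exact Γ.h11 a ha b hb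

theorem gb_mem : ∀ (j : ℕ) (y : Bool × (cb j).Lf → L), (∀ p, y p ∈ Γ.L1) → gb j y ∈ LN Γ.D j
  | 0, _, h => ⟨_, h _, _, h _, rfl⟩
  | j + 1, y, h => ⟨_, ⟨_, h (false, Sum.inl ()), _, h (true, Sum.inl ()), rfl⟩, _,
      gb_mem j (fun p => y (p.1, Sum.inr p.2)) fun _ => h _, rfl⟩

theorem level {k : ℕ} (hP : PP ℚ L c k) {j : ℕ} (hj : j < c) (U U' : Submodule ℚ L)
    (hUV : U ≤ Γ.L0 ⊔ Γ.L1) (hU : Stab (NN ℚ Γ.D 0 : Set L) U) (hU' : Stab (NN ℚ Γ.D 0 : Set L) U')
    (h : ∀ x ∈ NN ℚ Γ.D (j + 1), ∀ z ∈ U, ⁅x, z⁆ ∈ U') : Kills (LN Γ.D j) (m1 c k) U U' := by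
  classical
  intro l hl hm z hz
  have hS : LN Γ.D j ⊆ NN ℚ Γ.D 0 := fun x hx => NN_anti _ (by omega) (LN_sub _ j hx)
  have ht : 2 ≤ t0 c k := by
    have h1 : 0 < (3 * 2 ^ c + 1) ^ c * n0 c k := Nat.mul_pos (by positivity) (Nat.succ_pos _)
    exact le_trans (by omega) (Nat.le_self_pow (by omega) _)
  let P : List (Fin l.length) → ((Bool × (cb j).Lf) × Fin l.length → Γ.L1) → L := fun l1 Y =>
    act (l1.map fun i => gb j fun p => (Y (p, i) : L)) z
  have hperm : ∀ l1 l2 Y, l1.Perm l2 → U'.mkQ (P l1 Y) = U'.mkQ (P l2 Y) := by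
    intro l1 l2 Y h12
    refine (Submodule.Quotient.eq U').2 (act_perm (hU.mono hS) (hU'.mono hS) (fun x hx y hy z hz =>
      h _ (NN_anti _ (by omega) (lie_NN (LN_sub _ j hx) (LN_sub _ j hy))) z hz) (h12.map _) ?_ hz)
    intro x hx
    obtain ⟨i, -, rfl⟩ := List.mem_map.1 hx
    exact gb_mem Γ j _ fun p => (Y (p, i)).2
  have hall : ∀ l1 : List (Fin l.length), l1.Nodup → (∀ i, i ∈ l1) → l1.Perm (List.finRange _) :=
    fun l1 h1 h2 => (List.perm_ext_iff_of_nodup h1 (List.nodup_finRange _)).2 fun i => by simp [h2]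
  have hF : (fun Y => U'.mkQ (P (List.finRange _) Y)) = 0 := by
    refine mc (rho (Bool × (cb j).Lf) (Fin l.length) Γ.L1 (L ⧸ U')) (t0 c k) ?_ fun π R hR => ?_
    · rw [Fintype.card_fin, hm, Fintype.card_prod, card_cb, Fintype.card_bool]
      exact Nat.pow_le_pow_right (by omega) (Nat.pow_le_pow_right (by omega) (by omega))
    rcases Int.units_eq_one_or (∏ p, π p) with hπ | hπ
    · funext Y
      let l1 := Rᶜ.toList ++ R.toList
      have h1 : l1.Nodup := List.Nodup.append (Finset.nodup_toList _) (Finset.nodup_toList _)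
        fun i h1 h2 => (Finset.mem_compl.1 (Finset.mem_toList.1 h1)) (Finset.mem_toList.1 h2)
      have h2 : ∀ i, i ∈ l1 := fun i => by by_cases hi : i ∈ R <;> simp [l1, hi]
      have h3 := grass Fin.val Fin.val_injective (fun p => (Fintype.equivFin _ p : ℕ))
        (Fin.val_injective.comp (Fintype.equivFin _).injective)
        (fun y : Γ.L1 => (1 : CC) ⊗ₜ[ℚ] (y : L)) (P l1)
        (fun Y => act (l1.map fun i => gb j fun p => Y (p, i)) ((1 : CC) ⊗ₜ[ℚ] z))
        ((ml_act l1 h1 h2 _).blocks (ml_gb j)) (fun Y => by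
          have hf : ∀ a b : L, (1 : CC) ⊗ₜ[ℚ] ⁅a, b⁆ = ⁅(1 : CC) ⊗ₜ[ℚ] a, (1 : CC) ⊗ₜ[ℚ] b⁆ := by simp
          rw [act_map (fun x : L => (1 : CC) ⊗ₜ[ℚ] x) hf, List.map_map]
          congr 2
          funext i
          simp only [gb, comp_apply]
          rw [ev_map (fun x : L => (1 : CC) ⊗ₜ[ℚ] x) hf]
          simp only [hf]) π R Y (by
          let y : Bool × (cb j).Lf → Fin l.length → CC ⊗[ℚ] L := fun p i =>
            ∑ a ∈ R, cc (π p) (Fintype.equivFin _ p) a i • (1 : CC) ⊗ₜ[ℚ] (Y (p, a) : L)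
          have hy : ∀ p, Fact (fun _ => ()) (π p) Γ.L1 (y p) := fun p =>
            fact_gen (fun _ => ()) (π p) _ Fin.val (fun _ => R) (fun _ => Fin.val)
              (fun _ a => (Y (p, a) : L)) fun _ a => (Y (p, a)).2
          have h4 := terms_cb Γ j _ _ _ _ (fun r => hy (false, r)) fun r => hy (true, r)
          have h5 : ∏ r, π (false, r) * π (true, r) = 1 := by
            rw [← hπ, Fintype.prod_prod_type_right]
            exact Finset.prod_congr rfl fun r _ => by rw [Fintype.prod_bool, mul_comm]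
          rw [h5] at h4
          obtain ⟨D, e1, e2, e3⟩ := terms_gen Γ (hP.base CC) h4
          have hD : (D : Set (CC ⊗[ℚ] L)) ⊆ Γ.base.L0 := fun d hd => (e2 d hd).1
          have h6 := gl (K := CC) D (3 * 2 ^ c) (n0 c k) c (e1.trans (Nat.mul_le_mul_left _
            (Nat.pow_le_pow_right (by omega) hj.le))) _ (Γ.base.stab.mono (Γ.base.NN_le hD))
            (Γ.base.NN_bot hD) (fun s hs => (e2 s hs).2)
            (R.toList.map fun i => gb j fun p => y p i) (by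
              intro x hx
              obtain ⟨i, -, rfl⟩ := List.mem_map.1 hx
              exact (Submodule.span_le.2 (LN_sub (D : Set (CC ⊗[ℚ] L)) 0)) (e3 i))
            (by simp [hR, t0]) ((1 : CC) ⊗ₜ[ℚ] z) (by
              obtain ⟨a, ha, b, hb, rfl⟩ := Submodule.mem_sup.1 (hUV hz)
              rw [tmul_add]
              exact Submodule.add_mem_sup (Submodule.tmul_mem_baseChange_of_mem _ ha)
                (Submodule.tmul_mem_baseChange_of_mem _ hb))
          rw [List.map_append, act_append, List.map_congr_left (l := R.toList)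
            (g := fun i => gb j fun p => y p i) fun i hi => by
              simp only [gen, if_pos (Finset.mem_toList.1 hi), y],
            (Submodule.mem_bot _).1 h6, act_zero])
      rw [sym_rho_apply] at h3 ⊢
      simp only [← hperm l1 _ _ (hall l1 h1 h2), ← map_smul, ← map_sum, h3, map_zero, Pi.zero_apply]
    · obtain ⟨a, ha, b, hb, hab⟩ := Finset.one_lt_card.1 (by omega : 1 < R.card)
      have h1 := sym_rho (rho (Bool × (cb j).Lf) (Fin l.length) Γ.L1 (L ⧸ U')) π (fun _ => R)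
        (τ := fun _ => Equiv.swap a b) (fun _ => swap_mem_Sp ha hb)
        fun Y => U'.mkQ (P (List.finRange _) Y)
      have h2 : rho (Bool × (cb j).Lf) (Fin l.length) Γ.L1 (L ⧸ U') (fun _ => Equiv.swap a b)
          (fun Y => U'.mkQ (P (List.finRange _) Y)) = fun Y => U'.mkQ (P (List.finRange _) Y) := by
        funext Y
        rw [← hperm ((List.finRange _).map (Equiv.swap a b)) _ Y (hall _
          ((List.nodup_finRange _).map (Equiv.injective _)) fun i =>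
            List.mem_map.2 ⟨Equiv.swap a b i, List.mem_finRange _, by simp⟩)]
        simp only [P, List.map_map]
        rfl
      have h3 : chm π (fun _ => Equiv.swap a b) = -1 := by
        rw [chm_apply, Finset.prod_congr rfl fun p _ => ch_swap (π p) hab]
        have : ∏ p, sq (π p) = sq (∏ p, π p) := by simp [sq]
        rw [this, hπ]; simp [sq]
      rw [h2, h3, neg_one_smul, eq_neg_iff_add_eq_zero, ← two_smul ℚ] at h1
      exact (smul_eq_zero.1 h1).resolve_left two_ne_zero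
  have hx : ∀ i : Fin l.length, ∃ y : Bool × (cb j).Lf → Γ.L1, gb j (fun p => (y p : L)) = l.get i := by
    intro i
    obtain ⟨x, h1, h2⟩ := LN_tree (hl _ (List.get_mem l i))
    choose a ha b hb hab using h1
    refine ⟨fun p => if p.1 then ⟨b p.2, hb _⟩ else ⟨a p.2, ha _⟩, ?_⟩
    rw [← h2, funext hab]; rfl
  choose y hy using hx
  have := congrFun hF fun p => y p.2 p.1
  simp only [P, hy, List.map_get_finRange, Pi.zero_apply] at this
  exact (Submodule.Quotient.mk_eq_zero U').1 this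

/-- The derived length bound. -/
def starN (c k : ℕ) : ℕ := 0 + c + m1 c k ^ c + c

theorem star {k : ℕ} (hP : PP ℚ L c k) :
    Der (starN c k) ((Γ.L0 ⊔ Γ.L1 : Submodule ℚ L) : Set L) {0} := by
  have hV : Stab (NN ℚ Γ.D 0 : Set L) (Γ.L0 ⊔ Γ.L1) := Γ.stab.mono (Γ.NN_le Γ.D_sub)
  have hK := fn Γ.D c (m1 c k) _ hV (Γ.NN_bot Γ.D_sub) fun j hj => level Γ hP hj
  set N := m1 c k ^ c
  let A : Submodule ℚ L := Submodule.span ℚ Γ.D
  have hA : A ≤ Γ.L0 := Submodule.span_le.2 Γ.D_sub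
  have hA0 : A ≤ NN ℚ Γ.D 0 := Submodule.span_le.2 (LN_sub Γ.D 0)
  have hI : ∀ x ∈ Γ.L0, ∀ y ∈ A, ⁅x, y⁆ ∈ A := by
    intro x hx y hy
    refine Submodule.span_induction (p := fun y _ => ⁅x, y⁆ ∈ A) ?_ (by simp) ?_ ?_ hy
    · rintro _ ⟨a, ha, b, hb, rfl⟩
      rw [leibniz_lie]
      exact A.add_mem (Submodule.subset_span ⟨_, Γ.h01 x hx a ha, b, hb, rfl⟩)
        (Submodule.subset_span ⟨a, ha, _, Γ.h01 x hx b hb, rfl⟩)
    · intro a b _ _ ha hb; rw [lie_add]; exact A.add_mem ha hb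
    · intro r a _ ha; rw [lie_smul]; exact A.smul_mem r ha
  have step : ∀ A1 W1 A2 W2 : Submodule ℚ L, W1 ≤ Γ.L1 → A ≤ A2 →
      (∀ x ∈ A1, ∀ y ∈ A1, ⁅x, y⁆ ∈ A2) → (∀ x ∈ A1, ∀ y ∈ W1, ⁅x, y⁆ ∈ W2) →
      ∀ a ∈ ((A1 ⊔ W1 : Submodule ℚ L) : Set L), ∀ b ∈ ((A1 ⊔ W1 : Submodule ℚ L) : Set L),
        ⁅a, b⁆ ∈ ((A2 ⊔ W2 : Submodule ℚ L) : Set L) := by
    intro A1 W1 A2 W2 h1 h2 h3 h4 a ha b hb
    obtain ⟨x, hx, y, hy, rfl⟩ := Submodule.mem_sup.1 ha
    obtain ⟨x', hx', y', hy', rfl⟩ := Submodule.mem_sup.1 hb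
    have : ⁅x + y, x' + y'⁆ = (⁅x, x'⁆ + ⁅y, y'⁆) + (⁅x, y'⁆ - ⁅x', y⁆) := by
      rw [add_lie, lie_add, lie_add, ← lie_skew y x']; abel
    rw [this]
    exact Submodule.add_mem_sup (A2.add_mem (h3 x hx x' hx')
      (h2 (Submodule.subset_span ⟨y, h1 hy, y', h1 hy', rfl⟩)))
      (W2.sub_mem (h4 x hx y' hy') (h4 x' hx' y hy))
  have d1 := Der.chain (fun i => ((((Γ.L0 ⊓ Γ.G i) ⊔ A) ⊔ Γ.L1 : Submodule ℚ L) : Set L))
    ((der_zero ((Γ.L0 ⊔ Γ.L1 : Submodule ℚ L) : Set L)).mono (by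
      refine SetLike.coe_mono (sup_le_sup_right (le_sup_of_le_left (le_inf le_rfl Γ.hG0)) _))) c
    fun i _ => step _ _ _ _ le_rfl le_sup_right (by
      intro x hx y hy
      have hx' : x ∈ Γ.L0 := (sup_le inf_le_left hA) hx
      obtain ⟨u, hu, v, hv, rfl⟩ := Submodule.mem_sup.1 hy
      rw [lie_add]
      exact Submodule.add_mem_sup ⟨Γ.h00 x hx' u hu.1, Γ.hG i x hx' u hu.2⟩ (hI x hx' v hv))
      fun x hx => Γ.h01 x ((sup_le inf_le_left hA) hx)
  have d2 := Der.chain (fun i => ((A ⊔ (Γ.L1 ⊓ Zc (NN ℚ Γ.D 0 : Set L) (Γ.L0 ⊔ Γ.L1) (N - i)) :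
      Submodule ℚ L) : Set L)) (d1.mono (by
      refine SetLike.coe_mono (sup_le_sup (by simp [Γ.hGc]) (le_inf le_rfl fun z hz => ?_))
      exact mem_Zc_of hV _ (Submodule.mem_sup_right hz) fun l h1 h2 =>
        (Submodule.mem_bot ℚ).1 (hK l h1 h2 z (Submodule.mem_sup_right hz)))) N
    fun i hi => step _ _ _ _ inf_le_left le_rfl (fun x hx => hI x (hA hx)) fun x hx y hy => by
      refine ⟨Γ.h01 x (hA hx) y hy.1, ?_⟩
      have h2 := hy.2
      rw [show N - i = N - (i + 1) + 1 by omega] at h2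
      exact (mem_Zc.1 h2).2 x (hA0 hx)
  have d3 := Der.chain (fun i => ((Γ.L0 ⊓ Γ.G i : Submodule ℚ L) : Set L)) (d2.mono (by
      refine SetLike.coe_mono (sup_le (hA.trans (le_inf le_rfl Γ.hG0)) ?_)
      simp [Zc])) c
    fun i _ x hx y hy => ⟨Γ.h00 x hx.1 y hy.1, Γ.hG i x hx.1 y hy.2⟩
  exact d3.mono (by simp [Γ.hGc])

end Pool.Agent.MP_2a197d_al
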