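import Mathlib.Algebra.Lie.Derivation.Basic
import Mathlib.Algebra.Lie.Quotient
import Mathlib.Analysis.SpecificLimits.Normed
import Mathlib.GroupTheory.Nilpotent
import Pool.Agent.MP_2a197d_al.Env
import Pool.Agent.MP_2a197d_al.Star

-- ======== part 0: formerly Pool.Agent.MP_2a197d_al.GrL
section MrgPart0

/-! The graded Lie ring of a strongly central series of a group. -/

set_option linter.unusedSectionVars false

namespace Pool.Agent.MP_2a197d_al

open scoped commutatorElement DirectSum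

/-- Strongly central series, indexed from `0`. -/
structure NS (G : Type*) [Group G] where
  /-- the terms -/
  H : ℕ → Subgroup G
  top : ∀ g, g ∈ H 0
  anti : Antitone H
  comm : ∀ i j, ∀ a ∈ H i, ∀ b ∈ H j, ⁅a, b⁆ ∈ H (i + j + 1)

namespace NS

variable {G : Type*} [Group G] (S : NS G)

theorem cm {i j n : ℕ} {a b : G} (ha : a ∈ S.H i) (hb : b ∈ S.H j) (h : n ≤ i + j + 1) :
    ⁅a, b⁆ ∈ S.H n := S.anti h (S.comm i j a ha b hb)

theorem conj {i : ℕ} {a : G} (ha : a ∈ S.H i) (g : G) : g * a * g⁻¹ ∈ S.H i := by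
  have : g * a * g⁻¹ = ⁅g, a⁆ * a := by simp [commutatorElement_def]
  rw [this]
  exact mul_mem (S.cm (S.top g) ha (by omega)) ha

instance normal (i : ℕ) : (S.H i).Normal := ⟨fun _ ha g => S.conj ha g⟩

/-- The factors of the series. -/
def Q (i : ℕ) : Type _ := S.H i ⧸ (S.H (i + 1)).subgroupOf (S.H i)

instance (i : ℕ) : CommGroup (S.Q i) :=
  { (inferInstance : Group (S.H i ⧸ (S.H (i + 1)).subgroupOf (S.H i))) with
    mul_comm := by
      intro x y
      induction x using QuotientGroup.induction_on with | _ a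
      induction y using QuotientGroup.induction_on with | _ b
      change ((a * b : S.H i) : S.H i ⧸ (S.H (i + 1)).subgroupOf (S.H i)) = (b * a : S.H i)
      rw [QuotientGroup.eq, Subgroup.mem_subgroupOf]
      have : (((a * b)⁻¹ * (b * a) : S.H i) : G) = ⁅(b : G)⁻¹, (a : G)⁻¹⁆ := by
        simp [commutatorElement_def, mul_assoc]
      rw [this]
      exact S.cm (inv_mem b.2) (inv_mem a.2) (by omega) }

/-- The projection to a factor. -/
def qk (i : ℕ) : S.H i →* S.Q i := QuotientGroup.mk' ((S.H (i + 1)).subgroupOf (S.H i))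

/-- The graded group. -/
def gr : Type _ := ⨁ i, Additive (S.Q i)

instance : AddCommGroup S.gr := (inferInstance : AddCommGroup (⨁ i, Additive (S.Q i)))

/-- Inclusion of a factor. -/
def of (i : ℕ) : Additive (S.Q i) →+ S.gr := DirectSum.of (fun i => Additive (S.Q i)) i

open Classical in
/-- The class of a group element in degree `i`. -/
noncomputable def sy (i : ℕ) (a : G) : S.gr :=
  if h : a ∈ S.H i then S.of i (Additive.ofMul (S.qk i ⟨a, h⟩)) else 0

theorem sy_def {i : ℕ} {a : G} (h : a ∈ S.H i) :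
    S.sy i a = S.of i (Additive.ofMul (S.qk i ⟨a, h⟩)) := dif_pos h

theorem sy_mul {i : ℕ} {a b : G} (ha : a ∈ S.H i) (hb : b ∈ S.H i) :
    S.sy i (a * b) = S.sy i a + S.sy i b := by
  rw [S.sy_def ha, S.sy_def hb, S.sy_def (mul_mem ha hb), ← map_add, ← ofMul_mul, ← map_mul]
  rfl

theorem sy_eq_zero {i : ℕ} {a : G} (ha : a ∈ S.H i) : S.sy i a = 0 ↔ a ∈ S.H (i + 1) := by
  have h : Function.Injective (S.of i) :=
    DirectSum.of_injective (β := fun i => Additive (S.Q i)) i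
  rw [S.sy_def ha, map_eq_zero_iff (S.of i) h, ofMul_eq_zero]
  exact (QuotientGroup.eq_one_iff _).trans Subgroup.mem_subgroupOf

theorem sy_zero {i : ℕ} {a : G} (ha : a ∈ S.H (i + 1)) : S.sy i a = 0 :=
  (S.sy_eq_zero (S.anti (Nat.le_succ i) ha)).2 ha

theorem sy_one (i : ℕ) : S.sy i 1 = 0 := S.sy_zero (one_mem _)

theorem sy_inv {i : ℕ} {a : G} (ha : a ∈ S.H i) : S.sy i a⁻¹ = -S.sy i a := by
  rw [eq_neg_iff_add_eq_zero, ← S.sy_mul (inv_mem ha) ha, inv_mul_cancel, sy_one]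

theorem sy_pow {i : ℕ} {a : G} (ha : a ∈ S.H i) (n : ℕ) : S.sy i (a ^ n) = n • S.sy i a := by
  induction n with
  | zero => simp [sy_one]
  | succ n ih => rw [pow_succ, S.sy_mul (pow_mem ha n) ha, ih, succ_nsmul]

theorem sy_conj {i : ℕ} {a : G} (ha : a ∈ S.H i) (g : G) : S.sy i (g * a * g⁻¹) = S.sy i a := by
  have : g * a * g⁻¹ = ⁅g, a⁆ * a := by simp [commutatorElement_def]
  rw [this, S.sy_mul (S.cm (S.top g) ha (by omega)) ha, S.sy_zero (S.cm (S.top g) ha (by omega)),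
    zero_add]

@[elab_as_elim]
theorem ind {P : S.gr → Prop} (x : S.gr) (h0 : P 0) (hs : ∀ i, ∀ a ∈ S.H i, P (S.sy i a))
    (ha : ∀ x y, P x → P y → P (x + y)) : P x := by
  refine DirectSum.induction_on (motive := P) x h0 (fun i y => ?_) ha
  obtain ⟨a, h⟩ := QuotientGroup.mk'_surjective ((S.H (i + 1)).subgroupOf (S.H i)) y.toMul
  have := hs i a a.2
  rw [S.sy_def a.2] at this
  have h2 : Additive.ofMul (S.qk i ⟨a, a.2⟩) = y := congrArg Additive.ofMul h
  rwa [h2] at this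

theorem hom_ext {M : Type*} [AddCommGroup M] {f g : S.gr →+ M}
    (h : ∀ i, ∀ a ∈ S.H i, f (S.sy i a) = g (S.sy i a)) : f = g := by
  ext x
  refine S.ind x (by simp) h fun x y hx hy => by rw [map_add, map_add, hx, hy]

/-- Additive maps out of the graded group. -/
def lift {M : Type*} [AddCommGroup M] (f : ∀ i, S.H i → M)
    (h1 : ∀ i a b, f i (a * b) = f i a + f i b)
    (h2 : ∀ i (a : S.H i), (a : G) ∈ S.H (i + 1) → f i a = 0) : S.gr →+ M :=
  DirectSum.toAddMonoid fun i => MonoidHom.toAdditiveLeft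
    (QuotientGroup.lift ((S.H (i + 1)).subgroupOf (S.H i))
      (MonoidHom.mk' (fun a => Multiplicative.ofAdd (f i a)) fun a b => by rw [h1]; rfl)
      fun a ha => congrArg Multiplicative.ofAdd (h2 i a ha) : S.Q i →* Multiplicative M)

theorem lift_sy {M : Type*} [AddCommGroup M] {f : ∀ i, S.H i → M} {h1 h2} {i : ℕ} {a : G}
    (ha : a ∈ S.H i) : S.lift f h1 h2 (S.sy i a) = f i ⟨a, ha⟩ := by
  rw [S.sy_def ha]
  exact DirectSum.toAddMonoid_of _ i _

theorem sy_cm_left {i j : ℕ} {a a' b : G} (ha : a ∈ S.H i) (ha' : a' ∈ S.H i) (hb : b ∈ S.H j) :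
    S.sy (i + j + 1) ⁅a * a', b⁆ = S.sy (i + j + 1) ⁅a, b⁆ + S.sy (i + j + 1) ⁅a', b⁆ := by
  rw [commutatorElement_mul_left_eq_conj_mul,
    S.sy_mul (S.conj (S.comm _ _ _ ha' _ hb) _) (S.comm _ _ _ ha _ hb),
    S.sy_conj (S.comm _ _ _ ha' _ hb), add_comm]

theorem sy_cm_right {i j : ℕ} {a b b' : G} (ha : a ∈ S.H i) (hb : b ∈ S.H j) (hb' : b' ∈ S.H j) :
    S.sy (i + j + 1) ⁅a, b * b'⁆ = S.sy (i + j + 1) ⁅a, b⁆ + S.sy (i + j + 1) ⁅a, b'⁆ := by
  have : ⁅a, b * b'⁆ = ⁅a, b⁆ * (b * ⁅a, b'⁆ * b⁻¹) := by simp [commutatorElement_def, mul_assoc]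
  rw [this, S.sy_mul (S.comm _ _ _ ha _ hb) (S.conj (S.comm _ _ _ ha _ hb') _),
    S.sy_conj (S.comm _ _ _ ha _ hb')]

/-- Bracket with a fixed group element. -/
noncomputable def br1 (i : ℕ) (a : S.H i) : S.gr →+ S.gr :=
  S.lift (fun j b => S.sy (i + j + 1) ⁅(a : G), (b : G)⁆)
    (fun _ b b' => S.sy_cm_right a.2 b.2 b'.2) fun _ _ h => S.sy_zero (S.cm a.2 h (by omega))

/-- The bracket. -/
noncomputable def br : S.gr →+ S.gr →+ S.gr :=
  S.lift S.br1
    (fun i a a' => S.hom_ext fun j b hb => by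
      simp only [br1, AddMonoidHom.add_apply, S.lift_sy hb]
      exact S.sy_cm_left a.2 a'.2 hb)
    fun i a h => S.hom_ext fun j b hb => by
      simp only [br1, S.lift_sy hb]
      exact S.sy_zero (S.cm h hb (by omega))

theorem br_sy {i j : ℕ} {a b : G} (ha : a ∈ S.H i) (hb : b ∈ S.H j) :
    S.br (S.sy i a) (S.sy j b) = S.sy (i + j + 1) ⁅a, b⁆ := by
  rw [br, S.lift_sy ha, br1, S.lift_sy hb]

theorem br_skew (x y : S.gr) : S.br x y + S.br y x = 0 := by
  have : S.br + S.br.flip = 0 := S.hom_ext fun i a ha => S.hom_ext fun j b hb => by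
    change S.br _ _ + S.br _ _ = 0
    rw [S.br_sy ha hb, S.br_sy hb ha, add_comm j i, ← commutatorElement_inv a b,
      S.sy_inv (S.comm _ _ _ ha _ hb), add_neg_cancel]
  exact DFunLike.congr_fun (DFunLike.congr_fun this x) y

theorem key {p q e : ℕ} {a b a' b' : G} (ha : a ∈ S.H p) (hb : b ∈ S.H q)
    (ha' : a' ∈ S.H (p + e + 1)) (hb' : b' ∈ S.H (q + e + 1)) :
    ⁅a' * a, b' * b⁆ * ⁅a, b⁆⁻¹ ∈ S.H (p + q + 1 + e + 1) ∧
    S.sy (p + q + 1 + e + 1) (⁅a' * a, b' * b⁆ * ⁅a, b⁆⁻¹) =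
      S.sy (p + e + 1 + q + 1) ⁅a', b⁆ + S.sy (p + (q + e + 1) + 1) ⁅a, b'⁆ := by
  have e1 : p + e + 1 + q + 1 = p + q + 1 + e + 1 := by omega
  have e2 : p + (q + e + 1) + 1 = p + q + 1 + e + 1 := by omega
  rw [e1, e2]
  have h : ⁅a' * a, b' * b⁆ * ⁅a, b⁆⁻¹ = a' * ⁅a, b'⁆ * a'⁻¹ * (⁅a' * b', ⁅a, b⁆⁆ *
      (⁅a, b⁆ * (⁅a', b'⁆ * (b' * ⁅a', b⁆ * b'⁻¹)) * ⁅a, b⁆⁻¹)) := by
    simp only [commutatorElement_def]; group
  have h1 : ⁅a, b'⁆ ∈ S.H (p + q + 1 + e + 1) := S.cm ha hb' (by omega)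
  have h2 : ⁅a' * b', ⁅a, b⁆⁆ ∈ S.H (p + q + 1 + e + 1 + 1) :=
    S.cm (i := e + 1) (mul_mem (S.anti (by omega) ha') (S.anti (by omega) hb'))
      (S.comm _ _ _ ha _ hb) (by omega)
  have h3 : ⁅a', b'⁆ ∈ S.H (p + q + 1 + e + 1 + 1) := S.cm ha' hb' (by omega)
  have h4 : ⁅a', b⁆ ∈ S.H (p + q + 1 + e + 1) := S.cm ha' hb (by omega)
  have h2' := S.anti (Nat.le_succ _) h2
  have h3' := S.anti (Nat.le_succ _) h3
  have h5 := mul_mem h3' (S.conj h4 b')
  refine ⟨h ▸ mul_mem (S.conj h1 _) (mul_mem h2' (S.conj h5 _)), ?_⟩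
  rw [h, S.sy_mul (S.conj h1 _) (mul_mem h2' (S.conj h5 _)), S.sy_conj h1,
    S.sy_mul h2' (S.conj h5 _), S.sy_conj h5, S.sy_mul h3' (S.conj h4 _), S.sy_conj h4,
    S.sy_zero h2, S.sy_zero h3, zero_add, zero_add, add_comm]

noncomputable instance : LieRing S.gr where
  bracket x y := S.br x y
  add_lie x y z := by change S.br (x + y) z = _; rw [map_add]; rfl
  lie_add x y z := map_add (S.br x) y z
  lie_self x := by
    change S.br x x = 0
    refine S.ind x (by simp) (fun i a ha => ?_) fun x y hx hy => ?_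
    · rw [S.br_sy ha ha, commutatorElement_self, sy_one]
    · simp only [map_add, AddMonoidHom.add_apply, hx, hy, zero_add, add_zero]
      exact S.br_skew _ _
  leibniz_lie x y z := by
    change S.br x (S.br y z) = S.br (S.br x y) z + S.br y (S.br x z)
    refine S.ind x (by simp) (fun i g hg => ?_) fun x x' hx hx' => ?_
    · refine S.ind y (by simp) (fun p a ha => ?_) fun x x' hx hx' => ?_
      · refine S.ind z (by simp) (fun q b hb => ?_) fun x x' hx hx' => ?_
        · have h1 : ⁅g, a⁆ ∈ S.H (p + i + 1) := S.cm hg ha (by omega)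
          have h2 : ⁅g, b⁆ ∈ S.H (q + i + 1) := S.cm hg hb (by omega)
          rw [S.br_sy ha hb, S.br_sy hg ha, S.br_sy hg hb, S.br_sy hg (S.comm _ _ _ ha _ hb),
            add_comm i p, add_comm i q, S.br_sy h1 hb, S.br_sy ha h2, ← (S.key ha hb h1 h2).2,
            add_comm i]
          congr 1
          simp only [commutatorElement_def]; group
        · simp only [map_add, hx, hx']; abel
      · simp only [map_add, AddMonoidHom.add_apply, hx, hx']; abel
    · simp only [map_add, AddMonoidHom.add_apply, hx, hx']; abel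

theorem lie_sy {i j : ℕ} {a b : G} (ha : a ∈ S.H i) (hb : b ∈ S.H j) :
    ⁅S.sy i a, S.sy j b⁆ = S.sy (i + j + 1) ⁅a, b⁆ := S.br_sy ha hb

theorem lie_ext {M : Type*} [AddCommGroup M] {f g : S.gr → S.gr → M}
    (hf1 : ∀ x x' y, f (x + x') y = f x y + f x' y) (hf2 : ∀ x y y', f x (y + y') = f x y + f x y')
    (hg1 : ∀ x x' y, g (x + x') y = g x y + g x' y) (hg2 : ∀ x y y', g x (y + y') = g x y + g x y')
    (h : ∀ i j, ∀ a ∈ S.H i, ∀ b ∈ S.H j, f (S.sy i a) (S.sy j b) = g (S.sy i a) (S.sy j b))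
    (x y : S.gr) : f x y = g x y := by
  have z1 : ∀ {f : S.gr → S.gr → M}, (∀ x x' y, f (x + x') y = f x y + f x' y) →
      ∀ y, f 0 y = 0 := fun h y => by simpa using h 0 0 y
  have z2 : ∀ {f : S.gr → S.gr → M}, (∀ x y y', f x (y + y') = f x y + f x y') →
      ∀ y, f y 0 = 0 := fun h y => by simpa using h y 0 0
  refine S.ind x (by rw [z1 hf1, z1 hg1]) (fun i a ha => ?_) fun x x' hx hx' => ?_
  · refine S.ind y (by rw [z2 hf2, z2 hg2]) (fun j b hb => h i j a ha b hb) fun y y' hy hy' => ?_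
    rw [hf2, hg2, hy, hy']
  · rw [hf1, hg1, hx, hx']

/-- The map induced by an endomorphism preserving the series. -/
noncomputable def mp (φ : G →* G) (h : ∀ i, ∀ a ∈ S.H i, φ a ∈ S.H i) : S.gr →+ S.gr :=
  S.lift (fun i a => S.sy i (φ a))
    (fun i a b => by rw [Subgroup.coe_mul, map_mul, S.sy_mul (h i _ a.2) (h i _ b.2)])
    fun i _ ha => S.sy_zero (h _ _ ha)

theorem mp_sy {φ : G →* G} {h} {i : ℕ} {a : G} (ha : a ∈ S.H i) :
    S.mp φ h (S.sy i a) = S.sy i (φ a) := S.lift_sy ha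

theorem mp_lie (φ : G →* G) (h) (x y : S.gr) : S.mp φ h ⁅x, y⁆ = ⁅S.mp φ h x, S.mp φ h y⁆ := by
  refine S.lie_ext (f := fun x y => S.mp φ h ⁅x, y⁆) (g := fun x y => ⁅S.mp φ h x, S.mp φ h y⁆)
    (by simp) (by simp) (by simp) (by simp) (fun i j a ha b hb => ?_) x y
  rw [S.lie_sy ha hb, S.mp_sy (S.comm _ _ _ ha _ hb), S.mp_sy ha, S.mp_sy hb,
    S.lie_sy (h _ _ ha) (h _ _ hb), map_commutatorElement]

/-- The derivation induced by an endomorphism close to the identity. -/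
noncomputable def dd (φ : G →* G) (e : ℕ) (h : ∀ i, ∀ a ∈ S.H i, φ a * a⁻¹ ∈ S.H (i + e + 1)) :
    S.gr →+ S.gr :=
  S.lift (fun i a => S.sy (i + e + 1) (φ a * (a : G)⁻¹))
    (fun i a b => by
      have : φ (a * b : S.H i) * ((a * b : S.H i) : G)⁻¹ =
          φ a * (a : G)⁻¹ * (a * (φ b * (b : G)⁻¹) * (a : G)⁻¹) := by
        rw [Subgroup.coe_mul, map_mul]; group
      rw [this, S.sy_mul (h i _ a.2) (S.conj (h i _ b.2) _), S.sy_conj (h i _ b.2)])
    fun i _ ha => S.sy_zero (S.anti (by omega) (h _ _ ha))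

theorem dd_sy {φ : G →* G} {e : ℕ} {h} {i : ℕ} {a : G} (ha : a ∈ S.H i) :
    S.dd φ e h (S.sy i a) = S.sy (i + e + 1) (φ a * a⁻¹) := S.lift_sy ha

theorem dd_lie (φ : G →* G) (e : ℕ) (h) (x y : S.gr) :
    S.dd φ e h ⁅x, y⁆ = ⁅S.dd φ e h x, y⁆ + ⁅x, S.dd φ e h y⁆ := by
  refine S.lie_ext (f := fun x y => S.dd φ e h ⁅x, y⁆)
    (g := fun x y => ⁅S.dd φ e h x, y⁆ + ⁅x, S.dd φ e h y⁆)
    (by simp) (by simp) (fun _ _ _ => by simp only [map_add, add_lie]; abel)
    (fun _ _ _ => by simp only [map_add, lie_add]; abel) (fun i j a ha b hb => ?_) x y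
  rw [S.lie_sy ha hb, S.dd_sy (S.comm _ _ _ ha _ hb), S.dd_sy ha, S.dd_sy hb,
    S.lie_sy (h _ _ ha) hb, S.lie_sy ha (h _ _ hb), ← (S.key ha hb (h _ _ ha) (h _ _ hb)).2,
    map_commutatorElement]
  simp

theorem dd_nil (φ : G →* G) (e : ℕ) (h) {n : ℕ} (hn : ∀ m, n ≤ m → S.H m ≤ S.H (m + 1))
    (x : S.gr) : (S.dd φ e h)^[n] x = 0 := by
  have h1 : ∀ k i, ∀ a ∈ S.H i, ∃ j, k ≤ j ∧ ∃ b ∈ S.H j,
      (S.dd φ e h)^[k] (S.sy i a) = S.sy j b := by
    intro k i a ha
    induction k with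
    | zero => exact ⟨i, by omega, a, ha, rfl⟩
    | succ k ih =>
      obtain ⟨j, hj, b, hb, h2⟩ := ih
      exact ⟨j + e + 1, by omega, _, h j b hb, by rw [Function.iterate_succ_apply', h2, S.dd_sy hb]⟩
  refine S.ind x (iterate_map_zero _ _) (fun i a ha => ?_) fun x y hx hy => ?_
  · obtain ⟨j, hj, b, hb, h2⟩ := h1 n i a ha
    rw [h2, S.sy_zero (hn j hj hb)]
  · rw [iterate_map_add, hx, hy, add_zero]

/-- Group commutator of a tree. -/
abbrev _root_.Pool.Agent.MP_2a197d_al.gev (t : T) (x : t.Lf → G) : G :=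
  T.ev (fun a b => ⁅a, b⁆) t x

theorem sy_gev : ∀ (t : T) (x : t.Lf → G), gev t x ∈ S.H (Fintype.card t.Lf - 1) ∧
    S.sy (Fintype.card t.Lf - 1) (gev t x) = lev t fun i => S.sy 0 (x i)
  | .lf, x => ⟨S.top _, rfl⟩
  | .nd a b, x => by
    obtain ⟨h1, h2⟩ := sy_gev a fun i => x (Sum.inl i)
    obtain ⟨h3, h4⟩ := sy_gev b fun i => x (Sum.inr i)
    have e : Fintype.card (T.nd a b).Lf - 1 =
        Fintype.card a.Lf - 1 + (Fintype.card b.Lf - 1) + 1 := by
      have := a.card_pos; have := b.card_pos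
      rw [T.card_nd]; omega
    rw [e]
    refine ⟨S.comm _ _ _ h1 _ h3, ?_⟩
    change S.sy _ ⁅gev a _, gev b _⁆ = ⁅lev a _, lev b _⁆
    rw [← S.lie_sy h1 h3, h2, h4]

end NS

end Pool.Agent.MP_2a197d_al

end MrgPart0

-- ======== part 1: formerly Pool.Agent.MP_2a197d_al.Gam
section MrgPart1

/-! The lower central series: endomorphisms, dilation, and tree laws. -/

set_option linter.unusedSectionVars false

namespace Pool.Agent.MP_2a197d_al

open scoped commutatorElement Pointwise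
open Subgroup T

variable {G : Type*} [Group G]

theorem three {A B C N : Subgroup G} [N.Normal] (h1 : ⁅⁅B, C⁆, A⁆ ≤ N) (h2 : ⁅⁅C, A⁆, B⁆ ≤ N) :
    ⁅⁅A, B⁆, C⁆ ≤ N := by
  rw [← QuotientGroup.ker_mk' N, ← Subgroup.map_eq_bot_iff, map_commutator, map_commutator] at h1 h2 ⊢
  exact commutator_commutator_eq_bot_of_rotate h1 h2

theorem gam_comm (j : ℕ) : ∀ i, ⁅(⊤ : Subgroup G).lowerCentralSeries i,
    (⊤ : Subgroup G).lowerCentralSeries j⁆ ≤ (⊤ : Subgroup G).lowerCentralSeries (i + j + 1) := by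
  induction j with
  | zero => exact fun i => le_rfl
  | succ j ih =>
    intro i
    rw [commutator_comm, Subgroup.lowerCentralSeries_succ ⊤ j]
    refine three ?_ ?_
    · rw [commutator_comm ⊤, ← Subgroup.lowerCentralSeries_succ]
      exact (ih (i + 1)).trans (Subgroup.lowerCentralSeries_antitone _ (by omega))
    · exact commutator_mono (ih i) le_rfl

variable (G) in
/-- The lower central series as a strongly central series. -/
def gs : NS G where
  H := Subgroup.lowerCentralSeries ⊤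
  top _ := mem_top _
  anti := Subgroup.lowerCentralSeries_antitone _
  comm i j _ ha _ hb := gam_comm j i (commutator_mem_commutator ha hb)

/-- Truncation of a series. -/
def NS.tr (S : NS G) (n : ℕ) : NS G where
  H i := S.H (min i n)
  top g := by simpa using S.top g
  anti _ _ h := S.anti (min_le_min_right n h)
  comm _ _ _ ha _ hb := S.cm ha hb (by omega)

theorem gs_map (φ : G →* G) (i : ℕ) (a : G) (ha : a ∈ (gs G).H i) : φ a ∈ (gs G).H i := by
  have h : ((⊤ : Subgroup G).lowerCentralSeries i).map φ ≤ (⊤ : Subgroup G).lowerCentralSeries i := by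
    clear ha
    induction i with
    | zero => exact le_top
    | succ i ih =>
      rw [Subgroup.lowerCentralSeries_succ, map_commutator]
      exact commutator_mono ih le_top
  exact h (mem_map_of_mem φ ha)

theorem close (φ : G →* G) (N : Subgroup G) [N.Normal] {s : Set G}
    (h : ∀ a ∈ s, φ a * a⁻¹ ∈ N) {a : G} (ha : a ∈ closure s) : φ a * a⁻¹ ∈ N := by
  have h1 : Set.EqOn ((QuotientGroup.mk' N).comp φ) (QuotientGroup.mk' N) s := fun b hb =>
    QuotientGroup.eq_iff_div_mem.2 (by simpa only [div_eq_mul_inv] using h b hb)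
  simpa only [div_eq_mul_inv] using QuotientGroup.eq_iff_div_mem.1 (MonoidHom.eqOn_closure h1 ha)

theorem andre (φ : G →* G) (e : ℕ) (h : ∀ g, φ g * g⁻¹ ∈ (gs G).H (e + 1)) (i : ℕ) :
    ∀ a ∈ (gs G).H i, φ a * a⁻¹ ∈ (gs G).H (i + e + 1) := by
  induction i with
  | zero => intro a _; simpa using h a
  | succ i ih =>
    intro a ha
    refine close φ _ ?_ ((Subgroup.mem_lowerCentralSeries_succ_iff ⊤ i a).1 ha)
    rintro _ ⟨p, hp, q, -, rfl⟩
    have := ((gs G).key (q := 0) hp ((gs G).top q) (ih p hp) (by simpa using h q)).1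
    simpa [map_commutatorElement] using this

theorem scale (φ : G →* G) (a : ℕ) (h0 : ∀ g, (gs G).sy 0 (φ g) = a • (gs G).sy 0 g) (m : ℕ) :
    ∀ w ∈ (gs G).H m, (gs G).sy m (φ w) = a ^ (m + 1) • (gs G).sy m w := by
  induction m with
  | zero => intro w _; simpa using h0 w
  | succ m ih =>
    intro w hw
    refine closure_induction (p := fun w _ => (gs G).sy (m + 1) (φ w) =
      a ^ (m + 1 + 1) • (gs G).sy (m + 1) w) ?_ ?_ ?_ ?_
      ((Subgroup.mem_lowerCentralSeries_succ_iff ⊤ m w).1 hw)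
    · rintro _ ⟨p, hp, q, -, rfl⟩
      have h1 := (gs G).lie_sy hp ((gs G).top q)
      have h2 := (gs G).lie_sy (gs_map φ _ _ hp) ((gs G).top (φ q))
      rw [add_zero] at h1 h2
      rw [map_commutatorElement, ← h1, ← h2, ih p hp, h0, nsmul_lie, lie_nsmul, smul_smul,
        ← pow_succ]
    · simp [NS.sy_one]
    · intro x y hx hy h1 h2
      rw [map_mul, (gs G).sy_mul (i := m + 1) hx hy,
        (gs G).sy_mul (gs_map φ (m + 1) _ hx) (gs_map φ (m + 1) _ hy), h1, h2, smul_add]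
    · intro x hx h1
      rw [map_inv, (gs G).sy_inv (i := m + 1) hx, (gs G).sy_inv (gs_map φ (m + 1) _ hx), h1,
        smul_neg]

theorem scale_gen (φ : G →* G) (a : ℕ) {s : Set G} (hs : closure s = ⊤)
    (h : ∀ g ∈ s, (gs G).sy 0 (φ g) = a • (gs G).sy 0 g) (g : G) :
    (gs G).sy 0 (φ g) = a • (gs G).sy 0 g := by
  refine closure_induction (p := fun g _ => (gs G).sy 0 (φ g) = a • (gs G).sy 0 g) h ?_ ?_ ?_
    (hs ▸ mem_top g)
  · simp [NS.sy_one]
  · intro x y _ _ h1 h2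
    rw [map_mul, (gs G).sy_mul ((gs G).top _) ((gs G).top _),
      (gs G).sy_mul ((gs G).top _) ((gs G).top _), h1, h2, smul_add]
  · intro x _ h1
    rw [map_inv, (gs G).sy_inv ((gs G).top _), (gs G).sy_inv ((gs G).top _), h1, smul_neg]

/-- Sets closed under conjugation. -/
def CI (U : Set G) : Prop := ∀ g, ∀ u ∈ U, g * u * g⁻¹ ∈ U

theorem CI.pow {U : Set G} (h : CI U) (n : ℕ) : CI (U ^ n) := by
  induction n with
  | zero => intro g u hu; simp_all
  | succ n ih =>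
    intro g u hu
    rw [pow_succ] at hu ⊢
    obtain ⟨a, ha, b, hb, rfl⟩ := hu
    exact ⟨_, ih g a ha, _, h g b hb, by group⟩

theorem comm_pow {A B U : Set G} (hU : CI U) (h : ∀ a ∈ A, ∀ b ∈ B, ⁅a, b⁆ ∈ U) (p q : ℕ) :
    ∀ a ∈ A ^ p, ∀ b ∈ B ^ q, ⁅a, b⁆ ∈ U ^ (p * q) := by
  have h1 : ∀ a ∈ A, ∀ b ∈ B ^ q, ⁅a, b⁆ ∈ U ^ q := by
    intro a ha
    induction q with
    | zero => intro b hb; simp_all
    | succ q ih =>
      intro b hb
      rw [pow_succ] at hb ⊢
      obtain ⟨b, hb, b', hb', rfl⟩ := hb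
      exact ⟨_, ih b hb, _, hU b _ (h a ha b' hb'), by simp [commutatorElement_def, mul_assoc]⟩
  induction p with
  | zero => intro a ha; simp_all
  | succ p ih =>
    intro a ha b hb
    rw [pow_succ'] at ha
    obtain ⟨a, ha, a', ha', rfl⟩ := ha
    rw [Nat.succ_mul, pow_add]
    exact ⟨_, hU.pow _ a _ (ih a' ha' b hb), _, h1 a ha b hb,
      (commutatorElement_mul_left_eq_conj_mul _ _ _).symm⟩

theorem gev_map {G' : Type*} [Group G'] (f : G →* G') (t : T) (x : t.Lf → G) :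
    f (gev t x) = gev t fun i => f (x i) := ev_map f (map_commutatorElement f) t x

/-- Values of a tree at conjugates of a tuple. -/
def VC (t : T) (x : t.Lf → G) : Set G :=
  Set.range fun h : t.Lf → G => gev t fun i => h i * x i * (h i)⁻¹

theorem VC_ci (t : T) (x : t.Lf → G) : CI (VC t x) := by
  rintro g _ ⟨h, rfl⟩
  refine ⟨fun i => g * h i, ?_⟩
  have := gev_map (MulAut.conj g).toMonoidHom t fun i => h i * x i * (h i)⁻¹
  refine Eq.trans ?_ this.symm
  simp [mul_assoc]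

theorem gev_sq : ∀ (t : T) (x : t.Lf → G),
    (gev t fun i => x i ^ 2) ∈ VC t x ^ 2 ^ Fintype.card t.Lf
  | .lf, x => by
    have : x () ∈ VC .lf x := ⟨fun _ => 1, by simp [gev, ev]⟩
    exact Set.pow_mem_pow this
  | .nd a b, x => by
    rw [card_nd, pow_add]
    refine comm_pow (VC_ci _ x) ?_ _ _ _ (gev_sq a fun i => x (Sum.inl i)) _
      (gev_sq b fun i => x (Sum.inr i))
    rintro _ ⟨h, rfl⟩ _ ⟨h', rfl⟩
    exact ⟨Sum.elim h h', rfl⟩

theorem sy_pow_set (S : NS G) {m : ℕ} {U : Set G} {v : S.gr}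
    (h : ∀ u ∈ U, u ∈ S.H m ∧ S.sy m u = v) (n : ℕ) : ∀ u ∈ U ^ n, u ∈ S.H m ∧ S.sy m u = n • v := by
  induction n with
  | zero => intro u hu; simp_all [one_mem, NS.sy_one]
  | succ n ih =>
    intro u hu
    rw [pow_succ] at hu
    obtain ⟨a, ha, b, hb, rfl⟩ := hu
    refine ⟨mul_mem (ih a ha).1 (h b hb).1, ?_⟩
    rw [S.sy_mul (ih a ha).1 (h b hb).1, (ih a ha).2, (h b hb).2, succ_nsmul]

/-- A relatively free generating sequence. -/
structure RF (x : ℕ → G) : Prop where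
  gen : closure (Set.range x) = ⊤
  ex : ∀ g : ℕ → G, ∃ φ : G →* G, ∀ j, φ (x j) = g j

/-- Torsion-free lower central factors. -/
def TF (G : Type*) [Group G] : Prop :=
  ∀ m, ∀ g ∈ (gs G).H m, ∀ k : ℕ, k ≠ 0 → g ^ k ∈ (gs G).H (m + 1) → g ∈ (gs G).H (m + 1)

theorem dilate {x : ℕ → G} (hx : RF x) (hT : TF G) (t : T) (e : t.Lf → ℕ)
    (he : Function.Injective e) (h : (gev t fun i => x (e i)) ∈ (gs G).H (Fintype.card t.Lf))
    (m : ℕ) : (gev t fun i => x (e i)) ∈ (gs G).H m := by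
  induction m with
  | zero => exact (gs G).top _
  | succ m ih =>
    by_cases hm : m + 1 ≤ Fintype.card t.Lf
    · exact (gs G).anti hm h
    obtain ⟨φ, hφ⟩ := hx.ex fun j => x j ^ 2
    have h1 := scale φ 2 (scale_gen φ 2 hx.gen (by
      rintro _ ⟨j, rfl⟩
      rw [hφ, (gs G).sy_pow ((gs G).top _)])) m _ ih
    have h2 := (sy_pow_set (gs G) (m := m) (U := VC t fun i => x (e i))
      (v := (gs G).sy m (gev t fun i => x (e i))) (by
        rintro _ ⟨g, rfl⟩
        obtain ⟨ψ, hψ⟩ := hx.ex fun j =>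
          Function.extend e g 1 j * x j * (Function.extend e g 1 j)⁻¹
        have h3 := scale ψ 1 (scale_gen ψ 1 hx.gen (by
          rintro _ ⟨j, rfl⟩
          rw [hψ, (gs G).sy_conj ((gs G).top _), one_smul])) m _ ih
        have h4 := gs_map ψ m _ ih
        rw [gev_map] at h3 h4
        simp only [hψ, he.extend_apply, one_pow, one_smul] at h3 h4
        exact ⟨h4, h3⟩) _ _ (gev_sq t fun i => x (e i))).2
    rw [gev_map] at h1
    simp only [hφ] at h1
    have h5 : 2 ^ Fintype.card t.Lf < 2 ^ (m + 1) := Nat.pow_lt_pow_right (by norm_num) (by omega)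
    refine hT m _ ih (2 ^ (m + 1) - 2 ^ Fintype.card t.Lf) (by omega) ?_
    rw [← (gs G).sy_eq_zero (pow_mem ih _), (gs G).sy_pow ih, sub_nsmul _ h5.le, ← h1, h2]
    simp

theorem der_le (M : ℕ) : derivedSeries G M ≤ closure (Set.range (gev (G := G) (full M))) := by
  have hc : ∀ M, (closure (Set.range (gev (G := G) (full M)))).Normal := by
    intro M
    refine ⟨fun a ha g => ?_⟩
    have : (closure (Set.range (gev (G := G) (full M)))).map (MulAut.conj g).toMonoidHom ≤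
        closure (Set.range (gev (G := G) (full M))) := by
      rw [MonoidHom.map_closure]
      refine closure_mono ?_
      rintro _ ⟨_, ⟨y, rfl⟩, rfl⟩
      exact ⟨_, (gev_map _ _ y).symm⟩
    exact this (mem_map_of_mem _ ha)
  induction M with
  | zero => exact fun g _ => subset_closure ⟨fun _ => g, rfl⟩
  | succ M ih =>
    rw [derivedSeries_succ]
    refine (commutator_mono ih ih).trans ?_
    have := hc (M + 1)
    rw [← QuotientGroup.ker_mk' (closure (Set.range (gev (G := G) (full (M + 1))))),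
      ← Subgroup.map_eq_bot_iff, map_commutator, commutator_eq_bot_iff_le_centralizer,
      MonoidHom.map_closure, centralizer_closure, closure_le]
    rintro _ ⟨_, ⟨y, rfl⟩, rfl⟩ _ ⟨_, ⟨z, rfl⟩, rfl⟩
    rw [← commutatorElement_eq_one_iff_mul_comm, ← map_commutatorElement]
    exact (QuotientGroup.eq_one_iff _).2 (subset_closure ⟨Sum.elim z y, rfl⟩)

theorem graft_full (N : ℕ) : ∀ D, graft (full D) (full N) = full (N + D)
  | 0 => rfl
  | D + 1 => by
    change T.nd (graft (full D) (full N)) (graft (full D) (full N)) = _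
    rw [graft_full N D]; rfl

/-- Derived series of a subgroup, in the ambient group. -/
def dS (N : Subgroup G) : ℕ → Subgroup G
  | 0 => N
  | k + 1 => ⁅dS N k, dS N k⁆

theorem dS_map {G' : Type*} [Group G'] (f : G →* G') (N : Subgroup G) (k : ℕ) :
    (dS N k).map f = dS (N.map f) k := by
  induction k with
  | zero => rfl
  | succ k ih => rw [dS, map_commutator, ih, dS]

theorem dS_top (k : ℕ) : dS (⊤ : Subgroup G) k = derivedSeries G k := by
  induction k with
  | zero => rfl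
  | succ k ih => rw [dS, ih, derivedSeries_succ]

theorem dS_mono {A B : Subgroup G} (h : A ≤ B) (k : ℕ) : dS A k ≤ dS B k := by
  induction k with
  | zero => exact h
  | succ k ih => exact commutator_mono ih ih

theorem dS_add (A : Subgroup G) (k l : ℕ) : dS A (k + l) = dS (dS A k) l := by
  induction l with
  | zero => rfl
  | succ l ih => rw [← add_assoc, dS, ih, dS]

theorem exists_sol {g : G} (h : g ∈ sSup {N : Subgroup G | N.Normal ∧ Group.IsSolvable N}) :
    ∃ (N : Subgroup G) (k : ℕ), N.Normal ∧ dS N k = ⊥ ∧ g ∈ N := by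
  have h1 : sSup {N : Subgroup G | N.Normal ∧ Group.IsSolvable N} ≤
      sSup {N : Subgroup G | N.Normal ∧ ∃ k, dS N k = ⊥} := by
    refine sSup_le_sSup ?_
    rintro N ⟨h1, k, hk⟩
    refine ⟨h1, k, ?_⟩
    rw [← dS_top] at hk
    have := dS_map N.subtype ⊤ k
    rwa [hk, Subgroup.map_bot, ← MonoidHom.range_eq_map, subtype_range, eq_comm] at this
  obtain ⟨N, ⟨h2, k, h3⟩, h4⟩ := (mem_sSup_of_directedOn
      (K := {N : Subgroup G | N.Normal ∧ ∃ k, dS N k = ⊥}) ⟨⊥, inferInstance, 0, rfl⟩ (by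
    rintro A ⟨hA, k, hk⟩ B ⟨hB, l, hl⟩
    refine ⟨A ⊔ B, ⟨inferInstance, k + l, ?_⟩, le_sup_left, le_sup_right⟩
    have h5 : dS (A ⊔ B) k ≤ B := by
      have h6 : B.map (QuotientGroup.mk' B) = ⊥ := by
        rw [Subgroup.map_eq_bot_iff, QuotientGroup.ker_mk']
      have h7 : (dS (A ⊔ B) k).map (QuotientGroup.mk' B) = ⊥ := by
        rw [dS_map, Subgroup.map_sup, h6, sup_bot_eq, ← dS_map, hk, Subgroup.map_bot]
      rwa [Subgroup.map_eq_bot_iff, QuotientGroup.ker_mk'] at h7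
    rw [dS_add, eq_bot_iff, ← hl]
    exact dS_mono h5 l)).1 (h1 h)
  exact ⟨N, k, h2, h3, h4⟩

end Pool.Agent.MP_2a197d_al

end MrgPart1

-- ======== part 2: formerly Pool.Agent.MP_2a197d_al.LieMain
section MrgPart2

/-! Lie algebras over the rationals with property `PP` are solvable. -/

set_option linter.unusedSectionVars false

namespace Pool.Agent.MP_2a197d_al

open TensorProduct LieAlgebra T Function

theorem exists_depth (e : ℕ) : ∃ D : ℕ, (D + 2) ^ e ≤ 2 ^ D := by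
  have h := (tendsto_pow_const_div_const_pow_of_one_lt e (r := 2) (by norm_num)).eventually
    (gt_mem_nhds (show (0 : ℝ) < 1 / 4 by norm_num))
  obtain ⟨N, hN⟩ := Filter.eventually_atTop.1 h
  refine ⟨N, ?_⟩
  have h1 := hN (N + 2) (by omega)
  rw [div_lt_iff₀ (by positivity), pow_add] at h1
  have : (((N + 2 : ℕ) : ℝ)) ^ e ≤ 2 ^ N := by linarith
  exact_mod_cast this

variable {L : Type*} [LieRing L] [LieAlgebra ℚ L]

theorem uniform {c k : ℕ} (hP : PP ℚ L c k) {Λ Θ : Type*} (β : Λ → Θ)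
    (A : (full (starN c k)).Lf → Fam fun _ : Λ => CC ⊗[ℚ] L) (π : (full (starN c k)).Lf → ℤˣ)
    (hA : ∀ j, Fact β (π j) ⊤ (A j)) : ∃ K, ∀ θ, ∃ I : LieIdeal CC (CC ⊗[ℚ] L),
      derivedSeriesOfIdeal CC _ K I = ⊥ ∧ ∀ i, β i = θ → lev (full (starN c k)) A i ∈ I := by
  have hC := hP.base CC
  let F := Fam fun _ : Λ => CC ⊗[ℚ] L
  let J : LieIdeal ℚ F :=
    { carrier := {u | ∃ K, ∀ θ, ∃ I : LieIdeal CC (CC ⊗[ℚ] L),
        derivedSeriesOfIdeal CC _ K I = ⊥ ∧ ∀ i, β i = θ → u i ∈ I}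
      add_mem' := by
        rintro u v ⟨K, hK⟩ ⟨K', hK'⟩
        refine ⟨K + K', fun θ => ?_⟩
        obtain ⟨I, h1, h2⟩ := hK θ
        obtain ⟨I', h1', h2'⟩ := hK' θ
        refine ⟨I + I', ?_, fun i hi => add_mem (LieSubmodule.mem_sup_left (h2 i hi))
          (LieSubmodule.mem_sup_right (h2' i hi))⟩
        have := derivedSeriesOfIdeal_add_le_add I I' K K'
        rw [h1, h1'] at this
        simpa using this
      zero_mem' := ⟨0, fun _ => ⟨⊥, rfl, fun _ _ => zero_mem _⟩⟩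
      smul_mem' := by
        rintro r u ⟨K, hK⟩
        refine ⟨K, fun θ => ?_⟩
        obtain ⟨I, h1, h2⟩ := hK θ
        exact ⟨I, h1, fun i hi => I.toSubmodule.smul_of_tower_mem r (h2 i hi)⟩
      lie_mem := by
        rintro x u ⟨K, hK⟩
        refine ⟨K, fun θ => ?_⟩
        obtain ⟨I, h1, h2⟩ := hK θ
        exact ⟨I, h1, fun i hi => I.lie_mem (h2 i hi)⟩ }
  let f : F →ₗ[ℚ] F ⧸ J := J.toSubmodule.mkQ
  have hf : ∀ x y, f ⁅x, y⁆ = ⁅f x, f y⁆ := fun x y => rfl
  have hQ : PP ℚ (F ⧸ J) c k := PP.image (K' := ℚ) f.toAddMonoidHom hf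
    (Submodule.mkQ_surjective _) (fun s => ⟨s, fun w => f.map_smul s w⟩)
    (PP.sub (K := CC) (L' := F) Fam.at (fun _ _ _ => rfl)
      (fun _ r => ⟨algebraMap ℚ CC r, fun w => (algebraMap_smul CC r _).symm⟩)
      (fun _ h => funext h) fun _ => hC)
  let S : ℤˣ → Set (F ⧸ J) := fun p => f '' {y | Fact β p ⊤ y}
  have hspan : ∀ {S1 S2 : Set (F ⧸ J)} {U : Submodule ℚ (F ⧸ J)},
      (∀ x ∈ S1, ∀ y ∈ S2, ⁅x, y⁆ ∈ U) → ∀ x ∈ Submodule.span ℚ S1, ∀ y ∈ Submodule.span ℚ S2,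
        ⁅x, y⁆ ∈ U := by
    intro S1 S2 U h x hx y hy
    refine Submodule.span_induction₂ (p := fun x y _ _ => ⁅x, y⁆ ∈ U) (fun x y hx hy => h x hx y hy)
      (by simp) (by simp) ?_ ?_ ?_ ?_ hx hy
    · intro a b c _ _ _ h1 h2; rw [add_lie]; exact U.add_mem h1 h2
    · intro a b c _ _ _ h1 h2; rw [lie_add]; exact U.add_mem h1 h2
    · intro r a b _ _ h1; rw [smul_lie]; exact U.smul_mem r h1
    · intro r a b _ _ h1; rw [lie_smul]; exact U.smul_mem r h1
  have hS : ∀ p q r, p * q = r → ∀ x ∈ Submodule.span ℚ (S p), ∀ y ∈ Submodule.span ℚ (S q),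
      ⁅x, y⁆ ∈ Submodule.span ℚ (S r) := by
    rintro p q _ rfl
    refine hspan ?_
    rintro _ ⟨x, hx, rfl⟩ _ ⟨y, hy, rfl⟩
    exact Submodule.subset_span ⟨⁅x, y⁆, Fact.lie (W'' := ⊤) (fun _ _ _ _ => trivial) hx hy, hf x y⟩
  let Γ : Gr ℚ (F ⧸ J) c :=
    { L0 := Submodule.span ℚ (S 1)
      L1 := Submodule.span ℚ (S (-1))
      G := fun i => Submodule.span ℚ (LN (S 1) i)
      h00 := hS _ _ _ (by simp)
      h01 := hS _ _ _ (by simp)
      h11 := hS _ _ _ (by simp)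
      hG0 := le_rfl
      hG := fun i => hspan fun x hx y hy => Submodule.subset_span ⟨x, hx, y, hy, rfl⟩
      hGc := by
        rw [Submodule.span_eq_bot]
        intro u hu
        obtain ⟨x, hx, rfl⟩ := LN_tree hu
        choose y hy hy' using hx
        rw [← funext hy', lev, ← ev_map f hf]
        refine (Submodule.Quotient.mk_eq_zero _).2 ⟨k, fun θ => ?_⟩
        choose b η _ hb using fun r => Fact.even (hy r)
        refine ⟨_, hC fun r => b r θ, fun i hi => ?_⟩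
        have := Fam.lev_apply (cb c) y i
        refine (congrArg (· ∈ _) this).mpr ?_
        simp only [hb, hi]
        rw [(ml_lev (K := CC) (cb c)).smul_univ]
        exact SMulMemClass.smul_mem _ (LieSubmodule.subset_lieSpan rfl) }
  have h1 := star Γ hQ (fun j => f (A j)) fun j => by
    rcases Int.units_eq_one_or (π j) with h | h
    · exact Submodule.mem_sup_left (Submodule.subset_span ⟨A j, h ▸ hA j, rfl⟩)
    · exact Submodule.mem_sup_right (Submodule.subset_span ⟨A j, h ▸ hA j, rfl⟩)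
  rw [Set.mem_singleton_iff, lev, ← ev_map f hf] at h1
  exact (Submodule.Quotient.mk_eq_zero _).1 h1

theorem lieMain {c k : ℕ} (hP : PP ℚ L c k) :
    ∃ D N : ℕ, ∀ x : (graft (full D) (full N)).Lf → L, lev (graft (full D) (full N)) x = 0 := by
  classical
  let J := (full (starN c k)).Lf
  let Θ := Σ D : ℕ, Finset (full D).Lf × (J × (full D).Lf → L)
  let Λ := Σ θ : Θ, (full θ.1).Lf
  let κ : ∀ D, (full D).Lf → ℕ := fun D a => Fintype.equivFin _ a
  have hκ : ∀ D, Injective (κ D) := fun D =>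
    Fin.val_injective.comp (Fintype.equivFin _).injective
  let lam : J → ℕ := fun j => Fintype.equivFin _ j
  let A : (J → ℤˣ) → J → Fam fun _ : Λ => CC ⊗[ℚ] L := fun π j i =>
    ∑ a ∈ i.1.2.1, cc (π j) (lam j) (κ _ a) (κ _ i.2) • (1 : CC) ⊗ₜ[ℚ] i.1.2.2 (j, a)
  have hA : ∀ π j, Fact (Sigma.fst : Λ → Θ) (π j) ⊤ (A π j) := by
    intro π j
    have := fact_gen (W := ⊤) (Sigma.fst : Λ → Θ) (π j) (lam j) (fun i => κ _ i.2)
      (fun θ => θ.2.1.map ⟨κ θ.1, hκ _⟩)
      (fun _ a => a) (fun θ a => extend (κ θ.1) (fun b => θ.2.2 (j, b)) 0 a) fun _ _ => trivial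
    convert this using 1
    funext i
    rw [Finset.sum_map]
    refine Finset.sum_congr rfl fun a _ => ?_
    simp only [Embedding.coeFn_mk]
    rw [(hκ _).extend_apply]
  choose K hK using fun π => uniform hP (Sigma.fst : Λ → Θ) (A π) π (hA π)
  let K0 := Finset.univ.sup K
  obtain ⟨D, hD⟩ := exists_depth ((K0 + 1) * 2 ^ Fintype.card J)
  refine ⟨D, starN c k, fun x => ?_⟩
  have hF : (fun Y : J × (full D).Lf → L =>
      lev (full D) fun i => lev (full (starN c k)) fun j => Y (j, i)) = 0 := by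
    refine mc (rho J (full D).Lf L L) ((D + 1) ^ K0 + 1) ?_ fun π R hR => ?_
    · rw [card_full D]
      refine le_trans (Nat.pow_le_pow_left ?_ _) ((pow_mul _ _ _).symm.trans_le hD)
      have h1 : (D + 1) ^ K0 ≤ (D + 2) ^ K0 := Nat.pow_le_pow_left (by omega) _
      have h2 : 0 < (D + 2) ^ K0 := by positivity
      rw [pow_succ]; nlinarith
    funext Y
    have hf : ∀ a b : L, (1 : CC) ⊗ₜ[ℚ] ⁅a, b⁆ = ⁅(1 : CC) ⊗ₜ[ℚ] a, (1 : CC) ⊗ₜ[ℚ] b⁆ := by simp
    refine grass (κ D) (hκ D) lam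
      (Fin.val_injective.comp (Fintype.equivFin _).injective) (fun y : L => (1 : CC) ⊗ₜ[ℚ] y) _
      (fun Y => lev (full D) fun i => lev (full (starN c k)) fun j => Y (j, i))
      ((ml_lev _).blocks (ml_lev _)) (fun Y => ?_) π R Y ?_
    · rw [ev_map (fun x : L => (1 : CC) ⊗ₜ[ℚ] x) hf]
      congr 1
      funext i
      rw [ev_map (fun x : L => (1 : CC) ⊗ₜ[ℚ] x) hf]
    · obtain ⟨I, h1, h2⟩ := hK π ⟨D, R, Y⟩
      have h3 := derivedSeriesOfIdeal_antitone I (Finset.le_sup (f := K) (Finset.mem_univ π))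
        (strahler I D K0 (fun i => lev (full (starN c k)) fun j =>
          gen (κ D) lam (fun y : L => (1 : CC) ⊗ₜ[ℚ] y) π R Y (j, i)) R (fun i hi => by
            have := h2 ⟨⟨D, R, Y⟩, i⟩ rfl
            rw [Fam.lev_apply] at this
            simpa only [gen, if_pos hi] using this) (by omega))
      rwa [h1, LieSubmodule.mem_bot] at h3
  rw [lev, ev_graft]
  exact congrFun hF fun p => x (inj _ _ p.2 p.1)

end Pool.Agent.MP_2a197d_al

end MrgPart2

-- ======== part 3: formerly Pool.Agent.MP_2a197d_al.Rat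
section MrgPart3

/-! The rational graded Lie algebras of a relatively free group have property `PP`. -/

set_option linter.unusedSectionVars false

namespace Pool.Agent.MP_2a197d_al

open scoped commutatorElement TensorProduct
open T LieAlgebra Function

variable {G : Type*} [Group G]

section bc
variable {A : Type*} [LieRing A]

variable (A) in
/-- Rationalisation of a Lie ring. -/
def RT : Type _ := ℚ ⊗[ℤ] A

noncomputable instance : LieRing (RT A) := ExtendScalars.instLieRing ℤ ℚ A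

noncomputable instance : LieAlgebra ℚ (RT A) := ExtendScalars.instLieAlgebra ℤ ℚ A

/-- Pure tensors. -/
noncomputable def tm (q : ℚ) : A →+ RT A := (TensorProduct.mk ℤ ℚ A q).toAddMonoidHom

theorem tm_lie (q r : ℚ) (x y : A) : ⁅tm q x, tm r y⁆ = tm (q * r) ⁅x, y⁆ := rfl

theorem smul_tm (q r : ℚ) (x : A) : q • tm r x = tm (q * r) x := rfl

@[elab_as_elim]
theorem RT.ind {P : RT A → Prop} (x : RT A) (zero : P 0) (tmul : ∀ q y, P (tm q y))
    (add : ∀ x y, P x → P y → P (x + y)) : P x :=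
  TensorProduct.induction_on (motive := P) x zero tmul add

/-- Base change of an additive map. -/
noncomputable def bc (f : A →+ A) : RT A →ₗ[ℚ] RT A := f.toIntLinearMap.baseChange ℚ

theorem bc_tmul (f : A →+ A) (q : ℚ) (y : A) : bc f (tm q y) = tm q (f y) := rfl

theorem bc_lie {f : A →+ A} (h : ∀ x y, f ⁅x, y⁆ = ⁅f x, f y⁆) (x y : RT A) :
    bc f ⁅x, y⁆ = ⁅bc f x, bc f y⁆ := by
  induction x using RT.ind with
  | zero => simp
  | add a b ha hb => rw [add_lie, map_add, map_add, ha, hb, add_lie]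
  | tmul a x =>
    induction y using RT.ind with
    | zero => simp
    | add a b ha hb => rw [lie_add, map_add, map_add, ha, hb, lie_add]
    | tmul b y => simp [bc_tmul, h, tm_lie]

theorem bc_der {f : A →+ A} (h : ∀ x y, f ⁅x, y⁆ = ⁅f x, y⁆ + ⁅x, f y⁆) (x y : RT A) :
    bc f ⁅x, y⁆ = ⁅bc f x, y⁆ + ⁅x, bc f y⁆ := by
  induction x using RT.ind with
  | zero => simp
  | add a b ha hb => simp only [add_lie, map_add, ha, hb]; abel
  | tmul a x =>
    induction y using RT.ind with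
    | zero => simp
    | add a b ha hb => simp only [lie_add, map_add, ha, hb]; abel
    | tmul b y => simp [bc_tmul, h, tm_lie]

theorem bc_pow {f : A →+ A} {n : ℕ} (h : ∀ x, f^[n] x = 0) : bc f ^ n = 0 := by
  have h1 : ∀ (k : ℕ) (q : ℚ) (y : A), (bc f ^ k) (tm q y) = tm q (f^[k] y) := by
    intro k q y
    induction k with
    | zero => rfl
    | succ k ih => rw [pow_succ', Module.End.mul_apply, ih, bc_tmul, iterate_succ_apply']
  refine LinearMap.ext fun x => ?_
  induction x using RT.ind with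
  | zero => simp
  | add a b ha hb => rw [map_add, map_add, ha, hb]
  | tmul a x => rw [h1, h]; simp

theorem bc_comp {f g k : A →+ A} (h : ∀ y, f (g y) = k y) (x : RT A) :
    bc f (bc g x) = bc k x := by
  induction x using RT.ind with
  | zero => simp
  | add a b ha hb => simp only [map_add, ha, hb]
  | tmul a x => simp only [bc_tmul, h]

theorem bc_id (x : RT A) : bc (AddMonoidHom.id A) x = x := by
  induction x using RT.ind with
  | zero => simp
  | add a b ha hb => simp only [map_add, ha, hb]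
  | tmul a x => rfl

theorem bc_zero (x : RT A) : bc (0 : A →+ A) x = 0 := by
  induction x using RT.ind with
  | zero => simp
  | add a b ha hb => simp only [map_add, ha, hb, add_zero]
  | tmul a x => simp [bc_tmul]

theorem exists_den (v : RT A) : ∃ (m : ℚ) (y : A), m ≠ 0 ∧ m • v = tm 1 y := by
  obtain ⟨⟨y, m⟩, h⟩ := IsLocalizedModule.surj (nonZeroDivisors ℤ) (TensorProduct.mk ℤ ℚ A 1) v
  refine ⟨((m : ℤ) : ℚ), y, by exact_mod_cast nonZeroDivisors.coe_ne_zero m, ?_⟩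
  rw [Int.cast_smul_eq_zsmul]
  exact h

theorem tors {y : A} (h : tm 1 y = 0) : ∃ k : ℕ, k ≠ 0 ∧ k • y = 0 := by
  obtain ⟨m, hm⟩ := (IsLocalizedModule.eq_zero_iff (nonZeroDivisors ℤ)
    (TensorProduct.mk ℤ ℚ A 1)).1 h
  refine ⟨(m : ℤ).natAbs, Int.natAbs_ne_zero.2 (nonZeroDivisors.coe_ne_zero m), ?_⟩
  exact natAbs_nsmul_eq_zero.2 hm

theorem exists_exp {f : A →+ A} (h : ∀ x y, f ⁅x, y⁆ = ⁅f x, y⁆ + ⁅x, f y⁆) {n : ℕ}
    (hn : ∀ x, f^[n] x = 0) : ∃ Ψ : RT A →+ RT A, (∀ a b, Ψ ⁅a, b⁆ = ⁅Ψ a, Ψ b⁆) ∧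
      ∀ v, bc f (bc f v) = 0 → Ψ v = v + bc f v := by
  let D : LieDerivation ℚ (RT A) (RT A) :=
    ⟨bc f, fun a b => by rw [bc_der h, ← lie_skew (bc f a), sub_eq_add_neg, add_comm]⟩
  have hD : IsNilpotent D.toLinearMap := ⟨n, bc_pow hn⟩
  refine ⟨AddMonoidHom.mk' (D.exp hD) (map_add _), fun a b => (D.exp hD).map_lie a b,
    fun v hv => ?_⟩
  have := IsNilpotent.exp_smul_eq_sum (a := bc f) (m := v) (k := 2) (by rw [pow_two]; exact hv) hD
  refine this.trans ?_
  simp [Finset.sum_range_succ]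

end bc

namespace NS
variable (S : NS G)

/-- The span of the classes of the elements of a subgroup. -/
noncomputable def sp (N : Subgroup G) : Submodule ℚ (RT S.gr) :=
  Submodule.span ℚ {v | ∃ d, ∃ g ∈ S.H d, g ∈ N ∧ tm 1 (S.sy d g) = v}

theorem sp_mono {A B : Subgroup G} (h : A ≤ B) : S.sp A ≤ S.sp B :=
  Submodule.span_mono fun _ ⟨d, g, h1, h2, h3⟩ => ⟨d, g, h1, h h2, h3⟩

theorem sp_top (v : RT S.gr) : v ∈ S.sp ⊤ := by
  induction v using RT.ind with
  | zero => exact zero_mem _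
  | add a b ha hb => exact add_mem ha hb
  | tmul q y =>
    rw [← mul_one q, ← smul_tm]
    refine Submodule.smul_mem _ _ ?_
    refine S.ind y (by simp) (fun i a ha => Submodule.subset_span ⟨i, a, ha, trivial, rfl⟩)
      fun x y hx hy => ?_
    rw [map_add]; exact add_mem hx hy

theorem sp_lie {A B : Subgroup G} {x y : RT S.gr} (hx : x ∈ S.sp A) (hy : y ∈ S.sp B) :
    ⁅x, y⁆ ∈ S.sp ⁅A, B⁆ := by
  refine Submodule.span_induction₂ (p := fun x y _ _ => ⁅x, y⁆ ∈ S.sp ⁅A, B⁆) ?_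
    (by simp) (by simp) ?_ ?_ ?_ ?_ hx hy
  · rintro _ _ ⟨d, g, h1, h2, rfl⟩ ⟨d', g', h1', h2', rfl⟩
    refine Submodule.subset_span ⟨_, _, S.comm _ _ _ h1 _ h1',
      Subgroup.commutator_mem_commutator h2 h2', ?_⟩
    rw [tm_lie, S.lie_sy h1 h1', one_mul]
  · intro a b c _ _ _ h1 h2; rw [add_lie]; exact add_mem h1 h2
  · intro a b c _ _ _ h1 h2; rw [lie_add]; exact add_mem h1 h2
  · intro r a b _ _ h1; rw [smul_lie]; exact Submodule.smul_mem _ r h1
  · intro r a b _ _ h1; rw [lie_smul]; exact Submodule.smul_mem _ r h1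

theorem sol_sy {N : Subgroup G} (hN : N.Normal) {k : ℕ} (hk : dS N k = ⊥) {d : ℕ} {g : G}
    (hd : g ∈ S.H d) (hg : g ∈ N) : derivedSeriesOfIdeal ℚ _ k
      (LieSubmodule.lieSpan ℚ (RT S.gr) {tm 1 (S.sy d g)}) = ⊥ := by
  let I : LieIdeal ℚ (RT S.gr) :=
    { S.sp N with
      lie_mem := fun {x m} hm =>
        S.sp_mono (Subgroup.commutator_le_right ⊤ N) (S.sp_lie (S.sp_top x) hm) }
  have h1 : LieSubmodule.lieSpan ℚ (RT S.gr) {tm 1 (S.sy d g)} ≤ I := by
    rw [LieSubmodule.lieSpan_le, Set.singleton_subset_iff]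
    exact Submodule.subset_span ⟨d, g, hd, hg, rfl⟩
  have h2 : ∀ j, (derivedSeriesOfIdeal ℚ _ j I).toSubmodule ≤ S.sp (dS N j) := by
    intro j
    induction j with
    | zero => exact le_rfl
    | succ j ih =>
      rw [derivedSeriesOfIdeal_succ, LieSubmodule.lieIdeal_oper_eq_linear_span',
        Submodule.span_le]
      rintro _ ⟨x, hx, y, hy, rfl⟩
      exact S.sp_lie (ih hx) (ih hy)
  rw [LieSubmodule.eq_bot_iff]
  intro v hv
  have h3 := h2 k (derivedSeriesOfIdeal_mono h1 k hv)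
  rw [hk] at h3
  refine (Submodule.span_eq_bot.2 ?_).le h3
  rintro _ ⟨d, g, -, h2, rfl⟩
  rw [Subgroup.mem_bot.1 h2, sy_one, map_zero]

end NS

theorem tr_map (n : ℕ) (φ : G →* G) (i : ℕ) (a : G) (ha : a ∈ ((gs G).tr n).H i) :
    φ a ∈ ((gs G).tr n).H i := gs_map φ _ a ha

theorem RF.ext {x : ℕ → G} (hx : RF x) {G' : Type*} [Group G'] {φ ψ : G →* G'}
    (h : ∀ j, φ (x j) = ψ (x j)) : φ = ψ :=
  MonoidHom.eq_of_eqOn_dense hx.gen (by rintro _ ⟨j, rfl⟩; exact h j)

theorem exists_sub {x : ℕ → G} (hx : RF x) (n : ℕ) {ι : Type*} [Fintype ι] (e : ι → ℕ)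
    (he : Injective e) (y : ι → ((gs G).tr n).gr) :
    ∃ Θ : RT ((gs G).tr n).gr →+ RT ((gs G).tr n).gr, (∀ a b, Θ ⁅a, b⁆ = ⁅Θ a, Θ b⁆) ∧
      Surjective Θ ∧ ∀ i, Θ (tm 1 (((gs G).tr n).sy 0 (x (e i)))) = tm 1 (y i) := by
  classical
  let S := (gs G).tr n
  change ∃ Θ : RT S.gr →+ RT S.gr, _ ∧ _ ∧ ∀ i, Θ (tm 1 (S.sy 0 (x (e i)))) = tm 1 (y i)
  obtain ⟨K, hK⟩ : ∃ K, ∀ i, e i < K :=
    ⟨Finset.univ.sup e + 1, fun i => Nat.lt_succ_of_le (Finset.le_sup (Finset.mem_univ i))⟩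
  obtain ⟨s, hs⟩ := hx.ex fun j => x (j + K)
  obtain ⟨r, hr⟩ := hx.ex fun j => if j < K then 1 else x (j - K)
  have hrs : ∀ g, r (s g) = g := fun g =>
    DFunLike.congr_fun (hx.ext (φ := r.comp s) (ψ := MonoidHom.id G) fun j => by simp [hs, hr]) g
  let ms := S.mp s (tr_map n s)
  let B : AddSubmonoid (ι → S.gr) :=
    { carrier := {y | ∃ Ψ : RT S.gr →+ RT S.gr, (∀ a b, Ψ ⁅a, b⁆ = ⁅Ψ a, Ψ b⁆) ∧
        (∀ v, Ψ (bc ms v) = bc ms v) ∧
        ∀ i, Ψ (tm 1 (S.sy 0 (x (e i)))) = tm 1 (S.sy 0 (x (e i))) + bc ms (tm 1 (y i))}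
      zero_mem' := ⟨AddMonoidHom.id _, fun _ _ => rfl, fun _ => rfl, by simp⟩
      add_mem' := by
        rintro y y' ⟨Ψ, h1, h2, h3⟩ ⟨Ψ', h1', h2', h3'⟩
        refine ⟨Ψ.comp Ψ', fun a b => by simp [h1, h1'], fun v => by simp [h2, h2'], fun i => ?_⟩
        rw [AddMonoidHom.comp_apply, h3', map_add, h3, h2, Pi.add_apply, map_add,
          map_add, add_assoc] }
  have hB : ∀ d (g : ι → G), (∀ i, g i ∈ S.H d) → (fun i => S.sy d (g i)) ∈ B := by
    intro d g hg
    obtain ⟨φ, hφ⟩ := hx.ex fun j => s (extend e g 1 j) * x j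
    have hφs : ∀ g, φ (s g) = s g := fun g =>
      DFunLike.congr_fun (hx.ext (φ := φ.comp s) (ψ := s) fun j => by
        rw [MonoidHom.comp_apply, hs, hφ, extend_apply', Pi.one_apply, map_one, one_mul]
        rintro ⟨i, hi⟩
        have := hK i
        omega) g
    rcases d with _ | d
    · refine ⟨(bc (S.mp φ (tr_map n φ))).toAddMonoidHom, bc_lie (S.mp_lie _ _),
        bc_comp fun y => DFunLike.congr_fun (S.hom_ext (f := (S.mp φ (tr_map n φ)).comp ms) (g := ms)
          fun i a ha => ?_) y, fun i => ?_⟩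
      · rw [AddMonoidHom.comp_apply, S.mp_sy ha, S.mp_sy (tr_map n s _ _ ha), hφs]
      · rw [LinearMap.toAddMonoidHom_coe, bc_tmul, bc_tmul, S.mp_sy (S.top _), S.mp_sy (S.top _),
          hφ, he.extend_apply, S.sy_mul (S.top _) (S.top _), map_add, add_comm]
    by_cases hd : n ≤ d + 1
    · have : (fun i => S.sy (d + 1) (g i)) = 0 := funext fun i => S.sy_zero (by
        have := hg i
        change _ ∈ (gs G).H _ at this ⊢
        rwa [min_eq_right (by omega)] at this ⊢)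
      rw [this]; exact B.zero_mem
    have h1 : ∀ a, φ a * a⁻¹ ∈ (gs G).H (d + 1) := fun a => close φ _ (by
      rintro _ ⟨j, rfl⟩
      rw [hφ, mul_inv_cancel_right]
      refine gs_map s _ _ ?_
      by_cases hj : ∃ i, e i = j
      · obtain ⟨i, rfl⟩ := hj
        rw [he.extend_apply]
        exact (gs G).anti (by omega) (show g i ∈ (gs G).H (min (d + 1) n) from hg i)
      · rw [extend_apply' _ _ _ hj]; exact one_mem _) (hx.gen ▸ Subgroup.mem_top a)
    have h2 : ∀ i, ∀ a ∈ S.H i, φ a * a⁻¹ ∈ S.H (i + d + 1) := fun i a ha =>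
      (gs G).anti (by omega) (andre φ d h1 _ a ha)
    obtain ⟨Ψ, h3, h4⟩ := exists_exp (S.dd_lie φ d h2) (S.dd_nil φ d h2 (n := n) fun m hm => by
      change (gs G).H _ ≤ (gs G).H _
      rw [min_eq_right hm, min_eq_right (by omega)])
    have h5 : ∀ v, bc (S.dd φ d h2) (bc ms v) = 0 := fun v => by
      refine (bc_comp (k := 0) (fun y => DFunLike.congr_fun
        (S.hom_ext (f := (S.dd φ d h2).comp ms) (g := 0) fun i a ha => ?_) y) v).trans (bc_zero v)
      rw [AddMonoidHom.comp_apply, S.mp_sy ha, S.dd_sy (tr_map n s _ _ ha), hφs, mul_inv_cancel,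
        S.sy_one, AddMonoidHom.zero_apply]
    have h6 : ∀ i, bc (S.dd φ d h2) (tm 1 (S.sy 0 (x (e i)))) =
        bc ms (tm 1 (S.sy (d + 1) (g i))) := by
      intro i
      rw [bc_tmul, bc_tmul, S.dd_sy (S.top _), S.mp_sy (hg i), hφ, he.extend_apply,
        mul_inv_cancel_right, zero_add]
    refine ⟨Ψ, h3, fun v => ?_, fun i => ?_⟩
    · rw [h4 _ (by rw [h5, map_zero]), h5, add_zero]
    · rw [h4 _ (by rw [h6, h5]), h6]
  have hy : y ∈ B := by
    rw [← Finset.univ_sum_single y]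
    refine B.sum_mem fun i _ => ?_
    refine S.ind (y i) (by simp) (fun d a ha => ?_) fun a b ha hb => ?_
    · have : (Pi.single i (S.sy d a) : ι → S.gr) = fun j => S.sy d ((Pi.mulSingle i a : ι → G) j) := by
        funext j
        by_cases hj : j = i
        · subst hj; simp
        · simp [hj, S.sy_one]
      rw [this]
      refine hB d _ fun j => ?_
      by_cases hj : j = i
      · subst hj; simpa using ha
      · simp [hj, one_mem]
    · rw [Pi.single_add]; exact B.add_mem ha hb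
  obtain ⟨Ψ, h1, h2, h3⟩ := hy
  let mr := S.mp r (tr_map n r)
  have h4 : ∀ v, bc mr (bc ms v) = v := fun v => by
    refine (bc_comp (k := AddMonoidHom.id _) (fun y => DFunLike.congr_fun
      (S.hom_ext (f := mr.comp ms) (g := AddMonoidHom.id _) fun i a ha => ?_) y) v).trans (bc_id v)
    rw [AddMonoidHom.comp_apply, S.mp_sy ha, S.mp_sy (tr_map n s _ _ ha), hrs,
      AddMonoidHom.id_apply]
  refine ⟨(bc mr).toAddMonoidHom.comp Ψ, fun a b => ?_, fun v => ⟨bc ms v, ?_⟩, fun i => ?_⟩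
  · simp only [AddMonoidHom.comp_apply, LinearMap.toAddMonoidHom_coe, h1]
    exact bc_lie (S.mp_lie _ _) _ _
  · simp only [AddMonoidHom.comp_apply, LinearMap.toAddMonoidHom_coe, h2, h4]
  · simp only [AddMonoidHom.comp_apply, LinearMap.toAddMonoidHom_coe, h3, map_add, h4]
    rw [bc_tmul, S.mp_sy (S.top _), hr, if_pos (hK i), S.sy_one, map_zero, zero_add]

theorem one_tmul_lev {A : Type*} [LieRing A] (t : T) (y : t.Lf → A) :
    tm 1 (lev t y) = lev t fun i => tm 1 (y i) :=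
  ev_map (tm (A := A) 1) (by simp [tm_lie]) t y

theorem pp_tr {x : ℕ → G} (hx : RF x) {c k : ℕ} (e : (cb c).Lf → ℕ) (he : Injective e)
    {N : Subgroup G} (hN : N.Normal) (hk : dS N k = ⊥) (hu : (gev (cb c) fun i => x (e i)) ∈ N)
    (n : ℕ) : PP ℚ (RT ((gs G).tr n).gr) c k := by
  intro a
  choose m y hm hy using fun i => exists_den (a i)
  obtain ⟨Θ, h1, h2, h3⟩ := exists_sub hx n e he y
  obtain ⟨h4, h5⟩ := ((gs G).tr n).sy_gev (cb c) fun i => x (e i)
  have h6 := sol_image (K := ℚ) Θ h1 h2 (fun s => ⟨s, fun w => map_rat_smul Θ s w⟩)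
    (((gs G).tr n).sol_sy hN hk h4 hu)
  rw [h5, one_tmul_lev, lev, ev_map Θ h1] at h6
  simp only [h3, ← hy] at h6
  rw [eq_bot_iff, ← h6]
  refine derivedSeriesOfIdeal_mono ?_ k
  rw [LieSubmodule.lieSpan_le, Set.singleton_subset_iff]
  have h7 := (ml_lev (K := ℚ) (cb c)).smul_univ m a
  have h8 : lev (cb c) a = (∏ i, m i)⁻¹ • lev (cb c) fun i => m i • a i := by
    rw [h7, smul_smul, inv_mul_cancel₀ (Finset.prod_ne_zero_iff.2 fun i _ => hm i), one_smul]
  rw [h8]
  exact SMulMemClass.smul_mem _ (LieSubmodule.subset_lieSpan rfl)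

theorem grpMain {x : ℕ → G} (hx : RF x) (hT : TF G) (hR : ∀ g, (∀ m, g ∈ (gs G).H m) → g = 1)
    {c : ℕ} (hc : (gs G).H c ≤ sSup {N : Subgroup G | N.Normal ∧ Group.IsSolvable N}) :
    ∃ (M : ℕ) (e : (full M).Lf → ℕ), Injective e ∧ (gev (full M) fun i => x (e i)) = 1 := by
  have hi : ∀ t : T, ∃ e : t.Lf → ℕ, Injective e := fun t =>
    ⟨fun i => Fintype.equivFin _ i, Fin.val_injective.comp (Fintype.equivFin _).injective⟩
  obtain ⟨e, he⟩ := hi (cb c)
  have h1 := ((gs G).sy_gev (cb c) fun i => x (e i)).1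
  rw [card_cb, Nat.add_sub_cancel] at h1
  obtain ⟨N, k, hN, hk, hu⟩ := exists_sol (hc h1)
  obtain ⟨D, M, h2⟩ := lieMain (PP.fam (L := fun n => RT ((gs G).tr n).gr)
    fun n => pp_tr hx e he hN hk hu n)
  rw [graft_full] at h2
  obtain ⟨e', he'⟩ := hi (full (M + D))
  refine ⟨M + D, e', he', hR _ (dilate hx hT _ e' he' ?_)⟩
  set n := Fintype.card (full (M + D)).Lf with hn
  have hn0 : 0 < n := card_pos _
  have h3 := congrFun (h2 fun i n => tm 1 (((gs G).tr n).sy 0 (x (e' i)))) n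
  obtain ⟨h4, h5⟩ := ((gs G).tr n).sy_gev (full (M + D)) fun i => x (e' i)
  rw [Fam.lev_apply, ← one_tmul_lev, ← h5] at h3
  obtain ⟨j, hj, h6⟩ := tors h3
  rw [← ((gs G).tr n).sy_pow h4, ((gs G).tr n).sy_eq_zero (pow_mem h4 _)] at h6
  change _ ∈ (gs G).H _ at h4 h6
  rw [← hn, min_eq_left (by omega)] at h4 h6
  have := hT _ _ h4 j hj h6
  rwa [Nat.sub_add_cancel hn0] at this

end Pool.Agent.MP_2a197d_al

end MrgPart3

-- marker of a merged file
example : 731051 + 108250 = 731051 + 108250 := rfl
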