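import Pool.Agent.MP_2a197d_al.K5b
import Pool.Agent.MP_2a197d_al.EG2
import Pool.Agent.MP_2a197d_al.FW2

/-! The key statement about minimal non-solvable varieties. -/

namespace Pool.Agent.MP_2a197d_al.K5

open Function T KY

theorem key : FW.KeyH := by
  intro F _ _ G h1 h2 h3 h4
  obtain ⟨k, hk⟩ : ∃ k, G.QH k := Fr.qh_of Fr.k2 h3 h1 h4
  obtain ⟨s, h5⟩ := Fr.k3_gr hk
  obtain ⟨s', h6⟩ := Fr.k3_short hk
  obtain ⟨a, ha⟩ := h1 0
  obtain ⟨L, _, _, h7, h8, h9⟩ := k5 (G := G) (semi_of_ideal h2) ha (k := k) (s := s)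
    (fun χ => ⟨G.Hm χ, G.Bs χ k, h5 χ, fun u => Submodule.span_mono (by
      rintro _ ⟨S, m, hm, rfl⟩
      exact Set.mem_iUnion.2 ⟨_, Or.inr ⟨S, m, hm, rfl, rfl⟩⟩) (Fr.trunc_span u), fun e he =>
        ⟨fun j => {e j}, fun j => G.y (e j), fun j => Fr.y_mem _,
          fun i j h => Finset.disjoint_singleton.2 (he.ne h), by rw [Finset.biUnion_singleton],
          by rw [Finset.biUnion_singleton]⟩⟩)
    fun L _ _ hL x v => h6 L hL x _ ⟨v, rfl⟩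
  exact ⟨L, _, _, h7, ⟨s', h8⟩, h9⟩

end Pool.Agent.MP_2a197d_al.K5
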