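import Pool.Agent.MP_2a197d_al.Env
import Mathlib.RingTheory.Derivation.Basic
import Mathlib.RingTheory.Nilpotent.Lemmas
import Mathlib.RingTheory.Ideal.Quotient.Operations
import Mathlib.Tactic.NoncommRing
import Mathlib.Tactic.LinearCombination
import Mathlib.Tactic.Module

-- ======== part 0: formerly Pool.Agent.MP_2a197d_al.LB1
section MrgPart0

/-! The prolongation setting: definitions and first lemmas. -/

set_option linter.unusedSectionVars false

namespace Pool.Agent.MP_2a197d_al.LB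

open Function

universe u

/-- The sign rule. -/
def sg (a b : ℤˣ) : ℚ := if a = -1 ∧ b = -1 then -1 else 1

@[simp] theorem sg_one_left (b : ℤˣ) : sg 1 b = 1 := if_neg fun h => absurd h.1 (by decide)

@[simp] theorem sg_one_right (b : ℤˣ) : sg b 1 = 1 := if_neg fun h => absurd h.2 (by decide)

@[simp] theorem sg_neg : sg (-1) (-1) = -1 := if_pos ⟨rfl, rfl⟩

theorem sg_comm (a b : ℤˣ) : sg a b = sg b a := by simp only [sg, and_comm]

theorem sg_sq (a b : ℤˣ) : sg a b * sg a b = 1 := by unfold sg; split_ifs <;> norm_num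

theorem sg_mul (a b c : ℤˣ) : sg a (b * c) = sg a b * sg a c := by
  rcases Int.units_eq_one_or a with rfl | rfl <;> rcases Int.units_eq_one_or b with rfl | rfl <;>
    rcases Int.units_eq_one_or c with rfl | rfl <;> simp

theorem mm : (-1 : ℤˣ) * -1 = 1 := by simp

variable {V : Type u} [AddCommGroup V] [Module ℚ V]

/-- Endomorphisms. -/
abbrev En (V : Type u) [AddCommGroup V] [Module ℚ V] := Module.End ℚ V

/-- The super-commutator. -/
def sb (a b : ℤˣ) (x y : En V) : En V := x * y - sg a b • (y * x)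

@[simp] theorem sb_one_left (b : ℤˣ) (x y : En V) : sb 1 b x y = x * y - y * x := by simp [sb]

@[simp] theorem sb_one_right (b : ℤˣ) (x y : En V) : sb b 1 x y = x * y - y * x := by simp [sb]

@[simp] theorem sb_neg (x y : En V) : sb (-1) (-1) x y = x * y + y * x := by simp [sb]

/-- The exclusion property for a bilinear map. -/
def Chi {X : Type u} [AddCommGroup X] [Module ℚ X] (M W : Submodule ℚ X)
    (Q : X →ₗ[ℚ] X →ₗ[ℚ] X) : Prop :=
  ∀ (K : Type u) [CommRing K] [IsDomain K] (μ : K) (Φ : AddSubgroup (X × K)), μ ≠ 0 →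
    (∀ z ∈ Φ, z.1 ∈ M) → (∀ z ∈ Φ, z.1 ∈ W → z.2 = 0) →
    (∀ z ∈ Φ, ∀ z' ∈ Φ, (Q z.1 z'.1, μ * z.2 * z'.2) ∈ Φ) → ∀ z ∈ Φ, z.2 = 0

/-- A super space with a Lie superalgebra of operators and an invariant part of its first
prolongation. -/
structure PT (V : Type u) [AddCommGroup V] [Module ℚ V] where
  /-- parity components -/
  P : ℤˣ → Submodule ℚ V
  /-- operators -/
  h : ℤˣ → Submodule ℚ (En V)
  /-- quadratic maps -/
  q : ℤˣ → Submodule ℚ (V →ₗ[ℚ] V →ₗ[ℚ] V)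
  /-- derived chain -/
  Hs : ℕ → Submodule ℚ (En V)
  /-- its length -/
  n : ℕ
  top : P 1 ⊔ P (-1) = ⊤
  hP : ∀ {a b g v}, g ∈ h a → v ∈ P b → g v ∈ P (a * b)
  hh : ∀ {a b g g'}, g ∈ h a → g' ∈ h b → sb a b g g' ∈ h (a * b)
  qh : ∀ {a b Q v}, Q ∈ q a → v ∈ P b → (Q v : En V) ∈ h (a * b)
  sym : ∀ {a b c Q u v}, Q ∈ q a → u ∈ P b → v ∈ P c → Q u v = sg b c • Q v u
  inv : ∀ {a b g Q}, g ∈ h a → Q ∈ q b → ∃ Q' ∈ q (a * b), ∀ c, ∀ v ∈ P c,
    (Q' v : En V) = sb a (b * c) g (Q v) - sg a b • Q (g v)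
  chi : ∀ Q ∈ q 1, Chi (P 1) ⊥ Q
  s0 : h 1 ≤ Hs 0
  s1 : ∀ {j x y}, x ∈ h 1 → y ∈ Hs j → x * y - y * x ∈ Hs j
  s2 : ∀ {j x y}, x ∈ Hs j → y ∈ Hs j → x * y - y * x ∈ Hs (j + 1)
  s3 : Hs n = ⊥
  s4 : ∀ j, Hs j ≤ h 1

/-- A commutative model of the algebra generated by commuting operators. -/
structure CM (A : Submodule ℚ (En V)) where
  /-- the ring -/
  C : Type u
  [ring : CommRing C]
  [alg : Algebra ℚ C]
  /-- the inclusion -/
  val : C →ₐ[ℚ] En V
  inj : Injective val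
  ex : ∀ a ∈ A, ∃ c, val c = a
  gen : ∀ S : Subalgebra ℚ (En V), (∀ a ∈ A, a ∈ S) → ∀ c, val c ∈ S

attribute [instance] CM.ring CM.alg

theorem exCM (A : Submodule ℚ (En V)) (h : ∀ x ∈ A, ∀ y ∈ A, x * y = y * x) : Nonempty (CM A) := by
  let _ : CommRing (Algebra.adjoin ℚ (A : Set (En V))) :=
    { (inferInstance : Ring (Algebra.adjoin ℚ (A : Set (En V)))) with
      mul_comm := (Algebra.isMulCommutative_adjoin ℚ h).is_comm.comm }
  exact ⟨⟨Algebra.adjoin ℚ (A : Set (En V)), (Algebra.adjoin ℚ (A : Set (En V))).val,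
    Subtype.val_injective, fun b hb => ⟨⟨b, Algebra.subset_adjoin hb⟩, rfl⟩,
    fun S hS c => Algebra.adjoin_le hS c.2⟩⟩

theorem CM.ind {A : Submodule ℚ (En V)} (R : CM A) {p : R.C → Prop}
    (h0 : ∀ c, R.val c ∈ A → p c) (h1 : ∀ r : ℚ, p (algebraMap ℚ R.C r))
    (h2 : ∀ a b, p a → p b → p (a + b)) (h3 : ∀ a b, p a → p b → p (a * b)) (c : R.C) : p c := by
  let S : Subalgebra ℚ R.C :=
    { carrier := {c | p c}
      mul_mem' := h3 _ _
      add_mem' := h2 _ _
      algebraMap_mem' := h1 }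
  obtain ⟨d, hd, h⟩ := R.gen (S.map R.val) (fun a ha => by
    obtain ⟨c, rfl⟩ := R.ex a ha
    exact ⟨c, h0 c ha, rfl⟩) c
  exact R.inj h ▸ hd

theorem CM.comm {A : Submodule ℚ (En V)} (R : CM A) {x : En V} (h : ∀ a ∈ A, a * x = x * a)
    (c : R.C) : R.val c * x = x * R.val c :=
  ((Subalgebra.mem_centralizer_iff ℚ).1
    (R.gen (Subalgebra.centralizer ℚ {x}) (fun a ha => (Subalgebra.mem_centralizer_iff ℚ).2
      fun y hy => by rw [hy, h a ha]) c) x rfl).symm

theorem CM.nil {A : Submodule ℚ (En V)} (R : CM A) {c : R.C} (h : IsNilpotent (R.val c)) :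
    IsNilpotent c := by
  obtain ⟨n, hn⟩ := h
  exact ⟨n, R.inj (by rw [map_pow, hn, map_zero])⟩

theorem exPrime {C : Type u} [CommRing C] [Algebra ℚ C] (I : Ideal C) (r : C)
    (h : ∀ n, r ^ n ∉ I) : ∃ (K : Type u) (_ : CommRing K) (_ : IsDomain K) (χ : C →+* K),
      (∀ c ∈ I, χ c = 0) ∧ χ r ≠ 0 ∧ (2 : K) ≠ 0 ∧ ∀ c, IsNilpotent c → χ c = 0 := by
  have h1 : r ∉ I.radical := fun ⟨n, hn⟩ => h n hn
  rw [Ideal.radical_eq_sInf, Ideal.mem_sInf] at h1
  push Not at h1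
  obtain ⟨J, ⟨h2, h3⟩, h4⟩ := h1
  refine ⟨C ⧸ J, inferInstance, Ideal.Quotient.isDomain J, Ideal.Quotient.mk J,
    fun c hc => Ideal.Quotient.eq_zero_iff_mem.2 (h2 hc),
    fun h => h4 (Ideal.Quotient.eq_zero_iff_mem.1 h), fun h => ?_,
    fun c hc => (hc.map _).eq_zero⟩
  have : (1 : C ⧸ J) = 0 := by
    have h5 : (algebraMap ℚ (C ⧸ J)) (2⁻¹) * 2 = 1 := by
      rw [show (2 : C ⧸ J) = algebraMap ℚ _ 2 from (map_ofNat _ 2).symm, ← map_mul]; norm_num
    rw [← h5, h, mul_zero]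
  exact one_ne_zero this

theorem Chi.gen {X : Type u} [AddCommGroup X] [Module ℚ X] {M W : Submodule ℚ X}
    {Q : X →ₗ[ℚ] X →ₗ[ℚ] X} (h : Chi M W Q) {K : Type u} [CommRing K] [IsDomain K] {μ : K}
    (Γ : Set (X × K)) (hμ : μ ≠ 0) (h1 : ∀ z ∈ Γ, z.1 ∈ M)
    (h2 : ∀ z ∈ AddSubgroup.closure Γ, z.1 ∈ W → z.2 = 0)
    (h3 : ∀ z ∈ Γ, ∀ z' ∈ Γ, (Q z.1 z'.1, μ * z.2 * z'.2) ∈ AddSubgroup.closure Γ) :
    ∀ z ∈ Γ, z.2 = 0 := by
  intro z hz
  refine h K μ (AddSubgroup.closure Γ) hμ (fun z hz => ?_) h2 (fun z hz z' hz' => ?_) z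
    (AddSubgroup.subset_closure hz)
  · exact (AddSubgroup.closure_le (M.toAddSubgroup.comap (AddMonoidHom.fst X K))).2 h1 hz
  · refine AddSubgroup.closure_induction₂ (p := fun z z' _ _ =>
      (Q z.1 z'.1, μ * z.2 * z'.2) ∈ AddSubgroup.closure Γ)
      (fun x y hx hy => h3 x hx y hy) ?_ ?_ ?_ ?_ ?_ ?_ hz hz'
    · intro x _
      convert (AddSubgroup.closure Γ).zero_mem using 1
      simp
    · intro x _
      convert (AddSubgroup.closure Γ).zero_mem using 1
      simp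
    · intro x y z _ _ _ a b
      convert add_mem a b using 1
      simp [mul_add, add_mul]
    · intro x y z _ _ _ a b
      convert add_mem a b using 1
      simp [mul_add]
    · intro x y _ _ a
      convert neg_mem a using 1
      simp
    · intro x y _ _ a
      convert neg_mem a using 1
      simp

theorem pow_comm2 {R : Type*} [Ring R] {s g : R} (h : s * (g * s - s * g) = (g * s - s * g) * s)
    (k : ℕ) : g * s ^ (k + 1) = s ^ (k + 1) * g + (k + 1) • (s ^ k * (g * s - s * g)) := by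
  induction k with
  | zero => simp
  | succ k ih =>
    rw [pow_succ s (k + 1), ← mul_assoc, ih, add_mul, smul_mul_assoc, mul_assoc (s ^ k), ← h,
      ← mul_assoc, ← pow_succ, add_smul (k + 1), one_smul]
    noncomm_ring

namespace PT

variable (T : PT V)

theorem ext {W : Type*} [AddCommGroup W] [Module ℚ W] {f g : V →ₗ[ℚ] W}
    (h : ∀ p, ∀ v ∈ T.P p, f v = g v) : f = g := by
  refine LinearMap.ext fun v => ?_
  obtain ⟨a, ha, b, hb, rfl⟩ := Submodule.mem_sup.1 (T.top ▸ Submodule.mem_top (x := v))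
  rw [map_add, map_add, h _ a ha, h _ b hb]

/-- The span of the operators `Q v`. -/
def G (p : ℤˣ) : Submodule ℚ (En V) :=
  Submodule.span ℚ {g | ∃ a b, a * b = p ∧ ∃ Q ∈ T.q a, ∃ v ∈ T.P b, g = Q v}

theorem mem_G {a b p : ℤˣ} {Q : V →ₗ[ℚ] V →ₗ[ℚ] V} {v : V} (hQ : Q ∈ T.q a) (hv : v ∈ T.P b)
    (h : a * b = p) : (Q v : En V) ∈ T.G p := Submodule.subset_span ⟨a, b, h, Q, hQ, v, hv, rfl⟩

theorem G_le (p : ℤˣ) : T.G p ≤ T.h p := by
  refine Submodule.span_le.2 ?_
  rintro _ ⟨a, b, rfl, Q, hQ, v, hv, rfl⟩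
  exact T.qh hQ hv

theorem G_id {a b : ℤˣ} {g x : En V} (hg : g ∈ T.h a) (hx : x ∈ T.G b) :
    sb a b g x ∈ T.G (a * b) := by
  refine Submodule.span_induction (p := fun x _ => sb a b g x ∈ T.G (a * b)) ?_ (by simp [sb])
    ?_ ?_ hx
  · rintro _ ⟨c, d, rfl, Q, hQ, v, hv, rfl⟩
    obtain ⟨Q', h1, h2⟩ := T.inv hg hQ
    rw [eq_add_of_sub_eq (h2 d v hv).symm]
    exact add_mem (T.mem_G h1 hv (mul_assoc _ _ _))
      (Submodule.smul_mem _ _ (T.mem_G hQ (T.hP hg hv) (mul_left_comm _ _ _)))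
  · intro x y _ _ h1 h2
    convert add_mem h1 h2 using 1
    simp only [sb, mul_add, add_mul, smul_add]; abel
  · intro r x _ h1
    convert Submodule.smul_mem _ r h1 using 1
    simp only [sb, mul_smul_comm, smul_mul_assoc, smul_sub, smul_comm r]

theorem pow_mem {s : En V} (hs : s ∈ T.h 1) {p : ℤˣ} {v : V} (hv : v ∈ T.P p) (k : ℕ) :
    (s ^ k) v ∈ T.P p := by
  induction k with
  | zero => exact hv
  | succ k ih => rw [pow_succ']; simpa using T.hP hs ih

/-- Second commutators with `s` vanish. -/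
def Sec (s : En V) : Prop :=
  s ∈ T.h 1 ∧ ∀ p, ∀ g ∈ T.G p, s * (g * s - s * g) = (g * s - s * g) * s

theorem tx {s : En V} (hs : T.Sec s) {a b : ℤˣ} {Q : V →ₗ[ℚ] V →ₗ[ℚ] V} {v : V} (hQ : Q ∈ T.q a)
    (hv : v ∈ T.P b) (k : ℕ) : (Q ((s ^ (k + 1)) v) : En V) =
      s ^ (k + 1) * Q v + (k + 1) • (s ^ k * (Q (s v) - s * Q v)) := by
  refine T.ext fun p u hu => ?_
  have h1 := LinearMap.congr_fun (pow_comm2 (hs.2 _ _ (T.mem_G hQ hu rfl)) k) v
  have h2 : s v ∈ T.P b := by simpa using T.hP hs.1 hv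
  simp only [LinearMap.add_apply, Module.End.mul_apply, LinearMap.smul_apply,
    LinearMap.sub_apply] at h1 ⊢
  rw [T.sym hQ (T.pow_mem hs.1 hv _) hu, T.sym hQ hv hu, T.sym hQ h2 hu, h1]
  simp only [map_smul, map_sub, smul_add, smul_sub, smul_comm (sg b p)]

theorem t1 {s : En V} (hs : T.Sec s) {a b : ℤˣ} {Q : V →ₗ[ℚ] V →ₗ[ℚ] V} {v : V} (hQ : Q ∈ T.q a)
    (hv : v ∈ T.P b) {k : ℕ} (hk : (s ^ k) v = 0) : s ^ (k + 1) * (Q v : En V) = 0 := by
  refine T.ext fun p u hu => ?_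
  have h0 := hs.2 _ _ (T.mem_G hQ hu rfl)
  have h1 := pow_comm2 h0 k
  rw [(Commute.pow_left h0 k).eq, pow_succ' s k] at h1
  have h2 := LinearMap.congr_fun h1 v
  simp only [LinearMap.add_apply, Module.End.mul_apply, LinearMap.smul_apply, hk, map_zero,
    smul_zero, add_zero] at h2
  rw [Module.End.mul_apply, T.sym hQ hv hu, map_smul, pow_succ', Module.End.mul_apply, ← h2]
  simp

/-- Graded ideals. -/
structure Id (A : ℤˣ → Submodule ℚ (En V)) : Prop where
  le : ∀ p, A p ≤ T.h p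
  id : ∀ {a b g x}, g ∈ T.h a → x ∈ A b → sb a b g x ∈ A (a * b)

/-- The even part of the ideal centralises the ideal. -/
def HH (A : ℤˣ → Submodule ℚ (En V)) : Prop := ∀ p, ∀ r ∈ A 1, ∀ x ∈ A p, r * x = x * r

variable {T}

theorem Id.sec {A : ℤˣ → Submodule ℚ (En V)} (hA : T.Id A) (hH : HH A) {s : En V} (hs : s ∈ A 1) :
    T.Sec s :=
  ⟨hA.le 1 hs, fun p g hg => hH p s hs _ (by simpa using hA.id (T.G_le p hg) hs)⟩

theorem Id.val_mem {A : ℤˣ → Submodule ℚ (En V)} (hA : T.Id A) (R : CM (A 1)) (c : R.C) {p : ℤˣ}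
    {v : V} (hv : v ∈ T.P p) : R.val c v ∈ T.P p := by
  induction c using R.ind generalizing v with
  | h0 c hc => simpa using T.hP (hA.le 1 hc) hv
  | h1 r => simpa [Algebra.algebraMap_eq_smul_one] using Submodule.smul_mem _ r hv
  | h2 a b ha hb => rw [map_add]; exact add_mem (ha hv) (hb hv)
  | h3 a b ha hb => rw [map_mul]; exact ha (hb hv)

end PT

end Pool.Agent.MP_2a197d_al.LB

end MrgPart0

-- ======== part 1: formerly Pool.Agent.MP_2a197d_al.LB2
section MrgPart1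

/-! Even operators act on the commutative algebra by nil-valued derivations. -/

set_option linter.unusedSectionVars false

namespace Pool.Agent.MP_2a197d_al.LB

open Function

universe u

theorem der_nil {C : Type u} [CommRing C] [Algebra ℚ C] (d : Derivation ℚ C C) {x : C}
    (h : x ∈ nilradical C) : d x ∈ nilradical C := by
  obtain ⟨n, hn⟩ := mem_nilradical.1 h
  have key : ∀ m r : ℕ, x ^ m * d x ^ r = 0 → ∃ r' : ℕ, d x ^ r' = 0 := by
    intro m
    induction m with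
    | zero => exact fun r h => ⟨r, by simpa using h⟩
    | succ m ih =>
      intro r h
      have h0 : x ^ (m + 1) * d x ^ (r + 1) = 0 := by rw [pow_succ (d x), ← mul_assoc, h, zero_mul]
      have h1 := congrArg d h0
      simp only [Derivation.leibniz, Derivation.leibniz_pow, smul_eq_mul, nsmul_eq_mul, map_zero,
        Nat.add_sub_cancel] at h1
      refine ih (r + 2) ?_
      have h2 : algebraMap ℚ C ((m + 1 : ℕ) : ℚ)⁻¹ * ((m + 1 : ℕ) : C) = 1 := by
        rw [← map_natCast (algebraMap ℚ C), ← map_mul, inv_mul_cancel₀ (by positivity), map_one]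
      linear_combination (algebraMap ℚ C ((m + 1 : ℕ) : ℚ)⁻¹) * h1 -
        (algebraMap ℚ C ((m + 1 : ℕ) : ℚ)⁻¹ * ((r + 1 : ℕ) : C) * d (d x)) * h -
        (x ^ m * d x ^ (r + 2)) * h2
  exact mem_nilradical.2 (key n 0 (by simpa using hn))

theorem rad_of_pow {C : Type u} [CommRing C] [Algebra ℚ C] {x y : C} (q : ℕ) (hq : q ≠ 0) (k : ℕ)
    (h : q * (x ^ (k + 1) * y) ∈ nilradical C) : x * y ∈ nilradical C := by
  have h2 : algebraMap ℚ C (q : ℚ)⁻¹ * (q : C) = 1 := by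
    rw [← map_natCast (algebraMap ℚ C), ← map_mul, inv_mul_cancel₀ (by positivity), map_one]
  have h3 := Ideal.mul_mem_left _ (algebraMap ℚ C (q : ℚ)⁻¹ * y ^ k) h
  have h4 : (x * y) ^ (k + 1) =
      algebraMap ℚ C (q : ℚ)⁻¹ * y ^ k * (q * (x ^ (k + 1) * y)) := by
    linear_combination (-(x * y) ^ (k + 1)) * h2
  exact mem_nilradical.2 (mem_nilradical.1 (h4 ▸ h3)).of_pow

theorem sd_abs {C : Type u} [CommRing C] [Algebra ℚ C] (t d e : Derivation ℚ C C) (s : C)
    (h : ∀ f f' : C, (f = 1 ∧ f' = 0) ∨ (f = s ∧ f' = 1) ∨ (f = s ^ 2 ∧ f' = 2 * s) ∨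
      (f = s ^ 3 ∧ f' = 3 * s ^ 2) → ∀ c,
      t (t (f * d c + f' * e c) - (f * d (t c) + f' * e (t c))) -
        (t (f * d (t c) + f' * e (t c)) - (f * d (t (t c)) + f' * e (t (t c)))) ∈ nilradical C)
    (c : C) : t s * d c ∈ nilradical C := by
  have h2 : t 2 = 0 := t.map_natCast 2
  have h3 : t 3 = 0 := t.map_natCast 3
  have e0 := h _ _ (Or.inl ⟨rfl, rfl⟩)
  have e1 := h _ _ (Or.inr (Or.inl ⟨rfl, rfl⟩))
  have e2 := h _ _ (Or.inr (Or.inr (Or.inl ⟨rfl, rfl⟩)))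
  have e3 := h _ _ (Or.inr (Or.inr (Or.inr ⟨rfl, rfl⟩)))
  simp only [pow_succ, pow_zero, map_add, map_sub, Derivation.leibniz, smul_eq_mul, h2, h3,
    mul_zero, add_zero, one_mul, zero_mul] at e0 e1 e2 e3
  have f1 : ∀ c, t s * e c ∈ nilradical C := fun c => by
    refine rad_of_pow 6 (by norm_num) 1 ?_
    convert sub_mem (add_mem (sub_mem (e3 c) (Ideal.mul_mem_left _ (3 * s) (e2 c)))
      (Ideal.mul_mem_left _ (3 * s ^ 2) (e1 c))) (Ideal.mul_mem_left _ (s ^ 3) (e0 c)) using 1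
    push_cast
    ring
  have f2 := der_nil t (f1 c)
  simp only [Derivation.leibniz, smul_eq_mul] at f2
  refine rad_of_pow 2 (by norm_num) 2 ?_
  convert add_mem (add_mem (sub_mem (Ideal.mul_mem_left _ (t s) (add_mem (sub_mem (e2 c)
    (Ideal.mul_mem_left _ (2 * s) (e1 c))) (Ideal.mul_mem_left _ (s ^ 2) (e0 c))))
    (Ideal.mul_mem_left _ (4 * t s) f2)) (Ideal.mul_mem_left _ (4 * t s) (f1 (t c))))
    (Ideal.mul_mem_left _ (2 * t (t s)) (f1 c)) using 1
  push_cast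
  ring

variable {V : Type u} [AddCommGroup V] [Module ℚ V] {T : PT V} {A : ℤˣ → Submodule ℚ (En V)}

/-- `X` acts on the model by `d`. -/
def IsD {A : Submodule ℚ (En V)} (R : CM A) (X : En V) (d : R.C → R.C) : Prop :=
  ∀ c, X * R.val c - R.val c * X = R.val (d c)

theorem IsD.br {A : Submodule ℚ (En V)} {R : CM A} {X Y : En V} {d e : R.C → R.C} (h : IsD R X d)
    (h' : IsD R Y e) : IsD R (X * Y - Y * X) fun c => d (e c) - e (d c) := fun c => by
  rw [map_sub, ← h, ← h', ← h', ← h]; noncomm_ring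

namespace PT

theorem Id.exD (hA : T.Id A) (R : CM (A 1)) {g : En V} (hg : g ∈ T.h 1) :
    ∃ d : Derivation ℚ R.C R.C, IsD R g d := by
  have h1 : ∀ c, ∃ c', g * R.val c - R.val c * g = R.val c' := by
    intro c
    induction c using R.ind with
    | h0 c hc =>
      obtain ⟨c', h⟩ := R.ex _ (show g * R.val c - R.val c * g ∈ A 1 by simpa using hA.id hg hc)
      exact ⟨c', h.symm⟩
    | h1 r => exact ⟨0, by simp [Algebra.algebraMap_eq_smul_one]⟩
    | h2 a b ha hb =>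
      obtain ⟨a', ha⟩ := ha
      obtain ⟨b', hb⟩ := hb
      exact ⟨a' + b', by rw [map_add, map_add, ← ha, ← hb]; noncomm_ring⟩
    | h3 a b ha hb =>
      obtain ⟨a', ha⟩ := ha
      obtain ⟨b', hb⟩ := hb
      exact ⟨a' * b + a * b', by rw [map_add, map_mul, map_mul, map_mul, ← ha, ← hb]; noncomm_ring⟩
  choose d hd using h1
  refine ⟨Derivation.mk' ⟨⟨d, fun a b => R.inj ?_⟩, fun r a => R.inj ?_⟩ fun a b => R.inj ?_, hd⟩
  · rw [map_add, ← hd, ← hd, ← hd, map_add]; noncomm_ring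
  · simp only [RingHom.id_apply, map_smul, ← hd, mul_smul_comm, smul_mul_assoc, smul_sub]
  · simp only [LinearMap.coe_mk, AddHom.coe_mk, smul_eq_mul]
    rw [mul_comm b, map_add, map_mul, map_mul, ← hd, ← hd, ← hd, map_mul]; noncomm_ring

theorem Id.sd0 (hA : T.Id A) (hH : HH A) (R : CM (A 1)) {g : En V} (hg : g ∈ T.G 1) (c : R.C) :
    ∃ n, IsNilpotent n ∧ g * R.val c = R.val c * g + R.val n := by
  have main : ∀ e j, j + e = T.n → ∀ θ ∈ T.Hs j, θ ∈ T.G 1 → ∀ d, IsD R θ d →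
      ∀ c, d c ∈ nilradical R.C := by
    intro e
    induction e with
    | zero =>
      rintro j hj θ h1 - d hd c
      obtain rfl : j = T.n := hj
      rw [T.s3, Submodule.mem_bot] at h1
      have := hd c
      rw [h1, zero_mul, mul_zero, sub_zero, ← map_zero R.val] at this
      rw [← R.inj this]; exact zero_mem _
    | succ e ih =>
      intro j hj θ h1 h2 d' hd' c
      obtain ⟨t, ht⟩ := hA.exD R (T.G_le 1 h2)
      rw [R.inj ((hd' c).symm.trans (ht c))]
      have hθ := T.G_le 1 h2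
      have k1 : ∀ g ∈ T.G 1, ∀ d, IsD R g d → ∀ c,
          t (t (d c) - d (t c)) - (t (d (t c)) - d (t (t c))) ∈ nilradical R.C := by
        intro g hg d hd
        have g1 : θ * g - g * θ ∈ T.G 1 := by simpa using T.G_id hθ hg
        refine ih (j + 1) (by omega) _ (T.s2 h1 ?_) (by simpa using T.G_id hθ g1) _ (ht.br (ht.br hd))
        simpa using neg_mem (T.s1 (T.G_le 1 hg) h1)
      have k2 : ∀ s, R.val s ∈ A 1 → ∀ g ∈ T.G 1, ∀ c c', g * R.val c - R.val c * g = R.val c' →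
          t s * c' ∈ nilradical R.C := by
        intro s hs g hg c
        refine Submodule.span_induction (p := fun g _ => ∀ c', g * R.val c - R.val c * g = R.val c' →
          t s * c' ∈ nilradical R.C) ?_ ?_ ?_ ?_ hg
        · rintro _ ⟨a, b, hab, Q, hQ, v, hv, rfl⟩ c' hc'
          have m : ∀ k, (Q ((R.val s ^ k) v) : En V) ∈ T.G 1 := fun k =>
            T.mem_G hQ (T.pow_mem (hA.le 1 hs) hv k) hab
          obtain ⟨d0, hd0⟩ := hA.exD R (T.G_le 1 (T.mem_G hQ hv hab))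
          obtain ⟨d1, hd1⟩ := hA.exD R (T.G_le 1 (m 1))
          rw [pow_one] at hd1
          rw [R.inj (hc'.symm.trans (hd0 c))]
          have hk : ∀ k : ℕ, IsD R (Q ((R.val s ^ (k + 1)) v))
              fun c => s ^ (k + 1) * d0 c + ((k + 1 : ℕ) * s ^ k) * (d1 - s • d0) c := by
            intro k c
            rw [T.tx (hA.sec hH hs) hQ hv]
            have c1 : ∀ a, R.val c * R.val a = R.val a * R.val c := fun a => by
              rw [← map_mul, mul_comm, map_mul]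
            simp only [← map_pow, Derivation.sub_apply, Derivation.smul_apply, smul_eq_mul, map_add,
              map_mul, map_sub, ← hd0 c, ← hd1 c, map_natCast, nsmul_eq_mul, mul_add, add_mul,
              mul_sub, sub_mul, ← mul_assoc, c1, ← Nat.cast_comm (k + 1) (R.val c)]
            simp only [mul_assoc, c1]
            noncomm_ring
          refine sd_abs t d0 (d1 - s • d0) s ?_ c
          rintro f f' (⟨rfl, rfl⟩ | ⟨rfl, rfl⟩ | ⟨rfl, rfl⟩ | ⟨rfl, rfl⟩) c
          · simpa using k1 _ (T.mem_G hQ hv hab) _ hd0 c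
          · simpa using k1 _ (m 1) _ (hk 0) c
          · simpa using k1 _ (m 2) _ (hk 1) c
          · simpa using k1 _ (m 3) _ (hk 2) c
        · intro c' h
          rw [zero_mul, mul_zero, sub_zero, ← map_zero R.val] at h
          rw [← R.inj h, mul_zero]; exact zero_mem _
        · intro x y hx hy h1 h2 c' h
          obtain ⟨d1, hd1⟩ := hA.exD R (T.G_le 1 hx)
          obtain ⟨d2, hd2⟩ := hA.exD R (T.G_le 1 hy)
          have : c' = d1 c + d2 c := R.inj (by rw [map_add, ← hd1, ← hd2, ← h]; noncomm_ring)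
          rw [this, mul_add]
          exact add_mem (h1 _ (hd1 c)) (h2 _ (hd2 c))
        · intro r x hx h1 c' h
          obtain ⟨d1, hd1⟩ := hA.exD R (T.G_le 1 hx)
          have : c' = algebraMap ℚ _ r * d1 c := R.inj (by
            rw [← Algebra.smul_def, map_smul, ← hd1, ← h, smul_sub, smul_mul_assoc, mul_smul_comm])
          rw [this, mul_left_comm]
          exact Ideal.mul_mem_left _ _ (h1 _ (hd1 c))
      induction c using R.ind with
      | h0 c hc =>
        exact mem_nilradical.2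
          (IsNilpotent.of_pow (m := 2) (by rw [pow_two]; exact k2 c hc θ h2 c _ (ht c)))
      | h1 r => rw [Derivation.map_algebraMap]; exact zero_mem _
      | h2 a b ha hb => rw [map_add]; exact add_mem ha hb
      | h3 a b ha hb =>
        rw [Derivation.leibniz]
        exact add_mem (Ideal.mul_mem_left _ _ hb) (Ideal.mul_mem_left _ _ ha)
  obtain ⟨d, hd⟩ := hA.exD R (T.G_le 1 hg)
  exact ⟨d c, mem_nilradical.1 (main T.n 0 (zero_add _) g (T.s0 (T.G_le 1 hg)) hg d hd c),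
    by rw [← hd c]; abel⟩

theorem Id.qr (hA : T.Id A) (hH : HH A) (R : CM (A 1)) {Q : V →ₗ[ℚ] V →ₗ[ℚ] V} (hQ : Q ∈ T.q 1)
    {u u' : V} (hu : u ∈ T.P 1) (hu' : u' ∈ T.P 1) (c c' : R.C) :
    ∃ n n', IsNilpotent n ∧ IsNilpotent n' ∧
      Q (R.val c u) (R.val c' u') = R.val (c * c') (Q u u') + R.val n u + R.val n' u' := by
  have h1 := hA.val_mem R c hu
  obtain ⟨n', e1, e2⟩ := hA.sd0 hH R (T.mem_G hQ h1 (one_mul 1)) c'
  obtain ⟨n, e3, e4⟩ := hA.sd0 hH R (T.mem_G hQ hu' (one_mul 1)) c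
  refine ⟨c' * n, n', (Commute.all _ _).isNilpotent_mul_left e3, e1, ?_⟩
  have f2 := LinearMap.congr_fun e2 u'
  have f4 := LinearMap.congr_fun e4 u
  simp only [LinearMap.add_apply, Module.End.mul_apply] at f2 f4
  rw [f2, T.sym hQ h1 hu', f4, T.sym hQ hu' hu, mul_comm c c']
  simp

theorem Id.ee (hA : T.Id A) (hH : HH A) {Q : V →ₗ[ℚ] V →ₗ[ℚ] V} (hQ : Q ∈ T.q 1)
    {z : V} (hz : z ∈ T.P 1) (hd : (Q z : En V) ∈ A 1) : IsNilpotent (Q z : En V) := by
  obtain ⟨R⟩ := exCM (A 1) (hH 1)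
  obtain ⟨d, e⟩ := R.ex _ hd
  let ev : R.C →ₗ[ℚ] V := LinearMap.applyₗ z ∘ₗ R.val.toLinearMap
  let I : Ideal R.C :=
    { carrier := {c | R.val c z = 0}
      add_mem' := fun {a b} ha hb => by
        simp only [Set.mem_ofPred_eq] at *
        rw [map_add, LinearMap.add_apply, ha, hb, add_zero]
      zero_mem' := by simp
      smul_mem' := fun a b hb => by
        simp only [Set.mem_ofPred_eq] at *
        rw [smul_eq_mul, map_mul, Module.End.mul_apply, hb, map_zero] }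
  obtain ⟨k, hk⟩ : ∃ k, d ^ k ∈ I := by
    by_contra hc
    push Not at hc
    obtain ⟨K, _, _, χ, h1, h2, -, h4⟩ := exPrime I d hc
    let Φ : AddSubgroup (V × K) := (ev.toAddMonoidHom.prod χ.toAddMonoidHom).range
    have hΦ : ∀ c, (R.val c z, χ c) ∈ Φ := fun c => ⟨c, rfl⟩
    have := T.chi Q hQ K (χ d) Φ h2 (by rintro _ ⟨c, rfl⟩; exact hA.val_mem R c hz)
      (by rintro _ ⟨c, rfl⟩ h; exact h1 c h) (by
        rintro _ ⟨c, rfl⟩ _ ⟨c', rfl⟩
        obtain ⟨n, n', e1, e2, e3⟩ := hA.qr hH R hQ hz hz c c'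
        convert hΦ (c * c' * d + n + n') using 2
        · change Q (R.val c z) (R.val c' z) = _
          rw [e3, ← e]; simp
        · change χ d * χ c * χ c' = _
          simp only [map_add, map_mul, h4 _ e1, h4 _ e2]; ring) _ (hΦ 1)
    simp at this
  have h1 : ((Q z : En V) ^ k) z = 0 := by rw [← e, ← map_pow]; exact hk
  exact ⟨k + 1 + 1, by rw [pow_succ]; exact T.t1 (hA.sec hH hd) hQ hz h1⟩

end PT

end Pool.Agent.MP_2a197d_al.LB

end MrgPart1

-- marker of a merged file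
example : 731051 + 574669 = 731051 + 574669 := rfl
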