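import Pool.Agent.MP_2a197d_al.LB2

/-! A Nakayama lemma and the first mixed case. -/

set_option linter.unusedSectionVars false

namespace Pool.Agent.MP_2a197d_al.LB

open Function

universe u

variable {V : Type u} [AddCommGroup V] [Module ℚ V]

/-- The span of the images of `Y` under a set of operators. -/
def CY (C : Set (En V)) (Y : Submodule ℚ V) : Submodule ℚ V :=
  Submodule.span ℚ {v | ∃ c ∈ C, ∃ u ∈ Y, v = c u}

theorem mem_CY {C : Set (En V)} {Y : Submodule ℚ V} {c : En V} {u : V} (hc : c ∈ C) (hu : u ∈ Y) :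
    c u ∈ CY C Y := Submodule.subset_span ⟨c, hc, u, hu, rfl⟩

theorem CY_map {C : Set (En V)} {Y : Submodule ℚ V} {W : Type*} [AddCommGroup W] [Module ℚ W]
    {Z : Submodule ℚ W} (f : V →ₗ[ℚ] W) (h : ∀ c ∈ C, ∀ u ∈ Y, f (c u) ∈ Z) {v : V}
    (hv : v ∈ CY C Y) : f v ∈ Z :=
  (Submodule.span_le (p := Z.comap f)).2 (by rintro _ ⟨c, hc, u, hu, rfl⟩; exact h c hc u hu) hv

theorem CY_stab {C : Set (En V)} {Y : Submodule ℚ V} {g : En V} (hY : ∀ u ∈ Y, g u ∈ Y)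
    (h : ∀ c ∈ C, ∃ e : ℚ, g * c = e • (c * g)) {v : V} (hv : v ∈ CY C Y) : g v ∈ CY C Y :=
  CY_map g (fun c hc u hu => by
    obtain ⟨e, he⟩ := h c hc
    rw [← Module.End.mul_apply, he]
    exact Submodule.smul_mem _ e (mem_CY (c := c) hc (hY u hu))) hv

theorem nak_aux (Y : Submodule ℚ V) (ω : En V) (hω : ∀ u ∈ Y, ω u ∈ Y) (s : Finset (En V)) :
    (∀ c ∈ s, (∀ u ∈ Y, c u ∈ Y) ∧ ω * c = c * ω ∧ IsNilpotent c ∧
      ∀ d ∈ s, ∃ e : ℚ, d * c = e • (c * d)) → ∀ Z : Submodule ℚ V, (∀ u ∈ Z, ω u ∈ Z) →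
      (∀ c ∈ s, ∀ u ∈ Z, c u ∈ Z) → (∀ u ∈ Y, ω u ∈ Z ⊔ CY s Y) → ∃ N, ∀ u ∈ Y, (ω ^ N) u ∈ Z := by
  classical
  induction s using Finset.induction_on with
  | empty => exact fun _ Z _ _ h => ⟨1, fun u hu => by simpa [CY] using h u hu⟩
  | insert c s hc ih =>
    intro hs Z h1 h2 h3
    obtain ⟨c1, c2, ⟨m, c3⟩, c4⟩ := hs c (Finset.mem_insert_self _ _)
    obtain ⟨N, hN⟩ := ih (fun d hd => by
      obtain ⟨d1, d2, d3, d4⟩ := hs d (Finset.mem_insert_of_mem hd)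
      exact ⟨d1, d2, d3, fun e he => d4 e (Finset.mem_insert_of_mem he)⟩) (Z ⊔ Y.map c) (by
        intro u hu
        obtain ⟨a, ha, _, ⟨b, hb, rfl⟩, rfl⟩ := Submodule.mem_sup.1 hu
        rw [map_add, ← Module.End.mul_apply ω c, c2]
        exact Submodule.add_mem_sup (h1 a ha) ⟨_, hω b hb, rfl⟩) (by
        intro d hd u hu
        have hd' := Finset.mem_insert_of_mem (b := c) hd
        obtain ⟨a, ha, _, ⟨b, hb, rfl⟩, rfl⟩ := Submodule.mem_sup.1 hu
        obtain ⟨e, he⟩ := c4 d hd'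
        rw [map_add, ← Module.End.mul_apply d c, he]
        exact Submodule.add_mem_sup (h2 d hd' a ha)
          (Submodule.smul_mem _ _ ⟨_, (hs d hd').1 b hb, rfl⟩)) (by
        intro u hu
        refine (sup_le (le_sup_of_le_left le_sup_left) (Submodule.span_le.2 ?_) :
          Z ⊔ CY (insert c s : Finset _) Y ≤ _) (h3 u hu)
        rintro _ ⟨d, hd, v, hv, rfl⟩
        rcases Finset.mem_insert.1 hd with rfl | hd
        · exact Submodule.mem_sup_left (Submodule.mem_sup_right ⟨v, hv, rfl⟩)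
        · exact Submodule.mem_sup_right (mem_CY hd hv))
    have hp : ∀ (f : En V) (k : ℕ), (∀ u ∈ Z, f u ∈ Z) → ∀ u ∈ Z, (f ^ k) u ∈ Z :=
      fun f k hf u hu => Module.End.pow_apply_mem_of_forall_mem k hf u hu
    have key : ∀ k, ∀ u ∈ Y, (ω ^ (N * k)) u ∈ Z ⊔ Y.map (c ^ k) := by
      intro k u hu
      induction k with
      | zero => exact Submodule.mem_sup_right ⟨u, hu, by simp⟩
      | succ k ih =>
        obtain ⟨a, ha, _, ⟨b, hb, rfl⟩, h⟩ := Submodule.mem_sup.1 ih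
        obtain ⟨a', ha', _, ⟨b', hb', rfl⟩, h'⟩ := Submodule.mem_sup.1 (hN b hb)
        rw [mul_add, mul_one, add_comm (N * k), pow_add ω, Module.End.mul_apply, ← h, map_add,
          ← Module.End.mul_apply (ω ^ N) (c ^ k), (Commute.pow_pow c2 N k).eq,
          Module.End.mul_apply, ← h', map_add, ← add_assoc]
        exact Submodule.add_mem_sup (add_mem (hp _ _ h1 a ha)
          (hp _ _ (h2 c (Finset.mem_insert_self _ _)) a' ha')) ⟨b', hb', by simp [pow_succ]⟩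
    exact ⟨N * m, fun u hu => by simpa [c3] using key m u hu⟩

/-- The submodule generated by `F` under a set of operators. -/
def Gn (O : Set (En V)) (F : Set V) : Submodule ℚ V :=
  sInf {Y | F ⊆ Y ∧ ∀ g ∈ O, ∀ u ∈ Y, g u ∈ Y}

theorem Gn_base {O : Set (En V)} {F : Set V} {v : V} (h : v ∈ F) : v ∈ Gn O F :=
  Submodule.mem_sInf.2 fun _ hY => hY.1 h

theorem Gn_step {O : Set (En V)} {F : Set V} {g : En V} (hg : g ∈ O) {v : V} (h : v ∈ Gn O F) :
    g v ∈ Gn O F := Submodule.mem_sInf.2 fun Y hY => hY.2 g hg v (Submodule.mem_sInf.1 h Y hY)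

theorem Gn_le {O : Set (En V)} {F : Set V} {Y : Submodule ℚ V} (h1 : F ⊆ Y)
    (h2 : ∀ g ∈ O, ∀ u ∈ Y, g u ∈ Y) : Gn O F ≤ Y := sInf_le ⟨h1, h2⟩

theorem nak {O C : Set (En V)} {F : Set V} (hF : F.Finite) (hC : C ⊆ O)
    (h1 : ∀ c ∈ C, IsNilpotent c ∧ ∀ g ∈ O, ∃ e : ℚ, g * c = e • (c * g)) {ω : En V}
    (h2 : ∀ g ∈ O, ω * g = g * ω) (h3 : ∀ f ∈ F, ω f ∈ CY C (Gn O F)) :
    ∃ N, ∀ u ∈ Gn O F, (ω ^ N) u = 0 := by
  classical
  have mono : ∀ {s t : Set (En V)}, s ⊆ t → CY s (Gn O F) ≤ CY t (Gn O F) := fun h =>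
    Submodule.span_mono fun _ ⟨c, hc, e⟩ => ⟨c, h hc, e⟩
  have e1 : ∀ v ∈ CY C (Gn O F), ∃ s : Finset (En V), ↑s ⊆ C ∧ v ∈ CY s (Gn O F) := by
    intro v hv
    refine Submodule.span_induction
      (p := fun v _ => ∃ s : Finset (En V), ↑s ⊆ C ∧ v ∈ CY s (Gn O F)) ?_ ⟨∅, by simp, zero_mem _⟩
      ?_ ?_ hv
    · rintro _ ⟨c, hc, u, hu, rfl⟩
      exact ⟨{c}, by simpa using hc, mem_CY (by simp) hu⟩
    · rintro x y _ _ ⟨s, s1, s2⟩ ⟨t, t1, t2⟩
      exact ⟨s ∪ t, by simp [s1, t1], add_mem (mono (by simp) s2) (mono (by simp) t2)⟩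
    · rintro r x _ ⟨s, s1, s2⟩
      exact ⟨s, s1, Submodule.smul_mem _ _ s2⟩
  choose! s s1 s2 using fun f hf => e1 _ (h3 f hf)
  have t1 : ∀ c ∈ hF.toFinset.biUnion s, c ∈ C := fun c hc => by
    obtain ⟨f, hf, hc⟩ := Finset.mem_biUnion.1 hc
    exact s1 f (hF.mem_toFinset.1 hf) hc
  have t2 : Gn O F ≤ (CY (hF.toFinset.biUnion s : Finset _) (Gn O F)).comap ω := by
    refine Gn_le (fun f hf => mono (fun c hc => ?_) (s2 f hf)) fun g hg u hu => ?_
    · exact Finset.mem_biUnion.2 ⟨f, hF.mem_toFinset.2 hf, hc⟩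
    · rw [Submodule.mem_comap, ← Module.End.mul_apply, h2 g hg]
      exact CY_stab (fun u hu => Gn_step hg hu) (fun c hc => (h1 c (t1 c hc)).2 g hg) hu
  exact nak_aux (Gn O F) ω (fun u hu => CY_map LinearMap.id
      (fun c hc u hu => Gn_step (hC (t1 c hc)) hu) (t2 hu)) _
    (fun c hc => ⟨fun u hu => Gn_step (hC (t1 c hc)) hu, h2 c (hC (t1 c hc)), (h1 c (t1 c hc)).1,
      fun d hd => (h1 c (t1 c hc)).2 d (hC (t1 d hd))⟩) ⊥ (by simp) (by simp)
    fun u hu => Submodule.mem_sup_right (t2 hu)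

theorem pmem {K : Type*} [AddCommGroup K] {S : AddSubgroup (V × K)} {z : V × K} (h : z ∈ S) {a : V}
    {k : K} (h1 : a = z.1) (h2 : k = z.2) : (a, k) ∈ S := by rw [h1, h2]; exact h

theorem two_eq {M : Type*} [AddCommGroup M] [Module ℚ M] {x : M} (h : x = -x) : x = 0 := by
  have : (2 : ℚ) • x = 0 := by rw [two_smul]; exact add_eq_zero_iff_eq_neg.2 h
  exact (smul_eq_zero.1 this).resolve_left two_ne_zero

variable {T : PT V} {A : ℤˣ → Submodule ℚ (En V)}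

namespace PT

theorem odd_self {a : ℤˣ} {Q : V →ₗ[ℚ] V →ₗ[ℚ] V} (hQ : Q ∈ T.q a) {ξ : V} (hξ : ξ ∈ T.P (-1)) :
    Q ξ ξ = 0 := two_eq (by simpa using T.sym hQ hξ hξ)

theorem Id.oo (hA : T.Id A) {g b : En V} (hg : g ∈ T.h (-1)) (hb : b ∈ A (-1)) :
    b * g + g * b ∈ A 1 := by simpa [add_comm] using hA.id hg hb

theorem Id.qa (hA : T.Id A) (hH : HH A) (R : CM (A 1)) {y : V →ₗ[ℚ] V →ₗ[ℚ] V} (hy : y ∈ T.q 1)
    {ξ : V} (hξ : ξ ∈ T.P (-1)) {b1 b2 : En V} (h1 : b1 ∈ A (-1)) (h2 : b2 ∈ A (-1)) {c : R.C}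
    (hc : R.val c = b2 * y ξ + y ξ * b2) : y (b2 ξ) ξ = R.val c ξ ∧
      y (b2 ξ) (b1 ξ) = R.val c (b1 ξ) + (y (b2 ξ) * b1 - b1 * y (b2 ξ) : En V) ξ := by
  have e : y (b2 ξ) ξ = R.val c ξ := by
    have : b2 ξ ∈ T.P 1 := by simpa using T.hP (hA.le _ h2) hξ
    rw [T.sym hy this hξ, hc]
    simp [odd_self hy hξ]
  refine ⟨e, ?_⟩
  have := LinearMap.congr_fun (R.comm (fun a ha => hH _ a ha b1 h1) c) ξ
  simp only [Module.End.mul_apply, LinearMap.sub_apply] at this ⊢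
  rw [e, this]; abel

theorem Id.m1 (hA : T.Id A) (hH : HH A) {Nn N1 : Submodule ℚ (En V)}
    (h1 : ∀ g ∈ T.G (-1), ∀ r ∈ A 1, g * r - r * g ∈ Nn) (h2 : Nn ≤ A (-1))
    (h3 : ∀ n ∈ Nn, ∀ b ∈ A (-1), n * b = -(b * n))
    (h4 : ∀ b ∈ A (-1), ∀ p, ∀ g ∈ T.G p, b * b * g = g * (b * b)) (h5 : N1 ≤ Nn)
    (h6 : ∀ g ∈ T.G 1, ∀ n ∈ N1, g * n - n * g ∈ N1)
    (h7 : ∀ g ∈ T.G (-1), ∀ n ∈ N1, IsNilpotent (n * g + g * n))
    (h8 : (∀ b ∈ A (-1), b * b = 0) ∨ Nn ≤ N1) {x : V →ₗ[ℚ] V →ₗ[ℚ] V} (hx : x ∈ T.q 1) {ξ : V}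
    (hξ : ξ ∈ T.P (-1)) {b0 : En V} (hb0 : b0 ∈ A (-1)) :
    IsNilpotent (b0 * x ξ + x ξ * b0 : En V) := by
  obtain ⟨R⟩ := exCM (A 1) (hH 1)
  have hD : (x ξ : En V) ∈ T.G (-1) := T.mem_G hx hξ (one_mul _)
  have hDh := T.G_le _ hD
  have D0 := odd_self hx hξ
  let κ : En V → R.C := fun b => invFun R.val (b * x ξ + x ξ * b)
  have hκ : ∀ b ∈ A (-1), R.val (κ b) = b * x ξ + x ξ * b := fun b hb =>
    invFun_eq (R.ex _ (hA.oo hDh hb))
  have κA : ∀ b ∈ A (-1), R.val (κ b) ∈ A 1 := fun b hb => hκ b hb ▸ hA.oo hDh hb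
  have Db : ∀ b ∈ A (-1), x ξ (b ξ) = R.val (κ b) ξ := fun b hb => by simp [hκ b hb, D0]
  have ev : ∀ b ∈ A (-1), b ξ ∈ T.P 1 := fun b hb => by simpa using T.hP (hA.le _ hb) hξ
  have cA : ∀ c, ∀ b ∈ A (-1), ∀ u, R.val c (b u) = b (R.val c u) := fun c b hb u =>
    LinearMap.congr_fun (R.comm (fun a ha => hH _ a ha b hb) c) u
  have cc : ∀ c d u, R.val c (R.val d u) = R.val (c * d) u := fun c d u => by simp
  let O : Set (En V) := Set.range R.val ∪ A (-1)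
  let Y := CY Nn (Gn O {ξ})
  have g0 : ξ ∈ Gn O {ξ} := Gn_base rfl
  have gc : ∀ c, ∀ u ∈ Gn O {ξ}, R.val c u ∈ Gn O {ξ} := fun c u hu => Gn_step (Or.inl ⟨c, rfl⟩) hu
  have Yc : ∀ c, ∀ u ∈ Y, R.val c u ∈ Y := fun c u hu => CY_stab (gc c)
    (fun n hn => ⟨1, by rw [one_smul]; exact LinearMap.ext (cA c n (h2 hn))⟩) hu
  have R1 : ∀ c, ∀ u ∈ Gn O {ξ}, x ξ (R.val c u) - R.val c (x ξ u) ∈ Y := by
    intro c
    induction c using R.ind with
    | h0 c hc => exact fun u hu => mem_CY (h1 _ hD _ hc) hu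
    | h1 r => intro u _; simp [Algebra.algebraMap_eq_smul_one]
    | h2 a b ha hb =>
      intro u hu
      convert add_mem (ha u hu) (hb u hu) using 1
      simp only [map_add, LinearMap.add_apply]; abel
    | h3 a b ha hb =>
      intro u hu
      convert add_mem (ha _ (gc b u hu)) (Yc a _ (hb u hu)) using 1
      simp only [map_mul, map_sub, Module.End.mul_apply]; abel
  let I : Ideal R.C :=
    { carrier := {c | R.val c ξ ∈ Y}
      add_mem' := fun {a b} ha hb => by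
        simp only [Set.mem_ofPred_eq] at *
        rw [map_add]; exact add_mem ha hb
      zero_mem' := by simp
      smul_mem' := fun a b hb => by
        simp only [Set.mem_ofPred_eq] at *
        rw [smul_eq_mul, ← cc]; exact Yc _ _ hb }
  obtain ⟨k, hk⟩ : ∃ k, κ b0 ^ k ∈ I := by
    by_contra hc
    push Not at hc
    obtain ⟨K, _, _, χ, i1, i2, i3, i4⟩ := exPrime I _ hc
    let Ψ : AddSubgroup (V × K) :=
      { carrier := {z | ∃ c, χ c = z.2 ∧ x ξ z.1 - R.val c ξ ∈ Y}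
        add_mem' := by
          rintro a b ⟨c, e1, e2⟩ ⟨d, f1, f2⟩
          refine ⟨c + d, by simp [e1, f1], ?_⟩
          convert add_mem e2 f2 using 1
          simp only [Prod.fst_add, map_add, LinearMap.add_apply]; abel
        zero_mem' := ⟨0, by simp, by simp⟩
        neg_mem' := by
          rintro a ⟨c, e1, e2⟩
          refine ⟨-c, by simp [e1], ?_⟩
          convert neg_mem e2 using 1
          simp only [Prod.fst_neg, map_neg, LinearMap.neg_apply]; abel }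
    have Ψ0 : ∀ z ∈ Ψ, z.1 ∈ (⊥ : Submodule ℚ V) → z.2 = 0 := by
      rintro z ⟨c, e1, e2⟩ h
      rw [(Submodule.mem_bot ℚ).1 h, map_zero, zero_sub] at e2
      rw [← e1]; exact i1 c ((neg_mem_iff (H := Y)).1 e2)
    have Ψ1 : ∀ c, ∀ b ∈ A (-1), (R.val c (b ξ), χ c * χ (κ b)) ∈ Ψ := fun c b hb =>
      ⟨c * κ b, map_mul _ _ _, by rw [← cc, ← Db b hb]; exact R1 c _ (Gn_step (Or.inr hb) g0)⟩
    have eG : ∀ {y}, y ∈ T.q 1 → ∀ b ∈ A (-1), (y (b ξ) : En V) ∈ T.G 1 := fun hy b hb =>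
      T.mem_G hy (ev b hb) (one_mul _)
    let β : En V → En V → En V := fun b b' => x (b ξ) * b' - b' * x (b ξ)
    have βA : ∀ b ∈ A (-1), ∀ b' ∈ A (-1), β b b' ∈ A (-1) := fun b hb b' hb' => by
      simpa using hA.id (T.G_le _ (eG hx b hb)) hb'
    have sa : ∀ b ∈ A (-1), χ (κ b) ≠ 0 → χ (κ (β b b)) = χ (κ b) ^ 2 := by
      intro b hb hne
      by_contra hμ
      obtain ⟨X, hX, eX⟩ := T.inv hDh hx
      obtain ⟨w, hw, ew⟩ := T.inv (hA.le _ hb) hX
      rw [mul_one] at hX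
      rw [mul_one, mm] at hw
      let Γ : Set (V × K) := {z | ∃ c, ∃ b' ∈ A (-1), z.1 = R.val c (b' ξ) ∧
        ((b' = b ∧ z.2 = χ c) ∨ (b' ∈ N1 ∧ z.2 = 0))}
      have m1 : ∀ c, (R.val c (b ξ), χ c) ∈ AddSubgroup.closure Γ := fun c =>
        AddSubgroup.subset_closure ⟨c, b, hb, rfl, Or.inl ⟨rfl, rfl⟩⟩
      have m2 : ∀ c, ∀ n ∈ N1, (R.val c (n ξ), (0 : K)) ∈ AddSubgroup.closure Γ := fun c n hn =>
        AddSubgroup.subset_closure ⟨c, n, h2 (h5 hn), rfl, Or.inr ⟨hn, rfl⟩⟩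
      have m3 : ∀ c, ∀ n ∈ N1, ∀ b' ∈ A (-1),
          (R.val c (w (b' ξ) (n ξ)), (0 : K)) ∈ AddSubgroup.closure Γ := by
        intro c n hn b' hb'
        obtain ⟨d, hd⟩ := R.ex _ (hA.oo (T.G_le _ (T.mem_G hw hξ (one_mul _))) hb')
        rw [(hA.qa hH R hw hξ (h2 (h5 hn)) hb' hd).2, map_add, cc]
        simpa using add_mem (m2 (c * d) n hn) (m2 c _ (h6 _ (eG hw b' hb') n hn))
      obtain ⟨n0, f1, f2⟩ := hA.sd0 hH R (eG hx b hb) (κ b)
      have hn1 := h1 _ hD _ (κA b hb)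
      set n1 : En V := x ξ * R.val (κ b) - R.val (κ b) * x ξ with en1
      have v0 := ev b hb
      have main : w (b ξ) (b ξ) =
          R.val (κ (β b b) - κ b ^ 2 - 2 * n0) (b ξ) + (3 : ℚ) • b (b (n1 ξ)) := by
        have a1 : ∀ u, x ξ (R.val (κ b) u) = R.val (κ b) (x ξ u) + n1 u := fun u => by simp [en1]
        have a2 : X (b ξ) ξ = (2 : ℚ) • n1 ξ := by
          rw [T.sym hX v0 hξ, eX _ ξ hξ]
          simp [D0, Db b hb, a1, two_smul]
        have a3 : X (b ξ) (b (b ξ)) = (2 : ℚ) • b (b (n1 ξ)) := by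
          have := LinearMap.congr_fun (h4 b hb _ _ (T.mem_G hX v0 rfl)) ξ
          simp only [Module.End.mul_apply] at this
          rw [← this, a2, map_smul, map_smul]
        have a4 : x (b ξ) (R.val (κ b) ξ) = R.val (κ b * κ b + n0) ξ := by
          have := LinearMap.congr_fun f2 ξ
          simp only [Module.End.mul_apply, LinearMap.add_apply] at this
          rw [this, (hA.qa hH R hx hξ hb hb (hκ b hb)).1]; simp
        have a5 : X (b ξ) (b ξ) = R.val (κ (β b b) - κ b ^ 2 - 2 * n0) ξ + n1 (b ξ) := by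
          rw [eX _ _ v0]
          simp only [mul_one, sb_one_right, sg_one_right, one_smul, LinearMap.sub_apply,
            Module.End.mul_apply]
          rw [Db b hb, T.sym hx (hA.val_mem R _ hξ) v0, a4,
            (hA.qa hH R hx hξ hb hb (hκ b hb)).2, map_add, a1, Db b hb, Db _ (βA b hb b hb)]
          simp only [sg_one_right, one_smul, map_sub, map_add, map_mul, pow_two, two_mul,
            LinearMap.sub_apply, LinearMap.add_apply, Module.End.mul_apply]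
          abel
        have a6 := LinearMap.congr_fun (h3 n1 hn1 b hb) ξ
        have a7 : b (b ξ) ∈ T.P (-1) := by simpa using T.hP (hA.le _ hb) v0
        rw [ew _ _ v0]
        simp only [mul_one, sb_neg, sg_neg, LinearMap.sub_apply, LinearMap.add_apply,
          Module.End.mul_apply, LinearMap.smul_apply, LinearMap.neg_apply] at a6 ⊢
        rw [T.sym hX a7 v0, a3, a5, map_add, a6, ← cA _ b hb, map_neg]
        simp only [sg_one_right]
        module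
      have m4 : ∀ c, (R.val c (b (b (n1 ξ))), (0 : K)) ∈ AddSubgroup.closure Γ := by
        intro c
        rcases h8 with h8 | h8
        · rw [← Module.End.mul_apply b b, h8 b hb]
          convert (AddSubgroup.closure Γ).zero_mem using 1
          simp
        · obtain ⟨o, ho⟩ := R.ex _ (Submodule.smul_mem _ (2⁻¹ : ℚ) (hA.oo (hA.le _ hb) hb))
          rw [← two_smul ℚ, smul_smul, inv_mul_cancel₀ two_ne_zero, one_smul] at ho
          rw [← Module.End.mul_apply b b, ← ho, cc]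
          exact m2 _ _ (h8 hn1)
      have := (T.chi w hw).gen Γ (sub_ne_zero.2 hμ) (by
          rintro z ⟨c, b', hb', e, -⟩
          rw [e]; exact hA.val_mem R c (ev b' hb')) (by
          intro z hz h
          have : (z.1, z.2 * χ (κ b)) ∈ Ψ := by
            refine (AddSubgroup.closure_le (Ψ.comap ((AddMonoidHom.id V).prodMap
              (AddMonoidHom.mulRight (χ (κ b)))))).2 ?_ hz
            rintro ⟨u, k⟩ ⟨c, b', hb', rfl, ⟨rfl, rfl⟩ | ⟨e, rfl⟩⟩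
            · exact Ψ1 c _ hb'
            · have := Ψ1 c _ hb'
              rw [i4 (κ b') (R.nil (by rw [hκ b' hb']; exact h7 _ hD _ e)), mul_zero] at this
              simpa using this
          exact (mul_eq_zero.1 (Ψ0 _ this h)).resolve_right hne) (by
          rintro ⟨_, k⟩ ⟨c, b1, hb1, rfl, e⟩ ⟨_, k'⟩ ⟨c', b2, hb2, rfl, e'⟩
          obtain ⟨n, n', e1, e2, e3⟩ := hA.qr hH R hw (ev b1 hb1) (ev b2 hb2) c c'
          have z1 : ∀ {b' : En V} {k : K} {c : R.C}, ((b' = b ∧ k = χ c) ∨ (b' ∈ N1 ∧ k = 0)) →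
              ∀ n, IsNilpotent n → (R.val n (b' ξ), (0 : K)) ∈ AddSubgroup.closure Γ := by
            rintro b' k c (⟨rfl, -⟩ | ⟨h, -⟩) n hn
            · exact i4 n hn ▸ m1 n
            · exact m2 n _ h
          have z2 : (R.val (c * c') (w (b1 ξ) (b2 ξ)), (χ (κ (β b b)) - χ (κ b) ^ 2) * k * k') ∈
              AddSubgroup.closure Γ := by
            rcases e' with ⟨rfl, rfl⟩ | ⟨e', rfl⟩
            · rcases e with ⟨rfl, rfl⟩ | ⟨e, rfl⟩
              · rw [main, map_add, cc]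
                refine pmem (add_mem (m1 (c * c' * (κ (β b1 b1) - κ b1 ^ 2 - 2 * n0)))
                  (m4 ((3 : ℚ) • (c * c')))) ?_ ?_
                · simp only [Prod.fst_add, map_smul, LinearMap.smul_apply]
                · simp only [Prod.snd_add, map_mul, map_sub, map_pow, i4 n0 f1]; ring
              · rw [T.sym hw (ev b1 hb1) (ev _ hb2)]
                simpa using m3 (c * c') b1 e _ hb2
            · simpa using m3 (c * c') b2 e' _ hb1
          simp only at e e' ⊢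
          rw [e3]
          simpa using add_mem (add_mem z2 (z1 e n e1)) (z1 e' n' e2))
        (R.val 1 (b ξ), χ 1) ⟨1, b, hb, rfl, Or.inl ⟨rfl, rfl⟩⟩
      simp at this
    have κadd : ∀ b ∈ A (-1), ∀ b' ∈ A (-1), κ (b + b') = κ b + κ b' := fun b hb b' hb' =>
      R.inj (by rw [map_add, hκ _ hb, hκ _ hb', hκ _ (add_mem hb hb')]; noncomm_ring)
    have κsub : ∀ b ∈ A (-1), ∀ b' ∈ A (-1), κ (b - b') = κ b - κ b' := fun b hb b' hb' =>
      R.inj (by rw [map_sub, hκ _ hb, hκ _ hb', hκ _ (sub_mem hb hb')]; noncomm_ring)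
    have βadd : ∀ b ∈ A (-1), ∀ b' ∈ A (-1), κ (β (b + b') (b + b')) =
        κ (β b b) + κ (β b' b') + (κ (β b b') + κ (β b' b)) := by
      intro b hb b' hb'
      rw [← κadd _ (βA _ hb _ hb) _ (βA _ hb' _ hb'), ← κadd _ (βA _ hb _ hb') _ (βA _ hb' _ hb),
        ← κadd _ (add_mem (βA _ hb _ hb) (βA _ hb' _ hb'))
          _ (add_mem (βA _ hb _ hb') (βA _ hb' _ hb))]
      congr 1
      simp only [β, LinearMap.add_apply, map_add]; noncomm_ring
    have βsub : ∀ b ∈ A (-1), ∀ b' ∈ A (-1), κ (β (b - b') (b - b')) =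
        κ (β b b) + κ (β b' b') - (κ (β b b') + κ (β b' b)) := by
      intro b hb b' hb'
      rw [← κadd _ (βA _ hb _ hb) _ (βA _ hb' _ hb'), ← κadd _ (βA _ hb _ hb') _ (βA _ hb' _ hb),
        ← κsub _ (add_mem (βA _ hb _ hb) (βA _ hb' _ hb'))
          _ (add_mem (βA _ hb _ hb') (βA _ hb' _ hb))]
      congr 1
      simp only [β, LinearMap.sub_apply, map_sub]; noncomm_ring
    have sb' : ∀ b ∈ A (-1), χ (κ (β b b)) = χ (κ b) ^ 2 := by
      intro b hb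
      by_cases hne : χ (κ b) = 0
      swap
      · exact sa b hb hne
      have e1 := sa _ (add_mem hb hb0) (by rw [κadd b hb _ hb0, map_add, hne, zero_add]; exact i2)
      have e2 := sa _ (sub_mem hb hb0) (by rw [κsub b hb _ hb0, map_sub, hne]; simpa using i2)
      have e3 := sa _ hb0 i2
      rw [βadd b hb _ hb0, κadd b hb _ hb0] at e1
      rw [βsub b hb _ hb0, κsub b hb _ hb0] at e2
      simp only [map_add, map_sub, hne] at e1 e2 ⊢
      refine mul_left_cancel₀ i3 ?_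
      linear_combination e1 + e2 - 2 * e3
    let Γ : Set (V × K) := {z | ∃ c, ∃ b ∈ A (-1), z = (R.val c (b ξ), χ c * χ (κ b))}
    have m1 : ∀ c, ∀ b ∈ A (-1), (R.val c (b ξ), χ c * χ (κ b)) ∈ AddSubgroup.closure Γ :=
      fun c b hb => AddSubgroup.subset_closure ⟨c, b, hb, rfl⟩
    have ΓΨ : AddSubgroup.closure Γ ≤ Ψ := (AddSubgroup.closure_le Ψ).2 (by
      rintro _ ⟨c, b, hb, rfl⟩; exact Ψ1 c b hb)
    have m2 : ∀ c, ∀ b ∈ A (-1), ∀ b' ∈ A (-1), (R.val c (x (b ξ) (b' ξ)),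
        χ c * (χ (κ b) * χ (κ b') + χ (κ (β b b')))) ∈ AddSubgroup.closure Γ := by
      intro c b hb b' hb'
      rw [(hA.qa hH R hx hξ hb' hb (hκ b hb)).2, map_add, cc]
      refine pmem (add_mem (m1 (c * κ b) b' hb') (m1 c _ (βA b hb b' hb'))) rfl ?_
      simp only [Prod.snd_add, map_mul]; ring
    have sc : ∀ b ∈ A (-1), ∀ b' ∈ A (-1), χ (κ (β b b')) = χ (κ b) * χ (κ b') := by
      intro b hb b' hb'
      have e1 := Ψ0 _ (ΓΨ (sub_mem (m2 1 b hb b' hb') (m2 1 b' hb' b hb))) (by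
        rw [T.sym hx (ev b hb) (ev b' hb')]; simp)
      have e2 := sb' _ (add_mem hb hb')
      rw [βadd b hb _ hb', κadd b hb _ hb'] at e2
      simp only [map_add, map_one, Prod.snd_sub, sb' b hb, sb' b' hb'] at e1 e2
      refine mul_left_cancel₀ i3 ?_
      linear_combination e1 + e2
    have := (T.chi x hx).gen Γ i3 (by
        rintro _ ⟨c, b', hb', rfl⟩
        exact hA.val_mem R c (ev b' hb')) (fun z hz => Ψ0 z (ΓΨ hz)) (by
        rintro _ ⟨c, b1, hb1, rfl⟩ _ ⟨c', b2, hb2, rfl⟩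
        obtain ⟨n, n', e1, e2, e3⟩ := hA.qr hH R hx (ev b1 hb1) (ev b2 hb2) c c'
        simp only
        rw [e3]
        refine pmem (add_mem (add_mem (m2 (c * c') b1 hb1 b2 hb2) (m1 n b1 hb1)) (m1 n' b2 hb2)) rfl ?_
        simp only [Prod.snd_add, sc b1 hb1 b2 hb2, i4 n e1, i4 n' e2, map_mul]; ring)
      _ ⟨1, b0, hb0, rfl⟩
    exact i2 (by simpa using this)
  obtain ⟨N, hN⟩ := nak (O := O) (C := Nn) (Set.finite_singleton ξ) (fun n hn => Or.inr (h2 hn))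
    (fun n hn => ⟨⟨2, by rw [pow_two]; exact two_eq (h3 n hn n (h2 hn))⟩, by
      rintro g (⟨c, rfl⟩ | hg)
      · exact ⟨1, by rw [one_smul]; exact LinearMap.ext (cA c n (h2 hn))⟩
      · exact ⟨-1, by rw [h3 n hn g hg]; simp⟩⟩) (ω := R.val (κ b0 ^ k)) (by
      rintro g (⟨c, rfl⟩ | hg)
      · rw [← map_mul, mul_comm, map_mul]
      · exact LinearMap.ext (cA _ g hg)) (by rintro _ rfl; exact hk)
  have e1 := hN ξ g0
  rw [map_pow, ← pow_mul] at e1
  have e2 := T.t1 (hA.sec hH (κA b0 hb0)) hx hξ e1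
  refine ⟨k * N + 1 + 1, ?_⟩
  rw [← hκ b0 hb0, pow_succ]
  nth_rewrite 2 [hκ b0 hb0]
  rw [mul_add, ← mul_assoc, ← mul_assoc, e2,
    (Commute.pow_left (hH _ _ (κA b0 hb0) b0 hb0) _).eq, mul_assoc, e2]
  simp

end PT

end Pool.Agent.MP_2a197d_al.LB
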