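import Pool.Agent.MP_2a197d_al.LB3

/-! The second mixed case, abelian ideals, and the Weyl lemma. -/

set_option linter.unusedSectionVars false

namespace Pool.Agent.MP_2a197d_al.LB

open Function

universe u

variable {V : Type u} [AddCommGroup V] [Module ℚ V] {T : PT V} {A : ℤˣ → Submodule ℚ (En V)}

namespace PT

theorem Id.m2 (hA : T.Id A) (hH : HH A) (hO : ∀ b ∈ A (-1), b * b = 0)
    {ζ : V →ₗ[ℚ] V →ₗ[ℚ] V} (hζ : ζ ∈ T.q (-1)) {v : V} (hv : v ∈ T.P 1) {c : En V}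
    (hc : c ∈ A (-1)) : IsNilpotent (c * ζ v + ζ v * c : En V) := by
  obtain ⟨R⟩ := exCM (A 1) (hH 1)
  obtain ⟨x, hx, ex⟩ := T.inv (hA.le _ hc) hζ
  rw [mm] at hx
  have ex1 : ∀ z ∈ T.P 1, (x z : En V) = c * ζ z + ζ z * c + ζ (c z) := fun z hz => by
    simpa using ex _ z hz
  have mA : ∀ z ∈ T.P 1, (c * ζ z + ζ z * c : En V) ∈ A 1 := fun z hz =>
    hA.oo (by simpa using T.qh hζ hz) hc
  let η : V → R.C := fun z => invFun R.val (c * ζ z + ζ z * c)
  have hη : ∀ z ∈ T.P 1, R.val (η z) = c * ζ z + ζ z * c := fun z hz => invFun_eq (R.ex _ (mA z hz))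
  have c2 : ∀ u, c (c u) = 0 := LinearMap.congr_fun (hO c hc)
  have cA : ∀ r u, R.val r (c u) = c (R.val r u) := fun r u =>
    LinearMap.congr_fun (R.comm (fun a ha => hH _ a ha c hc) r) u
  have od : ∀ z ∈ T.P 1, c z ∈ T.P (-1) := fun z hz => by simpa using T.hP (hA.le _ hc) hz
  have s1 : ∀ z ∈ T.P 1, c z = 0 → IsNilpotent (η z) := fun z hz h => by
    have : (x z : En V) = R.val (η z) := by rw [ex1 z hz, hη z hz, h, map_zero, add_zero]
    exact R.nil (this ▸ hA.ee hH hx hz (by rw [this, hη z hz]; exact mA z hz))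
  have s2 : ∀ z ∈ T.P 1, ∀ z' ∈ T.P 1, R.val (η z) (c z') = c (ζ (c z') z) := fun z hz z' hz' => by
    rw [hη z hz, T.sym hζ (od z' hz') hz]; simp [c2]
  have s3 : ∀ r, ∃ n, IsNilpotent n ∧
      R.val (η (R.val r v)) (c v) = R.val (r * η v + n) (c v) := fun r => by
    obtain ⟨n, e1, e2⟩ := hA.sd0 hH R (T.mem_G hζ (od v hv) mm) r
    have := LinearMap.congr_fun e2 v
    simp only [Module.End.mul_apply, LinearMap.add_apply] at this
    refine ⟨n, e1, ?_⟩
    rw [s2 _ (hA.val_mem R r hv) v hv, this, map_add, ← cA, ← cA, ← s2 v hv v hv]; simp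
  let I : Ideal R.C :=
    { carrier := {r | R.val r (c v) = 0}
      add_mem' := fun {a b} ha hb => by
        simp only [Set.mem_ofPred_eq] at *
        rw [map_add, LinearMap.add_apply, ha, hb, add_zero]
      zero_mem' := by simp
      smul_mem' := fun a b hb => by
        simp only [Set.mem_ofPred_eq] at *
        rw [smul_eq_mul, map_mul, Module.End.mul_apply, hb, map_zero] }
  obtain ⟨k, hk⟩ : ∃ k, η v ^ k ∈ I := by
    by_contra hn
    push Not at hn
    obtain ⟨K, _, _, χ, i1, i2, i3, i4⟩ := exPrime I _ hn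
    let Φ : AddSubgroup (V × K) :=
      { carrier := {z | z.1 ∈ T.P 1 ∧ ∃ r, χ r = z.2 ∧ c z.1 = R.val r (c v)}
        add_mem' := by
          rintro a b ⟨e0, r, e1, e2⟩ ⟨f0, r', f1, f2⟩
          exact ⟨add_mem e0 f0, r + r', by simp [e1, f1], by simp [e2, f2]⟩
        zero_mem' := ⟨zero_mem _, 0, by simp, by simp⟩
        neg_mem' := by
          rintro a ⟨e0, r, e1, e2⟩
          exact ⟨neg_mem e0, -r, by simp [e1], by simp [e2]⟩ }
    have s4 : ∀ z ∈ T.P 1, ∀ r, c z = R.val r (c v) → χ (η z) = χ r * χ (η v) := by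
      intro z hz r h
      have h1 := hA.val_mem R r hv
      obtain ⟨n, e1, e2⟩ := s3 r
      have e3 := i4 _ (s1 _ (sub_mem hz h1) (by rw [map_sub, h, cA, sub_self]))
      have e4 : η (z - R.val r v) = η z - η (R.val r v) := R.inj (by
        rw [map_sub, hη _ hz, hη _ h1, hη _ (sub_mem hz h1), map_sub]; noncomm_ring)
      have e5 := i1 (η (R.val r v) - (r * η v + n)) (by
        change R.val _ _ = 0
        rw [map_sub, LinearMap.sub_apply, e2, sub_self])
      simp only [e4, map_sub, map_add, map_mul, i4 n e1] at e3 e5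
      linear_combination e3 + e5
    have := T.chi x hx K (2 * χ (η v)) Φ (mul_ne_zero i3 i2) (fun z hz => hz.1) (by
        rintro z ⟨-, r, e1, e2⟩ h
        rw [(Submodule.mem_bot ℚ).1 h, map_zero] at e2
        rw [← e1]; exact i1 r e2.symm) (by
        rintro z ⟨e0, r, e1, e2⟩ z' ⟨f0, r', f1, f2⟩
        refine ⟨by simpa using T.hP (T.qh hx e0) f0, η z.1 * r' + η z'.1 * r, ?_, ?_⟩
        · simp only [map_add, map_mul, s4 _ e0 _ e2, s4 _ f0 _ f2, e1, f1]; ring
        · simp only [map_add, map_mul, LinearMap.add_apply, Module.End.mul_apply, ← e2, ← f2]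
          rw [ex1 _ e0, ← hη _ e0, s2 _ f0 _ e0, LinearMap.add_apply, map_add, cA])
      (v, 1) ⟨hv, 1, map_one _, by simp⟩
    simp at this
  have hs : R.val (η v) ∈ A 1 := hη v hv ▸ mA v hv
  have m : ∀ j, (R.val (η v) ^ j) v ∈ T.P 1 := T.pow_mem (hA.le _ hs) hv
  have s5 : ∀ j, k ≤ j → η v ^ (j + 2) + ((j + 1 : ℕ) * η v ^ j) *
      (η (R.val (η v) v) - η v * η v) ∈ nilradical R.C := by
    intro j hj
    obtain ⟨d, rfl⟩ := Nat.exists_eq_add_of_le hj
    have e1 := s1 _ (m (k + d + 1)) (by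
      rw [← map_pow, ← cA, show k + d + 1 = d + 1 + k by omega, pow_add, map_mul,
        Module.End.mul_apply, show R.val (η v ^ k) (c v) = 0 from hk, map_zero])
    refine mem_nilradical.2 ?_
    convert e1 using 1
    apply R.inj
    have c1 : ∀ r, c * R.val r = R.val r * c := fun r => (LinearMap.ext (cA r)).symm
    have e2 := hη _ (m 1)
    rw [pow_one] at e2
    rw [hη _ (m _), T.tx (hA.sec hH hs) hζ hv, pow_succ (η v) (k + d + 1)]
    simp only [map_add, map_mul, map_sub, e2, map_natCast, ← map_pow, nsmul_eq_mul, mul_add,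
      add_mul, mul_sub, sub_mul, ← mul_assoc, c1, ← Nat.cast_comm (k + d + 1) c]
    simp only [mul_assoc, c1]
    generalize R.val (η v ^ (k + d + 1)) = a, R.val (η v ^ (k + d)) = a'
    have e3 := hη v hv
    generalize (ζ (R.val (η v) v) : En V) = E, R.val (η v) = H at e3 ⊢
    subst e3
    noncomm_ring
  have := sub_mem (Ideal.mul_mem_left _ ((k + 1 + 1 : ℕ) * η v) (s5 k le_rfl))
    (Ideal.mul_mem_left _ ((k + 1 : ℕ) : R.C) (s5 (k + 1) (by omega)))
  rw [← hη v hv]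
  refine IsNilpotent.map (IsNilpotent.of_pow (m := k + 3) (mem_nilradical.1 ?_)) _
  convert this using 1
  push_cast
  ring

theorem nil_span {B : Submodule ℚ (En V)} (R : CM B) (f : En V →ₗ[ℚ] En V) {p : ℤˣ}
    (h : ∀ a b, a * b = p → ∀ Q ∈ T.q a, ∀ v ∈ T.P b, ∃ c, IsNilpotent c ∧ R.val c = f (Q v))
    {g : En V} (hg : g ∈ T.G p) : IsNilpotent (f g) := by
  suffices ∃ c, IsNilpotent c ∧ R.val c = f g by
    obtain ⟨c, h1, h2⟩ := this
    exact h2 ▸ h1.map _
  refine Submodule.span_induction (p := fun g _ => ∃ c, IsNilpotent c ∧ R.val c = f g) ?_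
    ⟨0, IsNilpotent.zero, by simp⟩ ?_ ?_ hg
  · rintro _ ⟨a, b, hab, Q, hQ, v, hv, rfl⟩
    exact h a b hab Q hQ v hv
  · rintro x y _ _ ⟨c, c1, c2⟩ ⟨d, d1, d2⟩
    exact ⟨c + d, (Commute.all _ _).isNilpotent_add c1 d1, by rw [map_add, map_add, c2, d2]⟩
  · rintro r x _ ⟨c, c1, c2⟩
    exact ⟨r • c, c1.smul r, by rw [map_smul, map_smul, c2]⟩

theorem par_odd {a b : ℤˣ} (h : a * b = -1) : (a = 1 ∧ b = -1) ∨ (a = -1 ∧ b = 1) := by
  rcases Int.units_eq_one_or a with rfl | rfl <;> rcases Int.units_eq_one_or b with rfl | rfl <;>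
    simp_all

theorem par_even {a b : ℤˣ} (h : a * b = 1) : a = b := by
  rcases Int.units_eq_one_or a with rfl | rfl <;> rcases Int.units_eq_one_or b with rfl | rfl <;>
    simp_all

theorem Id.thmD (hA : T.Id A) (hab : ∀ a b, ∀ x ∈ A a, ∀ y ∈ A b, sb a b x y = 0) {p : ℤˣ}
    {g x : En V} (hg : g ∈ T.G p) (hx : x ∈ A p) : IsNilpotent (sb p p g x) := by
  have hH : HH A := fun p r hr x hx => sub_eq_zero.1 (by simpa using hab 1 p r hr x hx)
  have hO : ∀ n ∈ A (-1), ∀ b ∈ A (-1), n * b = -(b * n) := fun n hn b hb =>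
    eq_neg_of_add_eq_zero_left (by simpa using hab _ _ n hn b hb)
  have h2 : ∀ b ∈ A (-1), b * b = 0 := fun b hb => two_eq (hO b hb b hb)
  obtain ⟨R⟩ := exCM (A 1) (hH 1)
  rcases Int.units_eq_one_or p with rfl | rfl
  · obtain ⟨c, rfl⟩ := R.ex x hx
    obtain ⟨n, e1, e2⟩ := hA.sd0 hH R hg c
    rw [sb_one_left, e2, add_sub_cancel_left]
    exact e1.map _
  · rw [sb_neg, add_comm]
    refine nil_span R (LinearMap.mulLeft ℚ x + LinearMap.mulRight ℚ x) (fun a b e Q hQ v hv => ?_) hg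
    obtain ⟨c, hc⟩ := R.ex _ (hA.oo (T.G_le _ (T.mem_G hQ hv e)) hx)
    refine ⟨c, R.nil ?_, hc⟩
    rw [hc]
    rcases par_odd e with ⟨rfl, rfl⟩ | ⟨rfl, rfl⟩
    · exact hA.m1 hH (Nn := A (-1)) (N1 := ⊥)
        (fun g hg r hr => by simpa using hA.id (T.G_le _ hg) hr) le_rfl hO
        (fun b hb p g _ => by rw [h2 b hb, zero_mul, mul_zero]) bot_le (by simp) (by simp)
        (Or.inl h2) hQ hv hx
    · exact hA.m2 hH h2 hQ hv hx

theorem thm1 (hab : ∀ a b, ∀ x ∈ T.h a, ∀ y ∈ T.h b, sb a b x y = 0) {g : En V} (hg : g ∈ T.G 1) :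
    IsNilpotent g := by
  have hA : T.Id T.h := ⟨fun _ => le_rfl, T.hh⟩
  have hH : HH T.h := fun p r hr x hx => sub_eq_zero.1 (by simpa using hab 1 p r hr x hx)
  obtain ⟨R⟩ := exCM (T.h 1) (hH 1)
  refine nil_span R LinearMap.id (fun a b e Q hQ v hv => ?_) hg
  have h1 := T.G_le _ (T.mem_G hQ hv e)
  obtain ⟨c, hc⟩ := R.ex _ h1
  refine ⟨c, R.nil ?_, hc⟩
  rw [hc]
  obtain rfl := par_even e
  rcases Int.units_eq_one_or a with rfl | rfl
  · exact hA.ee hH hQ hv h1
  · exact ⟨1 + 1 + 1, by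
      rw [pow_succ]; exact T.t1 (hA.sec hH h1) hQ hv (by simpa using odd_self hQ hv)⟩

theorem cen {c : En V} (hc : c ∈ T.h 1) (h : ∀ p, ∀ g ∈ T.G p, c * g = g * c) {a b : ℤˣ}
    {Q : V →ₗ[ℚ] V →ₗ[ℚ] V} (hQ : Q ∈ T.q a) {v : V} (hv : v ∈ T.P b) :
    (Q (c v) : En V) = c * Q v := by
  refine T.ext fun p u hu => ?_
  have := LinearMap.congr_fun (h _ _ (T.mem_G hQ hu rfl)) v
  simp only [Module.End.mul_apply] at this ⊢
  rw [T.sym hQ (by simpa using T.hP hc hv) hu, T.sym hQ hv hu, map_smul, this]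

theorem Id.thmH (hA : T.Id A) (hH : HH A)
    (hC : ∀ b ∈ A (-1), ∀ p, ∀ g ∈ T.G p, b * b * g = g * (b * b)) {b : En V} (hb : b ∈ A (-1))
    (hb' : b ∈ T.G (-1)) : IsNilpotent (b * b) := by
  let Nn : Submodule ℚ (En V) :=
    Submodule.span ℚ {n | ∃ g ∈ T.h (-1), ∃ r ∈ A 1, n = g * r - r * g}
  have n1 : ∀ g ∈ T.h (-1), ∀ r ∈ A 1, g * r - r * g ∈ Nn := fun g hg r hr =>
    Submodule.subset_span ⟨g, hg, r, hr, rfl⟩
  have n2 : Nn ≤ A (-1) := Submodule.span_le.2 (by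
    rintro _ ⟨g, hg, r, hr, rfl⟩; simpa using hA.id hg hr)
  have n3 : ∀ n ∈ Nn, ∀ b ∈ A (-1), n * b = -(b * n) := fun n hn b hb => by
    have : Nn ≤ LinearMap.ker (LinearMap.mulLeft ℚ b + LinearMap.mulRight ℚ b) :=
      Submodule.span_le.2 (by
        rintro _ ⟨g, hg, r, hr, rfl⟩
        change b * _ + _ * b = 0
        have e1 := hH _ r hr b hb
        have e2 := hH _ r hr _ (hA.oo hg hb)
        calc _ = (b * g + g * b) * r - r * (b * g + g * b) + g * (r * b - b * r) +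
            (r * b - b * r) * g := by noncomm_ring
          _ = 0 := by rw [e1, e2]; simp)
    exact eq_neg_of_add_eq_zero_right (this hn)
  have n4 : ∀ g ∈ T.h 1, ∀ n ∈ Nn, g * n - n * g ∈ Nn := fun g hg n hn => by
    have : Nn ≤ Nn.comap (LinearMap.mulLeft ℚ g - LinearMap.mulRight ℚ g) :=
      Submodule.span_le.2 (by
        rintro _ ⟨g', hg', r, hr, rfl⟩
        change g * _ - _ * g ∈ Nn
        convert add_mem (n1 (g * g' - g' * g) (by simpa using T.hh hg hg') r hr)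
          (n1 g' hg' (g * r - r * g) (by simpa using hA.id hg hr)) using 1
        noncomm_ring)
    exact this hn
  let B : ℤˣ → Submodule ℚ (En V) := fun p => if p = 1 then A 1 else Nn
  have B1 : B 1 = A 1 := if_pos rfl
  have B2 : B (-1) = Nn := if_neg (by decide)
  have hB : T.Id B := ⟨fun p => by
      rcases Int.units_eq_one_or p with rfl | rfl
      · exact B1 ▸ hA.le 1
      · exact B2 ▸ n2.trans (hA.le _), fun {a b g x} hg hx => by
      rcases Int.units_eq_one_or a with rfl | rfl <;> rcases Int.units_eq_one_or b with rfl | rfl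
      · rw [B1] at hx; simpa [B1] using hA.id hg hx
      · rw [B2] at hx; simpa [B2] using n4 g hg x hx
      · rw [B1] at hx; simpa [B2] using n1 g hg x hx
      · rw [B2] at hx; simpa [B1] using hA.id hg (n2 hx)⟩
  have n5 : ∀ g ∈ T.G (-1), ∀ n ∈ Nn, IsNilpotent (n * g + g * n) := fun g hg n hn => by
    simpa [add_comm] using hB.thmD (fun a b x hx y hy => by
      rcases Int.units_eq_one_or a with rfl | rfl <;> rcases Int.units_eq_one_or b with rfl | rfl
      · rw [B1] at hx hy; simp [hH _ x hx y hy]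
      · rw [B1] at hx; rw [B2] at hy; simp [hH _ x hx y (n2 hy)]
      · rw [B2] at hx; rw [B1] at hy; simp [hH _ y hy x (n2 hx)]
      · rw [B2] at hx hy; simp [n3 x hx y (n2 hy)]) hg (B2 ▸ hn)
  have M := fun {x} (hx : x ∈ T.q 1) {ξ} (hξ : ξ ∈ T.P (-1)) =>
    hA.m1 hH (fun g hg => n1 g (T.G_le _ hg)) n2 n3 hC le_rfl (fun g hg => n4 g (T.G_le _ hg)) n5
      (Or.inr le_rfl) hx hξ hb
  obtain ⟨R⟩ := exCM (A 1) (hH 1)
  have ho : b * b ∈ A 1 := by
    have := Submodule.smul_mem _ (2⁻¹ : ℚ) (hA.oo (hA.le _ hb) hb)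
    rwa [← two_smul ℚ, smul_smul, inv_mul_cancel₀ two_ne_zero, one_smul] at this
  obtain ⟨o, e⟩ := R.ex _ ho
  have := nil_span R (LinearMap.mulLeft ℚ (b * b) ∘ₗ
      (LinearMap.mulLeft ℚ b + LinearMap.mulRight ℚ b)) (fun a a' h Q hQ v hv => by
    obtain ⟨c, hc⟩ := R.ex _ (hA.oo (T.G_le _ (T.mem_G hQ hv h)) hb)
    refine ⟨o * c, R.nil ?_, by rw [map_mul, e, hc]; rfl⟩
    rw [map_mul]
    rcases par_odd h with ⟨rfl, rfl⟩ | ⟨rfl, rfl⟩
    · refine Commute.isNilpotent_mul_left ?_ (hc ▸ M hQ hv)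
      rw [Commute, SemiconjBy, ← map_mul, mul_comm, map_mul]
    · obtain ⟨x, hx, ex⟩ := T.inv (hA.le _ hb) hQ
      have h1 : b v ∈ T.P (-1) := by simpa using T.hP (hA.le _ hb) hv
      have h2 := hC b hb _ _ (T.mem_G hQ h1 rfl)
      convert M (mm ▸ hx) h1 using 1
      rw [ex _ _ h1, ← Module.End.mul_apply b b, cen (hA.le _ ho) (hC b hb) hQ hv, e, hc]
      simp only [mm, sb_one_right, sg_neg, neg_smul, one_smul, sub_neg_eq_add]
      calc _ = b * (b * Q (b v) - Q (b v) * b + b * b * Q v) +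
          (b * Q (b v) - Q (b v) * b + b * b * Q v) * b -
            (b * b * Q (b v) - Q (b v) * (b * b)) := by noncomm_ring
        _ = _ := by rw [h2, sub_self, sub_zero]) hb'
  change IsNilpotent (b * b * (b * b + b * b)) at this
  rw [mul_add, ← two_smul ℚ, ← pow_two (b * b)] at this
  have h2 := this.smul (2⁻¹ : ℚ)
  rw [smul_smul, inv_mul_cancel₀ two_ne_zero, one_smul] at h2
  exact h2.of_pow

end PT

theorem weyl {P Q c : En V} (h : P * Q - Q * P = c) (hP : c * P = P * c) (hQ : c * Q = Q * c) :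
    ∀ (n m : ℕ) (φ : V), (P ^ n) φ = 0 → (Q ^ m) φ = 0 → ∃ N, (c ^ N) φ = 0 := by
  have e : ∀ k φ, P ((Q ^ (k + 1)) φ) = (Q ^ (k + 1)) (P φ) + (k + 1) • (Q ^ k) (c φ) := fun k φ => by
    have := LinearMap.congr_fun (pow_comm2 (s := Q) (g := P) (by rw [h, hQ]) k) φ
    rwa [h] at this
  have cQ : ∀ i k φ, (Q ^ k) ((c ^ i) φ) = (c ^ i) ((Q ^ k) φ) := fun i k φ =>
    (LinearMap.congr_fun (Commute.pow_pow hQ i k).eq φ).symm
  have cP : ∀ i k φ, (P ^ k) ((c ^ i) φ) = (c ^ i) ((P ^ k) φ) := fun i k φ =>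
    (LinearMap.congr_fun (Commute.pow_pow hP i k).eq φ).symm
  have e1 : ∀ n m φ, (Q ^ m) φ = 0 → ∃ k, (Q ^ k) ((P ^ n) φ) = 0 := by
    intro n m φ h
    induction n with
    | zero => exact ⟨m, h⟩
    | succ n ih =>
      obtain ⟨k, hk⟩ := ih
      have h1 := e k ((P ^ n) φ)
      have h2 := cQ 1 k ((P ^ n) φ)
      rw [pow_one] at h2
      rw [h2, pow_succ' Q, Module.End.mul_apply, hk] at h1
      exact ⟨k + 1, by simpa [pow_succ'] using h1.symm⟩
  have e2 : ∀ k ψ, P ψ = 0 → (Q ^ k) ψ = 0 → (c ^ k) ψ = 0 := by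
    intro k
    induction k with
    | zero => exact fun ψ _ h => h
    | succ k ih =>
      intro ψ h1 h2
      have h3 := e k ψ
      rw [h1, h2, map_zero, map_zero, zero_add, ← Nat.cast_smul_eq_nsmul ℚ] at h3
      rw [pow_succ]
      exact ih _ (by rw [← Module.End.mul_apply, ← hP, Module.End.mul_apply, h1, map_zero])
        ((smul_eq_zero.1 h3.symm).resolve_left (by positivity))
  intro n
  induction n with
  | zero => exact fun m φ h _ => ⟨0, h⟩
  | succ n ih =>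
    intro m φ h1 h2
    obtain ⟨k, hk⟩ := e1 n m φ h2
    obtain ⟨N, hN⟩ := ih m ((c ^ k) φ)
      (by rw [cP]; exact e2 k _ (by simpa [pow_succ'] using h1) hk) (by rw [cQ, h2, map_zero])
    exact ⟨N + k, by rw [pow_add]; exact hN⟩

theorem sub_pow_apply {a b : En V} (h : Commute a b) {φ : V} {i : ℕ} (ha : (a ^ i) φ = 0)
    (hb : (b ^ i) φ = 0) : ((a - b) ^ (i + i)) φ = 0 := by
  rw [sub_eq_add_neg, h.neg_right.add_pow, LinearMap.sum_apply]
  refine Finset.sum_eq_zero fun k _ => ?_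
  rw [← Nat.cast_comm, Module.End.mul_apply]
  suffices (a ^ k * (-b) ^ (i + i - k)) φ = 0 by rw [this, map_zero]
  by_cases hk : i ≤ k
  · obtain ⟨d, rfl⟩ := Nat.exists_eq_add_of_le' hk
    rw [(h.neg_right.pow_pow _ _).eq, pow_add]; simp [ha]
  · obtain ⟨d, hd⟩ := Nat.exists_eq_add_of_le' (show i ≤ i + i - k by omega)
    rw [hd, pow_add, neg_pow b i]; simp [hb]

/-- Slot operators on bilinear maps. -/
def op (a b c : En V) : En (V →ₗ[ℚ] V →ₗ[ℚ] V) where
  toFun B := (B.compl₁₂ b c).compr₂ a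
  map_add' _ _ := by ext; simp
  map_smul' _ _ := by ext; simp

@[simp] theorem op_apply (a b c : En V) (B : V →ₗ[ℚ] V →ₗ[ℚ] V) (u v : V) :
    op a b c B u v = a (B (b u) (c v)) := rfl

theorem PT.five {s : En V} (hs : s ∈ T.h 1) (h : ∀ p, ∀ g ∈ T.G p,
    s * (s * (s * g - g * s) - (s * g - g * s) * s) = (s * (s * g - g * s) - (s * g - g * s) * s) * s)
    {a : ℤˣ} {Q : V →ₗ[ℚ] V →ₗ[ℚ] V} (hQ : Q ∈ T.q a) :
    ((op 1 s 1 - op 1 1 s) ^ (3 + 3)) Q = 0 := by
  have e : op 1 s 1 - op 1 1 s = (op s 1 1 - op 1 1 s) - (op s 1 1 - op 1 s 1) := by abel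
  rw [e]
  refine sub_pow_apply (by ext; simp; abel) ?_ ?_
  · refine T.ext fun p u hu => LinearMap.ext fun v => ?_
    have := LinearMap.congr_fun (h _ _ (T.mem_G hQ hu rfl)) v
    simp only [pow_succ, pow_zero, Module.End.mul_apply, LinearMap.sub_apply, map_sub, op_apply,
      Module.End.one_apply, LinearMap.zero_apply] at this ⊢
    rw [← sub_eq_zero.2 this]
  · refine T.ext fun p u hu => T.ext fun p' v hv => ?_
    have := LinearMap.congr_fun (h _ _ (T.mem_G hQ hv rfl)) u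
    have h1 : ∀ {u}, u ∈ T.P p → s u ∈ T.P p := fun hu => by simpa using T.hP hs hu
    simp only [pow_succ, pow_zero, Module.End.mul_apply, LinearMap.sub_apply, map_sub, op_apply,
      Module.End.one_apply, LinearMap.zero_apply] at this ⊢
    rw [T.sym hQ hu hv, T.sym hQ (h1 hu) hv, T.sym hQ (h1 (h1 hu)) hv, T.sym hQ (h1 (h1 (h1 hu))) hv]
    simp only [map_smul, ← smul_sub]
    rw [← smul_zero (sg p p'), ← sub_eq_zero.2 this]

theorem PT.Id.thmE (hA : T.Id A) (hC : ∀ x ∈ A 1, ∀ p, ∀ y ∈ A p, ∀ a, ∀ g ∈ T.h a,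
    (x * y - y * x) * g = sg p a • (g * (x * y - y * x))) {x y : En V} (hx : x ∈ A 1) (hy : y ∈ A 1)
    (hG : x * y - y * x ∈ T.G 1) : IsNilpotent (x * y - y * x) := by
  set c := x * y - y * x with hc
  have c1 : ∀ a, ∀ g ∈ T.h a, c * g = g * c := fun a g hg => by simpa using hC x hx 1 y hy a g hg
  have f : ∀ s ∈ A 1, ∀ {a Q}, Q ∈ T.q a → ((op 1 s 1 - op 1 1 s) ^ (3 + 3)) Q = 0 :=
    fun s hs a Q hQ => T.five (hA.le _ hs) (fun p g hg => by
      have h1 : s * g - g * s ∈ A p := by simpa using neg_mem (hA.id (T.G_le _ hg) hs)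
      simpa using (hC s hs p _ h1 1 s (hA.le _ hs)).symm) hQ
  have cx : ∀ u, c (x u) = x (c u) := LinearMap.congr_fun (c1 _ _ (hA.le _ hx))
  have cy : ∀ u, c (y u) = y (c u) := LinearMap.congr_fun (c1 _ _ (hA.le _ hy))
  have key : ∀ g ∈ T.G 1, ∃ N, c ^ N * g = 0 := by
    intro g hg
    refine Submodule.span_induction (p := fun g _ => ∃ N, c ^ N * g = 0) ?_ ⟨0, by simp⟩ ?_ ?_ hg
    · rintro _ ⟨a, b, -, Q, hQ, v, hv, rfl⟩
      obtain ⟨N, hN⟩ := weyl (P := op 1 y 1 - op 1 1 y) (Q := op 1 x 1 - op 1 1 x)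
        (c := op 1 c 1 + op 1 1 c) (by ext; simp [hc]; abel) (by ext; simp [cy]; abel)
        (by ext; simp [cx]; abel) _ _ Q (f y hy hQ) (f x hx hQ)
      have e : ∀ k, ((op 1 c 1 + op 1 1 c) ^ k) Q = (2 : ℚ) ^ k • op (c ^ k) 1 1 Q := by
        intro k
        induction k with
        | zero => ext; simp
        | succ k ih =>
          rw [pow_succ', Module.End.mul_apply, ih]
          refine T.ext fun p u hu => LinearMap.ext fun w => ?_
          have e1 := LinearMap.congr_fun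
            (PT.cen (T.G_le _ hG) (fun p g hg => c1 p g (T.G_le _ hg)) hQ hu) w
          have e2 := LinearMap.congr_fun (c1 _ _ (T.qh hQ hu)) w
          simp only [Module.End.mul_apply] at e1 e2
          simp only [map_smul, LinearMap.smul_apply, LinearMap.add_apply, op_apply,
            Module.End.one_apply, e1, ← e2, pow_succ, Module.End.mul_apply]
          module
      rw [e] at hN
      have := (smul_eq_zero.1 hN).resolve_left (by positivity)
      exact ⟨N, LinearMap.ext fun w => by simpa using LinearMap.congr_fun₂ this v w⟩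
    · rintro g g' _ _ ⟨N, h1⟩ ⟨N', h2⟩
      refine ⟨N + N', ?_⟩
      rw [mul_add, pow_add, mul_assoc _ _ g', h2, ← pow_add, add_comm N, pow_add, mul_assoc, h1]
      simp
    · rintro r g _ ⟨N, h1⟩
      exact ⟨N, by rw [mul_smul_comm, h1, smul_zero]⟩
  obtain ⟨N, hN⟩ := key c hG
  exact ⟨N + 1, by rw [pow_succ, hN]⟩

end Pool.Agent.MP_2a197d_al.LB
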