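import Pool.Agent.MP_2a197d_al.LB4
import Pool.Agent.MP_2a197d_al.Star

-- ======== part 0: formerly Pool.Agent.MP_2a197d_al.LB5
section MrgPart0

/-! Relative prolongation settings, passage to the quotient, and ideals with central square. -/

set_option linter.unusedSectionVars false

namespace Pool.Agent.MP_2a197d_al.LB

open Function

universe u

/-- The sum of the two components. -/
def tot {X : Type u} [AddCommGroup X] [Module ℚ X] (M : ℤˣ → Submodule ℚ X) : Submodule ℚ X :=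
  M 1 ⊔ M (-1)

/-- The prolongation setting modulo a subspace. -/
structure RP (X : Type u) [AddCommGroup X] [Module ℚ X] where
  /-- the module -/
  M : ℤˣ → Submodule ℚ X
  /-- the submodule -/
  W : ℤˣ → Submodule ℚ X
  /-- operators -/
  h : ℤˣ → Submodule ℚ (En X)
  /-- quadratic maps -/
  q : ℤˣ → Submodule ℚ (X →ₗ[ℚ] X →ₗ[ℚ] X)
  /-- derived chain -/
  Hs : ℕ → Submodule ℚ (En X)
  /-- its length -/
  n : ℕ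
  le : ∀ p, W p ≤ M p
  hM : ∀ {a b g v}, g ∈ h a → v ∈ M b → g v ∈ M (a * b)
  hW : ∀ {a b g v}, g ∈ h a → v ∈ W b → g v ∈ W (a * b)
  hh : ∀ {a b g g'}, g ∈ h a → g' ∈ h b → sb a b g g' ∈ h (a * b)
  qh : ∀ {a b Q v}, Q ∈ q a → v ∈ M b → (Q v : En X) ∈ h (a * b)
  qW : ∀ {a b c Q w v}, Q ∈ q a → w ∈ W b → v ∈ M c → Q w v ∈ tot W
  sym : ∀ {a b c Q u v}, Q ∈ q a → u ∈ M b → v ∈ M c → Q u v - sg b c • Q v u ∈ tot W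
  inv : ∀ {a b g Q}, g ∈ h a → Q ∈ q b → ∃ Q' ∈ q (a * b), ∀ c, ∀ v ∈ M c,
    (Q' v : En X) = sb a (b * c) g (Q v) - sg a b • Q (g v)
  chi : ∀ Q ∈ q 1, Chi (M 1) (tot W) Q
  s0 : h 1 ≤ Hs 0
  s1 : ∀ {j x y}, x ∈ h 1 → y ∈ Hs j → x * y - y * x ∈ Hs j
  s2 : ∀ {j x y}, x ∈ Hs j → y ∈ Hs j → x * y - y * x ∈ Hs (j + 1)
  s3 : ∀ g ∈ Hs n, ∀ v ∈ tot M, g v ∈ tot W
  s4 : ∀ j, Hs j ≤ h 1

variable {X : Type u} [AddCommGroup X] [Module ℚ X]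

theorem le_tot (M : ℤˣ → Submodule ℚ X) (p : ℤˣ) : M p ≤ tot M := by
  rcases Int.units_eq_one_or p with rfl | rfl
  exacts [le_sup_left, le_sup_right]

theorem tot_map {Y : Type*} [AddCommGroup Y] [Module ℚ Y] {M : ℤˣ → Submodule ℚ X}
    {U : Submodule ℚ Y} (f : X →ₗ[ℚ] Y) (h : ∀ p, ∀ v ∈ M p, f v ∈ U) {v : X} (hv : v ∈ tot M) :
    f v ∈ U := (sup_le (h 1) (h (-1)) : tot M ≤ U.comap f) hv

namespace RP

variable (Γ : RP X)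

/-- Operators preserving both subspaces. -/
def St (g : En X) : Prop := (∀ v ∈ tot Γ.M, g v ∈ tot Γ.M) ∧ ∀ v ∈ tot Γ.W, g v ∈ tot Γ.W

/-- Operators acting trivially on the quotient. -/
def Tz (g : En X) : Prop := ∀ v ∈ tot Γ.M, g v ∈ tot Γ.W

theorem st {a : ℤˣ} {g : En X} (hg : g ∈ Γ.h a) : Γ.St g :=
  ⟨fun _ => tot_map g fun _ _ h => le_tot _ _ (Γ.hM hg h),
    fun _ => tot_map g fun _ _ h => le_tot _ _ (Γ.hW hg h)⟩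

/-- Transfer data to the quotient. -/
structure Tr where
  /-- the quotient -/
  V : Type u
  [ab : AddCommGroup V]
  [md : Module ℚ V]
  /-- the setting on the quotient -/
  T : PT V
  /-- the projection -/
  F : X →ₗ[ℚ] V
  /-- induced operators -/
  π : En X →ₗ[ℚ] En V
  FP : ∀ {p m}, m ∈ Γ.M p → F m ∈ T.P p
  h : ∀ p, T.h p = (Γ.h p).map π
  Fg : ∀ {g m}, Γ.St g → m ∈ tot Γ.M → F (g m) = π g (F m)
  F0 : ∀ {m}, m ∈ tot Γ.M → F m = 0 → m ∈ tot Γ.W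
  mul : ∀ {g g'}, Γ.St g → Γ.St g' → π (g * g') = π g * π g'
  G : ∀ {a b Q m}, Q ∈ Γ.q a → m ∈ Γ.M b → π (Q m) ∈ T.G (a * b)
  z : ∀ {g}, Γ.Tz g → π g = 0

attribute [instance] Tr.ab Tr.md

theorem exTr : Nonempty Γ.Tr := by
  let V := tot Γ.M ⧸ (tot Γ.W).comap (tot Γ.M).subtype
  let F0 : tot Γ.M →ₗ[ℚ] V := Submodule.mkQ _
  obtain ⟨F, hF⟩ := LinearMap.exists_extend F0
  obtain ⟨σ0, hσ⟩ := F0.exists_rightInverse_of_surjective (Submodule.range_mkQ _)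
  let σ : V →ₗ[ℚ] X := (tot Γ.M).subtype ∘ₗ σ0
  have WM : tot Γ.W ≤ tot Γ.M := sup_le_sup (Γ.le _) (Γ.le _)
  have k0 : ∀ m (hm : m ∈ tot Γ.M), F m = F0 ⟨m, hm⟩ := fun m hm => LinearMap.congr_fun hF ⟨m, hm⟩
  have k1 : ∀ m ∈ tot Γ.M, (F m = 0 ↔ m ∈ tot Γ.W) := fun m hm => by
    rw [k0 m hm]; exact Submodule.Quotient.mk_eq_zero _
  have k2 : ∀ v, σ v ∈ tot Γ.M := fun v => (σ0 v).2
  have k3 : ∀ v, F (σ v) = v := fun v => (k0 _ (k2 v)).trans (LinearMap.congr_fun hσ v)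
  have k4 : ∀ m ∈ tot Γ.M, σ (F m) - m ∈ tot Γ.W := fun m hm =>
    (k1 _ (sub_mem (k2 _) hm)).1 (by rw [map_sub, k3, sub_self])
  have k5 : ∀ {a b}, a - b ∈ tot Γ.W → F a = F b := fun h =>
    sub_eq_zero.1 (by rw [← map_sub]; exact (k1 _ (WM h)).2 h)
  let π : En X →ₗ[ℚ] En V := LinearMap.llcomp ℚ V X V F ∘ₗ LinearMap.lcomp ℚ X σ
  have hπ : ∀ g v, π g v = F (g (σ v)) := fun _ _ => rfl
  let π2 : (X →ₗ[ℚ] X →ₗ[ℚ] X) →ₗ[ℚ] (V →ₗ[ℚ] V →ₗ[ℚ] V) :=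
    LinearMap.llcomp ℚ V (En X) (En V) π ∘ₗ LinearMap.lcomp ℚ (En X) σ
  have Fg : ∀ {g m}, Γ.St g → m ∈ tot Γ.M → F (g m) = π g (F m) := fun {g m} hg hm =>
    (k5 (a := g (σ (F m))) (by rw [← map_sub]; exact hg.2 _ (k4 m hm))).symm
  have mul : ∀ {g g'}, Γ.St g → Γ.St g' → π (g * g') = π g * π g' := fun {g g'} hg hg' =>
    LinearMap.ext fun v => Fg hg (hg'.1 _ (k2 v))
  have z : ∀ {g}, Γ.Tz g → π g = 0 := fun {g} hg => LinearMap.ext fun v =>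
    (k1 _ (WM (hg _ (k2 v)))).2 (hg _ (k2 v))
  have p2 : ∀ {a Q m}, Q ∈ Γ.q a → m ∈ tot Γ.M → π2 Q (F m) = π (Q m) := fun {a Q m} hQ hm => by
    change π (Q (σ (F m))) = _
    rw [← sub_eq_zero, ← map_sub, ← map_sub]
    exact z fun v hv => tot_map (Q.flip v) (fun _ _ hw => tot_map (Q _)
      (fun _ _ hv => Γ.qW hQ hw hv) hv) (k4 m hm)
  have psb : ∀ a b {g g'}, Γ.St g → Γ.St g' → π (sb a b g g') = sb a b (π g) (π g') :=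
    fun a b g g' hg hg' => by simp only [sb, map_sub, map_smul, mul hg hg', mul hg' hg]
  have pbr : ∀ {g g'}, g ∈ Γ.h 1 → g' ∈ Γ.h 1 → π (g * g' - g' * g) = π g * π g' - π g' * π g :=
    fun hg hg' => by simpa using psb 1 1 (Γ.st hg) (Γ.st hg')
  let T : PT V :=
    { P := fun p => (Γ.M p).map F
      h := fun p => (Γ.h p).map π
      q := fun p => (Γ.q p).map π2
      Hs := fun j => (Γ.Hs j).map π
      n := Γ.n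
      top := by
        rw [← Submodule.map_sup, eq_top_iff]
        exact fun v _ => ⟨σ v, k2 v, k3 v⟩
      hP := by
        rintro a b _ _ ⟨g, hg, rfl⟩ ⟨v, hv, rfl⟩
        exact ⟨_, Γ.hM hg hv, Fg (Γ.st hg) (le_tot _ _ hv)⟩
      hh := by
        rintro a b _ _ ⟨g, hg, rfl⟩ ⟨g', hg', rfl⟩
        exact ⟨_, Γ.hh hg hg', psb a b (Γ.st hg) (Γ.st hg')⟩
      qh := by
        rintro a b _ _ ⟨Q, hQ, rfl⟩ ⟨v, hv, rfl⟩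
        exact ⟨_, Γ.qh hQ hv, (p2 hQ (le_tot _ _ hv)).symm⟩
      sym := by
        rintro a b c _ _ _ ⟨Q, hQ, rfl⟩ ⟨u, hu, rfl⟩ ⟨v, hv, rfl⟩
        rw [p2 hQ (le_tot _ _ hu), p2 hQ (le_tot _ _ hv), ← Fg (Γ.st (Γ.qh hQ hu)) (le_tot _ _ hv),
          ← Fg (Γ.st (Γ.qh hQ hv)) (le_tot _ _ hu), ← map_smul]
        exact k5 (Γ.sym hQ hu hv)
      inv := by
        rintro a b _ _ ⟨g, hg, rfl⟩ ⟨Q, hQ, rfl⟩
        obtain ⟨Q', h1, h2⟩ := Γ.inv hg hQ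
        refine ⟨_, ⟨Q', h1, rfl⟩, ?_⟩
        rintro c _ ⟨v, hv, rfl⟩
        rw [← Fg (Γ.st hg) (le_tot _ _ hv), p2 h1 (le_tot _ _ hv), p2 hQ (le_tot _ _ hv),
          p2 hQ (le_tot _ _ (Γ.hM hg hv)), h2 c v hv, map_sub, map_smul,
          psb _ _ (Γ.st hg) (Γ.st (Γ.qh hQ hv))]
      chi := by
        rintro _ ⟨Q, hQ, rfl⟩ K _ _ μ Φ h1 h2 h3 h4 z hz
        obtain ⟨u, hu, e⟩ := h2 z hz
        refine Γ.chi Q hQ K μ ((Γ.M 1).toAddSubgroup.comap (AddMonoidHom.fst X K) ⊓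
          Φ.comap (F.toAddMonoidHom.prodMap (AddMonoidHom.id K))) h1 (fun z hz => hz.1)
          (fun z hz h => h3 _ hz.2 ((k1 _ (WM h)).2 h)) (fun z hz z' hz' => ⟨?_, ?_⟩) (u, z.2)
          ⟨hu, show (F u, z.2) ∈ Φ from e ▸ hz⟩
        · simpa using Γ.hM (Γ.qh hQ hz.1) hz'.1
        · have := h4 _ hz.2 _ hz'.2
          change (π2 Q (F z.1) (F z'.1), _) ∈ Φ at this
          have e1 : z.1 ∈ Γ.M 1 := hz.1
          have e2 : z'.1 ∈ Γ.M 1 := hz'.1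
          rw [p2 hQ (le_tot _ _ e1), ← Fg (Γ.st (Γ.qh hQ e1)) (le_tot _ _ e2)] at this
          exact this
      s0 := Submodule.map_mono Γ.s0
      s1 := by
        rintro j _ _ ⟨x, hx, rfl⟩ ⟨y, hy, rfl⟩
        exact ⟨_, Γ.s1 hx hy, pbr hx (Γ.s4 j hy)⟩
      s2 := by
        rintro j _ _ ⟨x, hx, rfl⟩ ⟨y, hy, rfl⟩
        exact ⟨_, Γ.s2 hx hy, pbr (Γ.s4 j hx) (Γ.s4 j hy)⟩
      s3 := by
        rw [eq_bot_iff]
        rintro _ ⟨g, hg, rfl⟩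
        exact z (Γ.s3 g hg)
      s4 := fun j => Submodule.map_mono (Γ.s4 j) }
  exact ⟨⟨V, T, F, π, fun h => ⟨_, h, rfl⟩, fun _ => rfl, Fg, fun h => (k1 _ h).1, mul,
    fun {a b Q m} hQ hm => p2 hQ (le_tot _ _ hm) ▸
      T.mem_G (Q := π2 Q) (v := F m) ⟨Q, hQ, rfl⟩ ⟨m, hm, rfl⟩ rfl, z⟩⟩

variable {Γ}

theorem St.mul {g g' : En X} (h : Γ.St g) (h' : Γ.St g') : Γ.St (g * g') :=
  ⟨fun v hv => h.1 _ (h'.1 v hv), fun v hv => h.2 _ (h'.2 v hv)⟩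

theorem Tr.psb (t : Γ.Tr) (a b : ℤˣ) {g g' : En X} (hg : Γ.St g) (hg' : Γ.St g') :
    t.π (sb a b g g') = sb a b (t.π g) (t.π g') := by
  simp only [sb, map_sub, map_smul, t.mul hg hg', t.mul hg' hg]

theorem Tr.pow (t : Γ.Tr) {g : En X} (hg : Γ.St g) {m : X} (hm : m ∈ tot Γ.M) {n : ℕ}
    (h : (t.π g ^ n) (t.F m) = 0) : (g ^ n) m ∈ tot Γ.W := by
  have : ∀ n, t.F ((g ^ n) m) = (t.π g ^ n) (t.F m) := fun n => by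
    induction n with
    | zero => rfl
    | succ n ih =>
      rw [pow_succ', pow_succ', Module.End.mul_apply, Module.End.mul_apply, ← ih,
        t.Fg hg (Module.End.pow_apply_mem_of_forall_mem n hg.1 m hm)]
  exact t.F0 (Module.End.pow_apply_mem_of_forall_mem n hg.1 m hm) ((this n).trans h)

theorem Tr.id (t : Γ.Tr) {A : ℤˣ → Submodule ℚ (En X)} (h1 : ∀ p, A p ≤ Γ.h p)
    (h2 : ∀ {a b g x}, g ∈ Γ.h a → x ∈ A b → sb a b g x ∈ A (a * b)) :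
    t.T.Id fun p => (A p).map t.π :=
  ⟨fun p => t.h p ▸ Submodule.map_mono (h1 p), fun {a b g x} hg hx => by
    rw [t.h] at hg
    obtain ⟨g, hg, rfl⟩ := hg
    obtain ⟨x, hx, rfl⟩ := hx
    exact ⟨_, h2 hg hx, t.psb a b (Γ.st hg) (Γ.st (h1 _ hx))⟩⟩

end RP

variable {V : Type u} [AddCommGroup V] [Module ℚ V] {T : PT V} {A : ℤˣ → Submodule ℚ (En V)}

theorem loc_add {a b : En V} (h : Commute a b) (ha : ∀ y, ∃ n, (a ^ n) y = 0)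
    (hb : ∀ y, ∃ n, (b ^ n) y = 0) (y : V) : ∃ n, ((a - b) ^ n) y = 0 := by
  obtain ⟨n, hn⟩ := ha y
  obtain ⟨m, hm⟩ := hb y
  exact ⟨_, sub_pow_apply h (i := m + n) (by rw [pow_add]; simp [hn])
    (by rw [add_comm, pow_add]; simp [hm])⟩

theorem PT.Id.thmO (hA : T.Id A) (hG : ∀ p, A p ≤ T.G p)
    (hC : ∀ p q, ∀ x ∈ A p, ∀ y ∈ A q, ∀ a, ∀ g ∈ T.h a, sb (p * q) a (sb p q x y) g = 0)
    {b : En V} (hb : b ∈ A (-1)) (y : V) : ∃ n, ((b * b) ^ n) y = 0 := by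
  have hC1 : ∀ x ∈ A 1, ∀ p, ∀ y ∈ A p, ∀ a, ∀ g ∈ T.h a,
      (x * y - y * x) * g = sg p a • (g * (x * y - y * x)) := fun x hx p y hy a g hg =>
    sub_eq_zero.1 (by simpa [sb] using hC 1 p x hx y hy a g hg)
  have hC2 : ∀ b ∈ A (-1), ∀ a, ∀ g ∈ T.h a, b * b * g = g * (b * b) := fun b hb a g hg => by
    have := hC _ _ b hb b hb a g hg
    rw [mm, sb_one_left, sb_neg, ← two_smul ℚ, smul_mul_assoc, mul_smul_comm, ← smul_sub] at this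
    exact sub_eq_zero.1 ((smul_eq_zero.1 this).resolve_left two_ne_zero)
  obtain ⟨F, F1, F2, F3⟩ : ∃ F : Set V, F.Finite ∧ (∀ f ∈ F, ∃ p, f ∈ T.P p) ∧ b ∈
      Submodule.span ℚ {g : En V | ∃ a c, a * c = -1 ∧ ∃ Q ∈ T.q a, ∃ v ∈ T.P c, v ∈ F ∧ g = Q v} := by
    have mono : ∀ {F F' : Set V}, F ⊆ F' → Submodule.span ℚ {g : En V | ∃ a c, a * c = -1 ∧
        ∃ Q ∈ T.q a, ∃ v ∈ T.P c, v ∈ F ∧ g = Q v} ≤ Submodule.span ℚ {g : En V | ∃ a c, a * c = -1 ∧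
        ∃ Q ∈ T.q a, ∃ v ∈ T.P c, v ∈ F' ∧ g = Q v} := fun h => Submodule.span_mono
      fun _ ⟨a, c, e, Q, hQ, v, hv, h1, h2⟩ => ⟨a, c, e, Q, hQ, v, hv, h h1, h2⟩
    refine Submodule.span_induction (p := fun b _ => ∃ F : Set V, F.Finite ∧
      (∀ f ∈ F, ∃ p, f ∈ T.P p) ∧ b ∈ Submodule.span ℚ {g : En V | ∃ a c, a * c = -1 ∧
        ∃ Q ∈ T.q a, ∃ v ∈ T.P c, v ∈ F ∧ g = Q v}) ?_ ⟨∅, by simp, by simp, zero_mem _⟩ ?_ ?_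
      (hG _ hb)
    · rintro _ ⟨a, c, e, Q, hQ, v, hv, rfl⟩
      exact ⟨{v}, by simp, by rintro _ rfl; exact ⟨c, hv⟩,
        Submodule.subset_span ⟨a, c, e, Q, hQ, v, hv, rfl, rfl⟩⟩
    · rintro x y _ _ ⟨F, F1, F2, F3⟩ ⟨E, E1, E2, E3⟩
      exact ⟨F ∪ E, F1.union E1, fun f hf => hf.elim (F2 f) (E2 f),
        add_mem (mono Set.subset_union_left F3) (mono Set.subset_union_right E3)⟩
    · rintro r x _ ⟨F, F1, F2, F3⟩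
      exact ⟨F, F1, F2, Submodule.smul_mem _ _ F3⟩
  obtain ⟨y0, hy0, y1, hy1, rfl⟩ := Submodule.mem_sup.1 (T.top ▸ Submodule.mem_top (x := y))
  let F' : Set V := insert y0 (insert y1 F)
  have F4 : ∀ f ∈ F', ∃ p, f ∈ T.P p := by
    rintro f (rfl | rfl | hf)
    exacts [⟨_, hy0⟩, ⟨_, hy1⟩, F2 f hf]
  let O : Set (En V) := {g | ∃ p, g ∈ T.h p}
  let C : ℤˣ → Set (En V) := fun p => {c | ∃ r ∈ A 1, ∃ x ∈ A p, c = r * x - x * r}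
  have CA : ∀ p, ∀ c ∈ C p, c ∈ A p := by
    rintro p _ ⟨r, hr, x, hx, rfl⟩; simpa using hA.id (hA.le _ hr) hx
  have Cc : ∀ p, ∀ c ∈ C p, ∀ a, ∀ g ∈ T.h a, g * c = sg p a • (c * g) := by
    rintro p _ ⟨r, hr, x, hx, rfl⟩ a g hg
    rw [hC1 r hr p x hx a g hg, smul_smul, sg_sq, one_smul]
  let Y := Gn O F'
  let M : ℤˣ → Submodule ℚ V := fun p => Y ⊓ T.P p
  let W : ℤˣ → Submodule ℚ V := fun p =>
    Submodule.span ℚ {v | ∃ a c, a * c = p ∧ ∃ g ∈ C a, ∃ u ∈ M c, v = g u}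
  have mW : ∀ {a c g u}, g ∈ C a → u ∈ M c → g u ∈ W (a * c) := fun hg hu =>
    Submodule.subset_span ⟨_, _, rfl, _, hg, _, hu, rfl⟩
  have hM : ∀ {a b g v}, g ∈ T.h a → v ∈ M b → g v ∈ M (a * b) := fun {a b g v} hg hv =>
    ⟨Gn_step (show g ∈ O from ⟨a, hg⟩) hv.1, T.hP hg hv.2⟩
  have YM : Y ≤ tot M := Gn_le (fun f hf => by
    obtain ⟨p, hp⟩ := F4 f hf
    exact le_tot M p ⟨Gn_base hf, hp⟩) fun g ⟨a, hg⟩ _ =>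
      tot_map g fun _ _ h => le_tot M _ (hM hg h)
  have Wi : ∀ {p} {U : Submodule ℚ V} (f : V →ₗ[ℚ] V), (∀ a c, a * c = p → ∀ g ∈ C a, ∀ u ∈ M c,
      f (g u) ∈ U) → ∀ v ∈ W p, f v ∈ U := fun {p U} f h =>
    (Submodule.span_le (p := U.comap f)).2 (by
      rintro _ ⟨a, c, e, g, hg, u, hu, rfl⟩; exact h a c e g hg u hu)
  have hW : ∀ {a b g v}, g ∈ T.h a → v ∈ W b → g v ∈ W (a * b) := fun {a b g v} hg =>
    Wi g (by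
      rintro a' c rfl g' hg' u hu
      rw [← Module.End.mul_apply, Cc _ _ hg' _ _ hg, mul_left_comm]
      exact Submodule.smul_mem _ _ (mW (g := g') hg' (hM hg hu))) v
  have le : ∀ p, W p ≤ M p := fun p => Wi LinearMap.id (by
    rintro a c rfl g hg u hu; exact hM (g := g) (hA.le _ (CA _ _ hg)) hu)
  let Γ : RP V :=
    { M := M, W := W, h := T.h, q := T.q, Hs := T.Hs, n := T.n, le := le, hM := hM, hW := hW
      hh := T.hh, qh := fun hQ hv => T.qh hQ hv.2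
      qW := fun hQ hw hv => by
        rw [T.sym hQ (le _ hw).2 hv.2]
        exact Submodule.smul_mem _ _ (le_tot W _ (hW (T.qh hQ hv.2) hw))
      sym := fun hQ hu hv => by rw [← T.sym hQ hu.2 hv.2, sub_self]; exact zero_mem _
      inv := fun hg hQ => by
        obtain ⟨Q', h1, h2⟩ := T.inv hg hQ
        exact ⟨Q', h1, fun c v hv => h2 c v hv.2⟩
      chi := fun Q hQ K _ _ μ Φ h1 h2 h3 => T.chi Q hQ K μ Φ h1 (fun z hz => (h2 z hz).2)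
        fun z hz h => h3 z hz (bot_le (a := tot W) h)
      s0 := T.s0, s1 := T.s1, s2 := T.s2, s4 := T.s4
      s3 := fun g hg v _ => by rw [T.s3, Submodule.mem_bot] at hg; simp [hg] }
  obtain ⟨t⟩ := Γ.exTr
  have st : ∀ {p x}, x ∈ A p → Γ.St x := fun hx => Γ.st (hA.le _ hx)
  obtain ⟨n, hn⟩ := (t.id hA.le hA.id).thmH (by
      rintro p _ ⟨r, hr, rfl⟩ _ ⟨x, hx, rfl⟩
      rw [← t.mul (st hr) (st hx), ← t.mul (st hx) (st hr), ← sub_eq_zero, ← map_sub]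
      exact t.z fun v => tot_map _ fun c u hu => le_tot W _ (mW ⟨r, hr, x, hx, rfl⟩ hu)) (by
      rintro _ ⟨x, hx, rfl⟩ p g hg
      have hg' := t.T.G_le p hg
      rw [t.h] at hg'
      clear hg
      obtain ⟨g, hg, rfl⟩ := hg'
      rw [← t.mul (st hx) (st hx), ← t.mul ((st hx).mul (st hx)) (Γ.st hg),
        ← t.mul (Γ.st hg) ((st hx).mul (st hx)), hC2 x hx p g hg]) ⟨b, hb, rfl⟩
    ((Submodule.span_le (p := (t.T.G (-1)).comap t.π)).2 (by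
      rintro _ ⟨a, c, e, Q, hQ, v, hv, h1, rfl⟩
      exact e ▸ t.G hQ (m := v) ⟨Gn_base (Or.inr (Or.inr h1)), hv⟩) F3)
  rw [← t.mul (st hb) (st hb)] at hn
  obtain ⟨N, hN⟩ := nak (O := O) (C := C 1 ∪ C (-1)) (F := F') ((F1.insert _).insert _)
    (by rintro c (hc | hc) <;> exact ⟨_, hA.le _ (CA _ c hc)⟩) (by
      rintro c (hc | hc)
      · refine ⟨?_, fun g ⟨a, hg⟩ => ⟨_, Cc _ c hc a g hg⟩⟩
        obtain ⟨r, hr, x, hx, rfl⟩ := _root_.id hc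
        exact hA.thmE hC1 hr hx (hG _ (CA _ _ hc))
      · refine ⟨⟨2, ?_⟩, fun g ⟨a, hg⟩ => ⟨_, Cc _ c hc a g hg⟩⟩
        rw [pow_two]
        exact two_eq (by simpa using Cc _ c hc _ c (hA.le _ (CA _ c hc)))) (ω := (b * b) ^ n)
    (fun g ⟨a, hg⟩ => Commute.pow_left (hC2 b hb a g hg) n) fun f hf =>
      tot_map LinearMap.id (fun p => Wi LinearMap.id fun a c _ g hg u hu => mem_CY (c := g) (by
        rcases Int.units_eq_one_or a with rfl | rfl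
        exacts [Or.inl hg, Or.inr hg]) hu.1)
        (t.pow ((st hb).mul (st hb)) (YM (Gn_base hf)) (by rw [hn]; rfl))
  exact ⟨n * N, by
    rw [pow_mul]
    exact hN _ (add_mem (Gn_base (Or.inl rfl)) (Gn_base (Or.inr (Or.inl rfl))))⟩

theorem PT.Id.thmC (hA : T.Id A)
    (hC : ∀ p q, ∀ x ∈ A p, ∀ y ∈ A q, ∀ a, ∀ g ∈ T.h a, sb (p * q) a (sb p q x y) g = 0)
    {p : ℤˣ} {x x' : En V} (hx : x ∈ A p) (hx' : x' ∈ A p) (gx : x ∈ T.G p) (gx' : x' ∈ T.G p)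
    (y : V) : ∃ n, (sb p p x x' ^ n) y = 0 := by
  have hB : T.Id fun p => A p ⊓ T.G p :=
    ⟨fun p => inf_le_left.trans (hA.le p), fun hg hx => ⟨hA.id hg hx.1, T.G_id hg hx.2⟩⟩
  rcases Int.units_eq_one_or p with rfl | rfl
  · obtain ⟨n, hn⟩ := hA.thmE (fun x hx p y hy a g hg =>
      sub_eq_zero.1 (by simpa [sb] using hC 1 p x hx y hy a g hg)) hx hx'
      (by simpa using T.G_id (T.G_le _ gx) gx')
    exact ⟨n, by rw [sb_one_left, hn]; rfl⟩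
  · have h1 := fun b hb => hB.thmO (b := b) (fun _ => inf_le_right)
      (fun p q x hx y hy => hC p q x hx.1 y hy.1) hb
    have h2 : ∀ b ∈ A (-1), ∀ g ∈ A (-1), Commute (b * b) g := fun b hb g hg => by
      have := hC _ _ b hb b hb _ g (hA.le _ hg)
      rw [mm, sb_one_left, sb_neg, ← two_smul ℚ, smul_mul_assoc, mul_smul_comm, ← smul_sub] at this
      exact sub_eq_zero.1 ((smul_eq_zero.1 this).resolve_left two_ne_zero)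
    have e : sb (-1) (-1) x x' = (x + x') * (x + x') - x * x - x' * x' := by
      rw [sb_neg]; noncomm_ring
    have h3 := add_mem hx hx'
    rw [e]
    exact loc_add (((h2 _ h3 _ hx').mul_right (h2 _ h3 _ hx')).sub_left
      ((h2 _ hx _ hx').mul_right (h2 _ hx _ hx')))
      (loc_add ((h2 _ h3 _ hx).mul_right (h2 _ h3 _ hx)) (h1 _ ⟨h3, add_mem gx gx'⟩) (h1 _ ⟨hx, gx⟩))
      (h1 _ ⟨hx', gx'⟩) y

end Pool.Agent.MP_2a197d_al.LB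

end MrgPart0

-- ======== part 1: formerly Pool.Agent.MP_2a197d_al.LB6
section MrgPart1

/-! Lie superalgebras with a second grading, and nilpotency of values in the split case. -/

set_option linter.unusedSectionVars false

namespace Pool.Agent.MP_2a197d_al.LB

open Function T

universe u

/-- Lie superalgebra axioms on homogeneous elements. -/
structure Sup (S : Type u) [AddCommGroup S] [Module ℚ S] where
  /-- the bracket -/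
  br : S →ₗ[ℚ] S →ₗ[ℚ] S
  /-- parity components -/
  P : ℤˣ → Submodule ℚ S
  anti : ∀ {a b x y}, x ∈ P a → y ∈ P b → br x y = -(sg a b • br y x)
  jac : ∀ {a b x y}, x ∈ P a → y ∈ P b → ∀ z, br x (br y z) = br (br x y) z + sg a b • br y (br x z)

variable {S : Type u} [AddCommGroup S] [Module ℚ S]

namespace Sup

variable (s : Sup S)

/-- Graded bracket containment. -/
def Br (X Y Z : ℤˣ → Submodule ℚ S) : Prop :=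
  ∀ {a b x y}, x ∈ X a → y ∈ Y b → s.br x y ∈ Z (a * b)

/-- Value of a tree. -/
abbrev tv (t : T) (x : t.Lf → S) : S := ev (fun a b => s.br a b) t x

/-- Iterated brackets of `u` with even elements. -/
inductive Idl (u : S) : S → Prop
  | base : Idl u u
  | l {x c : S} : x ∈ s.P 1 → Idl u c → Idl u (s.br x c)
  | r {x c : S} : x ∈ s.P 1 → Idl u c → Idl u (s.br c x)

/-- Even values of the full tree generate solvable ideals of the even part. -/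
def PS (m k : ℕ) : Prop :=
  ∀ a : (full m).Lf → S, (∀ i, a i ∈ s.P 1) → ∀ c : (full k).Lf → S,
    (∀ i, s.Idl (s.tv (full m) a) (c i)) → s.tv (full k) c = 0

theorem br_br {a b : ℤˣ} {x y : S} (hx : x ∈ s.P a) (hy : y ∈ s.P b) :
    (s.br (s.br x y) : En S) = sb a b (s.br x) (s.br y) :=
  LinearMap.ext fun z => by simp [sb, s.jac hx hy z]

/-- The quadratic map of an element. -/
def qq : S →ₗ[ℚ] S →ₗ[ℚ] S →ₗ[ℚ] S := LinearMap.llcomp ℚ S S (S →ₗ[ℚ] S) s.br ∘ₗ s.br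

@[simp] theorem qq_apply (w v : S) : s.qq w v = s.br (s.br w v) := rfl

end Sup

/-- The data of the relative induction. -/
structure Cfg (S : Type u) [AddCommGroup S] [Module ℚ S] (m k j1 j2 : ℕ) extends Sup S where
  /-- the module -/
  M : ℤˣ → Submodule ℚ S
  /-- the submodule -/
  W : ℤˣ → Submodule ℚ S
  /-- trivially acting elements -/
  Z : ℤˣ → Submodule ℚ S
  /-- derived chain -/
  H : ℕ → ℤˣ → Submodule ℚ S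
  MP : ∀ p, M p ≤ P p
  HP : ∀ p, H 0 p ≤ P p
  WM : ∀ p, W p ≤ M p
  Hle : ∀ j p, H j p ≤ H 0 p
  MM : toSup.Br M M (H 0)
  HM : toSup.Br (H 0) M M
  HW : toSup.Br (H 0) W W
  HH : ∀ j, toSup.Br (H 0) (H j) (H j)
  HS : ∀ j, toSup.Br (H j) (H j) (H (j + 1))
  ZM : toSup.Br Z M W
  HZ : toSup.Br (H 0) Z Z
  ZH : ∀ p, Z p ≤ H 0 p
  cc : toSup.Br (H j1) (H j2) Z
  nn : ∀ p, H (j2 + 1) p ≤ Z p
  ps : toSup.PS m k

theorem prod_full (j : ℕ) (π : (full (j + 1)).Lf → ℤˣ) : ∏ i, π i =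
    (∏ i : (full j).Lf, π (Sum.inl i)) * ∏ i : (full j).Lf, π (Sum.inr i) := prod_nd _ _ π

theorem prod_full0 (π : (full 0).Lf → ℤˣ) : ∏ i, π i = π () := prod_lf π

/-- The admissible trees. -/
def Ok (j1 j2 : ℕ) (t : T) : Prop :=
  (j1 = j2 ∧ t = nd (full 1) (full (j2 + 1))) ∨ (j1 = 0 ∧ t = full (j2 + 1))

namespace Cfg

variable {m k j1 j2 : ℕ} (Γ : Cfg S m k j1 j2)

theorem WH {a b : ℤˣ} {w g : S} (hw : w ∈ Γ.W a) (hg : g ∈ Γ.H 0 b) : Γ.br w g ∈ tot Γ.W := by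
  rw [Γ.anti (Γ.MP _ (Γ.WM _ hw)) (Γ.HP _ hg)]
  exact neg_mem (Submodule.smul_mem _ _ (le_tot _ _ (Γ.HW hg hw)))

theorem chi {w : S} (hw : w ∈ Γ.W 1) : Chi (Γ.M 1) (tot Γ.W) (Γ.qq w) := by
  intro K _ _ μ Φ h1 h2 h3 h4 z hz
  by_contra hne
  let Gd : S × S × S → Prop := fun x => (∃ c ≠ 0, (x.1, c) ∈ Φ) ∧
    (x.2.1 ∈ Γ.H 0 1 ∧ ∃ c ≠ 0, ∀ z ∈ Φ, (Γ.br x.2.1 z.1, c * z.2) ∈ Φ) ∧ x.2.2 ∈ Γ.W 1 ∧
      ∃ c ≠ 0, ∀ z ∈ Φ, ∀ z' ∈ Φ, (Γ.br (Γ.br x.2.2 z.1) z'.1, c * z.2 * z'.2) ∈ Φ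
  have ev : ∀ x, Gd x → x.1 ∈ Γ.P 1 ∧ x.2.1 ∈ Γ.P 1 ∧ x.2.2 ∈ Γ.P 1 :=
    fun x ⟨⟨_, _, e⟩, e1, e2⟩ => ⟨Γ.MP _ (h2 _ e), Γ.HP _ e1.1, Γ.MP _ (Γ.WM _ e2.1)⟩
  have mid : ∀ y c, c ≠ 0 → (y, c) ∈ Φ → ∀ w ∈ Γ.W 1, (∃ c ≠ 0, ∀ z ∈ Φ, ∀ z' ∈ Φ,
      (Γ.br (Γ.br w z.1) z'.1, c * z.2 * z'.2) ∈ Φ) → Γ.br w y ∈ Γ.H 0 1 ∧
      ∃ c ≠ 0, ∀ z ∈ Φ, (Γ.br (Γ.br w y) z.1, c * z.2) ∈ Φ := fun y c e1 e2 w hw ⟨d, f1, f2⟩ =>
    ⟨by simpa using Γ.MM (Γ.WM _ hw) (h2 _ e2), d * c, mul_ne_zero f1 e1, f2 _ e2⟩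
  have step : ∀ x, Gd x → Gd (Γ.br x.2.1 x.1, Γ.br x.2.2 x.1, Γ.br x.2.1 x.2.2) := by
    rintro ⟨y, g, w⟩ ⟨⟨c, c1, c2⟩, ⟨g0, d, d1, d2⟩, w0, e, e1, e2⟩
    refine ⟨⟨d * c, mul_ne_zero d1 c1, d2 _ c2⟩, mid y c c1 c2 w w0 ⟨e, e1, e2⟩,
      by simpa using Γ.HW g0 w0, -(d * e), neg_ne_zero.2 (mul_ne_zero d1 e1), fun z hz z' hz' => ?_⟩
    refine pmem (sub_mem (sub_mem (d2 _ (e2 z hz z' hz')) (e2 _ (d2 z hz) z' hz'))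
      (e2 z hz _ (d2 z' hz'))) ?_ (by simp only [Prod.snd_sub]; ring)
    have p1 := Γ.HP _ g0
    have p2 := Γ.MP _ (Γ.WM _ w0)
    have p3 : Γ.br w z.1 ∈ Γ.P 1 := Γ.HP _ (by simpa using Γ.MM (Γ.WM _ w0) (h2 _ hz))
    simp only [Prod.fst_sub, Γ.jac p1 p3, Γ.jac p1 p2, sg_one_left, one_smul, map_add,
      LinearMap.add_apply]
    abel
  have iter : ∀ (B : Set S) (n : ℕ), (∃ x, Gd x ∧ x.1 ∈ B ∧ x.2.1 ∈ B ∧ x.2.2 ∈ B) →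
      let D := {v | ∃ c : (full n).Lf → S, (∀ i, c i ∈ B) ∧ Γ.tv (full n) c = v}
      ∃ x, Gd x ∧ x.1 ∈ D ∧ x.2.1 ∈ D ∧ x.2.2 ∈ D := by
    intro B n h
    induction n with
    | zero =>
      obtain ⟨x, e0, e1, e2, e3⟩ := h
      exact ⟨x, e0, ⟨fun _ => _, fun _ => e1, rfl⟩, ⟨fun _ => _, fun _ => e2, rfl⟩,
        ⟨fun _ => _, fun _ => e3, rfl⟩⟩
    | succ n ih =>
      obtain ⟨x, e0, ⟨c1, a1, b1⟩, ⟨c2, a2, b2⟩, ⟨c3, a3, b3⟩⟩ := ih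
      refine ⟨_, step x e0, ⟨Sum.elim c2 c1, ?_, ?_⟩, ⟨Sum.elim c3 c1, ?_, ?_⟩,
        ⟨Sum.elim c2 c3, ?_, ?_⟩⟩
      · rintro (i | i); exacts [a2 i, a1 i]
      · rw [← b1, ← b2]; rfl
      · rintro (i | i); exacts [a3 i, a1 i]
      · rw [← b1, ← b3]; rfl
      · rintro (i | i); exacts [a2 i, a3 i]
      · rw [← b2, ← b3]; rfl
  have g0 : Gd (z.1, Γ.br w z.1, w) :=
    ⟨⟨z.2, hne, hz⟩, mid _ _ hne hz w hw ⟨μ, h1, h4⟩, hw, μ, h1, h4⟩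
  obtain ⟨x, g1, ⟨a, a1, a2⟩, -⟩ := iter (Γ.P 1) m ⟨_, g0, ev _ g0⟩
  have g2 := step x g1
  have i1 : Γ.Idl x.1 (Γ.br x.2.1 x.1) := .l (ev _ g1).2.1 .base
  have i2 : Γ.Idl x.1 (Γ.br x.2.2 x.1) := .l (ev _ g1).2.2 .base
  obtain ⟨x', ⟨⟨c, c1, c2⟩, -⟩, ⟨b, b1, b2⟩, -⟩ := iter {v | Γ.Idl x.1 v} k
    ⟨_, step _ g2, .l (ev _ g2).2.1 i1, .l (ev _ g2).2.2 i1, .r (ev _ g2).2.2 i2⟩
  exact c1 (h3 _ c2 (by
    change x'.1 ∈ _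
    rw [← b2, Γ.ps a a1 b fun i => a2 ▸ b1 i]; exact zero_mem _))

theorem tz {p : ℤˣ} {g : S} (hg : g ∈ Γ.Z p) : ∀ v ∈ tot Γ.M, Γ.br g v ∈ tot Γ.W :=
  fun _ => tot_map _ fun _ _ h => le_tot _ _ (Γ.ZM hg h)

/-- The relative prolongation setting. -/
def rp : RP S where
  M := Γ.M
  W := Γ.W
  h p := (Γ.H 0 p).map Γ.br
  q p := (Γ.W p).map Γ.qq
  Hs j := (Γ.H j 1).map Γ.br
  n := j2 + 1
  le := Γ.WM
  hM := by rintro a b _ v ⟨g, hg, rfl⟩ hv; exact Γ.HM hg hv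
  hW := by rintro a b _ v ⟨g, hg, rfl⟩ hv; exact Γ.HW hg hv
  hh := by
    rintro a b _ _ ⟨g, hg, rfl⟩ ⟨g', hg', rfl⟩
    exact ⟨_, Γ.HH 0 hg hg', Γ.br_br (Γ.HP _ hg) (Γ.HP _ hg')⟩
  qh := by rintro a b _ v ⟨w, hw, rfl⟩ hv; exact ⟨_, Γ.MM (Γ.WM _ hw) hv, rfl⟩
  qW := by
    rintro a b c _ w' v ⟨w, hw, rfl⟩ hw' hv
    rw [Sup.qq_apply, eq_sub_of_add_eq (Γ.jac (Γ.MP _ (Γ.WM _ hw)) (Γ.MP _ (Γ.WM _ hw')) v).symm]
    exact sub_mem (Γ.WH hw (Γ.MM (Γ.WM _ hw') hv))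
      (Submodule.smul_mem _ _ (Γ.WH hw' (Γ.MM (Γ.WM _ hw) hv)))
  sym := by
    rintro a b c _ u v ⟨w, hw, rfl⟩ hu hv
    convert Γ.WH hw (Γ.MM hu hv) using 1
    rw [Γ.jac (Γ.MP _ (Γ.WM _ hw)) (Γ.MP _ hu),
      Γ.anti (Γ.MP _ hu) (Γ.HP _ (Γ.MM (Γ.WM _ hw) hv)), smul_neg, smul_smul, sg_mul, ← mul_assoc,
      sg_comm a b, sg_sq, one_mul, sub_eq_add_neg]
    rfl
  inv := by
    rintro a b _ _ ⟨g, hg, rfl⟩ ⟨w, hw, rfl⟩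
    refine ⟨_, ⟨_, Γ.HW hg hw, rfl⟩, fun c v hv => ?_⟩
    rw [Sup.qq_apply, eq_sub_of_add_eq (Γ.jac (Γ.HP _ hg) (Γ.MP _ (Γ.WM _ hw)) v).symm, map_sub,
      map_smul, Γ.br_br (Γ.HP _ hg) (Γ.HP _ (Γ.MM (Γ.WM _ hw) hv))]
    rfl
  chi := by rintro _ ⟨w, hw, rfl⟩; exact Γ.chi hw
  s0 := le_rfl
  s1 := by
    rintro j _ _ ⟨g, hg, rfl⟩ ⟨g', hg', rfl⟩
    exact ⟨_, by simpa using Γ.HH j hg hg',
      by simpa using Γ.br_br (Γ.HP _ hg) (Γ.HP _ (Γ.Hle _ _ hg'))⟩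
  s2 := by
    rintro j _ _ ⟨g, hg, rfl⟩ ⟨g', hg', rfl⟩
    exact ⟨_, by simpa using Γ.HS j hg hg',
      by simpa using Γ.br_br (Γ.HP _ (Γ.Hle _ _ hg)) (Γ.HP _ (Γ.Hle _ _ hg'))⟩
  s3 := by rintro _ ⟨g, hg, rfl⟩; exact Γ.tz (Γ.nn _ hg)
  s4 j := Submodule.map_mono (Γ.Hle j 1)

/-- Brackets of `W` with `M`, modulo `Z`. -/
def DZ (p : ℤˣ) : Submodule ℚ S :=
  Submodule.span ℚ {g | ∃ a b, a * b = p ∧ ∃ w ∈ Γ.W a, ∃ v ∈ Γ.M b, g = Γ.br w v} ⊔ Γ.Z p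

theorem mem_DZ {a b p : ℤˣ} {w v : S} (hw : w ∈ Γ.W a) (hv : v ∈ Γ.M b) (h : a * b = p) :
    Γ.br w v ∈ Γ.DZ p :=
  Submodule.mem_sup_left (Submodule.subset_span ⟨a, b, h, w, hw, v, hv, rfl⟩)

theorem DZ_map {Y : Type*} [AddCommGroup Y] [Module ℚ Y] {U : Submodule ℚ Y} (f : S →ₗ[ℚ] Y)
    {p : ℤˣ} (h1 : ∀ a b, a * b = p → ∀ w ∈ Γ.W a, ∀ v ∈ Γ.M b, f (Γ.br w v) ∈ U)
    (h2 : ∀ z ∈ Γ.Z p, f z ∈ U) {g : S} (hg : g ∈ Γ.DZ p) : f g ∈ U :=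
  (sup_le (Submodule.span_le.2 (by
    rintro _ ⟨a, b, e, w, hw, v, hv, rfl⟩; exact h1 a b e w hw v hv)) h2 : Γ.DZ p ≤ U.comap f) hg

theorem HD : Γ.Br (Γ.H 0) Γ.DZ Γ.DZ := fun {a b x _} hx hy =>
  Γ.DZ_map (Γ.br x) (by
    rintro c d rfl w hw v hv
    rw [Γ.jac (Γ.HP _ hx) (Γ.MP _ (Γ.WM _ hw))]
    exact add_mem (Γ.mem_DZ (Γ.HW hx hw) hv (mul_assoc _ _ _))
      (Submodule.smul_mem _ _ (Γ.mem_DZ hw (Γ.HM hx hv) (mul_left_comm _ _ _))))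
    (fun _ hz => Submodule.mem_sup_right (Γ.HZ hx hz)) hy

theorem tv_H : ∀ (j : ℕ) (x : (full (j + 1)).Lf → S) (π : (full (j + 1)).Lf → ℤˣ),
    (∀ i, x i ∈ Γ.M (π i)) → Γ.tv (full (j + 1)) x ∈ Γ.H j (∏ i, π i)
  | 0, _, π, h => by rw [prod_full, prod_full0, prod_full0]; exact Γ.MM (h _) (h _)
  | j + 1, _, π, h => by
    rw [prod_full]
    exact Γ.HS j (tv_H j _ _ fun _ => h _) (tv_H j _ _ fun _ => h _)

theorem tv_D (hs : Γ.Br Γ.M Γ.M Γ.DZ) : ∀ (j : ℕ) (x : (full (j + 1)).Lf → S)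
    (π : (full (j + 1)).Lf → ℤˣ), (∀ i, x i ∈ Γ.M (π i)) → Γ.tv (full (j + 1)) x ∈ Γ.DZ (∏ i, π i)
  | 0, _, π, h => by rw [prod_full, prod_full0, prod_full0]; exact hs (h _) (h _)
  | j + 1, _, π, h => by
    rw [prod_full]
    exact Γ.HD (Γ.Hle _ _ (Γ.tv_H j _ _ fun _ => h _)) (tv_D hs j _ _ fun _ => h _)

theorem tv_ok {t : T} (ht : Ok j1 j2 t) (x : t.Lf → S) (π : t.Lf → ℤˣ) (h : ∀ i, x i ∈ Γ.M (π i)) :
    Γ.tv t x ∈ Γ.H j2 (∏ i, π i) := by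
  rcases ht with ⟨-, rfl⟩ | ⟨-, rfl⟩
  · rw [prod_nd (full 1) (full (j2 + 1)) π]
    exact Γ.HH _ (Γ.tv_H 0 _ _ fun _ => h _) (Γ.tv_H j2 _ _ fun _ => h _)
  · exact Γ.tv_H _ _ _ h

theorem kt0 (hs : Γ.Br Γ.M Γ.M Γ.DZ) {t : T} (ht : Ok j1 j2 t) (x : t.Lf → S) (π : t.Lf → ℤˣ)
    (h : ∀ i, x i ∈ Γ.M (π i)) (hπ : ∏ i, π i = 1) {y : S} (hy : y ∈ tot Γ.M) :
    ∃ n, ((Γ.br (Γ.tv t x) : En S) ^ n) y ∈ tot Γ.W := by
  obtain ⟨r⟩ := Γ.rp.exTr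
  have st : ∀ {p j g}, g ∈ Γ.H j p → Γ.rp.St (Γ.br g) := fun hg => Γ.rp.st ⟨_, Γ.Hle _ _ hg, rfl⟩
  suffices ∃ n, (r.π (Γ.br (Γ.tv t x)) ^ n) (r.F y) = 0 by
    obtain ⟨n, hn⟩ := this
    exact ⟨n, r.pow (st (Γ.tv_ok ht x π h)) hy hn⟩
  have hG : ∀ {p g}, g ∈ Γ.DZ p → r.π (Γ.br g) ∈ r.T.G p := fun {p g} hg =>
    Γ.DZ_map (r.π ∘ₗ Γ.br) (fun a b e w hw v hv => e ▸ r.G (Q := Γ.qq w) ⟨w, hw, rfl⟩ hv)
      (fun z hz => by rw [LinearMap.comp_apply, r.z (Γ.tz hz)]; exact zero_mem _) hg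
  have hb : ∀ {a b i j g g'}, g ∈ Γ.H i a → g' ∈ Γ.H j b →
      sb a b (r.π (Γ.br g)) (r.π (Γ.br g')) = r.π (Γ.br (Γ.br g g')) := fun hg hg' => by
    rw [← r.psb _ _ (st hg) (st hg'), Γ.br_br (Γ.HP _ (Γ.Hle _ _ hg)) (Γ.HP _ (Γ.Hle _ _ hg'))]
  have hI : ∀ j, r.T.Id fun p => ((Γ.H j p).map Γ.br).map r.π := fun j =>
    r.id (fun p => Submodule.map_mono (Γ.Hle j p)) (by
      rintro a b _ _ ⟨g, hg, rfl⟩ ⟨g', hg', rfl⟩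
      exact ⟨_, Γ.HH j hg hg', Γ.br_br (Γ.HP _ hg) (Γ.HP _ (Γ.Hle _ _ hg'))⟩)
  have nl : ∀ {g : En r.V}, IsNilpotent g → ∃ n, (g ^ n) (r.F y) = 0 := fun ⟨n, hn⟩ =>
    ⟨n, by rw [hn]; rfl⟩
  rcases ht with ⟨rfl, rfl⟩ | ⟨rfl, rfl⟩
  · rw [prod_nd (full 1) (full (j1 + 1)) π] at hπ
    have e := PT.par_even hπ
    have h1 := Γ.tv_H 0 _ _ fun i => h (Sum.inl i)
    have h2 := Γ.tv_H j1 _ _ fun i => h (Sum.inr i)
    have h3 := hG (Γ.tv_D hs 0 _ _ fun i => h (Sum.inl i))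
    refine nl ((hb h1 h2).symm ▸ ?_)
    rw [e] at h3 ⊢
    refine (hI j1).thmD ?_ h3 ⟨_, ⟨_, h2, rfl⟩, rfl⟩
    rintro a b _ ⟨_, ⟨g, hg, rfl⟩, rfl⟩ _ ⟨_, ⟨g', hg', rfl⟩, rfl⟩
    rw [hb hg hg', r.z (Γ.tz (Γ.cc hg hg'))]
  · rcases j2 with _ | j
    · refine nl (PT.thm1 (fun a b g hg g' hg' => ?_) (hG (hπ ▸ Γ.tv_D hs 0 x π h)))
      rw [r.h] at hg hg'
      obtain ⟨_, ⟨g, hg, rfl⟩, rfl⟩ := hg
      obtain ⟨_, ⟨g', hg', rfl⟩, rfl⟩ := hg'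
      rw [hb hg hg', r.z (Γ.tz (Γ.cc hg hg'))]
    · rw [prod_full] at hπ
      have e := PT.par_even hπ
      have h1 := Γ.tv_H j _ _ fun i => h (Sum.inl i)
      have h2 := Γ.tv_H j _ _ fun i => h (Sum.inr i)
      have h3 := hG (Γ.tv_D hs j _ _ fun i => h (Sum.inl i))
      have h4 := hG (Γ.tv_D hs j _ _ fun i => h (Sum.inr i))
      refine (hb h1 h2).symm ▸ ?_
      rw [e] at h1 h3 ⊢
      refine (hI j).thmC ?_ ⟨_, ⟨_, h1, rfl⟩, rfl⟩ ⟨_, ⟨_, h2, rfl⟩, rfl⟩ h3 h4 _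
      rintro p q _ ⟨_, ⟨g, hg, rfl⟩, rfl⟩ _ ⟨_, ⟨g', hg', rfl⟩, rfl⟩ a f hf
      rw [r.h] at hf
      obtain ⟨_, ⟨f, hf, rfl⟩, rfl⟩ := hf
      have h5 := Γ.HS j hg hg'
      rw [hb hg hg', hb h5 hf, Γ.anti (Γ.HP _ (Γ.Hle _ _ h5)) (Γ.HP _ hf), map_neg, map_smul, map_neg,
        map_smul, r.z (Γ.tz (Γ.cc hf h5)), smul_zero, neg_zero]

end Cfg

end Pool.Agent.MP_2a197d_al.LB

end MrgPart1

-- marker of a merged file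
example : 731051 + 241165 = 731051 + 241165 := rfl
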