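import Pool.Agent.MP_2a197d_al.LB6
import Mathlib.Algebra.Polynomial.Roots
import Mathlib.RingTheory.Coprime.Lemmas

/-! The splitting construction and uniform nilpotency of even values. -/

set_option linter.unusedSectionVars false

namespace Pool.Agent.MP_2a197d_al.LB

open Function T Polynomial

universe u

variable {S : Type u} [AddCommGroup S] [Module ℚ S]

theorem mem_eq {U : Submodule ℚ S} {x y : S} (h : x ∈ U) (e : y = x) : y ∈ U := e ▸ h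

/-- Families with values in a subspace. -/
def pw (ι : Type) (U : Submodule ℚ S) : Submodule ℚ (ι → S) := Submodule.pi Set.univ fun _ => U

theorem mem_pw {ι : Type} {U : Submodule ℚ S} {x : ι → S} : x ∈ pw ι U ↔ ∀ i, x i ∈ U := by
  simp [pw]

/-- Powers of a superalgebra. -/
def Sup.pi (s : Sup S) (ι : Type) : Sup (ι → S) where
  br := LinearMap.mk₂ ℚ (fun x y i => s.br (x i) (y i)) (fun _ _ _ => by ext; simp)
    (fun _ _ _ => by ext; simp) (fun _ _ _ => by ext; simp) fun _ _ _ => by ext; simp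
  P p := pw ι (s.P p)
  anti hx hy := funext fun i => s.anti (mem_pw.1 hx i) (mem_pw.1 hy i)
  jac hx hy z := funext fun i => s.jac (mem_pw.1 hx i) (mem_pw.1 hy i) (z i)

theorem Sup.pi_br (s : Sup S) (ι : Type) (x y : ι → S) (i : ι) :
    (s.pi ι).br x y i = s.br (x i) (y i) := rfl

theorem Sup.pi_tv (s : Sup S) (ι : Type) (t : T) (x : t.Lf → ι → S) (i : ι) :
    (s.pi ι).tv t x i = s.tv t fun j => x j i := ev_map (fun x : ι → S => x i) (fun _ _ => rfl) t x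

theorem Sup.pi_pow (s : Sup S) (ι : Type) (x y : ι → S) (n : ℕ) (i : ι) :
    (((s.pi ι).br x : En (ι → S)) ^ n) y i = ((s.br (x i) : En S) ^ n) (y i) := by
  induction n with
  | zero => rfl
  | succ n ih => rw [pow_succ', pow_succ', Module.End.mul_apply, Module.End.mul_apply, ← ih]; rfl

theorem Sup.PS.pi {s : Sup S} {m k : ℕ} (h : s.PS m k) (ι : Type) : (s.pi ι).PS m k := by
  intro a ha c hc
  funext i
  rw [s.pi_tv]
  refine h (fun j => a j i) (fun j => mem_pw.1 (ha j) i) _ fun j => ?_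
  rw [← s.pi_tv]
  generalize c j = v, hc j = e
  induction e with
  | base => exact .base
  | l h _ ih => exact .l (mem_pw.1 h i) ih
  | r h _ ih => exact .r (mem_pw.1 h i) ih

namespace Cfg

variable {m k j1 j2 : ℕ} (Γ : Cfg S m k j1 j2)

/-- Transport of the data along an operation on subspaces. -/
def lift (ι : Type) (Fn : Submodule ℚ S → Submodule ℚ (ι → S))
    (h1 : ∀ {U U'}, U ≤ U' → Fn U ≤ Fn U') (h2 : ∀ U, Fn U ≤ pw ι U)
    (h3 : ∀ {U U' U''}, (∀ x ∈ U, ∀ y ∈ U', Γ.br x y ∈ U'') →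
      ∀ x ∈ Fn U, ∀ y ∈ Fn U', (Γ.pi ι).br x y ∈ Fn U'') : Cfg (ι → S) m k j1 j2 where
  toSup := Γ.pi ι
  M p := Fn (Γ.M p)
  W p := Fn (Γ.W p)
  Z p := Fn (Γ.Z p)
  H j p := Fn (Γ.H j p)
  MP p := (h1 (Γ.MP p)).trans (h2 _)
  HP p := (h1 (Γ.HP p)).trans (h2 _)
  WM p := h1 (Γ.WM p)
  Hle j p := h1 (Γ.Hle j p)
  MM hx hy := h3 (fun _ h _ h' => Γ.MM h h') _ hx _ hy
  HM hx hy := h3 (fun _ h _ h' => Γ.HM h h') _ hx _ hy
  HW hx hy := h3 (fun _ h _ h' => Γ.HW h h') _ hx _ hy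
  HH j _ _ _ _ hx hy := h3 (fun _ h _ h' => Γ.HH j h h') _ hx _ hy
  HS j _ _ _ _ hx hy := h3 (fun _ h _ h' => Γ.HS j h h') _ hx _ hy
  ZM hx hy := h3 (fun _ h _ h' => Γ.ZM h h') _ hx _ hy
  HZ hx hy := h3 (fun _ h _ h' => Γ.HZ h h') _ hx _ hy
  ZH p := h1 (Γ.ZH p)
  cc hx hy := h3 (fun _ h _ h' => Γ.cc h h') _ hx _ hy
  nn p := h1 (Γ.nn p)
  ps := Γ.ps.pi ι

/-- The power of the data. -/
def pow : Cfg (ℕ → S) m k j1 j2 :=
  Γ.lift ℕ (pw ℕ) (fun h _ hx => mem_pw.2 fun i => h (mem_pw.1 hx i)) (fun _ => le_rfl)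
    fun h _ hx _ hy => mem_pw.2 fun i => h _ (mem_pw.1 hx i) _ (mem_pw.1 hy i)

section split

variable {a : S} (ha : a ∈ Γ.H 0 1) (hA : ∀ p, ∀ g ∈ Γ.H 0 p, Γ.br a (Γ.br a g) ∈ Γ.Z p)

/-- The filtration. -/
def Fk (a : S) (p : ℤˣ) (n : ℕ) : Submodule ℚ S :=
  Γ.W p ⊔ (Γ.M p).map ((1 - Γ.br a : En S) ^ n)

include ha

theorem aM {p : ℤˣ} {v : S} (hv : v ∈ Γ.M p) : Γ.br a v ∈ Γ.M p := by simpa using Γ.HM ha hv

theorem alM {p : ℤˣ} (n : ℕ) {v : S} (hv : v ∈ Γ.M p) : ((1 - Γ.br a : En S) ^ n) v ∈ Γ.M p :=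
  Module.End.pow_apply_mem_of_forall_mem n (fun _ h => sub_mem h (Γ.aM ha h)) v hv

theorem der {p : ℤˣ} {g : S} (hg : g ∈ Γ.P p) (z : S) :
    Γ.br a (Γ.br g z) = Γ.br (Γ.br a g) z + Γ.br g (Γ.br a z) := by
  simpa using Γ.jac (Γ.HP _ ha) hg z

theorem Fk_al {p : ℤˣ} {n : ℕ} {v : S} (hv : v ∈ Γ.Fk a p n) :
    (1 - Γ.br a : En S) v ∈ Γ.Fk a p (n + 1) := by
  obtain ⟨w, hw, _, ⟨u, hu, rfl⟩, rfl⟩ := Submodule.mem_sup.1 hv
  rw [map_add]
  exact Submodule.add_mem_sup (sub_mem hw (by simpa using Γ.HW ha hw)) ⟨u, hu, by rw [pow_succ']; rfl⟩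

theorem br_al {p : ℤˣ} {g : S} (hg : g ∈ Γ.P p) (z : S) : Γ.br g ((1 - Γ.br a : En S) z) =
    (1 - Γ.br a : En S) (Γ.br g z) + Γ.br (Γ.br a g) z := by
  simp only [LinearMap.sub_apply, Module.End.one_apply, map_sub, Γ.der ha hg]; abel

include hA

theorem Fk_br {p q : ℤˣ} {g : S} (hg : g ∈ Γ.H 0 q) {n : ℕ} {v : S} (hv : v ∈ Γ.Fk a p n) :
    Γ.br g v ∈ Γ.Fk a (q * p) (n - 1) := by
  obtain ⟨w, hw, _, ⟨u, hu, rfl⟩, rfl⟩ := Submodule.mem_sup.1 hv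
  rw [map_add]
  refine add_mem (Submodule.mem_sup_left (Γ.HW hg hw)) ?_
  have hg' : Γ.br a g ∈ Γ.H 0 q := by simpa using Γ.HH 0 ha hg
  have e1 : ∀ j, Γ.br (Γ.br a g) (((1 - Γ.br a : En S) ^ j) u) ∈ Γ.Fk a (q * p) j := fun j => by
    induction j with
    | zero => exact Submodule.mem_sup_right ⟨_, Γ.HM hg' hu, rfl⟩
    | succ j ih =>
      rw [pow_succ', Module.End.mul_apply, Γ.br_al ha (Γ.HP _ hg')]
      exact add_mem (Γ.Fk_al ha ih) (Submodule.mem_sup_left (Γ.ZM (hA q g hg) (Γ.alM ha j hu)))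
  clear hv
  rcases n with _ | n
  · exact Submodule.mem_sup_right ⟨_, Γ.HM hg hu, rfl⟩
  induction n with
  | zero => exact Submodule.mem_sup_right ⟨_, Γ.HM hg (Γ.alM ha _ hu), rfl⟩
  | succ n ih =>
    rw [pow_succ', Module.End.mul_apply, Γ.br_al ha (Γ.HP _ hg)]
    exact add_mem (Γ.Fk_al ha ih) (e1 _)

theorem three {p q : ℤˣ} {u v : S} (hu : u ∈ Γ.M p) (hv : v ∈ Γ.M q) (n : ℕ) :
    ∃ u1 ∈ Γ.M p, ∃ v0 ∈ Γ.M q, ∃ v1 ∈ Γ.M q, Γ.br u v - (Γ.br (((1 - Γ.br a : En S) ^ n) u1) v +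
      Γ.br u (((1 - Γ.br a : En S) ^ n) v0) + Γ.br (Γ.br a u) (((1 - Γ.br a : En S) ^ n) v1)) ∈
      Γ.Z (p * q) := by
  set A : En S := Γ.br a with eA
  let N := (Γ.M q).map ((1 - A) ^ n)
  let X := Γ.Z (p * q) ⊔ (N.map (Γ.br u) ⊔ N.map (Γ.br (A u)))
  have NA : ∀ z ∈ N, A z ∈ N := by
    rintro _ ⟨z, hz, rfl⟩
    exact ⟨A z, Γ.aM ha hz, LinearMap.congr_fun
      (((Commute.one_left A).sub_left (Commute.refl A)).pow_left n).eq z⟩
  have NM : ∀ z ∈ N, z ∈ Γ.M q := by rintro _ ⟨z, hz, rfl⟩; exact Γ.alM ha n hz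
  have pM : ∀ j, (A ^ j) u ∈ Γ.M p := fun j =>
    Module.End.pow_apply_mem_of_forall_mem j (fun _ h => Γ.aM ha h) u hu
  have aev : ∀ (U : Submodule ℚ S), (∀ j, (A ^ j) u ∈ U) → ∀ f : ℚ[X], aeval A f u ∈ U := by
    intro U h f
    rw [aeval_eq_sum_range, LinearMap.sum_apply]
    exact U.sum_mem fun j _ => U.smul_mem _ (h j)
  have e1 : ∀ j, ∀ z ∈ N, Γ.br ((A ^ j) u) z ∈ X := by
    intro j
    induction j using Nat.twoStepInduction with
    | zero => exact fun z hz => Submodule.mem_sup_right (Submodule.mem_sup_left ⟨z, hz, rfl⟩)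
    | one => exact fun z hz => Submodule.mem_sup_right (Submodule.mem_sup_right ⟨z, hz, by simp⟩)
    | more j h0 h1 =>
      intro z hz
      have h2 := hA _ _ (Γ.MM (pM j) (NM z hz))
      have h3 := Γ.MP _ (pM j)
      rw [Γ.der ha h3, map_add, Γ.der ha (Γ.MP _ (Γ.aM ha (pM j))), Γ.der ha h3] at h2
      convert sub_mem (sub_mem (sub_mem (Submodule.mem_sup_left h2 : _ ∈ X) (h1 _ (NA z hz)))
        (h1 _ (NA z hz))) (h0 _ (NA _ (NA z hz))) using 1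
      simp only [pow_succ', Module.End.mul_apply, eA]; abel
  have e2 : ∀ f : ℚ[X], ∀ z ∈ N, Γ.br (aeval A f u) z ∈ X := fun f z hz =>
    aev (X.comap (Γ.br.flip z)) (fun j => e1 j z hz) f
  have e3 : ∀ u' ∈ Γ.M p, ∀ j : ℕ, ∀ v ∈ Γ.M q, Γ.br (((1 + A) ^ (j + 1)) u') v -
      Γ.br u' (((1 - A) ^ (j + 1)) v) - ((j : ℚ) + 1) • A (Γ.br u' (((1 - A) ^ j) v)) ∈ Γ.Z (p * q) := by
    intro u' hu' j
    have e : ∀ x ∈ Γ.M p, ∀ v, Γ.br ((1 + A) x) v = Γ.br x ((1 - A) v) + A (Γ.br x v) :=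
      fun x hx v => by
        simp only [eA, LinearMap.add_apply, LinearMap.sub_apply, Module.End.one_apply, map_add,
          map_sub, Γ.der ha (Γ.MP _ hx)]
        abel
    induction j with
    | zero => intro v _; rw [zero_add, pow_one, pow_one, e u' hu']; simp
    | succ j ih =>
      intro v hv
      have h1 := Γ.HZ ha (ih v hv)
      rw [one_mul, ← eA] at h1
      have h2 := ih _ (by simpa using Γ.alM ha 1 hv : (1 - A) v ∈ Γ.M q)
      have h3 := Submodule.smul_mem _ ((j : ℚ) + 1) (hA _ _ (Γ.MM hu' (Γ.alM ha j hv)))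
      rw [pow_succ' (1 + A) (j + 1), Module.End.mul_apply, e _
        (Module.End.pow_apply_mem_of_forall_mem _ (fun _ h => add_mem h (Γ.aM ha h)) u' hu')]
      convert add_mem (add_mem h1 h2) h3 using 1
      simp only [pow_succ (1 - A), Module.End.mul_apply, ← eA, Nat.cast_add, Nat.cast_one,
        map_sub A, map_smul A]
      module
  obtain ⟨f, g, hfg⟩ : IsCoprime ((1 - Polynomial.X : ℚ[X]) ^ n) ((1 + Polynomial.X) ^ (n + 1)) :=
    IsCoprime.pow ⟨C 2⁻¹, C 2⁻¹, by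
      rw [← mul_add, sub_add_add_cancel, one_add_one_eq_two, ← C_ofNat, ← C_mul]; norm_num⟩
  have e4 : u = ((1 - A) ^ n) (aeval A f u) + ((1 + A) ^ (n + 1)) (aeval A g u) := by
    have := congrArg (fun h => aeval A h u) hfg
    simpa [mul_comm f, mul_comm g] using this.symm
  have hg := aev _ pM g
  have e5 : Γ.br (((1 + A) ^ (n + 1)) (aeval A g u)) v ∈ X := by
    have h1 : ((1 - A) ^ n) v ∈ N := ⟨v, hv, rfl⟩
    have h2 := add_mem (e2 (Polynomial.X * g) _ h1) (e2 g _ (NA _ h1))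
    rw [map_mul, aeval_X, Module.End.mul_apply, eA, ← Γ.der ha (Γ.MP _ hg), ← eA] at h2
    simpa using add_mem (add_mem (Submodule.mem_sup_left (e3 _ hg n v hv) : _ ∈ X)
      (X.smul_mem ((n : ℚ) + 1) h2)) (e2 g (((1 - A) ^ (n + 1)) v)
        ⟨(1 - A) v, by simpa using Γ.alM ha 1 hv, by rw [pow_succ]; rfl⟩)
  obtain ⟨z, hz, x, hx, e6⟩ := Submodule.mem_sup.1 e5
  obtain ⟨_, ⟨_, ⟨v0, h0, rfl⟩, rfl⟩, _, ⟨_, ⟨v1, h1, rfl⟩, rfl⟩, rfl⟩ := Submodule.mem_sup.1 hx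
  refine ⟨aeval A f u, aev _ pM f, v0, h0, v1, h1, ?_⟩
  nth_rewrite 1 [e4]
  rw [map_add, LinearMap.add_apply, ← e6]
  convert hz using 1
  abel

theorem kt1 {t : T} (ht : Ok j1 j2 t) (x : t.Lf → S) (π : t.Lf → ℤˣ)
    (h : ∀ i, x i ∈ Γ.M (π i)) (hπ : ∏ i, π i = 1) {y : S} (hy : y ∈ Γ.M 1) :
    ∃ n, ((Γ.br (Γ.tv t x) : En S) ^ n) y ∈ tot Γ.W ⊔ (tot Γ.M).map (1 - Γ.br a : En S) := by
  have anti : ∀ p {i j}, i ≤ j → Γ.Fk a p j ≤ Γ.Fk a p i := fun p i j hij => by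
    obtain ⟨d, rfl⟩ := Nat.exists_eq_add_of_le hij
    refine sup_le_sup_left ?_ _
    rintro _ ⟨u, hu, rfl⟩
    exact ⟨_, Γ.alM ha d hu, by rw [pow_add]; rfl⟩
  let W' : ℤˣ → Submodule ℚ (ℕ → S) := fun p =>
    { carrier := {u | ∃ c, ∀ i, u i ∈ Γ.Fk a p (i - c)}
      add_mem' := fun ⟨c, hc⟩ ⟨d, hd⟩ => ⟨c + d, fun i =>
        add_mem (anti p (by omega) (hc i)) (anti p (by omega) (hd i))⟩
      zero_mem' := ⟨0, fun _ => zero_mem _⟩
      smul_mem' := fun r _ ⟨c, hc⟩ => ⟨c, fun i => Submodule.smul_mem _ r (hc i)⟩ }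
  let Δ : Cfg (ℕ → S) m k j1 j2 :=
    { Γ.pow with
      W := W'
      WM := fun p u ⟨c, hc⟩ => mem_pw.2 fun i => (sup_le (Γ.WM p) (by
        rintro _ ⟨u, hu, rfl⟩; exact Γ.alM ha _ hu) : Γ.Fk a p _ ≤ _) (hc i)
      HW := fun hg ⟨c, hc⟩ => ⟨c + 1, fun i => Γ.Fk_br ha hA (mem_pw.1 hg i) (hc i)⟩
      ZM := fun hg hv => ⟨0, fun i => Submodule.mem_sup_left (Γ.ZM (mem_pw.1 hg i) (mem_pw.1 hv i))⟩ }
  have hs : Δ.Br Δ.M Δ.M Δ.DZ := by
    intro p q u v hu hv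
    choose u1 h1 v0 h0 v1 h2 h3 using fun i => Γ.three ha hA (mem_pw.1 hu i) (mem_pw.1 hv i) i
    have mW : ∀ {p} {u : ℕ → S}, (∀ i, u i ∈ Γ.M p) →
        (fun i => ((1 - Γ.br a : En S) ^ i) (u i)) ∈ Δ.W p := fun h =>
      ⟨0, fun i => Submodule.mem_sup_right ⟨_, h i, rfl⟩⟩
    have sw : ∀ {u w}, u ∈ Δ.M p → w ∈ Δ.W q → Δ.br u w ∈ Δ.DZ (p * q) := fun hu hw => by
      rw [Δ.anti (Δ.MP _ hu) (Δ.MP _ (Δ.WM _ hw))]
      exact neg_mem (Submodule.smul_mem _ _ (Δ.mem_DZ hw hu (mul_comm _ _)))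
    have := add_mem (Submodule.mem_sup_right (mem_pw.2 h3) : _ ∈ Δ.DZ (p * q))
      (add_mem (add_mem (Δ.mem_DZ (mW h1) hv rfl) (sw hu (mW h0)))
        (sw (u := fun i => Γ.br a (u i)) (mem_pw.2 fun i => Γ.aM ha (mem_pw.1 hu i)) (mW h2)))
    exact mem_eq this (funext fun i => (sub_add_cancel _ _).symm)
  obtain ⟨n, hn⟩ := Δ.kt0 hs ht (fun j _ => x j) π (fun j => mem_pw.2 fun _ => h j) hπ
    (y := fun _ => y) (le_tot Δ.M 1 (mem_pw.2 fun _ => hy))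
  obtain ⟨w, ⟨c, hc⟩, w', ⟨d, hd⟩, e⟩ := Submodule.mem_sup.1 hn
  have e2 := (congrFun e (c + d + 1)).trans (Γ.pi_pow ℕ _ _ n _)
  rw [show Δ.tv t _ _ = _ from Γ.pi_tv ℕ t _ _] at e2
  have le : ∀ p, Γ.Fk a p 1 ≤ tot Γ.W ⊔ (tot Γ.M).map (1 - Γ.br a : En S) := fun p =>
    sup_le_sup (le_tot _ _) (by rw [pow_one]; exact Submodule.map_mono (le_tot _ _))
  exact ⟨n, e2 ▸ add_mem (le _ (anti _ (by omega) (hc _))) (le _ (anti _ (by omega) (hd _)))⟩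

end split

end Cfg

/-- Polynomial functions with coefficients in a subspace. -/
def pf (U : Submodule ℚ S) : Submodule ℚ (ℚ → S) :=
  Submodule.span ℚ {f | ∃ i : ℕ, ∃ x ∈ U, f = fun q : ℚ => q ^ i • x}

theorem mem_pf {U : Submodule ℚ S} (i : ℕ) {x : S} (hx : x ∈ U) : (fun q : ℚ => q ^ i • x) ∈ pf U :=
  Submodule.subset_span ⟨i, x, hx, rfl⟩

theorem pf_map {U : Submodule ℚ S} {Y : Type*} [AddCommGroup Y] [Module ℚ Y] {Z : Submodule ℚ Y}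
    (f : (ℚ → S) →ₗ[ℚ] Y) (h : ∀ i : ℕ, ∀ x ∈ U, f (fun q : ℚ => q ^ i • x) ∈ Z) {v : ℚ → S}
    (hv : v ∈ pf U) : f v ∈ Z :=
  (Submodule.span_le (p := Z.comap f)).2 (by rintro _ ⟨i, x, hx, rfl⟩; exact h i x hx) hv

/-- The polynomial function of a coefficient sequence. -/
noncomputable def evp : (ℕ →₀ S) →ₗ[ℚ] ℚ → S :=
  Finsupp.lsum ℚ fun i => LinearMap.pi fun q : ℚ => q ^ i • LinearMap.id

theorem evp_single (i : ℕ) (x : S) : evp (Finsupp.single i x) = fun q : ℚ => q ^ i • x := by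
  ext; simp [evp]

theorem evp_inj {c : ℕ →₀ S} (h : evp c = 0) : c = 0 := by
  ext i
  refine (Module.forall_dual_apply_eq_zero_iff ℚ _).1 fun φ => ?_
  have e : ∀ c : ℕ →₀ S, ∃ P : ℚ[X], P.coeff i = φ (c i) ∧ ∀ q, P.eval q = φ (evp c q) := by
    intro c
    induction c using Finsupp.induction_linear with
    | zero => exact ⟨0, by simp, by simp⟩
    | add a b ha hb =>
      obtain ⟨P, h1, h2⟩ := ha
      obtain ⟨Q, h3, h4⟩ := hb
      exact ⟨P + Q, by simp [h1, h3], by simp [h2, h4]⟩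
    | single j x =>
      refine ⟨monomial j (φ x), ?_, fun q => by simp [evp_single, mul_comm]⟩
      rw [coeff_monomial, Finsupp.single_apply]; split_ifs <;> simp
  obtain ⟨P, h1, h2⟩ := e c
  rw [← h1, Polynomial.funext (p := P) (q := 0) fun q => by simp [h2, h], coeff_zero]

theorem pf_rep {U : Submodule ℚ S} {v : ℚ → S} (hv : v ∈ pf U) :
    ∃ c : ℕ →₀ S, (∀ i, c i ∈ U) ∧ evp c = v :=
  pf_map (Z := (Finsupp.submodule fun _ => U).map evp) LinearMap.id (fun i x hx =>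
    ⟨Finsupp.single i x, fun j => by
      rw [Finsupp.single_apply]; split_ifs; exacts [hx, zero_mem _], evp_single i x⟩) hv

namespace Cfg

variable {m k j1 j2 : ℕ} (Γ : Cfg S m k j1 j2)

/-- Polynomial extension of the data. -/
def pol : Cfg (ℚ → S) m k j1 j2 :=
  Γ.lift ℚ pf (fun h => Submodule.span_mono fun _ ⟨i, x, hx, e⟩ => ⟨i, x, h hx, e⟩)
    (fun U _ => pf_map LinearMap.id fun _ _ hx => mem_pw.2 fun _ => U.smul_mem _ hx)
    fun h _ hx y hy => pf_map ((Γ.pi ℚ).br.flip y) (fun i x hx => pf_map ((Γ.pi ℚ).br _)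
      (fun j y hy => by
        convert mem_pf (i + j) (h x hx y hy) using 1
        funext q
        simp [Sup.pi_br, smul_smul, pow_add, mul_comm]) hy) hx

theorem kt2 {t : T} (ht : Ok j1 j2 t) (x : t.Lf → S) (π : t.Lf → ℤˣ)
    (h : ∀ i, x i ∈ Γ.M (π i)) (hπ : ∏ i, π i = 1) {y : S} (hy : y ∈ Γ.M 1) :
    ∃ n, ((Γ.br (Γ.tv t x) : En S) ^ n) y ∈ tot Γ.W := by
  have ha := hπ ▸ Γ.tv_ok ht x π h
  have ha0 := Γ.Hle _ _ ha
  set a := Γ.tv t x with ea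
  have hA : ∀ p, ∀ g ∈ Γ.H 0 p, Γ.br a (Γ.br a g) ∈ Γ.Z p := fun p g hg => by
    rw [Γ.anti (Γ.HP _ ha0) (Γ.HP _ hg), map_neg, map_smul]
    refine neg_mem (Submodule.smul_mem _ _ ?_)
    rcases ht with ⟨rfl, -⟩ | ⟨rfl, -⟩
    · simpa using Γ.cc ha (Γ.HH _ hg ha)
    · simpa using Γ.HZ ha0 (Γ.cc hg ha)
  obtain ⟨n, hn⟩ := Γ.pol.kt1 (a := fun q : ℚ => q ^ 1 • a) (mem_pf 1 ha0) (fun p g hg =>
    pf_map (Γ.pol.br _ ∘ₗ Γ.pol.br _) (fun i g hg => by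
      refine mem_eq (mem_pf (i + 2) (hA p g hg)) (funext fun q => ?_)
      change Γ.br _ (Γ.br _ _) = _
      simp only [map_smul, LinearMap.smul_apply, smul_smul]
      congr 1; ring) hg) ht (fun j q => q ^ 0 • x j) π (fun j => mem_pf 0 (h j)) hπ (mem_pf 0 hy)
  obtain ⟨w, hw, _, ⟨z, hz, rfl⟩, e⟩ := Submodule.mem_sup.1 hn
  have tp : ∀ {M : ℤˣ → Submodule ℚ S} {v}, v ∈ tot (fun p => pf (M p)) → v ∈ pf (tot M) :=
    fun {M _} => tot_map LinearMap.id fun p _ => pf_map LinearMap.id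
      fun i _ hx => mem_pf i (le_tot M p hx)
  obtain ⟨cw, w1, rfl⟩ := pf_rep (tp hw)
  obtain ⟨cz, -, rfl⟩ := pf_rep (tp hz)
  have e1 : ∀ c : ℕ →₀ S, evp (Finsupp.mapDomain Nat.succ (Finsupp.mapRange.linearMap (Γ.br a) c)) =
      Γ.pol.br (fun q : ℚ => q ^ 1 • a) (evp c) := fun c => by
    induction c using Finsupp.induction_linear with
    | zero => simp
    | add a b ha hb => simp only [map_add, Finsupp.mapDomain_add, ha, hb]
    | single j x =>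
      funext q
      change _ = Γ.br _ _
      simp [evp_single, smul_smul, pow_succ]
  have e2 := evp_inj (c := cw + (cz - Finsupp.mapDomain Nat.succ
      (Finsupp.mapRange.linearMap (Γ.br a) cz)) - Finsupp.single 0 (((Γ.br a : En S) ^ n) y)) (by
    rw [map_sub, map_add, map_sub, e1, sub_eq_zero, evp_single]
    refine e.trans (funext fun q => (Γ.pi_pow ℚ _ _ n q).trans ?_)
    rw [show Γ.pol.tv t _ q = _ from Γ.pi_tv ℚ t _ q]
    simp [ea])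
  have e3 : ∀ j, ((Γ.br a : En S) ^ (j + n)) y - cz j ∈ tot Γ.W := fun j => by
    induction j with
    | zero =>
      have := DFunLike.congr_fun e2 0
      rw [Finsupp.sub_apply, Finsupp.add_apply, Finsupp.sub_apply,
        Finsupp.mapDomain_of_notMem_range _ _ (by simp), Finsupp.single_eq_same] at this
      convert w1 0 using 1
      rw [zero_add, ← sub_eq_zero.1 this]; abel
    | succ j ih =>
      have := DFunLike.congr_fun e2 (j + 1)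
      rw [Finsupp.sub_apply, Finsupp.add_apply, Finsupp.sub_apply,
        Finsupp.mapDomain_apply Nat.succ_injective, Finsupp.single_eq_of_ne (by omega)] at this
      have h1 := (Γ.rp.st (a := 1) ⟨a, ha0, rfl⟩).2 _ ih
      refine mem_eq (add_mem h1 (w1 (j + 1))) ?_
      rw [add_right_comm, pow_succ', Module.End.mul_apply, map_sub]
      simp only [Finsupp.mapRange.linearMap_apply, Finsupp.mapRange_apply, sub_zero,
        Finsupp.zero_apply] at this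
      rw [eq_neg_of_add_eq_zero_left this]; abel
  obtain ⟨j, hj⟩ := Infinite.exists_notMem_finset cz.support
  exact ⟨j + n, by simpa [Finsupp.notMem_support_iff.1 hj] using e3 j⟩

theorem kt3 {t : T} (ht : Ok j1 j2 t) : ∃ n, 2 ≤ n ∧ ∀ π : t.Lf → ℤˣ, ∏ i, π i = 1 →
    ∀ x : t.Lf → S, (∀ i, x i ∈ Γ.M (π i)) → ∀ y ∈ Γ.M 1,
      ((Γ.br (Γ.tv t x) : En S) ^ n) y ∈ tot Γ.W := by
  have up : ∀ π : t.Lf → ℤˣ, ∀ x : t.Lf → S, (∀ i, x i ∈ Γ.M (π i)) → ∀ y n n', n ≤ n' →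
      ((Γ.br (Γ.tv t x) : En S) ^ n) y ∈ tot Γ.W → ((Γ.br (Γ.tv t x) : En S) ^ n') y ∈ tot Γ.W := by
    intro π x h y n n' hn h1
    obtain ⟨d, rfl⟩ := Nat.exists_eq_add_of_le' hn
    rw [pow_add]
    exact Module.End.pow_apply_mem_of_forall_mem d
      (Γ.rp.st ⟨_, Γ.Hle _ _ (Γ.tv_ok ht x π h), rfl⟩).2 _ h1
  have : ∀ π : t.Lf → ℤˣ, ∃ n, ∏ i, π i = 1 → ∀ x : t.Lf → S, (∀ i, x i ∈ Γ.M (π i)) →
      ∀ y ∈ Γ.M 1, ((Γ.br (Γ.tv t x) : En S) ^ n) y ∈ tot Γ.W := by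
    intro π
    by_contra hc
    push Not at hc
    choose hπ x hx y hy hn using hc
    obtain ⟨n, h⟩ := Γ.pow.kt2 ht (fun j i => x i j) π (fun j => mem_pw.2 fun i => hx i j) (hπ 0)
      (y := y) (mem_pw.2 hy)
    have h2 := tot_map (U := tot Γ.W) (LinearMap.proj n) (fun p v hv => le_tot _ p (mem_pw.1 hv n)) h
    have h3 := mem_eq h2 (Γ.pi_pow ℕ _ _ n n).symm
    rw [show Γ.pow.tv t _ n = _ from Γ.pi_tv ℕ t _ n] at h3
    exact hn n h3
  choose n hn using this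
  exact ⟨Finset.univ.sup n + 2, by omega, fun π hπ x hx y hy => up π x hx y _ _
    ((Finset.le_sup (Finset.mem_univ π)).trans (Nat.le_add_right _ 2)) (hn π hπ x hx y hy)⟩

end Cfg

end Pool.Agent.MP_2a197d_al.LB
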