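import Pool.Agent.MP_2a197d_al.LB7
import Pool.Agent.MP_2a197d_al.Rat

-- ======== part 0: formerly Pool.Agent.MP_2a197d_al.LB8
section MrgPart0

/-! From even values in the Grassmann envelope to nilpotent action of subspaces. -/

set_option linter.unusedSectionVars false

namespace Pool.Agent.MP_2a197d_al.LB

open Function T LieAlgebra LieSubmodule TensorProduct

universe u

/-- Every value of the full tree of depth `m` generates a solvable ideal of length `≤ k`. -/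
def PQ (K L : Type*) [CommRing K] [LieRing L] [LieAlgebra K L] (m k : ℕ) : Prop :=
  ∀ a : (full m).Lf → L, derivedSeriesOfIdeal K L k (lieSpan K L {lev (full m) a}) = ⊥

theorem PQ.image {K K' L L' : Type*} [CommRing K] [LieRing L] [LieAlgebra K L] [CommRing K']
    [LieRing L'] [LieAlgebra K' L'] (f : L' →+ L) (hf : ∀ x y, f ⁅x, y⁆ = ⁅f x, f y⁆)
    (hsur : Surjective f) (hs : ∀ s : K, ∃ r : K', ∀ w, f (r • w) = s • f w) {c k : ℕ}
    (h : PQ K' L' c k) : PQ K L c k := by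
  intro a
  choose b hb using fun i => hsur (a i)
  have : lev (full c) a = f (lev (full c) b) := by
    rw [ev_map f hf]; congr 1; exact (funext hb).symm
  rw [this]
  exact sol_image f hf hsur hs (h b)

theorem PQ.sub {K K' L' Θ : Type*} {L : Θ → Type*} [CommRing K] [∀ θ, LieRing (L θ)]
    [∀ θ, LieAlgebra K (L θ)] [CommRing K'] [LieRing L'] [LieAlgebra K' L'] (f : ∀ θ, L' →+ L θ)
    (hf : ∀ θ x y, f θ ⁅x, y⁆ = ⁅f θ x, f θ y⁆)
    (hs : ∀ θ (r : K'), ∃ s : K, ∀ w, f θ (r • w) = s • f θ w)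
    (hi : ∀ x, (∀ θ, f θ x = 0) → x = 0) {c k : ℕ} (h : ∀ θ, PQ K (L θ) c k) : PQ K' L' c k := by
  intro a
  rw [LieSubmodule.eq_bot_iff]
  intro x hx
  refine hi x fun θ => ?_
  have h1 : lieSpan K' L' {lev (full c) a} ≤
      comapI (f θ) (hf θ) (hs θ) (lieSpan K (L θ) {lev (full c) fun i => f θ (a i)}) := by
    rw [lieSpan_le, Set.singleton_subset_iff]
    change f θ _ ∈ lieSpan K (L θ) {lev (full c) fun i => f θ (a i)}
    rw [ev_map (f θ) (hf θ)]
    exact subset_lieSpan rfl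
  have h2 : f θ x ∈ derivedSeriesOfIdeal K (L θ) k _ := der_comap (f θ) (hf θ) (hs θ) h1 k hx
  rwa [h, mem_bot] at h2

theorem PQ.base {L : Type*} [LieRing L] [LieAlgebra ℚ L] (C : Type*) [CommRing C] [Algebra ℚ C]
    {c k : ℕ} (h : PQ ℚ L c k) : PQ C (C ⊗[ℚ] L) c k := by
  have h1 : PQ (MvPolynomial C ℚ) (MvPolynomial C ℚ ⊗[ℚ] L) c k := by
    refine PQ.sub (K := ℚ) (fun v : C → ℚ => ((TensorProduct.lid ℚ L).toLinearMap ∘ₗ
      (MvPolynomial.aeval v).toLinearMap.rTensor L).toAddMonoidHom) ?_ ?_ ?_ fun _ => h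
    · intro v x y
      induction x using TensorProduct.induction_on with
      | zero => simp
      | add a b ha hb => rw [add_lie, map_add, map_add, ha, hb, add_lie]
      | tmul a x =>
        induction y using TensorProduct.induction_on with
        | zero => simp
        | add a b ha hb => rw [lie_add, map_add, map_add, ha, hb, lie_add]
        | tmul b y => simp [smul_smul, mul_comm]
    · intro v r
      refine ⟨MvPolynomial.aeval v r, fun w => ?_⟩
      induction w using TensorProduct.induction_on with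
      | zero => simp
      | add a b ha hb => rw [smul_add, map_add, map_add, ha, hb, smul_add]
      | tmul a x => simp [smul_tmul', smul_smul]
    · intro x hx
      refine tensor_eq_zero x fun φ => MvPolynomial.funext fun v => ?_
      have h2 := congrArg φ (hx v)
      rw [map_zero] at h2 ⊢
      rw [← h2]
      clear hx h2
      induction x using TensorProduct.induction_on with
      | zero => simp
      | add a b ha hb => simp only [map_add, ha, hb]
      | tmul a x => simp [mul_comm, MvPolynomial.aeval_eq_eval]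
  let g : MvPolynomial C ℚ ⊗[ℚ] L →ₗ⁅ℚ⁆ C ⊗[ℚ] L :=
    ExtendScalars.map (MvPolynomial.aeval (id : C → C)) (LieHom.id : L →ₗ⁅ℚ⁆ L)
  have hg : ∀ a x, g (a ⊗ₜ x) = MvPolynomial.aeval (id : C → C) a ⊗ₜ x := fun _ _ => rfl
  refine PQ.image (AddMonoidHom.mk' g (map_add g)) (fun x y => g.map_lie x y) ?_ ?_ h1
  · intro y
    induction y using TensorProduct.induction_on with
    | zero => exact ⟨0, map_zero _⟩
    | add a b ha hb =>
      obtain ⟨a, rfl⟩ := ha
      obtain ⟨b, rfl⟩ := hb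
      exact ⟨a + b, map_add _ _ _⟩
    | tmul a x => exact ⟨MvPolynomial.X a ⊗ₜ x, by simp [hg]⟩
  · intro s
    refine ⟨MvPolynomial.X s, fun w => ?_⟩
    induction w using TensorProduct.induction_on with
    | zero => simp
    | add a b ha hb => rw [smul_add, map_add, map_add, ha, hb, smul_add]
    | tmul a x => simp [smul_tmul', hg]

theorem PQ.fam {Λ K : Type*} {L : Λ → Type*} [CommRing K] [∀ i, LieRing (L i)]
    [∀ i, LieAlgebra K (L i)] {c k : ℕ} (h : ∀ i, PQ K (L i) c k) : PQ K (Fam L) c k :=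
  PQ.sub (L' := Fam L) Fam.at (fun _ _ _ => rfl) (fun _ r => ⟨r, fun _ => rfl⟩)
    (fun _ h => funext h) h

theorem lev_der {K L : Type*} [CommRing K] [LieRing L] [LieAlgebra K L] (I : LieIdeal K L) :
    ∀ (k : ℕ) (c : (full k).Lf → L), (∀ i, c i ∈ I) → lev (full k) c ∈ derivedSeriesOfIdeal K L k I
  | 0, _, h => h _
  | k + 1, _, h => by
    rw [derivedSeriesOfIdeal_succ]
    exact lie_mem_lie (lev_der I k _ fun _ => h _) (lev_der I k _ fun _ => h _)

variable {L : Type u} [LieRing L] [LieAlgebra ℚ L]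

variable (L) in
/-- The superalgebra obtained by tensoring with the Grassmann algebra. -/
noncomputable def env : Sup (BB ⊗[ℚ] L) where
  br := br
  P p := OO p ⊤
  anti {a b x y} hx hy := by
    rcases Int.units_eq_one_or a with rfl | rfl
    · simpa using anti_even hx y
    rcases Int.units_eq_one_or b with rfl | rfl
    · simpa using (neg_eq_iff_eq_neg.2 (anti_even hy x)).symm
    · simpa using comm_odd hx hy
  jac {a b x y} hx hy z := by
    rcases Int.units_eq_one_or a with rfl | rfl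
    · simpa using leib_even hx y z
    rcases Int.units_eq_one_or b with rfl | rfl
    · rw [leib_even hy x z, anti_even hy x]; simp
    · simpa [sub_eq_add_neg] using leib_odd hx hy z

theorem env_ps {m k : ℕ} (h : PQ ℚ L m k) : (env L).PS m k := by
  intro a ha c hc
  choose b _ hb using fun i => OO_even (ha i)
  have e : ∀ (t : T) (x : t.Lf → CC ⊗[ℚ] L), jj (lev t x) = (env L).tv t fun i => jj (x i) :=
    fun t x => ev_map jj jj_lie t x
  have h1 : ∀ i, ∃ d ∈ lieSpan CC (CC ⊗[ℚ] L) {lev (full m) b}, jj d = c i := fun i => by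
    generalize c i = v, hc i = hv
    induction hv with
    | base => exact ⟨_, subset_lieSpan rfl, by rw [e, funext hb]⟩
    | l hx _ ih =>
      obtain ⟨d, h1, rfl⟩ := ih
      obtain ⟨u, -, rfl⟩ := OO_even hx
      exact ⟨⁅u, d⁆, lie_mem _ h1, jj_lie _ _⟩
    | r hx _ ih =>
      obtain ⟨d, h1, rfl⟩ := ih
      obtain ⟨u, -, rfl⟩ := OO_even hx
      exact ⟨⁅d, u⁆, lie_mem_left _ _ _ _ _ h1, jj_lie _ _⟩
  choose d d1 d2 using h1
  have h2 := lev_der _ k d d1
  rw [h.base CC b, mem_bot] at h2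
  rw [← funext d2, ← e, h2, map_zero]

/-- Span of brackets. -/
def lb (U U' : Submodule ℚ L) : Submodule ℚ L :=
  Submodule.span ℚ {z | ∃ x ∈ U, ∃ y ∈ U', z = ⁅x, y⁆}

theorem mem_lb {U U' : Submodule ℚ L} {x y : L} (hx : x ∈ U) (hy : y ∈ U') : ⁅x, y⁆ ∈ lb U U' :=
  Submodule.subset_span ⟨x, hx, y, hy, rfl⟩

theorem lb_le {U U' Z : Submodule ℚ L} (h : ∀ x ∈ U, ∀ y ∈ U', ⁅x, y⁆ ∈ Z) : lb U U' ≤ Z :=
  Submodule.span_le.2 (by rintro _ ⟨x, hx, y, hy, rfl⟩; exact h x hx y hy)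

theorem lb_stab {U U' : Submodule ℚ L} {g : L} (h : ∀ x ∈ U, ⁅g, x⁆ ∈ U) (h' : ∀ x ∈ U', ⁅g, x⁆ ∈ U') :
    ∀ z ∈ lb U U', ⁅g, z⁆ ∈ lb U U' := fun _ hz =>
  (lb_le (Z := (lb U U').comap (ad ℚ L g : L →ₗ[ℚ] L)) fun x hx y hy => by
    change ⁅g, ⁅x, y⁆⁆ ∈ lb U U'
    rw [leibniz_lie]; exact add_mem (mem_lb (h x hx) hy) (mem_lb hx (h' y hy))) hz

/-- Derived series of a subspace. -/
def dsr (U : Submodule ℚ L) : ℕ → Submodule ℚ L
  | 0 => U
  | j + 1 => lb (dsr U j) (dsr U j)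

/-- Triples of the relative induction. -/
structure Tri (A M W : Submodule ℚ L) : Prop where
  aa : ∀ x ∈ A, ∀ y ∈ A, ⁅x, y⁆ ∈ A
  am : ∀ x ∈ A, ∀ y ∈ M, ⁅x, y⁆ ∈ M
  aw : ∀ x ∈ A, ∀ y ∈ W, ⁅x, y⁆ ∈ W
  mm : ∀ x ∈ M, ∀ y ∈ M, ⁅x, y⁆ ∈ A
  wm : W ≤ M

/-- Elements acting trivially on the quotient. -/
def Zs (A M W : Submodule ℚ L) : Submodule ℚ L where
  carrier := {g | g ∈ A ∧ ∀ y ∈ M, ⁅g, y⁆ ∈ W}
  add_mem' ha hb := ⟨add_mem ha.1 hb.1, fun y hy => by
    rw [add_lie]; exact add_mem (ha.2 y hy) (hb.2 y hy)⟩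
  zero_mem' := ⟨zero_mem _, fun y _ => by simp⟩
  smul_mem' r _ ha := ⟨A.smul_mem r ha.1, fun y hy => by
    rw [smul_lie]; exact W.smul_mem r (ha.2 y hy)⟩

variable {A M W : Submodule ℚ L}

theorem Tri.id (h : Tri A M W) (j : ℕ) : ∀ x ∈ A, ∀ y ∈ dsr A j, ⁅x, y⁆ ∈ dsr A j := by
  induction j with
  | zero => exact h.aa
  | succ j ih => exact fun x hx => lb_stab (ih x hx) (ih x hx)

theorem Tri.le (h : Tri A M W) (j : ℕ) : dsr A j ≤ A := by
  induction j with
  | zero => exact le_rfl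
  | succ j ih => exact lb_le fun x hx y hy => h.aa x (ih hx) y (ih hy)

theorem Tri.az (h : Tri A M W) : ∀ x ∈ A, ∀ y ∈ Zs A M W, ⁅x, y⁆ ∈ Zs A M W := fun x hx y hy =>
  ⟨h.aa x hx y hy.1, fun z hz => by
    rw [lie_lie]; exact sub_mem (h.aw x hx _ (hy.2 z hz)) (hy.2 _ (h.am x hx z hz))⟩

theorem OO_mono (p : ℤˣ) {U U' : Submodule ℚ L} (h : U ≤ U') : OO p U ≤ OO p U' :=
  Submodule.span_mono fun _ ⟨e, he, x, hx, e'⟩ => ⟨e, he, x, h hx, e'⟩

theorem fact_tv {Λ : Type*} : ∀ (t : T) (π : t.Lf → ℤˣ) (y : t.Lf → Λ → CC ⊗[ℚ] L)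
    (s : t.Lf → BB ⊗[ℚ] L) (ξ : t.Lf → Λ → E), (∀ j, s j ∈ OO (π j) ⊤) → (∀ j i, ξ j i ∈ Ep (π j)) →
    (∀ j i, jj (y j i) = ((1 : E) ⊗ₜ[ℚ] ξ j i) • s j) → (env L).tv t s ∈ OO (∏ j, π j) ⊤ ∧
      ∀ i, ∃ η : E, jj (lev t fun j => y j i) = ((1 : E) ⊗ₜ[ℚ] η) • (env L).tv t s
  | .lf, π, _, _, ξ, h1, _, h3 => ⟨prod_lf π ▸ h1 (), fun i => ⟨ξ () i, h3 () i⟩⟩
  | .nd a b, π, y, s, ξ, h1, h2, h3 => by
    obtain ⟨e1, e2⟩ := fact_tv a _ (fun j => y (Sum.inl j)) _ _ (fun _ => h1 _) (fun _ => h2 _)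
      fun _ => h3 _
    obtain ⟨f1, f2⟩ := fact_tv b _ (fun j => y (Sum.inr j)) _ _ (fun _ => h1 _) (fun _ => h2 _)
      fun _ => h3 _
    refine ⟨prod_nd a b π ▸ br_OO (W'' := ⊤) (fun _ _ _ _ => trivial) e1 f1, fun i => ?_⟩
    obtain ⟨η, hη⟩ := e2 i
    obtain ⟨η', hη'⟩ := f2 i
    refine ⟨η * η', ?_⟩
    rw [lev_nd, jj_lie, hη, hη', br_smul_left, br_smul_right e1, smul_smul,
      Algebra.TensorProduct.tmul_mul_tmul, one_mul]
    rfl

theorem Tri.nil {m k j1 j2 : ℕ} (hP : PQ ℚ L m k) (h : Tri A M W) {t : T} (ht : Ok j1 j2 t)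
    (hc : ∀ x ∈ dsr A j1, ∀ y ∈ dsr A j2, ⁅x, y⁆ ∈ Zs A M W) :
    ∃ n, Kills {v | ∃ x : t.Lf → L, (∀ j, x j ∈ M) ∧ lev t x = v} n M W := by
  classical
  have hc2 : ∀ x ∈ dsr A j2, ∀ y ∈ dsr A j2, ⁅x, y⁆ ∈ Zs A M W := fun x hx => hc x (by
    rcases ht with ⟨rfl, -⟩ | ⟨rfl, -⟩
    exacts [hx, h.le _ hx])
  let Γ : Cfg (BB ⊗[ℚ] L) m k j1 j2 :=
    { toSup := env L
      M := fun p => OO p M, W := fun p => OO p W, Z := fun p => OO p (Zs A M W)
      H := fun j p => OO p (dsr A j)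
      MP := fun p => OO_mono p le_top, HP := fun p => OO_mono p le_top
      WM := fun p => OO_mono p h.wm, Hle := fun j p => OO_mono p (h.le j)
      MM := br_OO h.mm, HM := br_OO h.am, HW := br_OO h.aw, HH := fun j => br_OO (h.id j)
      HS := fun j => br_OO fun _ hx _ hy => mem_lb hx hy
      ZM := br_OO (W := Zs A M W) fun _ hx => hx.2, HZ := br_OO h.az, ZH := fun p => OO_mono p fun _ hx => hx.1
      cc := br_OO hc, nn := fun p => OO_mono p (lb_le hc2), ps := env_ps hP }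
  obtain ⟨n, hn2, hn⟩ := Γ.kt3 ht
  have hv : ∀ x : t.Lf → L, (∀ j, x j ∈ M) → lev t x ∈ dsr A j2 := by
    have e : ∀ (j : ℕ) (x : (full (j + 1)).Lf → L), (∀ i, x i ∈ M) → lev (full (j + 1)) x ∈ dsr A j := by
      intro j
      induction j with
      | zero => exact fun x hx => h.mm _ (hx _) _ (hx _)
      | succ j ih => exact fun x hx => mem_lb (ih _ fun _ => hx _) (ih _ fun _ => hx _)
    rcases ht with ⟨-, rfl⟩ | ⟨-, rfl⟩
    · exact fun x hx => h.id _ _ (e 0 _ fun _ => hx _) _ (e j2 _ fun _ => hx _)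
    · exact e _
  refine ⟨n ^ 2 ^ Fintype.card t.Lf, fun l hl hm z hz => ?_⟩
  have hU : Stab (dsr A j2 : Set L) M := fun x hx => h.am x (h.le _ hx)
  have hU' : Stab (dsr A j2 : Set L) W := fun x hx => h.aw x (h.le _ hx)
  let P : List (Fin l.length) → (t.Lf × Fin l.length → M) → L := fun l1 Y =>
    act (l1.map fun i => lev t fun p => (Y (p, i) : L)) z
  have hmem : ∀ (l1 : List (Fin l.length)) (Y : t.Lf × Fin l.length → M),
      ∀ x ∈ l1.map fun i => lev t fun p => (Y (p, i) : L), x ∈ (dsr A j2 : Set L) := by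
    intro l1 Y x hx
    obtain ⟨i, -, rfl⟩ := List.mem_map.1 hx
    exact hv _ fun p => (Y (p, i)).2
  have hperm : ∀ l1 l2 Y, l1.Perm l2 → W.mkQ (P l1 Y) = W.mkQ (P l2 Y) := fun l1 l2 Y h12 =>
    (Submodule.Quotient.eq W).2 (act_perm hU hU' (fun x hx y hy => (hc2 x hx y hy).2)
      (h12.map _) (hmem l1 Y) hz)
  have hall : ∀ l1 : List (Fin l.length), l1.Nodup → (∀ i, i ∈ l1) → l1.Perm (List.finRange _) :=
    fun l1 h1 h2 => (List.perm_ext_iff_of_nodup h1 (List.nodup_finRange _)).2 fun i => by simp [h2]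
  have hF : (fun Y => W.mkQ (P (List.finRange _) Y)) = 0 := by
    refine mc (rho t.Lf (Fin l.length) M (L ⧸ W)) n (by rw [Fintype.card_fin, hm]) fun π R hR => ?_
    rcases Int.units_eq_one_or (∏ p, π p) with hπ | hπ
    · funext Y
      let l1 := R.toList ++ Rᶜ.toList
      have h1 : l1.Nodup := List.Nodup.append (Finset.nodup_toList _) (Finset.nodup_toList _)
        fun i h1 h2 => (Finset.mem_compl.1 (Finset.mem_toList.1 h2)) (Finset.mem_toList.1 h1)
      have h2 : ∀ i, i ∈ l1 := fun i => by by_cases hi : i ∈ R <;> simp [l1, hi]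
      have hf : ∀ a b : L, (1 : CC) ⊗ₜ[ℚ] ⁅a, b⁆ = ⁅(1 : CC) ⊗ₜ[ℚ] a, (1 : CC) ⊗ₜ[ℚ] b⁆ := by simp
      have h3 := grass Fin.val Fin.val_injective (fun p => (Fintype.equivFin _ p : ℕ))
        (Fin.val_injective.comp (Fintype.equivFin _).injective)
        (fun y : M => (1 : CC) ⊗ₜ[ℚ] (y : L)) (fun Y => W.mkQ (P l1 Y))
        (fun Y => W.mkQ.baseChange CC
          (act (l1.map fun i => lev t fun p => Y (p, i)) ((1 : CC) ⊗ₜ[ℚ] z)))
        (fun x i => by
          have := (ml_act (K := CC) l1 h1 h2 ((1 : CC) ⊗ₜ[ℚ] z)).blocks (ml_lev t) x i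
          exact ⟨fun a b => (congrArg _ (this.map_add a b)).trans (map_add _ _ _),
            fun a b => (congrArg _ (this.map_smul a b)).trans (map_smul _ _ _)⟩)
        (fun Y => by
          rw [← LinearMap.baseChange_tmul, act_map (fun x : L => (1 : CC) ⊗ₜ[ℚ] x) hf, List.map_map]
          congr 3
          funext i
          exact (ev_map (fun x : L => (1 : CC) ⊗ₜ[ℚ] x) hf t _).symm) π R Y (by
          let y : t.Lf → Fin l.length → CC ⊗[ℚ] L := fun p i =>
            ∑ a ∈ R, cc (π p) (Fintype.equivFin _ p) a i • (1 : CC) ⊗ₜ[ℚ] (Y (p, a) : L)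
          choose s ξ s1 s2 s3 using fun p => (fact_gen (fun _ => ()) (π p) _ Fin.val (fun _ => R)
            (fun _ => Fin.val) (fun _ a => (Y (p, a) : L)) fun _ a => (Y (p, a)).2 :
              Fact (fun _ => ()) (π p) M (y p))
          obtain ⟨e1, e2⟩ := fact_tv t π y (fun p => s p ()) ξ
            (fun p => OO_mono _ le_top (s1 p ())) s2 s3
          have e3 : ∀ (l2 : List (Fin l.length)) (w : CC ⊗[ℚ] L), ∃ η : E,
              jj (act (l2.map fun i => lev t fun p => y p i) w) = ((1 : E) ⊗ₜ[ℚ] η) •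
                ((br ((env L).tv t fun p => s p ()) : En _) ^ l2.length) (jj w) := by
            intro l2 w
            induction l2 with
            | nil => exact ⟨1, by rw [← Algebra.TensorProduct.one_def, one_smul]; rfl⟩
            | cons i l2 ih =>
              obtain ⟨η, hη⟩ := ih
              obtain ⟨η', hη'⟩ := e2 i
              refine ⟨η' * η, ?_⟩
              rw [List.map_cons, act_cons, jj_lie, hη, hη', br_smul_left, br_smul_right e1,
                smul_smul, Algebra.TensorProduct.tmul_mul_tmul, one_mul, List.length_cons, pow_succ']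
              rfl
          have e4 : act (Rᶜ.toList.map fun i => lev t fun p => gen Fin.val
              (fun p => (Fintype.equivFin _ p : ℕ)) (fun y : M => (1 : CC) ⊗ₜ[ℚ] (y : L)) π R Y (p, i))
              ((1 : CC) ⊗ₜ[ℚ] z) = (1 : CC) ⊗ₜ[ℚ] P Rᶜ.toList Y := by
            rw [act_map (fun x : L => (1 : CC) ⊗ₜ[ℚ] x) hf, List.map_map]
            congr 1
            refine List.map_congr_left fun i hi => ?_
            simp only [gen, if_neg (Finset.mem_compl.1 (Finset.mem_toList.1 hi))]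
            exact (ev_map (fun x : L => (1 : CC) ⊗ₜ[ℚ] x) hf t _).symm
          rw [List.map_append, act_append, e4, List.map_congr_left (l := R.toList)
            (g := fun i => lev t fun p => y p i) fun i hi => by
              simp only [gen, if_pos (Finset.mem_toList.1 hi), y]]
          obtain ⟨η, hη⟩ := e3 R.toList ((1 : CC) ⊗ₜ[ℚ] P Rᶜ.toList Y)
          have e5 := hn π hπ (fun p => s p ()) (fun p => s1 p ()) (jj ((1 : CC) ⊗ₜ[ℚ] P Rᶜ.toList Y))
            (Submodule.subset_span ⟨1, one_mem_Ep, _, hU.act_mem (hmem _ Y) hz, by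
              rw [jj_tmul, map_one]; rfl⟩)
          have e6 : ∀ u : CC ⊗[ℚ] L, val.toLinearMap.rTensor _ (W.mkQ.baseChange CC u) =
              W.mkQ.baseChange BB (jj u) := fun u => by
            induction u using TensorProduct.induction_on with
            | zero => simp
            | add a b ha hb => simp only [map_add, ha, hb]
            | tmul a x => simp [jj_tmul]
          apply Module.Flat.rTensor_preserves_injective_linearMap val.toLinearMap val_inj
          rw [e6, hη, map_smul, map_zero, Finset.length_toList, hR]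
          have e7 := tot_map (U := ⊥) ((W.mkQ.baseChange BB).restrictScalars ℚ) (fun p v hv =>
            (Submodule.span_le (p := LinearMap.ker ((W.mkQ.baseChange BB).restrictScalars ℚ))).2 (by
              rintro _ ⟨e, -, x, hx, rfl⟩
              simp [(Submodule.Quotient.mk_eq_zero W).2 hx]) hv) e5
          exact smul_eq_zero_of_right _ e7)
      rw [sym_rho_apply] at h3 ⊢
      simpa only [← hperm l1 _ _ (hall l1 h1 h2), Pi.zero_apply] using h3
    · obtain ⟨a, ha, b, hb, hab⟩ := Finset.one_lt_card.1 (by omega : 1 < R.card)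
      have h1 := sym_rho (rho t.Lf (Fin l.length) M (L ⧸ W)) π (fun _ => R)
        (τ := fun _ => Equiv.swap a b) (fun _ => swap_mem_Sp ha hb)
        fun Y => W.mkQ (P (List.finRange _) Y)
      have h2 : rho t.Lf (Fin l.length) M (L ⧸ W) (fun _ => Equiv.swap a b)
          (fun Y => W.mkQ (P (List.finRange _) Y)) = fun Y => W.mkQ (P (List.finRange _) Y) := by
        funext Y
        rw [← hperm ((List.finRange _).map (Equiv.swap a b)) _ Y (hall _
          ((List.nodup_finRange _).map (Equiv.injective _)) fun i =>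
            List.mem_map.2 ⟨Equiv.swap a b i, List.mem_finRange _, by simp⟩)]
        simp only [P, List.map_map]
        rfl
      have h3 : chm π (fun _ => Equiv.swap a b) = -1 := by
        rw [chm_apply, Finset.prod_congr rfl fun p _ => ch_swap (π p) hab]
        have : ∏ p, sq (π p) = sq (∏ p, π p) := by simp [sq]
        rw [this, hπ]; simp [sq]
      rw [h2, h3, neg_one_smul] at h1
      exact two_eq h1
  choose y hy hy' using fun i : Fin l.length => hl _ (List.get_mem l i)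
  have := congrFun hF fun p => ⟨y p.2 p.1, hy _ _⟩
  simp only [P, hy', List.map_get_finRange, Pi.zero_apply] at this
  exact (Submodule.Quotient.mk_eq_zero W).1 this

end Pool.Agent.MP_2a197d_al.LB

end MrgPart0

-- ======== part 1: formerly Pool.Agent.MP_2a197d_al.LB9
section MrgPart1

/-! A graded Lie algebra with solvable even part and property `PQ` is solvable; Lie algebras with
property `PQ` are solvable. -/

set_option linter.unusedSectionVars false

namespace Pool.Agent.MP_2a197d_al.LB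

open Function T LieAlgebra LieSubmodule TensorProduct

universe u

variable {L : Type u} [LieRing L] [LieAlgebra ℚ L] {A M W : Submodule ℚ L}

theorem der_comp {i j : ℕ} {S S' S'' : Set L} (h : Der j S S') (h' : Der i S' S'') :
    Der (j + i) S S'' := by
  unfold Der
  rw [← graft_full j i]
  intro x hx
  rw [lev, ev_graft]
  exact h' _ fun _ => h _ fun _ => hx _

theorem br_sp {S1 S2 : Set L} {U : Submodule ℚ L} (h : ∀ x ∈ S1, ∀ y ∈ S2, ⁅x, y⁆ ∈ U) {x y : L}
    (hx : x ∈ Submodule.span ℚ S1) (hy : y ∈ Submodule.span ℚ S2) : ⁅x, y⁆ ∈ U := by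
  refine Submodule.span_induction₂ (p := fun x y _ _ => ⁅x, y⁆ ∈ U)
    (fun x y hx hy => h x hx y hy) (by simp) (by simp) ?_ ?_ ?_ ?_ hx hy
  · intro a b c _ _ _ h1 h2; rw [add_lie]; exact add_mem h1 h2
  · intro a b c _ _ _ h1 h2; rw [lie_add]; exact add_mem h1 h2
  · intro r a b _ _ h1; rw [smul_lie]; exact Submodule.smul_mem _ r h1
  · intro r a b _ _ h1; rw [lie_smul]; exact Submodule.smul_mem _ r h1

theorem lev_span (S : Set L) : ∀ (t : T) (y : t.Lf → L), (∀ i, y i ∈ Submodule.span ℚ S) →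
    lev t y ∈ Submodule.span ℚ {v | ∃ x : t.Lf → L, (∀ j, x j ∈ S) ∧ lev t x = v}
  | .lf, _, h => Submodule.span_mono (by
      intro x hx
      exact ⟨fun _ => x, fun _ => hx, rfl⟩) (h ())
  | .nd a b, _, h => br_sp (by
      rintro _ ⟨x, hx, rfl⟩ _ ⟨y, hy, rfl⟩
      exact Submodule.subset_span ⟨Sum.elim x y, by rintro (i | i); exacts [hx i, hy i], rfl⟩)
    (lev_span S a _ fun _ => h _) (lev_span S b _ fun _ => h _)

/-- Some term of the derived series has odd part in `W`. -/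
def Sol (A M W : Submodule ℚ L) : Prop :=
  ∃ j, Der j ((A ⊔ M : Submodule ℚ L) : Set L) ((A ⊔ W : Submodule ℚ L) : Set L)

theorem sup_step {A1 W1 A2 W2 : Submodule ℚ L} (h1 : ∀ x ∈ W1, ∀ y ∈ W1, ⁅x, y⁆ ∈ A2)
    (h3 : ∀ x ∈ A1, ∀ y ∈ A1, ⁅x, y⁆ ∈ A2) (h4 : ∀ x ∈ A1, ∀ y ∈ W1, ⁅x, y⁆ ∈ W2) :
    ∀ a ∈ ((A1 ⊔ W1 : Submodule ℚ L) : Set L), ∀ b ∈ ((A1 ⊔ W1 : Submodule ℚ L) : Set L),
      ⁅a, b⁆ ∈ ((A2 ⊔ W2 : Submodule ℚ L) : Set L) := by
  intro a ha b hb
  obtain ⟨x, hx, y, hy, rfl⟩ := Submodule.mem_sup.1 ha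
  obtain ⟨x', hx', y', hy', rfl⟩ := Submodule.mem_sup.1 hb
  have : ⁅x + y, x' + y'⁆ = (⁅x, x'⁆ + ⁅y, y'⁆) + (⁅x, y'⁆ - ⁅x', y⁆) := by
    rw [add_lie, lie_add, lie_add, ← lie_skew y x']; abel
  rw [this]
  exact Submodule.add_mem_sup (A2.add_mem (h3 x hx x' hx') (h1 y hy y' hy'))
    (W2.sub_mem (h4 x hx y' hy') (h4 x' hx' y hy))

theorem dsr_mono {A A' : Submodule ℚ L} (h : A' ≤ A) (j : ℕ) : dsr A' j ≤ dsr A j := by
  induction j with
  | zero => exact h
  | succ j ih => exact lb_le fun x hx y hy => mem_lb (ih hx) (ih hy)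

theorem Tri.red_le (h : Tri A M W) : lb M M ⊔ Zs A M W ≤ A := sup_le (lb_le h.mm) fun _ hx => hx.1

theorem Tri.red (h : Tri A M W) : Tri (lb M M ⊔ Zs A M W) M W :=
  ⟨fun x hx y hy => by
    obtain ⟨a, ha, b, hb, rfl⟩ := Submodule.mem_sup.1 hy
    rw [lie_add]
    exact Submodule.add_mem_sup (lb_stab (h.am x (h.red_le hx)) (h.am x (h.red_le hx)) a ha)
      (h.az x (h.red_le hx) b hb), fun x hx => h.am x (h.red_le hx),
    fun x hx => h.aw x (h.red_le hx), fun _ hx _ hy => Submodule.mem_sup_left (mem_lb hx hy), h.wm⟩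

theorem Tri.desc (h : Tri A M W) {i : ℕ} (hi : dsr A i ≤ Zs A M W)
    (hs : Sol (lb M M ⊔ Zs A M W) M W) : Sol A M W := by
  obtain ⟨j, hj⟩ := hs
  have hN : lb M M ≤ A := lb_le h.mm
  have d1 := Der.chain (fun j => (((dsr A j ⊔ lb M M) ⊔ M : Submodule ℚ L) : Set L))
    ((der_zero ((A ⊔ M : Submodule ℚ L) : Set L)).mono
      (SetLike.coe_mono (sup_le_sup_right le_sup_left _))) i
    fun j _ => sup_step (fun _ hx _ hy => Submodule.mem_sup_right (mem_lb hx hy)) (by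
      intro x hx y hy
      have hy' : y ∈ A := (sup_le (h.le j) hN) hy
      obtain ⟨a, ha, b, hb, rfl⟩ := Submodule.mem_sup.1 hx
      obtain ⟨a', ha', b', hb', e⟩ := Submodule.mem_sup.1 hy
      rw [add_lie, ← lie_skew b]
      refine add_mem ?_ (neg_mem (Submodule.mem_sup_right
        (lb_stab (h.am y hy') (h.am y hy') b hb)))
      rw [← e, lie_add]
      exact Submodule.add_mem_sup (mem_lb ha ha')
        (lb_stab (h.am a (h.le j ha)) (h.am a (h.le j ha)) b' hb'))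
      fun x hx => h.am x ((sup_le (h.le j) hN) hx)
  exact ⟨_, (der_comp (d1.mono (SetLike.coe_mono (sup_le_sup_right
    (sup_le (le_sup_of_le_right hi) le_sup_left) _))) hj).mono
      (SetLike.coe_mono (sup_le_sup_right h.red_le _))⟩

theorem Tri.br_span (h : Tri A M W) {S1 S2 S3 : Set L} (h1 : S1 ⊆ A) (h2 : S2 ⊆ A)
    (h3 : ∀ x ∈ S1, ∀ y ∈ S2, ⁅x, y⁆ ∈ S3) {x y : L} (hx : x ∈ Submodule.span ℚ S1 ⊔ Zs A M W)
    (hy : y ∈ Submodule.span ℚ S2 ⊔ Zs A M W) : ⁅x, y⁆ ∈ Submodule.span ℚ S3 ⊔ Zs A M W := by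
  have hy' : y ∈ A := (sup_le (Submodule.span_le.2 h2) (le_sup_right.trans h.red_le) : _ ≤ A) hy
  obtain ⟨a, ha, b, hb, rfl⟩ := Submodule.mem_sup.1 hx
  obtain ⟨a', ha', b', hb', e⟩ := Submodule.mem_sup.1 hy
  rw [add_lie, ← lie_skew b]
  refine add_mem ?_ (neg_mem (Submodule.mem_sup_right (h.az y hy' b hb)))
  rw [← e, lie_add]
  exact Submodule.add_mem_sup (br_sp (fun x hx y hy => Submodule.subset_span (h3 x hx y hy)) ha ha')
    (h.az a (Submodule.span_le.2 h1 ha) b' hb')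

/-- Values of a tree on a subspace. -/
def Vl (t : T) (M : Submodule ℚ L) : Set L := {v | ∃ x : t.Lf → L, (∀ j, x j ∈ M) ∧ lev t x = v}

theorem Vl_nd {a b : T} : ∀ x ∈ Vl a M, ∀ y ∈ Vl b M, ⁅x, y⁆ ∈ Vl (nd a b) M := by
  rintro _ ⟨x, hx, rfl⟩ _ ⟨y, hy, rfl⟩
  exact ⟨Sum.elim x y, by rintro (i | i); exacts [hx i, hy i], rfl⟩

theorem Tri.Vl_le (h : Tri A M W) : ∀ j, Vl (full (j + 1)) M ⊆ A
  | 0, _, ⟨_, hx, rfl⟩ => h.mm _ (hx _) _ (hx _)
  | j + 1, _, ⟨_, hx, rfl⟩ => h.aa _ (h.Vl_le j ⟨_, fun _ => hx _, rfl⟩) _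
      (h.Vl_le j ⟨_, fun _ => hx _, rfl⟩)

theorem Tri.dsr_le (h : Tri A M W) : ∀ j, dsr (lb M M ⊔ Zs A M W) j ≤
    Submodule.span ℚ (Vl (full (j + 1)) M) ⊔ Zs A M W
  | 0 => sup_le_sup_right (lb_le fun x hx y hy => Submodule.subset_span
      (Vl_nd (a := lf) (b := lf) x ⟨fun _ => x, fun _ => hx, rfl⟩ y ⟨fun _ => y, fun _ => hy, rfl⟩)) _
  | j + 1 => lb_le fun _ hx _ hy =>
      h.br_span (h.Vl_le j) (h.Vl_le j) Vl_nd (h.dsr_le j hx) (h.dsr_le j hy)

theorem Tri.chain (h : Tri A M W) {B Z : Submodule ℚ L} {S : Set L} (hBA : B ≤ A) (hS : S ⊆ A)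
    (hB : ∀ x ∈ A, ∀ y ∈ B, ⁅x, y⁆ ∈ B) (hZ : Z ≤ Zs A M W) (hs : B ≤ Submodule.span ℚ S ⊔ Z)
    {n : ℕ} (hn : Kills S n M W)
    (H : ∀ U' U, Tri A U' U → (∀ x ∈ B, ∀ y ∈ U', ⁅x, y⁆ ∈ U) → Sol A U' U) : Sol A M W := by
  have k1 : Kills (S ∪ Z) n M W := by
    intro l hl hm z hz
    by_cases hc : ∀ x ∈ l, x ∈ S
    · exact hn l hc hm z hz
    push Not at hc
    obtain ⟨x, hx, hx'⟩ := hc
    obtain ⟨s, t, rfl⟩ := List.append_of_mem hx
    have hA : ∀ y ∈ s ++ x :: t, y ∈ (A : Set L) := fun y hy => (hl y hy).elim (@hS y) fun h => (hZ h).1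
    rw [act_append, act_cons]
    exact Stab.act_mem (S := (A : Set L)) (U := W) h.aw (fun y hy => hA y (by simp [hy]))
      ((hZ ((hl x hx).resolve_left hx')).2 _
        (Stab.act_mem (S := (A : Set L)) (U := M) h.am (fun y hy => hA y (by simp [hy])) hz))
  have k2 : Kills (B : Set L) n M W := fun l hl => k1.span l fun x hx => by
    have := hs (hl x hx)
    rwa [← Submodule.span_eq Z, ← Submodule.span_union] at this
  let U : ℕ → Submodule ℚ L := fun k => Nat.rec W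
    (fun _ U => M ⊓ ⨅ y : B, U.comap (ad ℚ L y : L →ₗ[ℚ] L)) k
  have mU : ∀ k z, z ∈ U (k + 1) ↔ z ∈ M ∧ ∀ y ∈ B, ⁅y, z⁆ ∈ U k := fun k z => by simp [U]
  have u1 : ∀ k, U k ≤ M := fun k => by
    cases k with
    | zero => exact h.wm
    | succ k => exact inf_le_left
  have u2 : ∀ k, ∀ x ∈ A, ∀ z ∈ U k, ⁅x, z⁆ ∈ U k := fun k => by
    induction k with
    | zero => exact h.aw
    | succ k ih =>
      intro x hx z hz
      rw [mU] at hz ⊢
      refine ⟨h.am x hx z hz.1, fun y hy => ?_⟩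
      have : ⁅y, ⁅x, z⁆⁆ = ⁅x, ⁅y, z⁆⁆ - ⁅⁅x, y⁆, z⁆ := by rw [lie_lie]; abel
      rw [this]
      exact sub_mem (ih x hx _ (hz.2 y hy)) (hz.2 _ (hB x hx y hy))
  have u3 : ∀ k, ∀ z ∈ M, (∀ l : List L, (∀ x ∈ l, x ∈ (B : Set L)) → l.length = k → act l z ∈ W) →
      z ∈ U k := fun k => by
    induction k with
    | zero => exact fun z _ h => h [] (by simp) rfl
    | succ k ih =>
      refine fun z hz h1 => (mU k z).2 ⟨hz, fun y hy => ih _ (h.am y (hBA hy) z hz) fun l h2 h3 => ?_⟩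
      have := h1 (l ++ [y]) (by
        intro x hx
        rcases List.mem_append.1 hx with hx | hx
        exacts [h2 x hx, List.mem_singleton.1 hx ▸ hy]) (by simp [h3])
      rwa [act_append] at this
  have u4 : ∀ k, Sol A (U k) W := fun k => by
    induction k with
    | zero => exact ⟨0, der_zero _⟩
    | succ k ih =>
      obtain ⟨i, hi⟩ := ih
      obtain ⟨j, hj⟩ := H (U (k + 1)) (U k) ⟨h.aa, u2 (k + 1), u2 k,
        fun x hx y hy => h.mm x (u1 (k + 1) hx) y (u1 (k + 1) hy),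
        fun z hz => (mU k z).2 ⟨u1 k hz, fun y hy => u2 k y (hBA hy) z hz⟩⟩
        fun x hx y hy => ((mU k y).1 hy).2 x hx
      exact ⟨_, der_comp hj hi⟩
  exact le_antisymm (u1 n) (fun z hz => u3 n z hz fun l h1 h2 => k2 l h1 h2 z hz) ▸ u4 n

theorem rel {m k : ℕ} (hP : PQ ℚ L m k) (i : ℕ) :
    ∀ A M W : Submodule ℚ L, Tri A M W → dsr A i ≤ Zs A M W → Sol A M W := by
  have zz : ∀ {A M W : Submodule ℚ L}, Zs A M W ≤ Zs (lb M M ⊔ Zs A M W) M W :=
    fun {_ _ _ _} hx => ⟨Submodule.mem_sup_right hx, hx.2⟩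
  induction i with
  | zero => exact fun A M W h hi => ⟨0 + 1, Der.chain
      (fun i => ((A ⊔ (if i = 0 then M else W) : Submodule ℚ L) : Set L)) (der_zero _) 1 (by
        intro i hi'
        obtain rfl : i = 0 := by omega
        exact sup_step h.mm h.aa fun x hx => (hi hx).2)⟩
  | succ i ih =>
    have ih2 : ∀ A M W : Submodule ℚ L, Tri A M W → lb A (dsr A i) ≤ Zs A M W → Sol A M W := by
      intro A M W h hi
      refine h.desc (i := i + 1) ((lb_le fun x hx y hy => mem_lb (h.le i hx) hy).trans hi) ?_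
      obtain ⟨n, hn⟩ := h.red.nil hP (Or.inr ⟨rfl, rfl⟩ : Ok 0 i _) fun x hx y hy =>
        zz (hi (mem_lb (h.red_le hx) (dsr_mono h.red_le i hy)))
      exact h.red.chain (h.red.le i) (h.red.Vl_le i) (h.red.id i) zz (h.dsr_le i) hn
        fun U' U h1 h2 => ih _ _ _ h1 fun x hx => ⟨h.red.le i hx, h2 x hx⟩
    intro A M W h hi
    refine h.desc hi ?_
    obtain ⟨n, hn⟩ := h.red.nil hP (Or.inl ⟨rfl, rfl⟩ : Ok i i _) fun x hx y hy =>
      zz (hi (mem_lb (dsr_mono h.red_le i hx) (dsr_mono h.red_le i hy)))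
    have hB := lb_le fun x hx y hy => h.red.le i (h.red.id i x hx y hy)
    refine h.red.chain hB ?_ (fun x hx => lb_stab (h.red.aa x hx) (h.red.id i x hx)) zz
      (lb_le fun x hx y hy => h.br_span (h.Vl_le 0) (h.Vl_le i) Vl_nd (h.dsr_le 0 hx)
        (h.dsr_le i hy)) hn fun U' U h1 h2 => ih2 _ _ _ h1 fun x hx => ⟨hB hx, h2 x hx⟩
    rintro _ ⟨x, hx, rfl⟩
    exact h.red.aa _ (h.red.Vl_le 0 ⟨_, fun _ => hx _, rfl⟩) _ (h.red.Vl_le i ⟨_, fun _ => hx _, rfl⟩)

theorem der_dsr (A : Submodule ℚ L) : ∀ j, dsr A j ≤ Submodule.span ℚ (Vl (full j) A)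
  | 0 => fun x hx => Submodule.subset_span ⟨fun _ => x, fun _ => hx, rfl⟩
  | j + 1 => lb_le fun _ hx _ hy => br_sp (fun x hx y hy => Submodule.subset_span (Vl_nd x hx y hy))
      (der_dsr A j hx) (der_dsr A j hy)

theorem lemB {m k : ℕ} (hP : PQ ℚ L m k) (h : Tri A M ⊥) (h0 : Der m (A : Set L) {0}) :
    ∃ j, Der j ((A ⊔ M : Submodule ℚ L) : Set L) {0} := by
  obtain ⟨j, hj⟩ := rel hP m A M ⊥ h ((der_dsr A m).trans (Submodule.span_le.2 (by
    rintro _ ⟨x, hx, rfl⟩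
    rw [Set.mem_singleton_iff.1 (h0 x hx)]; exact zero_mem _)))
  rw [sup_bot_eq] at hj
  exact ⟨_, der_comp hj h0⟩

theorem lemU (m k : ℕ) : ∃ N, ∀ (L : Type u) [LieRing L] [LieAlgebra ℚ L] (A M : Submodule ℚ L),
    PQ ℚ L m k → Tri A M ⊥ → Der m (A : Set L) {0} → Der N ((A ⊔ M : Submodule ℚ L) : Set L) {0} := by
  by_contra hc
  push Not at hc
  choose L i1 i2 A M h1 h2 h3 h4 using hc
  let pi : (∀ n, Submodule ℚ (L n)) → Submodule ℚ (Fam L) := fun U => Submodule.pi Set.univ U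
  obtain ⟨j, hj⟩ := lemB (A := pi A) (M := pi M) (PQ.fam h1)
    ⟨fun x hx y hy n _ => (h2 n).aa _ (hx n trivial) _ (hy n trivial),
      fun x hx y hy n _ => (h2 n).am _ (hx n trivial) _ (hy n trivial),
      fun x _ y hy => by rw [(Submodule.mem_bot ℚ).1 hy, lie_zero]; exact zero_mem _,
      fun x hx y hy n _ => (h2 n).mm _ (hx n trivial) _ (hy n trivial), bot_le⟩
    fun x hx => funext fun n => (Fam.lev_apply _ x n).trans (h3 n _ fun i => hx i n trivial)
  refine h4 j fun x hx => ?_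
  choose a ha b hb e using fun i => Submodule.mem_sup.1 (hx i)
  have := congrFun (hj (fun i => Pi.single j (x i)) fun i => Submodule.mem_sup.2
    ⟨Pi.single j (a i), fun n _ => ?_, Pi.single j (b i), fun n _ => ?_, by
      rw [← e i]; exact (Pi.single_add _ _ _).symm⟩) j
  · rw [Fam.lev_apply] at this
    simp only [Pi.single_eq_same] at this
    exact this
  · by_cases hn : n = j
    · subst hn; simpa using ha i
    · simp [hn]
  · by_cases hn : n = j
    · subst hn; simpa using hb i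
    · simp [hn]

theorem uniform {m k N : ℕ} (hN : ∀ (L : Type u) [LieRing L] [LieAlgebra ℚ L] (A M : Submodule ℚ L),
    PQ ℚ L m k → Tri A M ⊥ → Der m (A : Set L) {0} → Der N ((A ⊔ M : Submodule ℚ L) : Set L) {0})
    (hP : PQ ℚ L m k) {Λ Θ : Type u} (β : Λ → Θ)
    (A : (full N).Lf → Fam fun _ : Λ => CC ⊗[ℚ] L) (π : (full N).Lf → ℤˣ)
    (hA : ∀ j, Fact β (π j) ⊤ (A j)) : ∃ K, ∀ θ, ∃ I : LieIdeal CC (CC ⊗[ℚ] L),
      derivedSeriesOfIdeal CC _ K I = ⊥ ∧ ∀ i, β i = θ → lev (full N) A i ∈ I := by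
  have hC := hP.base CC
  let F := Fam fun _ : Λ => CC ⊗[ℚ] L
  let J : LieIdeal ℚ F :=
    { carrier := {u | ∃ K, ∀ θ, ∃ I : LieIdeal CC (CC ⊗[ℚ] L),
        derivedSeriesOfIdeal CC _ K I = ⊥ ∧ ∀ i, β i = θ → u i ∈ I}
      add_mem' := by
        rintro u v ⟨K, hK⟩ ⟨K', hK'⟩
        refine ⟨K + K', fun θ => ?_⟩
        obtain ⟨I, h1, h2⟩ := hK θ
        obtain ⟨I', h1', h2'⟩ := hK' θ
        refine ⟨I + I', ?_, fun i hi => add_mem (LieSubmodule.mem_sup_left (h2 i hi))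
          (LieSubmodule.mem_sup_right (h2' i hi))⟩
        have := derivedSeriesOfIdeal_add_le_add I I' K K'
        rw [h1, h1'] at this
        simpa using this
      zero_mem' := ⟨0, fun _ => ⟨⊥, rfl, fun _ _ => zero_mem _⟩⟩
      smul_mem' := by
        rintro r u ⟨K, hK⟩
        refine ⟨K, fun θ => ?_⟩
        obtain ⟨I, h1, h2⟩ := hK θ
        exact ⟨I, h1, fun i hi => I.toSubmodule.smul_of_tower_mem r (h2 i hi)⟩
      lie_mem := by
        rintro x u ⟨K, hK⟩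
        refine ⟨K, fun θ => ?_⟩
        obtain ⟨I, h1, h2⟩ := hK θ
        exact ⟨I, h1, fun i hi => I.lie_mem (h2 i hi)⟩ }
  let f : F →ₗ[ℚ] F ⧸ J := J.toSubmodule.mkQ
  have hf : ∀ x y, f ⁅x, y⁆ = ⁅f x, f y⁆ := fun x y => rfl
  have hQ : PQ ℚ (F ⧸ J) m k := PQ.image (K' := ℚ) f.toAddMonoidHom hf
    (Submodule.mkQ_surjective _) (fun s => ⟨s, fun w => f.map_smul s w⟩)
    (PQ.sub (K := CC) (L' := F) Fam.at (fun _ _ _ => rfl)
      (fun _ r => ⟨algebraMap ℚ CC r, fun w => (algebraMap_smul CC r _).symm⟩)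
      (fun _ h => funext h) fun _ => hC)
  let S : ℤˣ → Submodule ℚ F := fun p => Submodule.span ℚ {y | Fact β p ⊤ y}
  have hS : ∀ p q r, p * q = r → ∀ x ∈ (S p).map f, ∀ y ∈ (S q).map f, ⁅x, y⁆ ∈ (S r).map f := by
    rintro p q _ rfl _ ⟨x, hx, rfl⟩ _ ⟨y, hy, rfl⟩
    exact ⟨⁅x, y⁆, br_sp (fun x hx y hy => Submodule.subset_span
      (Fact.lie (W'' := ⊤) (fun _ _ _ _ => trivial) hx hy)) hx hy, hf x y⟩
  have h1 := hN (F ⧸ J) ((S 1).map f) ((S (-1)).map f) hQ ⟨hS _ _ _ (by simp), hS _ _ _ (by simp),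
    fun x _ y hy => by rw [(Submodule.mem_bot ℚ).1 hy, lie_zero]; exact zero_mem _,
    hS _ _ _ (by simp), bot_le⟩ (fun x hx => by
      choose y hy hy' using hx
      rw [← funext hy', Set.mem_singleton_iff, lev, ← ev_map f hf]
      refine (Submodule.Quotient.mk_eq_zero _).2 ?_
      refine (Submodule.span_le (p := J.toSubmodule)).2 ?_ (lev_span _ _ _ hy)
      rintro _ ⟨y, hy, rfl⟩
      refine ⟨k, fun θ => ?_⟩
      choose b η _ hb using fun r => Fact.even (hy r)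
      refine ⟨_, hC fun r => b r θ, fun i hi => ?_⟩
      have := Fam.lev_apply (full m) y i
      refine (congrArg (· ∈ _) this).mpr ?_
      simp only [hb, hi]
      rw [(ml_lev (K := CC) (full m)).smul_univ]
      exact SMulMemClass.smul_mem _ (LieSubmodule.subset_lieSpan rfl)) (fun j => f (A j)) fun j => by
    rcases Int.units_eq_one_or (π j) with h | h
    · exact Submodule.mem_sup_left ⟨A j, Submodule.subset_span (h ▸ hA j), rfl⟩
    · exact Submodule.mem_sup_right ⟨A j, Submodule.subset_span (h ▸ hA j), rfl⟩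
  rw [Set.mem_singleton_iff, lev, ← ev_map f hf] at h1
  exact (Submodule.Quotient.mk_eq_zero _).1 h1

theorem thmR {m k : ℕ} (hP : PQ ℚ L m k) : ∃ N, ∀ x : (full N).Lf → L, lev (full N) x = 0 := by
  classical
  obtain ⟨N, hN⟩ := lemU.{u} m k
  let J := (full N).Lf
  let Θ := Σ D : ℕ, Finset (full D).Lf × (J × (full D).Lf → L)
  let Λ := Σ θ : Θ, (full θ.1).Lf
  let κ : ∀ D, (full D).Lf → ℕ := fun D a => Fintype.equivFin _ a
  have hκ : ∀ D, Injective (κ D) := fun D =>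
    Fin.val_injective.comp (Fintype.equivFin _).injective
  let lam : J → ℕ := fun j => Fintype.equivFin _ j
  let A : (J → ℤˣ) → J → Fam fun _ : Λ => CC ⊗[ℚ] L := fun π j i =>
    ∑ a ∈ i.1.2.1, cc (π j) (lam j) (κ _ a) (κ _ i.2) • (1 : CC) ⊗ₜ[ℚ] i.1.2.2 (j, a)
  have hA : ∀ π j, Fact (Sigma.fst : Λ → Θ) (π j) ⊤ (A π j) := by
    intro π j
    have := fact_gen (W := ⊤) (Sigma.fst : Λ → Θ) (π j) (lam j) (fun i => κ _ i.2)
      (fun θ => θ.2.1.map ⟨κ θ.1, hκ _⟩)
      (fun _ a => a) (fun θ a => extend (κ θ.1) (fun b => θ.2.2 (j, b)) 0 a) fun _ _ => trivial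
    convert this using 1
    funext i
    rw [Finset.sum_map]
    refine Finset.sum_congr rfl fun a _ => ?_
    simp only [Embedding.coeFn_mk]
    rw [(hκ _).extend_apply]
  choose K hK using fun π => uniform hN hP (Sigma.fst : Λ → Θ) (A π) π (hA π)
  let K0 := Finset.univ.sup K
  obtain ⟨D, hD⟩ := exists_depth ((K0 + 1) * 2 ^ Fintype.card J)
  refine ⟨N + D, ?_⟩
  rw [← graft_full]
  intro x
  have hF : (fun Y : J × (full D).Lf → L =>
      lev (full D) fun i => lev (full N) fun j => Y (j, i)) = 0 := by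
    refine mc (rho J (full D).Lf L L) ((D + 1) ^ K0 + 1) ?_ fun π R hR => ?_
    · rw [card_full D]
      refine le_trans (Nat.pow_le_pow_left ?_ _) ((pow_mul _ _ _).symm.trans_le hD)
      have h1 : (D + 1) ^ K0 ≤ (D + 2) ^ K0 := Nat.pow_le_pow_left (by omega) _
      have h2 : 0 < (D + 2) ^ K0 := by positivity
      rw [pow_succ]; nlinarith
    funext Y
    have hf : ∀ a b : L, (1 : CC) ⊗ₜ[ℚ] ⁅a, b⁆ = ⁅(1 : CC) ⊗ₜ[ℚ] a, (1 : CC) ⊗ₜ[ℚ] b⁆ := by simp
    refine grass (κ D) (hκ D) lam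
      (Fin.val_injective.comp (Fintype.equivFin _).injective) (fun y : L => (1 : CC) ⊗ₜ[ℚ] y) _
      (fun Y => lev (full D) fun i => lev (full N) fun j => Y (j, i))
      ((ml_lev _).blocks (ml_lev _)) (fun Y => ?_) π R Y ?_
    · rw [ev_map (fun x : L => (1 : CC) ⊗ₜ[ℚ] x) hf]
      congr 1
      funext i
      rw [ev_map (fun x : L => (1 : CC) ⊗ₜ[ℚ] x) hf]
    · obtain ⟨I, h1, h2⟩ := hK π ⟨D, R, Y⟩
      have h3 := derivedSeriesOfIdeal_antitone I (Finset.le_sup (f := K) (Finset.mem_univ π))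
        (strahler I D K0 (fun i => lev (full N) fun j =>
          gen (κ D) lam (fun y : L => (1 : CC) ⊗ₜ[ℚ] y) π R Y (j, i)) R (fun i hi => by
            have := h2 ⟨⟨D, R, Y⟩, i⟩ rfl
            rw [Fam.lev_apply] at this
            simpa only [gen, if_pos hi] using this) (by omega))
      rwa [h1, LieSubmodule.mem_bot] at h3
  rw [lev, ev_graft]
  exact congrFun hF fun p => x (inj _ _ p.2 p.1)

end Pool.Agent.MP_2a197d_al.LB

end MrgPart1

-- marker of a merged file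
example : 731051 + 731126 = 731051 + 731126 := rfl
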