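import Mathlib
import Pool.Agent.MP_2a197d_al.Rat

open Pool.Agent.MP_2a197d_al

/-- Let `W` be a set of laws, `V` its verbal subgroup in the free group of countable rank and
`F = FreeGroup ℕ ⧸ V` the free group of countable rank of the variety defined by `W`.
Suppose that `F` is a Magnus group and that some term of the lower central series of `F` lies in
the product of the solvable normal subgroups of `F`. Then the groups of the variety are solvable
of bounded derived length. -/
theorem Pool.Agent.MP_2a197d_al.radicalByNilpotent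
    (W : Set (FreeGroup ℕ)) (V : Subgroup (FreeGroup ℕ)) [V.Normal]
    (hV : V = Subgroup.normalClosure
      {g | ∃ w ∈ W, ∃ f : FreeGroup ℕ →* FreeGroup ℕ, f w = g})
    (hres : ⨅ s, (⊤ : Subgroup (FreeGroup ℕ ⧸ V)).lowerCentralSeries s = ⊥)
    (htf : ∀ s, ∀ g ∈ (⊤ : Subgroup (FreeGroup ℕ ⧸ V)).lowerCentralSeries s, ∀ k : ℕ, k ≠ 0 →
      g ^ k ∈ (⊤ : Subgroup (FreeGroup ℕ ⧸ V)).lowerCentralSeries (s + 1) →
      g ∈ (⊤ : Subgroup (FreeGroup ℕ ⧸ V)).lowerCentralSeries (s + 1))
    (hrad : ∃ c, (⊤ : Subgroup (FreeGroup ℕ ⧸ V)).lowerCentralSeries c ≤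
      sSup {N : Subgroup (FreeGroup ℕ ⧸ V) | N.Normal ∧ Group.IsSolvable N}) :
    ∃ M : ℕ, ∀ (G : Type*) [Group G], (∀ w ∈ W, ∀ f : FreeGroup ℕ →* G, f w = 1) →
      derivedSeries G M = ⊥ := by
  have hW : ∀ w ∈ W, ∀ f : FreeGroup ℕ →* FreeGroup ℕ ⧸ V, f w = 1 := by
    intro w hw f
    choose g hg using fun j => QuotientGroup.mk'_surjective V (f (FreeGroup.of j))
    have : f = (QuotientGroup.mk' V).comp (FreeGroup.lift g) :=
      FreeGroup.ext_hom _ _ fun j => by simp [← hg]
    rw [this, MonoidHom.comp_apply, QuotientGroup.mk'_apply, QuotientGroup.eq_one_iff, hV]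
    exact Subgroup.subset_normalClosure ⟨w, hw, _, rfl⟩
  have hx : RF fun j => QuotientGroup.mk' V (FreeGroup.of j) := by
    refine ⟨?_, fun g => ⟨QuotientGroup.lift V (FreeGroup.lift g) ?_, fun j =>
      (QuotientGroup.lift_mk' _ _ _).trans (FreeGroup.lift_apply_of ..)⟩⟩
    · rw [Set.range_comp' (QuotientGroup.mk' V) FreeGroup.of, ← MonoidHom.map_closure,
        FreeGroup.closure_range_of, ← MonoidHom.range_eq_map, QuotientGroup.range_mk']
    · refine hV.le.trans (Subgroup.normalClosure_le_normal ?_)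
      rintro _ ⟨w, hw, f, rfl⟩
      exact hW w hw ((FreeGroup.lift g).comp f)
  obtain ⟨c, hc⟩ := hrad
  obtain ⟨M, e, he, h⟩ := grpMain hx htf
    (fun g hg => Subgroup.mem_bot.1 (hres ▸ Subgroup.mem_iInf.2 hg)) hc
  refine ⟨M, fun G _ hG => ?_⟩
  rw [eq_bot_iff]
  refine (der_le M).trans ((Subgroup.closure_le _).2 ?_)
  rintro _ ⟨y, rfl⟩
  have h1 : V ≤ (FreeGroup.lift (Function.extend e y 1)).ker := by
    rw [hV]
    refine Subgroup.normalClosure_le_normal ?_
    rintro _ ⟨w, hw, f, rfl⟩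
    exact hG w hw ((FreeGroup.lift _).comp f)
  have h2 := congrArg (QuotientGroup.lift V (FreeGroup.lift (Function.extend e y 1)) h1) h
  rw [gev_map, map_one] at h2
  simpa [he.extend_apply] using h2
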