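import Mathlib.RingTheory.MvPolynomial.Ideal
import Pool.Agent.MP_2a197d_al.FW2
import Pool.Agent.MP_2a197d_al.KA

/-! The Vandermonde step: from the law `w' (a ^ b ^ k)` to the law `w'` modulo torsion. -/

set_option linter.unusedSectionVars false

namespace Pool.Agent.MP_2a197d_al.S1

open Finset Function LW TensorProduct LieAlgebra

section sq
open MvPolynomial

/-- A commutative algebra with independent square zero elements. -/
theorem exists_sq (ι : Type) [DecidableEq ι] : ∃ (A : Type) (_ : CommRing A) (_ : Algebra ℚ A)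
    (ε : ι → A) (lam : Finset ι → A →ₗ[ℚ] ℚ), (∀ i, ε i * ε i = 0) ∧
      ∀ S T, lam S (∏ i ∈ T, ε i) = if T = S then 1 else 0 := by
  let I : Ideal (MvPolynomial ι ℚ) :=
    Ideal.span ((fun s => monomial s (1 : ℚ)) '' Set.range fun i => Finsupp.single i 2)
  let d : Finset ι → ι →₀ ℕ := fun S => ∑ i ∈ S, Finsupp.single i 1
  have hd : ∀ S i, d S i = if i ∈ S then 1 else 0 := by
    intro S i
    simp [d, Finsupp.finsetSum_apply, Finsupp.single_apply]
  have h1 : ∀ S, I.restrictScalars ℚ ≤ LinearMap.ker (lcoeff ℚ (d S)) := by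
    intro S p hp
    by_contra h
    obtain ⟨_, ⟨i, rfl⟩, h2⟩ := mem_ideal_span_monomial_image.1 hp (d S) (mem_support_iff.2 h)
    have := h2 i
    rw [hd, Finsupp.single_eq_same] at this
    split_ifs at this <;> omega
  refine ⟨MvPolynomial ι ℚ ⧸ I, inferInstance, inferInstance, fun i => Ideal.Quotient.mk I (X i),
    fun S => ((I.restrictScalars ℚ).liftQ _ (h1 S)).comp
      (Submodule.Quotient.restrictScalarsEquiv ℚ I).symm.toLinearMap, fun i => ?_, fun S T => ?_⟩
  · rw [← map_mul, Ideal.Quotient.eq_zero_iff_mem]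
    refine Ideal.subset_span ⟨_, ⟨i, rfl⟩, ?_⟩
    rw [← pow_two, X_pow_eq_monomial]
  · rw [← map_prod]
    change coeff (d S) (∏ i ∈ T, X i) = _
    have : (∏ i ∈ T, X i : MvPolynomial ι ℚ) = monomial (d T) 1 := by
      rw [monomial_sum_one]; rfl
    rw [this, coeff_monomial]
    refine if_congr ⟨fun h => Finset.ext fun i => ?_, fun h => by rw [h]⟩ rfl rfl
    have := DFunLike.congr_fun h i
    rw [hd, hd] at this
    split_ifs at this <;> simp_all

end sq

section cf
variable {ι κ E : Type} [DecidableEq ι] [DecidableEq κ] [Ring E]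

theorem prod_ninj {A : Type*} [CommRing A] (ε : ι → A) (hε : ∀ i, ε i * ε i = 0) (π : κ → ι)
    {T : Finset κ} (h : ¬Set.InjOn π T) : ∏ t ∈ T, ε (π t) = 0 := by
  simp only [Set.InjOn, not_forall] at h
  obtain ⟨a, ha, b, hb, h1, h2⟩ := h
  rw [← mul_prod_erase _ _ ha, ← mul_prod_erase _ _ (mem_erase.2 ⟨Ne.symm h2, hb⟩), ← mul_assoc,
    h1, hε, zero_mul]

theorem cf_spec [Algebra ℚ E] (π : κ → ι) (X : ι → E) (l : List (κ × Bool))
    (h : ∀ T, T ≠ ∅ → cf (fun t => X (π t)) l T = 0) (S : Finset ι) (hS : S ≠ ∅) :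
    cf X (l.map (Prod.map π id)) S = 0 := by
  obtain ⟨A, _, _, ε, lam, h1, h2⟩ := exists_sq ι
  let ρ : E →+* A ⊗[ℚ] E := (Algebra.TensorProduct.includeRight (R := ℚ)).toRingHom
  let U := S ∪ ((l.map (Prod.map π id)).map Prod.fst).toFinset
  have h3 := cf_exp ε h1 (fun i => ρ (X i)) U (l.map (Prod.map π id))
    fun p hp => mem_union_right _ (List.mem_toFinset.2 (List.mem_map_of_mem hp))
  have h4 := cf_exp (fun t => ε (π t)) (fun t => h1 _) (fun t => ρ (X (π t)))
    (l.map Prod.fst).toFinset l fun p hp => List.mem_toFinset.2 (List.mem_map_of_mem hp)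
  rw [sum_eq_single ∅ (fun T _ hT => by rw [← cf_map ρ, h T hT, map_zero, smul_zero])
    (by simp), cf_empty] at h4
  rw [List.map_map] at h3
  have h5 := congrArg (fun v => TensorProduct.lid ℚ E ((lam S).rTensor E v)) (h3.symm.trans h4)
  have h6 : ∀ (a : A) (e : E), a • ρ e = a ⊗ₜ e := fun a e => by
    simp [ρ, TensorProduct.smul_tmul']
  have h7 := h2 S ∅
  simp only [← cf_map ρ, h6, map_sum, LinearMap.rTensor_tmul, lid_tmul, h2, ite_smul, one_smul,
    zero_smul, sum_ite_eq', mem_powerset, U, subset_union_left, if_true, prod_empty,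
    Algebra.TensorProduct.one_def] at h5
  rw [prod_empty, if_neg hS.symm] at h7
  rw [h5, h7, zero_smul]

theorem cf_filter (X : ι → E) (Q : ι → Prop) [DecidablePred Q] (l : List (ι × Bool)) :
    ∀ S : Finset ι, (∀ i ∈ S, Q i) → cf X (l.filter fun p => Q p.1) S = cf X l S := by
  induction l with
  | nil => intro S _; rfl
  | cons p l ih =>
    intro S hS
    by_cases h : Q p.1
    · rw [List.filter_cons_of_pos (by simpa using h), cf_cons, cf_cons, ih S hS,
        ih _ fun i hi => hS i (mem_of_mem_erase hi)]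
    · rw [List.filter_cons_of_neg (by simpa using h), cf_cons, ih S hS,
        if_neg fun h' => h (hS _ h'), add_zero]

theorem mk_filter (Q : ι → Prop) [DecidablePred Q] (l : List (ι × Bool)) :
    FreeGroup.mk (l.filter fun p => Q p.1) =
      FreeGroup.lift (fun i => if Q i then FreeGroup.of i else 1) (FreeGroup.mk l) := by
  induction l with
  | nil => exact (map_one _).symm
  | cons p l ih =>
    rw [← List.singleton_append, List.filter_append, ← FreeGroup.mul_mk, ← FreeGroup.mul_mk,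
      map_mul, ih]
    congr 1
    rcases p with ⟨i, _ | _⟩ <;> by_cases h : Q i <;> simp [h] <;> rfl

end cf

section th
variable {A F : Type} [CommRing A] [Algebra ℚ A] [AddCommGroup F] [Module ℚ F] (η : ℕ → A)

/-- Base change of operators. -/
noncomputable abbrev rh (A : Type) {F : Type} [CommRing A] [Algebra ℚ A] [AddCommGroup F]
    [Module ℚ F] : Module.End ℚ F →+* Module.End A (A ⊗[ℚ] F) :=
  (Module.End.baseChangeHom ℚ A F).toRingHom

theorem rh_tmul (T : Module.End ℚ F) (a : A) (n : F) : rh A T (a ⊗ₜ n) = a ⊗ₜ T n := rfl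

/-- A truncated exponential. -/
noncomputable def th : ℕ → Module.End ℚ F → Module.End A (A ⊗[ℚ] F)
  | 0, _ => 1
  | N + 1, T => th N T * (1 + η N • rh A T)

theorem th_succ (N : ℕ) (T : Module.End ℚ F) (n : F) :
    th η (N + 1) T (1 ⊗ₜ n) = th η N T (1 ⊗ₜ n) + η N • th η N T (1 ⊗ₜ T n) := by
  rw [th, Module.End.mul_apply, LinearMap.add_apply, map_add, LinearMap.smul_apply, map_smul]
  rfl

theorem th_comm {T T' : Module.End ℚ F} (h : Commute T T') : ∀ N, Commute (rh A T) (th η N T')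
  | 0 => Commute.one_right _
  | N + 1 => (th_comm h N).mul_right
    ((Commute.one_right _).add_right ((h.map (rh A)).smul_right _))

theorem th_mul (hη : ∀ j, η j * η j = 0) {T T' : Module.End ℚ F} (h : Commute T T') :
    ∀ N, th η N T * th η N T' = th η N (T + T')
  | 0 => one_mul _
  | N + 1 => by
    have h1 : Commute (1 + η N • rh A T) (th η N T') :=
      (Commute.one_left _).add_left ((th_comm η h N).smul_left _)
    rw [th, th, th, mul_assoc, ← mul_assoc (1 + η N • rh A T), h1.eq, ← th_mul hη h N, mul_assoc,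
      mul_assoc]
    congr 2
    simp only [mul_add, add_mul, one_mul, mul_one, smul_mul_smul_comm, hη, zero_smul, map_add,
      smul_add, add_zero]
    abel

theorem th_zero : ∀ N, th η N (0 : Module.End ℚ F) = 1
  | 0 => rfl
  | N + 1 => by simp [th, th_zero N]

theorem th_zpow (hη : ∀ j, η j * η j = 0) {N : ℕ} {T : Module.End ℚ F}
    {c : (Module.End A (A ⊗[ℚ] F))ˣ} (hc : c.val = th η N T) (k : ℤ) :
    (c ^ k).val = th η N ((k : ℚ) • T) := by
  have h1 : ∀ a b : ℚ, th η N (a • T) * th η N (b • T) = th η N ((a + b) • T) := fun a b => by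
    rw [th_mul η hη ((Commute.refl T).smul_left a |>.smul_right b), add_smul]
  have h2 : c.val = th η N ((1 : ℚ) • T) := by rw [one_smul, hc]
  induction k using Int.induction_on with
  | zero => simp [th_zero]
  | succ k ih => rw [zpow_add_one, Units.val_mul, ih, h2, h1]; simp
  | pred k ih =>
    rw [zpow_sub_one, Units.val_mul, ih, Units.inv_eq_of_mul_eq_one_right
      (a := th η N ((-1 : ℚ) • T)) (by rw [h2, h1]; simp [th_zero]), h1]
    simp [sub_eq_add_neg]

theorem th_int (W : Submodule ℚ F) {T T' φ : Module.End ℚ F} (h1 : ∀ n ∈ W, T n ∈ W)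
    (h2 : ∀ n ∈ W, φ (T n) = T' (φ n)) : ∀ N, ∀ n ∈ W,
    rh A φ (th η N T (1 ⊗ₜ n)) = th η N T' (1 ⊗ₜ φ n)
  | 0, _, _ => rfl
  | N + 1, n, hn => by
    rw [th_succ, th_succ, map_add, map_smul, th_int W h1 h2 N n hn,
      th_int W h1 h2 N _ (h1 n hn), h2 n hn]

theorem th_sum (T : Module.End ℚ F) : ∀ (N : ℕ) (n : F), th η N T (1 ⊗ₜ n) =
    ∑ J ∈ (range N).powerset, (∏ j ∈ J, η j) ⊗ₜ (T ^ J.card) n
  | 0, n => by simp [th]
  | N + 1, n => by
    rw [th_succ, th_sum T N, th_sum T N, range_add_one, sum_powerset_insert notMem_range_self,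
      smul_sum]
    congr 1
    refine sum_congr rfl fun J hJ => ?_
    have h : N ∉ J := fun h => notMem_range_self (mem_powerset.1 hJ h)
    rw [prod_insert h, card_insert_of_notMem h, pow_succ, TensorProduct.smul_tmul']
    rfl

end th

section main
variable {κ : Type} [DecidableEq κ] {F : Type} [LieRing F] [LieAlgebra ℚ F]

/-- The sum of the variables in `T`. -/
noncomputable def ta (T : Finset κ) : κ →₀ ℚ := ∑ j ∈ T, Finsupp.single j 1

theorem ta_apply (T : Finset κ) (j : κ) : ta T j = if j ∈ T then 1 else 0 := by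
  simp [ta, Finsupp.finsetSum_apply, Finsupp.single_apply]

theorem ta_supp (T : Finset κ) : (ta T).support ⊆ T := fun j hj => by
  by_contra h
  simp [ta_apply, h] at hj

/-- Multilinear components with their commuting operators. -/
structure Sy (x : F) (M : Finset κ → Submodule ℚ F) (op : (κ →₀ ℚ) →ₗ[ℚ] Module.End ℚ F) :
    Prop where
  hc : ∀ l l', Commute (op l) (op l')
  hcx : ∀ l, Commute (ad ℚ F x) (op l)
  hM : ∀ S l, l.support ⊆ S → ∀ m ∈ M S, op l m ∈ M S
  hl : ∀ S T, Disjoint S T → ∀ a ∈ M S, ∀ b ∈ M T, ⁅a, b⁆ ∈ M (S ∪ T)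
  ho : ∀ S T l, Disjoint S T → l.support ⊆ T → ∀ a ∈ M S, ∀ b ∈ M T, op l ⁅a, b⁆ = ⁅a, op l b⁆
  hx : ∀ T, ∀ b ∈ M T, ⁅x, b⁆ = op (ta T) b

variable {ι : Type} [DecidableEq ι]

/-- Disjointness of the supports. -/
def Dis (su : ι → Finset κ) (S₀ : Finset κ) (T : Finset ι) : Prop :=
  (∀ t ∈ T, Disjoint (su t) S₀) ∧ ∀ t ∈ T, ∀ t' ∈ T, t ≠ t' → Disjoint (su t) (su t')

theorem Dis.mono {su : ι → Finset κ} {S₀ : Finset κ} {T T' : Finset ι} (h : Dis su S₀ T)
    (h' : T' ⊆ T) : Dis su S₀ T' :=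
  ⟨fun t ht => h.1 t (h' ht), fun t ht t' ht' => h.2 t (h' ht) t' (h' ht')⟩

theorem dis_iff {su : ι → Finset κ} {S₀ : Finset κ} {T : Finset ι} {p : ι} (hp : p ∈ T)
    (h : Dis su S₀ (T.erase p)) :
    Disjoint (su p) (S₀ ∪ (T.erase p).biUnion su) ↔ Dis su S₀ T := by
  rw [disjoint_union_right, disjoint_biUnion_right]
  refine ⟨fun ⟨h1, h2⟩ => ⟨fun t ht => ?_, fun t ht t' ht' h3 => ?_⟩, fun ⟨h1, h2⟩ =>
    ⟨h1 p hp, fun t ht => h2 p hp t (mem_of_mem_erase ht) (ne_of_mem_erase ht).symm⟩⟩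
  · by_cases h4 : t = p
    · exact h4 ▸ h1
    · exact h.1 t (mem_erase.2 ⟨h4, ht⟩)
  · by_cases h4 : t = p
    · exact h4 ▸ h2 t' (mem_erase.2 ⟨fun h5 => h3 (h4.trans h5.symm), ht'⟩)
    · by_cases h5 : t' = p
      · exact h5 ▸ (h2 t (mem_erase.2 ⟨h4, ht⟩)).symm
      · exact h.2 t (mem_erase.2 ⟨h4, ht⟩) t' (mem_erase.2 ⟨h5, ht'⟩) h3

theorem un_erase (su : ι → Finset κ) (S₀ : Finset κ) {T : Finset ι} {p : ι} (hp : p ∈ T) :
    su p ∪ (S₀ ∪ (T.erase p).biUnion su) = S₀ ∪ T.biUnion su := by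
  conv_rhs => rw [← insert_erase hp, biUnion_insert]
  exact union_left_comm _ _ _

theorem cf_ad {L : Type*} [LieRing L] [LieAlgebra ℚ L] (z : ι → L) (p : ι × Bool)
    (l : List (ι × Bool)) (T : Finset ι) (u : L) :
    cf (fun i => ad ℚ L (z i)) (p :: l) T u = cf (fun i => ad ℚ L (z i)) l T u +
      if p.1 ∈ T then sg p.2 ⁅z p.1, cf (fun i => ad ℚ L (z i)) l (T.erase p.1) u⁆ else 0 := by
  rw [cf_cons, LinearMap.add_apply]
  split_ifs
  · cases p.2 <;> simp [sg]
  · rfl

theorem sg_mem {V : Type*} [AddCommGroup V] [Module ℚ V] {W : Submodule ℚ V} (b : Bool) {v : V}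
    (h : v ∈ W) : sg b v ∈ W := by cases b <;> simpa [sg] using h

variable {x : F} {M : Finset κ → Submodule ℚ F} {op : (κ →₀ ℚ) →ₗ[ℚ] Module.End ℚ F}

theorem Sy.mem (H : Sy x M op) {su : ι → Finset κ} {S₀ : Finset κ} {m : ι → F} {u : F}
    (hu : u ∈ M S₀) (l : List (ι × Bool)) : ∀ T, (∀ t ∈ T, m t ∈ M (su t)) → Dis su S₀ T →
      cf (fun i => ad ℚ F (m i)) l T u ∈ M (S₀ ∪ T.biUnion su) := by
  induction l with
  | nil =>
    intro T _ _
    rw [cf_nil]
    split_ifs with h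
    · simpa [h] using hu
    · exact zero_mem _
  | cons p l ih =>
    intro T hm hT
    rw [cf_ad]
    refine add_mem (ih T hm hT) ?_
    split_ifs with h
    · rw [← un_erase su S₀ h]
      have h1 := hT.mono (erase_subset p.1 T)
      exact sg_mem _ (H.hl _ _ ((dis_iff h h1).2 hT) _ (hm _ h) _
        (ih _ (fun t ht => hm t (mem_of_mem_erase ht)) h1))
    · exact zero_mem _

/-- The form attached to a set of positioned letters. -/
noncomputable def fm (su : ι → Finset κ) (T : Finset (ι × ℤ)) : κ →₀ ℚ :=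
  ∑ t ∈ T, (t.2 : ℚ) • ta (su t.1)

theorem fm_supp (su : ι → Finset κ) (S₀ : Finset κ) (T : Finset (ι × ℤ)) :
    (fm su T).support ⊆ S₀ ∪ T.biUnion fun t => su t.1 :=
  (Finsupp.support_finsetSum.trans (biUnion_mono fun _ _ =>
    Finsupp.support_smul.trans (ta_supp _))).trans subset_union_right

theorem Sy.conj (H : Sy x M op) {A : Type} [CommRing A] [Algebra ℚ A] {η : ℕ → A}
    (hη : ∀ j, η j * η j = 0) (N : ℕ) {su : ι → Finset κ} {S₀ : Finset κ} {m : ι → F} {u : F}
    (hu : u ∈ M S₀) (l : List ((ι × ℤ) × Bool)) : ∀ T, (∀ t ∈ T, m t.1 ∈ M (su t.1)) →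
      Dis (fun t => su t.1) S₀ T →
      cf (fun t => th η N ((t.2 : ℚ) • ad ℚ F x) * rh A (ad ℚ F (m t.1)) *
        th η N ((-t.2 : ℚ) • ad ℚ F x)) l T (1 ⊗ₜ u) =
      th η N (op (fm su T)) (1 ⊗ₜ cf (fun t => ad ℚ F (m t.1)) l T u) := by
  induction l with
  | nil =>
    intro T _ _
    simp only [cf_nil]
    split_ifs with h
    · simp [h, fm, th_zero]
    · simp
  | cons p l ih =>
    intro T hm hT
    rw [cf_ad (fun t : ι × ℤ => m t.1), cf_cons, LinearMap.add_apply, ih T hm hT, tmul_add, map_add]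
    congr 1
    split_ifs with h
    swap
    · simp
    have h1 := hT.mono (erase_subset p.1 T)
    have h2 := fun t ht => hm t (mem_of_mem_erase (a := p.1) ht)
    have h3 := H.mem (m := fun t : ι × ℤ => m t.1) hu l _ h2 h1
    have h4 := (dis_iff h h1).2 hT
    have h5 : fm su T = fm su (T.erase p.1) + (p.1.2 : ℚ) • ta (su p.1.1) :=
      (sum_erase_add _ _ h).symm
    have h6 := fm_supp su S₀ (T.erase p.1)
    rw [sg_eq, sg_eq p.2 ⁅_, _⁆, tmul_smul, map_zsmul, smul_mul_assoc, LinearMap.smul_apply,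
      Module.End.mul_apply, ih _ h2 h1, h5]
    congr 1
    generalize cf (fun t : ι × ℤ => ad ℚ F (m t.1)) l (T.erase p.1) u = n at h3
    generalize fm su (T.erase p.1) = f at h6
    generalize S₀ ∪ (T.erase p.1).biUnion (fun t => su t.1) = S' at h3 h4 h6
    have h7 := hm _ h
    generalize m p.1.1 = a at h7
    generalize su p.1.1 = S at h4 h7
    generalize (p.1.2 : ℚ) = k
    rw [mul_assoc, Module.End.mul_apply, Module.End.mul_apply,
      ← Module.End.mul_apply (th η N (-k • _)), th_mul η hη ((H.hcx f).smul_left _),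
      th_int η (M S') (T' := -k • ad ℚ F x + op (f + k • ta S)) (fun n hn => add_mem
        (Submodule.smul_mem _ _ (by
          rw [ad_apply, H.hx _ n hn]; exact H.hM _ _ (ta_supp _) n hn)) (H.hM _ _ h6 n hn))
        (fun n hn => ?_) N n h3, ← Module.End.mul_apply, th_mul η hη
        (((Commute.refl _).smul_right _).add_right (H.hcx _) |>.smul_left _)]
    · simp
    · have h8 := H.ho _ _ _ h4.symm (ta_supp S) n hn a h7
      rw [← lie_skew n a, map_neg, ← H.hx _ a h7] at h8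
      simp only [map_add, map_smul, LinearMap.add_apply, LinearMap.smul_apply, ad_apply,
        H.ho _ _ _ h4 h6 a h7 n hn, neg_eq_iff_eq_neg.1 h8, leibniz_lie x a n, lie_skew]
      module

theorem vl {I : Type} [DecidableEq I] {P : F → Prop} (W : Submodule ℚ F)
    (D : I → Module.End ℚ F) (hc : ∀ s t, Commute (D s) (D t)) (t₀ : I) (P0 : P 0) (s : Finset I) :
    (∀ t ∈ s, ∀ m ∈ W, (D t₀ - D t) m ∈ W ∧ (P ((D t₀ - D t) m) → P m)) →
    ∀ μ : I → F, μ t₀ ∈ W → (∀ N, (D t₀ ^ N) (μ t₀) + ∑ t ∈ s, (D t ^ N) (μ t) = 0) →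
      P (μ t₀) := by
  induction s using Finset.induction_on with
  | empty =>
    intro _ μ _ h
    have := h 0
    simp only [pow_zero, sum_empty, add_zero, Module.End.one_apply] at this
    rwa [this]
  | insert r s hr ih =>
    intro h1 μ h2 h3
    obtain ⟨h4, h5⟩ := h1 r (mem_insert_self _ _) _ h2
    refine h5 (ih (fun t ht => h1 t (mem_insert_of_mem ht)) (fun t => (D t - D r) (μ t)) h4
      fun N => ?_)
    have h6 : ∀ t, (D t ^ N) ((D t - D r) (μ t)) = (D t ^ (N + 1)) (μ t) - D r ((D t ^ N) (μ t)) :=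
      fun t => by
        rw [← Module.End.mul_apply, mul_sub, ← pow_succ, ((hc t r).pow_left N).eq]; rfl
    have h7 := congrArg₂ (· - ·) (h3 (N + 1)) (congrArg (D r) (h3 N))
    simp only [sum_insert hr, map_add, map_sum, map_zero, sub_zero] at h7
    simp only [h6, sum_sub_distrib]
    rw [← h7, pow_succ' (D r), Module.End.mul_apply]
    abel

/-- The unit `1 + e • Y` for `e * e = 0`. -/
def un {A R : Type*} [CommRing A] [Ring R] [Algebra A R] (e : A) (he : e * e = 0) (Y : R) : Rˣ :=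
  ⟨1 + e • Y, 1 - e • Y, by simp [mul_sub, add_mul, smul_smul, he],
    by simp [sub_mul, mul_add, smul_sub, smul_smul, he]⟩

theorem prod_lift {R : Type*} [Ring R] {A : Type*} [CommRing A] [Algebra A R] (ε : ι → A)
    (hε : ∀ i, ε i * ε i = 0) (Y : ι → R) (u : ι → Rˣ) (hu : ∀ i, (u i).val = 1 + ε i • Y i)
    (l : List (ι × Bool)) :
    (FreeGroup.lift u (FreeGroup.mk l)).val =
      ∑ S ∈ (l.map Prod.fst).toFinset.powerset, (∏ i ∈ S, ε i) • cf Y l S := by
  rw [← cf_exp ε hε Y _ l fun p hp => List.mem_toFinset.2 (List.mem_map_of_mem hp),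
    FreeGroup.lift_mk, ← Units.coeHom_apply, map_list_prod, List.map_map]
  refine congrArg List.prod (List.map_congr_left fun p _ => ?_)
  rcases p with ⟨i, _ | _⟩
  · refine Units.inv_eq_of_mul_eq_one_right ?_
    rw [hu, sg]
    simp [mul_add, add_mul, smul_smul, hε]
  · exact hu i

/-- Graphs of maps on `S`. -/
def Gr (S : Finset ι) (T : Finset (ι × ℤ)) : Prop :=
  Set.InjOn Prod.fst (T : Set (ι × ℤ)) ∧ T.image Prod.fst = S

theorem Gr.dis {S : Finset ι} {T : Finset (ι × ℤ)} (h : Gr S T) {su : ι → Finset κ}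
    {S₀ : Finset κ} (hD : Dis su S₀ S) : Dis (fun t : ι × ℤ => su t.1) S₀ T :=
  ⟨fun _ ht => hD.1 _ (h.2 ▸ mem_image_of_mem _ ht), fun _ ht _ ht' h1 =>
    hD.2 _ (h.2 ▸ mem_image_of_mem _ ht) _ (h.2 ▸ mem_image_of_mem _ ht')
      fun h2 => h1 (h.1 ht ht' h2)⟩

theorem Gr.un {S : Finset ι} {T : Finset (ι × ℤ)} (h : Gr S T) (su : ι → Finset κ) :
    (T.biUnion fun t => su t.1) = S.biUnion su := by rw [← h.2, image_biUnion]

theorem Gr.fm_apply {S : Finset ι} {T : Finset (ι × ℤ)} (h : Gr S T) {su : ι → Finset κ}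
    {S₀ : Finset κ} (hD : Dis su S₀ S) {t : ι × ℤ} (ht : t ∈ T) {j : κ} (hj : j ∈ su t.1) :
    fm su T j = t.2 := by
  rw [fm, Finsupp.finsetSum_apply, sum_eq_single t (fun t' ht' h1 => ?_) fun h => (h ht).elim]
  · simp [ta_apply, hj]
  · simp [ta_apply, disjoint_left.1 ((h.dis hD).2 t ht t' ht' h1.symm) hj]

theorem Gr.eq {S : Finset ι} {T T' : Finset (ι × ℤ)} (h : Gr S T) (h' : Gr S T')
    {su : ι → Finset κ} {S₀ : Finset κ} (hD : Dis su S₀ S) (hs : ∀ i ∈ S, su i ≠ ∅)
    (he : fm su T = fm su T') : T = T' := by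
  have key : ∀ {T T' : Finset (ι × ℤ)}, Gr S T → Gr S T' → fm su T = fm su T' → T ⊆ T' := by
    intro T T' h h' he t ht
    have h1 : t.1 ∈ S := h.2 ▸ mem_image_of_mem _ ht
    obtain ⟨j, hj⟩ := nonempty_iff_ne_empty.2 (hs _ h1)
    obtain ⟨t', ht', h2⟩ := mem_image.1 (h'.2.symm ▸ h1)
    have h3 := h.fm_apply hD ht hj
    rw [he, h'.fm_apply hD ht' (h2.symm ▸ hj)] at h3
    rwa [← Prod.ext h2 (Int.cast_injective h3)]
  exact (key h h' he).antisymm (key h' h he.symm)

open Classical in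
theorem Sy.rel (H : Sy x M op) {β : Type} {w : FreeGroup (β × ℤ)}
    (hw : Law (FreeGroup.lift (fun p : β × ℤ => FreeGroup.of none ^ p.2 * FreeGroup.of (some p.1) *
      FreeGroup.of none ^ (-p.2)) w) F) (G : β → FreeGroup ι) (l : List ((ι × ℤ) × Bool))
    (hl : FreeGroup.mk l = FreeGroup.lift (fun p => FreeGroup.map (·, p.2) (G p.1)) w)
    {su : ι → Finset κ} {S₀ : Finset κ} {m : ι → F} {u : F} (hu : u ∈ M S₀) {S : Finset ι}
    (hS : S ≠ ∅) (hm : ∀ i ∈ S, m i ∈ M (su i)) (hD : Dis su S₀ S) (N : ℕ) :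
    ∑ T ∈ (l.map Prod.fst).toFinset.powerset with Gr S T,
      (op (fm su T) ^ N) (cf (fun t => ad ℚ F (m t.1)) l T u) = 0 := by
  obtain ⟨A, _, _, e, lam, h1, h2⟩ := exists_sq (ι ⊕ ℕ)
  let ε : ι ⊕ ℕ → A := Sum.elim (fun i => if i ∈ S then e (.inl i) else 0) fun j => e (.inr j)
  have hε : ∀ i, ε i * ε i = 0 := by
    rintro (i | j)
    · simp only [ε, Sum.elim_inl]; split_ifs <;> simp [h1]
    · exact h1 _
  let η : ℕ → A := fun j => e (.inr j)
  have hη : ∀ j, η j * η j = 0 := fun j => h1 _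
  let y : ι ⊕ ℕ → F := Sum.elim m fun _ => x
  let v : ι ⊕ ℕ → (Module.End A (A ⊗[ℚ] F))ˣ := fun i => un (ε i) (hε i) (rh A (ad ℚ F (y i)))
  let f : Option β → FreeGroup (ι ⊕ ℕ) := fun o => o.elim
    ((List.range N).map fun j => FreeGroup.of (.inr j)).prod fun a => FreeGroup.map .inl (G a)
  have h3 := hw.ev (rh A) ε hε y v (fun _ => rfl) f
  set c := FreeGroup.lift v (f none) with hc
  have h4 : c.val = th η N (ad ℚ F x) := by
    simp only [hc, f, Option.elim_none]
    clear * -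
    induction N with
    | zero => rfl
    | succ N ih =>
      rw [List.range_succ, List.map_append, List.prod_append, map_mul, Units.val_mul, ih, th]
      simp only [List.map_cons, List.map_nil, List.prod_cons, List.prod_nil, mul_one,
        FreeGroup.lift_apply_of]
      rfl
  have h5 := th_zpow η hη h4
  let v' : ι × ℤ → (Module.End A (A ⊗[ℚ] F))ˣ := fun t => c ^ t.2 * v (.inl t.1) * c ^ (-t.2)
  have h6 : FreeGroup.lift v' (FreeGroup.mk l) = 1 := by
    rw [hl, ← h3]
    refine DFunLike.congr_fun (FreeGroup.ext_hom ((FreeGroup.lift v').comp (FreeGroup.lift _))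
      ((FreeGroup.lift v).comp ((FreeGroup.lift f).comp (FreeGroup.lift _))) fun p => ?_) w
    simp only [MonoidHom.comp_apply, FreeGroup.lift_apply_of, map_mul, map_zpow, ← hc]
    have := FreeGroup.ext_hom ((FreeGroup.lift v').comp (FreeGroup.map (·, p.2)))
      ((MulAut.conj (c ^ p.2)).toMonoidHom.comp ((FreeGroup.lift v).comp (FreeGroup.map .inl)))
      fun i => by simp [v', -map_zpow]
    simpa [f, -map_zpow] using DFunLike.congr_fun this (G p.1)
  have h7 := prod_lift (fun t : ι × ℤ => ε (.inl t.1)) (fun t => hε _) (fun t =>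
    th η N ((t.2 : ℚ) • ad ℚ F x) * rh A (ad ℚ F (m t.1)) * th η N ((-t.2 : ℚ) • ad ℚ F x)) v'
    (fun t => by
      have := congrArg Units.val (zpow_add c t.2 (-t.2))
      simp only [v', Units.val_mul, h5, Int.cast_neg] at this ⊢
      change _ * (1 + ε _ • rh A (ad ℚ F (m t.1))) * _ = _
      rw [mul_add, add_mul, mul_one, ← this, mul_smul_comm, smul_mul_assoc]
      simp [th_zero]) l
  rw [h6] at h7
  let Λ : A ⊗[ℚ] F →ₗ[ℚ] F := (TensorProduct.lid ℚ F).toLinearMap ∘ₗ
    (lam (S.disjSum (range N))).rTensor F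
  have h8 : ∀ a n, Λ (a ⊗ₜ n) = lam (S.disjSum (range N)) a • n := fun _ _ => rfl
  have h9 := congrArg (fun z : Module.End A (A ⊗[ℚ] F) => Λ (z (1 ⊗ₜ u))) h7
  have h10 := h2 (S.disjSum (range N)) ∅
  rw [prod_empty, if_neg fun h => hS (by simpa using (disjSum_eq_empty.1 h.symm).1)] at h10
  simp only [Units.val_one, Module.End.one_apply, h8, h10, zero_smul, LinearMap.sum_apply,
    map_sum, LinearMap.smul_apply] at h9
  rw [h9, sum_filter]
  refine sum_congr rfl fun T _ => ?_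
  by_cases h11 : Set.InjOn Prod.fst (T : Set (ι × ℤ))
  swap
  · rw [if_neg fun h : Gr S T => h11 h.1, prod_ninj (fun i => ε (.inl i)) (fun i => hε _) _ h11, zero_smul,
      map_zero]
  by_cases h12 : ∀ t ∈ T, t.1 ∈ S
  swap
  · push Not at h12
    obtain ⟨t, ht, h12⟩ := h12
    rw [if_neg fun h : Gr S T => h12 (h.2 ▸ mem_image_of_mem _ ht),
      prod_eq_zero ht (by simp [ε, h12]), zero_smul, map_zero]
  have h13 : Gr (T.image Prod.fst) T := ⟨h11, rfl⟩
  have h14 : ∏ t ∈ T, ε (.inl t.1) = ∏ i ∈ T.image Prod.fst, e (.inl i) := by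
    rw [prod_image h11]
    exact prod_congr rfl fun t ht => by simp [ε, h12 t ht]
  rw [H.conj hη N hu l T (fun t ht => hm _ (h12 t ht))
    (h13.dis (hD.mono (image_subset_iff.2 h12))), th_sum, smul_sum, map_sum, h14]
  have h15 : ∀ J : Finset ℕ, lam (S.disjSum (range N)) ((∏ i ∈ T.image Prod.fst, e (.inl i)) *
      ∏ j ∈ J, η j) = if J = range N then if Gr S T then 1 else 0 else 0 := fun J => by
    rw [← prod_disjSum, h2]
    by_cases h : J = range N <;> simp [h, Gr, h11]
  simp only [TensorProduct.smul_tmul', smul_eq_mul, h8, h15, ite_smul, zero_smul, sum_ite_eq',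
    mem_powerset, subset_refl, if_true, card_range, one_smul]

theorem home {β : Type} (f : β × ℤ → FreeGroup ℕ) (w : FreeGroup (β × ℤ)) :
    ∃ G : β → FreeGroup (ℕ × β × ℤ), FreeGroup.lift
      (fun t : (ℕ × β × ℤ) × ℤ => if t.2 = t.1.2.2 then FreeGroup.of t else 1)
      (FreeGroup.lift (fun p => FreeGroup.map (·, p.2) (G p.1)) w) =
    FreeGroup.map (fun i => (i, i.2.2)) (FreeGroup.lift (fun p => FreeGroup.map (·, p) (f p)) w) := by
  obtain ⟨l, rfl⟩ := Quot.exists_rep w
  let K := (l.map fun p => p.1.2).toFinset.toList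
  refine ⟨fun a => (K.map fun k => FreeGroup.map (·, a, k) (f (a, k))).prod, ?_⟩
  rw [FreeGroup.quot_mk_eq_mk, FreeGroup.lift_mk, FreeGroup.lift_mk, map_list_prod, map_list_prod,
    List.map_map, List.map_map]
  refine congrArg List.prod (List.map_congr_left fun p hp => ?_)
  have h1 : p.1.2 ∈ K := mem_toList.2 (List.mem_toFinset.2 (List.mem_map_of_mem hp))
  have h2 : FreeGroup.lift
      (fun t : (ℕ × β × ℤ) × ℤ => if t.2 = t.1.2.2 then FreeGroup.of t else 1)
      (FreeGroup.map (·, p.1.2) (K.map fun k => FreeGroup.map (·, p.1.1, k) (f (p.1.1, k))).prod) =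
      FreeGroup.map (fun i => (i, i.2.2)) (FreeGroup.map (·, p.1) (f p.1)) := by
    rw [map_list_prod, map_list_prod, List.map_map, List.map_map,
      List.prod_map_eq_pow_single p.1.2 _ fun k hk _ => ?_,
      List.count_eq_one_of_mem (nodup_toList _) h1, pow_one]
    · simp only [comp_apply, Prod.mk.eta]
      induction f p.1 using FreeGroup.induction_on <;> simp_all
    · simp only [comp_apply]
      induction f (p.1.1, k) using FreeGroup.induction_on <;> simp_all [hk.symm]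
  rcases p with ⟨p, _ | _⟩
  · simpa using h2
  · simpa using h2

open Classical in
theorem Sy.tor (H : Sy x M op) {β : Type} {w : FreeGroup (β × ℤ)}
    (hw : Law (FreeGroup.lift IND.th w) F) (f : β × ℤ → FreeGroup ℕ)
    (l : List ((ℕ × β × ℤ) × Bool))
    (hl : FreeGroup.mk l = FreeGroup.lift (fun p => FreeGroup.map (·, p) (f p)) w)
    {su : ℕ × β × ℤ → Finset κ} {S₀ : Finset κ} {m : ℕ × β × ℤ → F} {u : F} (hu : u ∈ M S₀)
    {S : Finset (ℕ × β × ℤ)} (hS : S ≠ ∅) (hm : ∀ i ∈ S, m i ∈ M (su i)) (hD : Dis su S₀ S)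
    (hs : ∀ i ∈ S, su i ≠ ∅) {P : F → Prop} (P0 : P 0)
    (P1 : ∀ r n, r ≠ 0 → r.support ⊆ S₀ ∪ S.biUnion su → P (op r n) → P n) :
    P (cf (fun i => ad ℚ F (m i)) l S u) := by
  obtain ⟨G, hG⟩ := home f w
  obtain ⟨l', hl'⟩ := Quot.exists_rep (FreeGroup.lift (fun p => FreeGroup.map (·, p.2) (G p.1)) w)
  have h1 := H.rel hw G l' hl' hu hS hm hD
  let e : ℕ × β × ℤ → (ℕ × β × ℤ) × ℤ := fun i => (i, i.2.2)
  have h2 : Gr S (S.image e) := ⟨fun a ha b hb h => by
    obtain ⟨a, -, rfl⟩ := mem_image.1 ha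
    obtain ⟨b, -, rfl⟩ := mem_image.1 hb
    exact congrArg e h, by rw [image_image]; exact image_id⟩
  have h3 : cf (fun t => ad ℚ F (m t.1)) l' (S.image e) = cf (fun i => ad ℚ F (m i)) l S := by
    rw [← cf_filter _ (fun t => t.2 = t.1.2.2) l' _ (fun t ht => by
      obtain ⟨a, -, rfl⟩ := mem_image.1 ht; rfl), ← cf_image (Y := fun t => ad ℚ F (m t.1)) e l S
      (fun i _ j h => congrArg Prod.fst h) fun _ _ => rfl]
    refine congrFun (cf_red _ ?_) _
    rw [mk_filter (fun t : (ℕ × β × ℤ) × ℤ => t.2 = t.1.2.2), ← FreeGroup.quot_mk_eq_mk, hl', hG,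
      ← hl]
    exact FreeGroup.map.mk
  rw [← h3]
  by_cases h4 : S.image e ⊆ (l'.map Prod.fst).toFinset
  swap
  · obtain ⟨t, ht, h5⟩ := not_subset.1 h4
    rw [cf_notMem (i := t) _ l'
      (fun p hp h => h5 (List.mem_toFinset.2 (h ▸ List.mem_map_of_mem hp))) _ ht]
    exact P0
  have h5 : ∀ T, Gr S T → (fm su T).support ⊆ S₀ ∪ S.biUnion su := fun T h =>
    h.un su ▸ fm_supp su S₀ T
  refine vl (M (S₀ ∪ S.biUnion su)) (fun T => op (fm su T)) (fun _ _ => H.hc _ _) (S.image e) P0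
    (((l'.map Prod.fst).toFinset.powerset.filter (Gr S)).erase (S.image e)) (fun T hT n hn => ?_)
    (fun T => cf (fun t => ad ℚ F (m t.1)) l' T u) ?_ fun N => ?_
  · have h6 := (mem_filter.1 (mem_of_mem_erase hT)).2
    have h7 : (fm su (S.image e) - fm su T).support ⊆ S₀ ∪ S.biUnion su :=
      Finsupp.support_sub.trans (union_subset (h5 _ h2) (h5 _ h6))
    rw [← map_sub]
    exact ⟨H.hM _ _ h7 n hn, P1 _ n (fun h => ne_of_mem_erase hT
      (h6.eq h2 hD hs (sub_eq_zero.1 h).symm)) h7⟩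
  · rw [h3]
    exact H.mem hu l S hm hD
  · rw [← h1 N]
    exact add_sum_erase _ (fun T => (op (fm su T) ^ N) (cf (fun t => ad ℚ F (m t.1)) l' T u))
      (mem_filter.2 ⟨mem_powerset.2 h4, h2⟩)

attribute [local instance 100] LieRing.ofAssociativeRing in
theorem cf_span {L : Type*} [LieRing L] [LieAlgebra ℚ L] (B : Set L) (hB : Submodule.span ℚ B = ⊤)
    (l : List (ι × Bool)) (S : Finset ι)
    (h : ∀ z : ι → L, (∀ i ∈ S, z i ∈ B) → cf (fun i => ad ℚ L (z i)) l S = 0) (z : ι → L) :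
    cf (fun i => ad ℚ L (z i)) l S = 0 := by
  have key : ∀ T ⊆ S, ∀ z : ι → L, (∀ i ∈ S \ T, z i ∈ B) → cf (fun i => ad ℚ L (z i)) l S = 0 := by
    intro T
    induction T using Finset.induction_on with
    | empty => intro _ z hz; exact h z (by simpa using hz)
    | insert j T hj ih =>
      intro hT z hz
      have h1 := cf_lin (K := ℚ) (fun i => ad ℚ L (z i)) l S (hT (mem_insert_self j T))
      have h2 : ∀ a, cf (update (fun i => ad ℚ L (z i)) j (ad ℚ L a)) l S = 0 := fun a =>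
        (Submodule.span_le (p := LinearMap.ker ((h1.mk' _).comp (ad ℚ L).toLinearMap))).2
          (fun b hb => by
            have := ih ((subset_insert _ _).trans hT) (update z j b) fun i hi => by
              by_cases h3 : i = j
              · rw [h3, update_self]; exact hb
              · rw [update_of_ne h3]
                exact hz i (by simp_all)
            exact (congrArg (cf · l S) (comp_update (ad ℚ L) z j b).symm).trans this)
          (hB ▸ Submodule.mem_top)
      simpa using h2 (z j)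
  exact key S subset_rfl z (by simp)

open KY in
theorem sy (G : Fr κ F) : Sy G.x G.M G.op :=
  ⟨fun l l' => LinearMap.ext (G.op_comm l l'), fun l => LinearMap.ext fun m => (G.op_x l m).symm,
    fun _ l _ _ h => Fr.op_mem h l, fun _ _ h _ ha _ hb => Fr.lie_mem ha hb h,
    fun _ _ _ h h' _ ha b _ => Fr.op_lie_right ha (h.mono_right h') b, fun _ _ h => Fr.x_eq_op h⟩

open KY Classical in
theorem inn_cf (G : Fr κ F) (H : (κ →₀ ℚ) → Prop) {su : ι → Finset κ} {S₀ : Finset κ} {m : ι → F}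
    {u : F} (hu : u ∈ G.M S₀) (l : List (ι × Bool)) : ∀ T, (∀ t ∈ T, m t ∈ G.M (su t)) →
      cf (fun i => ad ℚ _ (G.inn H (su i) (m i))) l T (G.inn H S₀ u) = if Dis su S₀ T then
        G.inn H (S₀ ∪ T.biUnion su) (cf (fun i => ad ℚ F (m i)) l T u) else 0 := by
  induction l with
  | nil =>
    intro T _
    simp only [cf_nil]
    by_cases h : T = ∅
    · simp [h, Dis]
    · simp [h, Fr.inn_zero]
  | cons p l ih =>
    intro T hm
    have h1 := fun t ht => hm t (mem_of_mem_erase (a := p.1) ht)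
    rw [cf_ad, cf_ad, ih T hm, ih _ h1]
    by_cases h : p.1 ∈ T
    swap
    · simp [h]
    simp only [if_pos h]
    by_cases h2 : Dis su S₀ (T.erase p.1)
    swap
    · rw [if_neg h2, if_neg fun h3 : Dis su S₀ T => h2 (h3.mono (erase_subset _ _)),
        if_neg fun h3 : Dis su S₀ T => h2 (h3.mono (erase_subset _ _))]
      cases p.2 <;> simp [sg]
    have h3 := (sy G).mem hu l _ h1 h2
    rw [if_pos h2, Fr.inn_lie (hm _ h) h3, un_erase su S₀ h]
    simp only [dis_iff h h2]
    split_ifs with h4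
    · have h5 := Fr.lie_mem (hm _ h) h3 ((dis_iff h h2).2 h4)
      rw [un_erase su S₀ h] at h5
      rw [Fr.inn_add ((sy G).mem hu l _ hm h4) (sg_mem _ h5)]
      congr 1
      cases p.2
      · simpa [sg] using (Fr.inn_smul (H := H) h5 (-1)).symm
      · rfl
    · cases p.2 <;> simp [sg]

open KY in
/-- The Vandermonde step. -/
theorem step {β : Type} (w : FreeGroup (β × ℤ)) (G : Fr κ F)
    (hw : Law (FreeGroup.lift IND.th w) F) : Law w (G.Trunc fun l => l ≠ 0) := by
  classical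
  intro f l hl z S hS
  obtain ⟨l', hl'⟩ := Quot.exists_rep (FreeGroup.lift (fun p => FreeGroup.map (·, p) (f p)) w)
  have h1 : FreeGroup.mk l = FreeGroup.mk (l'.map (Prod.map Prod.fst id)) := by
    refine hl.trans (Eq.trans ?_ (FreeGroup.map.mk (f := Prod.fst) (L := l')))
    rw [← FreeGroup.quot_mk_eq_mk, hl']
    exact DFunLike.congr_fun (FreeGroup.ext_hom (FreeGroup.lift _) ((FreeGroup.map _).comp
      (FreeGroup.lift _)) fun p => by simp [FreeGroup.map.comp, comp_def]) w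
  rw [cf_red _ h1]
  refine cf_spec _ _ l' (fun T hT => ?_) S hS
  let B : Set (G.Trunc fun l => l ≠ 0) := {v | ∃ S m, S ≠ ∅ ∧ m ∈ G.M S ∧ G.inn _ S m = v}
  have hB : Submodule.span ℚ B = ⊤ := by
    refine eq_top_iff.2 fun v _ => Submodule.span_le.2 ?_ (Fr.trunc_span v)
    rintro _ ⟨S, m, hm, rfl⟩
    by_cases h : S = ∅
    · subst h
      rw [Fr.M_empty hm, Fr.inn_zero]
      exact zero_mem _
    · exact Submodule.subset_span ⟨S, m, h, hm, rfl⟩
  refine cf_span B hB l' T (fun y hy => ?_) fun t => z t.1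
  choose! su m h2 h3 h4 using hy
  rw [← cf_congr (Y := fun i => ad ℚ _ (G.inn _ (su i) (m i))) l' fun i hi => by rw [h4 i hi]]
  refine LinearMap.ext_on hB ?_
  rintro _ ⟨S₀, u, -, hu, rfl⟩
  rw [inn_cf G _ hu l' T h3, LinearMap.zero_apply]
  split_ifs with h5
  · exact (Fr.inn_eq_zero ((sy G).mem hu l' T h3 h5)).2 ((sy G).tor hw f l' hl' hu hT h3 h5 h2
      Fr.Tor.zero fun r _ h6 h7 h8 => Fr.Tor.step r h6 h7 h8)
  · rfl

end main

end Pool.Agent.MP_2a197d_al.S1
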